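import Pool.Agent.Work.MP_40506d_al.CX.Coprod

/-!
# Free graded modules over the monoid algebra `F₂[M]`, `M ≤ G`

Objects: based `F₂`-vector spaces with degrees in `G`; a linear map `f` is a morphism if
`e_j ∈ supp f(e_i)` implies `deg i - deg j ∈ M`.
-/

open CategoryTheory CategoryTheory.Limits CategoryTheory.MonoidalCategory

set_option linter.unusedSectionVars false

namespace MP40506.CX

/-- objects: a type with degrees -/
structure Fr (G : Type) [AddCommGroup G] (M : AddSubmonoid G) : Type 1 where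
  I : Type
  deg : I → G

noncomputable section

namespace Fr

variable {G : Type} [AddCommGroup G] {M : AddSubmonoid G}

/-- graded linear maps -/
@[ext] structure Hom (X Y : Fr G M) where
  f : (X.I →₀ ZMod 2) →ₗ[ZMod 2] (Y.I →₀ ZMod 2)
  gr : ∀ i j, f (Finsupp.single i 1) j ≠ 0 → X.deg i - Y.deg j ∈ M

/-- the matrix of a linear map -/
def ent {I J : Type} (f : (I →₀ ZMod 2) →ₗ[ZMod 2] (J →₀ ZMod 2)) (i : I) (j : J) : ZMod 2 :=
  f (Finsupp.single i 1) j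

lemma lin_ext {I J : Type} {f g : (I →₀ ZMod 2) →ₗ[ZMod 2] (J →₀ ZMod 2)}
    (h : ∀ i j, ent f i j = ent g i j) : f = g := by
  refine Finsupp.lhom_ext' fun i => LinearMap.ext_ring ?_
  ext j
  exact h i j

lemma lin_apply {I J : Type} (f : (I →₀ ZMod 2) →ₗ[ZMod 2] (J →₀ ZMod 2)) (x : I →₀ ZMod 2)
    (j : J) : f x j = x.sum fun i a => a * ent f i j := by
  have h : x = x.sum fun i a => a • Finsupp.single i (1 : ZMod 2) := by
    conv_lhs => rw [← x.sum_single]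
    simp
  conv_lhs => rw [h]
  rw [map_finsuppSum, Finsupp.sum, Finsupp.finsetSum_apply]
  refine Finset.sum_congr rfl fun i _ => ?_
  rw [map_smul]
  rfl

lemma ent_comp {I J K : Type} (f : (I →₀ ZMod 2) →ₗ[ZMod 2] (J →₀ ZMod 2))
    (g : (J →₀ ZMod 2) →ₗ[ZMod 2] (K →₀ ZMod 2)) (i : I) (l : K) :
    ent (g ∘ₗ f) i l = (f (Finsupp.single i 1)).sum fun j a => a * ent g j l := by
  exact lin_apply g _ _

lemma exists_of_ent_comp {I J K : Type} {f : (I →₀ ZMod 2) →ₗ[ZMod 2] (J →₀ ZMod 2)}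
    {g : (J →₀ ZMod 2) →ₗ[ZMod 2] (K →₀ ZMod 2)} {i : I} {l : K}
    (h : ent (g ∘ₗ f) i l ≠ 0) : ∃ j, ent f i j ≠ 0 ∧ ent g j l ≠ 0 := by
  rw [ent_comp] at h
  obtain ⟨j, hj, h1⟩ := Finset.exists_ne_zero_of_sum_ne_zero h
  refine ⟨j, Finsupp.mem_support_iff.1 hj, fun h2 => h1 ?_⟩
  show _ * ent g j l = 0
  rw [h2, mul_zero]

instance : Category (Fr G M) where
  Hom := Hom
  id X :=
    { f := LinearMap.id
      gr := by
        intro i j h
        have : i = j := by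
          by_contra hne
          exact h (by simp [hne])
        subst this
        simp [M.zero_mem] }
  comp {X Y Z} φ ψ :=
    { f := ψ.f ∘ₗ φ.f
      gr := by
        intro i l h
        obtain ⟨j, h1, h2⟩ := exists_of_ent_comp h
        have := M.add_mem (φ.gr i j h1) (ψ.gr j l h2)
        simpa using this }

@[simp] lemma id_f (X : Fr G M) : (𝟙 X : X ⟶ X).f = LinearMap.id := rfl
@[simp] lemma comp_f {X Y Z : Fr G M} (φ : X ⟶ Y) (ψ : Y ⟶ Z) : (φ ≫ ψ).f = ψ.f ∘ₗ φ.f := rfl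

@[ext] lemma hom_ext {X Y : Fr G M} {φ ψ : X ⟶ Y} (h : φ.f = ψ.f) : φ = ψ := Hom.ext h

lemma hom_ext' {X Y : Fr G M} {φ ψ : X ⟶ Y} (h : ∀ i j, ent φ.f i j = ent ψ.f i j) : φ = ψ :=
  Hom.ext (lin_ext h)

instance (X Y : Fr G M) : Zero (X ⟶ Y) := ⟨{ f := 0, gr := fun i j h => (h (by simp)).elim }⟩
instance (X Y : Fr G M) : Add (X ⟶ Y) := ⟨fun φ ψ =>
  { f := φ.f + ψ.f
    gr := by
      intro i j h
      by_cases h1 : φ.f (Finsupp.single i 1) j = 0
      · refine ψ.gr i j fun h2 => h ?_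
        simp [h1, h2]
      · exact φ.gr i j h1 }⟩
instance (X Y : Fr G M) : Neg (X ⟶ Y) := ⟨fun φ =>
  { f := -φ.f
    gr := by
      intro i j h
      exact φ.gr i j fun h1 => h (by simp [h1]) }⟩

@[simp] lemma zero_f (X Y : Fr G M) : (0 : X ⟶ Y).f = 0 := rfl
@[simp] lemma add_f {X Y : Fr G M} (φ ψ : X ⟶ Y) : (φ + ψ).f = φ.f + ψ.f := rfl
@[simp] lemma neg_f {X Y : Fr G M} (φ : X ⟶ Y) : (-φ).f = -φ.f := rfl

instance (X Y : Fr G M) : AddCommGroup (X ⟶ Y) where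
  add_assoc a b c := by ext1; simp [add_assoc]
  zero_add a := by ext1; simp
  add_zero a := by ext1; simp
  neg_add_cancel a := by ext1; exact neg_add_cancel a.f
  add_comm a b := by ext1; simp [add_comm]
  nsmul := nsmulRec
  zsmul := zsmulRec

instance : Preadditive (Fr G M) where
  add_comp _ _ _ f g h := by ext1; simp [LinearMap.comp_add]
  comp_add _ _ _ f g h := by ext1; simp [LinearMap.add_comp]

instance : Two (Fr G M) where
  add_self {X Y} φ := by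
    apply hom_ext'
    intro i j
    show ent φ.f i j + ent φ.f i j = 0
    exact CharTwo.add_self_eq_zero _

lemma ent_domLCongr {I J : Type} (e : I ≃ J) (i : I) (j : J) :
    ent (Finsupp.domLCongr e : (I →₀ ZMod 2) ≃ₗ[ZMod 2] (J →₀ ZMod 2)).toLinearMap i j =
      Finsupp.single (e i) (1 : ZMod 2) j := by
  show (Finsupp.domLCongr e : (I →₀ ZMod 2) ≃ₗ[ZMod 2] (J →₀ ZMod 2)) (Finsupp.single i 1) j = _
  rw [Finsupp.domLCongr_single]

lemma eq_of_single_ne_zero {J : Type} {a j : J} (h : Finsupp.single a (1 : ZMod 2) j ≠ 0) :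
    a = j := by
  by_contra hne
  exact h (Finsupp.single_eq_of_ne (Ne.symm hne))

/-- isomorphisms from degree preserving bijections -/
@[simps] noncomputable def isoOfEquiv {X Y : Fr G M} (e : X.I ≃ Y.I)
    (h : ∀ i, Y.deg (e i) = X.deg i) : X ≅ Y where
  hom :=
    { f := (Finsupp.domLCongr e : (X.I →₀ ZMod 2) ≃ₗ[ZMod 2] (Y.I →₀ ZMod 2)).toLinearMap
      gr := by
        intro i j hij
        have h1 := ent_domLCongr e i j
        have h2 : e i = j := eq_of_single_ne_zero (h1 ▸ hij)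
        rw [← h2, h, sub_self]
        exact M.zero_mem }
  inv :=
    { f := (Finsupp.domLCongr e.symm : (Y.I →₀ ZMod 2) ≃ₗ[ZMod 2] (X.I →₀ ZMod 2)).toLinearMap
      gr := by
        intro i j hij
        have h1 := ent_domLCongr e.symm i j
        have h2 : e.symm i = j := eq_of_single_ne_zero (h1 ▸ hij)
        rw [← h2, ← h, Equiv.apply_symm_apply, sub_self]
        exact M.zero_mem }
  hom_inv_id := by
    apply hom_ext
    apply LinearMap.ext
    intro x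
    show (Finsupp.domLCongr e.symm : (Y.I →₀ ZMod 2) ≃ₗ[ZMod 2] (X.I →₀ ZMod 2))
      ((Finsupp.domLCongr e : (X.I →₀ ZMod 2) ≃ₗ[ZMod 2] (Y.I →₀ ZMod 2)) x) = x
    ext i
    simp
  inv_hom_id := by
    apply hom_ext
    apply LinearMap.ext
    intro x
    show (Finsupp.domLCongr e : (X.I →₀ ZMod 2) ≃ₗ[ZMod 2] (Y.I →₀ ZMod 2))
      ((Finsupp.domLCongr e.symm : (Y.I →₀ ZMod 2) ≃ₗ[ZMod 2] (X.I →₀ ZMod 2)) x) = x
    ext i
    simp

lemma ent_comp_equiv {I J K : Type} (f : (I →₀ ZMod 2) →ₗ[ZMod 2] (J →₀ ZMod 2)) (e : J ≃ K)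
    (i : I) (l : K) :
    ent ((Finsupp.domLCongr e : (J →₀ ZMod 2) ≃ₗ[ZMod 2] (K →₀ ZMod 2)).toLinearMap ∘ₗ f) i l =
      ent f i (e.symm l) := by
  show (Finsupp.domLCongr e : (J →₀ ZMod 2) ≃ₗ[ZMod 2] (K →₀ ZMod 2)) (f (Finsupp.single i 1)) l = _
  simp [ent]

lemma ent_equiv_comp {I J K : Type} (e : I ≃ J) (g : (J →₀ ZMod 2) →ₗ[ZMod 2] (K →₀ ZMod 2))
    (i : I) (l : K) :
    ent (g ∘ₗ (Finsupp.domLCongr e : (I →₀ ZMod 2) ≃ₗ[ZMod 2] (J →₀ ZMod 2)).toLinearMap) i l =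
      ent g (e i) l := by
  show g ((Finsupp.domLCongr e : (I →₀ ZMod 2) ≃ₗ[ZMod 2] (J →₀ ZMod 2)) (Finsupp.single i 1)) l = _
  rw [Finsupp.domLCongr_single]
  rfl

lemma ent_id {I : Type} (i j : I) :
    ent (LinearMap.id : (I →₀ ZMod 2) →ₗ[ZMod 2] (I →₀ ZMod 2)) i j =
      Finsupp.single i (1 : ZMod 2) j := rfl

lemma ent_add {I J : Type} (f g : (I →₀ ZMod 2) →ₗ[ZMod 2] (J →₀ ZMod 2)) (i : I) (j : J) :
    ent (f + g) i j = ent f i j + ent g i j := rfl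

lemma ent_zero {I J : Type} (i : I) (j : J) :
    ent (0 : (I →₀ ZMod 2) →ₗ[ZMod 2] (J →₀ ZMod 2)) i j = 0 := rfl

instance : HasZeroObject (Fr G M) := by
  refine ⟨⟨⟨PEmpty, fun i => i.elim⟩, ?_⟩⟩
  rw [IsZero.iff_id_eq_zero]
  apply hom_ext'
  intro i
  exact i.elim

/-- the coproduct -/
def sig {J : Type} (X : J → Fr G M) : Fr G M where
  I := Σ j, (X j).I
  deg p := (X p.1).deg p.2

/-- the inclusions of the coproduct -/
noncomputable def sigι {J : Type} (X : J → Fr G M) (j : J) : X j ⟶ sig X where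
  f := Finsupp.lmapDomain (ZMod 2) (ZMod 2) (fun i => (⟨j, i⟩ : Σ j, (X j).I))
  gr := by
    intro i p hp
    have h1 : Finsupp.lmapDomain (ZMod 2) (ZMod 2) (fun i => (⟨j, i⟩ : Σ j, (X j).I))
      (Finsupp.single i 1) = Finsupp.single (⟨j, i⟩ : Σ j, (X j).I) 1 := by simp
    have h2 : (⟨j, i⟩ : Σ j, (X j).I) = p := eq_of_single_ne_zero (h1 ▸ hp)
    subst h2
    show (X j).deg i - (X j).deg i ∈ M
    rw [sub_self]
    exact M.zero_mem

lemma sigι_single {J : Type} (X : J → Fr G M) (j : J) (i : (X j).I) :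
    (sigι X j).f (Finsupp.single i 1) = Finsupp.single (⟨j, i⟩ : Σ j, (X j).I) 1 :=
  Finsupp.mapDomain_single

/-- the map out of the coproduct -/
noncomputable def sigDesc {J : Type} (X : J → Fr G M) {W : Fr G M} (φ : ∀ j, X j ⟶ W) :
    sig X ⟶ W where
  f := Finsupp.linearCombination (ZMod 2)
    (fun p : Σ j, (X j).I => (φ p.1).f (Finsupp.single p.2 1))
  gr := by
    rintro ⟨j, i⟩ l hl
    have h1 : Finsupp.linearCombination (ZMod 2)
      (fun p : Σ j, (X j).I => (φ p.1).f (Finsupp.single p.2 1))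
      (Finsupp.single (⟨j, i⟩ : Σ j, (X j).I) 1) = (φ j).f (Finsupp.single i 1) := by simp
    exact (φ j).gr i l (h1 ▸ hl)

lemma ent_sigDesc {J : Type} (X : J → Fr G M) {W : Fr G M} (φ : ∀ j, X j ⟶ W)
    (p : Σ j, (X j).I) (l : W.I) : ent (sigDesc X φ).f p l = ent (φ p.1).f p.2 l := by
  show Finsupp.linearCombination (ZMod 2)
      (fun p : Σ j, (X j).I => (φ p.1).f (Finsupp.single p.2 1)) (Finsupp.single p 1) l = _
  rw [Finsupp.linearCombination_single, one_smul]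
  rfl

lemma ent_sigι_comp {J : Type} (X : J → Fr G M) {W : Fr G M} (j : J) (ψ : sig X ⟶ W)
    (i : (X j).I) (l : W.I) : ent (sigι X j ≫ ψ).f i l = ent ψ.f ⟨j, i⟩ l := by
  show ψ.f ((sigι X j).f (Finsupp.single i 1)) l = _
  rw [sigι_single]
  rfl

@[reassoc (attr := simp)]
lemma sigι_sigDesc {J : Type} (X : J → Fr G M) {W : Fr G M} (φ : ∀ j, X j ⟶ W) (j : J) :
    sigι X j ≫ sigDesc X φ = φ j := by
  apply hom_ext'
  intro i l
  rw [ent_sigι_comp, ent_sigDesc]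

lemma sig_hom_ext {J : Type} (X : J → Fr G M) {W : Fr G M} {ψ ψ' : sig X ⟶ W}
    (h : ∀ j, sigι X j ≫ ψ = sigι X j ≫ ψ') : ψ = ψ' := by
  apply hom_ext'
  rintro ⟨j, i⟩ l
  rw [← ent_sigι_comp, ← ent_sigι_comp, h]

/-- `sig` is a coproduct -/
noncomputable def sigIsColimit {J : Type} (X : J → Fr G M) :
    IsColimit (Cofan.mk (sig X) (sigι X)) :=
  Cofan.IsColimit.mk _ (fun s => sigDesc X (fun j => s.inj j)) (fun s j => sigι_sigDesc X _ j)
    (fun s m h => sig_hom_ext X (fun j => by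
      rw [sigι_sigDesc]
      exact h j))

instance : HasCoproducts.{0} (Fr G M) := fun J =>
  { has_colimit := fun F => by
      have : HasColimit (Discrete.functor (F.obj ∘ Discrete.mk)) :=
        ⟨⟨⟨_, sigIsColimit (F.obj ∘ Discrete.mk)⟩⟩⟩
      exact hasColimit_of_iso (Discrete.natIsoFunctor (F := F)) }

instance : HasBinaryBiproducts (Fr G M) := by
  have : HasBinaryCoproducts (Fr G M) := inferInstanceAs (HasColimitsOfShape (Discrete WalkingPair) _)
  exact HasBinaryBiproducts.of_hasBinaryCoproducts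

/-- the tensor product of linear maps -/
def tensLin {I I' J J' : Type} (f : (I →₀ ZMod 2) →ₗ[ZMod 2] (I' →₀ ZMod 2))
    (g : (J →₀ ZMod 2) →ₗ[ZMod 2] (J' →₀ ZMod 2)) :
    (I × J →₀ ZMod 2) →ₗ[ZMod 2] (I' × J' →₀ ZMod 2) :=
  (finsuppTensorFinsupp' (ZMod 2) I' J').toLinearMap ∘ₗ
    TensorProduct.map f g ∘ₗ (finsuppTensorFinsupp' (ZMod 2) I J).symm.toLinearMap

lemma ent_tensLin {I I' J J' : Type} (f : (I →₀ ZMod 2) →ₗ[ZMod 2] (I' →₀ ZMod 2))
    (g : (J →₀ ZMod 2) →ₗ[ZMod 2] (J' →₀ ZMod 2)) (p : I × J) (p' : I' × J') :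
    ent (tensLin f g) p p' = ent f p.1 p'.1 * ent g p.2 p'.2 := by
  show (finsuppTensorFinsupp' (ZMod 2) I' J') (TensorProduct.map f g
    ((finsuppTensorFinsupp' (ZMod 2) I J).symm (Finsupp.single p 1))) p' = _
  rw [finsuppTensorFinsupp'_symm_single_eq_single_one_tmul, TensorProduct.map_tmul]
  exact finsuppTensorFinsupp'_apply_apply _ _ _ _ _ _ _

/-- the tensor product of graded linear maps -/
noncomputable def tens {X X' Y Y' : Fr G M} (φ : X ⟶ X') (ψ : Y ⟶ Y') :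
    (⟨X.I × Y.I, fun p => X.deg p.1 + Y.deg p.2⟩ : Fr G M) ⟶
      ⟨X'.I × Y'.I, fun p => X'.deg p.1 + Y'.deg p.2⟩ where
  f := (finsuppTensorFinsupp' (ZMod 2) X'.I Y'.I).toLinearMap ∘ₗ
    TensorProduct.map φ.f ψ.f ∘ₗ (finsuppTensorFinsupp' (ZMod 2) X.I Y.I).symm.toLinearMap
  gr := by
    intro p p' h
    have h1 : ent φ.f p.1 p'.1 * ent ψ.f p.2 p'.2 ≠ 0 := by
      rw [← ent_tensLin]
      exact h
    have h2 := M.add_mem (φ.gr _ _ (left_ne_zero_of_mul h1)) (ψ.gr _ _ (right_ne_zero_of_mul h1))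
    show X.deg p.1 + Y.deg p.2 - (X'.deg p'.1 + Y'.deg p'.2) ∈ M
    rwa [sub_add_sub_comm] at h2

/-- the basic formula for the tensor product -/
lemma ent_tens {X X' Y Y' : Fr G M} (φ : X ⟶ X') (ψ : Y ⟶ Y') (p : X.I × Y.I)
    (p' : X'.I × Y'.I) : ent (tens φ ψ).f p p' = ent φ.f p.1 p'.1 * ent ψ.f p.2 p'.2 :=
  ent_tensLin φ.f ψ.f p p'

lemma tens_id (X Y : Fr G M) :
    tens (𝟙 X) (𝟙 Y) = 𝟙 (⟨X.I × Y.I, fun p => X.deg p.1 + Y.deg p.2⟩ : Fr G M) := by
  apply hom_ext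
  apply LinearMap.ext
  intro x
  show (finsuppTensorFinsupp' (ZMod 2) X.I Y.I) (TensorProduct.map LinearMap.id LinearMap.id
    ((finsuppTensorFinsupp' (ZMod 2) X.I Y.I).symm x)) = x
  rw [TensorProduct.map_id, LinearMap.id_apply, LinearEquiv.apply_symm_apply]

lemma tens_comp {X X' X'' Y Y' Y'' : Fr G M} (φ : X ⟶ X') (φ' : X' ⟶ X'') (ψ : Y ⟶ Y')
    (ψ' : Y' ⟶ Y'') : tens φ ψ ≫ tens φ' ψ' = tens (φ ≫ φ') (ψ ≫ ψ') := by
  apply hom_ext
  apply LinearMap.ext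
  intro x
  show (finsuppTensorFinsupp' (ZMod 2) X''.I Y''.I) (TensorProduct.map φ'.f ψ'.f
    ((finsuppTensorFinsupp' (ZMod 2) X'.I Y'.I).symm
      ((finsuppTensorFinsupp' (ZMod 2) X'.I Y'.I) (TensorProduct.map φ.f ψ.f
    ((finsuppTensorFinsupp' (ZMod 2) X.I Y.I).symm x))))) =
    (finsuppTensorFinsupp' (ZMod 2) X''.I Y''.I) (TensorProduct.map (φ'.f ∘ₗ φ.f) (ψ'.f ∘ₗ ψ.f)
    ((finsuppTensorFinsupp' (ZMod 2) X.I Y.I).symm x))
  rw [LinearEquiv.symm_apply_apply, TensorProduct.map_comp, LinearMap.comp_apply]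

lemma isoOfEquiv_inv {X Y : Fr G M} (e : X.I ≃ Y.I) (h : ∀ i, Y.deg (e i) = X.deg i) :
    (isoOfEquiv e h).inv =
      (isoOfEquiv e.symm (fun i => by rw [← h, Equiv.apply_symm_apply])).hom := rfl

lemma isoOfEquiv_ext {X Y : Fr G M} {e e' : X.I ≃ Y.I} (h : ∀ i, Y.deg (e i) = X.deg i)
    (h' : ∀ i, Y.deg (e' i) = X.deg i) (he : ∀ i, e i = e' i) :
    (isoOfEquiv e h).hom = (isoOfEquiv e' h').hom := by
  have : e = e' := Equiv.ext he
  subst this
  rfl

lemma isoOfEquiv_comp {X Y Z : Fr G M} {e : X.I ≃ Y.I} (h : ∀ i, Y.deg (e i) = X.deg i)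
    {e' : Y.I ≃ Z.I} (h' : ∀ i, Z.deg (e' i) = Y.deg i) :
    (isoOfEquiv e h).hom ≫ (isoOfEquiv e' h').hom =
      (isoOfEquiv (e.trans e') (fun i => (h' (e i)).trans (h i))).hom := by
  apply hom_ext'
  intro i l
  refine (ent_equiv_comp e _ i l).trans ?_
  refine (ent_domLCongr e' (e i) l).trans ?_
  exact (ent_domLCongr (e.trans e') i l).symm

lemma single_mul_single {I J : Type} (p p' : I × J) :
    Finsupp.single p.1 (1 : ZMod 2) p'.1 * Finsupp.single p.2 (1 : ZMod 2) p'.2 =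
      Finsupp.single p (1 : ZMod 2) p' := by
  classical
  obtain ⟨a, b⟩ := p
  obtain ⟨c, d⟩ := p'
  simp only [Finsupp.single_apply, Prod.mk.injEq]
  by_cases h1 : a = c <;> by_cases h2 : b = d <;> simp [h1, h2]

lemma tens_isoOfEquiv {X X' Y Y' : Fr G M} (e : X.I ≃ X'.I) (h : ∀ i, X'.deg (e i) = X.deg i)
    (e' : Y.I ≃ Y'.I) (h' : ∀ i, Y'.deg (e' i) = Y.deg i) :
    tens (isoOfEquiv e h).hom (isoOfEquiv e' h').hom =
      (isoOfEquiv (X := (⟨X.I × Y.I, fun p => X.deg p.1 + Y.deg p.2⟩ : Fr G M))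
        (Y := ⟨X'.I × Y'.I, fun p => X'.deg p.1 + Y'.deg p.2⟩) (Equiv.prodCongr e e')
        (fun p => congrArg₂ (· + ·) (h p.1) (h' p.2))).hom := by
  apply hom_ext'
  intro p p'
  rw [ent_tens]
  refine (congrArg₂ (· * ·) (ent_domLCongr e p.1 p'.1) (ent_domLCongr e' p.2 p'.2)).trans ?_
  refine Eq.trans ?_ (ent_domLCongr (Equiv.prodCongr e e') p p').symm
  exact single_mul_single (e p.1, e' p.2) p'

lemma id_eq_isoOfEquiv (X : Fr G M) : 𝟙 X = (isoOfEquiv (Equiv.refl X.I) (fun _ => rfl)).hom := by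
  apply hom_ext'
  intro i j
  exact (ent_domLCongr (Equiv.refl X.I) i j).symm

noncomputable instance : MonoidalCategoryStruct (Fr G M) where
  tensorObj X Y := ⟨X.I × Y.I, fun p => X.deg p.1 + Y.deg p.2⟩
  tensorHom φ ψ := tens φ ψ
  whiskerLeft X _ _ ψ := tens (𝟙 X) ψ
  whiskerRight φ Y := tens φ (𝟙 Y)
  tensorUnit := ⟨Unit, fun _ => 0⟩
  associator X Y Z := isoOfEquiv (Equiv.prodAssoc X.I Y.I Z.I) (by intro i; simp [add_assoc])
  leftUnitor X := isoOfEquiv (Equiv.punitProd X.I) (by intro i; simp)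
  rightUnitor X := isoOfEquiv (Equiv.prodPUnit X.I) (by intro i; exact (add_zero _).symm)

lemma tensorHom_eq {X X' Y Y' : Fr G M} (φ : X ⟶ X') (ψ : Y ⟶ Y') : φ ⊗ₘ ψ = tens φ ψ := rfl
lemma whiskerLeft_eq (X : Fr G M) {Y Y' : Fr G M} (ψ : Y ⟶ Y') : X ◁ ψ = tens (𝟙 X) ψ := rfl
lemma whiskerRight_eq {X X' : Fr G M} (φ : X ⟶ X') (Y : Fr G M) : φ ▷ Y = tens φ (𝟙 Y) := rfl

noncomputable instance : MonoidalCategory (Fr G M) where
  id_tensorHom_id X Y := tens_id X Y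
  tensorHom_def {X₁ Y₁ X₂ Y₂} f g := by
    show tens f g = tens f (𝟙 X₂) ≫ tens (𝟙 Y₁) g
    rw [tens_comp, Category.comp_id, Category.id_comp]
  tensorHom_comp_tensorHom f₁ f₂ g₁ g₂ := tens_comp f₁ g₁ f₂ g₂
  whiskerLeft_id X Y := tens_id X Y
  id_whiskerRight X Y := tens_id X Y
  associator_naturality {X₁ X₂ X₃ Y₁ Y₂ Y₃} f₁ f₂ f₃ := by
    apply hom_ext'
    intro p l
    refine (ent_comp_equiv _ _ p l).trans ?_
    refine Eq.trans ?_ (ent_equiv_comp _ _ p l).symm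
    refine (ent_tens (tens f₁ f₂) f₃ p _).trans ?_
    refine (congrArg (fun a => a * ent f₃.f p.2 l.2.2) (ent_tens f₁ f₂ p.1 (l.1, l.2.1))).trans ?_
    refine Eq.trans ?_ (ent_tens f₁ (tens f₂ f₃) (p.1.1, (p.1.2, p.2)) l).symm
    refine Eq.trans ?_ (congrArg (fun a => ent f₁.f p.1.1 l.1 * a)
      (ent_tens f₂ f₃ (p.1.2, p.2) l.2)).symm
    exact mul_assoc _ _ _
  leftUnitor_naturality {X Y} f := by
    apply hom_ext'
    intro p l
    refine (ent_comp_equiv _ _ p l).trans ?_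
    refine Eq.trans ?_ (ent_equiv_comp _ _ p l).symm
    refine (ent_tens (𝟙 _) f p _).trans ?_
    show Finsupp.single () (1 : ZMod 2) () * ent f.f p.2 l = ent f.f p.2 l
    rw [Finsupp.single_eq_same, one_mul]
  rightUnitor_naturality {X Y} f := by
    apply hom_ext'
    intro p l
    refine (ent_comp_equiv _ _ p l).trans ?_
    refine Eq.trans ?_ (ent_equiv_comp _ _ p l).symm
    refine (ent_tens f (𝟙 _) p _).trans ?_
    show ent f.f p.1 l * Finsupp.single () (1 : ZMod 2) () = ent f.f p.1 l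
    rw [Finsupp.single_eq_same, mul_one]
  pentagon W X Y Z := by
    show tens (isoOfEquiv _ _).hom (𝟙 Z) ≫ (isoOfEquiv _ _).hom ≫ tens (𝟙 W) (isoOfEquiv _ _).hom =
      (isoOfEquiv _ _).hom ≫ (isoOfEquiv _ _).hom
    rw [id_eq_isoOfEquiv Z, id_eq_isoOfEquiv W, tens_isoOfEquiv, tens_isoOfEquiv]
    erw [isoOfEquiv_comp, isoOfEquiv_comp, isoOfEquiv_comp]
    apply isoOfEquiv_ext
    intro i
    rfl
  triangle X Y := by
    show (isoOfEquiv _ _).hom ≫ tens (𝟙 X) (isoOfEquiv _ _).hom =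
      tens (isoOfEquiv _ _).hom (𝟙 Y)
    rw [id_eq_isoOfEquiv Y, id_eq_isoOfEquiv X, tens_isoOfEquiv, tens_isoOfEquiv]
    erw [isoOfEquiv_comp]
    apply isoOfEquiv_ext
    intro i
    rfl

lemma tens_zero {X X' Y Y' : Fr G M} (φ : X ⟶ X') : tens φ (0 : Y ⟶ Y') = 0 := by
  apply hom_ext'
  intro p p'
  rw [ent_tens]
  show _ * (0 : ZMod 2) = 0
  rw [mul_zero]

lemma zero_tens {X X' Y Y' : Fr G M} (ψ : Y ⟶ Y') : tens (0 : X ⟶ X') ψ = 0 := by
  apply hom_ext'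
  intro p p'
  rw [ent_tens]
  show (0 : ZMod 2) * _ = 0
  rw [zero_mul]

lemma tens_add {X X' Y Y' : Fr G M} (φ : X ⟶ X') (ψ ψ' : Y ⟶ Y') :
    tens φ (ψ + ψ') = tens φ ψ + tens φ ψ' := by
  apply hom_ext'
  intro p p'
  rw [ent_tens]
  show _ * (ent ψ.f p.2 p'.2 + ent ψ'.f p.2 p'.2) = ent (tens φ ψ).f p p' + ent (tens φ ψ').f p p'
  rw [ent_tens, ent_tens, mul_add]

lemma add_tens {X X' Y Y' : Fr G M} (φ φ' : X ⟶ X') (ψ : Y ⟶ Y') :
    tens (φ + φ') ψ = tens φ ψ + tens φ' ψ := by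
  apply hom_ext'
  intro p p'
  rw [ent_tens]
  show (ent φ.f p.1 p'.1 + ent φ'.f p.1 p'.1) * _ = ent (tens φ ψ).f p p' + ent (tens φ' ψ).f p p'
  rw [ent_tens, ent_tens, add_mul]

instance : MonoidalPreadditive (Fr G M) where
  whiskerLeft_zero := tens_zero _
  zero_whiskerRight := zero_tens _
  whiskerLeft_add f g := tens_add _ f g
  add_whiskerRight f g := add_tens f g _

noncomputable instance : BraidedCategory (Fr G M) where
  braiding X Y := isoOfEquiv (Equiv.prodComm X.I Y.I) (by intro i; exact add_comm _ _)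
  braiding_naturality_right X Y Z f := by
    apply hom_ext'
    intro p l
    refine (ent_comp_equiv _ _ p l).trans ?_
    refine Eq.trans ?_ (ent_equiv_comp _ _ p l).symm
    refine (ent_tens (𝟙 X) f p _).trans ?_
    refine Eq.trans ?_ (ent_tens f (𝟙 X) _ l).symm
    exact mul_comm _ _
  braiding_naturality_left {X Y} f Z := by
    apply hom_ext'
    intro p l
    refine (ent_comp_equiv _ _ p l).trans ?_
    refine Eq.trans ?_ (ent_equiv_comp _ _ p l).symm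
    refine (ent_tens f (𝟙 Z) p _).trans ?_
    refine Eq.trans ?_ (ent_tens (𝟙 Z) f _ l).symm
    exact mul_comm _ _
  hexagon_forward X Y Z := by
    show (isoOfEquiv _ _).hom ≫ (isoOfEquiv _ _).hom ≫ (isoOfEquiv _ _).hom =
      tens (isoOfEquiv _ _).hom (𝟙 Z) ≫ (isoOfEquiv _ _).hom ≫ tens (𝟙 Y) (isoOfEquiv _ _).hom
    rw [id_eq_isoOfEquiv Z, id_eq_isoOfEquiv Y, tens_isoOfEquiv, tens_isoOfEquiv]
    erw [isoOfEquiv_comp, isoOfEquiv_comp, isoOfEquiv_comp, isoOfEquiv_comp]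
    apply isoOfEquiv_ext
    intro i
    rfl
  hexagon_reverse X Y Z := by
    show (isoOfEquiv _ _).inv ≫ (isoOfEquiv _ _).hom ≫ (isoOfEquiv _ _).inv =
      tens (𝟙 X) (isoOfEquiv _ _).hom ≫ (isoOfEquiv _ _).inv ≫ tens (isoOfEquiv _ _).hom (𝟙 Y)
    rw [id_eq_isoOfEquiv X, id_eq_isoOfEquiv Y, tens_isoOfEquiv, tens_isoOfEquiv,
      isoOfEquiv_inv, isoOfEquiv_inv, isoOfEquiv_inv]
    erw [isoOfEquiv_comp, isoOfEquiv_comp, isoOfEquiv_comp, isoOfEquiv_comp]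
    apply isoOfEquiv_ext
    intro i
    rfl

noncomputable instance : SymmetricCategory (Fr G M) where
  symmetry X Y := by
    show (isoOfEquiv _ _).hom ≫ (isoOfEquiv _ _).hom = 𝟙 (X ⊗ Y)
    rw [id_eq_isoOfEquiv]
    erw [isoOfEquiv_comp]
    apply isoOfEquiv_ext
    intro i
    rfl

/-- the distributivity bijection -/
def distr (I : Type) {J : Type} (K : J → Type) : (I × Σ j, K j) ≃ Σ j, I × K j where
  toFun p := ⟨p.2.1, (p.1, p.2.2)⟩
  invFun p := (p.2.1, ⟨p.1, p.2.2⟩)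
  left_inv _ := rfl
  right_inv _ := rfl

/-- the tensor product distributes over coproducts -/
noncomputable def distrIso (X : Fr G M) {J : Type} (Y : J → Fr G M) :
    X ⊗ sig Y ≅ sig (fun j => X ⊗ Y j) :=
  isoOfEquiv (distr X.I (fun j => (Y j).I)) (fun _ => rfl)

lemma whiskerLeft_sigι_distr (X : Fr G M) {J : Type} (Y : J → Fr G M) (j : J) :
    X ◁ sigι Y j ≫ (distrIso X Y).hom = sigι (fun j => X ⊗ Y j) j := by
  classical
  apply hom_ext'
  rintro ⟨i, y⟩ ⟨j', ⟨i', y'⟩⟩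
  refine (ent_comp_equiv _ _ (i, y) _).trans ?_
  refine (ent_tens (𝟙 X) (sigι Y j) (i, y) (i', ⟨j', y'⟩)).trans ?_
  have h1 : ent (sigι Y j).f y ⟨j', y'⟩ =
      Finsupp.single (⟨j, y⟩ : Σ j, (Y j).I) (1 : ZMod 2) ⟨j', y'⟩ :=
    congrArg (fun x => x ⟨j', y'⟩) (sigι_single Y j y)
  have h2 : ent (sigι (fun j => X ⊗ Y j) j).f (i, y) ⟨j', (i', y')⟩ =
      Finsupp.single (⟨j, (i, y)⟩ : Σ j, X.I × (Y j).I) (1 : ZMod 2) ⟨j', (i', y')⟩ :=
    congrArg (fun x => x ⟨j', (i', y')⟩) (sigι_single (fun j => X ⊗ Y j) j (i, y))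
  refine (congrArg₂ (· * ·) (ent_id i i') h1).trans (Eq.trans ?_ h2.symm)
  simp only [Finsupp.single_apply]
  by_cases hj : j = j'
  · subst hj
    by_cases hi : i = i' <;> by_cases hy : y = y' <;> simp [hi, hy]
  · simp [hj]

/-- the tensor product of a coproduct is a coproduct -/
noncomputable def tensorSigIsColimit (X : Fr G M) {J : Type} (Y : J → Fr G M) :
    IsColimit (Cofan.mk (X ⊗ sig Y) (fun j => X ◁ sigι Y j)) :=
  Cofan.IsColimit.mk _
    (fun s => (distrIso X Y).hom ≫ sigDesc (fun j => X ⊗ Y j) (fun j => s.inj j))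
    (fun s j => by
      show X ◁ sigι Y j ≫ (distrIso X Y).hom ≫ _ = _
      rw [← Category.assoc, whiskerLeft_sigι_distr, sigι_sigDesc])
    (fun s m h => by
      rw [← cancel_epi (distrIso X Y).inv, Iso.inv_hom_id_assoc]
      apply sig_hom_ext
      intro j
      rw [sigι_sigDesc, ← whiskerLeft_sigι_distr, Category.assoc, Iso.hom_inv_id_assoc]
      exact h j)

instance (X : Fr G M) (J : Type) : PreservesColimitsOfShape (Discrete J) (tensorLeft X) where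
  preservesColimit {K} := by
    have : PreservesColimit (Discrete.functor (K.obj ∘ Discrete.mk)) (tensorLeft X) :=
      preservesColimit_of_preserves_colimit_cocone (sigIsColimit (K.obj ∘ Discrete.mk))
        ((isColimitMapCoconeCofanMkEquiv (tensorLeft X) _ _).symm
          (tensorSigIsColimit X (K.obj ∘ Discrete.mk)))
    exact preservesColimit_of_iso_diagram (tensorLeft X) (Discrete.natIsoFunctor (F := K)).symm

end Fr

end

end MP40506.CX
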