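import Pool.Agent.Work.MP_40506d_al.CX.PhiCoh
import Pool.Agent.Work.MP_40506d_al.CX.Fr

/-!
# Graded differential modules `N` and the cohomology `H(X; N)`, `X` in `KC (Fr G M)`

`N` is a contravariant system: for `g - g' ∈ M` there is a map `N g' → N g`.
-/

open CategoryTheory CategoryTheory.Limits CategoryTheory.MonoidalCategory
  CategoryTheory.Pretriangulated

set_option linter.unusedSectionVars false

namespace MP40506.CX

noncomputable section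

open Classical

variable {G : Type} [AddCommGroup G]

/-- a graded differential module over `F₂[M]` -/
structure DG (M : AddSubmonoid G) where
  N : G → Type
  [ag : ∀ g, AddCommGroup (N g)]
  [md : ∀ g, Module (ZMod 2) (N g)]
  d : ∀ g, N g →ₗ[ZMod 2] N g
  dd : ∀ g x, d g (d g x) = 0
  tr : ∀ {g g' : G}, g - g' ∈ M → (N g' →ₗ[ZMod 2] N g)
  tr_id : ∀ (g : G) (h : g - g ∈ M) x, tr h x = x
  tr_comp : ∀ {g g' g'' : G} (h : g - g' ∈ M) (h' : g' - g'' ∈ M) (h'' : g - g'' ∈ M) x,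
    tr h (tr h' x) = tr h'' x
  tr_d : ∀ {g g' : G} (h : g - g' ∈ M) x, d g (tr h x) = tr h (d g' x)

attribute [instance] DG.ag DG.md

variable {M : AddSubmonoid G} (N : DG M)

namespace DG

/-- the transition map, zero if not defined -/
def tr' (g g' : G) : N.N g' →ₗ[ZMod 2] N.N g := if h : g - g' ∈ M then N.tr h else 0

lemma tr'_of {g g' : G} (h : g - g' ∈ M) : N.tr' g g' = N.tr h := dif_pos h

lemma tr'_apply {g g' : G} (h : g - g' ∈ M) (x : N.N g') : N.tr' g g' x = N.tr h x := by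
  rw [N.tr'_of h]

lemma d_tr' (g g' : G) (x : N.N g') : N.d g (N.tr' g g' x) = N.tr' g g' (N.d g' x) := by
  by_cases h : g - g' ∈ M
  · rw [N.tr'_of h, N.tr_d]
  · have h1 : N.tr' g g' = 0 := dif_neg h
    rw [h1, LinearMap.zero_apply, LinearMap.zero_apply, map_zero]

lemma tr'_self (g : G) (x : N.N g) : N.tr' g g x = x := by
  have h : g - g ∈ M := by rw [sub_self]; exact M.zero_mem
  rw [N.tr'_of h, N.tr_id]

lemma tr'_tr' {g g' g'' : G} (h : g - g' ∈ M) (h' : g' - g'' ∈ M) (x : N.N g'') :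
    N.tr' g g' (N.tr' g' g'' x) = N.tr' g g'' x := by
  have h'' : g - g'' ∈ M := by
    have := M.add_mem h h'
    rwa [sub_add_sub_cancel] at this
  rw [N.tr'_of h, N.tr'_of h', N.tr'_of h'', N.tr_comp]

lemma tr'_eq {g g' : G} (h : g = g') (x : N.N g) : N.tr' g g' (N.tr' g' g x) = x := by
  subst h
  rw [tr'_self, tr'_self]

lemma two (g : G) (x : N.N g) : x + x = 0 := by
  have h1 : x + x = ((1 : ZMod 2) + 1) • x := by rw [add_smul, one_smul]
  have h2 : ((1 : ZMod 2) + 1) = 0 := by decide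
  rw [h1, h2, zero_smul]

/-- every class dies after restriction along an element of `U` -/
def Dies (U : AddSubmonoid G) : Prop :=
  ∀ (a : G) (z : N.N a), N.d a z = 0 → ∃ u, u ∈ M ∧ u ∈ U ∧ ∃ y, N.d (a + u) y = N.tr' (a + u) a z

/-- the total complex of the square spanned by `h₁`, `h₂` at `g` is exact -/
def AcyQ (h₁ h₂ g : G) : Prop :=
  ∀ (x₀₀ : N.N g) (x₁₀ : N.N (g + h₁)) (x₀₁ : N.N (g + h₂)) (x₁₁ : N.N (g + h₁ + h₂)),
    N.d _ x₀₀ = 0 → N.d _ x₁₀ = N.tr' _ _ x₀₀ → N.d _ x₀₁ = N.tr' _ _ x₀₀ →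
    N.d _ x₁₁ = N.tr' _ _ x₁₀ + N.tr' _ _ x₀₁ →
    ∃ (y₀₀ : N.N g) (y₁₀ : N.N (g + h₁)) (y₀₁ : N.N (g + h₂)) (y₁₁ : N.N (g + h₁ + h₂)),
      N.d _ y₀₀ = x₀₀ ∧ N.d _ y₁₀ + N.tr' _ _ y₀₀ = x₁₀ ∧ N.d _ y₀₁ + N.tr' _ _ y₀₀ = x₀₁ ∧
      N.d _ y₁₁ + N.tr' _ _ y₁₀ + N.tr' _ _ y₀₁ = x₁₁

/-- the total complex of a square of degrees is exact -/
def AcyT (g₀₀ g₁₀ g₀₁ g₁₁ : G) : Prop :=
  ∀ (z₀₀ : N.N g₀₀) (z₁₀ : N.N g₁₀) (z₀₁ : N.N g₀₁) (z₁₁ : N.N g₁₁),
    N.d _ z₀₀ = 0 → N.d _ z₁₀ + N.tr' _ _ z₀₀ = 0 → N.d _ z₀₁ + N.tr' _ _ z₀₀ = 0 →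
    N.d _ z₁₁ + N.tr' _ _ z₁₀ + N.tr' _ _ z₀₁ = 0 →
    ∃ (y₀₀ : N.N g₀₀) (y₁₀ : N.N g₁₀) (y₀₁ : N.N g₀₁) (y₁₁ : N.N g₁₁),
      N.d _ y₀₀ = z₀₀ ∧ N.d _ y₁₀ + N.tr' _ _ y₀₀ = z₁₀ ∧ N.d _ y₀₁ + N.tr' _ _ y₀₀ = z₀₁ ∧
      N.d _ y₁₁ + N.tr' _ _ y₁₀ + N.tr' _ _ y₀₁ = z₁₁

lemma eq_of_add {g : G} {x y : N.N g} (h : x + y = 0) : x = y := by
  have h1 : x + y + y = y := by rw [h, zero_add]
  rwa [add_assoc, N.two, add_zero] at h1

lemma AcyQ.acyT {N : DG M} {h₁ h₂ c : G} (h : N.AcyQ h₁ h₂ c) {g₀₀ g₁₀ g₀₁ g₁₁ : G}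
    (e₀₀ : g₀₀ = c) (e₁₀ : g₁₀ = c + h₁) (e₀₁ : g₀₁ = c + h₂) (e₁₁ : g₁₁ = c + h₁ + h₂) :
    N.AcyT g₀₀ g₁₀ g₀₁ g₁₁ := by
  subst e₀₀ e₁₀ e₀₁ e₁₁
  intro z₀₀ z₁₀ z₀₁ z₁₁ k₀₀ k₁₀ k₀₁ k₁₁
  refine h z₀₀ z₁₀ z₀₁ z₁₁ k₀₀ (N.eq_of_add k₁₀) (N.eq_of_add k₀₁) (N.eq_of_add ?_)
  rw [← add_assoc]
  exact k₁₁

/-- cochains with values in `N` -/
abbrev Ch (X : Fr G M) : Type := ∀ i : X.I, N.N (X.deg i)

/-- the value at a vector of a cochain, at the degree `g` -/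
def ev (g : G) {Y : Fr G M} (y : N.Ch Y) : (Y.I →₀ ZMod 2) →ₗ[ZMod 2] N.N g :=
  Finsupp.linearCombination (ZMod 2) fun j => N.tr' g (Y.deg j) (y j)

lemma ev_apply (g : G) {Y : Fr G M} (y : N.Ch Y) (v : Y.I →₀ ZMod 2) :
    N.ev g y v = v.sum fun j a => a • N.tr' g (Y.deg j) (y j) :=
  Finsupp.linearCombination_apply _ _

lemma ev_single (g : G) {Y : Fr G M} (y : N.Ch Y) (j : Y.I) :
    N.ev g y (Finsupp.single j 1) = N.tr' g (Y.deg j) (y j) := by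
  rw [ev, Finsupp.linearCombination_single, one_smul]

/-- pull-back of cochains -/
def pull {X Y : Fr G M} (φ : X ⟶ Y) : N.Ch Y →ₗ[ZMod 2] N.Ch X where
  toFun y := fun i => N.ev (X.deg i) y (φ.f (Finsupp.single i 1))
  map_add' y y' := by
    funext i
    show N.ev (X.deg i) (y + y') _ = N.ev (X.deg i) y _ + N.ev (X.deg i) y' _
    rw [ev_apply, ev_apply, ev_apply, ← Finsupp.sum_add]
    refine Finsupp.sum_congr fun j _ => ?_
    rw [← smul_add, ← map_add]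
    rfl
  map_smul' c y := by
    funext i
    show N.ev (X.deg i) (c • y) _ = c • N.ev (X.deg i) y _
    rw [ev_apply, ev_apply, Finsupp.smul_sum]
    refine Finsupp.sum_congr fun j _ => ?_
    show _ • N.tr' _ _ (c • y j) = _
    rw [map_smul, smul_comm]

lemma pull_apply {X Y : Fr G M} (φ : X ⟶ Y) (y : N.Ch Y) (i : X.I) :
    N.pull φ y i = N.ev (X.deg i) y (φ.f (Finsupp.single i 1)) := rfl

lemma pull_id (X : Fr G M) (y : N.Ch X) : N.pull (𝟙 X) y = y := by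
  funext i
  rw [pull_apply]
  refine (N.ev_single (X.deg i) y i).trans ?_
  rw [tr'_self]

lemma pull_comp {X Y Z : Fr G M} (f : X ⟶ Y) (g : Y ⟶ Z) (z : N.Ch Z) :
    N.pull (f ≫ g) z = N.pull f (N.pull g z) := by
  funext i
  have key : ∀ v : Y.I →₀ ZMod 2, (∀ j ∈ v.support, X.deg i - Y.deg j ∈ M) →
      N.ev (X.deg i) z (g.f v) = N.ev (X.deg i) (N.pull g z) v := by
    intro v hv
    have h1 : g.f v = v.sum fun j a => a • g.f (Finsupp.single j 1) := by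
      have h : v = v.sum fun i a => a • Finsupp.single i (1 : ZMod 2) := by
        conv_lhs => rw [← v.sum_single]
        simp
      conv_lhs => rw [h]
      rw [map_finsuppSum]
      refine Finsupp.sum_congr fun j _ => ?_
      rw [map_smul]
    rw [h1, map_finsuppSum, ev_apply N (X.deg i) (N.pull g z)]
    refine Finsupp.sum_congr fun j hj => ?_
    rw [map_smul, pull_apply, ev_apply, ev_apply, map_finsuppSum]
    congr 1
    refine Finsupp.sum_congr fun l hl => ?_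
    rw [map_smul]
    congr 1
    have h2 : Y.deg j - Z.deg l ∈ M := g.gr j l (Finsupp.mem_support_iff.1 hl)
    exact (N.tr'_tr' (hv j hj) h2 (z l)).symm
  exact key _ (fun j hj => f.gr i j (Finsupp.mem_support_iff.1 hj))

lemma pull_add {X Y : Fr G M} (f g : X ⟶ Y) (y : N.Ch Y) :
    N.pull (f + g) y = N.pull f y + N.pull g y := by
  funext i
  exact map_add (N.ev (X.deg i) y) _ _

/-- the internal differential of cochains -/
def nuCh (X : Fr G M) : N.Ch X →ₗ[ZMod 2] N.Ch X :=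
  LinearMap.pi (fun i => N.d (X.deg i) ∘ₗ LinearMap.proj i)

lemma nuCh_apply (X : Fr G M) (x : N.Ch X) (i : X.I) : N.nuCh X x i = N.d (X.deg i) (x i) := rfl

lemma nuCh_pull {X Y : Fr G M} (f : X ⟶ Y) (y : N.Ch Y) :
    N.nuCh X (N.pull f y) = N.pull f (N.nuCh Y y) := by
  funext i
  rw [nuCh_apply, pull_apply, pull_apply, ev_apply, ev_apply, map_finsuppSum]
  refine Finsupp.sum_congr fun j _ => ?_
  rw [map_smul, d_tr']
  rfl

/-- the functor of cochains -/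
def pf : PF (Fr G M) where
  obj X := N.Ch X
  map f := (N.pull f).toAddMonoidHom
  map_id X x := N.pull_id X x
  map_comp f g z := N.pull_comp f g z
  map_add f g y := N.pull_add f g y
  nu X := (N.nuCh X).toAddMonoidHom
  nu_nu X x := by
    funext i
    exact N.dd _ _
  nu_map f y := N.nuCh_pull f y
  two X x := by
    funext i
    exact N.two _ _

lemma pf_D_apply (X : DObj (Fr G M)) (x : N.Ch X.X) (i : X.X.I) :
    N.pf.D X x i = N.d _ (x i) + N.ev (X.X.deg i) x (X.d.f (Finsupp.single i 1)) := rfl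

lemma pull_sigι {J : Type} (Y : J → Fr G M) (j : J) (z : N.Ch (Fr.sig Y)) (i : (Y j).I) :
    N.pull (Fr.sigι Y j) z i = z (⟨j, i⟩ : Σ j, (Y j).I) := by
  rw [pull_apply, Fr.sigι_single]
  refine (N.ev_single (Y := Fr.sig Y) _ z (⟨j, i⟩ : Σ j, (Y j).I)).trans ?_
  exact N.tr'_self _ _

lemma pf_isProd : N.pf.IsProd where
  prod := by
    intro J Y y
    let s : (∐ Y) ⟶ Fr.sig Y := Limits.Sigma.desc (Fr.sigι Y)
    have hs : ∀ j, Sigma.ι Y j ≫ s = Fr.sigι Y j := fun j => Limits.Sigma.ι_desc _ _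
    let z : N.Ch (Fr.sig Y) := fun p => y p.1 p.2
    refine ⟨N.pull s z, fun j => ?_⟩
    refine (N.pull_comp _ _ _).symm.trans ?_
    rw [hs]
    funext i
    rw [pull_sigι]
  ext := by
    intro J Y z hz
    let s : (∐ Y) ⟶ Fr.sig Y := Limits.Sigma.desc (Fr.sigι Y)
    have hs : ∀ j, Sigma.ι Y j ≫ s = Fr.sigι Y j := fun j => Limits.Sigma.ι_desc _ _
    let t : Fr.sig Y ⟶ (∐ Y) := Fr.sigDesc Y (Sigma.ι Y)
    have ht : ∀ j, Fr.sigι Y j ≫ t = Sigma.ι Y j := fun j => Fr.sigι_sigDesc _ _ _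
    have hst : s ≫ t = 𝟙 _ := by
      refine Limits.Sigma.hom_ext _ _ fun j => ?_
      rw [← Category.assoc, hs, ht, Category.comp_id]
    have h1 : N.pull t z = 0 := by
      funext p
      obtain ⟨j, i⟩ := p
      refine (N.pull_sigι Y j (N.pull t z) i).symm.trans ?_
      rw [← N.pull_comp, ht]
      have h2 : N.pull (Sigma.ι Y j) z = 0 := hz j
      rw [h2]
      rfl
    have h2 : N.pull s (N.pull t z) = z := by
      rw [← pull_comp, hst, pull_id]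
    rw [← h2, h1]
    exact _root_.map_zero _

/-- the cohomological functor `H(-; N)` -/
def coh : Coh (KC (Fr G M)) := PF.coh N.pf_isProd

end DG

end

end MP40506.CX
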