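import Pool.Agent.Work.MP_40506d_al.CX.TK
import Pool.Agent.Work.MP_40506d_al.CX.PhiDG

/-!
# The cohomology with values in `N` of `k(c)` and of `k(c) ⊗ (K_{h₁} ⊗ K_{h₂})`
-/

open CategoryTheory CategoryTheory.Limits CategoryTheory.MonoidalCategory
  CategoryTheory.Pretriangulated

set_option linter.unusedSectionVars false

namespace MP40506.CX

noncomputable section

variable {G : Type} [AddCommGroup G] {M : AddSubmonoid G}

namespace DG

variable (N : DG M)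

lemma ev_fin (g : G) {Y : Fr G M} [Fintype Y.I] (y : N.Ch Y) (v : Y.I →₀ ZMod 2) :
    N.ev g y v = ∑ j, v j • N.tr' g (Y.deg j) (y j) := by
  rw [ev_apply]
  exact Finsupp.sum_fintype _ _ (fun j => zero_smul _ _)

/-! ### rank one -/

lemma D_k1 (a : G) (x : N.Ch (k1 a : DObj (Fr G M)).X) :
    N.pf.D (k1 a) x = fun i => N.d _ (x i) := by
  funext i
  rw [pf_D_apply]
  have h : (k1 a : DObj (Fr G M)).d.f (Finsupp.single i 1) = 0 := rfl
  rw [h, map_zero, add_zero]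

lemma pull_mul {g g' : G} (h : g - g' ∈ M) (x : N.Ch (fr1 g' : Fr G M)) (i : (fr1 g : Fr G M).I) :
    N.pull (mul h : (fr1 g : Fr G M) ⟶ fr1 g') x i = N.tr' g g' (x ()) := by
  rw [pull_apply]
  exact N.ev_single g x ()

/-! ### the square -/

/-- the differential of `K ⊗ K` -/
def mQ (i j : Bool × Bool) : ZMod 2 :=
  mD i.1 j.1 * (if i.2 = j.2 then 1 else 0) + (if i.1 = j.1 then 1 else 0) * mD i.2 j.2

/-- the object `k(c) ⊗ (K ⊗ K)` -/
abbrev sqO (c : G) {h₁ h₂ : G} (hh₁ : h₁ ∈ M) (hh₂ : h₂ ∈ M) : DObj (Fr G M) :=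
  k1 c ⊗ (kz h₁ hh₁ ⊗ kz h₂ hh₂)

instance (c : G) {h₁ h₂ : G} (hh₁ : h₁ ∈ M) (hh₂ : h₂ ∈ M) : Fintype (sqO c hh₁ hh₂).X.I :=
  inferInstanceAs (Fintype (Unit × (Bool × Bool)))

lemma ent_sq (c : G) {h₁ h₂ : G} (hh₁ : h₁ ∈ M) (hh₂ : h₂ ∈ M) (i j : Unit × (Bool × Bool)) :
    Fr.ent (sqO c hh₁ hh₂).d.f i j = mQ i.2 j.2 := by
  rw [d_kK]
  refine (Fr.ent_tens (𝟙 (fr1 c : Fr G M)) (kz h₁ hh₁ ⊗ kz h₂ hh₂).d i j).trans ?_
  have h2 : Fr.ent (𝟙 (fr1 c : Fr G M) : fr1 c ⟶ fr1 c).f i.1 j.1 = 1 :=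
    (Fr.ent_idf (I := Unit) _ _).trans (if_pos (Subsingleton.elim (α := Unit) _ _))
  refine (congrArg (· * _) h2).trans ?_
  rw [one_mul]
  refine (Fr.ent_add' (Fr.tens (kzd h₁ hh₁) (𝟙 (kzX M h₂))) (Fr.tens (𝟙 (kzX M h₁)) (kzd h₂ hh₂))
    i.2 j.2).trans ?_
  refine congrArg₂ (· + ·) ?_ ?_
  · refine (Fr.ent_tens (kzd h₁ hh₁) (𝟙 (kzX M h₂)) i.2 j.2).trans ?_
    exact congrArg₂ (· * ·) (ent_kzd h₁ hh₁ i.2.1 j.2.1) (Fr.ent_idf (I := Bool) _ _)
  · refine (Fr.ent_tens (𝟙 (kzX M h₁)) (kzd h₂ hh₂) i.2 j.2).trans ?_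
    exact congrArg₂ (· * ·) (Fr.ent_idf (I := Bool) _ _) (ent_kzd h₂ hh₂ i.2.2 j.2.2)

/-- degrees of the square -/
def sqd (c h₁ h₂ : G) (b : Bool × Bool) : G :=
  c + ((if b.1 then h₁ else 0) + (if b.2 then h₂ else 0))

lemma D_sq (c : G) {h₁ h₂ : G} (hh₁ : h₁ ∈ M) (hh₂ : h₂ ∈ M)
    (x : ∀ b : Bool × Bool, N.N (sqd c h₁ h₂ b)) (b : Bool × Bool) :
    N.pf.D (sqO c hh₁ hh₂) (fun i => x i.2) ((), b) =
      N.d _ (x b) + ∑ j : Bool × Bool, mQ b j • N.tr' _ _ (x j) := by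
  refine (N.pf_D_apply _ _ _).trans ?_
  refine congrArg₂ (· + ·) rfl ?_
  have h1 := N.ev_fin (sqd c h₁ h₂ b) (Y := (sqO c hh₁ hh₂).X) (fun i => x i.2)
    ((sqO c hh₁ hh₂).d.f (Finsupp.single ((), b) 1))
  refine h1.trans ?_
  have h2 : ∀ f : Unit × (Bool × Bool) → N.N (sqd c h₁ h₂ b),
      ∑ j : Unit × (Bool × Bool), f j = ∑ j : Bool × Bool, f ((), j) := by
    intro f
    rw [Fintype.sum_prod_type, Fintype.sum_unique]
  refine (h2 _).trans ?_
  refine Finset.sum_congr rfl fun j _ => ?_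
  exact congrArg (· • N.tr' _ _ (x j)) (ent_sq c hh₁ hh₂ ((), b) ((), j))

lemma mQ_ff (j : Bool × Bool) : mQ (false, false) j = 0 := by revert j; decide
lemma mQ_tf (j : Bool × Bool) : mQ (true, false) j = if j = (false, false) then 1 else 0 := by
  revert j; decide
lemma mQ_ft (j : Bool × Bool) : mQ (false, true) j = if j = (false, false) then 1 else 0 := by
  revert j; decide
lemma mQ_tt (j : Bool × Bool) : mQ (true, true) j =
    (if j = (true, false) then 1 else 0) + (if j = (false, true) then 1 else 0) := by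
  revert j; decide

section Sums

variable (c h₁ h₂ : G) (x : ∀ b : Bool × Bool, N.N (sqd c h₁ h₂ b))

lemma sum_ff : ∑ j : Bool × Bool, mQ (false, false) j •
    N.tr' (sqd c h₁ h₂ (false, false)) _ (x j) = 0 :=
  Finset.sum_eq_zero (fun j _ => by rw [mQ_ff, zero_smul])

lemma sum_tf : ∑ j : Bool × Bool, mQ (true, false) j •
    N.tr' (sqd c h₁ h₂ (true, false)) _ (x j) = N.tr' _ _ (x (false, false)) := by
  rw [Finset.sum_eq_single (false, false) (fun j _ hj => by rw [mQ_tf, if_neg hj, zero_smul])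
    (fun h => absurd (Finset.mem_univ _) h), mQ_tf, if_pos rfl, one_smul]

lemma sum_ft : ∑ j : Bool × Bool, mQ (false, true) j •
    N.tr' (sqd c h₁ h₂ (false, true)) _ (x j) = N.tr' _ _ (x (false, false)) := by
  rw [Finset.sum_eq_single (false, false) (fun j _ hj => by rw [mQ_ft, if_neg hj, zero_smul])
    (fun h => absurd (Finset.mem_univ _) h), mQ_ft, if_pos rfl, one_smul]

lemma sum_tt : ∑ j : Bool × Bool, mQ (true, true) j •
    N.tr' (sqd c h₁ h₂ (true, true)) _ (x j) =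
      N.tr' _ _ (x (true, false)) + N.tr' _ _ (x (false, true)) := by
  have h1 : ∀ j : Bool × Bool, mQ (true, true) j • N.tr' (sqd c h₁ h₂ (true, true)) _ (x j) =
      (if j = (true, false) then N.tr' (sqd c h₁ h₂ (true, true)) _ (x j) else 0) +
      (if j = (false, true) then N.tr' (sqd c h₁ h₂ (true, true)) _ (x j) else 0) := by
    intro j
    rw [mQ_tt, add_smul]
    congr 1
    · split_ifs
      · rw [one_smul]
      · rw [zero_smul]
    · split_ifs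
      · rw [one_smul]
      · rw [zero_smul]
  rw [Finset.sum_congr rfl (fun j _ => h1 j), Finset.sum_add_distrib]
  congr 1
  · rw [Finset.sum_eq_single (true, false) (fun j _ hj => by rw [if_neg hj])
      (fun h => absurd (Finset.mem_univ _) h), if_pos rfl]
  · rw [Finset.sum_eq_single (false, true) (fun j _ hj => by rw [if_neg hj])
      (fun h => absurd (Finset.mem_univ _) h), if_pos rfl]

end Sums

section Ds

variable (c : G) {h₁ h₂ : G} (hh₁ : h₁ ∈ M) (hh₂ : h₂ ∈ M)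
  (x : ∀ b : Bool × Bool, N.N (sqd c h₁ h₂ b))

lemma D_ff :
    N.pf.D (sqO c hh₁ hh₂) (fun i => x i.2) ((), (false, false)) = N.d _ (x (false, false)) :=
  (N.D_sq c hh₁ hh₂ x _).trans ((congrArg (N.d _ (x (false, false)) + ·)
    (N.sum_ff c h₁ h₂ x)).trans (add_zero _))

lemma D_tf :
    N.pf.D (sqO c hh₁ hh₂) (fun i => x i.2) ((), (true, false)) =
      N.d _ (x (true, false)) + N.tr' (sqd c h₁ h₂ (true, false)) _ (x (false, false)) :=
  (N.D_sq c hh₁ hh₂ x _).trans (congrArg (N.d _ (x (true, false)) + ·)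
    (N.sum_tf c h₁ h₂ x))

lemma D_ft :
    N.pf.D (sqO c hh₁ hh₂) (fun i => x i.2) ((), (false, true)) =
      N.d _ (x (false, true)) + N.tr' (sqd c h₁ h₂ (false, true)) _ (x (false, false)) :=
  (N.D_sq c hh₁ hh₂ x _).trans (congrArg (N.d _ (x (false, true)) + ·)
    (N.sum_ft c h₁ h₂ x))

lemma D_tt :
    N.pf.D (sqO c hh₁ hh₂) (fun i => x i.2) ((), (true, true)) =
      N.d _ (x (true, true)) + N.tr' (sqd c h₁ h₂ (true, true)) _ (x (true, false)) +
        N.tr' (sqd c h₁ h₂ (true, true)) _ (x (false, true)) :=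
  (N.D_sq c hh₁ hh₂ x _).trans ((congrArg (N.d _ (x (true, true)) + ·)
    (N.sum_tt c h₁ h₂ x)).trans (add_assoc _ _ _).symm)

end Ds

/-- exactness of the square -/
theorem exists_of_acyT (c : G) {h₁ h₂ : G} (hh₁ : h₁ ∈ M) (hh₂ : h₂ ∈ M)
    (h : N.AcyT (sqd c h₁ h₂ (false, false)) (sqd c h₁ h₂ (true, false))
      (sqd c h₁ h₂ (false, true)) (sqd c h₁ h₂ (true, true)))
    (x : N.Ch (sqO c hh₁ hh₂).X) (hx : N.pf.D (sqO c hh₁ hh₂) x = 0) :
    ∃ w, N.pf.D (sqO c hh₁ hh₂) w = x := by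
  let x' : ∀ b : Bool × Bool, N.N (sqd c h₁ h₂ b) := fun b => x ((), b)
  have hx' : N.pf.D (sqO c hh₁ hh₂) (fun i => x' i.2) = 0 := hx
  obtain ⟨y₀₀, y₁₀, y₀₁, y₁₁, e₀₀, e₁₀, e₀₁, e₁₁⟩ := h (x' (false, false)) (x' (true, false))
    (x' (false, true)) (x' (true, true))
    ((N.D_ff c hh₁ hh₂ x').symm.trans (congrFun hx' _))
    ((N.D_tf c hh₁ hh₂ x').symm.trans (congrFun hx' _))
    ((N.D_ft c hh₁ hh₂ x').symm.trans (congrFun hx' _))
    ((N.D_tt c hh₁ hh₂ x').symm.trans (congrFun hx' _))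
  let y : ∀ b : Bool × Bool, N.N (sqd c h₁ h₂ b) := fun b => match b with
    | (false, false) => y₀₀
    | (true, false) => y₁₀
    | (false, true) => y₀₁
    | (true, true) => y₁₁
  refine ⟨fun i => y i.2, ?_⟩
  funext i
  match i with
  | ((), (false, false)) => exact (N.D_ff c hh₁ hh₂ y).trans e₀₀
  | ((), (true, false)) => exact (N.D_tf c hh₁ hh₂ y).trans e₁₀
  | ((), (false, true)) => exact (N.D_ft c hh₁ hh₂ y).trans e₀₁
  | ((), (true, true)) => exact (N.D_tt c hh₁ hh₂ y).trans e₁₁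

end DG

end

end MP40506.CX
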