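import Pool.Agent.Work.MP_40506d_al.CX.TDef
import Pool.Agent.Work.MP_40506d_al.CX.PhiSq

/-!
# The object of `TT G M` representing the cohomology with values in `N`
-/

open CategoryTheory CategoryTheory.Limits CategoryTheory.MonoidalCategory
  CategoryTheory.Pretriangulated

set_option linter.unusedSectionVars false

namespace MP40506.CX

noncomputable section

variable {G : Type} [AddCommGroup G] {M : AddSubmonoid G}

section Rep

variable (N : DG M)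

/-- the representing object in `KC (Fr G M)` -/
lemma exists_rep_KC : ∃ (E : KC (Fr G M)) (e : N.coh.obj E),
    (∀ P : ObjectProperty (KC (Fr G M)), IsLocalizing P → (∀ g, P ⟨k1 g⟩) → P E) ∧
    ∀ X : KC (Fr G M),
      (∀ P : ObjectProperty (KC (Fr G M)), IsLocalizing P → (∀ g, P ⟨k1 g⟩) → P X) →
      Function.Bijective (fun g : X ⟶ E => N.coh.map g e) :=
  N.coh.exists_brown (J := G) (fun g => ⟨k1 g⟩) (fun g => RigidGen.cpt (C := FinC G M) _ ⟨k1 g, finRk_k1 g, ⟨Iso.refl _⟩⟩)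
    (fun j _ => ⟨j, ⟨Iso.refl _⟩⟩)

/-- the representing object in `TT G M` -/
lemma exists_rep_TT : ∃ (Z : TT G M) (e : N.pf.H Z.obj.out), ∀ X : TT G M,
    Function.Bijective (fun g : X ⟶ Z => N.pf.kmap g.hom e) := by
  obtain ⟨E, e, h1, h2⟩ := exists_rep_KC N
  refine ⟨⟨E, fun P hP hC => h1 P hP (fun g => hC _ ⟨k1 g, finRk_k1 g, ⟨Iso.refl _⟩⟩)⟩, e,
    fun X => ?_⟩
  have h3 := h2 X.obj (fun P hP hk => locP_le X P hP hk)
  constructor
  · intro f g hfg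
    apply ObjectProperty.hom_ext
    exact h3.1 hfg
  · intro y
    obtain ⟨f, hf⟩ := h3.2 y
    exact ⟨ObjectProperty.homMk f, hf⟩

end Rep

/-- the representing object, and what it detects -/
theorem exists_repr (N : DG M) : ∃ Z : TT G M,
    (∀ (a : G) (z : N.N a), N.d a z = 0 → (∀ y, N.d a y ≠ z) → ¬ IsZero Z) ∧
    (∀ U : AddSubmonoid G, N.Dies U → ∀ (a : G) (x : tk a ⟶ Z), ∃ (u : G) (hM : u ∈ M), u ∈ U ∧
      tmul (show a + u - a ∈ M by simpa using hM) ≫ x = 0) ∧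
    (∀ (U : AddSubmonoid G) (h₁ h₂ : G) (hh₁ : h₁ ∈ M) (hh₂ : h₂ ∈ M),
      (∀ a, ∃ u, u ∈ M ∧ u ∈ U ∧ N.AcyQ h₁ h₂ (a + u)) →
      ∀ (a : G) (x : tk a ⊗ (tkz h₁ hh₁ ⊗ tkz h₂ hh₂) ⟶ Z), ∃ (u : G) (hM : u ∈ M), u ∈ U ∧
        (tmul (show a + u - a ∈ M by simpa using hM) ▷ (tkz h₁ hh₁ ⊗ tkz h₂ hh₂)) ≫ x = 0) := by
  obtain ⟨Z, e, hZ⟩ := exists_rep_TT N
  have hinj : ∀ {X : TT G M} (f : X ⟶ Z), N.pf.kmap f.hom e = 0 → f = 0 := by
    intro X f hf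
    apply (hZ X).1
    refine hf.trans ?_
    have h0 : N.pf.kmap (0 : X ⟶ Z).hom e = 0 := by
      have h1 := N.pf.kmap_add (0 : X ⟶ Z).hom (0 : X ⟶ Z).hom e
      have h2 : (0 : X ⟶ Z).hom + (0 : X ⟶ Z).hom = (0 : X ⟶ Z).hom :=
        congrArg (fun t => t.hom) (add_zero (0 : X ⟶ Z))
      rw [h2] at h1
      exact left_eq_add.mp h1
    exact h0.symm
  refine ⟨Z, ?_, ?_, ?_⟩
  · intro a z hz hn h0
    let y : N.Ch (k1 a : DObj (Fr G M)).X := fun _ => z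
    have hy : N.pf.D (k1 a) y = 0 := by
      rw [DG.D_k1]
      funext i
      exact hz
    obtain ⟨f, hf⟩ := (hZ (tk a)).2 (N.pf.cl y hy)
    obtain ⟨g, hg⟩ := (hZ (tk a)).2 0
    have hfg : f = g := h0.eq_of_tgt f g
    subst hfg
    have h1 : N.pf.cl y hy = 0 := hf.symm.trans hg
    obtain ⟨w, hw⟩ := (N.pf.cl_eq_zero y hy).1 h1
    rw [DG.D_k1] at hw
    exact hn (w ()) (congrFun hw ())
  · intro U hU a x
    obtain ⟨y, hy, hyx⟩ := N.pf.exists_cl (X := k1 a) (N.pf.kmap x.hom e)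
    have hy' := hy
    rw [DG.D_k1] at hy'
    obtain ⟨u, hM, hu, w, hw⟩ := hU a (y ()) (congrFun hy' ())
    refine ⟨u, hM, hu, hinj _ ?_⟩
    have hm : a + u - a ∈ M := by simpa using hM
    have h1 : N.pf.kmap (KC.q (dmul hm) : (⟨k1 (a + u)⟩ : KC (Fr G M)) ⟶ ⟨k1 a⟩)
        (N.pf.kmap x.hom e) = 0 := by
      refine (congrArg _ hyx.symm).trans ?_
      refine (N.pf.kmap_q (X := (⟨k1 (a + u)⟩ : KC (Fr G M))) (Y := ⟨k1 a⟩) (dmul hm) _).trans ?_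
      refine (N.pf.cl_eq_zero _ _).2 ⟨fun _ => w, ?_⟩
      rw [DG.D_k1]
      funext i
      exact hw.trans (N.pull_mul hm y i).symm
    refine Eq.trans ?_ h1
    exact N.pf.kmap_comp (KC.q (dmul hm) : (⟨k1 (a + u)⟩ : KC (Fr G M)) ⟶ ⟨k1 a⟩) x.hom e
  · intro U h₁ h₂ hh₁ hh₂ hA a x
    obtain ⟨u, hM, hu, hQ⟩ := hA a
    refine ⟨u, hM, hu, ?_⟩
    have key : ∀ f : (tk (a + u) : TT G M) ⊗ (tkz h₁ hh₁ ⊗ tkz h₂ hh₂) ⟶ Z, f = 0 := by
      intro f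
      apply hinj
      obtain ⟨y, hy, hyx⟩ := N.pf.exists_cl (X := DG.sqO (a + u) hh₁ hh₂) (N.pf.kmap f.hom e)
      refine hyx.symm.trans ?_
      refine (N.pf.cl_eq_zero _ _).2 ?_
      refine N.exists_of_acyT (a + u) hh₁ hh₂ (hQ.acyT ?_ ?_ ?_ ?_) y hy
      · simp [DG.sqd]
      · simp [DG.sqd]
      · simp [DG.sqd]
      · simp [DG.sqd, add_assoc]
    exact key _

end

end MP40506.CX
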