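import Pool.Agent.Work.MP_40506d_al.CX.Coprod

/-!
# The functor `KC A ⥤ KC B` induced by an additive monoidal functor
-/

open CategoryTheory CategoryTheory.Limits CategoryTheory.MonoidalCategory
  CategoryTheory.Pretriangulated

universe w v u v' u'

set_option linter.unusedSectionVars false

namespace MP40506.CX

section

variable {A : Type u} [Category.{v} A] [Preadditive A]

/-- the map out of a coproduct -/
noncomputable def DObj.descOf {J : Type w} {P : J → DObj A} {C : DObj A} {ι : ∀ j, P j ⟶ C}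
    (h : IsColimit (Cofan.mk C.X (fun j => (ι j).f))) {R : DObj A} (φ : ∀ j, P j ⟶ R) :
    C ⟶ R where
  f := Cofan.IsColimit.desc h (fun j => (φ j).f)
  comm := by
    refine Cofan.IsColimit.hom_ext h _ _ fun j => ?_
    have h1 : (ι j).f ≫ Cofan.IsColimit.desc h (fun j => (φ j).f) = (φ j).f :=
      Cofan.IsColimit.fac h _ j
    show (ι j).f ≫ C.d ≫ Cofan.IsColimit.desc h (fun j => (φ j).f) =
      (ι j).f ≫ Cofan.IsColimit.desc h (fun j => (φ j).f) ≫ R.d
    rw [← (ι j).comm_assoc, h1, (φ j).comm, reassoc_of% h1]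

lemma DObj.ι_descOf {J : Type w} {P : J → DObj A} {C : DObj A} {ι : ∀ j, P j ⟶ C}
    (h : IsColimit (Cofan.mk C.X (fun j => (ι j).f))) {R : DObj A} (φ : ∀ j, P j ⟶ R) (j : J) :
    ι j ≫ DObj.descOf h φ = φ j := by
  ext
  exact Cofan.IsColimit.fac h _ j

/-- coproducts of underlying objects are coproducts in the homotopy category -/
noncomputable def KC.isColimitCofan {J : Type w} (P : J → DObj A) (C : DObj A) (ι : ∀ j, P j ⟶ C)
    (h : IsColimit (Cofan.mk C.X (fun j => (ι j).f))) :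
    IsColimit (Cofan.mk (⟨C⟩ : KC A) (fun j => (KC.q (ι j) : (⟨P j⟩ : KC A) ⟶ ⟨C⟩))) := by
  refine Cofan.IsColimit.mk _
    (fun s => KC.q (X := ⟨C⟩) (DObj.descOf h fun j => (KC.exists_q (s.inj j)).choose))
    (fun s j => ?_) (fun s m hm => ?_)
  · show (KC.q (ι j) : (⟨P j⟩ : KC A) ⟶ ⟨C⟩) ≫ KC.q (X := ⟨C⟩) _ = _
    rw [← KC.q_comp, DObj.ι_descOf]
    exact (KC.exists_q (s.inj j)).choose_spec
  · obtain ⟨m, rfl⟩ := KC.exists_q m
    change C ⟶ s.pt.out at m
    refine (KC.q_eq_iff _ _).2 ?_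
    have h1 : ∀ j, ∃ k : (P j).X ⟶ s.pt.out.X,
        (ι j).f ≫ (m - DObj.descOf h fun j => (KC.exists_q (s.inj j)).choose).f =
          (P j).d ≫ k + k ≫ s.pt.out.d := by
      intro j
      have h2 : (KC.q (ι j ≫ m) : (⟨P j⟩ : KC A) ⟶ s.pt) =
          KC.q (X := ⟨P j⟩) (ι j ≫ DObj.descOf h fun j => (KC.exists_q (s.inj j)).choose) := by
        rw [DObj.ι_descOf]
        exact (hm j).trans (KC.exists_q (s.inj j)).choose_spec.symm
      obtain ⟨k, hk⟩ := (KC.q_eq_iff _ _).1 h2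
      refine ⟨k, ?_⟩
      rw [← hk]
      exact congrArg DObj.Hom.f (Preadditive.comp_sub (ι j) m _)
    choose k hk using h1
    obtain ⟨k', hk'⟩ : ∃ k' : C.X ⟶ s.pt.out.X, ∀ j, (ι j).f ≫ k' = k j :=
      ⟨Cofan.IsColimit.desc h k, fun j => Cofan.IsColimit.fac h _ j⟩
    refine ⟨k', ?_⟩
    refine Cofan.IsColimit.hom_ext h _ _ fun j => ?_
    refine (hk j).trans ?_
    show _ = (ι j).f ≫ (C.d ≫ k' + k' ≫ s.pt.out.d)
    rw [Preadditive.comp_add, ← (ι j).comm_assoc, hk', reassoc_of% (hk' j)]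

end

variable {A : Type u} [Category.{v} A] [Preadditive A] {B : Type u'} [Category.{v'} B]
  [Preadditive B] (F : A ⥤ B) [F.Additive]

/-- the functor on differential objects -/
@[simps] def DObj.mapO (P : DObj A) : DObj B where
  X := F.obj P.X
  d := F.map P.d
  dd := by rw [← F.map_comp, P.dd, F.map_zero]

/-- the functor on differential objects -/
@[simps] def DObj.mapF : DObj A ⥤ DObj B where
  obj P := DObj.mapO F P
  map {P R} φ :=
    { f := F.map φ.f
      comm := by
        show F.map P.d ≫ F.map φ.f = F.map φ.f ≫ F.map R.d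
        rw [← F.map_comp, φ.comm, F.map_comp] }

lemma DObj.mapF_mem_nullH {P R : DObj A} {φ : P ⟶ R} (h : φ ∈ DObj.nullH P R) :
    (DObj.mapF F).map φ ∈ DObj.nullH ((DObj.mapF F).obj P) ((DObj.mapF F).obj R) := by
  obtain ⟨k, hk⟩ := h
  refine ⟨F.map k, ?_⟩
  show F.map φ.f = F.map P.d ≫ F.map k + F.map k ≫ F.map R.d
  rw [hk, F.map_add, F.map_comp, F.map_comp]

/-- the functor on homotopy categories -/
def KC.mapF : KC A ⥤ KC B where
  obj X := ⟨(DObj.mapF F).obj X.out⟩
  map {X Y} f := Quotient.liftOn' f (fun φ => KC.q ((DObj.mapF F).map φ)) (by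
    intro φ ψ h
    have h1 : φ - ψ ∈ DObj.nullH _ _ := (KC.cls_eq_iff _ _).1 (Quotient.sound' h)
    refine (KC.q_eq_iff _ _).2 ?_
    have h2 := DObj.mapF_mem_nullH F h1
    have h3 : (DObj.mapF F).map (φ - ψ) = (DObj.mapF F).map φ - (DObj.mapF F).map ψ := by
      rw [sub_eq_add_neg, sub_eq_add_neg]
      ext
      exact (F.map_add (f := φ.f) (g := -ψ.f)).trans (by rw [F.map_neg]; rfl)
    rw [h3] at h2
    exact h2)
  map_id X := by
    show KC.q ((DObj.mapF F).map (𝟙 X.out)) = _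
    rw [CategoryTheory.Functor.map_id]
    rfl
  map_comp {X Y Z} f g := by
    obtain ⟨φ, rfl⟩ := KC.exists_q f
    obtain ⟨ψ, rfl⟩ := KC.exists_q g
    exact congrArg KC.q ((DObj.mapF F).map_comp φ ψ)

lemma KC.mapF_q {X Y : KC A} (φ : X.out ⟶ Y.out) :
    (KC.mapF F).map (KC.q φ : X ⟶ Y) = KC.q ((DObj.mapF F).map φ) := rfl

lemma DObj.mapF_add {P R : DObj A} (φ ψ : P ⟶ R) :
    (DObj.mapF F).map (φ + ψ) = (DObj.mapF F).map φ + (DObj.mapF F).map ψ := by
  ext
  exact F.map_add

instance : (KC.mapF F).Additive where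
  map_add {X Y f g} := by
    obtain ⟨φ, rfl⟩ := KC.exists_q f
    obtain ⟨ψ, rfl⟩ := KC.exists_q g
    exact congrArg KC.q (DObj.mapF_add F φ ψ)

section

variable [Two A] [Two B]

/-- an additive functor maps cones to cones -/
def ConeData.mapF {P R : DObj A} {φ : P ⟶ R} {C : DObj A} (D : ConeData φ C) :
    ConeData ((DObj.mapF F).map φ) ((DObj.mapF F).obj C) where
  inl := (DObj.mapF F).map D.inl
  pr := (DObj.mapF F).map D.pr
  s := F.map D.s
  r := F.map D.r
  inl_pr := by
    show F.map D.inl.f ≫ F.map D.pr.f = 0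
    rw [← F.map_comp, D.inl_pr, F.map_zero]
  s_pr := by
    show F.map D.s ≫ F.map D.pr.f = 𝟙 (F.obj P.X)
    rw [← F.map_comp, D.s_pr, F.map_id]
  inl_r := by
    show F.map D.inl.f ≫ F.map D.r = 𝟙 (F.obj R.X)
    rw [← F.map_comp, D.inl_r, F.map_id]
  s_r := by
    show F.map D.s ≫ F.map D.r = (0 : F.obj P.X ⟶ F.obj R.X)
    rw [← F.map_comp, D.s_r, F.map_zero]
  total := by
    show F.map D.pr.f ≫ F.map D.s + F.map D.r ≫ F.map D.inl.f = 𝟙 (F.obj C.X)
    rw [← F.map_comp, ← F.map_comp, ← F.map_add, D.total, F.map_id]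
  diff := by
    show F.map P.d ≫ F.map D.s + F.map D.s ≫ F.map C.d = F.map φ.f ≫ F.map D.inl.f
    rw [← F.map_comp, ← F.map_comp, ← F.map_comp, ← F.map_add, D.diff]

variable [HasZeroObject A] [HasBinaryBiproducts A] [HasZeroObject B]
  [HasBinaryBiproducts B]

instance : (KC.mapF F).IsTriangulated where
  map_distinguished T hT := by
    obtain ⟨P, R, φ, C, D, e₁, e₂, e₃, h1, h2, h3⟩ := distT.exists_iso hT
    refine ⟨_, _, _, _, ConeData.mapF F D, ⟨?_⟩⟩
    refine KC.isoMk _ _ ((KC.mapF F).mapIso e₁) ((KC.mapF F).mapIso e₂) ((KC.mapF F).mapIso e₃)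
      ?_ ?_ ?_
    · exact ((KC.mapF F).map_comp _ _).symm.trans ((congrArg (KC.mapF F).map h1).trans
        ((KC.mapF F).map_comp _ _))
    · exact ((KC.mapF F).map_comp _ _).symm.trans ((congrArg (KC.mapF F).map h2).trans
        ((KC.mapF F).map_comp _ _))
    · have h4 := ((KC.mapF F).map_comp (KC.m₃ T) e₁.hom).symm.trans
        ((congrArg (KC.mapF F).map h3).trans ((KC.mapF F).map_comp _ _))
      refine Eq.trans ?_ h4
      show ((KC.mapF F).map T.mor₃ ≫ 𝟙 _) ≫ (KC.mapF F).map e₁.hom = _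
      rw [Category.comp_id]
      rfl

end

section

instance [HasCoproducts.{w} A]
    [∀ J : Type w, PreservesColimitsOfShape (Discrete J) F] (J : Type w) :
    PreservesColimitsOfShape (Discrete J) (KC.mapF F) := by
  apply +allowSynthFailures preservesColimitsOfShape_of_discrete
  intro f
  have h := KC.sigIsColimit (A := A) (fun j => (f j).out)
  refine preservesColimit_of_preserves_colimit_cocone h ?_
  refine (isColimitMapCoconeCofanMkEquiv _ _ _).symm ?_
  refine KC.isColimitCofan (A := B) (fun j => (DObj.mapF F).obj (f j).out)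
    ((DObj.mapF F).obj (DObj.sig fun j => (f j).out))
    (fun j => (DObj.mapF F).map (DObj.sigι (fun j => (f j).out) j)) ?_
  refine isColimitMapCoconeCofanMkEquiv F (fun j => (f j).out.X) _ ?_
  exact isColimitOfPreserves F (coproductIsCoproduct fun j => (f j).out.X)

end

section

variable [Two A] [Two B]
variable [MonoidalCategory A] [MonoidalPreadditive A] [MonoidalCategory B] [MonoidalPreadditive B]

open Functor.LaxMonoidal Functor.OplaxMonoidal Functor.Monoidal

/-- the monoidal structure on differential objects -/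
noncomputable def DObj.mapFCore [F.Monoidal] : (DObj.mapF F).CoreMonoidal where
  εIso := DObj.mkIso (εIso F) (by
    show (0 : 𝟙_ B ⟶ 𝟙_ B) ≫ (εIso F).hom = (εIso F).hom ≫ F.map (0 : 𝟙_ A ⟶ 𝟙_ A)
    rw [F.map_zero, zero_comp, comp_zero])
  μIso P Q := DObj.mkIso (μIso F P.X Q.X) (by
    show (F.map P.d ▷ F.obj Q.X + F.obj P.X ◁ F.map Q.d) ≫ μ F P.X Q.X =
      μ F P.X Q.X ≫ F.map (P.d ▷ Q.X + P.X ◁ Q.d)
    rw [F.map_add, Preadditive.add_comp, Preadditive.comp_add, μ_natural_left, μ_natural_right])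
  μIso_hom_natural_left {P Q} f R := by
    ext
    exact μ_natural_left F f.f R.X
  μIso_hom_natural_right {P Q} R f := by
    ext
    exact μ_natural_right F R.X f.f
  associativity P Q R := by
    ext
    exact Functor.LaxMonoidal.associativity F P.X Q.X R.X
  left_unitality P := by
    ext
    exact Functor.LaxMonoidal.left_unitality F P.X
  right_unitality P := by
    ext
    exact Functor.LaxMonoidal.right_unitality F P.X

/-- the monoidal structure on the homotopy categories -/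
noncomputable def KC.mapFCore [F.Monoidal] : (KC.mapF F).CoreMonoidal where
  εIso := (KC.Q B).mapIso (DObj.mapFCore F).εIso
  μIso X Y := (KC.Q B).mapIso ((DObj.mapFCore F).μIso X.out Y.out)
  μIso_hom_natural_left {X Y} f Z := by
    obtain ⟨f, rfl⟩ := KC.exists_q f
    have h1 := KC.whiskerRight_q ((KC.mapF F).obj Z) (Y := (KC.mapF F).obj X)
      (Z := (KC.mapF F).obj Y) ((DObj.mapF F).map f)
    have h2 := congrArg (KC.mapF F).map (KC.whiskerRight_q Z f)
    refine Eq.trans (congrArg (fun a => a ≫ KC.q ((DObj.mapFCore F).μIso Y.out Z.out).hom) h1) ?_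
    refine Eq.trans ?_ (congrArg (fun a => KC.q ((DObj.mapFCore F).μIso X.out Z.out).hom ≫ a) h2).symm
    exact congrArg KC.q ((DObj.mapFCore F).μIso_hom_natural_left f Z.out)
  μIso_hom_natural_right {X Y} Z f := by
    obtain ⟨f, rfl⟩ := KC.exists_q f
    have h1 := KC.whiskerLeft_q ((KC.mapF F).obj Z) (Y := (KC.mapF F).obj X)
      (Z := (KC.mapF F).obj Y) ((DObj.mapF F).map f)
    have h2 := congrArg (KC.mapF F).map (KC.whiskerLeft_q Z f)
    refine Eq.trans (congrArg (fun a => a ≫ KC.q ((DObj.mapFCore F).μIso Z.out Y.out).hom) h1) ?_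
    refine Eq.trans ?_ (congrArg (fun a => KC.q ((DObj.mapFCore F).μIso Z.out X.out).hom ≫ a) h2).symm
    exact congrArg KC.q ((DObj.mapFCore F).μIso_hom_natural_right Z.out f)
  associativity X Y Z := by
    have h1 := KC.whiskerRight_q ((KC.mapF F).obj Z) (Y := (KC.mapF F).obj X ⊗ (KC.mapF F).obj Y)
      (Z := (KC.mapF F).obj (X ⊗ Y)) ((DObj.mapFCore F).μIso X.out Y.out).hom
    have h2 := KC.whiskerLeft_q ((KC.mapF F).obj X) (Y := (KC.mapF F).obj Y ⊗ (KC.mapF F).obj Z)
      (Z := (KC.mapF F).obj (Y ⊗ Z)) ((DObj.mapFCore F).μIso Y.out Z.out).hom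
    refine Eq.trans (congrArg (fun a => a ≫ KC.q ((DObj.mapFCore F).μIso (X.out ⊗ Y.out) Z.out).hom ≫
      KC.q ((DObj.mapF F).map (α_ X.out Y.out Z.out).hom)) h1) ?_
    refine Eq.trans ?_ (congrArg (fun b => KC.q (α_ ((DObj.mapF F).obj X.out)
      ((DObj.mapF F).obj Y.out) ((DObj.mapF F).obj Z.out)).hom ≫ b ≫
      KC.q ((DObj.mapFCore F).μIso X.out (Y.out ⊗ Z.out)).hom) h2).symm
    exact congrArg KC.q ((DObj.mapFCore F).associativity X.out Y.out Z.out)
  left_unitality X := by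
    have h1 := KC.whiskerRight_q ((KC.mapF F).obj X) (Y := 𝟙_ (KC B))
      (Z := (KC.mapF F).obj (𝟙_ (KC A))) (DObj.mapFCore F).εIso.hom
    refine Eq.trans ?_ (congrArg (fun a => a ≫ KC.q ((DObj.mapFCore F).μIso (𝟙_ (DObj A)) X.out).hom ≫
      KC.q ((DObj.mapF F).map (λ_ X.out).hom)) h1).symm
    exact congrArg KC.q ((DObj.mapFCore F).left_unitality X.out)
  right_unitality X := by
    have h1 := KC.whiskerLeft_q ((KC.mapF F).obj X) (Y := 𝟙_ (KC B))
      (Z := (KC.mapF F).obj (𝟙_ (KC A))) (DObj.mapFCore F).εIso.hom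
    refine Eq.trans ?_ (congrArg (fun a => a ≫ KC.q ((DObj.mapFCore F).μIso X.out (𝟙_ (DObj A))).hom ≫
      KC.q ((DObj.mapF F).map (ρ_ X.out).hom)) h1).symm
    exact congrArg KC.q ((DObj.mapFCore F).right_unitality X.out)

noncomputable instance [F.Monoidal] : (KC.mapF F).Monoidal := (KC.mapFCore F).toMonoidal

end

end MP40506.CX
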