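import Pool.Agent.Work.MP_40506d_al.CX.TDef
import Pool.Agent.Work.MP_40506d_al.CX.KFun

/-!
# The residue functors
-/

open CategoryTheory CategoryTheory.Limits CategoryTheory.MonoidalCategory
  CategoryTheory.Pretriangulated

set_option linter.unusedSectionVars false

namespace MP40506.CX

noncomputable section

open Classical

variable {G : Type} [AddCommGroup G] {M : AddSubmonoid G}

/-- `U` is a face of `M` -/
structure IsFace (M U : AddSubmonoid G) : Prop where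
  le : U ≤ M
  face : ∀ a ∈ M, ∀ b ∈ M, a + b ∈ U → a ∈ U ∧ b ∈ U

lemma isFace_self (M : AddSubmonoid G) : IsFace M M := ⟨le_refl _, fun _ ha _ hb _ => ⟨ha, hb⟩⟩

/-- based vector spaces over the field with two elements -/
abbrev Vec : Type 1 := Fr PUnit (⊤ : AddSubmonoid PUnit)

/-- keep the matrix entries `(i, j)` with `deg i - deg j ∈ U` -/
def resLin (U : AddSubmonoid G) {X Y : Fr G M} (φ : X ⟶ Y) :
    (X.I →₀ ZMod 2) →ₗ[ZMod 2] (Y.I →₀ ZMod 2) :=
  Finsupp.linearCombination (ZMod 2) fun i =>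
    (φ.f (Finsupp.single i 1)).filter fun j => X.deg i - Y.deg j ∈ U

lemma resLin_single (U : AddSubmonoid G) {X Y : Fr G M} (φ : X ⟶ Y) (i : X.I) :
    resLin U φ (Finsupp.single i 1) =
      (φ.f (Finsupp.single i 1)).filter fun j => X.deg i - Y.deg j ∈ U := by
  rw [resLin, Finsupp.linearCombination_single, one_smul]

lemma ent_resLin (U : AddSubmonoid G) {X Y : Fr G M} (φ : X ⟶ Y) (i : X.I) (j : Y.I) :
    Fr.ent (resLin U φ) i j = if X.deg i - Y.deg j ∈ U then Fr.ent φ.f i j else 0 := by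
  rw [Fr.ent, resLin_single, Finsupp.filter_apply]
  rfl

lemma ent_id {I : Type} (i j : I) :
    Fr.ent (LinearMap.id : (I →₀ ZMod 2) →ₗ[ZMod 2] (I →₀ ZMod 2)) i j = if i = j then 1 else 0 := by
  rw [Fr.ent, LinearMap.id_apply, Finsupp.single_apply]

lemma ent_add {I J : Type} (f g : (I →₀ ZMod 2) →ₗ[ZMod 2] (J →₀ ZMod 2)) (i : I) (j : J) :
    Fr.ent (f + g) i j = Fr.ent f i j + Fr.ent g i j := rfl

lemma resLin_comp {U : AddSubmonoid G} (hU : IsFace M U) {X Y Z : Fr G M} (φ : X ⟶ Y)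
    (ψ : Y ⟶ Z) : resLin U (φ ≫ ψ) = resLin U ψ ∘ₗ resLin U φ := by
  apply Fr.lin_ext
  intro i l
  rw [ent_resLin, Fr.ent_comp, resLin_single, Fr.comp_f, Fr.ent_comp, Finsupp.sum_filter_index,
    Finsupp.sum, Finsupp.support_filter, Finset.sum_filter]
  have key : ∀ j ∈ (φ.f (Finsupp.single i 1)).support,
      (if X.deg i - Y.deg j ∈ U then φ.f (Finsupp.single i 1) j * Fr.ent (resLin U ψ) j l
        else 0) = if X.deg i - Z.deg l ∈ U then φ.f (Finsupp.single i 1) j * Fr.ent ψ.f j l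
        else 0 := by
    intro j hj
    have h1 : X.deg i - Y.deg j ∈ M := φ.gr i j (Finsupp.mem_support_iff.1 hj)
    rw [ent_resLin]
    by_cases h0 : Fr.ent ψ.f j l = 0
    · simp [h0]
    · have h2 : Y.deg j - Z.deg l ∈ M := ψ.gr j l h0
      have h3 : X.deg i - Z.deg l = (X.deg i - Y.deg j) + (Y.deg j - Z.deg l) := by abel
      by_cases h4 : X.deg i - Z.deg l ∈ U
      · have h5 := hU.face _ h1 _ h2 (h3 ▸ h4)
        rw [if_pos h5.1, if_pos h5.2, if_pos h4]
      · by_cases h6 : X.deg i - Y.deg j ∈ U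
        · by_cases h7 : Y.deg j - Z.deg l ∈ U
          · exact (h4 (h3 ▸ U.add_mem h6 h7)).elim
          · rw [if_pos h6, if_neg h7, if_neg h4, mul_zero]
        · rw [if_neg h6, if_neg h4]
  rw [Finset.sum_congr rfl key]
  split_ifs
  · rfl
  · rw [Finset.sum_const_zero]

/-- the residue functor attached to a face `U` -/
def res {U : AddSubmonoid G} (hU : IsFace M U) : Fr G M ⥤ Vec where
  obj X := ⟨X.I, fun _ => 0⟩
  map φ := { f := resLin U φ, gr := fun _ _ _ => AddSubmonoid.mem_top _ }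
  map_id X := by
    apply Fr.hom_ext'
    intro i j
    show Fr.ent (resLin U (𝟙 X)) i j = Fr.ent (LinearMap.id) i j
    rw [ent_resLin, Fr.id_f, ent_id]
    by_cases h : i = j
    · subst h
      rw [sub_self, if_pos U.zero_mem]
    · rw [if_neg h, ite_self]
  map_comp φ ψ := by
    apply Fr.hom_ext
    exact resLin_comp hU φ ψ

variable {U : AddSubmonoid G} (hU : IsFace M U)

lemma res_obj (X : Fr G M) : (res hU).obj X = ⟨X.I, fun _ => 0⟩ := rfl

lemma res_map_f {X Y : Fr G M} (φ : X ⟶ Y) : ((res hU).map φ).f = resLin U φ := rfl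

lemma ent_res {X Y : Fr G M} (φ : X ⟶ Y) (i : X.I) (j : Y.I) :
    Fr.ent ((res hU).map φ).f i j = if X.deg i - Y.deg j ∈ U then Fr.ent φ.f i j else 0 :=
  ent_resLin U φ i j

instance : (res hU).Additive where
  map_add {X Y φ ψ} := by
    apply Fr.hom_ext'
    intro (i : X.I) (j : Y.I)
    refine (ent_resLin U (φ + ψ) i j).trans ?_
    show _ = Fr.ent (resLin U φ) i j + Fr.ent (resLin U ψ) i j
    rw [ent_resLin, ent_resLin, Fr.add_f, ent_add]
    split_ifs
    · rfl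
    · rw [add_zero]

lemma res_sigι {J : Type} (X : J → Fr G M) (j : J) :
    (res hU).map (Fr.sigι X j) = Fr.sigι (fun j => (res hU).obj (X j)) j := by
  apply Fr.hom_ext'
  intro (i : (X j).I) (p : Σ j, (X j).I)
  refine (ent_resLin U (Fr.sigι X j) i p).trans ?_
  show (if (X j).deg i - (X p.1).deg p.2 ∈ U then
    (Finsupp.mapDomain (fun i => (⟨j, i⟩ : Σ j, (X j).I)) (Finsupp.single i (1 : ZMod 2))) p
    else 0) = (Finsupp.mapDomain (fun i => (⟨j, i⟩ : Σ j, (X j).I)) (Finsupp.single i (1 : ZMod 2))) p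
  rw [Finsupp.mapDomain_single, Finsupp.single_apply]
  by_cases h : (⟨j, i⟩ : Σ j, (X j).I) = p
  · subst h
    rw [sub_self, if_pos U.zero_mem]
  · rw [if_neg h, ite_self]

instance (J : Type) : PreservesColimitsOfShape (Discrete J) (res hU) := by
  apply +allowSynthFailures preservesColimitsOfShape_of_discrete
  intro X
  refine preservesColimit_of_preserves_colimit_cocone (Fr.sigIsColimit X) ?_
  refine (isColimitMapCoconeCofanMkEquiv _ _ _).symm ?_
  have h := Fr.sigIsColimit (fun j => (res hU).obj (X j))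
  have e : (fun j => (res hU).map (Fr.sigι X j)) = Fr.sigι (fun j => (res hU).obj (X j)) :=
    funext fun j => res_sigι hU X j
  rw [e]
  exact h

lemma ent_id_mul {I J : Type} (p p' : I × J) :
    Fr.ent (LinearMap.id : (I →₀ ZMod 2) →ₗ[ZMod 2] (I →₀ ZMod 2)) p.1 p'.1 *
      Fr.ent (LinearMap.id : (J →₀ ZMod 2) →ₗ[ZMod 2] (J →₀ ZMod 2)) p.2 p'.2 =
      Fr.ent (LinearMap.id : (I × J →₀ ZMod 2) →ₗ[ZMod 2] (I × J →₀ ZMod 2)) p p' := by
  rw [ent_id, ent_id, ent_id]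
  by_cases h1 : p.1 = p'.1
  · by_cases h2 : p.2 = p'.2
    · rw [if_pos h1, if_pos h2, if_pos (Prod.ext h1 h2), mul_one]
    · rw [if_neg h2, if_neg (fun h => h2 (congrArg Prod.snd h)), mul_zero]
  · rw [if_neg h1, if_neg (fun h => h1 (congrArg Prod.fst h)), zero_mul]

lemma resLin_id (U : AddSubmonoid G) (X : Fr G M) :
    resLin U (𝟙 X) = (LinearMap.id : (X.I →₀ ZMod 2) →ₗ[ZMod 2] (X.I →₀ ZMod 2)) := by
  apply Fr.lin_ext
  intro i j
  rw [ent_resLin, Fr.id_f, ent_id]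
  by_cases h : i = j
  · subst h
    rw [sub_self, if_pos U.zero_mem]
  · rw [if_neg h, ite_self]

lemma ent_resLin_tens {U : AddSubmonoid G} (hU : IsFace M U) {X X' Y Y' : Fr G M} (φ : X ⟶ X')
    (ψ : Y ⟶ Y') (p : X.I × Y.I) (p' : X'.I × Y'.I) :
    Fr.ent (resLin U (Fr.tens φ ψ)) p p' =
      Fr.ent (resLin U φ) p.1 p'.1 * Fr.ent (resLin U ψ) p.2 p'.2 := by
  refine (ent_resLin U (Fr.tens φ ψ) p p').trans ?_
  rw [Fr.ent_tens, ent_resLin, ent_resLin]
  show (if (X.deg p.1 + Y.deg p.2) - (X'.deg p'.1 + Y'.deg p'.2) ∈ U then _ else _) = _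
  by_cases h1 : Fr.ent φ.f p.1 p'.1 = 0
  · simp [h1]
  by_cases h2 : Fr.ent ψ.f p.2 p'.2 = 0
  · simp [h2]
  have h3 : X.deg p.1 - X'.deg p'.1 ∈ M := φ.gr _ _ h1
  have h4 : Y.deg p.2 - Y'.deg p'.2 ∈ M := ψ.gr _ _ h2
  have h5 : (X.deg p.1 + Y.deg p.2) - (X'.deg p'.1 + Y'.deg p'.2) =
    (X.deg p.1 - X'.deg p'.1) + (Y.deg p.2 - Y'.deg p'.2) := by abel
  by_cases h6 : (X.deg p.1 + Y.deg p.2) - (X'.deg p'.1 + Y'.deg p'.2) ∈ U
  · have h7 := hU.face _ h3 _ h4 (h5 ▸ h6)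
    rw [if_pos h6, if_pos h7.1, if_pos h7.2]
  · rw [if_neg h6]
    by_cases h7 : X.deg p.1 - X'.deg p'.1 ∈ U
    · by_cases h8 : Y.deg p.2 - Y'.deg p'.2 ∈ U
      · exact (h6 (h5 ▸ U.add_mem h7 h8)).elim
      · rw [if_neg h8, mul_zero]
    · rw [if_neg h7, zero_mul]

lemma ent_isoOfEquiv {X Y : Fr G M} (e : X.I ≃ Y.I) (h : ∀ i, Y.deg (e i) = X.deg i) (i : X.I)
    (j : Y.I) : Fr.ent (Fr.isoOfEquiv e h).hom.f i j = if e i = j then 1 else 0 := by
  rw [Fr.ent, Fr.isoOfEquiv_hom_f]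
  show (Finsupp.domLCongr e : (X.I →₀ ZMod 2) ≃ₗ[ZMod 2] (Y.I →₀ ZMod 2))
    (Finsupp.single i 1) j = _
  rw [Finsupp.domLCongr_single, Finsupp.single_apply]

lemma resLin_isoOfEquiv (U : AddSubmonoid G) {X Y : Fr G M} (e : X.I ≃ Y.I)
    (h : ∀ i, Y.deg (e i) = X.deg i) :
    resLin U (Fr.isoOfEquiv e h).hom = (Fr.isoOfEquiv e h).hom.f := by
  apply Fr.lin_ext
  intro i j
  rw [ent_resLin, ent_isoOfEquiv]
  by_cases h1 : e i = j
  · subst h1
    rw [h, sub_self, if_pos U.zero_mem]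
  · rw [if_neg h1, ite_self]

/-- the comparison with the tensor product -/
def resμ (X Y : Fr G M) : (res hU).obj X ⊗ (res hU).obj Y ≅ (res hU).obj (X ⊗ Y) where
  hom :=
    { f := (LinearMap.id : (X.I × Y.I →₀ ZMod 2) →ₗ[ZMod 2] (X.I × Y.I →₀ ZMod 2))
      gr := fun _ _ _ => AddSubmonoid.mem_top _ }
  inv :=
    { f := (LinearMap.id : (X.I × Y.I →₀ ZMod 2) →ₗ[ZMod 2] (X.I × Y.I →₀ ZMod 2))
      gr := fun _ _ _ => AddSubmonoid.mem_top _ }
  hom_inv_id := rfl
  inv_hom_id := rfl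

/-- the comparison of the units -/
def resε : 𝟙_ Vec ≅ (res hU).obj (𝟙_ (Fr G M)) where
  hom :=
    { f := (LinearMap.id : (Unit →₀ ZMod 2) →ₗ[ZMod 2] (Unit →₀ ZMod 2))
      gr := fun _ _ _ => AddSubmonoid.mem_top _ }
  inv :=
    { f := (LinearMap.id : (Unit →₀ ZMod 2) →ₗ[ZMod 2] (Unit →₀ ZMod 2))
      gr := fun _ _ _ => AddSubmonoid.mem_top _ }
  hom_inv_id := rfl
  inv_hom_id := rfl

lemma res_tens_left {X Y : Fr G M} (f : X ⟶ Y) (Z : Fr G M) :
    (Fr.tens ((res hU).map f) (𝟙 ((res hU).obj Z))).f = resLin U (Fr.tens f (𝟙 Z)) := by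
  apply Fr.lin_ext
  intro (p : X.I × Z.I) (p' : Y.I × Z.I)
  have e1 := Fr.ent_tens ((res hU).map f) (𝟙 ((res hU).obj Z)) p p'
  have e2 := ent_resLin_tens hU f (𝟙 Z) p p'
  have e3 : Fr.ent (LinearMap.id : (Z.I →₀ ZMod 2) →ₗ[ZMod 2] (Z.I →₀ ZMod 2)) p.2 p'.2 =
    Fr.ent (resLin U (𝟙 Z)) p.2 p'.2 := by rw [resLin_id]
  exact e1.trans ((congrArg (fun t => Fr.ent (resLin U f) p.1 p'.1 * t) e3).trans e2.symm)

lemma res_tens_right {X Y : Fr G M} (f : X ⟶ Y) (Z : Fr G M) :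
    (Fr.tens (𝟙 ((res hU).obj Z)) ((res hU).map f)).f = resLin U (Fr.tens (𝟙 Z) f) := by
  apply Fr.lin_ext
  intro (p : Z.I × X.I) (p' : Z.I × Y.I)
  have e1 := Fr.ent_tens (𝟙 ((res hU).obj Z)) ((res hU).map f) p p'
  have e2 := ent_resLin_tens hU (𝟙 Z) f p p'
  have e3 : Fr.ent (LinearMap.id : (Z.I →₀ ZMod 2) →ₗ[ZMod 2] (Z.I →₀ ZMod 2)) p.1 p'.1 =
    Fr.ent (resLin U (𝟙 Z)) p.1 p'.1 := by rw [resLin_id]
  exact e1.trans ((congrArg (fun t => t * Fr.ent (resLin U f) p.2 p'.2) e3).trans e2.symm)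

lemma res_tens_μ_left (X Y Z : Fr G M) : (Fr.tens (resμ hU X Y).hom (𝟙 ((res hU).obj Z))).f =
    (LinearMap.id : ((X.I × Y.I) × Z.I →₀ ZMod 2) →ₗ[ZMod 2] ((X.I × Y.I) × Z.I →₀ ZMod 2)) := by
  apply Fr.lin_ext
  intro p p'
  exact (Fr.ent_tens _ _ p p').trans (ent_id_mul p p')

lemma res_tens_μ_right (X Y Z : Fr G M) : (Fr.tens (𝟙 ((res hU).obj X)) (resμ hU Y Z).hom).f =
    (LinearMap.id : (X.I × (Y.I × Z.I) →₀ ZMod 2) →ₗ[ZMod 2] (X.I × (Y.I × Z.I) →₀ ZMod 2)) := by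
  apply Fr.lin_ext
  intro p p'
  exact (Fr.ent_tens _ _ p p').trans (ent_id_mul p p')

lemma res_tens_ε_left (X : Fr G M) : (Fr.tens (resε hU).hom (𝟙 ((res hU).obj X))).f =
    (LinearMap.id : (Unit × X.I →₀ ZMod 2) →ₗ[ZMod 2] (Unit × X.I →₀ ZMod 2)) := by
  apply Fr.lin_ext
  intro p p'
  exact (Fr.ent_tens _ _ p p').trans (ent_id_mul p p')

lemma res_tens_ε_right (X : Fr G M) : (Fr.tens (𝟙 ((res hU).obj X)) (resε hU).hom).f =
    (LinearMap.id : (X.I × Unit →₀ ZMod 2) →ₗ[ZMod 2] (X.I × Unit →₀ ZMod 2)) := by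
  apply Fr.lin_ext
  intro p p'
  exact (Fr.ent_tens _ _ p p').trans (ent_id_mul p p')

/-- the monoidal structure of the residue functor -/
def resCore : (res hU).CoreMonoidal where
  εIso := resε hU
  μIso := resμ hU
  μIso_hom_natural_left {X Y} f Z := by
    apply Fr.hom_ext
    show LinearMap.id ∘ₗ (Fr.tens ((res hU).map f) (𝟙 ((res hU).obj Z))).f =
      resLin U (Fr.tens f (𝟙 Z)) ∘ₗ LinearMap.id
    rw [LinearMap.comp_id, LinearMap.id_comp, res_tens_left]
  μIso_hom_natural_right {X Y} Z f := by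
    apply Fr.hom_ext
    show LinearMap.id ∘ₗ (Fr.tens (𝟙 ((res hU).obj Z)) ((res hU).map f)).f =
      resLin U (Fr.tens (𝟙 Z) f) ∘ₗ LinearMap.id
    rw [LinearMap.comp_id, LinearMap.id_comp, res_tens_right]
  associativity X Y Z := by
    apply Fr.hom_ext
    have h3 : resLin U (α_ X Y Z).hom = (α_ X Y Z).hom.f := resLin_isoOfEquiv U _ _
    show resLin U (α_ X Y Z).hom ∘ₗ LinearMap.id ∘ₗ
      (Fr.tens (resμ hU X Y).hom (𝟙 ((res hU).obj Z))).f =
      LinearMap.id ∘ₗ (Fr.tens (𝟙 ((res hU).obj X)) (resμ hU Y Z).hom).f ∘ₗ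
        (α_ ((res hU).obj X) ((res hU).obj Y) ((res hU).obj Z)).hom.f
    rw [h3, res_tens_μ_left, res_tens_μ_right]
    rfl
  left_unitality X := by
    apply Fr.hom_ext
    have h3 : resLin U (λ_ X).hom = (λ_ X).hom.f := resLin_isoOfEquiv U _ _
    show (λ_ ((res hU).obj X)).hom.f = resLin U (λ_ X).hom ∘ₗ LinearMap.id ∘ₗ
      (Fr.tens (resε hU).hom (𝟙 ((res hU).obj X))).f
    rw [h3, res_tens_ε_left]
    rfl
  right_unitality X := by
    apply Fr.hom_ext
    have h3 : resLin U (ρ_ X).hom = (ρ_ X).hom.f := resLin_isoOfEquiv U _ _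
    show (ρ_ ((res hU).obj X)).hom.f = resLin U (ρ_ X).hom ∘ₗ LinearMap.id ∘ₗ
      (Fr.tens (𝟙 ((res hU).obj X)) (resε hU).hom).f
    rw [h3, res_tens_ε_right]
    rfl

instance : (res hU).Monoidal := (resCore hU).toMonoidal

/-- the residue functor on homotopy categories -/
abbrev kres : KC (Fr G M) ⥤ KC Vec := KC.mapF (res hU)

end

section

universe v u v' u'

open Functor.LaxMonoidal Functor.OplaxMonoidal Functor.Monoidal

variable {E : Type u} [Category.{v} E] [MonoidalCategory E] {D : Type u'} [Category.{v'} D]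
  [MonoidalCategory D] (Q : ObjectProperty D) [Q.IsMonoidal] (F : E ⥤ D) [F.Monoidal]
  (hF : ∀ X, Q (F.obj X))

/-- lifts of monoidal functors to full monoidal subcategories -/
noncomputable def liftCore : (Q.lift F hF).CoreMonoidal where
  εIso := Q.isoMk (εIso F)
  μIso X Y := Q.isoMk (μIso F X Y)
  μIso_hom_natural_left f X := by
    apply ObjectProperty.hom_ext
    exact μ_natural_left F f X
  μIso_hom_natural_right X f := by
    apply ObjectProperty.hom_ext
    exact μ_natural_right F X f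
  associativity X Y Z := by
    apply ObjectProperty.hom_ext
    exact Functor.LaxMonoidal.associativity F X Y Z
  left_unitality X := by
    apply ObjectProperty.hom_ext
    exact Functor.LaxMonoidal.left_unitality F X
  right_unitality X := by
    apply ObjectProperty.hom_ext
    exact Functor.LaxMonoidal.right_unitality F X

end

section

universe v u u'

variable {T : Type u} [Category.{v} T] [HasZeroObject T] [HasShift T ℤ] [Preadditive T]
  [∀ n : ℤ, (shiftFunctor T n).Additive] [Pretriangulated T] [HasCoproducts.{v} T]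
variable {S : Type u'} [Category.{v} S] [HasZeroObject S] [HasShift S ℤ] [Preadditive S]
  [∀ n : ℤ, (shiftFunctor S n).Additive] [Pretriangulated S] [HasCoproducts.{v} S]
variable (F : T ⥤ S) [F.CommShift ℤ] [F.IsTriangulated]
  [∀ J : Type v, PreservesColimitsOfShape (Discrete J) F]

lemma isLocalizing_comapK {P : ObjectProperty S} (hP : IsLocalizing P) :
    IsLocalizing (fun X : T => P (F.obj X)) where
  shift := fun X n h => hP.of_iso ((F.commShiftIso n).app X) (hP.shift _ n h)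
  ext₂ := fun Δ hΔ h1 h3 => hP.ext₂ _ (F.map_distinguished Δ hΔ) h1 h3
  coprod := fun J Y h => hP.of_iso (PreservesCoproduct.iso F Y) (hP.coprod J _ h)
  retract := fun X Y i r hir h => by
    refine hP.retract _ _ (F.map i) (F.map r) ?_ h
    rw [← F.map_comp, hir, F.map_id]

end

noncomputable section

open Classical

variable {G : Type} [AddCommGroup G] {M : AddSubmonoid G} {U : AddSubmonoid G} (hU : IsFace M U)

/-- the residue functor maps the generators to the unit -/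
def kresIso (g : G) : (kres hU).obj ⟨k1 g⟩ ≅ (⟨k1 PUnit.unit⟩ : KC Vec) :=
  (KC.Q Vec).mapIso (DObj.mkIso (P := (DObj.mapF (res hU)).obj (k1 g)) (Q := k1 PUnit.unit)
    (Iso.refl (fr1 PUnit.unit : Vec)) (by
      show (res hU).map (0 : (fr1 g : Fr G M) ⟶ fr1 g) ≫ 𝟙 _ =
        𝟙 _ ≫ (0 : (fr1 PUnit.unit : Vec) ⟶ fr1 PUnit.unit)
      rw [Functor.map_zero, zero_comp, comp_zero]
      rfl))

lemma locP_kres (X : TT G M) : locSub (FinC PUnit ⊤) ((kres hU).obj X.obj) := by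
  refine locP_le X (fun Y => locSub (FinC PUnit ⊤) ((kres hU).obj Y))
    (isLocalizing_comapK (kres hU) (isLocalizing_locSub _)) (fun g => ?_)
  exact (isLocalizing_locSub _).of_iso (kresIso hU g) (tk PUnit.unit : TT PUnit ⊤).2

/-- the residue functor on `TT G M`, with values in `TT PUnit ⊤` -/
def tres : TT G M ⥤ TT PUnit ⊤ :=
  (locSub (FinC PUnit ⊤)).lift ((locSub (FinC G M)).ι ⋙ kres hU) (locP_kres hU)

instance : (tres hU).Monoidal := (liftCore _ _ (locP_kres hU)).toMonoidal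

instance : (tres hU).CommShift ℤ :=
  inferInstanceAs (((locSub (FinC PUnit ⊤)).lift
    ((locSub (FinC G M)).ι ⋙ kres hU) (locP_kres hU)).CommShift ℤ)

instance : (tres hU).IsTriangulated :=
  inferInstanceAs ((locSub (FinC PUnit ⊤)).lift
    ((locSub (FinC G M)).ι ⋙ kres hU) (locP_kres hU)).IsTriangulated

instance (J : Type) : PreservesColimitsOfShape (Discrete J) (tres hU) := by
  have : PreservesColimitsOfShape (Discrete J) (tres hU ⋙ (locSub (FinC PUnit ⊤)).ι) :=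
    inferInstanceAs (PreservesColimitsOfShape (Discrete J) ((locSub (FinC G M)).ι ⋙ kres hU))
  exact preservesColimitsOfShape_of_reflects_of_preserves (tres hU) (locSub (FinC PUnit ⊤)).ι

end

end MP40506.CX
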