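import Mathlib

set_option autoImplicit false

/-! Cochains of the nerve of a down-set of a partially ordered set with coefficients in a
presheaf of differential modules of characteristic two. -/

namespace MP40506.CX.Nerve

/-- a presheaf of differential modules of characteristic two on a partially ordered set -/
structure DSheaf (P : Type) [PartialOrder P] where
  V : P → Type
  [acg : ∀ a, AddCommGroup (V a)]
  two : ∀ a (x : V a), x + x = 0
  d : ∀ a, V a →+ V a
  dd : ∀ a (x : V a), d a (d a x) = 0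
  res : ∀ {a b : P}, a ≤ b → V b →+ V a
  res_refl : ∀ a (x : V a), res (le_refl a) x = x
  res_res : ∀ {a b c : P} (hab : a ≤ b) (hbc : b ≤ c) (x : V c),
    res hab (res hbc x) = res (hab.trans hbc) x
  d_res : ∀ {a b : P} (hab : a ≤ b) (x : V b), d a (res hab x) = res hab (d b x)

attribute [instance] DSheaf.acg

section Del

variable {P A : Type} [AddCommGroup A]

/-- the sum of the values of `f` on the lists obtained from `l` by erasing one entry -/
def del : (List P → A) → List P → A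
  | _, [] => 0
  | f, b :: l => f l + del (fun l' => f (b :: l')) l

@[simp] lemma del_nil (f : List P → A) : del f [] = 0 := rfl

lemma del_cons (f : List P → A) (b : P) (l : List P) :
    del f (b :: l) = f l + del (fun l' => f (b :: l')) l := rfl

lemma del_add (f g : List P → A) (l : List P) :
    del (fun l' => f l' + g l') l = del f l + del g l := by
  induction l generalizing f g with
  | nil => simp
  | cons b l ih =>
    simp only [del_cons]
    rw [ih (fun l' => f (b :: l')) (fun l' => g (b :: l'))]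
    abel

lemma del_zero (l : List P) : del (fun _ : List P => (0 : A)) l = 0 := by
  induction l with
  | nil => rfl
  | cons b l ih => rw [del_cons, ih, add_zero]

lemma del_map {B : Type} [AddCommGroup B] (φ : A →+ B) (f : List P → A) (l : List P) :
    del (fun l' => φ (f l')) l = φ (del f l) := by
  induction l generalizing f with
  | nil => simp
  | cons b l ih =>
    simp only [del_cons]
    rw [ih (fun l' => f (b :: l')), map_add]

lemma del_congr {f g : List P → A} {l : List P}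
    (h : ∀ l', List.Sublist l' l → f l' = g l') : del f l = del g l := by
  induction l generalizing f g with
  | nil => rfl
  | cons b l ih =>
    rw [del_cons, del_cons, h l (List.sublist_cons_self b l),
      ih (f := fun l' => f (b :: l')) (g := fun l' => g (b :: l'))
        (fun l' hl' => h _ (hl'.cons_cons b))]

lemma del_del (h2 : ∀ x : A, x + x = 0) (f : List P → A) (l : List P) :
    del (del f) l = 0 := by
  induction l generalizing f with
  | nil => rfl
  | cons b l ih =>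
    rw [del_cons]
    have h1 : (fun l' => del f (b :: l')) =
        fun l' => f l' + del (fun l'' => f (b :: l'')) l' := by
      funext l'
      rw [del_cons]
    rw [h1, del_add f (fun l' => del (fun l'' => f (b :: l'')) l'), ih, add_zero, h2]

lemma del_append (f : List P → A) (w : P) (l : List P) :
    del f (l ++ [w]) = del (fun l' => f (l' ++ [w])) l + f l := by
  induction l generalizing f with
  | nil => simp [del_cons]
  | cons b l ih =>
    rw [List.cons_append, del_cons, ih, del_cons]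
    simp only [List.cons_append]
    abel

end Del

namespace DSheaf

variable {P : Type} [PartialOrder P] (S : DSheaf P)

/-- functions on all pairs (least element, list of the other elements) -/
abbrev Fn : Type := ∀ a : P, List P → S.V a

open Classical in
/-- restriction, zero if the elements are not comparable -/
noncomputable def rs (a b : P) : S.V b →+ S.V a := if h : a ≤ b then S.res h else 0

lemma rs_of_le {a b : P} (h : a ≤ b) (x : S.V b) : S.rs a b x = S.res h x := by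
  unfold rs
  rw [dif_pos h]

lemma rs_refl (a : P) (x : S.V a) : S.rs a a x = x := by
  rw [S.rs_of_le le_rfl, S.res_refl]

lemma rs_rs {a b c : P} (hab : a ≤ b) (hbc : b ≤ c) (x : S.V c) :
    S.rs a b (S.rs b c x) = S.rs a c x := by
  rw [S.rs_of_le hbc, S.rs_of_le hab, S.rs_of_le (hab.trans hbc), S.res_res]

lemma d_rs (a b : P) (x : S.V b) : S.d a (S.rs a b x) = S.rs a b (S.d b x) := by
  unfold rs
  split_ifs with h
  · exact S.d_res h x
  · simp

/-- the face which removes the least element -/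
noncomputable def fst (x : S.Fn) (a : P) : List P → S.V a
  | [] => 0
  | b :: l => S.rs a b (x b l)

@[simp] lemma fst_nil (x : S.Fn) (a : P) : S.fst x a [] = 0 := rfl

@[simp] lemma fst_cons (x : S.Fn) (a b : P) (l : List P) :
    S.fst x a (b :: l) = S.rs a b (x b l) := rfl

/-- the total differential on all functions -/
noncomputable def D0 (x : S.Fn) : S.Fn := fun a l =>
  S.fst x a l + del (x a) l + S.d a (x a l)

/-- `a :: l` is a weakly increasing list of elements of `W` -/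
def Ch (W : Set P) (a : P) (l : List P) : Prop :=
  (a :: l).Pairwise (· ≤ ·) ∧ ∀ b ∈ a :: l, b ∈ W

lemma Ch.tail {W : Set P} {a b : P} {l : List P} (h : Ch W a (b :: l)) : Ch W b l :=
  ⟨(List.pairwise_cons.1 h.1).2, fun c hc => h.2 c (List.mem_cons_of_mem _ hc)⟩

lemma Ch.le {W : Set P} {a b : P} {l : List P} (h : Ch W a (b :: l)) : a ≤ b :=
  (List.pairwise_cons.1 h.1).1 b List.mem_cons_self

lemma Ch.sub {W : Set P} {a : P} {l l' : List P} (h : Ch W a l) (hl : List.Sublist l' l) :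
    Ch W a l' :=
  ⟨h.1.sublist (hl.cons_cons a), fun b hb => h.2 b ((hl.cons_cons a).subset hb)⟩

lemma Ch.mono {W W' : Set P} (hW : W ⊆ W') {a : P} {l : List P} (h : Ch W a l) : Ch W' a l :=
  ⟨h.1, fun b hb => hW (h.2 b hb)⟩

open Classical in
/-- truncation to the chains in `W` -/
noncomputable def tr (W : Set P) (x : S.Fn) : S.Fn := fun a l => if Ch W a l then x a l else 0

lemma tr_of {W : Set P} {x : S.Fn} {a : P} {l : List P} (h : Ch W a l) :
    S.tr W x a l = x a l := if_pos h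

lemma tr_not {W : Set P} {x : S.Fn} {a : P} {l : List P} (h : ¬ Ch W a l) :
    S.tr W x a l = 0 := if_neg h

lemma fst_congr {x y : S.Fn} {W : Set P} {a : P} {l : List P} (hc : Ch W a l)
    (h : ∀ a' l', Ch W a' l' → x a' l' = y a' l') : S.fst x a l = S.fst y a l := by
  cases l with
  | nil => rfl
  | cons b l => rw [fst_cons, fst_cons, h _ _ hc.tail]

lemma D0_congr {x y : S.Fn} {W : Set P} {a : P} {l : List P} (hc : Ch W a l)
    (h : ∀ a' l', Ch W a' l' → x a' l' = y a' l') : S.D0 x a l = S.D0 y a l := by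
  unfold D0
  rw [S.fst_congr hc h, h a l hc, del_congr (f := x a) (g := y a)
    (fun l' hl' => h a l' (hc.sub hl'))]

lemma fst_add (x y : S.Fn) (a : P) (l : List P) :
    S.fst (x + y) a l = S.fst x a l + S.fst y a l := by
  cases l with
  | nil => simp
  | cons b l => simp [Pi.add_apply]

lemma D0_add (x y : S.Fn) : S.D0 (x + y) = S.D0 x + S.D0 y := by
  funext a l
  have h1 : del ((x + y) a) l = del (x a) l + del (y a) l := del_add (x a) (y a) l
  simp only [D0, Pi.add_apply, fst_add, map_add]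
  have h2 : (fun i => x a i + y a i) = (x + y) a := rfl
  rw [show (x a + y a) = (x + y) a from rfl, h1]
  abel

/-- the square of the differential vanishes on chains -/
lemma D0_D0 (x : S.Fn) {W : Set P} {a : P} {l : List P} (hc : Ch W a l) :
    S.D0 (S.D0 x) a l = 0 := by
  have h2 := S.two a
  -- the value on the empty list
  cases l with
  | nil =>
    simp only [D0, fst_nil, del_nil, zero_add]
    exact S.dd a _
  | cons b l =>
    have e1 : S.fst (S.D0 x) a (b :: l) =
        S.rs a b (S.fst x b l) + S.rs a b (del (x b) l) + S.rs a b (S.d b (x b l)) := by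
      rw [fst_cons]
      simp only [D0, map_add]
    have e2 : del (S.D0 x a) (b :: l) =
        del (S.fst x a) (b :: l) + del (fun l' => S.d a (x a l')) (b :: l) := by
      have : S.D0 x a = fun l' => (S.fst x a l' + del (x a) l') + S.d a (x a l') := rfl
      rw [this, del_add (fun l' => S.fst x a l' + del (x a) l') (fun l' => S.d a (x a l')),
        del_add (S.fst x a) (fun l' => del (x a) l')]
      have h3 : del (fun l' => del (x a) l') (b :: l) = 0 := del_del h2 (x a) (b :: l)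
      rw [h3, add_zero]
    have e3 : del (S.fst x a) (b :: l) = S.fst x a l + S.rs a b (del (x b) l) := by
      rw [del_cons]
      congr 1
      exact del_map (S.rs a b) (x b) l
    have e4 : del (fun l' => S.d a (x a l')) (b :: l) = S.d a (del (x a) (b :: l)) :=
      del_map (S.d a) (x a) (b :: l)
    have e5 : S.rs a b (S.fst x b l) = S.fst x a l := by
      cases l with
      | nil => simp
      | cons c l =>
        rw [fst_cons, fst_cons]
        exact S.rs_rs hc.le hc.tail.le _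
    have e6 : S.d a (S.fst x a (b :: l)) = S.rs a b (S.d b (x b l)) := by
      rw [fst_cons, d_rs]
    have e7 : S.d a (S.D0 x a (b :: l)) = S.rs a b (S.d b (x b l)) +
        S.d a (del (x a) (b :: l)) := by
      simp only [D0, map_add]
      rw [e6, S.dd, add_zero]
    have key : ∀ p q r s : S.V a, (p + q + r) + ((p + q) + s) + (r + s) = 0 := by
      intro p q r s
      have : (p + q + r) + ((p + q) + s) + (r + s) =
          (p + p) + (q + q) + (r + r) + (s + s) := by abel
      rw [this]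
      simp only [h2]
    change S.fst (S.D0 x) a (b :: l) + del (S.D0 x a) (b :: l) +
      S.d a (S.D0 x a (b :: l)) = 0
    rw [e1, e2, e3, e4, e5, e7]
    exact key _ _ _ _

lemma tr_add (W : Set P) (x y : S.Fn) : S.tr W (x + y) = S.tr W x + S.tr W y := by
  funext a l
  by_cases h : Ch W a l
  · simp only [Pi.add_apply, S.tr_of h]
  · simp only [Pi.add_apply, S.tr_not h, add_zero]

/-- cochains supported on the chains in `W` -/
def C (W : Set P) : AddSubgroup S.Fn where
  carrier := {x | ∀ a l, ¬ Ch W a l → x a l = 0}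
  add_mem' := by
    intro x y hx hy a l h
    rw [Pi.add_apply, Pi.add_apply, hx a l h, hy a l h, add_zero]
  zero_mem' := fun _ _ _ => rfl
  neg_mem' := by
    intro x hx a l h
    rw [Pi.neg_apply, Pi.neg_apply, hx a l h, neg_zero]

lemma mem_C {W : Set P} {x : S.Fn} : x ∈ S.C W ↔ ∀ a l, ¬ Ch W a l → x a l = 0 := Iff.rfl

lemma tr_mem (W : Set P) (x : S.Fn) : S.tr W x ∈ S.C W := fun _ _ h => S.tr_not h

lemma tr_eq_self {W : Set P} {x : S.Fn} (hx : x ∈ S.C W) : S.tr W x = x := by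
  funext a l
  by_cases h : Ch W a l
  · exact S.tr_of h
  · rw [S.tr_not h, hx a l h]

lemma C_ext {W : Set P} {x y : S.Fn} (hx : x ∈ S.C W) (hy : y ∈ S.C W)
    (h : ∀ a l, Ch W a l → x a l = y a l) : x = y := by
  funext a l
  by_cases hc : Ch W a l
  · exact h a l hc
  · rw [hx a l hc, hy a l hc]

lemma C_mono {W W' : Set P} (h : W' ⊆ W) {x : S.Fn} (hx : x ∈ S.C W') : x ∈ S.C W :=
  fun a l hc => hx a l (fun h' => hc (h'.mono h))

lemma tr_tr {W W' : Set P} (h : W' ⊆ W) (x : S.Fn) : S.tr W' (S.tr W x) = S.tr W' x := by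
  funext a l
  by_cases hc : Ch W' a l
  · rw [S.tr_of hc, S.tr_of hc, S.tr_of (hc.mono h)]
  · rw [S.tr_not hc, S.tr_not hc]

/-- the differential of the cochains of `W` -/
noncomputable def D (W : Set P) (x : S.Fn) : S.Fn := S.tr W (S.D0 x)

lemma D_mem (W : Set P) (x : S.Fn) : S.D W x ∈ S.C W := S.tr_mem W _

lemma D_of {W : Set P} {x : S.Fn} {a : P} {l : List P} (h : Ch W a l) :
    S.D W x a l = S.D0 x a l := S.tr_of h

lemma D_add (W : Set P) (x y : S.Fn) : S.D W (x + y) = S.D W x + S.D W y := by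
  unfold D
  rw [D0_add, tr_add]

lemma D_zero (W : Set P) : S.D W 0 = 0 := by
  have h := S.D_add W 0 0
  rw [add_zero] at h
  exact (add_eq_left.1 h.symm)

/-- the differential is compatible with restriction -/
lemma D_tr {W W' : Set P} (h : W' ⊆ W) (x : S.Fn) : S.D W' (S.tr W x) = S.D W' x := by
  funext a l
  by_cases hc : Ch W' a l
  · rw [S.D_of hc, S.D_of hc]
    exact S.D0_congr hc (fun a' l' hc' => S.tr_of (hc'.mono h))
  · rw [S.D_mem W' _ a l hc, S.D_mem W' _ a l hc]

lemma tr_D {W W' : Set P} (h : W' ⊆ W) (x : S.Fn) : S.tr W' (S.D W x) = S.D W' x :=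
  S.tr_tr h _

lemma D_D (W : Set P) (x : S.Fn) : S.D W (S.D W x) = 0 := by
  have h1 : S.D W (S.D W x) = S.D W (S.D0 x) := S.D_tr (le_refl W) (S.D0 x)
  rw [h1]
  funext a l
  by_cases hc : Ch W a l
  · rw [S.D_of hc, S.D0_D0 x hc]
    rfl
  · exact S.D_mem W _ a l hc

lemma add_self (x : S.Fn) : x + x = 0 := by
  funext a l
  exact S.two a _

/-! ### Mayer-Vietoris -/

lemma Ch.of_union {E E' : Set P} (hE : IsLowerSet E) (hE' : IsLowerSet E') {a : P} {l : List P}
    (h : Ch (E ∪ E') a l) : Ch E a l ∨ Ch E' a l := by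
  have key : ∀ (m : List P), m.Pairwise (· ≤ ·) → (∀ b ∈ m, b ∈ E ∪ E') →
      (∀ b ∈ m, b ∈ E) ∨ (∀ b ∈ m, b ∈ E') := by
    intro m
    induction m with
    | nil => intro _ _; left; simp
    | cons c m ih =>
      intro hp hm
      cases m with
      | nil =>
        rcases hm c List.mem_cons_self with h | h
        · left; intro b hb; rw [List.mem_singleton] at hb; rw [hb]; exact h
        · right; intro b hb; rw [List.mem_singleton] at hb; rw [hb]; exact h
      | cons e m =>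
        have hce : c ≤ e := (List.pairwise_cons.1 hp).1 e List.mem_cons_self
        rcases ih (List.pairwise_cons.1 hp).2
          (fun b hb => hm b (List.mem_cons_of_mem _ hb)) with h | h
        · left
          intro b hb
          rcases List.mem_cons.1 hb with rfl | hb
          · exact hE hce (h e List.mem_cons_self)
          · exact h b hb
        · right
          intro b hb
          rcases List.mem_cons.1 hb with rfl | hb
          · exact hE' hce (h e List.mem_cons_self)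
          · exact h b hb
  rcases key _ h.1 h.2 with h' | h'
  · exact Or.inl ⟨h.1, h'⟩
  · exact Or.inr ⟨h.1, h'⟩

lemma Ch.inter {E E' : Set P} {a : P} {l : List P} (h : Ch E a l) (h' : Ch E' a l) :
    Ch (E ∩ E') a l := ⟨h.1, fun b hb => ⟨h.2 b hb, h'.2 b hb⟩⟩

/-- an element of `C (E ∪ E')` is determined by its restrictions -/
lemma union_ext {E E' : Set P} (hE : IsLowerSet E) (hE' : IsLowerSet E') {x y : S.Fn}
    (hx : x ∈ S.C (E ∪ E')) (hy : y ∈ S.C (E ∪ E')) (h1 : S.tr E x = S.tr E y)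
    (h2 : S.tr E' x = S.tr E' y) : x = y := by
  refine S.C_ext hx hy (fun a l hc => ?_)
  rcases hc.of_union hE hE' with h | h
  · have := congrFun (congrFun h1 a) l
    rwa [S.tr_of h, S.tr_of h] at this
  · have := congrFun (congrFun h2 a) l
    rwa [S.tr_of h, S.tr_of h] at this

/-- compatible cochains can be glued -/
lemma glue {E E' : Set P} (x y : S.Fn)
    (h : S.tr (E ∩ E') x = S.tr (E ∩ E') y) :
    ∃ z ∈ S.C (E ∪ E'), S.tr E z = S.tr E x ∧ S.tr E' z = S.tr E' y := by
  classical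
  refine ⟨fun a l => if Ch E a l then x a l else if Ch E' a l then y a l else 0, ?_, ?_, ?_⟩
  · intro a l hc
    have h1 : ¬ Ch E a l := fun h' => hc (h'.mono Set.subset_union_left)
    have h2 : ¬ Ch E' a l := fun h' => hc (h'.mono Set.subset_union_right)
    show (if Ch E a l then x a l else if Ch E' a l then y a l else 0) = 0
    rw [if_neg h1, if_neg h2]
  · funext a l
    by_cases hc : Ch E a l
    · rw [S.tr_of hc, S.tr_of hc]
      exact if_pos hc
    · rw [S.tr_not hc, S.tr_not hc]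
  · funext a l
    by_cases hc' : Ch E' a l
    · rw [S.tr_of hc', S.tr_of hc']
      by_cases hc : Ch E a l
      · have h3 := congrFun (congrFun h a) l
        rw [S.tr_of (hc.inter hc'), S.tr_of (hc.inter hc')] at h3
        rw [← h3]
        exact if_pos hc
      · show (if Ch E a l then x a l else if Ch E' a l then y a l else 0) = _
        rw [if_neg hc, if_pos hc']
    · rw [S.tr_not hc', S.tr_not hc']

/-! ### evaluation at the greatest element -/

/-- the cochain defined by an element of `V w` -/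
noncomputable def cst (w : P) (t : S.V w) : S.Fn := fun a l =>
  match l with
  | [] => S.rs a w t
  | _ :: _ => 0

@[simp] lemma cst_nil (w : P) (t : S.V w) (a : P) : S.cst w t a [] = S.rs a w t := rfl

@[simp] lemma cst_cons (w : P) (t : S.V w) (a b : P) (l : List P) :
    S.cst w t a (b :: l) = 0 := rfl

lemma cst_self (w : P) (t : S.V w) : S.cst w t w [] = t := S.rs_refl w t

lemma Iic_le {w a : P} {l : List P} (h : Ch (Set.Iic w) a l) : a ≤ w :=
  h.2 a List.mem_cons_self

lemma D0_cst {w : P} (t : S.V w) {a : P} {l : List P} (hc : Ch (Set.Iic w) a l) :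
    S.D0 (S.cst w t) a l = S.cst w (S.d w t) a l := by
  match l, hc with
  | [], hc =>
    simp only [D0, fst_nil, del_nil, cst_nil, zero_add]
    exact S.d_rs a w t
  | [b], hc =>
    simp only [D0, fst_cons, cst_nil, cst_cons, map_zero, add_zero, del_cons, del_nil]
    rw [S.rs_rs hc.le (Iic_le hc.tail)]
    exact S.two a _
  | b :: c :: l, hc =>
    simp only [D0, fst_cons, cst_cons, map_zero, add_zero, zero_add, del_cons]
    have h1 : (fun l' => S.cst w t a (b :: c :: l')) = fun _ => 0 := rfl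
    have h2 : del (fun l' => S.cst w t a (b :: c :: l')) l = 0 := by
      rw [h1]; exact del_zero l
    exact h2

/-- truncated constant cochain -/
noncomputable def cs (w : P) (t : S.V w) : S.Fn := S.tr (Set.Iic w) (S.cst w t)

lemma cs_mem (w : P) (t : S.V w) : S.cs w t ∈ S.C (Set.Iic w) := S.tr_mem _ _

lemma ch_self {W : Set P} {w : P} (hw : w ∈ W) : Ch W w [] :=
  ⟨List.pairwise_singleton _ _, by simpa using hw⟩

lemma cs_self (w : P) (t : S.V w) : S.cs w t w [] = t := by
  unfold cs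
  rw [S.tr_of (ch_self (Set.self_mem_Iic)), cst_self]

lemma D_cs (w : P) (t : S.V w) : S.D (Set.Iic w) (S.cs w t) = S.cs w (S.d w t) := by
  unfold cs
  rw [S.D_tr (le_refl _)]
  funext a l
  by_cases hc : Ch (Set.Iic w) a l
  · rw [S.D_of hc, S.tr_of hc, S.D0_cst t hc]
  · rw [S.D_mem _ _ a l hc, S.tr_not hc]

lemma cs_zero (w : P) : S.cs w 0 = 0 := by
  funext a l
  by_cases hc : Ch (Set.Iic w) a l
  · unfold cs
    rw [S.tr_of hc]
    cases l with
    | nil => simp
    | cons b l => rfl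
  · exact S.cs_mem w 0 a l hc

/-- the value of a coboundary at the greatest element -/
lemma D_self {W : Set P} {w : P} (hw : w ∈ W) (x : S.Fn) : S.D W x w [] = S.d w (x w []) := by
  rw [S.D_of (ch_self hw)]
  simp [D0]

/-- the contraction -/
def hh (w : P) (x : S.Fn) : S.Fn := fun a l => x a (l ++ [w])

lemma ch_append {w a : P} {l : List P} (h : Ch (Set.Iic w) a l) :
    Ch (Set.Iic w) a (l ++ [w]) := by
  constructor
  · rw [← List.cons_append, List.pairwise_append]
    refine ⟨h.1, List.pairwise_singleton _ _, ?_⟩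
    intro b hb c hc
    rw [List.mem_singleton] at hc
    rw [hc]
    exact h.2 b hb
  · intro b hb
    rw [← List.cons_append, List.mem_append, List.mem_singleton] at hb
    rcases hb with hb | hb
    · exact h.2 b hb
    · rw [hb]; exact le_refl w

lemma D0_hh (w : P) (x : S.Fn) (a : P) (l : List P) :
    S.D0 (S.hh w x) a l + S.D0 x a (l ++ [w]) =
      x a l + S.cst w (x w []) a l := by
  have h2 := S.two a
  have key : ∀ p q r s : S.V a, (p + q + r) + (p + (q + s) + r) = s := by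
    intro p q r s
    have : (p + q + r) + (p + (q + s) + r) = (p + p) + (q + q) + (r + r) + s := by abel
    rw [this]
    simp only [h2, zero_add]
  have key' : ∀ p r s t : S.V a, (0 + p + r) + (t + (p + s) + r) = s + t := by
    intro p r s t
    have : (0 + p + r) + (t + (p + s) + r) = (p + p) + (r + r) + (s + t) := by abel
    rw [this]
    simp only [h2, zero_add]
  cases l with
  | nil =>
    have e : del (x a) ([] ++ [w]) = del (fun l' => x a (l' ++ [w])) [] + x a [] :=
      del_append _ _ _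
    simp only [D0, hh]
    rw [e]
    simp only [fst_nil, List.nil_append, fst_cons, cst_nil]
    exact key' _ _ _ _
  | cons b l =>
    have e : del (x a) ((b :: l) ++ [w]) = del (fun l' => x a (l' ++ [w])) (b :: l) +
      x a (b :: l) := del_append _ _ _
    simp only [D0, cst_cons, add_zero]
    rw [e]
    simp only [List.cons_append, fst_cons, hh]
    exact key _ _ _ _

/-- the evaluation at `w` is injective on cohomology, with an explicit primitive -/
lemma prim {w : P} {x : S.Fn} (hD : ∀ a l, Ch (Set.Iic w) a l → S.D0 x a l = 0) (t : S.V w)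
    (ht : x w [] = S.d w t) {a : P} {l : List P} (hc : Ch (Set.Iic w) a l) :
    S.D0 (S.hh w x + S.cst w t) a l = x a l := by
  rw [D0_add, Pi.add_apply, Pi.add_apply, S.D0_cst t hc]
  have h1 := S.D0_hh w x a l
  rw [hD _ _ (ch_append hc), add_zero, ht] at h1
  rw [h1, add_assoc, S.two a, add_zero]

lemma exists_prim {w : P} {x : S.Fn} (hx : x ∈ S.C (Set.Iic w))
    (hD : S.D (Set.Iic w) x = 0) (t : S.V w) (ht : x w [] = S.d w t) :
    ∃ y ∈ S.C (Set.Iic w), S.D (Set.Iic w) y = x ∧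
      ∀ a, a ≤ w → y a [] = x a [w] + S.rs a w t := by
  have hD' : ∀ a l, Ch (Set.Iic w) a l → S.D0 x a l = 0 := by
    intro a l hc
    rw [← S.D_of hc, hD]
    rfl
  refine ⟨S.tr (Set.Iic w) (S.hh w x + S.cst w t), S.tr_mem _ _, ?_, ?_⟩
  · rw [S.D_tr (le_refl _)]
    refine S.C_ext (S.D_mem _ _) hx (fun a l hc => ?_)
    rw [S.D_of hc, S.prim hD' t ht hc]
  · intro a ha
    rw [S.tr_of (ch_self (W := Set.Iic w) ha)]
    rfl

/-- the values of a cocycle at `a ≤ w` -/
lemma cocycle_val {W : Set P} {x : S.Fn} (hD : S.D W x = 0) {a w : P} (haw : a ≤ w)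
    (ha : a ∈ W) (hw : w ∈ W) :
    S.rs a w (x w []) + x a [] + S.d a (x a [w]) = 0 := by
  have hc : Ch W a [w] := by
    refine ⟨?_, ?_⟩
    · simpa using haw
    · intro b hb
      simp only [List.mem_cons, List.not_mem_nil, or_false] at hb
      rcases hb with rfl | rfl
      · exact ha
      · exact hw
  have h := congrFun (congrFun hD a) [w]
  rw [S.D_of hc] at h
  simpa [D0, del_cons] using h

lemma isLowerSet_Iic' (w : P) : IsLowerSet (Set.Iic w) := isLowerSet_Iic w

/-! ### the two kinds of quasi-isomorphisms -/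

lemma add_eq_zero' {a : P} {x y : S.V a} : x + y = 0 ↔ x = y := by
  constructor
  · intro h
    have h1 : x + y + y = y := by rw [h, zero_add]
    rwa [add_assoc, S.two, add_zero] at h1
  · rintro rfl
    exact S.two a x

lemma fn_add_eq_zero {x y : S.Fn} : x + y = 0 ↔ x = y := by
  constructor
  · intro h
    have h1 : x + y + y = y := by rw [h, zero_add]
    rwa [add_assoc, S.add_self, add_zero] at h1
  · rintro rfl
    exact S.add_self x

lemma d_add (a : P) (x y : S.V a) : S.d a (x + y) = S.d a x + S.d a y := map_add _ _ _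

/-- cocycle condition on a chain `[a, b, c]` -/
lemma cocycle_val2 {W : Set P} {x : S.Fn} (hD : S.D W x = 0) {a b c : P} (hab : a ≤ b)
    (hbc : b ≤ c) (ha : a ∈ W) (hb : b ∈ W) (hc : c ∈ W) :
    S.rs a b (x b [c]) + (x a [c] + x a [b]) + S.d a (x a [b, c]) = 0 := by
  have hch : Ch W a [b, c] := by
    refine ⟨?_, ?_⟩
    · simp only [List.pairwise_cons, List.mem_cons, List.not_mem_nil, or_false]
      refine ⟨?_, ?_, ?_⟩
      · rintro a' (rfl | rfl)
        · exact hab
        · exact hab.trans hbc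
      · rintro a' rfl
        exact hbc
      · simp
    · intro e he
      simp only [List.mem_cons, List.not_mem_nil, or_false] at he
      rcases he with rfl | rfl | rfl
      · exact ha
      · exact hb
      · exact hc
  have h := congrFun (congrFun hD a) [b, c]
  rw [S.D_of hch] at h
  simpa [D0, del_cons] using h

/-- the value on a chain `[a, w]` of a coboundary -/
lemma D_val {W : Set P} (x : S.Fn) {a w : P} (haw : a ≤ w) (ha : a ∈ W) (hw : w ∈ W) :
    S.D W x a [w] = S.rs a w (x w []) + x a [] + S.d a (x a [w]) := by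
  have hc : Ch W a [w] := by
    refine ⟨?_, ?_⟩
    · simpa using haw
    · intro b hb
      simp only [List.mem_cons, List.not_mem_nil, or_false] at hb
      rcases hb with rfl | rfl
      · exact ha
      · exact hw
  rw [S.D_of hc]
  simp [D0, del_cons]

/-- the square `v; v₁, v₂; v₁₂` has acyclic total complex -/
structure Sq (v v₁ v₂ v₁₂ : P) : Prop where
  le₁ : v₁ ≤ v
  le₂ : v₂ ≤ v
  inter : Set.Iic v₁ ∩ Set.Iic v₂ = Set.Iic v₁₂
  surj : ∀ (t₁ : S.V v₁) (t₂ : S.V v₂) (u : S.V v₁₂), S.d _ t₁ = 0 → S.d _ t₂ = 0 →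
    S.rs v₁₂ v₁ t₁ + S.rs v₁₂ v₂ t₂ + S.d _ u = 0 →
    ∃ (a : S.V v) (b₁ : S.V v₁) (b₂ : S.V v₂) (c : S.V v₁₂), S.d _ a = 0 ∧
      S.rs v₁ v a + S.d _ b₁ = t₁ ∧ S.rs v₂ v a + S.d _ b₂ = t₂ ∧
      S.rs v₁₂ v₁ b₁ + S.rs v₁₂ v₂ b₂ + S.d _ c = u
  inj : ∀ (a : S.V v) (b₁ : S.V v₁) (b₂ : S.V v₂) (c : S.V v₁₂), S.d _ a = 0 →
    S.rs v₁ v a = S.d _ b₁ → S.rs v₂ v a = S.d _ b₂ →
    S.rs v₁₂ v₁ b₁ + S.rs v₁₂ v₂ b₂ = S.d _ c → ∃ a' : S.V v, a = S.d _ a'

/-- the restriction from `v` to the disjoint down-sets of `v₁`, `v₂` is an isomorphism on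
cohomology -/
structure Dj (v v₁ v₂ : P) : Prop where
  le₁ : v₁ ≤ v
  le₂ : v₂ ≤ v
  inter : Set.Iic v₁ ∩ Set.Iic v₂ = ∅
  surj : ∀ (t₁ : S.V v₁) (t₂ : S.V v₂), S.d _ t₁ = 0 → S.d _ t₂ = 0 →
    ∃ (a : S.V v) (b₁ : S.V v₁) (b₂ : S.V v₂), S.d _ a = 0 ∧
      S.rs v₁ v a + S.d _ b₁ = t₁ ∧ S.rs v₂ v a + S.d _ b₂ = t₂
  inj : ∀ (a : S.V v) (b₁ : S.V v₁) (b₂ : S.V v₂), S.d _ a = 0 →
    S.rs v₁ v a = S.d _ b₁ → S.rs v₂ v a = S.d _ b₂ → ∃ a' : S.V v, a = S.d _ a'

variable {S}

/-- the restriction `C(Iic v) → C(E)` is a quasi-isomorphism -/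
structure QIso (S : DSheaf P) (W E : Set P) : Prop where
  sub : E ⊆ W
  surj : ∀ x ∈ S.C E, S.D E x = 0 → ∃ y ∈ S.C W, S.D W y = 0 ∧
    ∃ z ∈ S.C E, S.tr E y + x = S.D E z
  inj : ∀ y ∈ S.C W, S.D W y = 0 → ∀ z ∈ S.C E, S.tr E y = S.D E z →
    ∃ w ∈ S.C W, S.D W w = y

lemma tr_cocycle {W E : Set P} (h : E ⊆ W) {y : S.Fn} (hy : S.D W y = 0) :
    S.D E (S.tr E y) = 0 := by
  rw [S.D_tr (le_refl _)]
  rw [← S.tr_D h, hy]
  funext a l
  by_cases hc : Ch E a l
  · rw [S.tr_of hc]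
  · rw [S.tr_not hc]; rfl

lemma D_cocycle {W E : Set P} (h : E ⊆ W) {y : S.Fn} (hy : S.D W y = 0) : S.D E y = 0 := by
  rw [← S.D_tr (le_refl E)]
  exact tr_cocycle h hy

lemma Sq.qiso {v v₁ v₂ v₁₂ : P} (h : S.Sq v v₁ v₂ v₁₂) :
    QIso S (Set.Iic v) (Set.Iic v₁ ∪ Set.Iic v₂) := by
  have hsub : Set.Iic v₁ ∪ Set.Iic v₂ ⊆ Set.Iic v :=
    Set.union_subset (Set.Iic_subset_Iic.2 h.le₁) (Set.Iic_subset_Iic.2 h.le₂)
  have m1 : v₁ ∈ Set.Iic v₁ ∪ Set.Iic v₂ := Or.inl (le_refl _)
  have m2 : v₂ ∈ Set.Iic v₁ ∪ Set.Iic v₂ := Or.inr (le_refl _)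
  have h12 : v₁₂ ∈ Set.Iic v₁ ∩ Set.Iic v₂ := by rw [h.inter]; exact le_refl _
  have l1 : v₁₂ ≤ v₁ := h12.1
  have l2 : v₁₂ ≤ v₂ := h12.2
  have m12 : v₁₂ ∈ Set.Iic v₁ ∪ Set.Iic v₂ := Or.inl l1
  refine ⟨hsub, ?_, ?_⟩
  · intro x hx hDx
    -- the values at the two maximal elements
    have e1 := S.cocycle_val hDx l1 m12 m1
    have e2 := S.cocycle_val hDx l2 m12 m2
    have c1 : S.d _ (x v₁ []) = 0 := by rw [← S.D_self m1 x, hDx]; rfl
    have c2 : S.d _ (x v₂ []) = 0 := by rw [← S.D_self m2 x, hDx]; rfl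
    obtain ⟨a, b₁, b₂, c, ha, hb1, hb2, hbc⟩ := h.surj (x v₁ []) (x v₂ [])
      (x v₁₂ [v₁] + x v₁₂ [v₂]) c1 c2 (by
        rw [S.d_add]
        have : S.rs v₁₂ v₁ (x v₁ []) + S.rs v₁₂ v₂ (x v₂ []) +
          (S.d v₁₂ (x v₁₂ [v₁]) + S.d v₁₂ (x v₁₂ [v₂])) =
          (S.rs v₁₂ v₁ (x v₁ []) + x v₁₂ [] + S.d v₁₂ (x v₁₂ [v₁])) +
          (S.rs v₁₂ v₂ (x v₂ []) + x v₁₂ [] + S.d v₁₂ (x v₁₂ [v₂])) -
          (x v₁₂ [] + x v₁₂ []) := by abel
        rw [this, e1, e2]
        simp only [S.two, sub_zero])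
    refine ⟨S.cs v a, S.cs_mem v a, ?_, ?_⟩
    · rw [S.D_cs, ha, S.cs_zero]
    -- the difference
    set y' : S.Fn := S.tr (Set.Iic v₁ ∪ Set.Iic v₂) (S.cs v a) + x with hy'
    have hy'C : y' ∈ S.C (Set.Iic v₁ ∪ Set.Iic v₂) := add_mem (S.tr_mem _ _) hx
    have hDy' : S.D (Set.Iic v₁ ∪ Set.Iic v₂) y' = 0 := by
      rw [hy', S.D_add, hDx, add_zero]
      exact tr_cocycle hsub (by rw [S.D_cs, ha, S.cs_zero])
    have val : ∀ (p : P) (l : List P), Ch (Set.Iic v₁ ∪ Set.Iic v₂) p l →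
        y' p l = S.cst v a p l + x p l := by
      intro p l hc
      rw [hy']
      show S.tr _ (S.cs v a) p l + x p l = _
      rw [S.tr_of hc]
      unfold cs
      rw [S.tr_of (hc.mono hsub)]
    have v1 : y' v₁ [] = S.d _ b₁ := by
      rw [val _ _ (ch_self m1), cst_nil, ← hb1, ← add_assoc, S.two, zero_add]
    have v2 : y' v₂ [] = S.d _ b₂ := by
      rw [val _ _ (ch_self m2), cst_nil, ← hb2, ← add_assoc, S.two, zero_add]
    have ch12 : ∀ w, v₁₂ ≤ w → w ∈ Set.Iic v₁ ∪ Set.Iic v₂ →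
        Ch (Set.Iic v₁ ∪ Set.Iic v₂) v₁₂ [w] := by
      intro w hw hw'
      refine ⟨by simpa using hw, ?_⟩
      intro b hb
      simp only [List.mem_cons, List.not_mem_nil, or_false] at hb
      rcases hb with rfl | rfl
      · exact m12
      · exact hw'
    -- primitives on the two pieces
    have s1 : Set.Iic v₁ ⊆ Set.Iic v₁ ∪ Set.Iic v₂ := Set.subset_union_left
    have s2 : Set.Iic v₂ ⊆ Set.Iic v₁ ∪ Set.Iic v₂ := Set.subset_union_right
    obtain ⟨z₁, hz₁, hDz₁, hv₁⟩ := S.exists_prim (S.tr_mem (Set.Iic v₁) y')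
      (tr_cocycle s1 hDy') b₁ (by rw [S.tr_of (ch_self (W := Set.Iic v₁) (le_refl v₁))]; exact v1)
    obtain ⟨z₂, hz₂, hDz₂, hv₂⟩ := S.exists_prim (S.tr_mem (Set.Iic v₂) y')
      (tr_cocycle s2 hDy') b₂ (by rw [S.tr_of (ch_self (W := Set.Iic v₂) (le_refl v₂))]; exact v2)
    have s12 : Set.Iic v₁₂ ⊆ Set.Iic v₁ := Set.Iic_subset_Iic.2 l1
    have s12' : Set.Iic v₁₂ ⊆ Set.Iic v₂ := Set.Iic_subset_Iic.2 l2
    -- the difference on the intersection
    have hd : S.D (Set.Iic v₁₂) (S.tr (Set.Iic v₁₂) (z₁ + z₂)) = 0 := by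
      rw [S.D_tr (le_refl _), S.D_add, ← S.tr_D s12, ← S.tr_D s12', hDz₁, hDz₂,
        S.tr_tr s12, S.tr_tr s12', S.add_self]
    have hch1 : Ch (Set.Iic v₁) v₁₂ [v₁] := by
      refine ⟨by simpa using l1, ?_⟩
      intro b hb
      simp only [List.mem_cons, List.not_mem_nil, or_false] at hb
      rcases hb with rfl | rfl
      · exact l1
      · exact le_refl _
    have hch2 : Ch (Set.Iic v₂) v₁₂ [v₂] := by
      refine ⟨by simpa using l2, ?_⟩
      intro b hb
      simp only [List.mem_cons, List.not_mem_nil, or_false] at hb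
      rcases hb with rfl | rfl
      · exact l2
      · exact le_refl _
    obtain ⟨q, hq, hDq, -⟩ := S.exists_prim (S.tr_mem (Set.Iic v₁₂) (z₁ + z₂)) hd c (by
      rw [S.tr_of (ch_self (W := Set.Iic v₁₂) (le_refl v₁₂))]
      show z₁ v₁₂ [] + z₂ v₁₂ [] = _
      rw [hv₁ _ l1, hv₂ _ l2, S.tr_of hch1, S.tr_of hch2, val _ _ (ch12 _ l1 m1),
        val _ _ (ch12 _ l2 m2), cst_cons, cst_cons, zero_add, zero_add]
      have e3 : x v₁₂ [v₁] + S.rs v₁₂ v₁ b₁ + (x v₁₂ [v₂] + S.rs v₁₂ v₂ b₂) =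
        (x v₁₂ [v₁] + x v₁₂ [v₂]) + (S.rs v₁₂ v₁ b₁ + S.rs v₁₂ v₂ b₂) := by abel
      rw [e3, ← hbc]
      have e4 : S.rs v₁₂ v₁ b₁ + S.rs v₁₂ v₂ b₂ + S.d v₁₂ c +
        (S.rs v₁₂ v₁ b₁ + S.rs v₁₂ v₂ b₂) = S.d v₁₂ c +
        ((S.rs v₁₂ v₁ b₁ + S.rs v₁₂ v₂ b₂) + (S.rs v₁₂ v₁ b₁ + S.rs v₁₂ v₂ b₂)) := by abel
      rw [e4, S.two, add_zero])
    -- glue
    obtain ⟨z, hz, hzE, hzE'⟩ := S.glue (E := Set.Iic v₁) (E' := Set.Iic v₂)
      (z₁ + S.D (Set.Iic v₁) q) z₂ (by
        rw [h.inter, S.tr_add, S.tr_D s12, hDq, S.tr_add]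
        have e5 : S.tr (Set.Iic v₁₂) z₁ + (S.tr (Set.Iic v₁₂) z₁ + S.tr (Set.Iic v₁₂) z₂) =
          (S.tr (Set.Iic v₁₂) z₁ + S.tr (Set.Iic v₁₂) z₁) + S.tr (Set.Iic v₁₂) z₂ := by abel
        rw [e5, S.add_self, zero_add])
    refine ⟨z, hz, ?_⟩
    refine S.union_ext (isLowerSet_Iic v₁) (isLowerSet_Iic v₂) hy'C (S.D_mem _ _) ?_ ?_
    · rw [S.tr_D s1, ← S.D_tr (le_refl (Set.Iic v₁)) z, hzE, S.D_tr (le_refl _), S.D_add, hDz₁,
        S.D_D, add_zero]
    · rw [S.tr_D s2, ← S.D_tr (le_refl (Set.Iic v₂)) z, hzE', S.D_tr (le_refl _), hDz₂]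
  · intro y hy hDy z hz hyz
    have hb0 : S.d _ (y v []) = 0 := by
      rw [← S.D_self (W := Set.Iic v) (le_refl v) y, hDy]; rfl
    have hyv : ∀ a l, Ch (Set.Iic v₁ ∪ Set.Iic v₂) a l →
        y a l = S.D (Set.Iic v₁ ∪ Set.Iic v₂) z a l := by
      intro a l hc
      rw [← hyz, S.tr_of hc]
    have m1' : v₁ ∈ Set.Iic v := h.le₁
    have m2' : v₂ ∈ Set.Iic v := h.le₂
    have m12' : v₁₂ ∈ Set.Iic v := l1.trans h.le₁
    have f1 : S.rs v₁ v (y v []) = S.d _ (z v₁ [] + y v₁ [v]) := by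
      have e1 := S.cocycle_val hDy h.le₁ m1' (le_refl v)
      rw [hyv _ _ (ch_self m1), S.D_self m1] at e1
      rw [S.d_add, ← S.add_eq_zero']
      rw [← e1]
      abel
    have f2 : S.rs v₂ v (y v []) = S.d _ (z v₂ [] + y v₂ [v]) := by
      have e1 := S.cocycle_val hDy h.le₂ m2' (le_refl v)
      rw [hyv _ _ (ch_self m2), S.D_self m2] at e1
      rw [S.d_add, ← S.add_eq_zero']
      rw [← e1]
      abel
    have ch12 : ∀ w, v₁₂ ≤ w → w ∈ Set.Iic v₁ ∪ Set.Iic v₂ →
        Ch (Set.Iic v₁ ∪ Set.Iic v₂) v₁₂ [w] := by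
      intro w hw hw'
      refine ⟨by simpa using hw, ?_⟩
      intro b hb
      simp only [List.mem_cons, List.not_mem_nil, or_false] at hb
      rcases hb with rfl | rfl
      · exact m12
      · exact hw'
    have g1 := S.cocycle_val2 hDy l1 h.le₁ m12' m1' (le_refl v)
    have g2 := S.cocycle_val2 hDy l2 h.le₂ m12' m2' (le_refl v)
    rw [hyv _ _ (ch12 _ l1 m1), S.D_val z l1 m12 m1] at g1
    rw [hyv _ _ (ch12 _ l2 m2), S.D_val z l2 m12 m2] at g2
    obtain ⟨a', ha'⟩ := h.inj (y v []) (z v₁ [] + y v₁ [v]) (z v₂ [] + y v₂ [v])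
      (z v₁₂ [v₁] + z v₁₂ [v₂] + (y v₁₂ [v₁, v] + y v₁₂ [v₂, v])) hb0 f1 f2 (by
        rw [← S.add_eq_zero']
        simp only [map_add]
        have key : ∀ r1 r2 s1 s2 d1 d2 p1 p2 q w : S.V v₁₂,
            s1 + (w + (r1 + q + d1)) + p1 = 0 → s2 + (w + (r2 + q + d2)) + p2 = 0 →
            r1 + s1 + (r2 + s2) + (d1 + d2 + (p1 + p2)) = 0 := by
          intro r1 r2 s1 s2 d1 d2 p1 p2 q w h1 h2
          have h3 : r1 + s1 + (r2 + s2) + (d1 + d2 + (p1 + p2)) =
            (s1 + (w + (r1 + q + d1)) + p1) + (s2 + (w + (r2 + q + d2)) + p2) -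
            ((w + w) + (q + q)) := by abel
          rw [h3, h1, h2]
          simp only [S.two, sub_zero]
        exact key _ _ _ _ _ _ _ _ _ _ g1 g2)
    obtain ⟨w, hw, hDw, -⟩ := S.exists_prim hy hDy a' ha'
    exact ⟨w, hw, hDw⟩

lemma Dj.qiso {v v₁ v₂ : P} (h : S.Dj v v₁ v₂) :
    QIso S (Set.Iic v) (Set.Iic v₁ ∪ Set.Iic v₂) := by
  have hsub : Set.Iic v₁ ∪ Set.Iic v₂ ⊆ Set.Iic v :=
    Set.union_subset (Set.Iic_subset_Iic.2 h.le₁) (Set.Iic_subset_Iic.2 h.le₂)
  have m1 : v₁ ∈ Set.Iic v₁ ∪ Set.Iic v₂ := Or.inl (le_refl _)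
  have m2 : v₂ ∈ Set.Iic v₁ ∪ Set.Iic v₂ := Or.inr (le_refl _)
  refine ⟨hsub, ?_, ?_⟩
  · intro x hx hDx
    have c1 : S.d _ (x v₁ []) = 0 := by rw [← S.D_self m1 x, hDx]; rfl
    have c2 : S.d _ (x v₂ []) = 0 := by rw [← S.D_self m2 x, hDx]; rfl
    obtain ⟨a, b₁, b₂, ha, hb1, hb2⟩ := h.surj (x v₁ []) (x v₂ []) c1 c2
    refine ⟨S.cs v a, S.cs_mem v a, ?_, ?_⟩
    · rw [S.D_cs, ha, S.cs_zero]
    set y' : S.Fn := S.tr (Set.Iic v₁ ∪ Set.Iic v₂) (S.cs v a) + x with hy'
    have hy'C : y' ∈ S.C (Set.Iic v₁ ∪ Set.Iic v₂) := add_mem (S.tr_mem _ _) hx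
    have hDy' : S.D (Set.Iic v₁ ∪ Set.Iic v₂) y' = 0 := by
      rw [hy', S.D_add, hDx, add_zero]
      exact tr_cocycle hsub (by rw [S.D_cs, ha, S.cs_zero])
    have val : ∀ (p : P) (l : List P), Ch (Set.Iic v₁ ∪ Set.Iic v₂) p l →
        y' p l = S.cst v a p l + x p l := by
      intro p l hc
      rw [hy']
      show S.tr _ (S.cs v a) p l + x p l = _
      rw [S.tr_of hc]
      unfold cs
      rw [S.tr_of (hc.mono hsub)]
    have v1 : y' v₁ [] = S.d _ b₁ := by
      rw [val _ _ (ch_self m1), cst_nil, ← hb1, ← add_assoc, S.two, zero_add]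
    have v2 : y' v₂ [] = S.d _ b₂ := by
      rw [val _ _ (ch_self m2), cst_nil, ← hb2, ← add_assoc, S.two, zero_add]
    have s1 : Set.Iic v₁ ⊆ Set.Iic v₁ ∪ Set.Iic v₂ := Set.subset_union_left
    have s2 : Set.Iic v₂ ⊆ Set.Iic v₁ ∪ Set.Iic v₂ := Set.subset_union_right
    obtain ⟨z₁, hz₁, hDz₁, -⟩ := S.exists_prim (S.tr_mem (Set.Iic v₁) y')
      (tr_cocycle s1 hDy') b₁ (by rw [S.tr_of (ch_self (W := Set.Iic v₁) (le_refl v₁))]; exact v1)
    obtain ⟨z₂, hz₂, hDz₂, -⟩ := S.exists_prim (S.tr_mem (Set.Iic v₂) y')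
      (tr_cocycle s2 hDy') b₂ (by rw [S.tr_of (ch_self (W := Set.Iic v₂) (le_refl v₂))]; exact v2)
    obtain ⟨z, hz, hzE, hzE'⟩ := S.glue (E := Set.Iic v₁) (E' := Set.Iic v₂) z₁ z₂ (by
        rw [h.inter]
        funext a l
        rw [S.tr_not, S.tr_not]
        · intro hc
          exact (hc.2 a List.mem_cons_self)
        · intro hc
          exact (hc.2 a List.mem_cons_self))
    refine ⟨z, hz, ?_⟩
    refine S.union_ext (isLowerSet_Iic v₁) (isLowerSet_Iic v₂) hy'C (S.D_mem _ _) ?_ ?_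
    · rw [S.tr_D s1, ← S.D_tr (le_refl (Set.Iic v₁)) z, hzE, S.D_tr (le_refl _), hDz₁]
    · rw [S.tr_D s2, ← S.D_tr (le_refl (Set.Iic v₂)) z, hzE', S.D_tr (le_refl _), hDz₂]
  · intro y hy hDy z hz hyz
    have hb0 : S.d _ (y v []) = 0 := by
      rw [← S.D_self (W := Set.Iic v) (le_refl v) y, hDy]; rfl
    have hyv : ∀ a l, Ch (Set.Iic v₁ ∪ Set.Iic v₂) a l →
        y a l = S.D (Set.Iic v₁ ∪ Set.Iic v₂) z a l := by
      intro a l hc
      rw [← hyz, S.tr_of hc]
    have f1 : S.rs v₁ v (y v []) = S.d _ (z v₁ [] + y v₁ [v]) := by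
      have e1 := S.cocycle_val hDy h.le₁ h.le₁ (le_refl v)
      rw [hyv _ _ (ch_self m1), S.D_self m1] at e1
      rw [S.d_add, ← S.add_eq_zero']
      rw [← e1]
      abel
    have f2 : S.rs v₂ v (y v []) = S.d _ (z v₂ [] + y v₂ [v]) := by
      have e1 := S.cocycle_val hDy h.le₂ h.le₂ (le_refl v)
      rw [hyv _ _ (ch_self m2), S.D_self m2] at e1
      rw [S.d_add, ← S.add_eq_zero']
      rw [← e1]
      abel
    obtain ⟨a', ha'⟩ := h.inj (y v []) (z v₁ [] + y v₁ [v]) (z v₂ [] + y v₂ [v]) hb0 f1 f2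
    obtain ⟨w, hw, hDw, -⟩ := S.exists_prim hy hDy a' ha'
    exact ⟨w, hw, hDw⟩

end DSheaf

end MP40506.CX.Nerve
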