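import Pool.Agent.Work.MP_40506d_al.CX.Sheaf0
import Pool.Agent.Work.MP_40506d_al.CX.Nerve

set_option autoImplicit false

/-! The sheaf of differential vector spaces on words, and its local behaviour: the squares
`w; w a, w b; w Y`, the pairs of persistent tokens, and the vanishing along infinite words. -/

namespace MP40506.CX.Sheaf

open L Nerve

lemma w_tr {x y z : Word} (h1 : Word.le x y) (h2 : Word.le y z) : Word.le x z :=
  le_trans (α := Word) h1 h2

lemma w_an {x y : Word} (h1 : Word.le x y) (h2 : Word.le y x) : x = y :=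
  le_antisymm (α := Word) h1 h2

/-- the differential of `T w` -/
def dT (w : Word) : T w →+ T w :=
  AddMonoidHom.mk' (fun x => ⟨dW w x.1, dW_mem w w x.1⟩)
    (fun x y => Subtype.ext (map_add (dW w) x.1 y.1))

/-- the restriction map `T w → T w'` -/
noncomputable def rT (w' w : Word) : T w →+ T w' :=
  AddMonoidHom.mk' (fun x => ⟨rsW w w' x.1, rsW_mem x.2 w'⟩)
    (fun x y => Subtype.ext (map_add (rsW w w') x.1 y.1))

lemma dT_val (w : Word) (x : T w) : (dT w x).1 = dW w x.1 := rfl

lemma rT_val (w' w : Word) (x : T w) : (rT w' w x).1 = rsW w w' x.1 := rfl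

lemma amb_two (x : Amb) : x + x = 0 := by
  refine Prod.ext ?_ ?_
  · funext u
    exact z2 _
  · exact z2 _

/-- the sheaf on words -/
noncomputable def shf : DSheaf Word where
  V w := T w
  two _ x := Subtype.ext (amb_two x.1)
  d := dT
  dd w x := Subtype.ext (dW_dW w x.1)
  res {w' w} _ := rT w' w
  res_refl w x := Subtype.ext (rsW_self w x.1)
  res_res h1 h2 t := Subtype.ext (rsW_rsW w_tr w_an h1 h2 t.1)
  d_res {w' w} _ x := Subtype.ext (rsW_d w w' x.1)

lemma shf_rs {w' w : Word} (h : w' ≤ w) (x : T w) : shf.rs w' w x = rT w' w x :=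
  shf.rs_of_le h x

lemma shf_d (w : Word) (x : T w) : shf.d w x = dT w x := rfl

/-- the element with coefficient `c` at `s` and `f` on the tokens -/
noncomputable def mk (w : Word) (f : Word → ZMod 2) (c : ZMod 2) : T w :=
  ⟨(fun u => if u ∈ At w then f u else 0, c), fun _ hu => if_neg hu⟩

lemma mk_fst (w : Word) (f : Word → ZMod 2) (c : ZMod 2) {u : Word} (hu : u ∈ At w) :
    (mk w f c).1.1 u = f u := if_pos hu

lemma mk_snd (w : Word) (f : Word → ZMod 2) (c : ZMod 2) : (mk w f c).1.2 = c := rfl

lemma sm_mk (w : Word) (f : Word → ZMod 2) (c : ZMod 2) {l : List Word} (hl : ∀ u ∈ l, u ∈ At w) :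
    sm l (mk w f c).1.1 = sm l f := sm_congr (fun u hu => mk_fst w f c (hl u hu))

lemma T_ext {w : Word} {x y : T w} (h1 : ∀ u ∈ At w, x.1.1 u = y.1.1 u) (h2 : x.1.2 = y.1.2) :
    x = y := by
  refine Subtype.ext (Prod.ext ?_ h2)
  funext u
  by_cases hu : u ∈ At w
  · exact h1 u hu
  · rw [x.2 u hu, y.2 u hu]

lemma dT_eq (w : Word) (x : T w) : dT w x = mk w 0 (sm (At w) x.1.1) := by
  refine T_ext (fun u hu => ?_) rfl
  rw [mk_fst w _ _ hu]
  rfl

lemma dT_zero_iff (w : Word) (x : T w) : dT w x = 0 ↔ sm (At w) x.1.1 = 0 := by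
  constructor
  · intro h
    have := congrArg (fun y : T w => y.1.2) h
    exact this
  · intro h
    rw [dT_eq, h]
    refine T_ext (fun u hu => ?_) rfl
    rw [mk_fst w _ _ hu]
    rfl

/-- an element without token part is a boundary if there is a token -/
lemma bd_of_token {w u : Word} (hu : u ∈ At w) (x : T w) (hx : ∀ v ∈ At w, x.1.1 v = 0) :
    x = dT w (mk w (fun v => if v = u then x.1.2 else 0) 0) := by
  rw [dT_eq]
  have h1 : sm (At w) (mk w (fun v => if v = u then x.1.2 else 0) 0).1.1 = x.1.2 := by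
    rw [sm_mk w _ _ (fun v hv => hv)]
    have h2 : ∀ (l : List Word), l.Nodup → u ∈ l →
        sm l (fun v => if v = u then x.1.2 else 0) = x.1.2 := by
      intro l
      induction l with
      | nil => intro _ h; simp at h
      | cons v l ih =>
        intro hn hm
        rw [List.nodup_cons] at hn
        rw [sm_cons]
        by_cases hv : v = u
        · rw [if_pos hv, sm_eq_zero, add_zero]
          intro v' hv'
          rw [if_neg]
          rintro rfl
          exact hn.1 (hv ▸ hv')
        · rw [if_neg hv, zero_add]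
          exact ih hn.2 (List.mem_of_ne_of_mem (fun h => hv h.symm) hm)
    exact h2 _ (at_nodup w) hu
  refine T_ext (fun v hv => ?_) ?_
  · rw [hx v hv, mk_fst w _ _ hv]
    rfl
  · rw [mk_snd, h1]

/-! ### the restriction maps -/

lemma wle_cons (i : L) (w : Word) : i :: w ≤ w := Or.inl (List.suffix_cons i w)

lemma not_le_of_token {w u : Word} (hu : u ∈ At w) : ¬ Word.le u w := by
  intro h
  obtain ⟨l, i, -, -, hw⟩ := at_proper hu
  have h1 : Word.le w u := Or.inl ⟨l ++ [i], by simp [hw]⟩
  have h2 := w_an h h1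
  exact self_notMem w (h2 ▸ hu)

lemma rT_step (i : L) (w : Word) (x : T w) : (rT (i :: w) w x).1 = step i w x.1 := by
  rw [rT_val, rsW_cons (by simp) (Or.inl (List.suffix_refl w)), rsW_self]

lemma rT_jump {w u : Word} (hu : u ∈ At w) (x : T w) :
    (rT (Y :: u) w x).1 = jump w u x.1 := by
  rw [rT_val, rsW_jump _ (not_le_of_token hu) hu]
  rintro rfl
  simp at hu

lemma tokY_le {w u : Word} (hu : u ∈ At w) : Y :: u ≤ w := Or.inr ⟨u, hu, List.suffix_refl _⟩

lemma Y_le_cons {i : L} (hi : i ≠ Y) (w : Word) : Y :: w ≤ i :: w :=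
  tokY_le (mem_At_cons_self hi w)

/-- the jump to a token on elements with vanishing sum -/
lemma jump_cocycle {w u : Word} {x : Amb} (hx : sm (At w) x.1 = 0) :
    jump w u x = (0, x.1 u) := by
  rw [jump_apply, hx, zero_add, ite_self]

/-! ### the square at `w` -/

lemma T_Y_ext {w : Word} {x y : T (Y :: w)} (h : x.1.2 = y.1.2) : x = y :=
  T_ext (fun u hu => by simp at hu) h

lemma inter_ab (w : Word) : Set.Iic (a :: w) ∩ Set.Iic (b :: w) = Set.Iic (Y :: w) := by
  ext v
  exact le_a_b_iff

lemma a_rT_Y (w : Word) (x : T (a :: w)) : (rT (Y :: w) (a :: w) x).1.2 = x.1.1 w := by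
  rw [rT_jump (mem_At_cons_self (by simp) w), jump_apply]
  exact if_pos (List.suffix_refl _)

lemma b_rT_Y (w : Word) (x : T (b :: w)) :
    (rT (Y :: w) (b :: w) x).1.2 = sm ((At w).drop 2) x.1.1 := by
  rw [rT_jump (mem_At_cons_self (by simp) w), jump_apply]
  have h2 : ¬ (a :: w) <:+ (b :: w) := by
    intro h
    have := h.eq_of_length (by simp)
    simp at this
  show (if (a :: w) <:+ (b :: w) then _ else _) = _
  rw [if_neg h2, At_b, sm_append, sm_cons, sm_nil, add_zero, add_assoc, z2, add_zero]

lemma mem_take {w u : Word} (h : u ∈ (At w).take 2) : u ∈ At w := List.mem_of_mem_take h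

lemma mem_drop {w u : Word} (h : u ∈ (At w).drop 2) : u ∈ At w := List.mem_of_mem_drop h

lemma step_a_keep {w u : Word} (h : u ∈ (At w).take 2) (x : Amb) :
    (step a w x).1 u = x.1 u := if_pos h

lemma step_b_keep {w u : Word} (h : u ∈ (At w).drop 2) (x : Amb) :
    (step b w x).1 u = x.1 u := if_pos h

lemma sq (w : Word) : shf.Sq w (a :: w) (b :: w) (Y :: w) where
  le₁ := wle_cons a w
  le₂ := wle_cons b w
  inter := inter_ab w
  surj := by
    intro t₁ t₂ u h1 h2 h3
    change T (a :: w) at t₁
    change T (b :: w) at t₂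
    change T (Y :: w) at u
    have h1' : sm (At (a :: w)) t₁.1.1 = 0 := (dT_zero_iff _ t₁).1 h1
    have h2' : sm (At (b :: w)) t₂.1.1 = 0 := (dT_zero_iff _ t₂).1 h2
    rw [At_a, sm_append, sm_cons, sm_nil, add_zero] at h1'
    rw [At_b, sm_append, sm_cons, sm_nil, add_zero] at h2'
    have h3' : t₁.1.1 w + sm ((At w).drop 2) t₂.1.1 = 0 := by
      have h4 : rT (Y :: w) (a :: w) t₁ + rT (Y :: w) (b :: w) t₂ + dT (Y :: w) u = 0 := by
        rw [← shf_rs (Y_le_cons (by simp) w), ← shf_rs (Y_le_cons (by simp) w)]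
        exact h3
      have h5 := congrArg (fun y : T (Y :: w) => y.1.2) h4
      have h6 : (rT (Y :: w) (a :: w) t₁).1.2 + (rT (Y :: w) (b :: w) t₂).1.2 +
        (dT (Y :: w) u).1.2 = 0 := h5
      rw [a_rT_Y, b_rT_Y] at h6
      have h7 : (dT (Y :: w) u).1.2 = 0 := rfl
      rwa [h7, add_zero] at h6
    have two : ∀ p q : ZMod 2, p + q = 0 → p = q := by decide
    set f : Word → ZMod 2 := fun v => if v ∈ (At w).take 2 then t₁.1.1 v else t₂.1.1 v with hf
    have hft : sm ((At w).take 2) f = sm ((At w).take 2) t₁.1.1 :=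
      sm_congr (fun v hv => if_pos hv)
    have hfd : sm ((At w).drop 2) f = sm ((At w).drop 2) t₂.1.1 :=
      sm_congr (fun v hv => if_neg (fun h => take_drop_disj h hv))
    set c : ZMod 2 := t₁.1.2 + u.1.2 with hc
    set A : T w := mk w f c with hA
    have hAt : sm ((At w).take 2) A.1.1 = sm ((At w).take 2) t₁.1.1 := by
      rw [hA, sm_mk w f c (fun v hv => mem_take hv), hft]
    have hAd : sm ((At w).drop 2) A.1.1 = sm ((At w).drop 2) t₂.1.1 := by
      rw [hA, sm_mk w f c (fun v hv => mem_drop hv), hfd]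
    refine ⟨A, mk (a :: w) (fun v => if v = w then u.1.2 else 0) 0,
      mk (b :: w) (fun v => if v = w then t₂.1.2 + c else 0) 0, (0 : T (Y :: w)), ?_, ?_, ?_, ?_⟩
    · refine (dT_zero_iff w A).2 ?_
      rw [← sm_split, hAt, hAd, ← two _ _ h3']
      exact h1'
    · have e : rT (a :: w) w A + dT (a :: w) (mk (a :: w) (fun v => if v = w then u.1.2 else 0) 0)
          = t₁ := by
        refine T_ext (fun v hv => ?_) ?_
        · show (rT (a :: w) w A).1.1 v + (dT (a :: w) _).1.1 v = t₁.1.1 v
          have h0 : (dT (a :: w) (mk (a :: w) (fun v => if v = w then u.1.2 else 0) 0)).1.1 v = 0 :=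
            rfl
          rw [h0, add_zero, rT_step]
          rw [At_a, List.mem_append, List.mem_singleton] at hv
          rcases hv with hv | rfl
          · rw [step_a_keep hv, hA, mk_fst w f c (mem_take hv)]
            exact if_pos hv
          · rw [step_new_a, hAd]
            exact (two _ _ h3').symm
        · show (rT (a :: w) w A).1.2 + (dT (a :: w) _).1.2 = t₁.1.2
          have h0 : (dT (a :: w) (mk (a :: w) (fun v => if v = w then u.1.2 else 0) 0)).1.2
              = u.1.2 := by
            rw [dT_eq, mk_snd, sm_mk _ _ _ (fun v hv => hv), At_a, sm_append, sm_cons, sm_nil,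
              if_pos rfl, add_zero, sm_eq_zero, zero_add]
            intro v hv
            rw [if_neg]
            rintro rfl
            exact self_notMem v (mem_take hv)
          rw [h0, rT_step, step_snd (by simp)]
          show c + u.1.2 = t₁.1.2
          rw [hc, add_assoc, z2, add_zero]
      refine Eq.trans ?_ e
      rw [← shf_rs (wle_cons a w)]
      rfl
    · have e : rT (b :: w) w A + dT (b :: w) (mk (b :: w) (fun v => if v = w then t₂.1.2 + c else 0) 0)
          = t₂ := by
        refine T_ext (fun v hv => ?_) ?_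
        · show (rT (b :: w) w A).1.1 v + (dT (b :: w) _).1.1 v = t₂.1.1 v
          have h0 : (dT (b :: w) (mk (b :: w)
            (fun v => if v = w then t₂.1.2 + c else 0) 0)).1.1 v = 0 := rfl
          rw [h0, add_zero, rT_step]
          rw [At_b, List.mem_append, List.mem_singleton] at hv
          rcases hv with hv | rfl
          · rw [step_b_keep hv, hA, mk_fst w f c (mem_drop hv)]
            exact if_neg (fun h => take_drop_disj h hv)
          · rw [step_new_b, hAt, two _ _ h1', two _ _ h3']
            exact two _ _ h2'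
        · show (rT (b :: w) w A).1.2 + (dT (b :: w) _).1.2 = t₂.1.2
          have h0 : (dT (b :: w) (mk (b :: w) (fun v => if v = w then t₂.1.2 + c else 0) 0)).1.2
              = t₂.1.2 + c := by
            rw [dT_eq, mk_snd, sm_mk _ _ _ (fun v hv => hv), At_b, sm_append, sm_cons, sm_nil,
              if_pos rfl, add_zero, sm_eq_zero, zero_add]
            intro v hv
            rw [if_neg]
            rintro rfl
            exact self_notMem v (mem_drop hv)
          rw [h0, rT_step, step_snd (by simp)]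
          show c + (t₂.1.2 + c) = t₂.1.2
          rw [add_comm, add_assoc, z2, add_zero]
      refine Eq.trans ?_ e
      rw [← shf_rs (wle_cons b w)]
      rfl
    · have e : rT (Y :: w) (a :: w) (mk (a :: w) (fun v => if v = w then u.1.2 else 0) 0) +
          rT (Y :: w) (b :: w) (mk (b :: w) (fun v => if v = w then t₂.1.2 + c else 0) 0) +
          dT (Y :: w) 0 = u := by
        refine T_Y_ext ?_
        show (rT (Y :: w) (a :: w) _).1.2 + (rT (Y :: w) (b :: w) _).1.2 + (dT (Y :: w) 0).1.2 = _
        have h0 : (dT (Y :: w) 0).1.2 = 0 := rfl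
        rw [h0, add_zero, a_rT_Y, b_rT_Y, mk_fst _ _ _ (mem_At_cons_self (by simp) w),
          if_pos rfl, sm_mk _ _ _ (fun v hv => by rw [At_b]; simp [hv]), sm_eq_zero, add_zero]
        intro v hv
        rw [if_neg]
        rintro rfl
        exact self_notMem v (mem_drop hv)
      refine Eq.trans ?_ e
      rw [← shf_rs (Y_le_cons (by simp) w), ← shf_rs (Y_le_cons (by simp) w)]
      rfl
  inj := by
    intro A b₁ b₂ c hA h1 h2 h3
    change T w at A
    change T (a :: w) at b₁
    change T (b :: w) at b₂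
    change T (Y :: w) at c
    have h1' : rT (a :: w) w A = dT (a :: w) b₁ := by
      rw [← shf_rs (wle_cons a w)]; exact h1
    have h2' : rT (b :: w) w A = dT (b :: w) b₂ := by
      rw [← shf_rs (wle_cons b w)]; exact h2
    have h3' : b₁.1.1 w + sm ((At w).drop 2) b₂.1.1 = 0 := by
      have h4 : rT (Y :: w) (a :: w) b₁ + rT (Y :: w) (b :: w) b₂ = dT (Y :: w) c := by
        rw [← shf_rs (Y_le_cons (by simp) w), ← shf_rs (Y_le_cons (by simp) w)]
        exact h3
      have h5 : (rT (Y :: w) (a :: w) b₁).1.2 + (rT (Y :: w) (b :: w) b₂).1.2 =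
        (dT (Y :: w) c).1.2 := congrArg (fun y : T (Y :: w) => y.1.2) h4
      rw [a_rT_Y, b_rT_Y] at h5
      exact h5
    have hA1 : ∀ v ∈ At w, A.1.1 v = 0 := by
      intro v hv
      rw [← List.take_append_drop 2 (At w), List.mem_append] at hv
      rcases hv with hv | hv
      · rw [← step_a_keep hv, ← rT_step, h1']
        rfl
      · rw [← step_b_keep hv, ← rT_step, h2']
        rfl
    by_cases hne : At w = []
    · refine ⟨(0 : T w), ?_⟩
      have h00 : shf.d w (0 : T w) = (0 : T w) := map_zero (shf.d w)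
      rw [h00]
      refine T_ext (fun v hv => ?_) ?_
      · rw [hne] at hv; simp at hv
      · have e1 : A.1.2 = sm (At (a :: w)) b₁.1.1 := by
          have := congrArg (fun y : T (a :: w) => y.1.2) h1'
          have h5 : (rT (a :: w) w A).1.2 = (dT (a :: w) b₁).1.2 := this
          rw [rT_step, step_snd (by simp)] at h5
          exact h5
        rw [e1, At_a, hne]
        rw [hne] at h3'
        simp only [List.drop_nil, sm_nil, add_zero] at h3'
        simp only [List.take_nil, List.nil_append, sm_cons, sm_nil, h3', add_zero]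
        rfl
    · obtain ⟨v, hv⟩ := List.exists_mem_of_ne_nil _ hne
      exact ⟨_, bd_of_token hv A hA1⟩

/-! ### two persistent tokens -/

lemma dj {v p q r : Word} (hv : At v = [p, q, r])
    (hdis : Set.Iic (Y :: p) ∩ Set.Iic (Y :: q) = ∅) : shf.Dj v (Y :: p) (Y :: q) where
  le₁ := tokY_le (by rw [hv]; simp)
  le₂ := tokY_le (by rw [hv]; simp)
  inter := hdis
  surj := by
    intro t₁ t₂ h1 h2
    change T (Y :: p) at t₁
    change T (Y :: q) at t₂
    have hn := at_nodup v
    rw [hv] at hn
    simp only [List.nodup_cons, List.mem_cons, List.not_mem_nil, or_false, not_or] at hn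
    obtain ⟨⟨hpq, hpr⟩, hqr, -⟩ := hn
    set f : Word → ZMod 2 := fun u => if u = p then t₁.1.2 else if u = q then t₂.1.2 else
      t₁.1.2 + t₂.1.2 with hf
    have fp : f p = t₁.1.2 := if_pos rfl
    have fq : f q = t₂.1.2 := by
      show (if q = p then _ else _) = _
      rw [if_neg (fun h => hpq h.symm), if_pos rfl]
    have fr : f r = t₁.1.2 + t₂.1.2 := by
      show (if r = p then _ else _) = _
      rw [if_neg (fun h => hpr h.symm), if_neg (fun h => hqr h.symm)]
    set A : T v := mk v f 0 with hA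
    have hs : sm (At v) A.1.1 = 0 := by
      rw [hA, sm_mk v f 0 (fun u hu => hu), hv]
      simp only [sm_cons, sm_nil, fp, fq, fr]
      generalize t₁.1.2 = x
      generalize t₂.1.2 = y
      revert x y
      decide
    have hp : p ∈ At v := by rw [hv]; simp
    have hq : q ∈ At v := by rw [hv]; simp
    refine ⟨A, (0 : T (Y :: p)), (0 : T (Y :: q)), (dT_zero_iff v A).2 hs, ?_, ?_⟩
    · have e : rT (Y :: p) v A = t₁ := by
        refine T_Y_ext ?_
        rw [rT_jump hp, jump_cocycle hs]
        show A.1.1 p = _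
        rw [hA, mk_fst v f 0 hp, fp]
      have h00 : shf.d (Y :: p) (0 : T (Y :: p)) = (0 : T (Y :: p)) := map_zero (shf.d _)
      rw [h00]
      refine Eq.trans ?_ e
      refine (add_zero (M := T (Y :: p)) _).trans ?_
      exact shf_rs (tokY_le hp) A
    · have e : rT (Y :: q) v A = t₂ := by
        refine T_Y_ext ?_
        rw [rT_jump hq, jump_cocycle hs]
        show A.1.1 q = _
        rw [hA, mk_fst v f 0 hq, fq]
      have h00 : shf.d (Y :: q) (0 : T (Y :: q)) = (0 : T (Y :: q)) := map_zero (shf.d _)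
      rw [h00]
      refine Eq.trans ?_ e
      refine (add_zero (M := T (Y :: q)) _).trans ?_
      exact shf_rs (tokY_le hq) A
  inj := by
    intro A b₁ b₂ hA h1 h2
    change T v at A
    change T (Y :: p) at b₁
    change T (Y :: q) at b₂
    have hs : sm (At v) A.1.1 = 0 := (dT_zero_iff v A).1 hA
    have hp : p ∈ At v := by rw [hv]; simp
    have hq : q ∈ At v := by rw [hv]; simp
    have e1 : rT (Y :: p) v A = dT (Y :: p) b₁ := by
      rw [← shf_rs (tokY_le hp)]; exact h1
    have e2 : rT (Y :: q) v A = dT (Y :: q) b₂ := by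
      rw [← shf_rs (tokY_le hq)]; exact h2
    have f1 : A.1.1 p = 0 := by
      have h3 : (rT (Y :: p) v A).1.2 = (dT (Y :: p) b₁).1.2 :=
        congrArg (fun y : T (Y :: p) => y.1.2) e1
      rw [rT_jump hp, jump_cocycle hs] at h3
      exact h3
    have f2 : A.1.1 q = 0 := by
      have h3 : (rT (Y :: q) v A).1.2 = (dT (Y :: q) b₂).1.2 :=
        congrArg (fun y : T (Y :: q) => y.1.2) e2
      rw [rT_jump hq, jump_cocycle hs] at h3
      exact h3
    have f3 : A.1.1 r = 0 := by
      rw [hv] at hs
      simpa [sm_cons, sm_nil, f1, f2] using hs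
    refine ⟨_, bd_of_token hp A ?_⟩
    intro u hu
    rw [hv] at hu
    simp only [List.mem_cons, List.not_mem_nil, or_false] at hu
    rcases hu with rfl | rfl | rfl
    · exact f1
    · exact f2
    · exact f3

lemma disj_tokens {v p q : Word} (hp : p ∈ At v) (hq : q ∈ At v) (hpq : p ≠ q) :
    Set.Iic (Y :: p) ∩ Set.Iic (Y :: q) = ∅ := by
  rw [Set.eq_empty_iff_forall_notMem]
  rintro x ⟨h1, h2⟩
  rw [Set.mem_Iic, le_Y_iff] at h1 h2
  have key : ∀ p q : Word, p ∈ At v → q ∈ At v → p ≠ q → (Y :: p) <:+ (Y :: q) → False := by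
    intro p q hp hq hpq h
    rcases List.suffix_cons_iff.1 h with h | h
    · rw [List.cons.injEq] at h
      exact hpq h.2
    · exact not_Y_suffix_of_mem_At hp (List.suffix_refl p) (h.trans (suffix_of_mem_At hq))
  rcases suffix_total h1 h2 with h | h
  · exact key p q hp hq hpq h
  · exact key q p hq hp (fun h' => hpq h'.symm) h

/-- (2a): the restriction to the two children is a quasi-isomorphism -/
theorem qiso_word (w : Word) :
    DSheaf.QIso shf (Set.Iic w) (Set.Iic (a :: w) ∪ Set.Iic (b :: w)) := (sq w).qiso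

/-- (2c): the restriction to two tokens out of three is a quasi-isomorphism -/
theorem qiso_tokens {v p q r : Word} (hv : At v = [p, q, r]) :
    DSheaf.QIso shf (Set.Iic v) (Set.Iic (Y :: p) ∪ Set.Iic (Y :: q)) := by
  have hn := at_nodup v
  rw [hv] at hn
  simp only [List.nodup_cons, List.mem_cons, List.not_mem_nil, or_false, not_or] at hn
  exact (dj hv (disj_tokens (by rw [hv]; simp) (by rw [hv]; simp) hn.1.1)).qiso

/-! ### infinite words -/

lemma bd_step {i : L} (hi : i ≠ Y) (w : Word) (x : T (i :: w))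
    (hx : ∀ v ∈ At (i :: w), x.1.1 v = 0) : ∃ s : T (i :: w), x = dT _ s :=
  ⟨_, bd_of_token (mem_At_cons_self hi w) x hx⟩

section Inf

variable {w : ℕ → Word} {x : ℕ → L} (hw : ∀ n, w (n + 1) = x n :: w n)

include hw

lemma le_seq {n m : ℕ} (h : n ≤ m) : w m ≤ w n := by
  induction m, h using Nat.le_induction with
  | base => exact le_refl _
  | succ m _ ih =>
    rw [hw m]
    exact (cons_le (x m) (w m)).trans ih

lemma rT_trans {n m k : ℕ} (h : n ≤ m) (h' : m ≤ k) (t : T (w n)) :
    rT (w k) (w m) (rT (w m) (w n) t) = rT (w k) (w n) t :=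
  Subtype.ext (rsW_rsW w_tr w_an (le_seq hw h') (le_seq hw h) t.1)

omit hw in
lemma rT_cocycle {w' w : Word} {t : T w} (ht : dT w t = 0) : dT w' (rT w' w t) = 0 := by
  refine Subtype.ext ?_
  rw [dT_val, rT_val, rsW_d, ← dT_val, ht]
  exact map_zero _

/-- after a letter `Y` every element dies at the next letter -/
lemma die_Y {m : ℕ} (hm : x m = Y) (t : T (w (m + 1))) :
    ∃ s : T (w (m + 2)), rT (w (m + 2)) (w (m + 1)) t = dT _ s := by
  have h1 : w (m + 1) = Y :: w m := by rw [hw m, hm]
  have h2 : w (m + 2) = x (m + 1) :: w (m + 1) := hw (m + 1)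
  have ht : ∀ u, t.1.1 u = 0 := fun u => t.2 u (by rw [h1]; simp)
  have key : ∀ (v v' : Word) (i : L), v' = i :: v → At v = [] → ∀ t : T v,
      ∃ s : T v', rT v' v t = dT _ s := by
    rintro v _ i rfl hv t
    have ht : ∀ u, t.1.1 u = 0 := fun u => t.2 u (by rw [hv]; simp)
    by_cases hi : i = Y
    · subst hi
      refine ⟨0, ?_⟩
      rw [map_zero]
      refine T_Y_ext ?_
      rw [rT_step]
      show sm ((At v).drop 2) t.1.1 = 0
      rw [hv]
      rfl
    · refine bd_step hi v _ (fun u _ => ?_)
      rw [rT_step]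
      cases i with
      | Y => exact absurd rfl hi
      | a =>
        show (if u ∈ (At v).take 2 then t.1.1 u else if u = v then sm ((At v).drop 2) t.1.1 else 0)
          = 0
        rw [ht u, sm_eq_zero (fun u _ => ht u)]
        split_ifs <;> rfl
      | b =>
        show (if u ∈ (At v).drop 2 then t.1.1 u else if u = v then sm ((At v).take 2) t.1.1 else 0)
          = 0
        rw [ht u, sm_eq_zero (fun u _ => ht u)]
        split_ifs <;> rfl
  exact key _ _ _ h2 (by rw [h1]; rfl) t

/-- the invariant between two letters `b` -/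
def Inv (v : Word) (t : T v) : Prop :=
  sm ((At v).take 2) t.1.1 = 0 ∧ ∀ u ∈ (At v).drop 2, t.1.1 u = 0

omit hw in
lemma inv_b {v : Word} {t : T v} (ht : sm (At v) t.1.1 = 0) : Inv (b :: v) (rT (b :: v) v t) := by
  have hl : (At (b :: v)).length ≤ 2 := by
    rw [At_b, List.length_append, List.length_singleton]
    have := drop_length v
    omega
  have h1 : (At (b :: v)).take 2 = At (b :: v) := List.take_of_length_le hl
  have h2 : (At (b :: v)).drop 2 = [] := List.drop_of_length_le hl
  refine ⟨?_, ?_⟩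
  · rw [h1, rT_step, sm_step (by simp), ht]
  · rw [h2]
    intro u hu
    simp at hu

omit hw in
lemma inv_a {v : Word} {t : T v} (ht : Inv v t) (hv : At v ≠ []) :
    Inv (a :: v) (rT (a :: v) v t) := by
  have hnew : (rT (a :: v) v t).1.1 v = 0 := by
    rw [rT_step, step_new_a]
    exact sm_eq_zero ht.2
  have hkeep : ∀ u ∈ (At v).take 2, (rT (a :: v) v t).1.1 u = t.1.1 u := by
    intro u hu
    rw [rT_step, step_a_keep hu]
  by_cases hl : ((At v).take 2).length = 2
  · have h1 : (At (a :: v)).take 2 = (At v).take 2 := by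
      rw [At_a, List.take_append_of_le_length (by omega), List.take_take]
      rfl
    have h2 : (At (a :: v)).drop 2 = [v] := by
      rw [At_a, List.drop_append_of_le_length (by omega), List.drop_of_length_le (by omega)]
      rfl
    refine ⟨?_, ?_⟩
    · rw [h1, sm_congr hkeep]
      exact ht.1
    · rw [h2]
      intro u hu
      rw [List.mem_singleton] at hu
      rw [hu]
      exact hnew
  · have hl' : ((At v).take 2).length ≤ 1 := by
      have : ((At v).take 2).length ≤ 2 := List.length_take_le _ _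
      omega
    have hl2 : (At (a :: v)).length ≤ 2 := by
      rw [At_a, List.length_append, List.length_singleton]
      omega
    have h1 : (At (a :: v)).take 2 = At (a :: v) := List.take_of_length_le hl2
    have h2 : (At (a :: v)).drop 2 = [] := List.drop_of_length_le hl2
    refine ⟨?_, ?_⟩
    · rw [h1, At_a, sm_append, sm_cons, sm_nil, add_zero, hnew, add_zero, sm_congr hkeep]
      exact ht.1
    · rw [h2]
      intro u hu
      simp at hu

omit hw in
lemma die_b {v : Word} {t : T v} (ht : Inv v t) : ∃ s : T (b :: v), rT (b :: v) v t = dT _ s := by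
  refine bd_step (by simp) v _ (fun u hu => ?_)
  rw [At_b, List.mem_append, List.mem_singleton] at hu
  rw [rT_step]
  rcases hu with hu | rfl
  · rw [step_b_keep hu]
    exact ht.2 u hu
  · rw [step_new_b]
    exact ht.1

lemma inv_run {m k : ℕ} (hmk : m ≤ k) (hne : At (w m) ≠ []) {t : T (w m)} (ht : Inv _ t)
    (ha : ∀ j, m ≤ j → j < k → x j = a) : At (w k) ≠ [] ∧ Inv _ (rT (w k) (w m) t) := by
  induction k, hmk using Nat.le_induction with
  | base =>
    refine ⟨hne, ?_⟩
    have : rT (w m) (w m) t = t := Subtype.ext (rsW_self _ _)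
    rw [this]
    exact ht
  | succ k hk ih =>
    obtain ⟨h1, h2⟩ := ih (fun j hj hj' => ha j hj (by omega))
    have h3 : w (k + 1) = a :: w k := by rw [hw k, ha k hk (by omega)]
    have h4 : Inv (w (k + 1)) (rT (w (k + 1)) (w k) (rT (w k) (w m) t)) := by
      rw [h3]
      exact inv_a h2 h1
    rw [rT_trans hw hk (Nat.le_succ k)] at h4
    refine ⟨?_, h4⟩
    rw [h3, At_a]
    simp

/-- (2b): every class dies along an infinite word with infinitely many `Y` or `b` -/
theorem die (hinf : (∀ n, ∃ m, n ≤ m ∧ x m = Y) ∨ (∀ n, ∃ m, n ≤ m ∧ x m = b)) (n : ℕ)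
    (t : T (w n)) (ht : dT _ t = 0) :
    ∃ m, n ≤ m ∧ ∃ s : T (w m), rT (w m) (w n) t = dT _ s := by
  classical
  by_cases hY : ∃ m, n ≤ m ∧ x m = Y
  · obtain ⟨m, hm, hxm⟩ := hY
    obtain ⟨s, hs⟩ := die_Y hw hxm (rT (w (m + 1)) (w n) t)
    refine ⟨m + 2, by omega, s, ?_⟩
    rw [← hs, rT_trans hw (by omega) (by omega)]
  · push Not at hY
    have hb : ∀ n, ∃ m, n ≤ m ∧ x m = b := by
      rcases hinf with h | h
      · obtain ⟨m, hm, hxm⟩ := h n
        exact absurd hxm (hY m hm)
      · exact h
    -- the first `b`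
    obtain ⟨m, hm, hxm⟩ := hb n
    -- the next `b`
    have hex := hb (m + 1)
    obtain ⟨hk, hxk⟩ := Nat.find_spec hex
    set k := Nat.find hex with hkdef
    have hmin : ∀ j, m + 1 ≤ j → j < k → x j = a := by
      intro j hj hjk
      have h1 := Nat.find_min hex hjk
      have h2 : x j ≠ b := fun h => h1 ⟨hj, h⟩
      have h3 : x j ≠ Y := hY j (by omega)
      cases hxj : x j with
      | Y => exact absurd hxj h3
      | a => rfl
      | b => exact absurd hxj h2
    have h4 : w (m + 1) = b :: w m := by rw [hw m, hxm]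
    have h5 : sm (At (w m)) (rT (w m) (w n) t).1.1 = 0 :=
      (dT_zero_iff _ _).1 (rT_cocycle ht)
    have h6 : Inv (w (m + 1)) (rT (w (m + 1)) (w m) (rT (w m) (w n) t)) := by
      rw [h4]
      exact inv_b h5
    rw [rT_trans hw hm (Nat.le_succ m)] at h6
    have hne : At (w (m + 1)) ≠ [] := by
      rw [h4, At_b]
      simp
    obtain ⟨-, h7⟩ := inv_run hw hk hne h6 hmin
    rw [rT_trans hw (by omega) hk] at h7
    have h8 : w (k + 1) = b :: w k := by rw [hw k, hxk]
    have h9 : ∃ s : T (w (k + 1)), rT (w (k + 1)) (w k) (rT (w k) (w n) t) = dT _ s := by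
      rw [h8]
      exact die_b h7
    obtain ⟨s, hs⟩ := h9
    refine ⟨k + 1, by omega, s, ?_⟩
    rw [← hs, rT_trans hw (by omega) (Nat.le_succ k)]

/-- (2b) for the cochains of the nerve -/
theorem die_nerve (hinf : (∀ n, ∃ m, n ≤ m ∧ x m = Y) ∨ (∀ n, ∃ m, n ≤ m ∧ x m = b)) (n : ℕ)
    (z : shf.Fn) (hD : shf.D (Set.Iic (w n)) z = 0) :
    ∃ m, n ≤ m ∧ ∃ y ∈ shf.C (Set.Iic (w m)),
      shf.D (Set.Iic (w m)) y = shf.tr (Set.Iic (w m)) z := by
  have hself : w n ∈ Set.Iic (w n) := Set.self_mem_Iic
  have h0 : dT _ (z (w n) []) = 0 := by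
    have h1 := shf.D_self hself z
    rw [hD] at h1
    exact h1.symm
  obtain ⟨m, hm, s, hs⟩ := die hw hinf n (z (w n) []) h0
  refine ⟨m, hm, ?_⟩
  have hle : w m ≤ w n := le_seq hw hm
  have hsub : Set.Iic (w m) ⊆ Set.Iic (w n) := Set.Iic_subset_Iic.2 hle
  have h2 := shf.cocycle_val hD hle hle hself
  let s' : shf.V (w m) := s
  have e : shf.rs (w m) (w n) (z (w n) []) = shf.d (w m) s' :=
    (shf_rs hle (z (w n) [])).trans hs
  rw [e] at h2
  have h3 : z (w m) [] = shf.d (w m) (s' + z (w m) [w n]) := by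
    rw [shf.d_add, ← shf.add_eq_zero']
    rw [← h2]
    abel
  obtain ⟨y, hy, hDy, -⟩ := shf.exists_prim (shf.tr_mem (Set.Iic (w m)) z)
    (by
      rw [shf.D_tr (le_refl _)]
      exact DSheaf.D_cocycle hsub hD) (s' + z (w m) [w n]) (by
      rw [shf.tr_of (DSheaf.ch_self (W := Set.Iic (w m)) (le_refl (w m)))]
      exact h3)
  exact ⟨y, hy, hDy⟩

end Inf

/-! ### the global sections -/

lemma Iic_nil : Set.Iic ([] : Word) = Set.univ := by
  ext v
  simp only [Set.mem_Iic, Set.mem_univ, iff_true]
  exact le_nil v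

/-- there is a class on the set of all words which is not zero -/
theorem exists_class : ∃ z ∈ shf.C Set.univ, shf.D Set.univ z = 0 ∧
    ∀ y : shf.Fn, shf.D Set.univ y ≠ z := by
  rw [← Iic_nil]
  let t : shf.V ([] : Word) := mk [] 0 1
  have hdt : shf.d ([] : Word) t = 0 := (dT_zero_iff _ t).2 rfl
  refine ⟨shf.cs [] t, shf.cs_mem _ _, ?_, ?_⟩
  · rw [shf.D_cs, hdt, shf.cs_zero]
  · intro y hy
    have h1 := shf.D_self (W := Set.Iic ([] : Word)) Set.self_mem_Iic y
    rw [hy, shf.cs_self] at h1
    have h2 : (dT ([] : Word) (y [] [])).1.2 = 1 := by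
      have := congrArg (fun s : T ([] : Word) => s.1.2) h1
      exact this.symm
    have h3 : (dT ([] : Word) (y [] [])).1.2 = 0 := rfl
    rw [h3] at h2
    exact zero_ne_one h2

end MP40506.CX.Sheaf
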