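import Pool.Agent.Work.MP_40506d_al.CX.Filters
import Pool.Agent.Work.MP_40506d_al.CX.Sheaf

/-!
# Every filter of the semilattice of words is dying or of type A
-/

set_option linter.unusedSectionVars false

namespace MP40506.CX

open L Nerve Sheaf

/-- finitely generated down-sets -/
def Gen (W : Set Word) : Prop :=
  IsLowerSet W ∧ ∃ T : Finset Word, ∀ w ∈ W, ∃ r ∈ T, r ∈ W ∧ w ≤ r

structure DyingF (F : Set Gam) : Prop where
  avoid : ∀ W, Gen W → (∀ w ∈ W, (w : Gam) ∉ F) → ∃ v ∈ F, ∀ w ∈ W, ¬ (w : Gam) ≤ v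
  die : ⊥ ∈ F ∨ ∀ v : Word, (v : Gam) ∈ F → ∀ z ∈ shf.C (Set.Iic v),
    shf.D (Set.Iic v) z = 0 → ∃ v' : Word, (v' : Gam) ∈ F ∧ v' ≤ v ∧
      ∃ y ∈ shf.C (Set.Iic v'), shf.D (Set.Iic v') y = shf.tr (Set.Iic v') z

structure TypeA (F : Set Gam) (v1 v2 : Word) : Prop where
  bot : ⊥ ∉ F
  n1 : (v1 : Gam) ∉ F
  n2 : (v2 : Gam) ∉ F
  avoid : ∀ W, Gen W → (∀ w ∈ W, (w : Gam) ∉ F) →
    ∃ v ∈ F, ∀ w ∈ W, (w : Gam) ≤ v → w ≤ v1 ∨ w ≤ v2
  qiso : ∀ v : Word, (v : Gam) ∈ F → ∃ v' : Word, (v' : Gam) ∈ F ∧ v' ≤ v ∧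
    DSheaf.QIso shf (Set.Iic v') (Set.Iic v1 ∪ Set.Iic v2)

lemma exists_avoid {F : Set Gam} (hF : IsFilt F) (hb : ⊥ ∉ F) {W : Set Word} (hW : Gen W)
    (h : ∀ w ∈ W, (w : Gam) ∉ F) :
    ∃ v ∈ F, ∀ w ∈ W, (w : Gam) ≤ v → w ∈ EF F := by
  classical
  obtain ⟨-, T, hT⟩ := hW
  obtain ⟨v, hv, h'⟩ := exists_inter_sub hF hb (T.filter (· ∈ W))
    (fun g hg => h g (Finset.mem_filter.1 hg).2)
  refine ⟨(v : Gam), hv, fun w hw hwv => ?_⟩
  obtain ⟨r, hr, hrW, hwr⟩ := hT w hw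
  exact h' w r (Finset.mem_filter.2 ⟨hr, hrW⟩) hwr (gam_coe_le.1 hwv)

theorem dichotomy {F : Set Gam} (hF : IsFilt F) : DyingF F ∨ ∃ v1 v2, TypeA F v1 v2 := by
  rcases filt_classification hF with rfl | ⟨w, rfl⟩ | ⟨x, hx, rfl⟩ | ⟨x, u, v, n1, rfl, huv, h, hE⟩
  · exact Or.inl ⟨fun W _ h => ⟨⊤, Set.mem_univ _, fun w hw => absurd (Set.mem_univ _) (h w hw)⟩,
      Or.inl (Set.mem_univ _)⟩
  · have hb : (⊥ : Gam) ∉ Set.Ici (w : Gam) := by
      intro h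
      exact absurd (le_bot_iff.1 (Set.mem_Ici.1 h)) (by simp)
    have m1 : a :: w ∈ EF (Set.Ici (w : Gam)) := by rw [EF_Ici]; exact Or.inl le_rfl
    have m2 : b :: w ∈ EF (Set.Ici (w : Gam)) := by rw [EF_Ici]; exact Or.inr le_rfl
    refine Or.inr ⟨a :: w, b :: w, hb, m1.1, m2.1, ?_, ?_⟩
    · intro W hW h
      obtain ⟨v, hv, h'⟩ := exists_avoid hF hb hW h
      refine ⟨v, hv, fun y hy hyv => ?_⟩
      have := h' y hy hyv
      rw [EF_Ici] at this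
      exact this
    · intro v hv
      exact ⟨w, Set.mem_Ici.2 le_rfl, gam_coe_le.1 hv, qiso_word w⟩
  · refine Or.inl ⟨?_, Or.inr ?_⟩
    · intro W hW h
      obtain ⟨v, hv, h'⟩ := exists_avoid hF (bot_notMem_Filt x) hW h
      refine ⟨v, hv, fun y hy hyv => ?_⟩
      have := h' y hy hyv
      rw [EF_of_dying hx] at this
      exact this
    · rintro v ⟨n, hn⟩ z hz hd
      have hn' : pre x n ≤ v := gam_coe_le.1 hn
      have hsub : Set.Iic (pre x n) ⊆ Set.Iic v := Set.Iic_subset_Iic.2 hn'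
      obtain ⟨m, hm, y, hy, hyz⟩ := die_nerve (w := pre x) (x := x) (fun n => rfl) hx n
        (shf.tr (Set.Iic (pre x n)) z) (shf.tr_cocycle hsub hd)
      refine ⟨pre x m, pre_mem_Filt x m, (pre_antitone x hm).trans hn', y, hy, ?_⟩
      rw [hyz, shf.tr_tr (Set.Iic_subset_Iic.2 (pre_antitone x hm))]
  · have hb := bot_notMem_Filt x
    have m1 : Y :: u ∈ EF (Filt x) := by rw [hE]; exact Or.inl le_rfl
    have m2 : Y :: v ∈ EF (Filt x) := by rw [hE]; exact Or.inr le_rfl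
    refine Or.inr ⟨Y :: u, Y :: v, hb, m1.1, m2.1, ?_, ?_⟩
    · intro W hW h
      obtain ⟨g, hg, h'⟩ := exists_avoid hF hb hW h
      refine ⟨g, hg, fun y hy hyv => ?_⟩
      have := h' y hy hyv
      rw [hE] at this
      exact this
    · rintro g ⟨n, hn⟩
      refine ⟨pre x (max n n1 + 1), pre_mem_Filt x _,
        (pre_antitone x (by omega)).trans (gam_coe_le.1 hn), ?_⟩
      exact qiso_tokens (h (max n n1) (le_max_right _ _)).2

end MP40506.CX
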