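import Pool.Agent.Work.MP_40506d_al.CX.Weights

set_option autoImplicit false

/-! The faces of the monoid `M` of section 3 are the filters of `Γ` (cell TT). -/

namespace MP40506.CX.Wt.Weights

variable {Γ : Type} [SemilatticeInf Γ] [OrderTop Γ] [OrderBot Γ] (D : Weights Γ)

/-- the filter of a submonoid -/
def filt (U : AddSubmonoid (Γ →₀ ℤ)) : Set Γ := {v | Finsupp.single v 1 ∈ U}

omit [OrderBot Γ] [SemilatticeInf Γ] [OrderTop Γ] in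
lemma mem_filt {U : AddSubmonoid (Γ →₀ ℤ)} {v : Γ} : v ∈ filt U ↔ Finsupp.single v 1 ∈ U :=
  Iff.rfl

omit [OrderBot Γ] [SemilatticeInf Γ] [OrderTop Γ] in
lemma single_nat_mem {U : AddSubmonoid (Γ →₀ ℤ)} {v : Γ} (h : v ∈ filt U) (N : ℕ) :
    Finsupp.single v (N : ℤ) ∈ U := by
  have e : Finsupp.single v (N : ℤ) = N • Finsupp.single v (1 : ℤ) := by
    rw [Finsupp.smul_single]; simp
  rw [e]
  exact U.nsmul_mem h N

lemma neg_single_top_mem : -Finsupp.single ⊤ 1 ∈ D.M := by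
  rw [D.mem_M, D.W_neg_single]
  exact Set.Iic_top

/-- `ifs` is antitone on `M` -/
lemma ifs_add_le {a b : Γ →₀ ℤ} (ha : a ∈ D.M) (hb : b ∈ D.M) : ifs (a + b) ≤ ifs a := by
  rw [← D.exists_single_sub_mem_M_iff ha]
  obtain ⟨N, hN⟩ := (D.exists_single_sub_mem_M_iff (D.M.add_mem ha hb) (ifs (a + b))).mpr le_rfl
  refine ⟨N, ?_⟩
  have := D.M.add_mem hN hb
  rwa [show Finsupp.single (ifs (a + b)) (N : ℤ) - (a + b) + b =
    Finsupp.single (ifs (a + b)) (N : ℤ) - a by abel] at this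

omit [OrderBot Γ] in
lemma le_ifs_add (a b : Γ →₀ ℤ) : ifs a ⊓ ifs b ≤ ifs (a + b) := by
  classical
  rw [le_ifs]
  intro v hv
  rcases Finset.mem_union.mp (Finsupp.support_add hv) with h | h
  · exact inf_le_left.trans (le_ifs.mp le_rfl v h)
  · exact inf_le_right.trans (le_ifs.mp le_rfl v h)

section face

variable {U : AddSubmonoid (Γ →₀ ℤ)} (hU : U ≤ D.M)
  (hf : ∀ a ∈ D.M, ∀ b ∈ D.M, a + b ∈ U → a ∈ U ∧ b ∈ U)

include hf

lemma top_mem_filt : (⊤ : Γ) ∈ filt U := by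
  refine (hf _ (D.single_mem_M ⊤) _ D.neg_single_top_mem ?_).1
  rw [add_neg_cancel]
  exact U.zero_mem

lemma filt_upper {u v : Γ} (h : v ≤ u) (hv : v ∈ filt U) : u ∈ filt U := by
  obtain ⟨N, hN⟩ := D.exists_single_sub_single h
  refine (hf _ (D.single_mem_M u) _ hN ?_).1
  rw [add_sub_cancel]
  exact single_nat_mem hv N

lemma filt_inf {u v : Γ} (hu : u ∈ filt U) (hv : v ∈ filt U) : u ⊓ v ∈ filt U := by
  obtain ⟨N, hN⟩ := D.exists_nsmul_add_sub u v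
  refine (hf _ (D.single_mem_M (u ⊓ v)) _ hN ?_).1
  rw [add_sub_cancel]
  exact U.nsmul_mem (U.add_mem hu hv) N

include hU in
/-- a face is determined by its filter -/
theorem mem_face_iff {g : Γ →₀ ℤ} : g ∈ U ↔ g ∈ D.M ∧ ifs g ∈ filt U := by
  constructor
  · intro hg
    refine ⟨hU hg, ?_⟩
    obtain ⟨N, hN⟩ := D.exists_nsmul_sub_single_mem_M (hU hg)
    refine (hf _ (D.single_mem_M (ifs g)) _ hN ?_).1
    rw [add_sub_cancel]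
    exact U.nsmul_mem hg N
  · rintro ⟨hg, hv⟩
    obtain ⟨N, hN⟩ := (D.exists_single_sub_mem_M_iff hg (ifs g)).mpr le_rfl
    refine (hf _ hg _ hN ?_).1
    rw [add_sub_cancel]
    exact single_nat_mem hv N

include hU in
/-- an element of `M` outside a face dominates some `e_v`, `v` not in the filter -/
lemma exists_nsmul_sub_of_not_mem {g : Γ →₀ ℤ} (hg : g ∈ D.M) (hgU : g ∉ U) :
    ifs g ∉ filt U ∧ ∃ N : ℕ, N • g - Finsupp.single (ifs g) 1 ∈ D.M :=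
  ⟨fun h => hgU ((D.mem_face_iff hU hf).mpr ⟨hg, h⟩), D.exists_nsmul_sub_single_mem_M hg⟩

end face

/-- faces with the same filter are equal -/
theorem face_ext {U U' : AddSubmonoid (Γ →₀ ℤ)} (hU : U ≤ D.M)
    (hf : ∀ a ∈ D.M, ∀ b ∈ D.M, a + b ∈ U → a ∈ U ∧ b ∈ U) (hU' : U' ≤ D.M)
    (hf' : ∀ a ∈ D.M, ∀ b ∈ D.M, a + b ∈ U' → a ∈ U' ∧ b ∈ U') (h : filt U = filt U') :
    U = U' := by
  ext g
  rw [D.mem_face_iff hU hf, D.mem_face_iff hU' hf', h]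

/-- the face of a filter -/
def faceOf (F : Set Γ) (htop : ⊤ ∈ F) (hup : ∀ u v, u ≤ v → u ∈ F → v ∈ F)
    (hinf : ∀ u ∈ F, ∀ v ∈ F, u ⊓ v ∈ F) : AddSubmonoid (Γ →₀ ℤ) where
  carrier := {g | g ∈ D.M ∧ ifs g ∈ F}
  zero_mem' := by
    refine ⟨D.M.zero_mem, ?_⟩
    have : ifs (0 : Γ →₀ ℤ) = ⊤ := by
      unfold ifs
      rw [Finsupp.support_zero, Finset.inf_empty]
    rw [this]
    exact htop
  add_mem' := by
    intro a b ha hb
    exact ⟨D.M.add_mem ha.1 hb.1, hup _ _ (le_ifs_add a b) (hinf _ ha.2 _ hb.2)⟩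

lemma mem_faceOf {F : Set Γ} {htop : ⊤ ∈ F} {hup : ∀ u v, u ≤ v → u ∈ F → v ∈ F}
    {hinf : ∀ u ∈ F, ∀ v ∈ F, u ⊓ v ∈ F} {g : Γ →₀ ℤ} :
    g ∈ D.faceOf F htop hup hinf ↔ g ∈ D.M ∧ ifs g ∈ F := Iff.rfl

lemma faceOf_le {F : Set Γ} {htop : ⊤ ∈ F} {hup : ∀ u v, u ≤ v → u ∈ F → v ∈ F}
    {hinf : ∀ u ∈ F, ∀ v ∈ F, u ⊓ v ∈ F} : D.faceOf F htop hup hinf ≤ D.M := fun _ h => h.1

lemma faceOf_face {F : Set Γ} {htop : ⊤ ∈ F} {hup : ∀ u v, u ≤ v → u ∈ F → v ∈ F}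
    {hinf : ∀ u ∈ F, ∀ v ∈ F, u ⊓ v ∈ F} : ∀ a ∈ D.M, ∀ b ∈ D.M,
      a + b ∈ D.faceOf F htop hup hinf →
        a ∈ D.faceOf F htop hup hinf ∧ b ∈ D.faceOf F htop hup hinf := by
  intro a ha b hb h
  refine ⟨⟨ha, hup _ _ (D.ifs_add_le ha hb) h.2⟩, ⟨hb, ?_⟩⟩
  have h2 := h.2
  rw [add_comm] at h2
  exact hup _ _ (D.ifs_add_le hb ha) h2

lemma filt_faceOf {F : Set Γ} {htop : ⊤ ∈ F} {hup : ∀ u v, u ≤ v → u ∈ F → v ∈ F}
    {hinf : ∀ u ∈ F, ∀ v ∈ F, u ⊓ v ∈ F} : filt (D.faceOf F htop hup hinf) = F := by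
  ext v
  rw [mem_filt, mem_faceOf, ifs_single]
  exact ⟨fun h => h.2, fun h => ⟨D.single_mem_M v, h⟩⟩

end MP40506.CX.Wt.Weights
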