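import Pool.Agent.Work.MP_40506d_al.CX.Cone
import Pool.Agent.Work.MP_40506d_al.CX.Dicho
import Pool.Agent.Work.MP_40506d_al.CX.Weights2

set_option autoImplicit false

/-! Section 5 at the level of cochains: for every filter `F` of `Gam` a suitable element of the
face of `F` kills every class of the system `g ↦ C (W (-g))` (dying filters), resp. of the total
complex in the two directions `e_{v₁}`, `e_{v₂}` (filters of type A). -/

namespace MP40506.CX.Sys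

open Nerve Sheaf Cone Wt Wt.Weights

variable (D : Weights Gam)

/-- the words in `W g` -/
def Wd (g : Gam →₀ ℤ) : Set Word := {w | (w : Gam) ∈ D.W g}

lemma mem_Wd {g : Gam →₀ ℤ} {w : Word} : w ∈ Wd D g ↔ (w : Gam) ∈ D.W g := Iff.rfl

lemma isLowerSet_Wd (g : Gam →₀ ℤ) : IsLowerSet (Wd D g) := fun _ _ h hw =>
  D.isLowerSet_W g (WithBot.coe_le_coe.2 h) hw

lemma gen_Wd (g : Gam →₀ ℤ) : Gen (Wd D g) := by
  classical
  refine ⟨isLowerSet_Wd D g, ?_⟩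
  obtain ⟨S, hS, hS'⟩ := D.W_fg g
  refine ⟨S.image (WithBot.unbotD []), fun w hw => ?_⟩
  obtain ⟨r, hr, hwr⟩ := hS' (w : Gam) hw
  induction r using WithBot.recBotCoe with
  | bot => exact absurd hwr (WithBot.not_coe_le_bot w)
  | coe r =>
    exact ⟨r, Finset.mem_image.2 ⟨(r : Gam), hr, rfl⟩, hS _ hr, WithBot.coe_le_coe.1 hwr⟩

lemma Wd_mono {g h : Gam →₀ ℤ} (hgh : h - g ∈ D.M) : Wd D g ⊆ Wd D h := fun _ hw =>
  D.W_mono hgh hw

/-- the element `m e_v` -/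
noncomputable def em (v : Gam) (m : ℕ) : Gam →₀ ℤ := Finsupp.single v (m : ℤ)

lemma em_mem_M (v : Gam) (m : ℕ) : em v m ∈ D.M := by
  have e : Finsupp.single v (m : ℤ) = m • Finsupp.single v (1 : ℤ) := by
    rw [Finsupp.smul_single]; simp
  unfold em
  rw [e]
  exact D.M.nsmul_mem (D.single_mem_M v) m

lemma em_mem {U : AddSubmonoid (Gam →₀ ℤ)} {v : Gam} (h : v ∈ filt U) (m : ℕ) : em v m ∈ U :=
  single_nat_mem h m

lemma nrm_neg (g : Gam →₀ ℤ) : nrm (-g) = nrm g := by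
  unfold nrm
  rw [Finsupp.sum_neg_index (fun _ => rfl)]
  simp

lemma mem_Wd_sub {g : Gam →₀ ℤ} {v : Gam} {m : ℕ} (hm : 2 * nrm g < m) {w : Word} :
    w ∈ Wd D (-(g + em v m)) ↔ w ∈ Wd D (-g) ∧ (w : Gam) ≤ v := by
  have e : -(g + em v m) = -g - Finsupp.single v (m : ℤ) := by
    unfold em; abel
  rw [mem_Wd, e, D.W_sub_single (by rwa [nrm_neg])]
  rfl

lemma Wd_sub_coe {g : Gam →₀ ℤ} {v : Word} {m : ℕ} (hm : 2 * nrm g < m) :
    Wd D (-(g + em v m)) = Wd D (-g) ∩ Set.Iic v := by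
  ext w
  rw [mem_Wd_sub D hm, WithBot.coe_le_coe]
  rfl

lemma Wd_single_inter (v : Word) (g : Gam →₀ ℤ) :
    Wd D (-(g + Finsupp.single (v : Gam) 1)) ∩ Set.Iic v = Wd D (-g) ∩ Set.Iic v := by
  ext w
  have key : w ≤ v → (w ∈ Wd D (-(g + Finsupp.single (v : Gam) 1)) ↔ w ∈ Wd D (-g)) := by
    intro h
    have e : -(g + Finsupp.single (v : Gam) (1 : ℤ)) = -g + Finsupp.single (v : Gam) (-1) := by
      rw [Finsupp.single_neg]; abel
    rw [mem_Wd, e, D.mem_W_add_single (WithBot.coe_le_coe.2 h), mem_Wd]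
  constructor
  · rintro ⟨h1, h2⟩
    exact ⟨(key h2).1 h1, h2⟩
  · rintro ⟨h1, h2⟩
    exact ⟨(key h2).2 h1, h2⟩

section Core

variable {U : AddSubmonoid (Gam →₀ ℤ)}

/-- dying filters: every cocycle of `C (W (-g))` becomes a coboundary after multiplication by an
element of the face -/
theorem dying (hF : DyingF (filt U)) (g : Gam →₀ ℤ) (z : shf.Fn) (_hz : z ∈ shf.C (Wd D (-g)))
    (hD : shf.D (Wd D (-g)) z = 0) : ∃ u ∈ U, u ∈ D.M ∧ ∃ y ∈ shf.C (Wd D (-(g + u))),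
      shf.D (Wd D (-(g + u))) y = shf.tr (Wd D (-(g + u))) z := by
  have hm : 2 * nrm g < 2 * nrm g + 1 := Nat.lt_succ_self _
  -- the case of an empty set
  have empty : ∀ v ∈ filt U, (∀ w ∈ Wd D (-g), ¬ (w : Gam) ≤ v) →
      ∃ u ∈ U, u ∈ D.M ∧ ∃ y ∈ shf.C (Wd D (-(g + u))),
        shf.D (Wd D (-(g + u))) y = shf.tr (Wd D (-(g + u))) z := by
    intro v hv h
    refine ⟨em v (2 * nrm g + 1), em_mem hv _, em_mem_M D v _, 0, zero_mem _, ?_⟩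
    funext a l
    have hn : ¬ DSheaf.Ch (Wd D (-(g + em v (2 * nrm g + 1)))) a l := by
      intro hc
      have h1 := hc.2 a List.mem_cons_self
      rw [mem_Wd_sub D hm] at h1
      exact h a h1.1 h1.2
    rw [shf.tr_not hn, shf.D_mem _ _ a l hn]
  rcases hF.die with hb | hd
  · refine empty ⊥ hb fun w _ h => WithBot.not_coe_le_bot w h
  · by_cases hW : ∀ w ∈ Wd D (-g), (w : Gam) ∉ filt U
    · obtain ⟨v, hv, h⟩ := hF.avoid _ (gen_Wd D (-g)) hW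
      exact empty v hv h
    · push Not at hW
      obtain ⟨v, hvW, hv⟩ := hW
      have hsub : Set.Iic v ⊆ Wd D (-g) := fun w hw => isLowerSet_Wd D (-g) hw hvW
      obtain ⟨v', hv', hle, y, hy, hyz⟩ := hd v hv (shf.tr (Set.Iic v) z) (shf.tr_mem _ _)
        (DSheaf.tr_cocycle hsub hD)
      have hsub' : Set.Iic v' ⊆ Set.Iic v := Set.Iic_subset_Iic.2 hle
      refine ⟨em v' (2 * nrm g + 1), em_mem hv' _, em_mem_M D _ _, y, ?_, ?_⟩
      · rw [Wd_sub_coe D hm, Set.inter_eq_right.2 (hsub'.trans hsub)]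
        exact hy
      · rw [Wd_sub_coe D hm, Set.inter_eq_right.2 (hsub'.trans hsub), hyz, shf.tr_tr hsub']

/-- the choice of `v` for finitely many down-sets -/
lemma exists_v {v₁ v₂ : Word} (hF : TypeA (filt U) v₁ v₂)
    (hinf : ∀ u ∈ filt U, ∀ v ∈ filt U, u ⊓ v ∈ filt U)
    (A B C E : Set Word) (hA : Gen A) (hB : Gen B) (hC : Gen C) (hE : Gen E) :
    ∃ v : Word, (v : Gam) ∈ filt U ∧
      DSheaf.QIso shf (Set.Iic v) (Set.Iic v₁ ∪ Set.Iic v₂) ∧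
      ∀ X : Set Word, (X = A ∨ X = B ∨ X = C ∨ X = E) →
        v ∈ X ∨ X ∩ Set.Iic v ⊆ Set.Iic v₁ ∪ Set.Iic v₂ := by
  have one : ∀ X : Set Word, Gen X → ∃ v ∈ filt U, ∀ v' : Word, (v' : Gam) ≤ v →
      v' ∈ X ∨ X ∩ Set.Iic v' ⊆ Set.Iic v₁ ∪ Set.Iic v₂ := by
    intro X hX
    by_cases h : ∀ w ∈ X, (w : Gam) ∉ filt U
    · obtain ⟨v, hv, hv'⟩ := hF.avoid X hX h
      refine ⟨v, hv, fun v' hle => Or.inr ?_⟩
      rintro w ⟨hw, hw'⟩
      exact hv' w hw ((WithBot.coe_le_coe.2 hw').trans hle)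
    · push Not at h
      obtain ⟨w, hw, hwF⟩ := h
      exact ⟨w, hwF, fun v' hle => Or.inl (hX.1 (WithBot.coe_le_coe.1 hle) hw)⟩
  obtain ⟨va, hva, ha⟩ := one A hA
  obtain ⟨vb, hvb, hb⟩ := one B hB
  obtain ⟨vc, hvc, hc⟩ := one C hC
  obtain ⟨ve, hve, he⟩ := one E hE
  set m : Gam := (va ⊓ vb) ⊓ (vc ⊓ ve) with hm
  have hmF : m ∈ filt U := hinf _ (hinf _ hva _ hvb) _ (hinf _ hvc _ hve)
  have hmb : m ≠ ⊥ := fun h => hF.bot (h ▸ hmF)
  obtain ⟨w, hw⟩ := WithBot.ne_bot_iff_exists.1 hmb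
  obtain ⟨v, hv, hle, hq⟩ := hF.qiso w (by rw [hw]; exact hmF)
  have hle' : (v : Gam) ≤ m := hw ▸ WithBot.coe_le_coe.2 hle
  refine ⟨v, hv, hq, ?_⟩
  rintro X (rfl | rfl | rfl | rfl)
  · exact ha v (hle'.trans (inf_le_left.trans inf_le_left))
  · exact hb v (hle'.trans (inf_le_left.trans inf_le_right))
  · exact hc v (hle'.trans (inf_le_right.trans inf_le_left))
  · exact he v (hle'.trans (inf_le_right.trans inf_le_right))

lemma qi_inter {v v₁ v₂ : Word} (hq : DSheaf.QIso shf (Set.Iic v) (Set.Iic v₁ ∪ Set.Iic v₂))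
    {X : Set Word} (hX : IsLowerSet X)
    (h : v ∈ X ∨ X ∩ Set.Iic v ⊆ Set.Iic v₁ ∪ Set.Iic v₂) :
    QI (dC shf (X ∩ Set.Iic v)) (dC shf (X ∩ (Set.Iic v₁ ∪ Set.Iic v₂)))
      (rC shf (X ∩ Set.Iic v) (X ∩ (Set.Iic v₁ ∪ Set.Iic v₂))) := by
  rcases h with h | h
  · have h1 : Set.Iic v ⊆ X := fun w hw => hX hw h
    have e1 : X ∩ Set.Iic v = Set.Iic v := Set.inter_eq_right.2 h1
    have e2 : X ∩ (Set.Iic v₁ ∪ Set.Iic v₂) = Set.Iic v₁ ∪ Set.Iic v₂ :=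
      Set.inter_eq_right.2 (hq.sub.trans h1)
    rw [e1, e2]
    exact qi_of_qiso shf hq
  · refine qi_of_eq shf (Set.Subset.antisymm ?_ ?_)
    · exact fun w hw => ⟨hw.1, h hw⟩
    · exact fun w hw => ⟨hw.1, hq.sub hw.2⟩

/-- the total complex over `Iic v` is acyclic -/
lemma acy_Iic {v v₁ v₂ : Word} (hq : DSheaf.QIso shf (Set.Iic v) (Set.Iic v₁ ∪ Set.Iic v₂))
    {A B C E : Set Word} (hBA : B ⊆ A) (hCA : C ⊆ A) (hEB : E ⊆ B) (hEC : E ⊆ C)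
    (lA : IsLowerSet A) (lB : IsLowerSet B) (lC : IsLowerSet C) (lE : IsLowerSet E)
    (h1 : B ∩ Set.Iic v₁ = A ∩ Set.Iic v₁) (h1' : E ∩ Set.Iic v₁ = C ∩ Set.Iic v₁)
    (h2 : C ∩ Set.Iic v₂ = A ∩ Set.Iic v₂) (h2' : E ∩ Set.Iic v₂ = B ∩ Set.Iic v₂)
    (h : ∀ X : Set Word, (X = A ∨ X = B ∨ X = C ∨ X = E) →
      v ∈ X ∨ X ∩ Set.Iic v ⊆ Set.Iic v₁ ∪ Set.Iic v₂) :
    Acy (totD shf (A ∩ Set.Iic v) (B ∩ Set.Iic v) (C ∩ Set.Iic v) (E ∩ Set.Iic v)) := by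
  have s : ∀ {X Y : Set Word} (Z : Set Word), X ⊆ Y → X ∩ Z ⊆ Y ∩ Z :=
    fun Z h => Set.inter_subset_inter_left Z h
  have t : ∀ X : Set Word, X ∩ (Set.Iic v₁ ∪ Set.Iic v₂) ⊆ X ∩ Set.Iic v :=
    fun X => Set.inter_subset_inter_right X hq.sub
  refine QI.acy (tot_qi shf (s _ hBA) (s _ hCA) (s _ hEB) (s _ hEC) (s _ hBA) (s _ hCA)
    (s _ hEB) (s _ hEC) (t B) (t C) (t E)
    (qi_inter hq lA (h A (Or.inl rfl))) (qi_inter hq lB (h B (Or.inr (Or.inl rfl))))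
    (qi_inter hq lC (h C (Or.inr (Or.inr (Or.inl rfl)))))
    (qi_inter hq lE (h E (Or.inr (Or.inr (Or.inr rfl)))))) ?_
  exact tot_acy shf hBA hCA hEB hEC lA lB lC lE (isLowerSet_Iic v₁) (isLowerSet_Iic v₂)
    h1 h1' h2 h2'

/-- filters of type A: every cocycle of the total complex of the degrees `g`, `g + e_{v₁}`,
`g + e_{v₂}`, `g + e_{v₁} + e_{v₂}` becomes a coboundary after multiplication by an element of
the face -/
theorem typeA {v₁ v₂ : Word} (hF : TypeA (filt U) v₁ v₂)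
    (hinf : ∀ u ∈ filt U, ∀ v ∈ filt U, u ⊓ v ∈ filt U)
    (g : Gam →₀ ℤ) : ∃ u ∈ U, u ∈ D.M ∧
      Acy (totD shf (Wd D (-(g + u))) (Wd D (-(g + Finsupp.single (v₁ : Gam) 1 + u)))
        (Wd D (-(g + Finsupp.single (v₂ : Gam) 1 + u)))
        (Wd D (-(g + Finsupp.single (v₁ : Gam) 1 + Finsupp.single (v₂ : Gam) 1 + u)))) := by
  set h₁ : Gam →₀ ℤ := Finsupp.single (v₁ : Gam) 1 with hh₁
  set h₂ : Gam →₀ ℤ := Finsupp.single (v₂ : Gam) 1 with hh₂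
  obtain ⟨v, hv, hq, h⟩ := exists_v hF hinf (Wd D (-g)) (Wd D (-(g + h₁)))
    (Wd D (-(g + h₂))) (Wd D (-(g + h₁ + h₂))) (gen_Wd D _) (gen_Wd D _) (gen_Wd D _)
    (gen_Wd D _)
  set m : ℕ := 2 * (nrm g + nrm (g + h₁) + nrm (g + h₂) + nrm (g + h₁ + h₂)) + 1 with hm
  refine ⟨em v m, em_mem hv m, em_mem_M D v m, ?_⟩
  rw [Wd_sub_coe D (g := g) (by omega), Wd_sub_coe D (g := g + h₁) (by omega),
    Wd_sub_coe D (g := g + h₂) (by omega), Wd_sub_coe D (g := g + h₁ + h₂) (by omega)]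
  have m₁ : h₁ ∈ D.M := D.single_mem_M _
  have m₂ : h₂ ∈ D.M := D.single_mem_M _
  have e : g + h₁ + h₂ = g + h₂ + h₁ := by abel
  refine acy_Iic hq ?_ ?_ ?_ ?_ (isLowerSet_Wd D _) (isLowerSet_Wd D _) (isLowerSet_Wd D _)
    (isLowerSet_Wd D _) ?_ ?_ ?_ ?_ h
  · exact Wd_mono D (by rw [show -g - -(g + h₁) = h₁ by abel]; exact m₁)
  · exact Wd_mono D (by rw [show -g - -(g + h₂) = h₂ by abel]; exact m₂)
  · exact Wd_mono D (by rw [show -(g + h₁) - -(g + h₁ + h₂) = h₂ by abel]; exact m₂)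
  · exact Wd_mono D (by rw [show -(g + h₂) - -(g + h₁ + h₂) = h₁ by abel]; exact m₁)
  · exact Wd_single_inter D v₁ g
  · rw [e]; exact Wd_single_inter D v₁ (g + h₂)
  · exact Wd_single_inter D v₂ g
  · exact Wd_single_inter D v₂ (g + h₁)

end Core

end MP40506.CX.Sys
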