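import Pool.Agent.Work.MP_40506d_al.CX.Words

/-!
# The filters of the semilattice of words
-/

set_option linter.unusedSectionVars false

namespace MP40506.CX

open L

/-- a filter: contains the top, closed upwards and under meets -/
structure IsFilt {G : Type*} [SemilatticeInf G] [OrderTop G] (F : Set G) : Prop where
  top_mem : ⊤ ∈ F
  up : ∀ {x y : G}, x ∈ F → x ≤ y → y ∈ F
  inf : ∀ {x y : G}, x ∈ F → y ∈ F → x ⊓ y ∈ F

/-- the words which are strictly below the whole filter -/
def EF (F : Set Gam) : Set Word := {v | (v : Gam) ∉ F ∧ ∀ y ∈ F, (v : Gam) ≤ y}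

/-- the prefixes of an infinite word -/
def pre (x : ℕ → L) : ℕ → Word
  | 0 => []
  | n + 1 => x n :: pre x n

@[simp] lemma pre_zero (x : ℕ → L) : pre x 0 = [] := rfl
lemma pre_succ (x : ℕ → L) (n : ℕ) : pre x (n + 1) = x n :: pre x n := rfl

@[simp] lemma length_pre (x : ℕ → L) (n : ℕ) : (pre x n).length = n := by
  induction n with
  | zero => rfl
  | succ n ih => simp [pre_succ, ih]

lemma pre_suffix {x : ℕ → L} {m n : ℕ} (h : m ≤ n) : pre x m <:+ pre x n := by
  induction n with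
  | zero => obtain rfl : m = 0 := by omega
            exact List.suffix_refl _
  | succ n ih =>
    rcases Nat.lt_or_ge m (n + 1) with h1 | h1
    · exact (ih (by omega)).trans (List.suffix_cons _ _)
    · obtain rfl : m = n + 1 := by omega
      exact List.suffix_refl _

lemma pre_antitone (x : ℕ → L) : Antitone (pre x) := fun _ _ h => le_of_suffix (pre_suffix h)

lemma suffix_of_le_length {u v w : Word} (h : u <:+ w) (h' : v <:+ w) (hl : u.length ≤ v.length) :
    u <:+ v := List.suffix_of_suffix_length_le h h' hl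

lemma eq_pre_of_suffix {x : ℕ → L} {n : ℕ} {u : Word} (h : u <:+ pre x n) :
    u = pre x u.length := by
  have hl : u.length ≤ n := by simpa using h.length_le
  have h1 : pre x u.length <:+ pre x n := pre_suffix hl
  have h2 := suffix_of_le_length h h1 (by simp)
  exact h2.eq_of_length (by simp)

/-- the filter of an infinite word -/
def Filt (x : ℕ → L) : Set Gam := {v | ∃ n, ((pre x n : Word) : Gam) ≤ v}

lemma pre_mem_Filt (x : ℕ → L) (n : ℕ) : ((pre x n : Word) : Gam) ∈ Filt x := ⟨n, le_rfl⟩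

lemma isFilt_Filt (x : ℕ → L) : IsFilt (Filt x) where
  top_mem := ⟨0, le_top⟩
  up := fun ⟨n, hn⟩ h => ⟨n, hn.trans h⟩
  inf := by
    rintro v w ⟨m, hm⟩ ⟨n, hn⟩
    exact ⟨max m n, le_inf ((gam_coe_le.2 (pre_antitone x (le_max_left _ _))).trans hm)
      ((gam_coe_le.2 (pre_antitone x (le_max_right _ _))).trans hn)⟩

lemma isFilt_Ici {G : Type*} [SemilatticeInf G] [OrderTop G] (v : G) : IsFilt (Set.Ici v) where
  top_mem := le_top
  up := fun h h' => le_trans h h'
  inf := fun h h' => le_inf h h'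

lemma bot_notMem_Filt (x : ℕ → L) : (⊥ : Gam) ∉ Filt x := by
  rintro ⟨n, hn⟩
  exact absurd (le_bot_iff.1 hn) WithBot.coe_ne_bot

lemma IsFilt.eq_univ {F : Set Gam} (hF : IsFilt F) (h : ⊥ ∈ F) : F = Set.univ :=
  Set.eq_univ_of_forall fun _ => hF.up h bot_le

lemma exists_coe_eq {F : Set Gam} (hb : ⊥ ∉ F) {y : Gam} (hy : y ∈ F) :
    ∃ w : Word, y = (w : Gam) := by
  induction y using WithBot.recBotCoe with
  | bot => exact absurd hy hb
  | coe y => exact ⟨y, rfl⟩

/-! ### the classification -/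

/-- prefixes which are eventually prefixes of the elements of the filter -/
def Tr (F : Set Gam) : Set Word :=
  {p | ∃ v0 : Word, (v0 : Gam) ∈ F ∧ ∀ v : Word, (v : Gam) ∈ F → v ≤ v0 → p <:+ v}

lemma Tr_sub {F : Set Gam} (hF : IsFilt F) {p : Word} (hp : p ∈ Tr F) : (p : Gam) ∈ F := by
  obtain ⟨v0, h0, h⟩ := hp
  exact hF.up h0 (gam_coe_le.2 (le_of_suffix (h v0 h0 le_rfl)))

lemma Tr_step {F : Set Gam} (hF : IsFilt F) (hb : ⊥ ∉ F) {p : Word} (hp : p ∈ Tr F) :
    F = Set.Ici (p : Gam) ∨ ∃ i : L, i :: p ∈ Tr F := by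
  obtain ⟨v0, h0, h⟩ := hp
  by_cases hall : ∀ v : Word, (v : Gam) ∈ F → v ≤ v0 → v = p
  · left
    ext y
    constructor
    · intro hy
      obtain ⟨w, hw⟩ := exists_coe_eq hb (hF.inf hy h0)
      have h1 : w ≤ v0 := gam_coe_le.1 (hw ▸ inf_le_right)
      have h2 : (w : Gam) ∈ F := hw ▸ hF.inf hy h0
      have h3 := hall w h2 h1
      subst h3
      show (w : Gam) ≤ y
      rw [← hw]
      exact inf_le_left
    · intro hy
      exact hF.up (Tr_sub hF ⟨v0, h0, h⟩) hy
  right
  by_cases hY : ∃ v1 : Word, (v1 : Gam) ∈ F ∧ v1 ≤ v0 ∧ Y :: p <:+ v1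
  · obtain ⟨v1, h1, -, h2⟩ := hY
    refine ⟨Y, v1, h1, fun v hv hle => ?_⟩
    rcases hle with hle | ⟨u, hu, hle⟩
    · exact h2.trans hle
    · rcases suffix_total (suffix_of_mem_At hu) h2 with h3 | h3
      · by_cases he : u = Y :: p
        · subst he
          exact suffix_of_cons hle
        · exact absurd h2 (not_Y_suffix_of_mem_At hu (suffix_of_ne h3 he))
      · exact h3.trans (suffix_of_cons hle)
  push Not at hY hall
  obtain ⟨v1, h1, hle1, hne⟩ := hall
  obtain ⟨t, ht⟩ := h v1 h1 hle1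
  have htne : t ≠ [] := by rintro rfl; exact hne ht.symm
  obtain ⟨s, i, rfl⟩ : ∃ s i, t = s ++ [i] := ⟨_, _, (List.dropLast_append_getLast htne).symm⟩
  have hi : i :: p <:+ v1 := ⟨s, by simpa using ht⟩
  refine ⟨i, v1, h1, fun v hv hle => ?_⟩
  rcases hle with hle' | ⟨u, hu, hle'⟩
  · exact hi.trans hle'
  · have hvp : p <:+ v := h v hv (le_trans (le_of_mem_At hu hle') hle1)
    rcases suffix_total (suffix_of_mem_At hu) hi with h3 | h3
    · by_cases he : u = i :: p
      · subst he
        exact suffix_of_cons hle'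
      · have h4 : u <:+ p := suffix_of_ne h3 he
        by_cases hup : u = p
        · subst hup
          exact absurd hle' (hY v hv (le_trans (le_of_mem_At hu hle') hle1))
        · exfalso
          -- `Y :: u <:+ p`
          have h5 : Y :: u <:+ p := by
            refine suffix_of_le_length hle' hvp ?_
            have := h4.length_le
            have h6 : u.length ≠ p.length := fun e => hup (h4.eq_of_length e)
            simp only [List.length_cons]
            omega
          exact not_Y_suffix_of_mem_At hu (List.suffix_refl _)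
            (h5.trans ((List.suffix_cons i p).trans hi))
    · exact h3.trans (suffix_of_cons hle')

lemma nil_mem_Tr {F : Set Gam} (hF : IsFilt F) : ([] : Word) ∈ Tr F :=
  ⟨[], hF.top_mem, fun _ _ _ => List.nil_suffix⟩

/-- the classification of the filters -/
theorem filt_cases {F : Set Gam} (hF : IsFilt F) :
    F = Set.univ ∨ (∃ w : Word, F = Set.Ici (w : Gam)) ∨ ∃ x : ℕ → L, F = Filt x := by
  by_cases hb : ⊥ ∈ F
  · exact Or.inl (hF.eq_univ hb)
  right
  by_cases hp : ∃ w : Word, F = Set.Ici (w : Gam)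
  · exact Or.inl hp
  right
  push Not at hp
  have step : ∀ p : Tr F, ∃ i : L, i :: (p : Word) ∈ Tr F := fun p =>
    (Tr_step hF hb p.2).resolve_left (hp _)
  choose nx hnx using step
  let q : ℕ → Tr F := fun n => Nat.rec ⟨[], nil_mem_Tr hF⟩ (fun _ p => ⟨nx p :: p.1, hnx p⟩) n
  let x : ℕ → L := fun n => nx (q n)
  have hq : ∀ n, pre x n = (q n).1 := by
    intro n
    induction n with
    | zero => rfl
    | succ n ih => rw [pre_succ, ih]
  have hT : ∀ n, pre x n ∈ Tr F := fun n => by rw [hq n]; exact (q n).2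
  refine ⟨x, ?_⟩
  ext y
  constructor
  · intro hy
    obtain ⟨v, rfl⟩ := exists_coe_eq hb hy
    obtain ⟨v0, h0, h⟩ := hT (v.length + 1)
    obtain ⟨v', hv'⟩ := exists_coe_eq hb (hF.inf hy h0)
    have h1 : (v' : Gam) ∈ F := hv' ▸ hF.inf hy h0
    have h2 : v' ≤ v := gam_coe_le.1 (hv' ▸ inf_le_left)
    have h3 : v' ≤ v0 := gam_coe_le.1 (hv' ▸ inf_le_right)
    have h4 := h v' h1 h3
    refine ⟨v.length + 1, gam_coe_le.2 ?_⟩
    rcases h2 with h2 | ⟨u, hu, h2⟩
    · exact le_of_suffix (suffix_of_le_length h2 h4 (by simp))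
    · refine le_of_mem_At hu (suffix_of_le_length h2 h4 ?_)
      have := length_lt_of_mem_At hu
      simp only [List.length_cons, length_pre]
      omega
  · rintro ⟨n, hn⟩
    exact hF.up (Tr_sub hF (hT n)) hn

/-! ### the words below a filter -/

lemma mem_EF_Ici {w v : Word} : v ∈ EF (Set.Ici (w : Gam)) ↔ v < w := by
  constructor
  · rintro ⟨h1, h2⟩
    have h3 : v ≤ w := gam_coe_le.1 (h2 (w : Gam) (Set.mem_Ici.2 le_rfl))
    exact lt_of_le_of_ne h3 (by rintro rfl; exact h1 (Set.mem_Ici.2 le_rfl))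
  · intro h
    refine ⟨fun h1 => not_lt_of_ge (gam_coe_le.1 h1) h, fun y hy => ?_⟩
    exact (gam_coe_le.2 h.le).trans hy

lemma EF_Ici (w : Word) : EF (Set.Ici (w : Gam)) = {v | v ≤ a :: w ∨ v ≤ b :: w} := by
  ext v
  rw [mem_EF_Ici]
  constructor
  · exact le_a_or_b
  · rintro (h | h)
    · exact lt_of_le_of_lt h (cons_lt _ _)
    · exact lt_of_le_of_lt h (cons_lt _ _)

/-- the persistent tokens of an infinite word -/
def Pers (x : ℕ → L) : Set Word := {u | ∃ n0, ∀ n, n0 ≤ n → u ∈ At (pre x n)}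

lemma mem_EF_Filt {x : ℕ → L} {v : Word} :
    v ∈ EF (Filt x) ↔ ∃ u ∈ Pers x, Y :: u <:+ v := by
  constructor
  · rintro ⟨h1, h2⟩
    have h3 : ∀ n, v.length < n → ∃ u ∈ At (pre x n), Y :: u <:+ v := by
      intro n hn
      have h4 : v ≤ pre x n := gam_coe_le.1 (h2 _ (pre_mem_Filt x n))
      rcases h4 with h4 | h4
      · have := h4.length_le
        simp only [length_pre] at this
        omega
      · exact h4
    obtain ⟨u, hu, huv⟩ := h3 (v.length + 1) (by omega)
    refine ⟨u, ⟨v.length + 1, fun n hn => ?_⟩, huv⟩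
    obtain ⟨u', hu', huv'⟩ := h3 n (by omega)
    have hun : u <:+ pre x n := (suffix_of_mem_At hu).trans (pre_suffix hn)
    suffices h : u' = u by rwa [← h]
    by_contra hne
    rcases suffix_total huv huv' with h4 | h4
    · have h5 : Y :: u <:+ u' := suffix_of_ne h4 (by simpa using fun e => hne e.symm)
      have h6 : Y :: u <:+ pre x n := h5.trans (suffix_of_mem_At hu')
      have h7 : Y :: u <:+ pre x (v.length + 1) := by
        refine suffix_of_le_length h6 (pre_suffix hn) ?_
        have := length_lt_of_mem_At hu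
        simp only [List.length_cons, length_pre] at this ⊢
        omega
      exact not_Y_suffix_of_mem_At hu (List.suffix_refl _) h7
    · have h5 : Y :: u' <:+ u := suffix_of_ne h4 (by simpa using hne)
      exact not_Y_suffix_of_mem_At hu' (List.suffix_refl _) (h5.trans hun)
  · rintro ⟨u, ⟨n0, hn0⟩, huv⟩
    refine ⟨?_, ?_⟩
    · rintro ⟨n, hn⟩
      have h1 : pre x n ≤ v := gam_coe_le.1 hn
      have h2 : pre x n ≤ Y :: u := h1.trans (le_of_suffix huv)
      rw [le_Y_iff] at h2
      exact not_Y_suffix_of_mem_At (hn0 (max n0 n) (le_max_left _ _)) (List.suffix_refl _)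
        (h2.trans (pre_suffix (le_max_right _ _)))
    · rintro y ⟨n, hn⟩
      refine le_trans (gam_coe_le.2 ?_) hn
      exact (le_of_mem_At (hn0 (max n0 n) (le_max_left _ _)) huv).trans
        (pre_antitone x (le_max_right _ _))

/-! ### (1f) -/

/-- an element outside the filter which is a word: below some element of the filter, everything
below it is strictly below the filter -/
lemma exists_inter_sub_one {F : Set Gam} (hF : IsFilt F) (hb : ⊥ ∉ F) {g : Word}
    (hg : (g : Gam) ∉ F) :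
    ∃ v : Word, (v : Gam) ∈ F ∧ ∀ y, y ≤ g → y ≤ v → y ∈ EF F := by
  rcases filt_cases hF with rfl | ⟨w, rfl⟩ | ⟨x, rfl⟩
  · exact absurd (Set.mem_univ _) hb
  · refine ⟨w, Set.mem_Ici.2 le_rfl, fun y hy hyw => mem_EF_Ici.2 (lt_of_le_of_ne hyw ?_)⟩
    rintro rfl
    exact hg (gam_coe_le.2 hy)
  · by_cases hall : ∀ n, g ≤ pre x n
    · refine ⟨pre x 0, pre_mem_Filt x 0, fun y hy _ => ?_⟩
      refine ⟨fun h => hg ((isFilt_Filt x).up h (gam_coe_le.2 hy)), ?_⟩
      rintro z ⟨n, hn⟩
      exact (gam_coe_le.2 (hy.trans (hall n))).trans hn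
    · push Not at hall
      obtain ⟨n0, hn0⟩ := hall
      have h1 : ∀ n, n0 ≤ n → ¬ g ≤ pre x n := fun n hn h => hn0 (h.trans (pre_antitone x hn))
      have h2 : ∀ n, ¬ pre x n ≤ g := fun n h => hg ⟨n, gam_coe_le.2 h⟩
      by_contra hcon
      push Not at hcon
      obtain ⟨c, i, j, hij, s1, s2⟩ := exists_split g (pre x n0) (fun e => h2 n0 (le_of_suffix e))
        (fun e => hn0 (le_of_suffix e))
      have h3 : ∀ n, n0 ≤ n → c ∈ At (pre x n) := by
        intro n hn
        obtain ⟨y, hy, hyn, -⟩ := hcon (pre x n) (pre_mem_Filt x n)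
        obtain ⟨u, hu, hu', -⟩ := common_lower (h1 n hn) (h2 n) hy hyn
        have := common_token hij s1 (s2.trans (pre_suffix hn)) hu hu'
        rwa [← this]
      obtain ⟨y, hy, hyn, hyE⟩ := hcon (pre x n0) (pre_mem_Filt x n0)
      obtain ⟨u, hu, hu', huy⟩ := common_lower hn0 (h2 n0) hy hyn
      have := common_token hij s1 s2 hu hu'
      subst this
      exact hyE (mem_EF_Filt.2 ⟨u, ⟨n0, h3⟩, huy⟩)

/-- (1f), first half -/
theorem exists_inter_sub {F : Set Gam} (hF : IsFilt F) (hb : ⊥ ∉ F) (S : Finset Word)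
    (hS : ∀ g ∈ S, (g : Gam) ∉ F) :
    ∃ v : Word, (v : Gam) ∈ F ∧ ∀ y g, g ∈ S → y ≤ g → y ≤ v → y ∈ EF F := by
  classical
  induction S using Finset.induction_on with
  | empty => exact ⟨[], hF.top_mem, by simp⟩
  | insert g S _ ih =>
    obtain ⟨v, hv, h⟩ := ih (fun g' hg' => hS g' (Finset.mem_insert_of_mem hg'))
    obtain ⟨v', hv', h'⟩ := exists_inter_sub_one hF hb (hS g (Finset.mem_insert_self _ _))
    obtain ⟨w, hw⟩ := exists_coe_eq hb (hF.inf hv hv')
    have h1 : w ≤ v := gam_coe_le.1 (hw ▸ inf_le_left)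
    have h2 : w ≤ v' := gam_coe_le.1 (hw ▸ inf_le_right)
    refine ⟨w, hw ▸ hF.inf hv hv', fun y g' hg' hy hyw => ?_⟩
    rcases Finset.mem_insert.1 hg' with rfl | hg'
    · exact h' y hy (hyw.trans h2)
    · exact h y g' hg' hy (hyw.trans h1)

/-- (1f), second half -/
theorem filt_eq_of_sub {F F' : Set Gam} (hF : IsFilt F) (hF' : IsFilt F') (hsub : F ⊆ F')
    (hb : ⊥ ∉ F') (hE : ∀ v ∈ EF F, (v : Gam) ∉ F') : F' = F := by
  refine Set.Subset.antisymm (fun y hy => ?_) hsub
  by_contra hyF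
  obtain ⟨g, rfl⟩ := exists_coe_eq hb hy
  have hbF : ⊥ ∉ F := fun h => hb (hsub h)
  obtain ⟨v, hv, h⟩ := exists_inter_sub_one hF hbF hyF
  obtain ⟨w, hw⟩ := exists_coe_eq hb (hF'.inf hy (hsub hv))
  have h1 : w ≤ g := gam_coe_le.1 (hw ▸ inf_le_left)
  have h2 : w ≤ v := gam_coe_le.1 (hw ▸ inf_le_right)
  exact hE w (h w h1 h2) (hw ▸ hF'.inf hy (hsub hv))

/-! ### persistent tokens -/

/-- infinitely many letters `Y` -/
lemma Pers_eq_empty_of_Y {x : ℕ → L} (h : ∀ n, ∃ m, n ≤ m ∧ x m = Y) : Pers x = ∅ := by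
  ext u
  simp only [Set.mem_empty_iff_false, iff_false]
  rintro ⟨n0, hn0⟩
  obtain ⟨m, hm, hx⟩ := h n0
  have := hn0 (m + 1) (by omega)
  rw [pre_succ, hx] at this
  simp at this

lemma head_of_b {w u : Word} (h : u ∈ At w) (h' : u ∈ At (b :: w)) :
    ∃ l, At (b :: w) = u :: l := by
  have hne := mem_At_ne h
  have h3 := At_length_le w
  rw [At_b] at h' ⊢
  generalize At w = m at *
  match m, h3 with
  | [], _ => simp at h
  | [_], _ => simp [hne] at h'
  | [_, _], _ => simp [hne] at h'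
  | [p, q, r], _ =>
    have : u = r := by simpa [hne] using h'
    subst this
    exact ⟨[w], rfl⟩
  | _ :: _ :: _ :: _ :: _, h3 =>
    exfalso
    simp only [List.length_cons] at h3
    omega

lemma head_step {w u : Word} {i : L} (h : ∃ l, At w = u :: l) (h' : u ∈ At (i :: w)) :
    i = a ∧ ∃ l, At (i :: w) = u :: l := by
  obtain ⟨l, hl⟩ := h
  have hne : u ≠ w := mem_At_ne (by rw [hl]; simp)
  have hnd := At_nodup w
  rw [hl, List.nodup_cons] at hnd
  cases i with
  | Y => simp at h'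
  | a => exact ⟨rfl, l.take 1 ++ [w], by rw [At_a, hl]; rfl⟩
  | b =>
    exfalso
    rw [At_b, hl, List.mem_append] at h'
    rcases h' with h' | h'
    · exact hnd.1 (List.mem_of_mem_drop (i := 1) h')
    · exact hne (by simpa using h')

/-- infinitely many letters `2` -/
lemma Pers_eq_empty_of_b {x : ℕ → L} (h : ∀ n, ∃ m, n ≤ m ∧ x m = b) : Pers x = ∅ := by
  ext u
  simp only [Set.mem_empty_iff_false, iff_false]
  rintro ⟨n0, hn0⟩
  obtain ⟨m, hm, hx⟩ := h n0
  have key : ∀ n, m + 1 ≤ n → ∃ l, At (pre x n) = u :: l := by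
    intro n hn
    induction n, hn using Nat.le_induction with
    | base =>
      have h1 := hn0 m hm
      have h2 := hn0 (m + 1) (by omega)
      rw [pre_succ, hx] at h2 ⊢
      exact head_of_b h1 h2
    | succ n hn ih =>
      have h2 := hn0 (n + 1) (by omega)
      rw [pre_succ] at h2 ⊢
      exact (head_step ih h2).2
  obtain ⟨m', hm', hx'⟩ := h (m + 1)
  have h2 := hn0 (m' + 1) (by omega)
  rw [pre_succ] at h2
  have h3 := (head_step (key m' hm') h2).1
  rw [hx'] at h3
  exact absurd h3 (by decide)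

lemma At_aa_length (w : Word) : 2 ≤ (At (a :: a :: w)).length := by
  rw [At_a, At_a]
  simp only [List.length_append, List.length_take, List.length_singleton]
  omega

/-- finally constant words `111...` -/
lemma exists_At_eq {x : ℕ → L} {n0 : ℕ} (h : ∀ n, n0 ≤ n → x n = a) :
    ∃ (u v : Word) (n1 : ℕ), n0 ≤ n1 ∧ u ≠ v ∧
      ∀ n, n1 ≤ n → x n = a ∧ At (pre x (n + 1)) = [u, v, pre x n] := by
  have h1 : 2 ≤ (At (pre x (n0 + 2))).length := by
    rw [pre_succ, pre_succ, h n0 le_rfl, h (n0 + 1) (by omega)]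
    exact At_aa_length _
  obtain ⟨u, v, l, hl⟩ : ∃ u v l, At (pre x (n0 + 2)) = u :: v :: l := by
    generalize At (pre x (n0 + 2)) = m at h1
    match m, h1 with
    | u :: v :: l, _ => exact ⟨u, v, l, rfl⟩
  have key : ∀ n, n0 + 2 ≤ n → ∃ l, At (pre x n) = u :: v :: l := by
    intro n hn
    induction n, hn using Nat.le_induction with
    | base => exact ⟨l, hl⟩
    | succ n hn ih =>
      obtain ⟨l, hl⟩ := ih
      rw [pre_succ, h n (by omega), At_a, hl]
      exact ⟨[pre x n], rfl⟩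
  refine ⟨u, v, n0 + 2, by omega, ?_, fun n hn => ⟨h n (by omega), ?_⟩⟩
  · have := At_nodup (pre x (n0 + 2))
    rw [hl] at this
    rintro rfl
    simp at this
  · obtain ⟨l, hl⟩ := key n hn
    rw [pre_succ, h n (by omega), At_a, hl]
    rfl

lemma Pers_eq_pair {x : ℕ → L} {u v : Word} {n1 : ℕ}
    (h : ∀ n, n1 ≤ n → At (pre x (n + 1)) = [u, v, pre x n]) : Pers x = {u, v} := by
  ext p
  constructor
  · rintro ⟨n0, hn0⟩
    have h1 := hn0 (max n0 n1 + 1) (by omega)
    have h2 := hn0 (max n0 n1 + 1 + 1) (by omega)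
    rw [h _ (by omega)] at h1 h2
    simp only [List.mem_cons, List.not_mem_nil, or_false] at h1 h2
    rcases h1 with h1 | h1 | h1
    · exact Or.inl h1
    · exact Or.inr h1
    · rcases h2 with h2 | h2 | h2
      · exact Or.inl h2
      · exact Or.inr h2
      · rw [h1] at h2
        have := congrArg List.length h2
        simp only [length_pre] at this
        omega
  · rintro (rfl | rfl)
    · refine ⟨n1 + 1, fun n hn => ?_⟩
      obtain ⟨k, rfl⟩ : ∃ k, n = k + 1 := ⟨n - 1, by omega⟩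
      rw [h k (by omega)]
      simp
    · refine ⟨n1 + 1, fun n hn => ?_⟩
      obtain ⟨k, rfl⟩ : ∃ k, n = k + 1 := ⟨n - 1, by omega⟩
      rw [h k (by omega)]
      simp

/-- tokens of the same word: the words below the `Y`-children are disjoint -/
lemma disjoint_of_tokens {w u v y : Word} (hu : u ∈ At w) (hv : v ∈ At w) (huv : u ≠ v)
    (h1 : y ≤ Y :: u) (h2 : y ≤ Y :: v) : False := by
  rw [le_Y_iff] at h1 h2
  rcases suffix_total h1 h2 with h3 | h3
  · have h5 : Y :: u <:+ v := suffix_of_ne h3 (by simpa using huv)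
    exact not_Y_suffix_of_mem_At hu (List.suffix_refl _) (h5.trans (suffix_of_mem_At hv))
  · have h5 : Y :: v <:+ u := suffix_of_ne h3 (by simpa using huv.symm)
    exact not_Y_suffix_of_mem_At hv (List.suffix_refl _) (h5.trans (suffix_of_mem_At hu))

/-- the two generators of a type A filter given by an infinite word have no common lower bound -/
lemma disjoint_pair {x : ℕ → L} {u v : Word} {n1 : ℕ} (huv : u ≠ v)
    (h : ∀ n, n1 ≤ n → At (pre x (n + 1)) = [u, v, pre x n]) (y : Word)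
    (h1 : y ≤ Y :: u) (h2 : y ≤ Y :: v) : False := by
  have h3 := h n1 le_rfl
  exact disjoint_of_tokens (w := pre x (n1 + 1)) (by rw [h3]; simp) (by rw [h3]; simp) huv h1 h2

/-- a filter is dying if it contains the bottom, or it is given by an infinite word with
infinitely many letters `Y` or infinitely many letters `2` -/
def Dying (x : ℕ → L) : Prop := (∀ n, ∃ m, n ≤ m ∧ x m = Y) ∨ ∀ n, ∃ m, n ≤ m ∧ x m = b

lemma Pers_of_dying {x : ℕ → L} (h : Dying x) : Pers x = ∅ := by
  rcases h with h | h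
  · exact Pers_eq_empty_of_Y h
  · exact Pers_eq_empty_of_b h

lemma EF_of_dying {x : ℕ → L} (h : Dying x) : EF (Filt x) = ∅ := by
  ext v
  simp only [Set.mem_empty_iff_false, iff_false]
  intro hv
  obtain ⟨u, hu, -⟩ := mem_EF_Filt.1 hv
  rw [Pers_of_dying h] at hu
  exact hu

lemma dying_or (x : ℕ → L) : Dying x ∨ ∃ n0, ∀ n, n0 ≤ n → x n = a := by
  by_cases h : Dying x
  · exact Or.inl h
  right
  rw [Dying, not_or] at h
  push Not at h
  obtain ⟨⟨n, hn⟩, m, hm⟩ := h
  refine ⟨max n m, fun k hk => ?_⟩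
  have h1 := hn k (le_trans (le_max_left _ _) hk)
  have h2 := hm k (le_trans (le_max_right _ _) hk)
  generalize x k = i at h1 h2
  cases i with
  | Y => exact absurd rfl h1
  | a => rfl
  | b => exact absurd rfl h2

/-- the data of a type A filter given by an infinite word -/
lemma EF_Filt_pair {x : ℕ → L} {u v : Word} {n1 : ℕ}
    (h : ∀ n, n1 ≤ n → At (pre x (n + 1)) = [u, v, pre x n]) :
    EF (Filt x) = {y | y ≤ Y :: u ∨ y ≤ Y :: v} := by
  ext y
  rw [mem_EF_Filt, Pers_eq_pair h]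
  simp only [Set.mem_insert_iff, Set.mem_singleton_iff, exists_eq_or_imp, exists_eq_left,
    Set.mem_ofPred_eq, le_Y_iff]

/-- (1g): every filter is the whole semilattice, principal, dying, or of type A given by a word
which is finally `111...` -/
theorem filt_classification {F : Set Gam} (hF : IsFilt F) :
    F = Set.univ ∨ (∃ w : Word, F = Set.Ici (w : Gam)) ∨
    (∃ x : ℕ → L, Dying x ∧ F = Filt x) ∨
    ∃ (x : ℕ → L) (u v : Word) (n1 : ℕ), F = Filt x ∧ u ≠ v ∧
      (∀ n, n1 ≤ n → x n = a ∧ At (pre x (n + 1)) = [u, v, pre x n]) ∧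
      EF F = {y | y ≤ Y :: u ∨ y ≤ Y :: v} := by
  rcases filt_cases hF with h | h | ⟨x, rfl⟩
  · exact Or.inl h
  · exact Or.inr (Or.inl h)
  · rcases dying_or x with h | ⟨n0, h⟩
    · exact Or.inr (Or.inr (Or.inl ⟨x, h, rfl⟩))
    · obtain ⟨u, v, n1, -, huv, h1⟩ := exists_At_eq h
      exact Or.inr (Or.inr (Or.inr ⟨x, u, v, n1, rfl, huv, h1,
        EF_Filt_pair fun n hn => (h1 n hn).2⟩))

/-- every filter is visible: it is the only filter containing it and avoiding a suitable finite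
set -/
theorem exists_visible {F : Set Gam} (hF : IsFilt F) :
    ∃ V : Finset Gam, (∀ v ∈ V, v ∉ F) ∧
      ∀ F' : Set Gam, IsFilt F' → F ⊆ F' → (∀ v ∈ V, v ∉ F') → F' = F := by
  classical
  by_cases hb : ⊥ ∈ F
  · exact ⟨∅, by simp, fun F' _ h _ => Set.Subset.antisymm
      (by rw [hF.eq_univ hb]; exact Set.subset_univ _) h⟩
  have gen : ∀ v1 v2 : Word, EF F = {y | y ≤ v1 ∨ y ≤ v2} →
      ∃ V : Finset Gam, (∀ v ∈ V, v ∉ F) ∧
      ∀ F' : Set Gam, IsFilt F' → F ⊆ F' → (∀ v ∈ V, v ∉ F') → F' = F := by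
    intro v1 v2 hE
    have m1 : v1 ∈ EF F := by rw [hE]; exact Or.inl le_rfl
    have m2 : v2 ∈ EF F := by rw [hE]; exact Or.inr le_rfl
    refine ⟨{(v1 : Gam), (v2 : Gam), ⊥}, ?_, fun F' hF' h hV => ?_⟩
    · intro v hv
      simp only [Finset.mem_insert, Finset.mem_singleton] at hv
      rcases hv with rfl | rfl | rfl
      · exact m1.1
      · exact m2.1
      · exact hb
    · refine filt_eq_of_sub hF hF' h (hV ⊥ (by simp)) fun v hv hvF => ?_
      rw [hE] at hv
      rcases hv with hv | hv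
      · exact hV v1 (by simp) (hF'.up hvF (gam_coe_le.2 hv))
      · exact hV v2 (by simp) (hF'.up hvF (gam_coe_le.2 hv))
  rcases filt_classification hF with rfl | ⟨w, rfl⟩ | ⟨x, hx, rfl⟩ | ⟨x, u, v, n1, rfl, huv, h1, hE⟩
  · exact absurd (Set.mem_univ _) hb
  · exact gen _ _ (EF_Ici w)
  · refine ⟨{⊥}, by simpa using hb, fun F' hF' h hV => ?_⟩
    refine filt_eq_of_sub hF hF' h (hV ⊥ (by simp)) fun v hv _ => ?_
    rw [EF_of_dying hx] at hv
    exact hv
  · exact gen _ _ hE

end MP40506.CX
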