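import Pool.Agent.Work.MP_40506d_al.CX.Weights2
import Pool.Agent.Work.MP_40506d_al.CX.Filters

/-!
# Every face of `M` is weakly visible
-/

set_option linter.unusedSectionVars false

namespace MP40506.CX

variable (D : Wt.Weights Gam)

/-- the filter of a face -/
theorem isFilt_filt {U : AddSubmonoid (Gam →₀ ℤ)}
    (hf : ∀ a ∈ D.M, ∀ b ∈ D.M, a + b ∈ U → a ∈ U ∧ b ∈ U) : IsFilt (Wt.Weights.filt U) :=
  ⟨D.top_mem_filt hf, fun hu h => D.filt_upper hf h hu, fun hu hv => D.filt_inf hf hu hv⟩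

/-- every face of `M` is weakly visible -/
theorem exists_visible_face {U : AddSubmonoid (Gam →₀ ℤ)} (hU : U ≤ D.M)
    (hf : ∀ a ∈ D.M, ∀ b ∈ D.M, a + b ∈ U → a ∈ U ∧ b ∈ U) :
    ∃ s : Finset (Gam →₀ ℤ), (∀ x ∈ s, x ∈ D.M ∧ x ∉ U) ∧
      ∀ U' : AddSubmonoid (Gam →₀ ℤ), U' ≤ D.M →
        (∀ a ∈ D.M, ∀ b ∈ D.M, a + b ∈ U' → a ∈ U' ∧ b ∈ U') → U ≤ U' →
          (∀ x ∈ s, x ∉ U') → U' = U := by
  classical
  obtain ⟨s, hs, h⟩ := exists_visible (isFilt_filt D hf)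
  refine ⟨s.image fun v => Finsupp.single v 1, ?_, ?_⟩
  · intro x hx
    obtain ⟨v, hv, rfl⟩ := Finset.mem_image.1 hx
    exact ⟨D.single_mem_M v, hs v hv⟩
  · intro U' hU' hf' hle hx
    refine D.face_ext hU' hf' hU hf (h _ (isFilt_filt D hf') (fun v hv => hle hv) fun v hv hv' => ?_)
    exact hx _ (Finset.mem_image_of_mem _ hv) hv'

end MP40506.CX
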