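import Pool.Agent.Work.MP_40506d_al.CX.Phi
import Pool.Agent.Work.MP_40506d_al.CX.Res
import Pool.Agent.Work.MP_40506d_al.CX.Sys0
import Pool.Agent.Work.MP_40506d_al.CX.Vis

/-!
# The graded differential module `NN D` over `F₂[M]`, `N(g) = C(W(-g))`
-/

set_option autoImplicit false
set_option linter.unusedSectionVars false

namespace MP40506.CX.Sys

open Nerve Sheaf Cone Wt Wt.Weights

noncomputable section

variable (D : Weights Gam)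

/-- cochains are a vector space over the field with two elements -/
@[reducible] def modC (W : Set Word) : Module (ZMod 2) (shf.C W) :=
  AddCommGroup.zmodModule (n := 2) (fun x => by rw [two_nsmul]; exact two_C shf W x)

lemma Wd_anti {g g' : Gam →₀ ℤ} (h : g - g' ∈ D.M) : Wd D (-g) ⊆ Wd D (-g') :=
  Wd_mono D (by rw [show -g' - -g = g - g' by abel]; exact h)

/-- the system `g ↦ C (W (-g))` -/
def NN : DG D.M where
  N g := shf.C (Wd D (-g))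
  md g := modC (Wd D (-g))
  d g := letI := modC (Wd D (-g)); (dC shf (Wd D (-g))).toZModLinearMap 2
  dd g x := dC_dC shf (Wd D (-g)) x
  tr {g g'} _ := letI := modC (Wd D (-g)); letI := modC (Wd D (-g'))
    (rC shf (Wd D (-g')) (Wd D (-g))).toZModLinearMap 2
  tr_id g _ x := rC_self shf (Wd D (-g)) x
  tr_comp {g _ _} h _ _ x := rC_rC shf (Wd D (-g)) (Wd_anti D h) x
  tr_d h x := (rC_dC shf (Wd_anti D h) x).symm

lemma NN_d (g : Gam →₀ ℤ) (x : (NN D).N g) : (NN D).d g x = dC shf (Wd D (-g)) x := rfl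

lemma NN_tr {g g' : Gam →₀ ℤ} (h : g - g' ∈ D.M) (x : (NN D).N g') :
    (NN D).tr h x = rC shf (Wd D (-g')) (Wd D (-g)) x := rfl

lemma NN_tr' {g g' : Gam →₀ ℤ} (h : g - g' ∈ D.M) (x : (NN D).N g') :
    (NN D).tr' g g' x = (NN D).tr h x := by
  unfold DG.tr'
  rw [dif_pos h]

lemma perm {X : Type} [AddCommGroup X] (p q r : X) : p + (q + r) = r + p + q := by abel

section Core

variable {U : AddSubmonoid (Gam →₀ ℤ)}

/-- dying filters -/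
theorem NN_dying (hF : DyingF (filt U)) (a : Gam →₀ ℤ) (z : (NN D).N a)
    (hz : (NN D).d a z = 0) : ∃ u ∈ U, u ∈ D.M ∧ ∀ g, g = a + u → ∃ y : (NN D).N g,
      (NN D).d g y = (NN D).tr' g a z := by
  obtain ⟨u, hu, huM, y, hy, hyz⟩ := dying D hF a z.1 z.2 (congrArg Subtype.val hz)
  refine ⟨u, hu, huM, ?_⟩
  rintro g rfl
  have h : a + u - a ∈ D.M := by rw [add_sub_cancel_left]; exact huM
  refine ⟨⟨y, hy⟩, ?_⟩
  rw [NN_tr' D h]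
  exact Subtype.ext hyz

/-- filters of type A: there is `u` in the face such that the total complex in the degrees
`a + u`, `a + e_{v₁} + u`, `a + e_{v₂} + u`, `a + e_{v₁} + e_{v₂} + u` is acyclic -/
theorem NN_typeA {v₁ v₂ : Word} (hF : TypeA (filt U) v₁ v₂)
    (hinf : ∀ u ∈ filt U, ∀ v ∈ filt U, u ⊓ v ∈ filt U) (a : Gam →₀ ℤ) :
    ∃ u ∈ U, u ∈ D.M ∧ ∀ g₀₀ g₁₀ g₀₁ g₁₁ : Gam →₀ ℤ, g₀₀ = a + u →
      g₁₀ = a + Finsupp.single (v₁ : Gam) 1 + u → g₀₁ = a + Finsupp.single (v₂ : Gam) 1 + u →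
      g₁₁ = a + Finsupp.single (v₁ : Gam) 1 + Finsupp.single (v₂ : Gam) 1 + u →
      ∀ (z₀₀ : (NN D).N g₀₀) (z₁₀ : (NN D).N g₁₀) (z₀₁ : (NN D).N g₀₁) (z₁₁ : (NN D).N g₁₁),
        (NN D).d _ z₀₀ = 0 → (NN D).d _ z₁₀ + (NN D).tr' _ _ z₀₀ = 0 →
        (NN D).d _ z₀₁ + (NN D).tr' _ _ z₀₀ = 0 →
        (NN D).d _ z₁₁ + (NN D).tr' _ _ z₁₀ + (NN D).tr' _ _ z₀₁ = 0 →
        ∃ (y₀₀ : (NN D).N g₀₀) (y₁₀ : (NN D).N g₁₀) (y₀₁ : (NN D).N g₀₁) (y₁₁ : (NN D).N g₁₁),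
          (NN D).d _ y₀₀ = z₀₀ ∧ (NN D).d _ y₁₀ + (NN D).tr' _ _ y₀₀ = z₁₀ ∧
          (NN D).d _ y₀₁ + (NN D).tr' _ _ y₀₀ = z₀₁ ∧
          (NN D).d _ y₁₁ + (NN D).tr' _ _ y₁₀ + (NN D).tr' _ _ y₀₁ = z₁₁ := by
  obtain ⟨u, hu, huM, hA⟩ := typeA D hF hinf a
  refine ⟨u, hu, huM, ?_⟩
  rintro _ _ _ _ rfl rfl rfl rfl z₀₀ z₁₀ z₀₁ z₁₁ h₀₀ h₁₀ h₀₁ h₁₁
  have m₁ := D.single_mem_M (v₁ : Gam)
  have m₂ := D.single_mem_M (v₂ : Gam)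
  have k₁ : a + Finsupp.single (v₁ : Gam) 1 + u - (a + u) ∈ D.M := by
    rw [show a + Finsupp.single (v₁ : Gam) (1 : ℤ) + u - (a + u) =
      Finsupp.single (v₁ : Gam) 1 by abel]
    exact m₁
  have k₂ : a + Finsupp.single (v₂ : Gam) 1 + u - (a + u) ∈ D.M := by
    rw [show a + Finsupp.single (v₂ : Gam) (1 : ℤ) + u - (a + u) =
      Finsupp.single (v₂ : Gam) 1 by abel]
    exact m₂
  have k₃ : a + Finsupp.single (v₁ : Gam) 1 + Finsupp.single (v₂ : Gam) 1 + u -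
      (a + Finsupp.single (v₁ : Gam) 1 + u) ∈ D.M := by
    rw [show a + Finsupp.single (v₁ : Gam) (1 : ℤ) + Finsupp.single (v₂ : Gam) 1 + u -
      (a + Finsupp.single (v₁ : Gam) 1 + u) = Finsupp.single (v₂ : Gam) 1 by abel]
    exact m₂
  have k₄ : a + Finsupp.single (v₁ : Gam) 1 + Finsupp.single (v₂ : Gam) 1 + u -
      (a + Finsupp.single (v₂ : Gam) 1 + u) ∈ D.M := by
    rw [show a + Finsupp.single (v₁ : Gam) (1 : ℤ) + Finsupp.single (v₂ : Gam) 1 + u -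
      (a + Finsupp.single (v₂ : Gam) 1 + u) = Finsupp.single (v₁ : Gam) 1 by abel]
    exact m₁
  rw [NN_tr' D k₁] at h₁₀
  rw [NN_tr' D k₂] at h₀₁
  rw [NN_tr' D k₃, NN_tr' D k₄] at h₁₁
  have hz : totD shf (Wd D (-(a + u))) (Wd D (-(a + Finsupp.single (v₁ : Gam) 1 + u)))
      (Wd D (-(a + Finsupp.single (v₂ : Gam) 1 + u)))
      (Wd D (-(a + Finsupp.single (v₁ : Gam) 1 + Finsupp.single (v₂ : Gam) 1 + u)))
      ((z₀₀, z₁₀), (z₀₁, z₁₁)) = 0 := by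
    refine Prod.ext (Prod.ext ?_ ?_) (Prod.ext ?_ ?_)
    · exact h₀₀
    · exact (add_comm _ _).trans h₁₀
    · exact (add_comm _ _).trans h₀₁
    · exact (perm _ _ _).trans h₁₁
  obtain ⟨y, hy⟩ := hA _ hz
  refine ⟨y.1.1, y.1.2, y.2.1, y.2.2, ?_, ?_, ?_, ?_⟩
  · exact congrArg (fun t => t.1.1) hy
  · rw [NN_tr' D k₁]
    refine Eq.trans (add_comm _ _) ?_
    exact congrArg (fun t => t.1.2) hy
  · rw [NN_tr' D k₂]
    refine Eq.trans (add_comm _ _) ?_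
    exact congrArg (fun t => t.2.1) hy
  · rw [NN_tr' D k₃, NN_tr' D k₄]
    exact (perm _ _ _).symm.trans (congrArg (fun t => t.2.2) hy)

/-- dying filters, in the form used for the representing object -/
theorem NN_dies (hF : DyingF (filt U)) (a : Gam →₀ ℤ) (z : (NN D).N a)
    (hz : (NN D).d a z = 0) : ∃ u, u ∈ D.M ∧ u ∈ U ∧ ∃ y, (NN D).d (a + u) y =
      (NN D).tr' (a + u) a z := by
  obtain ⟨u, hu, huM, h⟩ := NN_dying D hF a z hz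
  exact ⟨u, huM, hu, h _ rfl⟩

/-- filters of type A, in the form used for the representing object -/
theorem NN_acyQ {v₁ v₂ : Word} (hF : TypeA (filt U) v₁ v₂)
    (hinf : ∀ u ∈ filt U, ∀ v ∈ filt U, u ⊓ v ∈ filt U) {h₁ h₂ : Gam →₀ ℤ}
    (e₁ : h₁ = Finsupp.single (v₁ : Gam) 1) (e₂ : h₂ = Finsupp.single (v₂ : Gam) 1)
    (a : Gam →₀ ℤ) : ∃ u, u ∈ D.M ∧ u ∈ U ∧
      ∀ (x₀₀ : (NN D).N (a + u)) (x₁₀ : (NN D).N (a + u + h₁)) (x₀₁ : (NN D).N (a + u + h₂))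
        (x₁₁ : (NN D).N (a + u + h₁ + h₂)),
        (NN D).d _ x₀₀ = 0 → (NN D).d _ x₁₀ = (NN D).tr' _ _ x₀₀ →
        (NN D).d _ x₀₁ = (NN D).tr' _ _ x₀₀ →
        (NN D).d _ x₁₁ = (NN D).tr' _ _ x₁₀ + (NN D).tr' _ _ x₀₁ →
        ∃ y₀₀ y₁₀ y₀₁ y₁₁, (NN D).d _ y₀₀ = x₀₀ ∧
          (NN D).d _ y₁₀ + (NN D).tr' _ _ y₀₀ = x₁₀ ∧
          (NN D).d _ y₀₁ + (NN D).tr' _ _ y₀₀ = x₀₁ ∧
          (NN D).d _ y₁₁ + (NN D).tr' _ _ y₁₀ + (NN D).tr' _ _ y₀₁ = x₁₁ := by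
  subst e₁ e₂
  have two : ∀ (g : Gam →₀ ℤ) (x : (NN D).N g), x + x = 0 := fun g x =>
    two_C shf (Wd D (-g)) x
  obtain ⟨u, hu, huM, h⟩ := NN_typeA D hF hinf a
  refine ⟨u, huM, hu, fun x₀₀ x₁₀ x₀₁ x₁₁ k₀₀ k₁₀ k₀₁ k₁₁ => ?_⟩
  refine h _ _ _ _ rfl (by abel) (by abel) (by abel) x₀₀ x₁₀ x₀₁ x₁₁ k₀₀ ?_ ?_ ?_
  · rw [k₁₀]; exact two _ _
  · rw [k₀₁]; exact two _ _
  · rw [k₁₁]; exact (add_assoc _ _ _).trans (two _ _)

end Core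

/-- a class of degree `0` which is not zero -/
theorem NN_class (g : Gam →₀ ℤ) (hg : g = 0) : ∃ z : (NN D).N g, (NN D).d g z = 0 ∧
    ∀ y : (NN D).N g, (NN D).d g y ≠ z := by
  subst hg
  have e : Wd D (-0) = Set.univ := by
    ext w
    rw [neg_zero, mem_Wd, D.W_zero]
    exact ⟨fun _ => trivial, fun _ => trivial⟩
  obtain ⟨z, hz, hd, hn⟩ := exists_class
  refine ⟨⟨z, by rw [e]; exact hz⟩, ?_, ?_⟩
  · apply Subtype.ext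
    show shf.D (Wd D (-0)) z = 0
    rw [e]
    exact hd
  · intro y hy
    apply hn y.1
    have := congrArg Subtype.val hy
    rw [← e]
    exact this

/-- the alternative, for every face -/
theorem NN_face {U : AddSubmonoid (Gam →₀ ℤ)} (hU : IsFace D.M U) :
    (∀ (a : Gam →₀ ℤ) (z : (NN D).N a), (NN D).d a z = 0 →
      ∃ u, u ∈ D.M ∧ u ∈ U ∧ ∃ y, (NN D).d (a + u) y = (NN D).tr' (a + u) a z) ∨
    ∃ h₁ h₂, h₁ ∈ D.M ∧ h₂ ∈ D.M ∧ h₁ ∉ U ∧ h₂ ∉ U ∧ ∀ a, ∃ u, u ∈ D.M ∧ u ∈ U ∧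
      ∀ (x₀₀ : (NN D).N (a + u)) (x₁₀ : (NN D).N (a + u + h₁)) (x₀₁ : (NN D).N (a + u + h₂))
        (x₁₁ : (NN D).N (a + u + h₁ + h₂)),
        (NN D).d _ x₀₀ = 0 → (NN D).d _ x₁₀ = (NN D).tr' _ _ x₀₀ →
        (NN D).d _ x₀₁ = (NN D).tr' _ _ x₀₀ →
        (NN D).d _ x₁₁ = (NN D).tr' _ _ x₁₀ + (NN D).tr' _ _ x₀₁ →
        ∃ y₀₀ y₁₀ y₀₁ y₁₁, (NN D).d _ y₀₀ = x₀₀ ∧
          (NN D).d _ y₁₀ + (NN D).tr' _ _ y₀₀ = x₁₀ ∧
          (NN D).d _ y₀₁ + (NN D).tr' _ _ y₀₀ = x₀₁ ∧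
          (NN D).d _ y₁₁ + (NN D).tr' _ _ y₁₀ + (NN D).tr' _ _ y₀₁ = x₁₁ := by
  have hF := isFilt_filt D hU.face
  rcases dichotomy hF with h | ⟨v₁, v₂, h⟩
  · exact Or.inl fun a z hz => NN_dies D h a z hz
  · exact Or.inr ⟨_, _, D.single_mem_M (v₁ : Gam), D.single_mem_M (v₂ : Gam), h.n1, h.n2,
      NN_acyQ D h (fun u hu v hv => hF.inf hu hv) rfl rfl⟩

end

end MP40506.CX.Sys
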