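import Pool.Agent.Work.MP_40506d_al.CX.WN
import Pool.Agent.Work.MP_40506d_al.CX.Phi
import Pool.Agent.Work.MP_40506d_al.CX.Sys
import Pool.Agent.Work.MP_40506d_al.CX.Vis

/-!
# An object with empty support
-/

open CategoryTheory CategoryTheory.Limits CategoryTheory.MonoidalCategory
  CategoryTheory.Pretriangulated

set_option linter.unusedSectionVars false

namespace MP40506.CX

noncomputable section

variable {G : Type} [AddCommGroup G] {M : AddSubmonoid G}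

/-- for every face one of the two vanishing conditions holds -/
def DG.Vanishes (N : DG M) : Prop :=
  ∀ U, IsFace M U → N.Dies U ∨ ∃ (h1 h2 : G), h1 ∈ M ∧ h2 ∈ M ∧ h1 ∉ U ∧ h2 ∉ U ∧
    ∀ a, ∃ u, u ∈ M ∧ u ∈ U ∧ N.AcyQ h1 h2 (a + u)

theorem exists_supp_empty (N : DG M) (hne : ∃ (a : G) (z : N.N a), N.d a z = 0 ∧ ∀ y, N.d a y ≠ z)
    (hvan : N.Vanishes) : ∃ Z : TT G M, ¬ IsZero Z ∧ Supp Z = ∅ := by
  obtain ⟨Z, hZ1, hZ2, hZ3⟩ := exists_repr N
  obtain ⟨a, z, hz, hz'⟩ := hne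
  refine ⟨Z, hZ1 a z hz hz', ?_⟩
  ext P
  simp only [Set.mem_empty_iff_false, iff_false]
  rintro ⟨g, hg, hgZ⟩
  apply hgZ
  rcases hvan (face P) (isFace_face P) with hd | ⟨h1, h2, hh1, hh2, hU1, hU2, hA⟩
  · refine isZero_of_kill P g hg Z (𝟙_ (TT G M)) isCpt_unit (mem_supp_unit P) ?_
    intro a x
    obtain ⟨u, hM, hU, h⟩ := hZ2 (face P) hd a ((ρ_ (tk a : TT G M)).inv ≫ x)
    refine ⟨u, hM, hU, ?_⟩
    rw [← cancel_epi (ρ_ (tk (a + u) : TT G M)).inv]
    rw [← MonoidalCategory.rightUnitor_inv_naturality_assoc]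
    rw [comp_zero]
    exact h
  · refine isZero_of_kill P g hg Z (tkz h1 hh1 ⊗ tkz h2 hh2)
      ((isCpt_tkz h1 hh1).tensor (isCpt_tkz h2 hh2))
      ((mem_supp_tensor (isCpt_tkz h1 hh1) (isCpt_tkz h2 hh2) P).2
        ⟨(mem_supp_tkz P h1 hh1).2 hU1, (mem_supp_tkz P h2 hh2).2 hU2⟩) ?_
    intro a x
    exact hZ3 (face P) h1 h2 hh1 hh2 hA a x

/-- the levels of the semilattice of words -/
def gamLevels : Wt.Levels Gam where
  L := levels
  mono := levels_mono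
  inf_mem := fun _ _ _ hu hv => inf_mem_levels hu hv
  top_mem := top_mem_levels
  exh := exists_mem_levels

/-- the system `NN D` satisfies the vanishing conditions -/
theorem vanishes_NN (D : Wt.Weights Gam) : (Sys.NN D).Vanishes :=
  fun _ hU => Sys.NN_face D hU

/-- the example -/
theorem exists_example : ∃ D : Wt.Weights Gam, WeaklyNoetherian (TT (Gam →₀ ℤ) D.M) ∧
    ∃ Z : TT (Gam →₀ ℤ) D.M, ¬ IsZero Z ∧ Supp Z = ∅ := by
  obtain ⟨D, -⟩ := Wt.exists_weights gamLevels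
  refine ⟨D, weaklyNoetherian_TT ?_, exists_supp_empty (Sys.NN D) ?_ (vanishes_NN D)⟩
  · intro U hU
    obtain ⟨s, hs, h⟩ := exists_visible_face D hU.le hU.face
    exact ⟨s, hs, fun U' hU' hle hx => h U' hU'.le hU'.face hle hx⟩
  · obtain ⟨z, hz, hz'⟩ := Sys.NN_class D 0 rfl
    exact ⟨0, z, hz, hz'⟩

end

end MP40506.CX
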