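import Pool.Agent.Work.MP_40506d_al.Neeman
import Pool.Agent.Work.MP_40506d_al.Idem

/-! Cell TT, abstract criterion for the vanishing of `f_Y ⊗ t`.

`Gen` is a class of compact generators, `Den` a multiplicative class of maps `s : b ⟶ 𝟙` with
`b` invertible.  If every map from an object of `Gen` to `t` is killed by some `s` in `Den`
then `f_Y ⊗ t = 0`, where `Y` is the union of the supports of the cones of the maps in `Den`. -/

open CategoryTheory CategoryTheory.Limits CategoryTheory.MonoidalCategory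
  CategoryTheory.Pretriangulated

universe v u u'

set_option linter.unusedSectionVars false

namespace MP40506

section Act

variable {T : Type u} [Category.{v} T] [MonoidalCategory T]

/-- the map `b ⊗ c ⟶ c` given by `s : b ⟶ 𝟙` -/
def act {b : T} (s : b ⟶ 𝟙_ T) (c : T) : b ⊗ c ⟶ c := s ▷ c ≫ (λ_ c).hom

lemma act_nat {b : T} (s : b ⟶ 𝟙_ T) {c d : T} (x : c ⟶ d) :
    act s c ≫ x = b ◁ x ≫ act s d := by
  simp only [act, Category.assoc]
  rw [MonoidalCategory.whisker_exchange_assoc]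
  simp

/-- the product of two maps to the unit -/
def mulTo {b b' : T} (s' : b' ⟶ 𝟙_ T) (s : b ⟶ 𝟙_ T) : b' ⊗ b ⟶ 𝟙_ T := act s' b ≫ s

lemma act_mulTo {b b' : T} (s' : b' ⟶ 𝟙_ T) (s : b ⟶ 𝟙_ T) (c : T) :
    act (mulTo s' s) c = (α_ b' b c).hom ≫ act s' (b ⊗ c) ≫ act s c := by
  simp only [act, mulTo, comp_whiskerRight, Category.assoc]
  simp

lemma act_mulTo' {b b' : T} (s' : b' ⟶ 𝟙_ T) (s : b ⟶ 𝟙_ T) (c : T) :
    act (mulTo s' s) c = (α_ b' b c).hom ≫ b' ◁ act s c ≫ act s' c := by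
  rw [act_mulTo, act_nat]

lemma act_mulTo_comp {b b' : T} (s' : b' ⟶ 𝟙_ T) (s : b ⟶ 𝟙_ T) {c d : T} [HasZeroMorphisms T]
    (x : c ⟶ d) (l : b ⊗ c ⟶ d) (hl : act s c ≫ x = l) (h : act s' (b ⊗ c) ≫ l = 0) :
    act (mulTo s' s) c ≫ x = 0 := by
  rw [act_mulTo, Category.assoc, Category.assoc, hl, h, comp_zero]

end Act

section Kill

variable {T : Type u} [Category.{v} T] [HasZeroObject T] [HasShift T ℤ] [Preadditive T]
  [∀ n : ℤ, (shiftFunctor T n).Additive] [Pretriangulated T] [IsTriangulated T]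
  [MonoidalCategory T]
  [SymmetricCategory T] [MonoidalPreadditive T] [HasCoproducts.{v} T] [RCG T]

/-- The data of generators and denominators. -/
structure DenData (Gen : ObjectProperty T) (Den : ∀ b : T, (b ⟶ 𝟙_ T) → Prop) : Prop where
  per : ∀ (y : T) (n : ℤ), Nonempty (y⟦n⟧ ≅ y)
  gen_cpt : ∀ c, Gen c → IsCpt c
  gen_zero : ∀ X, (∀ c, Gen c → ∀ f : c ⟶ X, f = 0) → IsZero X
  den_gen : ∀ (b : T) (s : b ⟶ 𝟙_ T), Den b s → ∀ c, Gen c → Gen (b ⊗ c)
  den_mul : ∀ (b b' : T) (s : b ⟶ 𝟙_ T) (s' : b' ⟶ 𝟙_ T), Den b s → Den b' s' →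
    Den (b' ⊗ b) (mulTo s' s)
  den_ne : ∃ (b : T) (s : b ⟶ 𝟙_ T), Den b s
  den_inv : ∀ (b : T) (s : b ⟶ 𝟙_ T), Den b s → ∃ b' : T, Nonempty (b' ⊗ b ≅ 𝟙_ T)
  den_cone : ∀ (b : T) (s : b ⟶ 𝟙_ T), Den b s → ∃ (Z : T) (g : 𝟙_ T ⟶ Z)
    (h : Z ⟶ b⟦(1 : ℤ)⟧), Triangle.mk s g h ∈ distTriang T ∧ IsCpt Z ∧
    ∃ (b' : T) (s' : b' ⟶ 𝟙_ T), Den b' s' ∧ s' ▷ Z = 0

/-- the union of the supports of the cones -/
def coneSupp (Den : ∀ b : T, (b ⟶ 𝟙_ T) → Prop) : Set (Spc T) :=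
  {Q | ∃ (b : T) (s : b ⟶ 𝟙_ T) (Z : T) (g : 𝟙_ T ⟶ Z) (h : Z ⟶ b⟦(1 : ℤ)⟧),
    Den b s ∧ Triangle.mk s g h ∈ distTriang T ∧ Q ∈ supp Z}

/-- cones are unique -/
lemma nonempty_iso_cone {b b' Z Z' : T} {s : b ⟶ b'} {g : b' ⟶ Z} {h : Z ⟶ b⟦(1 : ℤ)⟧}
    (hd : Triangle.mk s g h ∈ distTriang T) {g' : b' ⟶ Z'} {h' : Z' ⟶ b⟦(1 : ℤ)⟧}
    (hd' : Triangle.mk s g' h' ∈ distTriang T) : Nonempty (Z ≅ Z') := by
  obtain ⟨e, -⟩ := exists_iso_of_arrow_iso _ _ hd hd' (Iso.refl _)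
  exact ⟨Triangle.π₃.mapIso e⟩

lemma supp_iso {Z Z' : T} (e : Z ≅ Z') : supp Z = supp Z' := by
  ext P
  simp only [mem_supp]
  exact ⟨fun h h' => h (P.2.of_iso e h'), fun h h' => h (P.2.of_iso e.symm h')⟩

/-- the map `x` is killed by an element of `Den` -/
def Killed (Den : ∀ b : T, (b ⟶ 𝟙_ T) → Prop) {c y : T} (x : c ⟶ y) : Prop :=
  ∃ (b : T) (s : b ⟶ 𝟙_ T), Den b s ∧ act s c ≫ x = 0

lemma Killed.comp {Den : ∀ b : T, (b ⟶ 𝟙_ T) → Prop} {c y z : T} {x : c ⟶ y}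
    (h : Killed Den x) (f : y ⟶ z) : Killed Den (x ≫ f) := by
  obtain ⟨b, s, hs, h⟩ := h
  exact ⟨b, s, hs, by rw [← Category.assoc, h, zero_comp]⟩

lemma Killed.pre {Den : ∀ b : T, (b ⟶ 𝟙_ T) → Prop} {c d y : T} {x : c ⟶ y}
    (h : Killed Den x) (f : d ⟶ c) : Killed Den (f ≫ x) := by
  obtain ⟨b, s, hs, h⟩ := h
  refine ⟨b, s, hs, ?_⟩
  rw [← Category.assoc, act_nat, Category.assoc, h, comp_zero]

/-- the objects `y` such that every map from a generator to `y` is killed -/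
def KillAll (Gen : ObjectProperty T) (Den : ∀ b : T, (b ⟶ 𝟙_ T) → Prop) : ObjectProperty T :=
  fun y => ∀ c, Gen c → ∀ x : c ⟶ y, Killed Den x

namespace DenData

variable {Gen : ObjectProperty T} {Den : ∀ b : T, (b ⟶ 𝟙_ T) → Prop} (D : DenData Gen Den)

include D

lemma killed_zero (c y : T) : Killed Den (0 : c ⟶ y) := by
  obtain ⟨b, s, hs⟩ := D.den_ne
  exact ⟨b, s, hs, comp_zero⟩

lemma killed_add {c y : T} {x x' : c ⟶ y} (h : Killed Den x) (h' : Killed Den x') :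
    Killed Den (x + x') := by
  obtain ⟨b, s, hs, h⟩ := h
  obtain ⟨b', s', hs', h'⟩ := h'
  refine ⟨_, mulTo s' s, D.den_mul _ _ _ _ hs hs', ?_⟩
  rw [Preadditive.comp_add]
  have h1 : act (mulTo s' s) c ≫ x = 0 := by
    rw [act_mulTo, Category.assoc, Category.assoc, h, comp_zero, comp_zero]
  have h2 : act (mulTo s' s) c ≫ x' = 0 := by
    rw [act_mulTo', Category.assoc, Category.assoc, h', comp_zero, comp_zero]
  rw [h1, h2, add_zero]

lemma isLocalizing_killAll : IsLocalizing (KillAll Gen Den) := by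
  have hiso : ∀ X Y : T, (X ≅ Y) → KillAll Gen Den Y → KillAll Gen Den X := by
    intro X Y e h c hc x
    have h1 := (h c hc (x ≫ e.hom)).comp e.inv
    rw [Category.assoc, e.hom_inv_id, Category.comp_id] at h1
    exact h1
  refine ⟨?_, ?_, ?_, ?_⟩
  · intro X n h
    obtain ⟨e⟩ := D.per X n
    exact hiso _ _ e h
  · intro Δ hΔ h1 h3 c hc x
    obtain ⟨b, s, hs, h⟩ := h3 c hc (x ≫ Δ.mor₂)
    rw [← Category.assoc] at h
    obtain ⟨l, hl⟩ := Triangle.coyoneda_exact₂ Δ hΔ (act s c ≫ x) h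
    obtain ⟨b', s', hs', h'⟩ := h1 (b ⊗ c) (D.den_gen _ _ hs _ hc) l
    refine ⟨_, mulTo s' s, D.den_mul _ _ _ _ hs hs', ?_⟩
    rw [act_mulTo, Category.assoc, Category.assoc, hl, ← Category.assoc (act s' (b ⊗ c)), h',
      zero_comp, comp_zero]
  · intro J Y h c hc x
    obtain ⟨s, g, hg⟩ := D.gen_cpt c hc J Y x
    rw [hg]
    clear hg
    induction s using Finset.cons_induction with
    | empty => exact D.killed_zero _ _
    | cons a s ha ih =>
      rw [Finset.sum_cons]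
      exact D.killed_add ((h a c hc (g a)).comp _) ih
  · intro X Y i r hir h c hc x
    have h1 := (h c hc (x ≫ i)).comp r
    rw [Category.assoc, hir, Category.comp_id] at h1
    exact h1

lemma isLocIdeal_killIdeal : IsLocIdeal (fun z : T => ∀ y, KillAll Gen Den (y ⊗ z)) where
  shift := fun X n h y => (D.isLocalizing_killAll.comap y).shift X n (h y)
  ext₂ := fun Δ hΔ h1 h3 y => (D.isLocalizing_killAll.comap y).ext₂ Δ hΔ (h1 y) (h3 y)
  coprod := fun J Y h y => (D.isLocalizing_killAll.comap y).coprod J Y (fun j => h j y)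
  retract := fun X Y i r hir h y => (D.isLocalizing_killAll.comap y).retract X Y i r hir (h y)
  tensor := fun X Y h y => D.isLocalizing_killAll.of_iso (α_ y X Y).symm (h (y ⊗ X))

lemma killIdeal_cone {Z : T} {b' : T} {s' : b' ⟶ 𝟙_ T} (hs' : Den b' s') (h' : s' ▷ Z = 0)
    (y : T) : KillAll Gen Den (y ⊗ Z) := by
  intro c hc x
  refine ⟨b', s', hs', ?_⟩
  have h1 : act s' (y ⊗ Z) = 0 := by
    have h2 : act s' (Z ⊗ y) = 0 := by
      have h3 : s' ▷ (Z ⊗ y) = (α_ b' Z y).inv ≫ (s' ▷ Z) ▷ y ≫ (α_ (𝟙_ T) Z y).hom := by simp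
      simp only [act, h3, h', MonoidalPreadditive.zero_whiskerRight, zero_comp, comp_zero]
    have h4 := act_nat s' (β_ Z y).hom
    rw [h2, zero_comp] at h4
    have h5 : b' ◁ (β_ Z y).inv ≫ b' ◁ (β_ Z y).hom ≫ act s' (y ⊗ Z) = 0 := by
      rw [← h4, comp_zero]
    rw [← Category.assoc, ← MonoidalCategory.whiskerLeft_comp, Iso.inv_hom_id,
      MonoidalCategory.whiskerLeft_id, Category.id_comp] at h5
    exact h5
  rw [act_nat, h1, comp_zero]

/-- the cone of a denominator lies in the ideal -/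
lemma K_cone {b : T} {s : b ⟶ 𝟙_ T} (hs : Den b s) {Z : T} {g : 𝟙_ T ⟶ Z}
    {h : Z ⟶ b⟦(1 : ℤ)⟧} (hd : Triangle.mk s g h ∈ distTriang T) : K (coneSupp Den) Z := by
  obtain ⟨Z', g', h', hd', hZ', -⟩ := D.den_cone b s hs
  obtain ⟨i⟩ := nonempty_iso_cone hd hd'
  exact ⟨hZ'.of_iso i, fun Q hQ => ⟨b, s, Z, g, h, hs, hd, hQ⟩⟩

lemma isThomason_coneSupp : IsThomason (coneSupp Den) := by
  rw [isThomason_iff]
  rintro Q ⟨b, s, Z, g, h, hs, hd, hQZ⟩
  exact ⟨Z, D.K_cone hs hd, hQZ⟩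

/-- if every map from a generator to `t` is killed then `f_Y ⊗ t = 0` -/
theorem isZero_f {e f : T} (hef : IsIdemTriangle (coneSupp Den) e f) {t : T}
    (ht : KillAll Gen Den t) : IsZero (f ⊗ t) := by
  have hQ := D.isLocIdeal_killIdeal
  have hKY : ∀ a, K (coneSupp Den) a → ∀ y, KillAll Gen Den (y ⊗ a) := by
    intro a ha
    have hthick : IsThickIdeal (fun c => IsCpt c ∧ ∀ y, KillAll Gen Den (y ⊗ c)) := by
      refine ⟨fun X h => h.1, ?_, ?_, ?_, ?_, ?_⟩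
      · intro X hX
        exact ⟨isCpt_of_isZero hX, hQ.of_isZero hX⟩
      · intro X n h
        exact ⟨h.1.shift n, hQ.shift X n h.2⟩
      · intro Δ hΔ h1 h3
        exact ⟨IsCpt.ext₂ Δ hΔ h1.1 h3.1, hQ.ext₂ Δ hΔ h1.2 h3.2⟩
      · intro X Y i r hir h
        exact ⟨h.1.retract i r hir, hQ.retract X Y i r hir h.2⟩
      · intro X Y hX h
        exact ⟨hX.tensor h.1, hQ.tensor X Y h.2⟩
    refine (mem_of_supp_subset hthick ha.1 (fun P hP => ?_)).2
    obtain ⟨b, s, Z, g, h, hs, hd, hPZ⟩ := ha.2 hP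
    obtain ⟨Z', g', h', hd', hZ', b', s', hs', hk⟩ := D.den_cone b s hs
    obtain ⟨i⟩ := nonempty_iso_cone hd hd'
    refine ⟨Z', ⟨hZ', D.killIdeal_cone hs' hk⟩, ?_⟩
    rw [← supp_iso i]
    exact hPZ
  have he : ∀ y, KillAll Gen Den (y ⊗ e) := hef.loc _ hQ hKY
  -- `t ⊗ f` lies in the class
  have hf : KillAll Gen Den (t ⊗ f) := by
    obtain ⟨a, b, q, hd, -, -⟩ := hef
    have h1 := tri_tensor t hd
    exact D.isLocalizing_killAll.ext₃ _ h1 (he t)
      (D.isLocalizing_killAll.of_iso (ρ_ t) ht)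
  -- denominators act invertibly
  have hinv : ∀ (b : T) (s : b ⟶ 𝟙_ T), Den b s → IsIso (act s (t ⊗ f)) := by
    intro b s hs
    obtain ⟨Z, g, h, hd⟩ := exists_tri s
    have hKZ := D.K_cone hs hd
    have h1 : IsZero ((t ⊗ f) ⊗ Z) := by
      apply isZero_of_sk (Y := t ⊗ (f ⊗ Z))
      · simp only [sk_tensor]; ac_rfl
      · exact isZero_tensor_right _ (hef.isZero_right (subset_locIdeal _ _ hKZ))
    have h2 : IsIso ((t ⊗ f) ◁ s) :=
      (Triangle.isZero₃_iff_isIso₁ _ (tri_tensor (t ⊗ f) hd)).1 h1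
    have h3 : act s (t ⊗ f) = (β_ b (t ⊗ f)).hom ≫ (t ⊗ f) ◁ s ≫ (ρ_ (t ⊗ f)).hom := by
      simp only [act]
      rw [← BraidedCategory.braiding_naturality_left_assoc]
      simp
    rw [h3]
    infer_instance
  have hzero : ∀ c, Gen c → ∀ x : c ⟶ t ⊗ f, x = 0 := by
    intro c hc x
    obtain ⟨b, s, hs, h⟩ := hf c hc x
    rw [act_nat] at h
    have := hinv b s hs
    have h1 : b ◁ x = 0 := by
      rw [← cancel_mono (act s (t ⊗ f)), h, zero_comp]
    obtain ⟨b', ⟨i⟩⟩ := D.den_inv b s hs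
    have h2 : (b' ⊗ b) ◁ x = 0 := by
      rw [MonoidalCategory.tensor_whiskerLeft, h1]
      simp
    have h3 : 𝟙_ T ◁ x = 0 := by
      have h4 : 𝟙_ T ◁ x = i.inv ▷ c ≫ (b' ⊗ b) ◁ x ≫ i.hom ▷ (t ⊗ f) := by
        rw [MonoidalCategory.whisker_exchange, ← Category.assoc, ← comp_whiskerRight,
          Iso.inv_hom_id, id_whiskerRight, Category.id_comp]
      rw [h4, h2, zero_comp, comp_zero]
    have h5 : x = (λ_ c).inv ≫ 𝟙_ T ◁ x ≫ (λ_ (t ⊗ f)).hom := by simp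
    rw [h5, h3, zero_comp, comp_zero]
  exact isZero_comm (D.gen_zero _ hzero)

/-- `g_P ⊗ t = 0` if `P` lies in the support of a compact object `B`, not in the support of the
cones, and every map `c ⊗ B ⟶ t`, `c` a generator, is killed. -/
theorem isZero_point {P : Spc T} {g B t : T} (hg : IsPointIdem P g) (hB : IsCpt B)
    (hPB : P ∈ supp B) (hP : P ∉ coneSupp Den)
    (ht : ∀ c, Gen c → ∀ x : c ⊗ B ⟶ t, Killed Den x) : IsZero (g ⊗ t) := by
  obtain ⟨A, hA, ⟨hpair⟩, ⟨hpair'⟩⟩ := hB.exists_dual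
  have hPA : P ∈ supp A := fun h => hPB (P.2.dual h hB)
  obtain ⟨e₂, f₂, h2⟩ := exists_idemTriangle (coneSupp Den)
  have ht' : KillAll Gen Den (t ⊗ A) := by
    intro c hc x
    obtain ⟨b, s, hs, h⟩ := ht c hc ((tensorRightHomEquiv c B A t).symm x)
    refine ⟨b, s, hs, ?_⟩
    have h3 : x = tensorRightHomEquiv c B A t ((tensorRightHomEquiv c B A t).symm x) :=
      ((tensorRightHomEquiv c B A t).apply_symm_apply x).symm
    have h4 : act s (c ⊗ B) = (α_ b c B).inv ≫ act s c ▷ B := by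
      simp [act]
    rw [h4, Category.assoc] at h
    have h5 : act s c ▷ B ≫ (tensorRightHomEquiv c B A t).symm x = 0 := by
      rw [← cancel_epi (α_ b c B).inv, h, comp_zero]
    rw [← tensorRightHomEquiv_symm_naturality] at h5
    have h6 : act s c ≫ x = tensorRightHomEquiv (b ⊗ c) B A t 0 := by
      rw [← h5, Equiv.apply_symm_apply]
    rw [h6]
    simp [tensorRightHomEquiv]
  have h3 : IsZero (f₂ ⊗ (t ⊗ A)) := D.isZero_f h2 ht'
  have h4 : IsZero (g ⊗ (f₂ ⊗ t)) := by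
    refine hg.isZero_of_cpt hA hPA ?_
    apply isZero_of_sk _ h3
    simp only [sk_tensor]; ac_rfl
  have h5 : sk g = sk g * sk f₂ := h2.sk_right (hg.isZero_e hP h2)
  apply isZero_of_sk _ h4
  simp only [sk_tensor]
  rw [← mul_assoc, ← h5]

end DenData

end Kill

end MP40506
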