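import Pool.Agent.Work.MP_40506d_al.Loc

open CategoryTheory CategoryTheory.Limits CategoryTheory.Pretriangulated

universe v u u' w

set_option linter.unusedSectionVars false

namespace MP40506

section Brown

/-- A contravariant cohomological functor on `T` which sends coproducts to products. -/
structure Coh (T : Type u) [Category.{v} T] [HasZeroObject T] [HasShift T ℤ] [Preadditive T]
    [∀ n : ℤ, (shiftFunctor T n).Additive] [Pretriangulated T] [HasCoproducts.{v} T] where
  /-- the values -/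
  obj : T → Type v
  [grp : ∀ X, AddCommGroup (obj X)]
  /-- the restriction maps -/
  map : ∀ {X Y : T}, (X ⟶ Y) → obj Y →+ obj X
  map_id : ∀ (X : T) (x : obj X), map (𝟙 X) x = x
  map_comp : ∀ {X Y Z : T} (f : X ⟶ Y) (g : Y ⟶ Z) (z : obj Z), map (f ≫ g) z = map f (map g z)
  map_add : ∀ {X Y : T} (f g : X ⟶ Y) (y : obj Y), map (f + g) y = map f y + map g y
  exact : ∀ Δ : Triangle T, Δ ∈ distTriang T → ∀ y : obj Δ.obj₂, map Δ.mor₁ y = 0 →
    ∃ z : obj Δ.obj₃, map Δ.mor₂ z = y
  prod : ∀ {J : Type v} (Y : J → T) (y : ∀ j, obj (Y j)),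
    ∃ z : obj (∐ Y), ∀ j, map (Sigma.ι Y j) z = y j
  ext : ∀ {J : Type v} (Y : J → T) (z : obj (∐ Y)), (∀ j, map (Sigma.ι Y j) z = 0) → z = 0

attribute [instance] Coh.grp

variable {T : Type u} [Category.{v} T] [HasZeroObject T] [HasShift T ℤ] [Preadditive T]
  [∀ n : ℤ, (shiftFunctor T n).Additive] [Pretriangulated T] [HasCoproducts.{v} T]

namespace Coh

variable (H : Coh T)

lemma map_zero' {X Y : T} (y : H.obj Y) : H.map (0 : X ⟶ Y) y = 0 := by
  have h := H.map_add (0 : X ⟶ Y) 0 y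
  rw [add_zero] at h
  exact left_eq_add.mp h

lemma map_neg' {X Y : T} (f : X ⟶ Y) (y : H.obj Y) : H.map (-f) y = -H.map f y := by
  have h := H.map_add (-f) f y
  rw [neg_add_cancel, map_zero'] at h
  exact eq_neg_of_add_eq_zero_left h.symm

lemma map_sub' {X Y : T} (f g : X ⟶ Y) (y : H.obj Y) :
    H.map (f - g) y = H.map f y - H.map g y := by
  rw [sub_eq_add_neg, H.map_add, map_neg', ← sub_eq_add_neg]

lemma ext' {J : Type v} (Y : J → T) (z z' : H.obj (∐ Y))
    (h : ∀ j, H.map (Sigma.ι Y j) z = H.map (Sigma.ι Y j) z') : z = z' := by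
  rw [← sub_eq_zero]
  apply H.ext
  intro j
  rw [map_sub, h, sub_self]

/-- Sequential homotopy colimit, with classes. -/
lemma exists_hocolim' (X : ℕ → T) (φ : ∀ n, X n ⟶ X (n + 1)) (x : ∀ n, H.obj (X n))
    (hx : ∀ n, H.map (φ n) (x (n + 1)) = x n) :
    ∃ (E : T) (ι' : ∀ n, X n ⟶ E) (e : H.obj E),
      (∀ n, φ n ≫ ι' (n + 1) = ι' n) ∧
      (∀ n, H.map (ι' n) e = x n) ∧
      (∀ c : T, IsCpt c → ∀ f : c ⟶ E, ∃ (n : ℕ) (g : c ⟶ X n), f = g ≫ ι' n) ∧
      (∀ P : ObjectProperty T, IsLocalizing P → (∀ n, P (X n)) → P E) := by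
  let Y : ULift.{v} ℕ → T := fun n => X n.down
  let σ : (∐ Y) ⟶ (∐ Y) :=
    Limits.Sigma.desc (fun n => φ n.down ≫ Sigma.ι Y (ULift.up (n.down + 1)))
  let d : (∐ Y) ⟶ (∐ Y) := 𝟙 _ - σ
  obtain ⟨E, p, q, hd⟩ := exists_tri d
  have hdι : ∀ n : ULift.{v} ℕ, Sigma.ι Y n ≫ d =
      Sigma.ι Y n - φ n.down ≫ Sigma.ι Y (ULift.up (n.down + 1)) := by
    intro n
    simp [d, σ, Preadditive.comp_sub]
  have hcomp : ∀ n, φ n ≫ Sigma.ι Y (ULift.up (n + 1)) ≫ p = Sigma.ι Y (ULift.up n) ≫ p := by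
    intro n
    have h0 : d ≫ p = 0 := tri_fg hd
    have h1 : Sigma.ι Y (ULift.up n) ≫ d ≫ p = 0 := by rw [h0, comp_zero]
    rw [← Category.assoc, hdι, Preadditive.sub_comp, sub_eq_zero] at h1
    rw [h1]
    simp
  -- injectivity
  have hinj : ∀ c : T, IsCpt c → ∀ k : c ⟶ ∐ Y, k ≫ d = 0 → k = 0 := by
    intro c hc k hk
    have key : ∀ n : ULift.{v} ℕ, d ≫ Sigma.π Y (ULift.up (n.down + 1)) =
        Sigma.π Y (ULift.up (n.down + 1)) - Sigma.π Y n ≫ φ n.down := by
      intro n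
      apply Limits.Sigma.hom_ext
      intro m
      rw [← Category.assoc, hdι, Preadditive.sub_comp, Preadditive.comp_sub]
      congr 1
      rw [Category.assoc]
      by_cases hmn : m = n
      · subst hmn
        have h1 := Sigma.ι_π_eq_id Y (ULift.up (m.down + 1))
        have h2 := Sigma.ι_π_eq_id Y m
        rw [← Category.assoc (Sigma.ι Y m), h2, Category.id_comp, h1, Category.comp_id]
      · have hne : (ULift.up (m.down + 1) : ULift.{v} ℕ) ≠ ULift.up (n.down + 1) := by
          intro h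
          apply hmn
          have := congrArg ULift.down h
          simp at this
          exact this
        rw [Sigma.ι_π_of_ne Y hne, comp_zero, ← Category.assoc, Sigma.ι_π_of_ne Y hmn, zero_comp]
    have key0 : d ≫ Sigma.π Y (ULift.up 0) = Sigma.π Y (ULift.up 0) := by
      apply Limits.Sigma.hom_ext
      intro m
      rw [← Category.assoc, hdι, Preadditive.sub_comp]
      have hne : (ULift.up (m.down + 1) : ULift.{v} ℕ) ≠ ULift.up 0 := by
        intro h
        have := congrArg ULift.down h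
        simp at this
      rw [Category.assoc, Sigma.ι_π_of_ne Y hne, comp_zero, sub_zero]
    apply hc.ext_zero Y k
    rintro ⟨n⟩
    induction n with
    | zero =>
      have : k ≫ d ≫ Sigma.π Y (ULift.up 0) = 0 := by rw [← Category.assoc, hk, zero_comp]
      rw [key0] at this
      exact this
    | succ n ih =>
      have h1 : k ≫ d ≫ Sigma.π Y (ULift.up (n + 1)) = 0 := by
        rw [← Category.assoc, hk, zero_comp]
      have h2 := key (ULift.up n)
      have h3 : k ≫ (Sigma.π Y (ULift.up (n + 1)) - Sigma.π Y (ULift.up n) ≫ φ n) = 0 := by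
        rw [← h2]; exact h1
      have h4 : k ≫ Sigma.π Y (ULift.up n) ≫ φ n = 0 := by
        rw [← Category.assoc]
        have ih' : k ≫ Sigma.π Y (ULift.up n) = 0 := ih
        erw [ih', zero_comp]
      rw [Preadditive.comp_sub, h4, sub_zero] at h3
      exact h3
  obtain ⟨x0, hx0'⟩ := H.prod Y (fun n => x n.down)
  have hx0 : ∀ n, H.map (Sigma.ι Y (ULift.up n)) x0 = x n := fun n => hx0' (ULift.up n)
  have hdx : H.map d x0 = 0 := by
    apply H.ext
    rintro ⟨n⟩
    rw [← H.map_comp, hdι, H.map_sub', H.map_comp, hx0, hx0]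
    exact sub_eq_zero.2 (hx n).symm
  obtain ⟨e, he⟩ := H.exact _ hd x0 hdx
  have he : H.map p e = x0 := he
  refine ⟨E, fun n => Sigma.ι Y (ULift.up n) ≫ p, e, hcomp, ?_, ?_, ?_⟩
  · intro n
    show H.map (Sigma.ι Y (ULift.up n) ≫ p) e = x n
    rw [H.map_comp, he, hx0]
  · intro c hc f
    have hstep : ∀ n m : ℕ, n ≤ m → ∃ ψ : X n ⟶ X m,
        Sigma.ι Y (ULift.up n) ≫ p = ψ ≫ Sigma.ι Y (ULift.up m) ≫ p := by
      intro n m hnm
      induction m, hnm using Nat.le_induction with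
      | base => exact ⟨𝟙 _, by simp⟩
      | succ m _ ih =>
        obtain ⟨ψ, hψ⟩ := ih
        refine ⟨ψ ≫ φ m, ?_⟩
        rw [hψ, Category.assoc, hcomp]
    have hfq : f ≫ q = 0 := by
      have h1 : (f ≫ q) ≫ d⟦(1 : ℤ)⟧' = 0 := by
        rw [Category.assoc]
        have : q ≫ d⟦(1 : ℤ)⟧' = 0 := tri_hf hd
        rw [this, comp_zero]
      let e : (c⟦(-1 : ℤ)⟧)⟦(1 : ℤ)⟧ ≅ c := (shiftEquiv T (1 : ℤ)).counitIso.app c
      let k' : c⟦(-1 : ℤ)⟧ ⟶ ∐ Y := (shiftFunctor T (1 : ℤ)).preimage (e.hom ≫ f ≫ q)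
      have hk' : k'⟦(1 : ℤ)⟧' = e.hom ≫ f ≫ q := Functor.map_preimage _ _
      have h2 : k' ≫ d = 0 := by
        apply (shiftFunctor T (1 : ℤ)).map_injective
        rw [Functor.map_comp, hk', Functor.map_zero, Category.assoc, h1, comp_zero]
      have h3 : k' = 0 := hinj _ (hc.shift _) k' h2
      have h4 : e.hom ≫ f ≫ q = 0 := by rw [← hk', h3, Functor.map_zero]
      have h5 : f ≫ q = e.inv ≫ e.hom ≫ f ≫ q := by simp
      rw [h5, h4, comp_zero]
    obtain ⟨k, hk⟩ := tri_lift₃ hd f hfq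
    obtain ⟨s, g, hg⟩ := hc _ Y k
    have hk' : f = ∑ j ∈ s, g j ≫ Sigma.ι Y j ≫ p := by
      have : f = k ≫ p := hk
      rw [this, hg, Preadditive.sum_comp]
      simp
    rw [hk']
    clear hk' hg hk
    induction s using Finset.induction_on with
    | empty => exact ⟨0, 0, by simp⟩
    | insert a s ha ih =>
      obtain ⟨n, g', hg'⟩ := ih
      rw [Finset.sum_insert ha, hg']
      obtain ⟨ψ1, hψ1⟩ := hstep a.down (max a.down n) (le_max_left _ _)
      obtain ⟨ψ2, hψ2⟩ := hstep n (max a.down n) (le_max_right _ _)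
      refine ⟨max a.down n, g a ≫ ψ1 + g' ≫ ψ2, ?_⟩
      rw [Preadditive.add_comp, Category.assoc, Category.assoc, ← hψ1, ← hψ2]
  · intro P hP hX
    have h1 : P (∐ Y) := hP.coprod _ _ (fun j => hX j.down)
    exact hP.ext₃ _ hd h1 h1

/-- Relative Brown representability: every class `x` of `X` comes from a class `e` of an object
`E` in the localizing subcategory generated by `X` and the compact objects `G j`, such that `e`
represents the functor on the objects `G j`. -/
lemma exists_brown_rel {J : Type v} (G : J → T) (hG : ∀ j, IsCpt (G j)) (X : T) (x : H.obj X) :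
    ∃ (E : T) (e : H.obj E) (k : X ⟶ E), H.map k e = x ∧
      (∀ P : ObjectProperty T, IsLocalizing P → (∀ j, P (G j)) → P X → P E) ∧
      ∀ j, Function.Bijective (fun g : G j ⟶ E => H.map g e) := by
  classical
  let Ob := Σ e : T, H.obj e
  let good : Ob → Prop := fun y =>
    ∀ P : ObjectProperty T, IsLocalizing P → (∀ j, P (G j)) → P X → P y.1
  have hstep : ∀ y : Ob, ∃ (y' : Ob) (φ : y.1 ⟶ y'.1), H.map φ y'.2 = y.2 ∧
      (∀ (j : J) (g : G j ⟶ y.1), H.map g y.2 = 0 → g ≫ φ = 0) ∧ (good y → good y') := by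
    rintro ⟨e, a⟩
    let I : Type v := Σ j : J, {g : G j ⟶ e // H.map g a = 0}
    let Z : I → T := fun i => G i.1
    let b : (∐ Z) ⟶ e := Limits.Sigma.desc (fun i => i.2.1)
    obtain ⟨e', φ, q, hd⟩ := exists_tri b
    have hba : H.map b a = 0 := by
      apply H.ext
      intro i
      rw [← H.map_comp]
      have : Sigma.ι Z i ≫ b = i.2.1 := by simp [b, Z]
      rw [this]
      exact i.2.2
    obtain ⟨a', ha'⟩ := H.exact _ hd a hba
    refine ⟨⟨e', a'⟩, φ, ha', ?_, ?_⟩
    · intro j g hg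
      have h1 : Sigma.ι Z ⟨j, ⟨g, hg⟩⟩ ≫ b = g := by simp [b, Z]
      have h2 : b ≫ φ = 0 := tri_fg hd
      calc g ≫ φ = (Sigma.ι Z ⟨j, ⟨g, hg⟩⟩ ≫ b) ≫ φ := by rw [h1]
        _ = 0 := by rw [Category.assoc, h2, comp_zero]
    · intro hgood P hP hPG hPX
      exact hP.ext₃ _ hd (hP.coprod _ _ (fun i => hPG i.1)) (hgood P hP hPG hPX)
  choose nx φ h1 h2 h3 using hstep
  -- the start: `X ⨿ ∐ G j`
  let I0 : Type v := Option (Σ j : J, H.obj (G j))
  let Z0 : I0 → T := fun i => match i with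
    | none => X
    | some i => G i.1
  let z0 : ∀ i, H.obj (Z0 i) := fun i => match i with
    | none => x
    | some i => i.2
  obtain ⟨x0, hx0⟩ := H.prod Z0 z0
  let y0 : Ob := ⟨∐ Z0, x0⟩
  let y : ℕ → Ob := fun n => Nat.rec y0 (fun _ y => nx y) n
  have hy0 : good y0 := fun P hP hPG hPX => hP.coprod _ _ (fun i => by
    rcases i with _ | i
    · exact hPX
    · exact hPG i.1)
  have hy : ∀ n, good (y n) := by
    intro n
    induction n with
    | zero => exact hy0
    | succ n ih => exact h3 _ ih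
  obtain ⟨E, ι', e, hι1, hι2, hι3, hι4⟩ := H.exists_hocolim' (fun n => (y n).1)
    (fun n => φ (y n)) (fun n => (y n).2) (fun n => h1 (y n))
  refine ⟨E, e, Sigma.ι Z0 none ≫ ι' 0, ?_, fun P hP hPG hPX =>
    hι4 P hP (fun n => hy n P hP hPG hPX), fun j => ⟨?_, ?_⟩⟩
  · rw [H.map_comp, hι2 0]
    exact hx0 none
  · intro g g' hgg'
    have h4 : H.map (g - g') e = 0 := by
      rw [H.map_sub', sub_eq_zero]; exact hgg'
    obtain ⟨n, k, hk⟩ := hι3 (G j) (hG j) (g - g')
    have h5 : H.map k (y n).2 = 0 := by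
      rw [← hι2 n, ← H.map_comp, ← hk, h4]
    have h6 : k ≫ φ (y n) = 0 := h2 _ _ _ h5
    have h7 : g - g' = 0 := by
      rw [hk, ← hι1 n, ← Category.assoc, h6, zero_comp]
    exact sub_eq_zero.mp h7
  · intro g
    refine ⟨Sigma.ι Z0 (some ⟨j, g⟩) ≫ ι' 0, ?_⟩
    show H.map (Sigma.ι Z0 (some ⟨j, g⟩) ≫ ι' 0) e = g
    rw [H.map_comp, hι2 0]
    exact hx0 (some ⟨j, g⟩)

/-- Brown representability on the localizing subcategory generated by a small family, closed
under shifts, of compact objects. -/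
theorem exists_brown {J : Type v} (G : J → T) (hG : ∀ j, IsCpt (G j))
    (hshift : ∀ (j : J) (n : ℤ), ∃ j', Nonempty ((G j)⟦n⟧ ≅ G j')) :
    ∃ (E : T) (e : H.obj E),
      (∀ P : ObjectProperty T, IsLocalizing P → (∀ j, P (G j)) → P E) ∧
      ∀ X : T, (∀ P : ObjectProperty T, IsLocalizing P → (∀ j, P (G j)) → P X) →
        Function.Bijective (fun g : X ⟶ E => H.map g e) := by
  obtain ⟨E, e, -, -, hEloc, hE⟩ := H.exists_brown_rel G hG (∐ fun i : PEmpty.{v+1} => i.elim) 0
  have hEloc' : ∀ P : ObjectProperty T, IsLocalizing P → (∀ j, P (G j)) → P E :=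
    fun P hP hPG => hEloc P hP hPG (hP.coprod _ _ (fun i => i.elim))
  -- objects of the localizing subcategory without maps from the `G j` vanish
  have hgen : ∀ X : T, (∀ P : ObjectProperty T, IsLocalizing P → (∀ j, P (G j)) → P X) →
      (∀ (j : J) (f : G j ⟶ X), f = 0) → IsZero X := by
    intro X hX hf
    let P : ObjectProperty T := fun Y => ∀ (n : ℤ) (f : Y⟦n⟧ ⟶ X), f = 0
    have hP : IsLocalizing P := by
      refine ⟨?_, ?_, ?_, ?_⟩
      · intro Y m hY n f
        have h1 := hY (m + n) ((shiftFunctorAdd T m n).hom.app Y ≫ f)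
        have h2 : f = (shiftFunctorAdd T m n).inv.app Y ≫ (shiftFunctorAdd T m n).hom.app Y ≫ f := by
          simp
        rw [h2, h1, comp_zero]
      · intro Δ hΔ h1 h3 n f
        have hΔ' := Triangle.shift_distinguished Δ hΔ n
        obtain ⟨g, hg⟩ := Triangle.yoneda_exact₂ _ hΔ' f (h1 n _)
        rw [hg]
        have : g = 0 := h3 n g
        rw [this]
        exact comp_zero
      · intro K Y hY n f
        have h1 : (PreservesCoproduct.iso (shiftFunctor T n) Y).inv ≫ f = 0 := by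
          apply Limits.Sigma.hom_ext
          intro k
          rw [comp_zero]
          exact hY k n _
        have h2 : f = (PreservesCoproduct.iso (shiftFunctor T n) Y).hom ≫
            (PreservesCoproduct.iso (shiftFunctor T n) Y).inv ≫ f :=
          (Iso.hom_inv_id_assoc _ f).symm
        rw [h2, h1, comp_zero]
      · intro Y Z i r hir hZ n f
        have h1 := hZ n (r⟦n⟧' ≫ f)
        have h2 : f = i⟦n⟧' ≫ r⟦n⟧' ≫ f := by
          rw [← Category.assoc, ← Functor.map_comp, hir, CategoryTheory.Functor.map_id,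
            Category.id_comp]
        rw [h2, h1, comp_zero]
    have hPG : ∀ j, P (G j) := by
      intro j n f
      obtain ⟨j', ⟨i⟩⟩ := hshift j n
      have h1 := hf j' (i.inv ≫ f)
      have h2 : f = i.hom ≫ i.inv ≫ f := by simp
      rw [h2, h1, comp_zero]
    have h3 := hX P hP hPG 0 ((shiftFunctorZero T ℤ).hom.app X)
    rw [IsZero.iff_id_eq_zero]
    have h4 : 𝟙 X = (shiftFunctorZero T ℤ).inv.app X ≫ (shiftFunctorZero T ℤ).hom.app X := by
      simp
    rw [h4, h3, comp_zero]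
  -- a map between representing objects is an isomorphism
  have key : ∀ (E' : T) (e' : H.obj E') (k : E ⟶ E'), H.map k e' = e →
      (∀ P : ObjectProperty T, IsLocalizing P → (∀ j, P (G j)) → P E') →
      (∀ j, Function.Bijective (fun g : G j ⟶ E' => H.map g e')) → IsIso k := by
    intro E' e' k hk hE'loc hE'
    have hbij : ∀ j, Function.Bijective (fun g : G j ⟶ E => g ≫ k) := by
      intro j
      have h1 : (fun g : G j ⟶ E => H.map g e) =
          (fun g : G j ⟶ E' => H.map g e') ∘ (fun g : G j ⟶ E => g ≫ k) := by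
        funext g
        simp only [Function.comp]
        rw [H.map_comp, hk]
      have h2 := hE j
      rw [h1] at h2
      exact (Function.Bijective.of_comp_iff' (hE' j) _).1 h2
    obtain ⟨C, p, q, hd⟩ := exists_tri k
    have hC : IsZero C := by
      apply hgen C (fun P hP hPG => hP.ext₃ _ hd (hEloc' P hP hPG) (hE'loc P hP hPG))
      intro j f
      -- `f ≫ q = 0`
      have hbij' : ∀ j (g : G j ⟶ E⟦(1 : ℤ)⟧), g ≫ k⟦(1 : ℤ)⟧' = 0 → g = 0 := by
        intro j g hg
        obtain ⟨j', ⟨i⟩⟩ := hshift j (-1)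
        let l : (G j)⟦(-1 : ℤ)⟧⟦(1 : ℤ)⟧ ≅ G j := (shiftEquiv T (1 : ℤ)).counitIso.app (G j)
        let g' : (G j)⟦(-1 : ℤ)⟧ ⟶ E := (shiftFunctor T (1 : ℤ)).preimage (l.hom ≫ g)
        have hg' : g'⟦(1 : ℤ)⟧' = l.hom ≫ g := Functor.map_preimage _ _
        have h3 : g' ≫ k = 0 := by
          apply (shiftFunctor T (1 : ℤ)).map_injective
          rw [Functor.map_comp, hg', Functor.map_zero, Category.assoc, hg, comp_zero]
        have h4 : i.inv ≫ g' = 0 := by
          apply (hbij j').1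
          show (i.inv ≫ g') ≫ k = 0 ≫ k
          rw [Category.assoc, h3, comp_zero, zero_comp]
        have h5 : g' = 0 := by
          rw [← cancel_epi i.inv, h4, comp_zero]
        have h6 : l.hom ≫ g = 0 := by rw [← hg', h5, Functor.map_zero]
        have h7 : g = l.inv ≫ l.hom ≫ g := by simp
        rw [h7, h6, comp_zero]
      have h8 : f ≫ q = 0 := by
        apply hbij'
        rw [Category.assoc, tri_hf hd, comp_zero]
      obtain ⟨m, hm⟩ := tri_lift₃ hd f h8
      obtain ⟨m', hm'⟩ := (hbij j).2 m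
      have hm'' : m' ≫ k = m := hm'
      rw [hm, ← hm'', Category.assoc, tri_fg hd, comp_zero]
    exact (Triangle.isZero₃_iff_isIso₁ _ hd).1 hC
  refine ⟨E, e, hEloc', fun X hX => ⟨?_, ?_⟩⟩
  · -- injectivity
    intro g g' hgg'
    have h4 : H.map (g - g') e = 0 := by
      rw [H.map_sub', sub_eq_zero]; exact hgg'
    obtain ⟨C, p, q, hd⟩ := exists_tri (g - g')
    obtain ⟨c, hc⟩ := H.exact _ hd e h4
    have hc : H.map p c = e := hc
    obtain ⟨E', e', k, hk, hE'loc, hE'⟩ := H.exists_brown_rel G hG C c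
    have h5 : IsIso (p ≫ k) := key E' e' (p ≫ k) (by rw [H.map_comp, hk, hc])
      (fun P hP hPG => hE'loc P hP hPG (hP.ext₃ _ hd (hX P hP hPG) (hEloc' P hP hPG))) hE'
    have h6 : (g - g') ≫ (p ≫ k) = 0 := by
      rw [← Category.assoc, tri_fg hd, zero_comp]
    have h7 : g - g' = 0 := by
      rw [← cancel_mono (p ≫ k), h6, zero_comp]
    exact sub_eq_zero.mp h7
  · -- surjectivity
    intro x
    let Z : ULift.{v} Bool → T := fun i => match i with
      | ⟨true⟩ => E
      | ⟨false⟩ => X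
    let z : ∀ i, H.obj (Z i) := fun i => match i with
      | ⟨true⟩ => e
      | ⟨false⟩ => x
    obtain ⟨s, hs⟩ := H.prod Z z
    let iE : E ⟶ ∐ Z := Sigma.ι Z ⟨true⟩
    let iX : X ⟶ ∐ Z := Sigma.ι Z ⟨false⟩
    have hsE : H.map iE s = e := hs ⟨true⟩
    have hsX : H.map iX s = x := hs ⟨false⟩
    obtain ⟨E', e', k, hk, hE'loc, hE'⟩ := H.exists_brown_rel G hG (∐ Z) s
    have h5 : IsIso (iE ≫ k) := key E' e' (iE ≫ k) (by rw [H.map_comp, hk, hsE])
      (fun P hP hPG => hE'loc P hP hPG (hP.coprod _ _ (fun i => match i with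
        | ⟨true⟩ => hEloc' P hP hPG
        | ⟨false⟩ => hX P hP hPG))) hE'
    have h8 : H.map (inv (iE ≫ k)) e = e' := by
      have h9 : H.map (iE ≫ k) e' = e := by rw [H.map_comp, hk, hsE]
      rw [← h9, ← H.map_comp, IsIso.inv_hom_id, H.map_id]
    refine ⟨iX ≫ k ≫ inv (iE ≫ k), ?_⟩
    show H.map (iX ≫ k ≫ inv (iE ≫ k)) e = x
    rw [H.map_comp, H.map_comp, h8, hk, hsX]

end Coh

end Brown

end MP40506
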