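import Pool.Agent.Work.MP_40506d_al.CX.KMon
import Pool.Agent.Work.MP_40506d_al.TT

/-!
# Compatibility of the shift with the symmetric monoidal structure

`RCG` only asks that every functor `X ⊗ -` is triangulated (with some commutation isomorphisms
with the shift). `TTCompat` asks in addition that these isomorphisms are natural in `X`, and
compatible with the unit, the associativity and the symmetry (with the usual sign), as in the
usual definitions of a tensor triangulated category.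
-/

open CategoryTheory CategoryTheory.Limits CategoryTheory.MonoidalCategory
  CategoryTheory.Pretriangulated

universe v u v' u'

set_option linter.unusedSectionVars false

namespace MP40506

section

variable (T : Type u) [Category.{v} T] [HasShift T ℤ] [Preadditive T]
  [MonoidalCategory T] [SymmetricCategory T] [∀ X : T, (tensorLeft X).CommShift ℤ]

variable {T} in
/-- the isomorphism `X ⊗ Y[n] ≅ (X ⊗ Y)[n]` -/
noncomputable def shR (X Y : T) (n : ℤ) : X ⊗ (Y⟦n⟧) ≅ (X ⊗ Y)⟦n⟧ :=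
  ((tensorLeft X).commShiftIso n).app Y

variable {T} in
/-- the isomorphism `X[n] ⊗ Y ≅ (X ⊗ Y)[n]` obtained from `shR` by the symmetry -/
noncomputable def shL (X Y : T) (n : ℤ) : (X⟦n⟧) ⊗ Y ≅ (X ⊗ Y)⟦n⟧ :=
  β_ _ _ ≪≫ shR Y X n ≪≫ (shiftFunctor T n).mapIso (β_ Y X)

/-- compatibility of the shift and the tensor product -/
structure TTCompat : Prop where
  nat : ∀ {X X' : T} (f : X ⟶ X') (Y : T) (n : ℤ),
    f ▷ (Y⟦n⟧) ≫ (shR X' Y n).hom = (shR X Y n).hom ≫ (f ▷ Y)⟦n⟧'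
  unit : ∀ (Y : T) (n : ℤ), (shR (𝟙_ T) Y n).hom ≫ (λ_ Y).hom⟦n⟧' = (λ_ (Y⟦n⟧)).hom
  assoc : ∀ (X Y Z : T) (n : ℤ),
    (shR (X ⊗ Y) Z n).hom ≫ (α_ X Y Z).hom⟦n⟧' =
      (α_ X Y (Z⟦n⟧)).hom ≫ X ◁ (shR Y Z n).hom ≫ (shR X (Y ⊗ Z) n).hom
  sign : ∀ (X Y : T),
    (shL X (Y⟦(1 : ℤ)⟧) 1).hom ≫ (shR X Y 1).hom⟦(1 : ℤ)⟧' =
      -((shR (X⟦(1 : ℤ)⟧) Y 1).hom ≫ (shL X Y 1).hom⟦(1 : ℤ)⟧')

end

namespace CX

variable {A : Type u} [Category.{v} A] [Preadditive A] [Two A] [MonoidalCategory A]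
  [MonoidalPreadditive A] [SymmetricCategory A]

theorem ttCompat_KC : TTCompat (KC A) where
  nat {X X'} f Y n := by
    show f ▷ Y ≫ 𝟙 (X' ⊗ Y) = 𝟙 (X ⊗ Y) ≫ f ▷ Y
    rw [Category.comp_id, Category.id_comp]
  unit Y n := by
    show 𝟙 (𝟙_ (KC A) ⊗ Y) ≫ (λ_ Y).hom = (λ_ Y).hom
    rw [Category.id_comp]
  assoc X Y Z n := by
    show 𝟙 ((X ⊗ Y) ⊗ Z) ≫ (α_ X Y Z).hom = (α_ X Y Z).hom ≫ X ◁ 𝟙 (Y ⊗ Z) ≫ 𝟙 (X ⊗ (Y ⊗ Z))
    rw [Category.id_comp, MonoidalCategory.whiskerLeft_id, Category.comp_id, Category.comp_id]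
  sign X Y := by
    rw [neg_eq]
    show ((β_ X Y).hom ≫ 𝟙 (Y ⊗ X) ≫ (β_ Y X).hom) ≫ 𝟙 (X ⊗ Y) =
      𝟙 (X ⊗ Y) ≫ ((β_ X Y).hom ≫ 𝟙 (Y ⊗ X) ≫ (β_ Y X).hom)
    rw [Category.comp_id, Category.id_comp, Category.id_comp]

end CX

end MP40506
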