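import Pool.Agent.Work.MP_40506d_al.TT

/-!
# The localizing subcategory generated by compact rigid objects is rigidly-compactly generated
-/

open CategoryTheory CategoryTheory.Limits CategoryTheory.MonoidalCategory
  CategoryTheory.Pretriangulated

universe v u u'

set_option linter.unusedSectionVars false

namespace MP40506

/-- `D` is a tensor triangulated category with small coproducts: the tensor product is
exact and preserves small coproducts. -/
class TTC (D : Type u) [Category.{v} D] [HasZeroObject D] [HasShift D ℤ] [Preadditive D]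
    [∀ n : ℤ, (shiftFunctor D n).Additive] [Pretriangulated D] [MonoidalCategory D]
    [HasCoproducts.{v} D] where
  [commShift : ∀ X : D, (tensorLeft X).CommShift ℤ]
  [triangulated : ∀ X : D, (tensorLeft X).IsTriangulated]
  [coprod : ∀ (X : D) (J : Type v), PreservesColimitsOfShape (Discrete J) (tensorLeft X)]

attribute [instance_reducible] TTC.commShift
attribute [instance] TTC.commShift TTC.triangulated TTC.coprod

section Gen

variable {T : Type u} [Category.{v} T] [HasZeroObject T] [HasShift T ℤ] [Preadditive T]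
  [∀ n : ℤ, (shiftFunctor T n).Additive] [Pretriangulated T] [HasCoproducts.{v} T]

/-- the objects without maps to `X` form a localizing subcategory -/
lemma isLocalizing_noMaps (X : T) :
    IsLocalizing (fun Y : T => ∀ (n : ℤ) (f : Y⟦n⟧ ⟶ X), f = 0) := by
  refine ⟨?_, ?_, ?_, ?_⟩
  · intro Y m hY n f
    have h1 := hY (m + n) ((shiftFunctorAdd T m n).hom.app Y ≫ f)
    have h2 : f = (shiftFunctorAdd T m n).inv.app Y ≫ (shiftFunctorAdd T m n).hom.app Y ≫ f := by
      simp
    rw [h2, h1, comp_zero]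
  · intro Δ hΔ h1 h3 n f
    have hΔ' := Triangle.shift_distinguished Δ hΔ n
    obtain ⟨g, hg⟩ := Triangle.yoneda_exact₂ _ hΔ' f (h1 n _)
    rw [hg]
    have : g = 0 := h3 n g
    rw [this]
    exact comp_zero
  · intro K Y hY n f
    have h1 : (PreservesCoproduct.iso (shiftFunctor T n) Y).inv ≫ f = 0 := by
      apply Limits.Sigma.hom_ext
      intro k
      rw [comp_zero]
      exact hY k n _
    have h2 : f = (PreservesCoproduct.iso (shiftFunctor T n) Y).hom ≫
        (PreservesCoproduct.iso (shiftFunctor T n) Y).inv ≫ f :=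
      (Iso.hom_inv_id_assoc _ f).symm
    rw [h2, h1, comp_zero]
  · intro Y Z i r hir hZ n f
    have h1 := hZ n (r⟦n⟧' ≫ f)
    have h2 : f = i⟦n⟧' ≫ r⟦n⟧' ≫ f := by
      rw [← Category.assoc, ← Functor.map_comp, hir, CategoryTheory.Functor.map_id,
        Category.id_comp]
    rw [h2, h1, comp_zero]

/-- idempotents split in a compactly generated triangulated category -/
lemma split_idem (hgen : ∀ X : T, (∀ c, IsCpt c → ∀ f : c ⟶ X, f = 0) → IsZero X)
    {d : T} (e : d ⟶ d) (he : e ≫ e = e) :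
    ∃ (E : T) (p : d ⟶ E) (k : E ⟶ d), p ≫ k = e ∧ k ≫ p = 𝟙 E := by
  -- an idempotent killing the maps from the compact objects vanishes
  have key : ∀ (X : T) (π : X ⟶ X), π ≫ π = π →
      (∀ c, IsCpt c → ∀ f : c ⟶ X, f ≫ π = 0) → π = 0 := by
    intro X π hπ hf
    obtain ⟨F, ι, h1, h2, h3, -⟩ := exists_hocolim (fun _ => X) (fun _ => π)
    obtain ⟨k, hk⟩ := h2 X (fun _ => π) (fun _ => hπ)
    have hF : IsZero F := by
      apply hgen
      intro c hc f
      obtain ⟨n, g, hg⟩ := h3 c hc f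
      rw [hg, ← h1 n, ← Category.assoc, hf c hc g, zero_comp]
    have h4 : ι 0 = 0 := hF.eq_of_tgt _ _
    rw [← hk 0, h4, zero_comp]
  obtain ⟨E, ι, h1, h2, h3, -⟩ := exists_hocolim (fun _ => d) (fun _ => e)
  obtain ⟨k, hk⟩ := h2 d (fun _ => e) (fun _ => he)
  have h5 : ∀ n, e ≫ ι n = ι n := by
    intro n
    rw [← h1 n, ← Category.assoc, he]
  have h6 : ∀ n, ι n = ι 0 := by
    intro n
    induction n with
    | zero => rfl
    | succ n ih => rw [← ih, ← h1 n, h5]
  refine ⟨E, ι 0, k, hk 0, ?_⟩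
  have h7 : 𝟙 E - k ≫ ι 0 = 0 := by
    apply key
    · have h8 : (k ≫ ι 0) ≫ (k ≫ ι 0) = k ≫ ι 0 := by
        rw [Category.assoc, ← Category.assoc (ι 0) k, hk 0, h5]
      simp only [Preadditive.sub_comp, Preadditive.comp_sub, Category.id_comp,
        Category.comp_id, h8, sub_self, sub_zero]
    · intro c hc f
      obtain ⟨n, g, hg⟩ := h3 c hc f
      rw [hg, h6 n, Category.assoc, Preadditive.comp_sub, Category.comp_id,
        ← Category.assoc (ι 0) k, hk 0, h5, sub_self, comp_zero]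
  exact (sub_eq_zero.1 h7).symm

/-- A class of compact objects closed under shifts and extensions. -/
structure IsExtClass (C : ObjectProperty T) : Prop where
  cpt : ∀ X, C X → IsCpt X
  zero : ∀ X, IsZero X → C X
  shift : ∀ (X : T) (n : ℤ), C X → C (X⟦n⟧)
  ext₂ : ∀ Δ : Triangle T, Δ ∈ distTriang T → C Δ.obj₁ → C Δ.obj₃ → C Δ.obj₂

lemma isExtClass_cpt : IsExtClass (fun X : T => IsCpt X) where
  cpt := fun _ h => h
  zero := fun _ h => isCpt_of_isZero h
  shift := fun _ n h => h.shift n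
  ext₂ := fun Δ hΔ h1 h3 => IsCpt.ext₂ Δ hΔ h1 h3

lemma IsExtClass.ext₁ {C : ObjectProperty T} (hC : IsExtClass C) (Δ : Triangle T)
    (hΔ : Δ ∈ distTriang T) (h2 : C Δ.obj₂) (h3 : C Δ.obj₃) : C Δ.obj₁ :=
  hC.ext₂ _ (inv_rot_of_distTriang _ hΔ) (hC.shift _ _ h3) h2

lemma IsExtClass.biprod {C : ObjectProperty T} (hC : IsExtClass C) {a b : T} (ha : C a)
    (hb : C b) : C (a ⊞ b) :=
  hC.ext₂ _ (binaryBiproductTriangle_distinguished a b) ha hb

/-- every map from a compact object to `y` factors through an object of `C` -/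
def Fac (C : ObjectProperty T) (y : T) : Prop :=
  ∀ c : T, IsCpt c → ∀ x : c ⟶ y, ∃ d : T, C d ∧ ∃ (u : c ⟶ d) (w : d ⟶ y), x = u ≫ w

lemma fac_ext [IsTriangulated T] {C : ObjectProperty T} (hC : IsExtClass C) {y1 y2 y3 : T}
    {f : y1 ⟶ y2} {g : y2 ⟶ y3} {h : y3 ⟶ y1⟦(1 : ℤ)⟧} (hd : Triangle.mk f g h ∈ distTriang T)
    (h1 : Fac C y1) (h3 : Fac C y3) : Fac C y2 := by
  intro c hc x
  obtain ⟨d3, hd3, u3, w3, hx3⟩ := h3 c hc (x ≫ g)
  obtain ⟨c', i, r, htri⟩ := distinguished_cocone_triangle₁ u3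
  have hc' : IsCpt c' := isExtClass_cpt.ext₁ _ htri hc (hC.cpt _ hd3)
  have hi : i ≫ u3 = 0 := tri_fg htri
  have hix : (i ≫ x) ≫ g = 0 := by
    rw [Category.assoc, hx3, ← Category.assoc, hi, zero_comp]
  obtain ⟨k, hk⟩ := tri_lift hd (i ≫ x) hix
  obtain ⟨d1, hd1, u1, w1, hk1⟩ := h1 c' hc' k
  let s : c' ⟶ d1 ⊞ c := biprod.lift (-u1) i
  obtain ⟨d, p, q, hs⟩ := exists_tri s
  have hsnd : Triangle.mk (biprod.snd : d1 ⊞ c ⟶ c) (0 : c ⟶ d1⟦(1 : ℤ)⟧)
      (-(biprod.inl : d1 ⟶ d1 ⊞ c)⟦(1 : ℤ)⟧') ∈ distTriang T :=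
    rot_of_distTriang _ (binaryBiproductTriangle_distinguished d1 c)
  have hcomm : s ≫ (biprod.snd : d1 ⊞ c ⟶ c) = i := by simp [s]
  have oct := Triangulated.someOctahedron hcomm hs hsnd htri
  have hCd : C d := by
    have h5 := oct.mem
    exact hC.ext₁ _ h5 hd3 (hC.shift _ _ hd1)
  have h6 : s ≫ biprod.desc (w1 ≫ f) x = 0 := by
    simp only [s, biprod.lift_desc, Preadditive.neg_comp]
    rw [hk, hk1, Category.assoc, neg_add_cancel]
  obtain ⟨m, hm⟩ := tri_desc hs _ h6
  refine ⟨d, hCd, biprod.inr ≫ p, m, ?_⟩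
  rw [Category.assoc, ← hm]
  simp

lemma isLocalizing_fac [IsTriangulated T] {C : ObjectProperty T} (hC : IsExtClass C) :
    IsLocalizing (Fac C) where
  shift := by
    intro X n h c hc x
    let e : (c⟦-n⟧)⟦n⟧ ≅ c := (shiftEquiv T n).counitIso.app c
    obtain ⟨d, hd, u1, w1, h1⟩ := h (c⟦-n⟧) (hc.shift _)
      ((shiftFunctor T n).preimage (e.hom ≫ x))
    refine ⟨d⟦n⟧, hC.shift _ _ hd, e.inv ≫ u1⟦n⟧', w1⟦n⟧', ?_⟩
    rw [Category.assoc, ← Functor.map_comp, ← h1, Functor.map_preimage]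
    simp
  ext₂ := fun Δ hΔ h1 h3 => fac_ext hC hΔ h1 h3
  coprod := by
    intro J Y h c hc x
    obtain ⟨s, g, hg⟩ := hc J Y x
    rw [hg]
    clear hg
    induction s using Finset.cons_induction with
    | empty =>
      obtain ⟨z, hz⟩ := HasZeroObject.zero (C := T)
      exact ⟨z, hC.zero _ hz, 0, 0, by simp⟩
    | cons a s ha ih =>
      obtain ⟨d, hd, u1, w1, h1⟩ := ih
      obtain ⟨d', hd', u2, w2, h2⟩ := h a c hc (g a)
      rw [Finset.sum_cons, h1, h2]
      refine ⟨d' ⊞ d, hC.biprod hd' hd, biprod.lift u2 u1,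
        biprod.desc (w2 ≫ Sigma.ι Y a) w1, ?_⟩
      simp
  retract := by
    intro X Y i r hir h c hc x
    obtain ⟨d, hd, u1, w1, h1⟩ := h c hc (x ≫ i)
    refine ⟨d, hd, u1, w1 ≫ r, ?_⟩
    rw [← Category.assoc, ← h1, Category.assoc, hir, Category.comp_id]

/-- the compact objects are the retracts of the objects of a generating class -/
lemma exists_retract [IsTriangulated T] {C : ObjectProperty T} (hC : IsExtClass C)
    (htop : ∀ P : ObjectProperty T, IsLocalizing P → (∀ c, C c → P c) → ∀ X, P X)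
    {c : T} (hc : IsCpt c) : ∃ d, C d ∧ ∃ (i : c ⟶ d) (r : d ⟶ c), i ≫ r = 𝟙 c := by
  obtain ⟨d, hd, u, w, h⟩ := htop _ (isLocalizing_fac hC)
    (fun d hd c _ x => ⟨d, hd, x, 𝟙 _, by simp⟩) c c hc (𝟙 c)
  exact ⟨d, hd, u, w, h.symm⟩

end Gen

section Rigid

variable {T : Type u} [Category.{v} T] [MonoidalCategory T]

/-- a retract of a rigid object is rigid, if idempotents split -/
lemma rigid_retract (hsplit : ∀ (d : T) (e : d ⟶ d), e ≫ e = e →
      ∃ (E : T) (p : d ⟶ E) (k : E ⟶ d), p ≫ k = e ∧ k ≫ p = 𝟙 E)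
    {c d d' : T} [h : ExactPairing d d'] (i : c ⟶ d) (r : d ⟶ c) (hir : i ≫ r = 𝟙 c) :
    ∃ c' : T, Nonempty (ExactPairing c c') := by
  let : HasRightDual d := ⟨d'⟩
  let u : d ⟶ d := r ≫ i
  have hu : u ≫ u = u := by
    simp only [u, Category.assoc]
    rw [← Category.assoc i r, hir, Category.id_comp]
  let w : d' ⟶ d' := rightAdjointMate u
  have hw : w ≫ w = w := by
    have := comp_rightAdjointMate (f := u) (g := u)
    rw [hu] at this
    exact this.symm
  obtain ⟨c', p, k, hpk, hkp⟩ := hsplit d' w hw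
  have hη : η_ d d' ≫ (d ◁ w) = η_ d d' ≫ (u ▷ d') := coevaluation_comp_rightAdjointMate u
  have hε : (w ▷ d) ≫ ε_ d d' = (d' ◁ u) ≫ ε_ d d' := rightAdjointMate_comp_evaluation u
  have hiu : i ≫ u = i := by
    simp only [u]
    rw [← Category.assoc, hir, Category.id_comp]
  have hwp : w ≫ p = p := by
    rw [← hpk, Category.assoc, hkp, Category.comp_id]
  have e1 : c' ◁ (η_ d d' ≫ r ▷ d' ≫ c ◁ p) ≫ (α_ c' c c').inv ≫
      (k ▷ c ≫ d' ◁ i ≫ ε_ d d') ▷ c' = (ρ_ c').hom ≫ (λ_ c').inv := by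
    have h1 : (η_ d d' ≫ r ▷ d' ≫ c ◁ p) ≫ i ▷ c' = η_ d d' ≫ d ◁ p := by
      rw [Category.assoc, Category.assoc, whisker_exchange, ← comp_whiskerRight_assoc]
      have h2 : η_ d d' ≫ (r ≫ i) ▷ d' ≫ d ◁ p = (η_ d d' ≫ u ▷ d') ≫ d ◁ p := by
        rw [Category.assoc]
      rw [h2, ← hη, Category.assoc, ← MonoidalCategory.whiskerLeft_comp, hwp]
    calc c' ◁ (η_ d d' ≫ r ▷ d' ≫ c ◁ p) ≫ (α_ c' c c').inv ≫
        (k ▷ c ≫ d' ◁ i ≫ ε_ d d') ▷ c'
        = c' ◁ (η_ d d' ≫ r ▷ d' ≫ c ◁ p) ≫ (α_ c' c c').inv ≫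
          (c' ◁ i ≫ k ▷ d ≫ ε_ d d') ▷ c' := by
          rw [← whisker_exchange_assoc]
      _ = c' ◁ ((η_ d d' ≫ r ▷ d' ≫ c ◁ p) ≫ i ▷ c') ≫ (α_ c' d c').inv ≫
          (k ▷ d ≫ ε_ d d') ▷ c' := by
          simp only [comp_whiskerRight, MonoidalCategory.whiskerLeft_comp, Category.assoc,
            associator_inv_naturality_middle_assoc]
      _ = c' ◁ (η_ d d' ≫ d ◁ p) ≫ (α_ c' d c').inv ≫ (k ▷ d ≫ ε_ d d') ▷ c' := by
          rw [h1]
      _ = k ▷ 𝟙_ T ≫ (d' ◁ η_ d d' ≫ (α_ d' d d').inv ≫ ε_ d d' ▷ d') ≫ 𝟙_ T ◁ p := by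
          simp only [comp_whiskerRight, MonoidalCategory.whiskerLeft_comp, Category.assoc]
          rw [associator_inv_naturality_right_assoc, whisker_exchange_assoc, whisker_exchange,
            ← associator_inv_naturality_left_assoc, whisker_exchange_assoc]
      _ = (ρ_ c').hom ≫ (λ_ c').inv := by
          rw [ExactPairing.coevaluation_evaluation, Category.assoc, rightUnitor_naturality_assoc,
            ← leftUnitor_inv_naturality, ← Category.assoc k, hkp, Category.id_comp]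
  have e2 : (η_ d d' ≫ r ▷ d' ≫ c ◁ p) ▷ c ≫ (α_ c c' c).hom ≫
      c ◁ (k ▷ c ≫ d' ◁ i ≫ ε_ d d') = (λ_ c).hom ≫ (ρ_ c).inv := by
    have h1 : p ▷ c ≫ k ▷ c ≫ d' ◁ i ≫ ε_ d d' = d' ◁ i ≫ ε_ d d' := by
      rw [← comp_whiskerRight_assoc, hpk, ← whisker_exchange_assoc, hε,
        ← MonoidalCategory.whiskerLeft_comp_assoc, hiu]
    calc (η_ d d' ≫ r ▷ d' ≫ c ◁ p) ▷ c ≫ (α_ c c' c).hom ≫
        c ◁ (k ▷ c ≫ d' ◁ i ≫ ε_ d d')
        = (η_ d d' ≫ r ▷ d') ▷ c ≫ (α_ c d' c).hom ≫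
          c ◁ (p ▷ c ≫ k ▷ c ≫ d' ◁ i ≫ ε_ d d') := by
          simp only [comp_whiskerRight, MonoidalCategory.whiskerLeft_comp, Category.assoc,
            associator_naturality_middle_assoc]
      _ = (η_ d d' ≫ r ▷ d') ▷ c ≫ (α_ c d' c).hom ≫ c ◁ (d' ◁ i ≫ ε_ d d') := by
          rw [h1]
      _ = 𝟙_ T ◁ i ≫ (η_ d d' ▷ d ≫ (α_ d d' d).hom ≫ d ◁ ε_ d d') ≫ r ▷ 𝟙_ T := by
          simp only [comp_whiskerRight, MonoidalCategory.whiskerLeft_comp, Category.assoc]
          rw [associator_naturality_left_assoc, ← whisker_exchange_assoc,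
            ← whisker_exchange, ← associator_naturality_right_assoc, ← whisker_exchange_assoc]
      _ = (λ_ c).hom ≫ (ρ_ c).inv := by
          rw [ExactPairing.evaluation_coevaluation, Category.assoc, leftUnitor_naturality_assoc,
            ← rightUnitor_inv_naturality, ← Category.assoc i, hir, Category.id_comp]
  exact ⟨c', ⟨{ coevaluation' := η_ d d' ≫ r ▷ d' ≫ c ◁ p
                evaluation' := k ▷ c ≫ d' ◁ i ≫ ε_ d d'
                coevaluation_evaluation' := e1
                evaluation_coevaluation' := e2 }⟩⟩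

end Rigid

section RigidCpt

variable {T : Type u} [Category.{v} T] [HasZeroObject T] [HasShift T ℤ] [Preadditive T]
  [∀ n : ℤ, (shiftFunctor T n).Additive] [Pretriangulated T] [MonoidalCategory T]
  [SymmetricCategory T] [MonoidalPreadditive T] [HasCoproducts.{v} T]
  [∀ (X : T) (J : Type v), PreservesColimitsOfShape (Discrete J) (tensorLeft X)]

/-- rigid objects are compact if the unit is compact -/
lemma isCpt_of_rigid (h1 : IsCpt (𝟙_ T)) {c d : T} (h : ExactPairing c d) : IsCpt c := by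
  let h' : ExactPairing d c := BraidedCategory.exactPairing_swap c d
  intro J Y f
  let e : d ⊗ (∐ Y) ≅ ∐ (fun j => d ⊗ Y j) := PreservesCoproduct.iso (tensorLeft d) Y
  have he : ∀ j, Sigma.ι (fun j => d ⊗ Y j) j ≫ e.inv = d ◁ Sigma.ι Y j :=
    fun j => ι_comp_sigmaComparison (tensorLeft d) Y j
  obtain ⟨s, g, hg⟩ := h1 J (fun j => d ⊗ Y j) (η_ d c ≫ d ◁ f ≫ e.hom)
  have hg' : η_ d c ≫ d ◁ f = ∑ j ∈ s, g j ≫ d ◁ Sigma.ι Y j := by
    have h2 : η_ d c ≫ d ◁ f = (η_ d c ≫ d ◁ f ≫ e.hom) ≫ e.inv := by simp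
    rw [h2, hg, Preadditive.sum_comp]
    apply Finset.sum_congr rfl
    intro j _
    rw [Category.assoc, he]
  have hf : f = (ρ_ c).inv ≫ c ◁ (η_ d c ≫ d ◁ f) ≫ (α_ _ _ _).inv ≫ ε_ d c ▷ (∐ Y) ≫
      (λ_ _).hom := by
    have h3 : c ◁ (η_ d c ≫ d ◁ f) ≫ (α_ c d (∐ Y)).inv ≫ ε_ d c ▷ (∐ Y) =
        (c ◁ η_ d c ≫ (α_ c d c).inv ≫ ε_ d c ▷ c) ≫ 𝟙_ T ◁ f := by
      rw [MonoidalCategory.whiskerLeft_comp, Category.assoc,
        associator_inv_naturality_right_assoc, whisker_exchange]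
      simp only [Category.assoc]
    have h4 : c ◁ (η_ d c ≫ d ◁ f) ≫ (α_ c d (∐ Y)).inv ≫ ε_ d c ▷ (∐ Y) ≫ (λ_ _).hom =
        (c ◁ (η_ d c ≫ d ◁ f) ≫ (α_ c d (∐ Y)).inv ≫ ε_ d c ▷ (∐ Y)) ≫ (λ_ _).hom := by
      simp only [Category.assoc]
    rw [h4, h3, ExactPairing.coevaluation_evaluation]
    simp
  refine ⟨s, fun j => (ρ_ c).inv ≫ c ◁ g j ≫ (α_ _ _ _).inv ≫ ε_ d c ▷ Y j ≫ (λ_ _).hom, ?_⟩
  rw [hf, hg', whiskerLeft_sum, Preadditive.sum_comp, Preadditive.comp_sum]
  apply Finset.sum_congr rfl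
  intro j _
  simp only [MonoidalCategory.whiskerLeft_comp, Category.assoc]
  rw [associator_inv_naturality_right_assoc, whisker_exchange_assoc, leftUnitor_naturality]

end RigidCpt

section Sub

variable {D : Type u} [Category.{v} D] [HasZeroObject D] [HasShift D ℤ] [Preadditive D]
  [∀ n : ℤ, (shiftFunctor D n).Additive] [Pretriangulated D]
  [HasCoproducts.{v} D]

/-- The localizing subcategory generated by a class of objects. -/
def locSub (C : ObjectProperty D) : ObjectProperty D :=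
  fun X => ∀ P : ObjectProperty D, IsLocalizing P → (∀ Y, C Y → P Y) → P X

lemma isLocalizing_locSub (C : ObjectProperty D) : IsLocalizing (locSub C) where
  shift := fun X n h P hP hS => hP.shift X n (h P hP hS)
  ext₂ := fun Δ hΔ h1 h3 P hP hS => hP.ext₂ Δ hΔ (h1 P hP hS) (h3 P hP hS)
  coprod := fun J Y h P hP hS => hP.coprod J Y (fun j => h j P hP hS)
  retract := fun X Y i r hir h P hP hS => hP.retract X Y i r hir (h P hP hS)

lemma subset_locSub (C : ObjectProperty D) (X : D) (h : C X) : locSub C X :=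
  fun _ _ hS => hS X h

instance (C : ObjectProperty D) : (locSub C).IsClosedUnderIsomorphisms where
  of_iso e h := (isLocalizing_locSub C).of_iso e.symm h

instance (C : ObjectProperty D) : (locSub C).IsTriangulated where
  exists_zero := by
    obtain ⟨z, hz⟩ := HasZeroObject.zero (C := D)
    exact ⟨z, hz, (isLocalizing_locSub C).of_isZero hz⟩
  isStableUnderShiftBy n := ⟨fun X hX => (isLocalizing_locSub C).shift X n hX⟩
  toIsTriangulatedClosed₂ := .mk' (fun Δ hΔ h1 h3 => (isLocalizing_locSub C).ext₂ Δ hΔ h1 h3)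

instance (C : ObjectProperty D) (J : Type v) :
    (locSub C).IsClosedUnderColimitsOfShape (Discrete J) :=
  ObjectProperty.IsClosedUnderColimitsOfShape.mk' (by
    rintro _ ⟨F, hF⟩
    let e : colimit F ≅ ∐ (fun j => F.obj ⟨j⟩) :=
      HasColimit.isoOfNatIso (Discrete.natIsoFunctor)
    exact (isLocalizing_locSub C).of_iso e
      ((isLocalizing_locSub C).coprod J _ (fun j => hF ⟨j⟩)))

/-- The full subcategory on the localizing subcategory generated by `C`. -/
abbrev LocCat (C : ObjectProperty D) : Type u := (locSub C).FullSubcategory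

section Transfer

variable {C : ObjectProperty D}

lemma loc_mk (X : LocCat C) : locSub C X.obj := X.2

/-- the coproduct in the subcategory is the coproduct in `D` -/
noncomputable def coprodIso {J : Type v} (Y : J → LocCat C) :
    (∐ Y).obj ≅ ∐ (fun j => (Y j).obj) := PreservesCoproduct.iso (locSub C).ι Y

lemma ι_coprodIso_inv {J : Type v} (Y : J → LocCat C) (j : J) :
    Sigma.ι (fun j => (Y j).obj) j ≫ (coprodIso Y).inv = (Sigma.ι Y j).hom :=
  ι_comp_sigmaComparison (locSub C).ι Y j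

lemma isCpt_of_obj {c : LocCat C} (hc : IsCpt c.obj) : IsCpt c := by
  intro J Y f
  obtain ⟨s, g, hg⟩ := hc J (fun j => (Y j).obj) (f.hom ≫ (coprodIso Y).hom)
  refine ⟨s, fun j => ObjectProperty.homMk (g j), ?_⟩
  apply (locSub C).ι.map_injective
  rw [Functor.map_sum]
  have h1 : (locSub C).ι.map f = (f.hom ≫ (coprodIso Y).hom) ≫ (coprodIso Y).inv := by
    rw [Category.assoc, Iso.hom_inv_id, Category.comp_id]; rfl
  rw [h1, hg, Preadditive.sum_comp]
  apply Finset.sum_congr rfl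
  intro j _
  rw [Category.assoc, ι_coprodIso_inv]
  rfl

/-- distinguished triangles lift from `D` -/
lemma exists_tri_of_obj {X Y Z : LocCat C} (f : X ⟶ Y) (g : Y ⟶ Z)
    (k' : Z.obj ⟶ X.obj⟦(1 : ℤ)⟧) (hΔ : Triangle.mk f.hom g.hom k' ∈ distTriang D) :
    ∃ k : Z ⟶ X⟦(1 : ℤ)⟧, Triangle.mk f g k ∈ distTriang (LocCat C) := by
  let k : Z ⟶ X⟦(1 : ℤ)⟧ := (locSub C).fullyFaithfulι.preimage
    (k' ≫ ((locSub C).ι.commShiftIso (1 : ℤ)).inv.app X)
  refine ⟨k, ?_⟩
  show (locSub C).ι.mapTriangle.obj (Triangle.mk f g k) ∈ distTriang D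
  refine isomorphic_distinguished _ hΔ _ (Triangle.isoMk _ _ (Iso.refl _) (Iso.refl _)
    (Iso.refl _) ?_ ?_ ?_)
  · exact (Category.comp_id _).trans (Category.id_comp _).symm
  · exact (Category.comp_id _).trans (Category.id_comp _).symm
  · have hk : (locSub C).ι.map k = k' ≫ ((locSub C).ι.commShiftIso (1 : ℤ)).inv.app X :=
      (locSub C).fullyFaithfulι.map_preimage _
    have h4 : ((locSub C).ι.commShiftIso (1 : ℤ)).inv.app X ≫
        ((locSub C).ι.commShiftIso (1 : ℤ)).hom.app X = 𝟙 _ :=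
      Iso.inv_hom_id_app _ _
    have h5 : (k' ≫ ((locSub C).ι.commShiftIso (1 : ℤ)).inv.app X) ≫
        ((locSub C).ι.commShiftIso (1 : ℤ)).hom.app X = k' := by
      rw [Category.assoc, h4]; exact Category.comp_id _
    have h6 : (shiftFunctor D (1 : ℤ)).map (𝟙 X.obj) = 𝟙 (X.obj⟦(1 : ℤ)⟧) :=
      CategoryTheory.Functor.map_id _ _
    have h7 : (locSub C).ι.map k ≫ ((locSub C).ι.commShiftIso (1 : ℤ)).hom.app X = k' := by
      rw [hk]; exact h5
    exact ((congrArg₂ (fun a b => a ≫ b) h7 h6).trans (Category.comp_id _)).trans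
      (Category.id_comp _).symm

/-- the objects of `C` generate the localizing subcategory -/
lemma loc_top {P : ObjectProperty (LocCat C)} (hP : IsLocalizing P)
    (h : ∀ c : LocCat C, C c.obj → P c) (X : LocCat C) : P X := by
  let Q : ObjectProperty D := fun Y => ∃ hY : locSub C Y, P ⟨Y, hY⟩
  have hQ : IsLocalizing Q := by
    refine ⟨?_, ?_, ?_, ?_⟩
    · rintro Y n ⟨hY, hPY⟩
      refine ⟨(isLocalizing_locSub C).shift Y n hY, ?_⟩
      let e : (⟨Y⟦n⟧, (isLocalizing_locSub C).shift Y n hY⟩ : LocCat C) ≅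
          (⟨Y, hY⟩ : LocCat C)⟦n⟧ :=
        (locSub C).fullyFaithfulι.preimageIso
          (((locSub C).ι.commShiftIso n).app (⟨Y, hY⟩ : LocCat C)).symm
      exact hP.of_iso e (hP.shift _ n hPY)
    · rintro Δ hΔ ⟨h1, hP1⟩ ⟨h3, hP3⟩
      have h2 : locSub C Δ.obj₂ := (isLocalizing_locSub C).ext₂ Δ hΔ h1 h3
      refine ⟨h2, ?_⟩
      let X1 : LocCat C := ⟨Δ.obj₁, h1⟩
      let X2 : LocCat C := ⟨Δ.obj₂, h2⟩
      let X3 : LocCat C := ⟨Δ.obj₃, h3⟩
      let f : X1 ⟶ X2 := ObjectProperty.homMk Δ.mor₁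
      let g : X2 ⟶ X3 := ObjectProperty.homMk Δ.mor₂
      obtain ⟨k, hd⟩ := exists_tri_of_obj f g Δ.mor₃ hΔ
      exact hP.ext₂ _ hd hP1 hP3
    · intro J Y hY
      refine ⟨(isLocalizing_locSub C).coprod J Y (fun j => (hY j).1), ?_⟩
      let Y' : J → LocCat C := fun j => ⟨Y j, (hY j).1⟩
      let e : (⟨∐ Y, (isLocalizing_locSub C).coprod J Y (fun j => (hY j).1)⟩ : LocCat C) ≅
          ∐ Y' := (locSub C).fullyFaithfulι.preimageIso (coprodIso Y').symm
      exact hP.of_iso e (hP.coprod J Y' (fun j => (hY j).2))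
    · rintro Y Z i r hir ⟨hZ, hPZ⟩
      refine ⟨(isLocalizing_locSub C).retract Y Z i r hir hZ, ?_⟩
      refine hP.retract _ (⟨Z, hZ⟩ : LocCat C) (ObjectProperty.homMk i)
        (ObjectProperty.homMk r) ?_ hPZ
      apply (locSub C).ι.map_injective
      exact hir
  obtain ⟨h1, h2⟩ := X.2 Q hQ (fun c hc =>
    ⟨subset_locSub C c hc, h ⟨c, subset_locSub C c hc⟩ hc⟩)
  exact h2

end Transfer

section inst

variable (C : ObjectProperty D)

noncomputable example : HasShift (LocCat C) ℤ := inferInstance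
noncomputable example : HasZeroObject (LocCat C) := inferInstance
noncomputable example : Preadditive (LocCat C) := inferInstance
noncomputable example (n : ℤ) : (shiftFunctor (LocCat C) n).Additive := inferInstance
noncomputable example : Pretriangulated (LocCat C) := inferInstance
noncomputable example [IsTriangulated D] : IsTriangulated (LocCat C) := inferInstance
noncomputable example : HasCoproducts.{v} (LocCat C) := fun _ => inferInstance

end inst

end Sub

section Mon

variable {D : Type u} [Category.{v} D] [HasZeroObject D] [HasShift D ℤ] [Preadditive D]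
  [∀ n : ℤ, (shiftFunctor D n).Additive] [Pretriangulated D] [MonoidalCategory D]
  [SymmetricCategory D] [MonoidalPreadditive D] [HasCoproducts.{v} D] [TTC D]

lemma IsLocalizing.comap' {P : ObjectProperty D} (hP : IsLocalizing P) (A : D) :
    IsLocalizing (fun X => P (A ⊗ X)) where
  shift := fun X n h => hP.of_iso (((tensorLeft A).commShiftIso n).app X) (hP.shift _ n h)
  ext₂ := fun Δ hΔ h1 h3 => hP.ext₂ _ ((tensorLeft A).map_distinguished _ hΔ) h1 h3
  coprod := fun J Y h => hP.of_iso (PreservesCoproduct.iso (tensorLeft A) Y) (hP.coprod J _ h)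
  retract := fun X Y i r hir h => by
    refine hP.retract _ _ (A ◁ i) (A ◁ r) ?_ h
    rw [← MonoidalCategory.whiskerLeft_comp, hir, MonoidalCategory.whiskerLeft_id]

/-- A class of compact and rigid objects, closed under extensions and tensor products. -/
class RigidGen (C : ObjectProperty D) : Prop where
  small : ∃ (J : Type v) (G : J → D), ∀ c, C c → ∃ j, Nonempty (c ≅ G j)
  cpt : ∀ c, C c → IsCpt c
  unit : C (𝟙_ D)
  zero : ∀ c, IsZero c → C c
  shift : ∀ (c : D) (n : ℤ), C c → C (c⟦n⟧)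
  ext₂ : ∀ Δ : Triangle D, Δ ∈ distTriang D → C Δ.obj₁ → C Δ.obj₃ → C Δ.obj₂
  tensor : ∀ c d, C c → C d → C (c ⊗ d)
  dual : ∀ c, C c → ∃ d, C d ∧ Nonempty (ExactPairing c d)

variable (C : ObjectProperty D) [RigidGen C]

lemma locSub_tensor {X Y : D} (hX : locSub C X) (hY : locSub C Y) : locSub C (X ⊗ Y) := by
  have h1 : ∀ c, C c → ∀ Z, locSub C Z → locSub C (c ⊗ Z) := fun c hc Z hZ =>
    hZ _ ((isLocalizing_locSub C).comap' c)
      (fun d hd => subset_locSub C _ (RigidGen.tensor c d hc hd))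
  have h2 : locSub C (Y ⊗ X) := hX _ ((isLocalizing_locSub C).comap' Y)
    (fun c hc => (isLocalizing_locSub C).of_iso (β_ Y c) (h1 c hc Y hY))
  exact (isLocalizing_locSub C).of_iso (β_ X Y) h2

instance : (locSub C).IsMonoidal where
  prop_unit := subset_locSub C _ RigidGen.unit
  prop_tensor _ _ h1 h2 := locSub_tensor C h1 h2

noncomputable example : MonoidalCategory (LocCat C) := inferInstance
noncomputable example : SymmetricCategory (LocCat C) := inferInstance
noncomputable example : MonoidalPreadditive (LocCat C) := inferInstance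

noncomputable def tensorLeftLift (X : LocCat C) : LocCat C ⥤ LocCat C :=
  (locSub C).lift ((locSub C).ι ⋙ tensorLeft X.obj) (fun Y => locSub_tensor C X.2 Y.2)

noncomputable instance (X : LocCat C) : (tensorLeft X).CommShift ℤ :=
  inferInstanceAs (((locSub C).lift ((locSub C).ι ⋙ tensorLeft X.obj)
    (fun Y => locSub_tensor C X.2 Y.2)).CommShift ℤ)

noncomputable instance (X : LocCat C) : (tensorLeft X).IsTriangulated :=
  inferInstanceAs (((locSub C).lift ((locSub C).ι ⋙ tensorLeft X.obj)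
    (fun Y => locSub_tensor C X.2 Y.2)).IsTriangulated)

instance (X : LocCat C) (J : Type v) :
    PreservesColimitsOfShape (Discrete J) (tensorLeft X) := by
  have h1 : PreservesColimitsOfShape (Discrete J) (tensorLeft X ⋙ (locSub C).ι) :=
    inferInstanceAs (PreservesColimitsOfShape (Discrete J) ((locSub C).ι ⋙ tensorLeft X.obj))
  exact preservesColimitsOfShape_of_reflects_of_preserves (tensorLeft X) (locSub C).ι

/-- the objects of `C`, seen in the subcategory -/
def inC : ObjectProperty (LocCat C) := fun X => C X.obj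

lemma RigidGen.of_iso' {c d : D} (e : c ≅ d) (hd : C d) : C c := by
  let Δ := contractibleTriangle d
  have hΔ : Δ ∈ distTriang D := contractible_distinguished d
  have h : Triangle.mk (show Δ.obj₁ ⟶ c from e.inv) (e.hom ≫ Δ.mor₂) Δ.mor₃ ∈ distTriang D := by
    refine isomorphic_distinguished _ hΔ _ (Triangle.isoMk _ _ (Iso.refl _) e
      (Iso.refl _) ?_ ?_ ?_)
    · exact (e.inv_hom_id).trans (Category.id_comp _).symm
    · exact Category.comp_id _
    · have h6 : (shiftFunctor D (1 : ℤ)).map (𝟙 Δ.obj₁) = 𝟙 (Δ.obj₁⟦(1 : ℤ)⟧) :=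
        CategoryTheory.Functor.map_id _ _
      exact ((congrArg (fun b => Δ.mor₃ ≫ b) h6).trans (Category.comp_id _)).trans
        (Category.id_comp _).symm
  have hz : IsZero Δ.obj₃ := isZero_zero D
  exact RigidGen.ext₂ (C := C) _ h hd (RigidGen.zero _ hz)

lemma isExtClass_inC : IsExtClass (inC C) where
  cpt := fun X hX => isCpt_of_obj (RigidGen.cpt _ hX)
  zero := fun _ hX => RigidGen.zero (C := C) _ ((locSub C).ι.map_isZero hX)
  shift := fun X n hX => RigidGen.of_iso' C (((locSub C).ι.commShiftIso n).app X)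
    (RigidGen.shift (C := C) _ n hX)
  ext₂ := fun Δ hΔ h1 h3 =>
    RigidGen.ext₂ (C := C) _ ((locSub C).ι.map_distinguished Δ hΔ) h1 h3

/-- exact pairings in the subcategory -/
@[instance_reducible] def exactPairingMk {X Y : LocCat C} (h : ExactPairing X.obj Y.obj) : ExactPairing X Y where
  coevaluation' := ObjectProperty.homMk (η_ X.obj Y.obj)
  evaluation' := ObjectProperty.homMk (ε_ X.obj Y.obj)
  coevaluation_evaluation' := by
    apply (locSub C).ι.map_injective
    exact ExactPairing.coevaluation_evaluation X.obj Y.obj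
  evaluation_coevaluation' := by
    apply (locSub C).ι.map_injective
    exact ExactPairing.evaluation_coevaluation X.obj Y.obj

variable [IsTriangulated D]

lemma generates_locCat (X : LocCat C) (h : ∀ c : LocCat C, IsCpt c → ∀ f : c ⟶ X, f = 0) :
    IsZero X := by
  have h1 := loc_top (isLocalizing_noMaps X) (fun c hc n f =>
    h _ ((isExtClass_inC C).cpt _ ((isExtClass_inC C).shift c n hc)) f) X 0
    ((shiftFunctorZero (LocCat C) ℤ).hom.app X)
  rw [IsZero.iff_id_eq_zero]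
  have h4 : 𝟙 X = (shiftFunctorZero (LocCat C) ℤ).inv.app X ≫
      (shiftFunctorZero (LocCat C) ℤ).hom.app X := by simp
  rw [h4, h1, comp_zero]

lemma exists_retract_locCat {c : LocCat C} (hc : IsCpt c) :
    ∃ d : LocCat C, C d.obj ∧ ∃ (i : c ⟶ d) (r : d ⟶ c), i ≫ r = 𝟙 c :=
  exists_retract (isExtClass_inC C) (fun _ hP h X => loc_top hP h X) hc

/-- the commutation of the tensor product with the shift is induced from `D` -/
lemma map_tensorLeft_commShiftIso_hom (X Y : LocCat C) (n : ℤ) :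
    (locSub C).ι.map (((tensorLeft X).commShiftIso n).hom.app Y) ≫
      ((locSub C).ι.commShiftIso n).hom.app (X ⊗ Y) =
    X.obj ◁ ((locSub C).ι.commShiftIso n).hom.app Y ≫
      ((tensorLeft X.obj).commShiftIso n).hom.app Y.obj := by
  have h1 := NatTrans.shift_app_comm ((locSub C).liftCompιIso
    ((locSub C).ι ⋙ tensorLeft X.obj) (fun Y => locSub_tensor C X.2 Y.2)).hom n Y
  rw [Functor.commShiftIso_comp_hom_app, Functor.commShiftIso_comp_hom_app] at h1
  have h2 : ((((locSub C).liftCompιIso ((locSub C).ι ⋙ tensorLeft X.obj)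
      (fun Y => locSub_tensor C X.2 Y.2)).hom.app Y)⟦n⟧') = 𝟙 _ :=
    CategoryTheory.Functor.map_id _ _
  rw [h2] at h1
  exact ((Category.comp_id _).symm.trans h1).trans (Category.id_comp _)

lemma rigid_locCat (c : LocCat C) : IsCpt c ↔ ∃ d : LocCat C, Nonempty (ExactPairing c d) := by
  constructor
  · intro hc
    obtain ⟨d, hd, i, r, hir⟩ := exists_retract_locCat C hc
    obtain ⟨d', hd', ⟨h⟩⟩ := RigidGen.dual _ hd
    let d'' : LocCat C := ⟨d', subset_locSub C d' hd'⟩
    exact rigid_retract (h := exactPairingMk C (X := d) (Y := d'') h)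
      (fun d e he => split_idem (generates_locCat C) e he) i r hir
  · rintro ⟨d, ⟨h⟩⟩
    exact isCpt_of_rigid ((isExtClass_inC C).cpt _ (RigidGen.unit (C := C))) h

lemma small_locCat : ∃ (J : Type v) (G : J → LocCat C), ∀ c : LocCat C, IsCpt c →
    ∃ j, Nonempty (c ≅ G j) := by
  classical
  obtain ⟨J, G, hG⟩ := RigidGen.small (C := C)
  let J' : Type v := Σ j : J, (G j ⟶ G j)
  let good : J' → LocCat C → Prop := fun j c =>
    ∃ (i : c.obj ⟶ G j.1) (r : G j.1 ⟶ c.obj), i ≫ r = 𝟙 c.obj ∧ r ≫ i = j.2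
  let G' : J' → LocCat C := fun j => if h : ∃ c, good j c then h.choose else ⟨𝟙_ D, (locSub C).prop_unit⟩
  refine ⟨J', G', ?_⟩
  intro c hc
  obtain ⟨d, hd, i, r, hir⟩ := exists_retract_locCat C hc
  obtain ⟨j, ⟨e⟩⟩ := hG _ hd
  have hir' : i.hom ≫ r.hom = 𝟙 c.obj := congrArg (locSub C).ι.map hir
  let i' : c.obj ⟶ G j := i.hom ≫ e.hom
  let r' : G j ⟶ c.obj := e.inv ≫ r.hom
  have h1 : i' ≫ r' = 𝟙 c.obj := by simp [i', r', hir']
  let j' : J' := ⟨j, r' ≫ i'⟩
  have h2 : ∃ c, good j' c := ⟨c, i', r', h1, rfl⟩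
  have h3 : G' j' = h2.choose := dif_pos h2
  refine ⟨j', ?_⟩
  rw [h3]
  obtain ⟨i'', r'', h4, h5⟩ := h2.choose_spec
  have h5 : r'' ≫ i'' = r' ≫ i' := h5
  refine ⟨(locSub C).fullyFaithfulι.preimageIso
    { hom := i' ≫ r''
      inv := i'' ≫ r'
      hom_inv_id := ?_
      inv_hom_id := ?_ }⟩
  · show (i' ≫ r'') ≫ i'' ≫ r' = 𝟙 c.obj
    calc (i' ≫ r'') ≫ i'' ≫ r' = i' ≫ (r'' ≫ i'') ≫ r' := by simp only [Category.assoc]
      _ = (i' ≫ r') ≫ (i' ≫ r') := by rw [h5]; simp only [Category.assoc]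
      _ = 𝟙 c.obj := by rw [h1, Category.comp_id]
  · show (i'' ≫ r') ≫ i' ≫ r'' = 𝟙 _
    calc (i'' ≫ r') ≫ i' ≫ r'' = i'' ≫ (r' ≫ i') ≫ r'' := by simp only [Category.assoc]
      _ = (i'' ≫ r'') ≫ (i'' ≫ r'') := by rw [← h5]; simp only [Category.assoc]
      _ = 𝟙 _ := by rw [h4, Category.comp_id]

noncomputable instance : RCG (LocCat C) where
  small := small_locCat C
  generates := generates_locCat C
  rigid := rigid_locCat C

end Mon

end MP40506
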