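import Pool.Agent.Work.MP_40506d_al.CX.Compat
import Pool.Agent.Work.MP_40506d_al.CX.Sub

/-!
# The compatibility `TTCompat` passes to localizing subcategories
-/

open CategoryTheory CategoryTheory.Limits CategoryTheory.MonoidalCategory
  CategoryTheory.Pretriangulated

universe v u u'

set_option linter.unusedSectionVars false

namespace MP40506

section

variable {T : Type u} [Category.{v} T] [HasShift T ℤ] [Preadditive T]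
  [MonoidalCategory T] [SymmetricCategory T] [∀ X : T, (tensorLeft X).CommShift ℤ]

lemma shR_nat_right (X : T) {Y Y' : T} (f : Y ⟶ Y') (n : ℤ) :
    X ◁ f⟦n⟧' ≫ (shR X Y' n).hom = (shR X Y n).hom ≫ (X ◁ f)⟦n⟧' :=
  ((tensorLeft X).commShiftIso n).hom.naturality f

lemma shL_hom (X Y : T) (n : ℤ) :
    (shL X Y n).hom = (β_ (X⟦n⟧) Y).hom ≫ (shR Y X n).hom ≫ (β_ Y X).hom⟦n⟧' := rfl

lemma TTCompat.natL (h : TTCompat T) (X : T) {Y Y' : T} (f : Y ⟶ Y') (n : ℤ) :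
    (X⟦n⟧) ◁ f ≫ (shL X Y' n).hom = (shL X Y n).hom ≫ (X ◁ f)⟦n⟧' := by
  rw [shL_hom, shL_hom, BraidedCategory.braiding_naturality_right_assoc,
    reassoc_of% (h.nat f X n), Category.assoc, Category.assoc, ← Functor.map_comp,
    ← Functor.map_comp, BraidedCategory.braiding_naturality_left]

end

section Mon

variable {D : Type u} [Category.{v} D] [HasZeroObject D] [HasShift D ℤ] [Preadditive D]
  [∀ n : ℤ, (shiftFunctor D n).Additive] [Pretriangulated D] [MonoidalCategory D]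
  [SymmetricCategory D] [MonoidalPreadditive D] [HasCoproducts.{v} D] [TTC D]
  (C : ObjectProperty D) [RigidGen C] [IsTriangulated D]

/-- the comparison of the shifts -/
noncomputable def cSh (Y : LocCat C) (n : ℤ) : (Y⟦n⟧).obj ≅ (Y.obj)⟦n⟧ :=
  ((locSub C).ι.commShiftIso n).app Y

lemma cSh_nat {Y Y' : LocCat C} (f : Y ⟶ Y') (n : ℤ) :
    (f⟦n⟧').hom ≫ (cSh C Y' n).hom = (cSh C Y n).hom ≫ (f.hom)⟦n⟧' :=
  ((locSub C).ι.commShiftIso n).hom.naturality f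

lemma shR_cSh (X Y : LocCat C) (n : ℤ) :
    (shR X Y n).hom.hom ≫ (cSh C (X ⊗ Y) n).hom =
      X.obj ◁ (cSh C Y n).hom ≫ (shR X.obj Y.obj n).hom :=
  map_tensorLeft_commShiftIso_hom C X Y n

lemma shL_cSh (X Y : LocCat C) (n : ℤ) :
    (shL X Y n).hom.hom ≫ (cSh C (X ⊗ Y) n).hom =
      (cSh C X n).hom ▷ Y.obj ≫ (shL X.obj Y.obj n).hom := by
  have h1 : (shL X Y n).hom.hom = (β_ (X⟦n⟧).obj Y.obj).hom ≫ (shR Y X n).hom.hom ≫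
    ((β_ Y X).hom⟦n⟧').hom := rfl
  have h2 := cSh_nat C (β_ Y X).hom n
  have h3 : (β_ Y X).hom.hom = (β_ Y.obj X.obj).hom := rfl
  rw [h3] at h2
  rw [h1, Category.assoc, Category.assoc, h2, reassoc_of% (shR_cSh C Y X n), shL_hom,
    BraidedCategory.braiding_naturality_left_assoc]

lemma hom_ext_cSh {X Y : LocCat C} {n : ℤ} (f g : X ⟶ Y⟦n⟧)
    (h : f.hom ≫ (cSh C Y n).hom = g.hom ≫ (cSh C Y n).hom) : f = g := by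
  apply (locSub C).ι.map_injective
  exact (cancel_mono (cSh C Y n).hom).1 h

theorem ttCompat_locCat (hD : TTCompat D) : TTCompat (LocCat C) where
  nat {X X'} f Y n := by
    apply hom_ext_cSh
    have h1 := cSh_nat C (f ▷ Y) n
    have h2 : (f ▷ Y).hom = f.hom ▷ Y.obj := rfl
    rw [h2] at h1
    show (f.hom ▷ (Y⟦n⟧).obj ≫ (shR X' Y n).hom.hom) ≫ (cSh C (X' ⊗ Y) n).hom =
      ((shR X Y n).hom.hom ≫ ((f ▷ Y)⟦n⟧').hom) ≫ (cSh C (X' ⊗ Y) n).hom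
    rw [Category.assoc, Category.assoc, h1, shR_cSh, reassoc_of% (shR_cSh C X Y n),
      ← whisker_exchange_assoc, hD.nat]
  unit Y n := by
    apply hom_ext_cSh
    have h1 := cSh_nat C (λ_ Y).hom n
    have h2 : (λ_ Y).hom.hom = (λ_ Y.obj).hom := rfl
    rw [h2] at h1
    show ((shR (𝟙_ (LocCat C)) Y n).hom.hom ≫ ((λ_ Y).hom⟦n⟧').hom) ≫ (cSh C Y n).hom =
      (λ_ (Y⟦n⟧).obj).hom ≫ (cSh C Y n).hom
    rw [Category.assoc, h1, reassoc_of% (shR_cSh C (𝟙_ (LocCat C)) Y n)]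
    have h3 := hD.unit Y.obj n
    show (𝟙_ D) ◁ (cSh C Y n).hom ≫ (shR (𝟙_ D) Y.obj n).hom ≫ (λ_ Y.obj).hom⟦n⟧' = _
    rw [h3, leftUnitor_naturality]
  assoc X Y Z n := by
    apply hom_ext_cSh
    have h1 := cSh_nat C (α_ X Y Z).hom n
    have h2 : (α_ X Y Z).hom.hom = (α_ X.obj Y.obj Z.obj).hom := rfl
    rw [h2] at h1
    show ((shR (X ⊗ Y) Z n).hom.hom ≫ ((α_ X Y Z).hom⟦n⟧').hom) ≫ (cSh C (X ⊗ (Y ⊗ Z)) n).hom =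
      ((α_ X.obj Y.obj (Z⟦n⟧).obj).hom ≫ X.obj ◁ (shR Y Z n).hom.hom ≫
        (shR X (Y ⊗ Z) n).hom.hom) ≫ (cSh C (X ⊗ (Y ⊗ Z)) n).hom
    rw [Category.assoc, h1, reassoc_of% (shR_cSh C (X ⊗ Y) Z n), Category.assoc,
      Category.assoc, shR_cSh C X (Y ⊗ Z) n]
    have h3 := hD.assoc X.obj Y.obj Z.obj n
    have h4 : X.obj ◁ (shR Y Z n).hom.hom ≫ X.obj ◁ (cSh C (Y ⊗ Z) n).hom =
        X.obj ◁ Y.obj ◁ (cSh C Z n).hom ≫ X.obj ◁ (shR Y.obj Z.obj n).hom := by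
      rw [← MonoidalCategory.whiskerLeft_comp, shR_cSh C Y Z n,
        MonoidalCategory.whiskerLeft_comp]
    rw [reassoc_of% h4]
    show (X.obj ⊗ Y.obj) ◁ (cSh C Z n).hom ≫ (shR (X.obj ⊗ Y.obj) Z.obj n).hom ≫
      (α_ X.obj Y.obj Z.obj).hom⟦n⟧' = (α_ X.obj Y.obj (Z⟦n⟧).obj).hom ≫
        X.obj ◁ Y.obj ◁ (cSh C Z n).hom ≫ X.obj ◁ (shR Y.obj Z.obj n).hom ≫
          (shR X.obj (Y.obj ⊗ Z.obj) n).hom
    rw [h3, associator_naturality_right_assoc]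
  sign X Y := by
    apply hom_ext_cSh
    have h0 := hD.sign X.obj Y.obj
    have h1 := cSh_nat C (shR X Y 1).hom 1
    have h2 := cSh_nat C (shL X Y 1).hom 1
    have h3 := congrArg (fun f => (shiftFunctor D (1 : ℤ)).map f) (shR_cSh C X Y 1)
    have h4 := congrArg (fun f => (shiftFunctor D (1 : ℤ)).map f) (shL_cSh C X Y 1)
    simp only [Functor.map_comp] at h3 h4
    rw [← cancel_mono ((cSh C (X ⊗ Y) 1).hom⟦(1 : ℤ)⟧')]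
    show (((shL X (Y⟦(1 : ℤ)⟧) 1).hom.hom ≫ ((shR X Y 1).hom⟦(1 : ℤ)⟧').hom) ≫
        (cSh C ((X ⊗ Y)⟦(1 : ℤ)⟧) 1).hom) ≫ (cSh C (X ⊗ Y) 1).hom⟦(1 : ℤ)⟧' =
      ((-((shR (X⟦(1 : ℤ)⟧) Y 1).hom.hom ≫ ((shL X Y 1).hom⟦(1 : ℤ)⟧').hom)) ≫
        (cSh C ((X ⊗ Y)⟦(1 : ℤ)⟧) 1).hom) ≫ (cSh C (X ⊗ Y) 1).hom⟦(1 : ℤ)⟧'
    have e1 : (((shL X (Y⟦(1 : ℤ)⟧) 1).hom.hom ≫ ((shR X Y 1).hom⟦(1 : ℤ)⟧').hom) ≫
        (cSh C ((X ⊗ Y)⟦(1 : ℤ)⟧) 1).hom) ≫ (cSh C (X ⊗ Y) 1).hom⟦(1 : ℤ)⟧' =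
        (cSh C X 1).hom ▷ (Y⟦(1 : ℤ)⟧).obj ≫ (X.obj⟦(1 : ℤ)⟧) ◁ (cSh C Y 1).hom ≫
          (shL X.obj (Y.obj⟦(1 : ℤ)⟧) 1).hom ≫ (shR X.obj Y.obj 1).hom⟦(1 : ℤ)⟧' := by
      rw [Category.assoc, Category.assoc, reassoc_of% h1, h3,
        reassoc_of% (shL_cSh C X (Y⟦(1 : ℤ)⟧) 1), ← reassoc_of% (hD.natL X.obj (cSh C Y 1).hom 1)]
    have e2 : (((shR (X⟦(1 : ℤ)⟧) Y 1).hom.hom ≫ ((shL X Y 1).hom⟦(1 : ℤ)⟧').hom) ≫
        (cSh C ((X ⊗ Y)⟦(1 : ℤ)⟧) 1).hom) ≫ (cSh C (X ⊗ Y) 1).hom⟦(1 : ℤ)⟧' =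
        (cSh C X 1).hom ▷ (Y⟦(1 : ℤ)⟧).obj ≫ (X.obj⟦(1 : ℤ)⟧) ◁ (cSh C Y 1).hom ≫
          (shR (X.obj⟦(1 : ℤ)⟧) Y.obj 1).hom ≫ (shL X.obj Y.obj 1).hom⟦(1 : ℤ)⟧' := by
      rw [Category.assoc, Category.assoc, reassoc_of% h2, h4,
        reassoc_of% (shR_cSh C (X⟦(1 : ℤ)⟧) Y 1), ← reassoc_of% (hD.nat (cSh C X 1).hom Y.obj 1),
        whisker_exchange_assoc]
    rw [e1, Preadditive.neg_comp, Preadditive.neg_comp, e2, h0]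
    simp only [Preadditive.comp_neg]

end Mon

end MP40506
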