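import Pool.Agent.Work.MP_40506d_al.CX.Res
import Pool.Agent.Work.MP_40506d_al.CX.CompatLoc

/-!
# Compatibility of the shift and the tensor product of `TT G M`, and conservativity of the
right adjoint of the residue functor
-/

open CategoryTheory CategoryTheory.Limits CategoryTheory.MonoidalCategory
  CategoryTheory.Pretriangulated

set_option linter.unusedSectionVars false

namespace MP40506.CX

noncomputable section

theorem ttCompat_TT (G : Type) [AddCommGroup G] (M : AddSubmonoid G) : TTCompat (TT G M) :=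
  ttCompat_locCat (FinC G M) ttCompat_KC

section

variable {G : Type} [AddCommGroup G] {M U : AddSubmonoid G}

/-- the residue functor sends `k(g)` to the unit -/
def dresK1 (hU : IsFace M U) (g : G) (u : PUnit) :
    (DObj.mapF (res hU)).obj (k1 g) ≅ (k1 u : DObj Vec) :=
  DObj.mkIso (Iso.refl _) (by
    show (res hU).map (0 : (fr1 g : Fr G M) ⟶ fr1 g) ≫ 𝟙 _ = 𝟙 _ ≫ (0 : (fr1 u : Vec) ⟶ fr1 u)
    rw [Functor.map_zero, zero_comp, comp_zero]
    rfl)

/-- the same in the homotopy category -/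
def kresK1 (hU : IsFace M U) (g : G) (u : PUnit) :
    (kres hU).obj (⟨k1 g⟩ : KC (Fr G M)) ≅ (⟨k1 u⟩ : KC Vec) :=
  (KC.Q Vec).mapIso (dresK1 hU g u)

end

/-- the right adjoint of `tres` is conservative -/
theorem conservative_tres {G : Type} [AddCommGroup G] {M U : AddSubmonoid G} (hU : IsFace M U)
    (Y : TT PUnit (⊤ : AddSubmonoid PUnit))
    (h : ∀ (X : TT G M) (f : (tres hU).obj X ⟶ Y), f = 0) : IsZero Y := by
  have h1 : ∀ (u : PUnit) (n : ℤ) (f : (⟨k1 u⟩ : KC Vec)⟦n⟧ ⟶ Y.obj), f = 0 := by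
    intro u n f
    let f' : (⟨k1 u⟩ : KC Vec) ⟶ Y.obj := f
    have h2 : (kresK1 (M := M) hU 0 u).hom ≫ f' = 0 :=
      congrArg (fun a => a.hom) (h (tk 0)
        (ObjectProperty.homMk ((kresK1 (M := M) hU 0 u).hom ≫ f')))
    have h3 : f' = (kresK1 (M := M) hU 0 u).inv ≫ (kresK1 (M := M) hU 0 u).hom ≫ f' :=
      (Iso.inv_hom_id_assoc _ f').symm
    exact h3.trans ((congrArg ((kresK1 (M := M) hU 0 u).inv ≫ ·) h2).trans comp_zero)
  have h2 := locP_le Y _ (isLocalizing_noMaps Y.obj) h1 0 (𝟙 Y.obj)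
  rw [IsZero.iff_id_eq_zero]
  exact ObjectProperty.hom_ext _ h2

end

end MP40506.CX
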