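import Pool.Agent.Work.MP_40506d_al.CX.Nerve

set_option autoImplicit false

/-! Elementary algebra of differential abelian groups of exponent two: cones, quasi-isomorphisms,
Mayer-Vietoris; and the acyclicity of the total complex of four nested sets (section 5). -/

namespace MP40506.CX.Cone

section Abs

variable {A B A' B' : Type} [AddCommGroup A] [AddCommGroup B] [AddCommGroup A'] [AddCommGroup B']

/-- exactness -/
def Acy (d : A →+ A) : Prop := ∀ x, d x = 0 → ∃ y, d y = x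

/-- quasi-isomorphisms -/
structure QI (d : A →+ A) (d' : A' →+ A') (φ : A →+ A') : Prop where
  comm : ∀ x, φ (d x) = d' (φ x)
  surj : ∀ x', d' x' = 0 → ∃ x, d x = 0 ∧ ∃ y', φ x + x' = d' y'
  inj : ∀ x, d x = 0 → ∀ y', φ x = d' y' → ∃ y, d y = x

/-- the differential of the cone of `t` -/
def cd (d : A →+ A) (e : B →+ B) (t : A →+ B) : A × B →+ A × B :=
  AddMonoidHom.mk' (fun x => (d x.1, t x.1 + e x.2)) (by
    intro x y
    refine Prod.ext ?_ ?_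
    · exact map_add d _ _
    · show t (x.1 + y.1) + e (x.2 + y.2) = (t x.1 + e x.2) + (t y.1 + e y.2)
      rw [map_add, map_add]; abel)

lemma cd_apply (d : A →+ A) (e : B →+ B) (t : A →+ B) (x : A × B) :
    cd d e t x = (d x.1, t x.1 + e x.2) := rfl

lemma eq_of_add {X : Type} [AddCommGroup X] (two : ∀ x : X, x + x = 0) {x y : X}
    (h : x + y = 0) : x = y := by
  have h1 : x + y + y = y := by rw [h, zero_add]
  rwa [add_assoc, two, add_zero] at h1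

/-- the cone of acyclic objects is acyclic -/
lemma Acy.cone {d : A →+ A} {e : B →+ B} {t : A →+ B} (two : ∀ x : B, x + x = 0)
    (ht : ∀ x, t (d x) = e (t x)) (hd : Acy d) (he : Acy e) : Acy (cd d e t) := by
  rintro ⟨x, y⟩ h
  have h1 : d x = 0 := congrArg Prod.fst h
  have h2 : t x + e y = 0 := congrArg Prod.snd h
  obtain ⟨x1, rfl⟩ := hd x h1
  obtain ⟨y1, hy1⟩ := he (t x1 + y) (by rw [map_add, ← ht, h2])
  refine ⟨(x1, y1), Prod.ext rfl ?_⟩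
  show t x1 + e y1 = y
  rw [hy1, ← add_assoc, two, zero_add]

/-- the cone of an isomorphism is acyclic -/
lemma acy_of_bij {d : A →+ A} {e : B →+ B} {t : A →+ B} (two : ∀ x : B, x + x = 0)
    (ht : ∀ x, t (d x) = e (t x)) (hb : Function.Bijective t) : Acy (cd d e t) := by
  rintro ⟨x, y⟩ h
  have h2 : t x + e y = 0 := congrArg Prod.snd h
  obtain ⟨x1, rfl⟩ := hb.2 y
  refine ⟨(x1, 0), Prod.ext (hb.1 ?_) ?_⟩
  · show t (d x1) = t x
    rw [ht]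
    exact (eq_of_add two h2).symm
  · show t x1 + e 0 = t x1
    rw [map_zero, add_zero]

lemma QI.acy {d : A →+ A} {d' : A' →+ A'} {φ : A →+ A'} (h : QI d d' φ) (h' : Acy d') :
    Acy d := by
  intro x hx
  obtain ⟨y', hy'⟩ := h' (φ x) (by rw [← h.comm, hx, map_zero])
  exact h.inj x hx y' hy'.symm

/-- the cone of quasi-isomorphisms is a quasi-isomorphism -/
lemma QI.cone {dA : A →+ A} {dB : B →+ B} {t : A →+ B} {dA' : A' →+ A'} {dB' : B' →+ B'}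
    {t' : A' →+ B'} {φ : A →+ A'} {ψ : B →+ B'} (two : ∀ x : B, x + x = 0)
    (twoA' : ∀ x : A', x + x = 0) (two' : ∀ x : B', x + x = 0)
    (ht : ∀ x, t (dA x) = dB (t x)) (ht' : ∀ x, t' (dA' x) = dB' (t' x))
    (hφ : QI dA dA' φ) (hψ : QI dB dB' ψ) (hc : ∀ x, ψ (t x) = t' (φ x)) :
    QI (cd dA dB t) (cd dA' dB' t') (φ.prodMap ψ) where
  comm := by
    rintro ⟨x, y⟩
    refine Prod.ext (hφ.comm x) ?_
    show ψ (t x + dB y) = t' (φ x) + dB' (ψ y)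
    rw [map_add, hc, hψ.comm]
  surj := by
    rintro ⟨x', y'⟩ h
    have h1 : dA' x' = 0 := congrArg Prod.fst h
    have h2 : t' x' + dB' y' = 0 := congrArg Prod.snd h
    obtain ⟨x, hx, x'', hx''⟩ := hφ.surj x' h1
    have e1 : φ x = x' + dA' x'' := by
      rw [← hx'']
      have := twoA' x'
      calc φ x = φ x + (x' + x') := by rw [this, add_zero]
        _ = x' + (φ x + x') := by abel
    have e2 : dB (t x) = 0 := by rw [← ht, hx, map_zero]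
    have e3 : ψ (t x) = dB' (y' + t' x'') := by
      rw [hc, e1, map_add, map_add, ht']
      rw [eq_of_add two' h2]
    obtain ⟨y0, hy0⟩ := hψ.inj (t x) e2 _ e3
    obtain ⟨y1, hy1, y'', hy''⟩ := hψ.surj (ψ y0 + y' + t' x'') (by
      rw [map_add, map_add, ← hψ.comm, hy0, e3, map_add]
      have : dB' y' + dB' (t' x'') + dB' y' + dB' (t' x'') =
        (dB' y' + dB' y') + (dB' (t' x'') + dB' (t' x'')) := by abel
      rw [this, two', two', add_zero])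
    refine ⟨(x, y0 + y1), Prod.ext hx ?_, (x'', y''), Prod.ext hx'' ?_⟩
    · show t x + dB (y0 + y1) = 0
      rw [map_add, hy1, add_zero, hy0, two]
    · show ψ (y0 + y1) + y' = t' x'' + dB' y''
      rw [map_add, ← hy'']
      have : t' x'' + (ψ y1 + (ψ y0 + y' + t' x'')) = ψ y0 + ψ y1 + y' + (t' x'' + t' x'') := by
        abel
      rw [this, two', add_zero]
  inj := by
    rintro ⟨x, y⟩ h ⟨x', y'⟩ h'
    have h1 : dA x = 0 := congrArg Prod.fst h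
    have h2 : t x + dB y = 0 := congrArg Prod.snd h
    have h3 : φ x = dA' x' := congrArg Prod.fst h'
    have h4 : ψ y = t' x' + dB' y' := congrArg Prod.snd h'
    obtain ⟨x1, rfl⟩ := hφ.inj x h1 x' h3
    obtain ⟨x2, hx2, x'', hx''⟩ := hφ.surj (φ x1 + x') (by
      rw [map_add, ← hφ.comm, h3, twoA'])
    have e1 : dB (y + t (x1 + x2)) = 0 := by
      rw [map_add, ← ht, map_add dA, hx2, add_zero, add_comm, h2]
    have e2 : ψ (y + t (x1 + x2)) = dB' (y' + t' x'') := by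
      rw [map_add, hc, h4, map_add φ, map_add dB', ← ht', ← hx'']
      have h5 : φ x2 + (φ x1 + x') = φ x1 + φ x2 + x' := by abel
      rw [h5, map_add t' (φ x1 + φ x2) x']
      abel
    obtain ⟨y1, hy1⟩ := hψ.inj _ e1 _ e2
    refine ⟨(x1 + x2, y1), Prod.ext ?_ ?_⟩
    · show dA (x1 + x2) = dA x1
      rw [map_add, hx2, add_zero]
    · show t (x1 + x2) + dB y1 = y
      rw [hy1]
      have : t (x1 + x2) + (y + t (x1 + x2)) = y + (t (x1 + x2) + t (x1 + x2)) := by abel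
      rw [this, two, add_zero]

/-- Mayer-Vietoris for acyclicity -/
lemma acy_of_mv {X B₁ B₂ Z : Type} [AddCommGroup X] [AddCommGroup B₁] [AddCommGroup B₂]
    [AddCommGroup Z] {d : X →+ X} {d₁ : B₁ →+ B₁} {d₂ : B₂ →+ B₂} {e : Z →+ Z}
    {r₁ : X →+ B₁} {r₂ : X →+ B₂} {s₁ : B₁ →+ Z} {s₂ : B₂ →+ Z}
    (hr₁ : ∀ x, r₁ (d x) = d₁ (r₁ x)) (hr₂ : ∀ x, r₂ (d x) = d₂ (r₂ x))
    (hs₁ : ∀ x, s₁ (d₁ x) = e (s₁ x)) (hs₂ : ∀ x, s₂ (d₂ x) = e (s₂ x))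
    (hrs : ∀ x, s₁ (r₁ x) = s₂ (r₂ x)) (dd : ∀ x, d₁ (d₁ x) = 0) (two : ∀ x : Z, x + x = 0)
    (h₁ : Acy d₁) (h₂ : Acy d₂) (h₀ : Acy e)
    (glue : ∀ b₁ b₂, s₁ b₁ = s₂ b₂ → ∃ x, r₁ x = b₁ ∧ r₂ x = b₂)
    (ext : ∀ x y, r₁ x = r₁ y → r₂ x = r₂ y → x = y) (surj : ∀ z, ∃ b, s₁ b = z) : Acy d := by
  intro x hx
  obtain ⟨y₁, hy₁⟩ := h₁ (r₁ x) (by rw [← hr₁, hx, map_zero])
  obtain ⟨y₂, hy₂⟩ := h₂ (r₂ x) (by rw [← hr₂, hx, map_zero])
  obtain ⟨w, hw⟩ := h₀ (s₁ y₁ + s₂ y₂) (by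
    rw [map_add, ← hs₁, ← hs₂, hy₁, hy₂, hrs, two])
  obtain ⟨w', rfl⟩ := surj w
  obtain ⟨y, hy1, hy2⟩ := glue (y₁ + d₁ w') y₂ (by
    rw [map_add, hs₁, hw, ← add_assoc, two, zero_add])
  refine ⟨y, ext _ _ ?_ ?_⟩
  · rw [hr₁, hy1, map_add, dd, add_zero, hy₁]
  · rw [hr₂, hy2, hy₂]

end Abs

section Sets

open Nerve

variable {P : Type} [PartialOrder P] (S : DSheaf P)

/-- the differential of the cochains of `W` -/
noncomputable def dC (W : Set P) : S.C W →+ S.C W :=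
  AddMonoidHom.mk' (fun x => ⟨S.D W x, S.D_mem W x⟩)
    (fun x y => Subtype.ext (S.D_add W x y))

/-- restriction of cochains -/
noncomputable def rC (W W' : Set P) : S.C W →+ S.C W' :=
  AddMonoidHom.mk' (fun x => ⟨S.tr W' x, S.tr_mem W' x⟩)
    (fun x y => Subtype.ext (S.tr_add W' x y))

lemma dC_val (W : Set P) (x : S.C W) : (dC S W x).1 = S.D W x.1 := rfl

lemma rC_val (W W' : Set P) (x : S.C W) : (rC S W W' x).1 = S.tr W' x.1 := rfl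

lemma two_C (W : Set P) (x : S.C W) : x + x = 0 := Subtype.ext (S.add_self x.1)

lemma dC_dC (W : Set P) (x : S.C W) : dC S W (dC S W x) = 0 := Subtype.ext (S.D_D W x.1)

lemma rC_dC {W W' : Set P} (h : W' ⊆ W) (x : S.C W) :
    rC S W W' (dC S W x) = dC S W' (rC S W W' x) := by
  refine Subtype.ext ?_
  rw [rC_val, dC_val, dC_val, rC_val, S.tr_D h, S.D_tr (le_refl W')]

lemma rC_rC {W W' : Set P} (W'' : Set P) (h : W'' ⊆ W') (x : S.C W) :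
    rC S W' W'' (rC S W W' x) = rC S W W'' x :=
  Subtype.ext (S.tr_tr h x.1)

lemma rC_self (W : Set P) (x : S.C W) : rC S W W x = x := Subtype.ext (S.tr_eq_self x.2)

lemma rC_bij {W W' : Set P} (h : W' = W) : Function.Bijective (rC S W W') := by
  subst h
  refine ⟨fun x y hxy => ?_, fun y => ⟨y, rC_self S W' y⟩⟩
  rwa [rC_self, rC_self] at hxy

lemma rC_surj {W W' : Set P} (h : W' ⊆ W) (z : S.C W') : ∃ b : S.C W, rC S W W' b = z :=
  ⟨⟨z.1, S.C_mono h z.2⟩, Subtype.ext (S.tr_eq_self z.2)⟩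

lemma qi_of_qiso {W E : Set P} (h : DSheaf.QIso S W E) : QI (dC S W) (dC S E) (rC S W E) where
  comm := rC_dC S h.sub
  surj := by
    intro x hx
    obtain ⟨y, hy, hDy, z, hz, e⟩ := h.surj x.1 x.2 (congrArg Subtype.val hx)
    exact ⟨⟨y, hy⟩, Subtype.ext hDy, ⟨z, hz⟩, Subtype.ext e⟩
  inj := by
    intro y hy z e
    obtain ⟨w, hw, e'⟩ := h.inj y.1 y.2 (congrArg Subtype.val hy) z.1 z.2
      (congrArg Subtype.val e)
    exact ⟨⟨w, hw⟩, Subtype.ext e'⟩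

lemma qi_of_eq {W E : Set P} (h : W = E) : QI (dC S W) (dC S E) (rC S W E) := by
  subst h
  refine ⟨rC_dC S (le_refl W), fun x hx => ⟨x, hx, 0, ?_⟩, fun x _ y' e => ⟨y', ?_⟩⟩
  · rw [rC_self, map_zero, two_C]
  · rw [← e, rC_self]

/-- the total differential of four nested sets -/
noncomputable def totD (A B C D : Set P) :
    (S.C A × S.C B) × (S.C C × S.C D) →+ (S.C A × S.C B) × (S.C C × S.C D) :=
  cd (cd (dC S A) (dC S B) (rC S A B)) (cd (dC S C) (dC S D) (rC S C D))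
    ((rC S A C).prodMap (rC S B D))

lemma two_P (A B : Set P) (x : S.C A × S.C B) : x + x = 0 :=
  Prod.ext (two_C S A x.1) (two_C S B x.2)

lemma two_PP (A B C D : Set P) (x : (S.C A × S.C B) × (S.C C × S.C D)) : x + x = 0 :=
  Prod.ext (two_P S A B x.1) (two_P S C D x.2)

variable {A B C D : Set P}

lemma rP_comm (_hBA : B ⊆ A) (hCA : C ⊆ A) (hDB : D ⊆ B) (hDC : D ⊆ C) (x : S.C A × S.C B) :
    ((rC S A C).prodMap (rC S B D)) (cd (dC S A) (dC S B) (rC S A B) x) =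
      cd (dC S C) (dC S D) (rC S C D) (((rC S A C).prodMap (rC S B D)) x) := by
  refine Prod.ext (rC_dC S hCA x.1) ?_
  show rC S B D (rC S A B x.1 + dC S B x.2) = rC S C D (rC S A C x.1) + dC S D (rC S B D x.2)
  rw [map_add, rC_rC S D hDB, rC_rC S D hDC, rC_dC S hDB]

lemma cd_cd (hBA : B ⊆ A) (x : S.C A × S.C B) :
    cd (dC S A) (dC S B) (rC S A B) (cd (dC S A) (dC S B) (rC S A B) x) = 0 := by
  refine Prod.ext (dC_dC S A x.1) ?_
  show rC S A B (dC S A x.1) + dC S B (rC S A B x.1 + dC S B x.2) = 0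
  rw [map_add, rC_dC S hBA, dC_dC, add_zero, two_C]

lemma totD_totD (hBA : B ⊆ A) (hCA : C ⊆ A) (hDB : D ⊆ B) (hDC : D ⊆ C)
    (x : (S.C A × S.C B) × (S.C C × S.C D)) : totD S A B C D (totD S A B C D x) = 0 := by
  refine Prod.ext (cd_cd S hBA x.1) ?_
  show ((rC S A C).prodMap (rC S B D)) (cd (dC S A) (dC S B) (rC S A B) x.1) +
    cd (dC S C) (dC S D) (rC S C D) (((rC S A C).prodMap (rC S B D)) x.1 +
      cd (dC S C) (dC S D) (rC S C D) x.2) = 0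
  rw [map_add, rP_comm S hBA hCA hDB hDC, cd_cd S hDC, add_zero, two_P]

/-- the total complex is acyclic if the horizontal maps are bijective -/
lemma tot_acy₁ (hCA : C ⊆ A) (h1 : B = A) (h2 : D = C) : Acy (totD S A B C D) := by
  subst h1 h2
  refine Acy.cone (two_P S _ _) (rP_comm S (le_refl _) hCA hCA (le_refl _)) ?_ ?_
  · exact acy_of_bij (two_C S _) (rC_dC S (le_refl _)) (rC_bij S rfl)
  · exact acy_of_bij (two_C S _) (rC_dC S (le_refl _)) (rC_bij S rfl)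

/-- the total complex is acyclic if the vertical maps are bijective -/
lemma tot_acy₂ (hBA : B ⊆ A) (h1 : C = A) (h2 : D = B) : Acy (totD S A B C D) := by
  subst h1 h2
  refine acy_of_bij (two_P S _ _) (rP_comm S hBA (le_refl _) (le_refl _) hBA) ?_
  exact Prod.map_bijective.2 ⟨rC_bij S rfl, rC_bij S rfl⟩

/-- restriction of the total complexes -/
noncomputable def rT (A B C D A' B' C' D' : Set P) :
    (S.C A × S.C B) × (S.C C × S.C D) →+ (S.C A' × S.C B') × (S.C C' × S.C D') :=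
  ((rC S A A').prodMap (rC S B B')).prodMap ((rC S C C').prodMap (rC S D D'))

lemma rC_sq {W V W' V' : Set P} (h : V' ⊆ W') (h' : V' ⊆ V) (x : S.C W) :
    rC S V V' (rC S W V x) = rC S W' V' (rC S W W' x) := by
  rw [rC_rC S V' h', rC_rC S V' h]

variable {A' B' C' D' : Set P}

set_option linter.unusedVariables false in
lemma tot_qi (hBA : B ⊆ A) (hCA : C ⊆ A) (hDB : D ⊆ B) (hDC : D ⊆ C) (hBA' : B' ⊆ A')
    (hCA' : C' ⊆ A') (hDB' : D' ⊆ B') (hDC' : D' ⊆ C') (hB : B' ⊆ B) (hC : C' ⊆ C) (hD : D' ⊆ D)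
    (h1 : QI (dC S A) (dC S A') (rC S A A')) (h2 : QI (dC S B) (dC S B') (rC S B B'))
    (h3 : QI (dC S C) (dC S C') (rC S C C')) (h4 : QI (dC S D) (dC S D') (rC S D D')) :
    QI (totD S A B C D) (totD S A' B' C' D') (rT S A B C D A' B' C' D') := by
  refine QI.cone (two_P S _ _) (two_P S _ _) (two_P S _ _) (rP_comm S hBA hCA hDB hDC)
    (rP_comm S hBA' hCA' hDB' hDC') ?_ ?_ ?_
  · exact QI.cone (two_C S _) (two_C S _) (two_C S _) (rC_dC S hBA) (rC_dC S hBA') h1 h2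
      (rC_sq S hBA' hB)
  · exact QI.cone (two_C S _) (two_C S _) (two_C S _) (rC_dC S hDC) (rC_dC S hDC') h3 h4
      (rC_sq S hDC' hD)
  · rintro ⟨x, y⟩
    exact Prod.ext (rC_sq S hCA' hC x) (rC_sq S hDB' hD y)

set_option linter.unusedVariables false in
lemma rT_comm (hBA : B ⊆ A) (hCA : C ⊆ A) (hDB : D ⊆ B) (hDC : D ⊆ C) (hBA' : B' ⊆ A')
    (hCA' : C' ⊆ A') (hDB' : D' ⊆ B') (hDC' : D' ⊆ C') (hA : A' ⊆ A) (hB : B' ⊆ B) (hC : C' ⊆ C)
    (hD : D' ⊆ D) (x : (S.C A × S.C B) × (S.C C × S.C D)) :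
    rT S A B C D A' B' C' D' (totD S A B C D x) =
      totD S A' B' C' D' (rT S A B C D A' B' C' D' x) := by
  obtain ⟨⟨x, y⟩, ⟨z, w⟩⟩ := x
  refine Prod.ext (Prod.ext (rC_dC S hA x) ?_) (Prod.ext ?_ ?_)
  · show rC S B B' (rC S A B x + dC S B y) = rC S A' B' (rC S A A' x) + dC S B' (rC S B B' y)
    rw [map_add, rC_sq S hBA' hB, rC_dC S hB]
  · show rC S C C' (rC S A C x + dC S C z) = rC S A' C' (rC S A A' x) + dC S C' (rC S C C' z)
    rw [map_add, rC_sq S hCA' hC, rC_dC S hC]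
  · show rC S D D' (rC S B D y + (rC S C D z + dC S D w)) = rC S B' D' (rC S B B' y) +
      (rC S C' D' (rC S C C' z) + dC S D' (rC S D D' w))
    rw [map_add, map_add, rC_sq S hDB' hD, rC_sq S hDC' hD, rC_dC S hD]

/-- the core of section 5: if the down-sets `A ⊇ B, C`, `B, C ⊇ D` satisfy `B ∩ Iic v₁ =
A ∩ Iic v₁` etc. then the total complex of their intersections with `Iic v₁ ∪ Iic v₂` is acyclic -/
lemma tot_acy (hBA : B ⊆ A) (hCA : C ⊆ A) (hDB : D ⊆ B) (hDC : D ⊆ C)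
    (lA : IsLowerSet A) (lB : IsLowerSet B) (lC : IsLowerSet C) (lD : IsLowerSet D)
    {E₁ E₂ : Set P} (l1 : IsLowerSet E₁) (l2 : IsLowerSet E₂)
    (h1 : B ∩ E₁ = A ∩ E₁) (h1' : D ∩ E₁ = C ∩ E₁) (h2 : C ∩ E₂ = A ∩ E₂)
    (h2' : D ∩ E₂ = B ∩ E₂) :
    Acy (totD S (A ∩ (E₁ ∪ E₂)) (B ∩ (E₁ ∪ E₂)) (C ∩ (E₁ ∪ E₂)) (D ∩ (E₁ ∪ E₂))) := by
  have s : ∀ {X Y : Set P} (E : Set P), X ⊆ Y → X ∩ E ⊆ Y ∩ E :=
    fun E h => Set.inter_subset_inter_left E h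
  have s1 : ∀ X : Set P, X ∩ E₁ ⊆ X ∩ (E₁ ∪ E₂) :=
    fun X => Set.inter_subset_inter_right X Set.subset_union_left
  have s2 : ∀ X : Set P, X ∩ E₂ ⊆ X ∩ (E₁ ∪ E₂) :=
    fun X => Set.inter_subset_inter_right X Set.subset_union_right
  have s10 : ∀ X : Set P, X ∩ (E₁ ∩ E₂) ⊆ X ∩ E₁ :=
    fun X => Set.inter_subset_inter_right X Set.inter_subset_left
  have s20 : ∀ X : Set P, X ∩ (E₁ ∩ E₂) ⊆ X ∩ E₂ :=
    fun X => Set.inter_subset_inter_right X Set.inter_subset_right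
  have u : ∀ X : Set P, X ∩ (E₁ ∪ E₂) = (X ∩ E₁) ∪ (X ∩ E₂) :=
    fun X => Set.inter_union_distrib_left X E₁ E₂
  have i : ∀ X : Set P, X ∩ (E₁ ∩ E₂) = (X ∩ E₁) ∩ (X ∩ E₂) :=
    fun X => Set.inter_inter_distrib_left X E₁ E₂
  have h0 : B ∩ (E₁ ∩ E₂) = A ∩ (E₁ ∩ E₂) := by
    rw [← Set.inter_assoc, h1, Set.inter_assoc]
  have h0' : D ∩ (E₁ ∩ E₂) = C ∩ (E₁ ∩ E₂) := by
    rw [← Set.inter_assoc, h1', Set.inter_assoc]
  -- gluing and uniqueness for one set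
  have glue : ∀ X : Set P, ∀ (b₁ : S.C (X ∩ E₁)) (b₂ : S.C (X ∩ E₂)),
      rC S (X ∩ E₁) (X ∩ (E₁ ∩ E₂)) b₁ = rC S (X ∩ E₂) (X ∩ (E₁ ∩ E₂)) b₂ →
      ∃ x : S.C (X ∩ (E₁ ∪ E₂)), rC S _ (X ∩ E₁) x = b₁ ∧ rC S _ (X ∩ E₂) x = b₂ := by
    intro X b₁ b₂ e
    obtain ⟨z, hz, e1, e2⟩ := S.glue (E := X ∩ E₁) (E' := X ∩ E₂) b₁.1 b₂.1 (by
      rw [← i X]
      exact congrArg Subtype.val e)
    rw [← u X] at hz
    refine ⟨⟨z, hz⟩, Subtype.ext ?_, Subtype.ext ?_⟩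
    · exact e1.trans (S.tr_eq_self b₁.2)
    · exact e2.trans (S.tr_eq_self b₂.2)
  have ext : ∀ X : Set P, IsLowerSet X → ∀ x y : S.C (X ∩ (E₁ ∪ E₂)),
      rC S _ (X ∩ E₁) x = rC S _ (X ∩ E₁) y → rC S _ (X ∩ E₂) x = rC S _ (X ∩ E₂) y →
      x = y := by
    intro X lX x y e1 e2
    refine Subtype.ext (S.union_ext (lX.inter l1) (lX.inter l2) ?_ ?_
      (congrArg Subtype.val e1) (congrArg Subtype.val e2))
    · rw [← u X]; exact x.2
    · rw [← u X]; exact y.2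
  refine acy_of_mv
    (d₁ := totD S (A ∩ E₁) (B ∩ E₁) (C ∩ E₁) (D ∩ E₁))
    (d₂ := totD S (A ∩ E₂) (B ∩ E₂) (C ∩ E₂) (D ∩ E₂))
    (e := totD S (A ∩ (E₁ ∩ E₂)) (B ∩ (E₁ ∩ E₂)) (C ∩ (E₁ ∩ E₂)) (D ∩ (E₁ ∩ E₂)))
    (r₁ := rT S _ _ _ _ _ _ _ _) (r₂ := rT S _ _ _ _ _ _ _ _)
    (s₁ := rT S _ _ _ _ _ _ _ _) (s₂ := rT S _ _ _ _ _ _ _ _)
    (rT_comm S (s _ hBA) (s _ hCA) (s _ hDB) (s _ hDC) (s _ hBA) (s _ hCA) (s _ hDB) (s _ hDC)
      (s1 A) (s1 B) (s1 C) (s1 D))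
    (rT_comm S (s _ hBA) (s _ hCA) (s _ hDB) (s _ hDC) (s _ hBA) (s _ hCA) (s _ hDB) (s _ hDC)
      (s2 A) (s2 B) (s2 C) (s2 D))
    (rT_comm S (s _ hBA) (s _ hCA) (s _ hDB) (s _ hDC) (s _ hBA) (s _ hCA) (s _ hDB) (s _ hDC)
      (s10 A) (s10 B) (s10 C) (s10 D))
    (rT_comm S (s _ hBA) (s _ hCA) (s _ hDB) (s _ hDC) (s _ hBA) (s _ hCA) (s _ hDB) (s _ hDC)
      (s20 A) (s20 B) (s20 C) (s20 D)) ?_
    (totD_totD S (s _ hBA) (s _ hCA) (s _ hDB) (s _ hDC)) (two_PP S _ _ _ _)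
    (tot_acy₁ S (s _ hCA) h1 h1') (tot_acy₂ S (s _ hBA) h2 h2') (tot_acy₁ S (s _ hCA) h0 h0')
    ?_ ?_ ?_
  · rintro ⟨⟨x, y⟩, ⟨z, w⟩⟩
    exact Prod.ext (Prod.ext (rC_sq S (s20 A) (s10 A) x) (rC_sq S (s20 B) (s10 B) y))
      (Prod.ext (rC_sq S (s20 C) (s10 C) z) (rC_sq S (s20 D) (s10 D) w))
  · rintro ⟨⟨x, y⟩, ⟨z, w⟩⟩ ⟨⟨x', y'⟩, ⟨z', w'⟩⟩ e
    obtain ⟨a, ha, ha'⟩ := glue A x x' (congrArg (fun p => p.1.1) e)
    obtain ⟨b, hb, hb'⟩ := glue B y y' (congrArg (fun p => p.1.2) e)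
    obtain ⟨c, hc, hc'⟩ := glue C z z' (congrArg (fun p => p.2.1) e)
    obtain ⟨d, hd, hd'⟩ := glue D w w' (congrArg (fun p => p.2.2) e)
    exact ⟨((a, b), (c, d)), Prod.ext (Prod.ext ha hb) (Prod.ext hc hd),
      Prod.ext (Prod.ext ha' hb') (Prod.ext hc' hd')⟩
  · rintro ⟨⟨x, y⟩, ⟨z, w⟩⟩ ⟨⟨x', y'⟩, ⟨z', w'⟩⟩ e e'
    exact Prod.ext
      (Prod.ext (ext A lA x x' (congrArg (fun p => p.1.1) e) (congrArg (fun p => p.1.1) e'))
        (ext B lB y y' (congrArg (fun p => p.1.2) e) (congrArg (fun p => p.1.2) e')))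
      (Prod.ext (ext C lC z z' (congrArg (fun p => p.2.1) e) (congrArg (fun p => p.2.1) e'))
        (ext D lD w w' (congrArg (fun p => p.2.2) e) (congrArg (fun p => p.2.2) e')))
  · rintro ⟨⟨x, y⟩, ⟨z, w⟩⟩
    obtain ⟨a, ha⟩ := rC_surj S (s10 A) x
    obtain ⟨b, hb⟩ := rC_surj S (s10 B) y
    obtain ⟨c, hc⟩ := rC_surj S (s10 C) z
    obtain ⟨d, hd⟩ := rC_surj S (s10 D) w
    exact ⟨((a, b), (c, d)), Prod.ext (Prod.ext ha hb) (Prod.ext hc hd)⟩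

end Sets

end MP40506.CX.Cone
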