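import Pool.Agent.Work.MP_40506d_al.CX.Mon

/-!
# The symmetric monoidal structure on `KC A`
-/

open CategoryTheory CategoryTheory.Limits CategoryTheory.MonoidalCategory

universe v u v' u'

set_option linter.unusedSectionVars false

namespace MP40506.CX

variable {A : Type u} [Category.{v} A] [Preadditive A] [Two A] [MonoidalCategory A]
  [MonoidalPreadditive A]

namespace DObj

lemma nullH_left (P : DObj A) {R S : DObj A} {φ : R ⟶ S} (h : φ ∈ nullH R S) :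
    P ◁ φ ∈ nullH (P ⊗ R) (P ⊗ S) := by
  obtain ⟨k, hk⟩ := h
  refine ⟨P.X ◁ k, ?_⟩
  show P.X ◁ φ.f = (P.d ▷ R.X + P.X ◁ R.d) ≫ P.X ◁ k +
    P.X ◁ k ≫ (P.d ▷ S.X + P.X ◁ S.d)
  rw [hk]
  simp only [Preadditive.add_comp, Preadditive.comp_add, MonoidalPreadditive.whiskerLeft_add,
    MonoidalCategory.whiskerLeft_comp, whisker_exchange]
  have : P.d ▷ R.X ≫ P.X ◁ k + P.d ▷ R.X ≫ P.X ◁ k = 0 := add_self _
  have e : (P.X ◁ R.d ≫ P.X ◁ k + P.X ◁ k ≫ P.X ◁ S.d) =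
    (P.X ◁ R.d ≫ P.X ◁ k + P.X ◁ k ≫ P.X ◁ S.d) +
      (P.d ▷ R.X ≫ P.X ◁ k + P.d ▷ R.X ≫ P.X ◁ k) := by rw [this, add_zero]
  rw [e]
  abel

lemma nullH_right (P : DObj A) {R S : DObj A} {φ : R ⟶ S} (h : φ ∈ nullH R S) :
    φ ▷ P ∈ nullH (R ⊗ P) (S ⊗ P) := by
  obtain ⟨k, hk⟩ := h
  refine ⟨k ▷ P.X, ?_⟩
  show φ.f ▷ P.X = (R.d ▷ P.X + R.X ◁ P.d) ≫ k ▷ P.X +
    k ▷ P.X ≫ (S.d ▷ P.X + S.X ◁ P.d)
  rw [hk]
  simp only [Preadditive.add_comp, Preadditive.comp_add, MonoidalPreadditive.add_whiskerRight,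
    comp_whiskerRight, whisker_exchange]
  have : k ▷ P.X ≫ S.X ◁ P.d + k ▷ P.X ≫ S.X ◁ P.d = 0 := add_self _
  have e : (R.d ▷ P.X ≫ k ▷ P.X + k ▷ P.X ≫ S.d ▷ P.X) =
    (R.d ▷ P.X ≫ k ▷ P.X + k ▷ P.X ≫ S.d ▷ P.X) +
      (k ▷ P.X ≫ S.X ◁ P.d + k ▷ P.X ≫ S.X ◁ P.d) := by rw [this, add_zero]
  rw [e]
  abel

end DObj

namespace KC

/-- a chain map representing a morphism of the homotopy category -/
noncomputable def rep {X Y : KC A} (f : X ⟶ Y) : X.out ⟶ Y.out := (exists_q f).choose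

@[simp] lemma q_rep {X Y : KC A} (f : X ⟶ Y) : q (rep f) = f := (exists_q f).choose_spec

noncomputable instance : MonoidalCategoryStruct (KC A) where
  tensorObj X Y := ⟨X.out ⊗ Y.out⟩
  whiskerLeft X _ _ f := q (X.out ◁ rep f)
  whiskerRight f X := q (rep f ▷ X.out)
  tensorUnit := ⟨𝟙_ (DObj A)⟩
  associator X Y Z := (Q A).mapIso (α_ X.out Y.out Z.out)
  leftUnitor X := (Q A).mapIso (λ_ X.out)
  rightUnitor X := (Q A).mapIso (ρ_ X.out)

lemma out_tensor (X Y : KC A) : (X ⊗ Y).out = X.out ⊗ Y.out := rfl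

lemma out_unit : (𝟙_ (KC A)).out = 𝟙_ (DObj A) := rfl

lemma whiskerLeft_q (X : KC A) {Y Z : KC A} (φ : Y.out ⟶ Z.out) :
    X ◁ (q φ : Y ⟶ Z) = q (X.out ◁ φ) := by
  refine (q_eq_iff _ _).2 ?_
  have h1 : rep (q φ : Y ⟶ Z) - φ ∈ DObj.nullH Y.out Z.out := by
    rw [← q_eq_iff (X := Y) (Y := Z)]; exact q_rep _
  have h2 := DObj.nullH_left X.out h1
  have h3 : X.out ◁ (rep (q φ : Y ⟶ Z) - φ) = X.out ◁ rep (q φ : Y ⟶ Z) - X.out ◁ φ := by
    rw [sub_eq, sub_eq, MonoidalPreadditive.whiskerLeft_add]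
  rw [h3] at h2
  exact h2

lemma whiskerRight_q (X : KC A) {Y Z : KC A} (φ : Y.out ⟶ Z.out) :
    (q φ : Y ⟶ Z) ▷ X = q (φ ▷ X.out) := by
  refine (q_eq_iff _ _).2 ?_
  have h1 : rep (q φ : Y ⟶ Z) - φ ∈ DObj.nullH Y.out Z.out := by
    rw [← q_eq_iff (X := Y) (Y := Z)]; exact q_rep _
  have h2 := DObj.nullH_right X.out h1
  have h3 : (rep (q φ : Y ⟶ Z) - φ) ▷ X.out = rep (q φ : Y ⟶ Z) ▷ X.out - φ ▷ X.out := by
    rw [sub_eq, sub_eq, MonoidalPreadditive.add_whiskerRight]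
  rw [h3] at h2
  exact h2

lemma tensorHom_q {X X' Y Y' : KC A} (φ : X.out ⟶ X'.out) (ψ : Y.out ⟶ Y'.out) :
    (q φ : X ⟶ X') ⊗ₘ (q ψ : Y ⟶ Y') = q (φ ⊗ₘ ψ) := by
  show (q φ : X ⟶ X') ▷ Y ≫ X' ◁ (q ψ : Y ⟶ Y') = _
  rw [whiskerRight_q, whiskerLeft_q, ← q_comp]
  rfl

noncomputable instance : MonoidalCategory (KC A) where
  id_tensorHom_id X Y := by
    refine (tensorHom_q (𝟙 X.out) (𝟙 Y.out)).trans ?_
    exact congrArg q (id_tensorHom_id X.out Y.out)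
  tensorHom_comp_tensorHom {X₁ Y₁ Z₁ X₂ Y₂ Z₂} f₁ f₂ g₁ g₂ := by
    obtain ⟨f₁, rfl⟩ := exists_q f₁
    obtain ⟨f₂, rfl⟩ := exists_q f₂
    obtain ⟨g₁, rfl⟩ := exists_q g₁
    obtain ⟨g₂, rfl⟩ := exists_q g₂
    rw [← q_comp, ← q_comp, tensorHom_q, tensorHom_q, tensorHom_q, ← q_comp,
      tensorHom_comp_tensorHom]
  whiskerLeft_id X Y := by
    refine (whiskerLeft_q X (𝟙 Y.out)).trans ?_
    exact congrArg q (MonoidalCategory.whiskerLeft_id X.out Y.out)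
  id_whiskerRight X Y := by
    refine (whiskerRight_q Y (𝟙 X.out)).trans ?_
    exact congrArg q (MonoidalCategory.id_whiskerRight X.out Y.out)
  associator_naturality {X₁ X₂ X₃ Y₁ Y₂ Y₃} f₁ f₂ f₃ := by
    obtain ⟨f₁, rfl⟩ := exists_q f₁
    obtain ⟨f₂, rfl⟩ := exists_q f₂
    obtain ⟨f₃, rfl⟩ := exists_q f₃
    rw [tensorHom_q, tensorHom_q, tensorHom_q, tensorHom_q]
    exact congrArg q (associator_naturality f₁ f₂ f₃)
  leftUnitor_naturality {X Y} f := by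
    obtain ⟨f, rfl⟩ := exists_q f
    rw [whiskerLeft_q]
    exact congrArg q (leftUnitor_naturality f)
  rightUnitor_naturality {X Y} f := by
    obtain ⟨f, rfl⟩ := exists_q f
    rw [whiskerRight_q]
    exact congrArg q (rightUnitor_naturality f)
  pentagon X₁ X₂ X₃ X₄ := by
    refine Eq.trans ?_ (congrArg q (pentagon X₁.out X₂.out X₃.out X₄.out))
    have h1 := whiskerRight_q X₄ (Y := (X₁ ⊗ X₂) ⊗ X₃) (Z := X₁ ⊗ (X₂ ⊗ X₃))
      (α_ X₁.out X₂.out X₃.out).hom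
    have h2 := whiskerLeft_q X₁ (Y := (X₂ ⊗ X₃) ⊗ X₄) (Z := X₂ ⊗ (X₃ ⊗ X₄))
      (α_ X₂.out X₃.out X₄.out).hom
    exact congrArg₂ (fun a b => a ≫ q (α_ X₁.out (X₂.out ⊗ X₃.out) X₄.out).hom ≫ b) h1 h2
  triangle X Y := by
    have h1 := whiskerRight_q Y (Y := X ⊗ 𝟙_ (KC A)) (Z := X) (ρ_ X.out).hom
    have h2 := whiskerLeft_q X (Y := 𝟙_ (KC A) ⊗ Y) (Z := Y) (λ_ Y.out).hom
    refine Eq.trans (congrArg (fun b => q (α_ X.out (𝟙_ (DObj A)) Y.out).hom ≫ b) h2) ?_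
    refine Eq.trans ?_ h1.symm
    exact congrArg q (triangle X.out Y.out)

instance : MonoidalPreadditive (KC A) where
  whiskerLeft_zero {X Y Z} := by
    refine (whiskerLeft_q X (0 : Y.out ⟶ Z.out)).trans ?_
    exact congrArg q MonoidalPreadditive.whiskerLeft_zero
  zero_whiskerRight {X Y Z} := by
    refine (whiskerRight_q X (0 : Y.out ⟶ Z.out)).trans ?_
    exact congrArg q MonoidalPreadditive.zero_whiskerRight
  whiskerLeft_add {X Y Z} f g := by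
    obtain ⟨f, rfl⟩ := exists_q f
    obtain ⟨g, rfl⟩ := exists_q g
    rw [← q_add, whiskerLeft_q, whiskerLeft_q, whiskerLeft_q, ← q_add]
    exact congrArg q (MonoidalPreadditive.whiskerLeft_add f g)
  add_whiskerRight {X Y Z} f g := by
    obtain ⟨f, rfl⟩ := exists_q f
    obtain ⟨g, rfl⟩ := exists_q g
    rw [← q_add, whiskerRight_q, whiskerRight_q, whiskerRight_q, ← q_add]
    exact congrArg q (MonoidalPreadditive.add_whiskerRight f g)

variable [SymmetricCategory A]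

noncomputable instance : BraidedCategory (KC A) where
  braiding X Y := (Q A).mapIso (β_ X.out Y.out)
  braiding_naturality_right X Y Z f := by
    obtain ⟨f, rfl⟩ := exists_q f
    rw [whiskerLeft_q, whiskerRight_q]
    exact congrArg q (BraidedCategory.braiding_naturality_right X.out f)
  braiding_naturality_left {X Y} f Z := by
    obtain ⟨f, rfl⟩ := exists_q f
    rw [whiskerLeft_q, whiskerRight_q]
    exact congrArg q (BraidedCategory.braiding_naturality_left f Z.out)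
  hexagon_forward X Y Z := by
    have h1 := whiskerRight_q Z (Y := X ⊗ Y) (Z := Y ⊗ X) (β_ X.out Y.out).hom
    have h2 := whiskerLeft_q Y (Y := X ⊗ Z) (Z := Z ⊗ X) (β_ X.out Z.out).hom
    refine Eq.trans (congrArg q (BraidedCategory.hexagon_forward X.out Y.out Z.out)) ?_
    exact (congrArg₂ (fun a b => a ≫ q (α_ Y.out X.out Z.out).hom ≫ b) h1 h2).symm
  hexagon_reverse X Y Z := by
    have h1 := whiskerLeft_q X (Y := Y ⊗ Z) (Z := Z ⊗ Y) (β_ Y.out Z.out).hom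
    have h2 := whiskerRight_q Y (Y := X ⊗ Z) (Z := Z ⊗ X) (β_ X.out Z.out).hom
    refine Eq.trans (congrArg q (BraidedCategory.hexagon_reverse X.out Y.out Z.out)) ?_
    exact (congrArg₂ (fun a b => a ≫ q (α_ X.out Z.out Y.out).inv ≫ b) h1 h2).symm

lemma braiding_hom (X Y : KC A) : (β_ X Y).hom = q (β_ X.out Y.out).hom := rfl

noncomputable instance : SymmetricCategory (KC A) where
  symmetry X Y := congrArg q (SymmetricCategory.symmetry X.out Y.out)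

end KC

end MP40506.CX
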