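import Pool.Agent.Work.MP_40506d_al.CX.Tri
import Pool.Agent.Work.MP_40506d_al.CX.KMon

/-!
# Coproducts in `KC A`; the tensor product is exact and preserves coproducts
-/

open CategoryTheory CategoryTheory.Limits CategoryTheory.MonoidalCategory
  CategoryTheory.Pretriangulated

universe w v u v' u'

set_option linter.unusedSectionVars false

namespace MP40506.CX

section

variable {A : Type u} [Category.{v} A] [Preadditive A]

/-- a family of maps whose underlying cofan is a coproduct in `A` gives a coproduct in the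
homotopy category: existence and uniqueness of the descended map -/
lemma KC.desc_aux {J : Type w} {P : J → DObj A} {S : DObj A} (i : ∀ j, P j ⟶ S)
    (h : IsColimit (Cofan.mk S.X (fun j => (i j).f) : Cofan fun j => (P j).X))
    (W : DObj A) (φ : ∀ j, P j ⟶ W) : ∃ ψ : S ⟶ W, ∀ j, i j ≫ ψ = φ j := by
  let ψ : S.X ⟶ W.X := Cofan.IsColimit.desc h (fun j => (φ j).f)
  have hψ : ∀ j, (i j).f ≫ ψ = (φ j).f := fun j =>
    Cofan.IsColimit.fac h (fun j => (φ j).f) j
  refine ⟨{ f := ψ, comm := ?_ }, fun j => DObj.hom_ext (hψ j)⟩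
  refine Cofan.IsColimit.hom_ext h _ _ fun j => ?_
  show (i j).f ≫ S.d ≫ ψ = (i j).f ≫ ψ ≫ W.d
  rw [← (i j).comm_assoc, hψ j, (φ j).comm, reassoc_of% (hψ j)]

lemma DObj.subf {P R : DObj A} (φ ψ : P ⟶ R) : (φ - ψ).f = φ.f - ψ.f := by
  rw [eq_sub_iff_add_eq]
  exact congrArg DObj.Hom.f (sub_add_cancel φ ψ)

lemma KC.uniq_aux {J : Type w} {P : J → DObj A} {S : DObj A} (i : ∀ j, P j ⟶ S)
    (h : IsColimit (Cofan.mk S.X (fun j => (i j).f) : Cofan fun j => (P j).X))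
    (W : DObj A) (ψ ψ' : S ⟶ W)
    (hh : ∀ j, (KC.q (i j ≫ ψ) : (⟨P j⟩ : KC A) ⟶ ⟨W⟩) = KC.q (i j ≫ ψ')) :
    (KC.q ψ : (⟨S⟩ : KC A) ⟶ ⟨W⟩) = KC.q ψ' := by
  choose k hk using fun j =>
    (KC.q_eq_iff (X := (⟨P j⟩ : KC A)) (Y := ⟨W⟩) (i j ≫ ψ) (i j ≫ ψ')).1 (hh j)
  refine (KC.q_eq_iff (X := (⟨S⟩ : KC A)) (Y := ⟨W⟩) ψ ψ').2 ?_
  let K : S.X ⟶ W.X := Cofan.IsColimit.desc h k
  have hK : ∀ j, (i j).f ≫ K = k j := fun j => Cofan.IsColimit.fac h k j
  refine ⟨K, Cofan.IsColimit.hom_ext h _ _ fun j => ?_⟩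
  show (i j).f ≫ (ψ - ψ').f = (i j).f ≫ (S.d ≫ K + K ≫ W.d)
  have := hk j
  rw [DObj.subf, DObj.comp_f, DObj.comp_f] at this
  rw [DObj.subf, Preadditive.comp_sub]
  refine this.trans ?_
  rw [Preadditive.comp_add, ← (i j).comm_assoc, hK j, reassoc_of% (hK j)]

/-- a family of maps whose underlying cofan is a coproduct in `A` gives a coproduct in the
homotopy category -/
noncomputable def KC.cofanIsColimit {J : Type w} {P : J → DObj A} {S : DObj A}
    (i : ∀ j, P j ⟶ S)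
    (h : IsColimit (Cofan.mk S.X (fun j => (i j).f) : Cofan fun j => (P j).X)) :
    IsColimit (Cofan.mk (⟨S⟩ : KC A)
      (fun j => (KC.q (i j) : (⟨P j⟩ : KC A) ⟶ ⟨S⟩))) :=
  Cofan.IsColimit.mk _
    (fun t => KC.q (X := (⟨S⟩ : KC A)) (Y := t.pt)
      (KC.desc_aux i h t.pt.out
        (fun j => (KC.exists_q (X := (⟨P j⟩ : KC A)) (Y := t.pt) (t.inj j)).choose)).choose)
    (fun t j => by
      have h1 := (KC.desc_aux i h t.pt.out
        (fun j => (KC.exists_q (X := (⟨P j⟩ : KC A)) (Y := t.pt) (t.inj j)).choose)).choose_spec j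
      have h2 := (KC.exists_q (X := (⟨P j⟩ : KC A)) (Y := t.pt) (t.inj j)).choose_spec
      exact (congrArg (KC.q (X := (⟨P j⟩ : KC A)) (Y := t.pt)) h1).trans h2)
    (fun t f hf => by
      obtain ⟨φ, rfl⟩ := KC.exists_q (X := (⟨S⟩ : KC A)) (Y := t.pt) f
      refine KC.uniq_aux i h t.pt.out _ _ fun j => ?_
      have h1 := (KC.desc_aux i h t.pt.out
        (fun j => (KC.exists_q (X := (⟨P j⟩ : KC A)) (Y := t.pt) (t.inj j)).choose)).choose_spec j
      have h2 := (KC.exists_q (X := (⟨P j⟩ : KC A)) (Y := t.pt) (t.inj j)).choose_spec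
      exact (hf j).trans
        ((congrArg (KC.q (X := (⟨P j⟩ : KC A)) (Y := t.pt)) h1).trans h2).symm)

end

section

variable {A : Type u} [Category.{v} A] [Preadditive A] [HasCoproducts.{w} A]

/-- the coproduct of differential objects -/
noncomputable def DObj.sig {J : Type w} (P : J → DObj A) : DObj A where
  X := ∐ fun j => (P j).X
  d := Limits.Sigma.map fun j => (P j).d
  dd := by
    refine Limits.Sigma.hom_ext _ _ fun j => ?_
    rw [Limits.Sigma.ι_map_assoc, Limits.Sigma.ι_map, (P j).dd_assoc, zero_comp, comp_zero]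

/-- the inclusions -/
noncomputable def DObj.sigι {J : Type w} (P : J → DObj A) (j : J) : P j ⟶ DObj.sig P where
  f := Limits.Sigma.ι (fun j => (P j).X) j
  comm := (Limits.Sigma.ι_map (fun j => (P j).d) j).symm

/-- the underlying cofan of `DObj.sig` is a coproduct -/
noncomputable def DObj.sigIsColimit {J : Type w} (P : J → DObj A) :
    IsColimit (Cofan.mk (DObj.sig P).X (fun j => (DObj.sigι P j).f) :
      Cofan fun j => (P j).X) :=
  coproductIsCoproduct (fun j => (P j).X)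

/-- `DObj.sig` is a coproduct in the homotopy category -/
noncomputable def KC.sigIsColimit {J : Type w} (P : J → DObj A) :
    IsColimit (Cofan.mk (⟨DObj.sig P⟩ : KC A)
      (fun j => (KC.q (DObj.sigι P j) : (⟨P j⟩ : KC A) ⟶ ⟨DObj.sig P⟩))) :=
  KC.cofanIsColimit _ (DObj.sigIsColimit P)

instance : HasCoproducts.{w} (KC A) :=
  hasCoproducts_of_colimit_cofans
    (fun f => (Cofan.mk (⟨DObj.sig fun j => (f j).out⟩ : KC A)
      (fun j => (KC.q (DObj.sigι (fun j => (f j).out) j) :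
        f j ⟶ ⟨DObj.sig fun j => (f j).out⟩))))
    (fun f => KC.sigIsColimit (fun j => (f j).out))

end

section

variable {A : Type u} [Category.{v} A] [Preadditive A] [Two A] [MonoidalCategory A]
  [MonoidalPreadditive A]

/-- the tensor product of cone data with an object -/
def ConeData.whiskerLeft (X : DObj A) {P R : DObj A} {φ : P ⟶ R} {C : DObj A}
    (D : ConeData φ C) : ConeData (X ◁ φ) (X ⊗ C) where
  inl := X ◁ D.inl
  pr := X ◁ D.pr
  s := X.X ◁ D.s
  r := X.X ◁ D.r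
  inl_pr := by
    show X.X ◁ D.inl.f ≫ X.X ◁ D.pr.f = 0
    rw [← MonoidalCategory.whiskerLeft_comp, D.inl_pr, MonoidalPreadditive.whiskerLeft_zero]
  s_pr := by
    show X.X ◁ D.s ≫ X.X ◁ D.pr.f = 𝟙 _
    rw [← MonoidalCategory.whiskerLeft_comp, D.s_pr, MonoidalCategory.whiskerLeft_id]
  inl_r := by
    show X.X ◁ D.inl.f ≫ X.X ◁ D.r = 𝟙 _
    rw [← MonoidalCategory.whiskerLeft_comp, D.inl_r, MonoidalCategory.whiskerLeft_id]
  s_r := by
    show X.X ◁ D.s ≫ X.X ◁ D.r = 0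
    rw [← MonoidalCategory.whiskerLeft_comp, D.s_r, MonoidalPreadditive.whiskerLeft_zero]
  total := by
    show X.X ◁ D.pr.f ≫ X.X ◁ D.s + X.X ◁ D.r ≫ X.X ◁ D.inl.f = 𝟙 _
    rw [← MonoidalCategory.whiskerLeft_comp, ← MonoidalCategory.whiskerLeft_comp,
      ← MonoidalPreadditive.whiskerLeft_add, D.total, MonoidalCategory.whiskerLeft_id]
  diff := by
    show (X.d ▷ P.X + X.X ◁ P.d) ≫ X.X ◁ D.s + X.X ◁ D.s ≫ (X.d ▷ C.X + X.X ◁ C.d) =
      X.X ◁ φ.f ≫ X.X ◁ D.inl.f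
    rw [← MonoidalCategory.whiskerLeft_comp, ← D.diff, MonoidalPreadditive.whiskerLeft_add,
      MonoidalCategory.whiskerLeft_comp, MonoidalCategory.whiskerLeft_comp]
    simp only [Preadditive.add_comp, Preadditive.comp_add, whisker_exchange]
    have h0 : X.d ▷ P.X ≫ X.X ◁ D.s + X.d ▷ P.X ≫ X.X ◁ D.s = 0 := add_self _
    have e : X.X ◁ P.d ≫ X.X ◁ D.s + X.X ◁ D.s ≫ X.X ◁ C.d =
      X.X ◁ P.d ≫ X.X ◁ D.s + X.X ◁ D.s ≫ X.X ◁ C.d +
        (X.d ▷ P.X ≫ X.X ◁ D.s + X.d ▷ P.X ≫ X.X ◁ D.s) := by rw [h0, add_zero]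
    rw [e]
    abel

variable [HasZeroObject A] [HasBinaryBiproducts A]

lemma KC.tensorLeft_tri (X : KC A) {P R : DObj A} {φ : P ⟶ R} {C : DObj A}
    (D : ConeData φ C) :
    (tensorLeft X).mapTriangle.obj D.tri ∈ distTriang (KC A) := by
  refine ⟨X.out ⊗ P, X.out ⊗ R, X.out ◁ φ, X.out ⊗ C, ConeData.whiskerLeft X.out D, ⟨?_⟩⟩
  refine Triangle.isoMk _ _ (Iso.refl _) (Iso.refl _) (Iso.refl _) ?_ ?_ ?_
  · show (X ◁ (KC.q φ : (⟨P⟩ : KC A) ⟶ ⟨R⟩)) ≫ 𝟙 _ = 𝟙 _ ≫ KC.q (X.out ◁ φ)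
    rw [Category.id_comp, Category.comp_id]
    exact KC.whiskerLeft_q X φ
  · show (X ◁ (KC.q D.inl : (⟨R⟩ : KC A) ⟶ ⟨C⟩)) ≫ 𝟙 _ = 𝟙 _ ≫ KC.q (X.out ◁ D.inl)
    rw [Category.id_comp, Category.comp_id]
    exact KC.whiskerLeft_q X D.inl
  · show ((X ◁ (KC.q D.pr : (⟨C⟩ : KC A) ⟶ ⟨P⟩)) ≫ 𝟙 (X ⊗ (⟨P⟩ : KC A))) ≫ 𝟙 _ =
      𝟙 _ ≫ KC.q (X.out ◁ D.pr)
    rw [Category.id_comp, Category.comp_id]
    exact (Category.comp_id _).trans (KC.whiskerLeft_q X D.pr)

instance (X : KC A) : (tensorLeft X).IsTriangulated where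
  map_distinguished T hT := by
    obtain ⟨P, R, φ, C, D, ⟨e⟩⟩ := hT
    exact isomorphic_distinguished _ (KC.tensorLeft_tri X D) _
      ((tensorLeft X).mapTriangle.mapIso e)

end

section

variable {A : Type u} [Category.{v} A] [Preadditive A] [Two A] [HasCoproducts.{w} A]
  [MonoidalCategory A] [MonoidalPreadditive A]

/-- the tensor product with a coproduct is a coproduct -/
noncomputable def DObj.tensorSigIsColimit (X : DObj A) {J : Type w} (P : J → DObj A)
    [PreservesColimit (Discrete.functor fun j => (P j).X) (tensorLeft X.X)] :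
    IsColimit (Cofan.mk (X ⊗ DObj.sig P).X (fun j => (X ◁ DObj.sigι P j).f) :
      Cofan fun j => (X ⊗ P j).X) :=
  isColimitCofanMkObjOfIsColimit (tensorLeft X.X) (fun j => (P j).X) _ (DObj.sigIsColimit P)

variable [∀ (X : A) (J : Type w), PreservesColimitsOfShape (Discrete J) (tensorLeft X)]

instance (X : KC A) (J : Type w) : PreservesColimitsOfShape (Discrete J) (tensorLeft X) := by
  have key : ∀ f : J → KC A, PreservesColimit (Discrete.functor f) (tensorLeft X) := fun f => ?_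
  · exact preservesColimitsOfShape_of_discrete _
  refine preservesColimit_of_preserves_colimit_cocone (KC.sigIsColimit (fun j => (f j).out)) ?_
  refine (isColimitMapCoconeCofanMkEquiv _ _ _).symm ?_
  have h := KC.cofanIsColimit _ (DObj.tensorSigIsColimit X.out (fun j => (f j).out))
  have e : (fun j => (tensorLeft X).map (KC.q (DObj.sigι (fun j => (f j).out) j) :
      f j ⟶ ⟨DObj.sig fun j => (f j).out⟩)) =
    (fun j => (KC.q (X.out ◁ DObj.sigι (fun j => (f j).out) j) :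
      (X ⊗ f j : KC A) ⟶ ⟨X.out ⊗ DObj.sig fun j => (f j).out⟩)) := by
    funext j
    exact KC.whiskerLeft_q X (DObj.sigι (fun j => (f j).out) j)
  rw [e]
  exact h

end

end MP40506.CX
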