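import Pool.Agent.Work.MP_40506d_al.CX.Nerve

/-!
# The abstract part of section 5: total complexes of squares

`DM` : abelian groups with `2 = 0` and a differential.  `DM.cone`.  `DM.QI.cone`: the cone of a
levelwise quasi-isomorphism is a quasi-isomorphism.  The final statement is `Cube.exact`.
-/

set_option linter.unusedSectionVars false

namespace MP40506.CX

/-- abelian groups with `2 = 0` and a differential -/
structure DM where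
  A : Type
  [grp : AddCommGroup A]
  d : A →+ A
  dd : ∀ x, d (d x) = 0
  two : ∀ x : A, x + x = 0

attribute [instance] DM.grp

namespace DM

lemma add_eq_zero' (X : DM) {x y : X.A} : x + y = 0 ↔ x = y := by
  constructor
  · intro h
    have h2 := X.two y
    calc x = x + (y + y) := by rw [h2, add_zero]
      _ = (x + y) + y := by abel
      _ = y := by rw [h, zero_add]
  · rintro rfl
    exact X.two x

/-- maps of differential groups -/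
structure Hom (X Y : DM) where
  f : X.A →+ Y.A
  comm : ∀ x, f (X.d x) = Y.d (f x)

/-- exactness -/
def Acyc (X : DM) : Prop := ∀ x, X.d x = 0 → ∃ y, X.d y = x

/-- quasi-isomorphisms -/
structure QI {X Y : DM} (φ : Hom X Y) : Prop where
  surj : ∀ y, Y.d y = 0 → ∃ x, X.d x = 0 ∧ ∃ z, φ.f x + y = Y.d z
  inj : ∀ x, X.d x = 0 → ∀ z, φ.f x = Y.d z → ∃ w, X.d w = x

/-- the cone -/
def cone {X Y : DM} (f : Hom X Y) : DM where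
  A := X.A × Y.A
  d :=
    { toFun := fun p => (X.d p.1, f.f p.1 + Y.d p.2)
      map_zero' := by simp
      map_add' := fun p q => by
        ext
        · simp
        · simp only [Prod.fst_add, Prod.snd_add, map_add]
          abel }
  dd := fun p => by
    apply Prod.ext
    · exact X.dd p.1
    · show f.f (X.d p.1) + Y.d (f.f p.1 + Y.d p.2) = 0
      rw [map_add, Y.dd, add_zero, f.comm]
      exact Y.two _
  two := fun p => Prod.ext (X.two p.1) (Y.two p.2)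

lemma cone_d {X Y : DM} (f : Hom X Y) (x : X.A) (y : Y.A) :
    (cone f).d (x, y) = (X.d x, f.f x + Y.d y) := rfl

/-- maps between cones -/
def coneMap {X Y X' Y' : DM} {f : Hom X Y} {f' : Hom X' Y'} (φ : Hom X X') (ψ : Hom Y Y')
    (h : ∀ x, f'.f (φ.f x) = ψ.f (f.f x)) : Hom (cone f) (cone f') where
  f :=
    { toFun := fun p => (φ.f p.1, ψ.f p.2)
      map_zero' := Prod.ext (map_zero φ.f) (map_zero ψ.f)
      map_add' := fun p q => Prod.ext (map_add φ.f p.1 q.1) (map_add ψ.f p.2 q.2) }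
  comm := fun p => by
    apply Prod.ext
    · exact φ.comm p.1
    · show ψ.f (f.f p.1 + Y.d p.2) = f'.f (φ.f p.1) + Y'.d (ψ.f p.2)
      rw [map_add, ψ.comm, h]

lemma QI.cone {X Y X' Y' : DM} {f : Hom X Y} {f' : Hom X' Y'} {φ : Hom X X'} {ψ : Hom Y Y'}
    (h : ∀ x, f'.f (φ.f x) = ψ.f (f.f x)) (hφ : QI φ) (hψ : QI ψ) :
    QI (coneMap (f := f) (f' := f') φ ψ h) where
  surj := by
    rintro ⟨x', y'⟩ hd
    have hd1 : X'.d x' = 0 := congrArg Prod.fst hd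
    have hd2 : f'.f x' + Y'.d y' = 0 := congrArg Prod.snd hd
    rw [Y'.add_eq_zero'] at hd2
    obtain ⟨x, hx, z, hz⟩ := hφ.surj x' hd1
    have h1 : ψ.f (f.f x) = Y'.d (y' + f'.f z) := by
      rw [← h, map_add, ← f'.comm, ← hz, map_add, hd2]
      calc f'.f (φ.f x) = (Y'.d y' + Y'.d y') + f'.f (φ.f x) := by rw [Y'.two, zero_add]
        _ = Y'.d y' + (f'.f (φ.f x) + Y'.d y') := by abel
    obtain ⟨w, hw⟩ := hψ.inj (f.f x) (by rw [← f.comm, hx, map_zero]) _ h1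
    have h2 : Y'.d (ψ.f w + (y' + f'.f z)) = 0 := by
      rw [map_add, ← ψ.comm, hw, h1]
      exact Y'.two _
    obtain ⟨v, hv, u, hu⟩ := hψ.surj _ h2
    refine ⟨(x, w + v), ?_, (z, u), ?_⟩
    · rw [cone_d, hx, map_add, hv, add_zero, hw, Y.two]
      rfl
    · rw [cone_d]
      apply Prod.ext
      · exact hz
      · show ψ.f (w + v) + y' = f'.f z + Y'.d u
        rw [← hu, map_add]
        calc ψ.f w + ψ.f v + y' = (f'.f z + f'.f z) + (ψ.f w + ψ.f v + y') := by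
              rw [Y'.two, zero_add]
          _ = f'.f z + (ψ.f v + (ψ.f w + (y' + f'.f z))) := by abel
  inj := by
    rintro ⟨x, y⟩ hd ⟨z, u⟩ hz
    have hd1 : X.d x = 0 := congrArg Prod.fst hd
    have hd2 : f.f x + Y.d y = 0 := congrArg Prod.snd hd
    have hz1 : φ.f x = X'.d z := congrArg Prod.fst hz
    have hz2 : ψ.f y = f'.f z + Y'.d u := congrArg Prod.snd hz
    rw [Y.add_eq_zero'] at hd2
    obtain ⟨w, hw⟩ := hφ.inj x hd1 z hz1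
    have h1 : X'.d (φ.f w + z) = 0 := by
      rw [map_add, ← φ.comm, hw, hz1]
      exact X'.two _
    obtain ⟨v, hv, s, hs⟩ := hφ.surj _ h1
    have h2 : Y.d (y + f.f (w + v)) = 0 := by
      rw [map_add, ← f.comm, map_add, hw, hv, add_zero, hd2]
      exact Y.two _
    have h3 : ψ.f (y + f.f (w + v)) = Y'.d (f'.f s + u) := by
      have h4 : ψ.f (f.f (w + v)) = f'.f (X'.d s) + f'.f z := by
        rw [← h, ← hs, map_add, map_add, map_add, map_add]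
        calc f'.f (φ.f w) + f'.f (φ.f v) = (f'.f z + f'.f z) + (f'.f (φ.f w) + f'.f (φ.f v)) := by
              rw [Y'.two, zero_add]
          _ = f'.f (φ.f v) + (f'.f (φ.f w) + f'.f z) + f'.f z := by abel
      rw [map_add, h4, hz2, map_add, ← f'.comm]
      calc f'.f z + Y'.d u + (f'.f (X'.d s) + f'.f z)
          = (f'.f z + f'.f z) + (f'.f (X'.d s) + Y'.d u) := by abel
        _ = f'.f (X'.d s) + Y'.d u := by rw [Y'.two, zero_add]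
    obtain ⟨t, ht⟩ := hψ.inj _ h2 _ h3
    refine ⟨(w + v, t), ?_⟩
    rw [cone_d, ht, map_add, hw, hv, add_zero]
    apply Prod.ext
    · rfl
    · show f.f (w + v) + (y + f.f (w + v)) = y
      calc f.f (w + v) + (y + f.f (w + v)) = (f.f (w + v) + f.f (w + v)) + y := by abel
        _ = y := by rw [Y.two, zero_add]

lemma QI.acyc_cone {X Y : DM} {f : Hom X Y} (hf : QI f) : Acyc (DM.cone f) := by
  rintro ⟨x, y⟩ hd
  have hd1 : X.d x = 0 := congrArg Prod.fst hd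
  have hd2 : f.f x + Y.d y = 0 := congrArg Prod.snd hd
  rw [Y.add_eq_zero'] at hd2
  obtain ⟨w, hw⟩ := hf.inj x hd1 y hd2
  have h1 : Y.d (y + f.f w) = 0 := by
    rw [map_add, ← f.comm, hw, hd2]
    exact Y.two _
  obtain ⟨v, hv, z, hz⟩ := hf.surj _ h1
  refine ⟨(w + v, z), ?_⟩
  rw [cone_d, map_add, hw, hv, add_zero]
  apply Prod.ext
  · rfl
  · show f.f (w + v) + Y.d z = y
    rw [← hz, map_add]
    calc f.f w + f.f v + (f.f v + (y + f.f w))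
        = (f.f w + f.f w) + (f.f v + f.f v) + y := by abel
      _ = y := by rw [Y.two, Y.two, add_zero, zero_add]

lemma QI.acyc {X Y : DM} {f : Hom X Y} (hf : QI f) (hY : Acyc Y) : Acyc X := by
  intro x hx
  obtain ⟨z, hz⟩ := hY (f.f x) (by rw [← f.comm, hx, map_zero])
  exact hf.inj x hx z hz.symm

lemma QI.of_bij {X Y : DM} {f : Hom X Y} (hf : Function.Bijective f.f) : QI f where
  surj := by
    intro y hy
    obtain ⟨x, rfl⟩ := hf.2 y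
    refine ⟨x, hf.1 ?_, 0, ?_⟩
    · rw [f.comm, hy, map_zero]
    · rw [map_zero]
      exact Y.two _
  inj := by
    intro x hx z hz
    obtain ⟨w, rfl⟩ := hf.2 z
    refine ⟨w, hf.1 ?_⟩
    rw [f.comm, hz]

/-- Mayer-Vietoris -/
lemma mayer {X A B C : DM} (a : Hom X A) (b : Hom X B) (p : Hom A C) (q : Hom B C)
    (hinj : ∀ x y, a.f x = a.f y → b.f x = b.f y → x = y)
    (hglue : ∀ x y, p.f x = q.f y → ∃ z, a.f z = x ∧ b.f z = y)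
    (hcom : ∀ x, p.f (a.f x) = q.f (b.f x))
    (hsurj : ∀ z, ∃ x, p.f x = z)
    (hA : Acyc A) (hB : Acyc B) (hC : Acyc C) : Acyc X := by
  intro x hx
  obtain ⟨y₁, h₁⟩ := hA (a.f x) (by rw [← a.comm, hx, map_zero])
  obtain ⟨y₂, h₂⟩ := hB (b.f x) (by rw [← b.comm, hx, map_zero])
  have h3 : C.d (p.f y₁ + q.f y₂) = 0 := by
    rw [map_add, ← p.comm, ← q.comm, h₁, h₂, hcom]
    exact C.two _
  obtain ⟨z, hz⟩ := hC _ h3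
  obtain ⟨z', rfl⟩ := hsurj z
  obtain ⟨y, hy1, hy2⟩ := hglue (y₁ + A.d z') y₂ (by
    rw [map_add, p.comm, hz]
    calc p.f y₁ + (p.f y₁ + q.f y₂) = (p.f y₁ + p.f y₁) + q.f y₂ := by abel
      _ = q.f y₂ := by rw [C.two, zero_add])
  refine ⟨y, hinj _ _ ?_ ?_⟩
  · rw [a.comm, hy1, map_add, A.dd, add_zero, h₁]
  · rw [b.comm, hy2, h₂]

end DM

namespace Nerve

namespace DSheaf

open DM

variable {P : Type} [PartialOrder P] (S : DSheaf P)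

/-- the cochains of `W` as a differential group -/
noncomputable def dm (W : Set P) : DM where
  A := S.C W
  d :=
    { toFun := fun x => ⟨S.D W x.1, S.D_mem W x.1⟩
      map_zero' := Subtype.ext (S.D_zero W)
      map_add' := fun x y => Subtype.ext (S.D_add W x.1 y.1) }
  dd := fun x => Subtype.ext (S.D_D W x.1)
  two := fun x => Subtype.ext (S.add_self x.1)

/-- restriction -/
noncomputable def tm {W W' : Set P} (h : W' ⊆ W) : Hom (S.dm W) (S.dm W') where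
  f :=
    { toFun := fun x => ⟨S.tr W' x.1, S.tr_mem W' x.1⟩
      map_zero' := Subtype.ext (by
        have := S.tr_add W' 0 0
        rw [add_zero] at this
        exact left_eq_add.mp this)
      map_add' := fun x y => Subtype.ext (S.tr_add W' x.1 y.1) }
  comm := fun x => Subtype.ext (by
    show S.tr W' (S.D W x.1) = S.D W' (S.tr W' x.1)
    rw [S.tr_D h, S.D_tr (le_refl _)])

lemma tm_val {W W' : Set P} (h : W' ⊆ W) (x : (S.dm W).A) : ((S.tm h).f x).1 = S.tr W' x.1 := rfl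

lemma dm_d_val {W : Set P} (x : (S.dm W).A) : ((S.dm W).d x).1 = S.D W x.1 := rfl

lemma tm_tm {W W' W₁ W'' : Set P} (h : W' ⊆ W) (h' : W'' ⊆ W') (h₁ : W₁ ⊆ W) (h₁' : W'' ⊆ W₁)
    (x : (S.dm W).A) : (S.tm h').f ((S.tm h).f x) = (S.tm h₁').f ((S.tm h₁).f x) :=
  Subtype.ext (by
    show S.tr W'' (S.tr W' x.1) = S.tr W'' (S.tr W₁ x.1)
    rw [S.tr_tr h', S.tr_tr h₁'])

variable {S}

lemma QIso.qi {W E : Set P} (h : QIso S W E) : QI (S.tm h.sub) where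
  surj := by
    intro y hy
    obtain ⟨x, hx, hdx, z, hz, hxz⟩ := h.surj y.1 y.2 (congrArg Subtype.val hy)
    exact ⟨⟨x, hx⟩, Subtype.ext hdx, ⟨z, hz⟩, Subtype.ext hxz⟩
  inj := by
    intro x hx z hz
    obtain ⟨w, hw, hdw⟩ := h.inj x.1 x.2 (congrArg Subtype.val hx) z.1 z.2
      (congrArg Subtype.val hz)
    exact ⟨⟨w, hw⟩, Subtype.ext hdw⟩

lemma QIso.refl (W : Set P) : QIso S W W where
  sub := le_refl _
  surj := fun x hx hd => ⟨x, hx, hd, 0, (S.C W).zero_mem, by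
    rw [S.tr_eq_self hx, S.add_self, S.D_zero]⟩
  inj := fun y hy _ z hz h => ⟨z, hz, by rw [← h, S.tr_eq_self hy]⟩

lemma QIso.of_eq {W E : Set P} (h : W = E) : QIso S W E := h ▸ QIso.refl W

variable (S)

/-- a square of lower sets -/
structure Cube (P : Type) [PartialOrder P] where
  W₀₀ : Set P
  W₁₀ : Set P
  W₀₁ : Set P
  W₁₁ : Set P
  l₀₀ : IsLowerSet W₀₀
  l₁₀ : IsLowerSet W₁₀
  l₀₁ : IsLowerSet W₀₁
  l₁₁ : IsLowerSet W₁₁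
  h₁₀ : W₁₀ ⊆ W₀₀
  h₀₁ : W₀₁ ⊆ W₀₀
  h₁₁ : W₁₁ ⊆ W₁₀
  h₁₁' : W₁₁ ⊆ W₀₁

namespace Cube

variable (K : Cube P)

/-- the intersection with a lower set -/
def inter (E : Set P) (hE : IsLowerSet E) : Cube P where
  W₀₀ := K.W₀₀ ∩ E
  W₁₀ := K.W₁₀ ∩ E
  W₀₁ := K.W₀₁ ∩ E
  W₁₁ := K.W₁₁ ∩ E
  l₀₀ := K.l₀₀.inter hE
  l₁₀ := K.l₁₀.inter hE
  l₀₁ := K.l₀₁.inter hE
  l₁₁ := K.l₁₁.inter hE
  h₁₀ := Set.inter_subset_inter_left _ K.h₁₀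
  h₀₁ := Set.inter_subset_inter_left _ K.h₀₁
  h₁₁ := Set.inter_subset_inter_left _ K.h₁₁
  h₁₁' := Set.inter_subset_inter_left _ K.h₁₁'

/-- the total complex -/
noncomputable def tot : DM :=
  DM.cone (DM.coneMap (f := S.tm K.h₁₀) (f' := S.tm K.h₁₁') (S.tm K.h₀₁) (S.tm K.h₁₁)
    (fun x => S.tm_tm _ _ _ _ x))

/-- `K'` is contained in `K` -/
structure Le (K' K : Cube P) : Prop where
  s₀₀ : K'.W₀₀ ⊆ K.W₀₀
  s₁₀ : K'.W₁₀ ⊆ K.W₁₀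
  s₀₁ : K'.W₀₁ ⊆ K.W₀₁
  s₁₁ : K'.W₁₁ ⊆ K.W₁₁

/-- restriction of total complexes -/
noncomputable def tt {K' K : Cube P} (h : Le K' K) : Hom (K.tot S) (K'.tot S) :=
  DM.coneMap
    (DM.coneMap (S.tm h.s₀₀) (S.tm h.s₁₀) (fun x => S.tm_tm _ _ _ _ x))
    (DM.coneMap (S.tm h.s₀₁) (S.tm h.s₁₁) (fun x => S.tm_tm _ _ _ _ x))
    (fun x => Prod.ext (S.tm_tm _ _ _ _ x.1) (S.tm_tm _ _ _ _ x.2))

lemma tt_qi {K' K : Cube P} (h₀₀ : QIso S K.W₀₀ K'.W₀₀) (h₁₀ : QIso S K.W₁₀ K'.W₁₀)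
    (h₀₁ : QIso S K.W₀₁ K'.W₀₁) (h₁₁ : QIso S K.W₁₁ K'.W₁₁) :
    QI (tt S (K' := K') (K := K) ⟨h₀₀.sub, h₁₀.sub, h₀₁.sub, h₁₁.sub⟩) :=
  QI.cone _ (QI.cone _ h₀₀.qi h₁₀.qi) (QI.cone _ h₀₁.qi h₁₁.qi)

lemma acyc_of_eq (h : K.W₁₀ = K.W₀₀) (h' : K.W₁₁ = K.W₀₁) : Acyc (K.tot S) := by
  apply DM.QI.acyc_cone
  have h1 : QI (S.tm K.h₁₀) := (QIso.of_eq h.symm).qi
  have h2 : QI (S.tm K.h₁₁') := (QIso.of_eq h'.symm).qi
  have e1 := h1.acyc_cone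
  have e2 := h2.acyc_cone
  constructor
  · intro y hy
    obtain ⟨z, hz⟩ := e2 y hy
    exact ⟨0, map_zero _, z, by rw [map_zero, zero_add, hz]⟩
  · intro x hx _ _
    exact e1 x hx

lemma acyc_of_eq' (h : K.W₀₁ = K.W₀₀) (h' : K.W₁₁ = K.W₁₀) : Acyc (K.tot S) := by
  apply DM.QI.acyc_cone
  exact QI.cone _ (QIso.of_eq h.symm).qi (QIso.of_eq h'.symm).qi

end Cube

section mv

variable {W E₁ E₂ : Set P} (hW : IsLowerSet W) (h₁ : IsLowerSet E₁) (h₂ : IsLowerSet E₂)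

lemma sub₁ : W ∩ E₁ ⊆ W ∩ (E₁ ∪ E₂) := fun _ h => ⟨h.1, Or.inl h.2⟩

lemma sub₂ : W ∩ E₂ ⊆ W ∩ (E₁ ∪ E₂) := fun _ h => ⟨h.1, Or.inr h.2⟩

lemma sub₃ : W ∩ (E₁ ∩ E₂) ⊆ W ∩ E₁ := fun _ h => ⟨h.1, h.2.1⟩

lemma sub₄ : W ∩ (E₁ ∩ E₂) ⊆ W ∩ E₂ := fun _ h => ⟨h.1, h.2.2⟩

include hW h₁ h₂

lemma mv_inj (x y : (S.dm (W ∩ (E₁ ∪ E₂))).A)
    (e₁ : (S.tm (sub₁ (W := W) (E₁ := E₁) (E₂ := E₂))).f x = (S.tm sub₁).f y)
    (e₂ : (S.tm (sub₂ (W := W) (E₁ := E₁) (E₂ := E₂))).f x = (S.tm sub₂).f y) : x = y := by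
  apply Subtype.ext
  have hx : x.1 ∈ S.C ((W ∩ E₁) ∪ (W ∩ E₂)) := by
    rw [← Set.inter_union_distrib_left]
    exact x.2
  have hy : y.1 ∈ S.C ((W ∩ E₁) ∪ (W ∩ E₂)) := by
    rw [← Set.inter_union_distrib_left]
    exact y.2
  exact S.union_ext (hW.inter h₁) (hW.inter h₂) hx hy (congrArg Subtype.val e₁)
    (congrArg Subtype.val e₂)

omit hW h₁ h₂ in
lemma mv_glue (x : (S.dm (W ∩ E₁)).A) (y : (S.dm (W ∩ E₂)).A)
    (e : (S.tm (sub₃ (W := W) (E₁ := E₁) (E₂ := E₂))).f x = (S.tm sub₄).f y) :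
    ∃ z : (S.dm (W ∩ (E₁ ∪ E₂))).A, (S.tm (sub₁ (W := W) (E₁ := E₁) (E₂ := E₂))).f z = x ∧
      (S.tm (sub₂ (W := W) (E₁ := E₁) (E₂ := E₂))).f z = y := by
  have h : S.tr ((W ∩ E₁) ∩ (W ∩ E₂)) x.1 = S.tr ((W ∩ E₁) ∩ (W ∩ E₂)) y.1 := by
    rw [← Set.inter_inter_distrib_left]
    exact congrArg Subtype.val e
  obtain ⟨z, hz, h1, h2⟩ := S.glue x.1 y.1 h
  rw [← Set.inter_union_distrib_left] at hz
  refine ⟨⟨z, hz⟩, Subtype.ext ?_, Subtype.ext ?_⟩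
  · exact h1.trans (S.tr_eq_self x.2)
  · exact h2.trans (S.tr_eq_self y.2)

omit hW h₁ h₂ in
lemma mv_surj (z : (S.dm (W ∩ (E₁ ∩ E₂))).A) :
    ∃ x, (S.tm (sub₃ (W := W) (E₁ := E₁) (E₂ := E₂))).f x = z :=
  ⟨⟨z.1, S.C_mono sub₃ z.2⟩, Subtype.ext (S.tr_eq_self z.2)⟩

end mv

namespace Cube

variable (K : Cube P)

lemma acyc_union {E₁ E₂ : Set P} (h₁ : IsLowerSet E₁) (h₂ : IsLowerSet E₂)
    (hA : Acyc ((K.inter E₁ h₁).tot S)) (hB : Acyc ((K.inter E₂ h₂).tot S))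
    (hC : Acyc ((K.inter (E₁ ∩ E₂) (h₁.inter h₂)).tot S)) :
    Acyc ((K.inter (E₁ ∪ E₂) (h₁.union h₂)).tot S) := by
  refine DM.mayer
    (tt S (K' := K.inter E₁ h₁) (K := K.inter (E₁ ∪ E₂) (h₁.union h₂))
      ⟨sub₁, sub₁, sub₁, sub₁⟩)
    (tt S (K' := K.inter E₂ h₂) (K := K.inter (E₁ ∪ E₂) (h₁.union h₂))
      ⟨sub₂, sub₂, sub₂, sub₂⟩)
    (tt S (K' := K.inter (E₁ ∩ E₂) (h₁.inter h₂)) (K := K.inter E₁ h₁)
      ⟨sub₃, sub₃, sub₃, sub₃⟩)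
    (tt S (K' := K.inter (E₁ ∩ E₂) (h₁.inter h₂)) (K := K.inter E₂ h₂)
      ⟨sub₄, sub₄, sub₄, sub₄⟩) ?_ ?_ ?_ ?_ hA hB hC
  · rintro ⟨⟨x1, x2⟩, x3, x4⟩ ⟨⟨y1, y2⟩, y3, y4⟩ e f
    have e1 := congrArg (fun p => p.1.1) e
    have e2 := congrArg (fun p => p.1.2) e
    have e3 := congrArg (fun p => p.2.1) e
    have e4 := congrArg (fun p => p.2.2) e
    have f1 := congrArg (fun p => p.1.1) f
    have f2 := congrArg (fun p => p.1.2) f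
    have f3 := congrArg (fun p => p.2.1) f
    have f4 := congrArg (fun p => p.2.2) f
    exact Prod.ext (Prod.ext (mv_inj S K.l₀₀ h₁ h₂ _ _ e1 f1) (mv_inj S K.l₁₀ h₁ h₂ _ _ e2 f2))
      (Prod.ext (mv_inj S K.l₀₁ h₁ h₂ _ _ e3 f3) (mv_inj S K.l₁₁ h₁ h₂ _ _ e4 f4))
  · rintro ⟨⟨x1, x2⟩, x3, x4⟩ ⟨⟨y1, y2⟩, y3, y4⟩ e
    obtain ⟨z1, a1, b1⟩ := mv_glue S x1 y1 (congrArg (fun p => p.1.1) e)
    obtain ⟨z2, a2, b2⟩ := mv_glue S x2 y2 (congrArg (fun p => p.1.2) e)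
    obtain ⟨z3, a3, b3⟩ := mv_glue S x3 y3 (congrArg (fun p => p.2.1) e)
    obtain ⟨z4, a4, b4⟩ := mv_glue S x4 y4 (congrArg (fun p => p.2.2) e)
    exact ⟨((z1, z2), (z3, z4)), Prod.ext (Prod.ext a1 a2) (Prod.ext a3 a4),
      Prod.ext (Prod.ext b1 b2) (Prod.ext b3 b4)⟩
  · rintro ⟨⟨x1, x2⟩, x3, x4⟩
    exact Prod.ext (Prod.ext (S.tm_tm _ _ _ _ x1) (S.tm_tm _ _ _ _ x2))
      (Prod.ext (S.tm_tm _ _ _ _ x3) (S.tm_tm _ _ _ _ x4))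
  · rintro ⟨⟨x1, x2⟩, x3, x4⟩
    obtain ⟨z1, a1⟩ := mv_surj S x1
    obtain ⟨z2, a2⟩ := mv_surj S x2
    obtain ⟨z3, a3⟩ := mv_surj S x3
    obtain ⟨z4, a4⟩ := mv_surj S x4
    exact ⟨((z1, z2), (z3, z4)), Prod.ext (Prod.ext a1 a2) (Prod.ext a3 a4)⟩

/-- The core of section 5: `I` is `Iic v`, `E₁ ∪ E₂` is `E_F`, `W_{ij}` are the sets
`W (- h)` for the four degrees `h`. -/
theorem acyc_main {I E₁ E₂ : Set P} (hI : IsLowerSet I) (h₁ : IsLowerSet E₁) (h₂ : IsLowerSet E₂)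
    (q₀₀ : QIso S (K.W₀₀ ∩ I) (K.W₀₀ ∩ (E₁ ∪ E₂)))
    (q₁₀ : QIso S (K.W₁₀ ∩ I) (K.W₁₀ ∩ (E₁ ∪ E₂)))
    (q₀₁ : QIso S (K.W₀₁ ∩ I) (K.W₀₁ ∩ (E₁ ∪ E₂)))
    (q₁₁ : QIso S (K.W₁₁ ∩ I) (K.W₁₁ ∩ (E₁ ∪ E₂)))
    (a : K.W₁₀ ∩ E₁ = K.W₀₀ ∩ E₁) (a' : K.W₁₁ ∩ E₁ = K.W₀₁ ∩ E₁)
    (b : K.W₀₁ ∩ E₂ = K.W₀₀ ∩ E₂) (b' : K.W₁₁ ∩ E₂ = K.W₁₀ ∩ E₂) :
    Acyc ((K.inter I hI).tot S) := by
  refine (tt_qi (K := K.inter I hI) (K' := K.inter (E₁ ∪ E₂) (h₁.union h₂)) S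
    q₀₀ q₁₀ q₀₁ q₁₁).acyc (K.acyc_union S h₁ h₂ ?_ ?_ ?_)
  · exact acyc_of_eq S (K.inter E₁ h₁) a a'
  · exact acyc_of_eq' S (K.inter E₂ h₂) b b'
  · refine acyc_of_eq S (K.inter (E₁ ∩ E₂) (h₁.inter h₂)) ?_ ?_
    · show K.W₁₀ ∩ (E₁ ∩ E₂) = K.W₀₀ ∩ (E₁ ∩ E₂)
      rw [← Set.inter_assoc, ← Set.inter_assoc, a]
    · show K.W₁₁ ∩ (E₁ ∩ E₂) = K.W₀₁ ∩ (E₁ ∩ E₂)
      rw [← Set.inter_assoc, ← Set.inter_assoc, a']

/-- exactness of the total complex, in elements -/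
lemma exact_of_acyc (h : Acyc (K.tot S)) {x₀₀ x₁₀ x₀₁ x₁₁ : S.Fn}
    (m₀₀ : x₀₀ ∈ S.C K.W₀₀) (m₁₀ : x₁₀ ∈ S.C K.W₁₀) (m₀₁ : x₀₁ ∈ S.C K.W₀₁)
    (m₁₁ : x₁₁ ∈ S.C K.W₁₁)
    (c₀₀ : S.D K.W₀₀ x₀₀ = 0) (c₁₀ : S.D K.W₁₀ x₁₀ = S.tr K.W₁₀ x₀₀)
    (c₀₁ : S.D K.W₀₁ x₀₁ = S.tr K.W₀₁ x₀₀)
    (c₁₁ : S.D K.W₁₁ x₁₁ = S.tr K.W₁₁ x₁₀ + S.tr K.W₁₁ x₀₁) :
    ∃ y₀₀ ∈ S.C K.W₀₀, ∃ y₁₀ ∈ S.C K.W₁₀, ∃ y₀₁ ∈ S.C K.W₀₁, ∃ y₁₁ ∈ S.C K.W₁₁,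
      x₀₀ = S.D K.W₀₀ y₀₀ ∧ x₁₀ = S.D K.W₁₀ y₁₀ + S.tr K.W₁₀ y₀₀ ∧
      x₀₁ = S.D K.W₀₁ y₀₁ + S.tr K.W₀₁ y₀₀ ∧
      x₁₁ = S.D K.W₁₁ y₁₁ + S.tr K.W₁₁ y₁₀ + S.tr K.W₁₁ y₀₁ := by
  obtain ⟨⟨⟨y1, y2⟩, y3, y4⟩, hy⟩ := h
    ((⟨x₀₀, m₀₀⟩, ⟨x₁₀, m₁₀⟩), (⟨x₀₁, m₀₁⟩, ⟨x₁₁, m₁₁⟩)) (by
      refine Prod.ext (Prod.ext (Subtype.ext c₀₀) (Subtype.ext ?_))
        (Prod.ext (Subtype.ext ?_) (Subtype.ext ?_))
      · show S.tr K.W₁₀ x₀₀ + S.D K.W₁₀ x₁₀ = 0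
        rw [c₁₀, S.add_self]
      · show S.tr K.W₀₁ x₀₀ + S.D K.W₀₁ x₀₁ = 0
        rw [c₀₁, S.add_self]
      · show S.tr K.W₁₁ x₁₀ + (S.tr K.W₁₁ x₀₁ + S.D K.W₁₁ x₁₁) = 0
        rw [c₁₁, ← add_assoc, S.add_self])
  have e1 : S.D K.W₀₀ y1.1 = x₀₀ := congrArg (fun p => (p.1.1).1) hy
  have e2 : S.tr K.W₁₀ y1.1 + S.D K.W₁₀ y2.1 = x₁₀ := congrArg (fun p => (p.1.2).1) hy
  have e3 : S.tr K.W₀₁ y1.1 + S.D K.W₀₁ y3.1 = x₀₁ := congrArg (fun p => (p.2.1).1) hy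
  have e4 : S.tr K.W₁₁ y2.1 + (S.tr K.W₁₁ y3.1 + S.D K.W₁₁ y4.1) = x₁₁ :=
    congrArg (fun p => (p.2.2).1) hy
  refine ⟨y1.1, y1.2, y2.1, y2.2, y3.1, y3.2, y4.1, y4.2, e1.symm, ?_, ?_, ?_⟩
  · rw [← e2, add_comm]
  · rw [← e3, add_comm]
  · rw [← e4]
    abel

end Cube

end DSheaf

end Nerve

end MP40506.CX
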