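import Mathlib

/-!
# Differential objects of an additive category of characteristic two, and their homotopy category

`DObj A` : objects `X` of `A` with an endomorphism `d` with `d ≫ d = 0`.
`KC A`   : the quotient of `DObj A` by homotopy. The shift is the identity.
-/

open CategoryTheory CategoryTheory.Limits CategoryTheory.MonoidalCategory

universe v u v' u'

namespace MP40506.CX

/-- a preadditive category in which `f + f = 0` -/
class Two (A : Type u) [Category.{v} A] [Preadditive A] : Prop where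
  add_self : ∀ {X Y : A} (f : X ⟶ Y), f + f = 0

section Two

variable {A : Type u} [Category.{v} A] [Preadditive A] [Two A]

lemma add_self {X Y : A} (f : X ⟶ Y) : f + f = 0 := Two.add_self f

lemma neg_eq {X Y : A} (f : X ⟶ Y) : -f = f := by
  rw [neg_eq_iff_add_eq_zero]; exact add_self f

lemma sub_eq {X Y : A} (f g : X ⟶ Y) : f - g = f + g := by
  rw [sub_eq_add_neg, neg_eq]

end Two

/-- an object with a differential -/
structure DObj (A : Type u) [Category.{v} A] [Preadditive A] where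
  X : A
  d : X ⟶ X
  dd : d ≫ d = 0

attribute [reassoc (attr := simp)] DObj.dd

namespace DObj

variable {A : Type u} [Category.{v} A] [Preadditive A]

/-- morphisms commuting with the differentials -/
@[ext] structure Hom (P Q : DObj A) where
  f : P.X ⟶ Q.X
  comm : P.d ≫ f = f ≫ Q.d

attribute [reassoc] Hom.comm

instance : Category (DObj A) where
  Hom := Hom
  id P := { f := 𝟙 P.X, comm := by rw [Category.comp_id, Category.id_comp] }
  comp φ ψ := { f := φ.f ≫ ψ.f, comm := by rw [← Category.assoc, φ.comm, Category.assoc, ψ.comm, Category.assoc] }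

@[simp] lemma id_f (P : DObj A) : (𝟙 P : P ⟶ P).f = 𝟙 P.X := rfl
@[simp, reassoc] lemma comp_f {P Q R : DObj A} (φ : P ⟶ Q) (ψ : Q ⟶ R) :
    (φ ≫ ψ).f = φ.f ≫ ψ.f := rfl

@[ext] lemma hom_ext {P Q : DObj A} {φ ψ : P ⟶ Q} (h : φ.f = ψ.f) : φ = ψ := Hom.ext h

@[simps] instance (P Q : DObj A) : Zero (P ⟶ Q) := ⟨{ f := 0, comm := by rw [comp_zero, zero_comp] }⟩
@[simps] instance (P Q : DObj A) : Add (P ⟶ Q) :=
  ⟨fun φ ψ => { f := φ.f + ψ.f, comm := by simp [φ.comm, ψ.comm] }⟩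
@[simps] instance (P Q : DObj A) : Neg (P ⟶ Q) :=
  ⟨fun φ => { f := -φ.f, comm := by simp [φ.comm] }⟩


attribute [local simp] add_f zero_f neg_f

instance (P Q : DObj A) : AddCommGroup (P ⟶ Q) where
  add_assoc a b c := by ext; simp [add_assoc]
  zero_add a := by ext; simp
  add_zero a := by ext; simp
  neg_add_cancel a := by ext; simp
  add_comm a b := by ext; simp [add_comm]
  nsmul := nsmulRec
  zsmul := zsmulRec

instance : Preadditive (DObj A) where
  add_comp _ _ _ f g h := by ext; simp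
  comp_add _ _ _ f g h := by ext; simp

instance [Two A] : Two (DObj A) where
  add_self φ := by ext; exact add_self _

end DObj

namespace DObj

variable {A : Type u} [Category.{v} A] [Preadditive A]

/-- the null-homotopic maps -/
def nullH (P R : DObj A) : AddSubgroup (P ⟶ R) where
  carrier := {φ | ∃ h : P.X ⟶ R.X, φ.f = P.d ≫ h + h ≫ R.d}
  add_mem' := by
    rintro φ ψ ⟨h, hh⟩ ⟨k, hk⟩
    exact ⟨h + k, by rw [add_f, hh, hk]; simp; abel⟩
  zero_mem' := ⟨0, by simp⟩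
  neg_mem' := by
    rintro φ ⟨h, hh⟩
    exact ⟨-h, by rw [neg_f, hh]; simp; abel⟩

lemma mem_nullH {P R : DObj A} (φ : P ⟶ R) :
    φ ∈ nullH P R ↔ ∃ h : P.X ⟶ R.X, φ.f = P.d ≫ h + h ≫ R.d := Iff.rfl

lemma comp_mem_nullH {P R S : DObj A} (φ : P ⟶ R) (ψ : R ⟶ S) (h : ψ ∈ nullH R S) :
    φ ≫ ψ ∈ nullH P S := by
  obtain ⟨h, hh⟩ := h
  refine ⟨φ.f ≫ h, ?_⟩
  simp only [comp_f, hh, Preadditive.comp_add, Category.assoc]
  rw [← Category.assoc P.d, φ.comm, Category.assoc]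

lemma comp_mem_nullH' {P R S : DObj A} (φ : P ⟶ R) (ψ : R ⟶ S) (h : φ ∈ nullH P R) :
    φ ≫ ψ ∈ nullH P S := by
  obtain ⟨h, hh⟩ := h
  refine ⟨h ≫ ψ.f, ?_⟩
  simp only [comp_f, hh, Preadditive.add_comp, Category.assoc]
  rw [ψ.comm]

end DObj

/-- the homotopy category -/
structure KC (A : Type u) [Category.{v} A] [Preadditive A] where
  out : DObj A

namespace KC

variable {A : Type u} [Category.{v} A] [Preadditive A]

/-- morphisms of the homotopy category -/
def KHom (X Y : KC A) : Type v := (X.out ⟶ Y.out) ⧸ DObj.nullH X.out Y.out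

/-- the homotopy class of a map -/
def cls {X Y : KC A} (φ : X.out ⟶ Y.out) : KHom X Y := QuotientAddGroup.mk φ

lemma cls_eq_iff {X Y : KC A} (φ ψ : X.out ⟶ Y.out) :
    (cls φ : KHom X Y) = cls ψ ↔ φ - ψ ∈ DObj.nullH X.out Y.out := by
  refine (QuotientAddGroup.eq (s := DObj.nullH X.out Y.out) (a := φ) (b := ψ)).trans ?_
  rw [← neg_mem_iff, neg_add, neg_neg, sub_eq_add_neg]

lemma exists_cls {X Y : KC A} (f : KHom X Y) : ∃ φ : X.out ⟶ Y.out, cls φ = f :=
  QuotientAddGroup.mk_surjective f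

/-- composition -/
def comp {X Y Z : KC A} (f : KHom X Y) (g : KHom Y Z) : KHom X Z :=
  Quotient.liftOn₂' f g (fun φ ψ => cls (φ ≫ ψ)) (by
    intro φ ψ φ' ψ' h h'
    have h1 : φ - φ' ∈ DObj.nullH _ _ := (cls_eq_iff _ _).1 (Quotient.sound' h)
    have h2 : ψ - ψ' ∈ DObj.nullH _ _ := (cls_eq_iff _ _).1 (Quotient.sound' h')
    refine (cls_eq_iff _ _).2 ?_
    have e : φ ≫ ψ - φ' ≫ ψ' = (φ - φ') ≫ ψ + φ' ≫ (ψ - ψ') := by
      simp [Preadditive.sub_comp, Preadditive.comp_sub]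
    rw [e]
    exact add_mem (DObj.comp_mem_nullH' _ _ h1) (DObj.comp_mem_nullH _ _ h2))

instance : Category (KC A) where
  Hom := KHom
  id X := cls (𝟙 X.out)
  comp := comp
  id_comp {X Y} f := by
    obtain ⟨φ, rfl⟩ := exists_cls f
    exact congrArg cls (Category.id_comp φ)
  comp_id {X Y} f := by
    obtain ⟨φ, rfl⟩ := exists_cls f
    exact congrArg cls (Category.comp_id φ)
  assoc {X Y Z W} f g h := by
    obtain ⟨φ, rfl⟩ := exists_cls f
    obtain ⟨ψ, rfl⟩ := exists_cls g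
    obtain ⟨χ, rfl⟩ := exists_cls h
    exact congrArg cls (Category.assoc φ ψ χ)

/-- the object of `KC A` attached to a differential object -/
abbrev mk' (P : DObj A) : KC A := ⟨P⟩

/-- the class of a map, as a morphism -/
def q {X Y : KC A} (φ : X.out ⟶ Y.out) : X ⟶ Y := cls φ

lemma q_eq_iff {X Y : KC A} (φ ψ : X.out ⟶ Y.out) :
    (q φ : X ⟶ Y) = q ψ ↔ φ - ψ ∈ DObj.nullH X.out Y.out := cls_eq_iff φ ψ

lemma exists_q {X Y : KC A} (f : X ⟶ Y) : ∃ φ : X.out ⟶ Y.out, q φ = f := exists_cls f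

@[simp] lemma q_id (X : KC A) : (q (𝟙 X.out) : X ⟶ X) = 𝟙 X := rfl

lemma q_comp {X Y Z : KC A} (φ : X.out ⟶ Y.out) (ψ : Y.out ⟶ Z.out) :
    (q (φ ≫ ψ) : X ⟶ Z) = (q φ : X ⟶ Y) ≫ (q ψ : Y ⟶ Z) := rfl

instance (X Y : KC A) : AddCommGroup (X ⟶ Y) :=
  inferInstanceAs (AddCommGroup ((X.out ⟶ Y.out) ⧸ DObj.nullH X.out Y.out))

lemma q_add {X Y : KC A} (φ ψ : X.out ⟶ Y.out) :
    (q (φ + ψ) : X ⟶ Y) = q φ + q ψ := rfl

lemma q_zero {X Y : KC A} : (q (0 : X.out ⟶ Y.out) : X ⟶ Y) = 0 := rfl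

lemma q_neg {X Y : KC A} (φ : X.out ⟶ Y.out) :
    (q (-φ) : X ⟶ Y) = -q φ := rfl

lemma q_eq_zero_iff {X Y : KC A} (φ : X.out ⟶ Y.out) :
    (q φ : X ⟶ Y) = 0 ↔ ∃ h : X.out.X ⟶ Y.out.X, φ.f = X.out.d ≫ h + h ≫ Y.out.d := by
  rw [← q_zero, q_eq_iff, sub_zero]; rfl

instance : Preadditive (KC A) where
  add_comp X Y Z f f' g := by
    obtain ⟨φ, rfl⟩ := exists_q f
    obtain ⟨φ', rfl⟩ := exists_q f'
    obtain ⟨ψ, rfl⟩ := exists_q g
    exact congrArg q (Preadditive.add_comp _ _ _ φ φ' ψ)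
  comp_add X Y Z f g g' := by
    obtain ⟨φ, rfl⟩ := exists_q f
    obtain ⟨ψ, rfl⟩ := exists_q g
    obtain ⟨ψ', rfl⟩ := exists_q g'
    exact congrArg q (Preadditive.comp_add _ _ _ φ ψ ψ')

variable (A) in
/-- the quotient functor -/
@[reducible] def Q : DObj A ⥤ KC A where
  obj P := ⟨P⟩
  map φ := q φ

instance : (Q A).Additive where
  map_add := rfl

instance : (Q A).Full where
  map_surjective f := exists_q f

instance [Two A] : Two (KC A) where
  add_self {X Y} f := by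
    obtain ⟨φ, rfl⟩ := exists_q f
    have h : φ + φ = 0 := by ext; exact add_self _
    rw [← q_add, h, q_zero]

end KC

end MP40506.CX
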