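import Pool.Agent.Work.MP_40506d_al.CX.Fr
import Pool.Agent.Work.MP_40506d_al.Loc

/-!
# Finite objects of `KC (Fr G M)` are rigid
-/

open CategoryTheory CategoryTheory.Limits CategoryTheory.MonoidalCategory
  CategoryTheory.Pretriangulated

set_option linter.unusedSectionVars false

namespace MP40506.CX

noncomputable section

variable {G : Type} [AddCommGroup G] {M : AddSubmonoid G}

namespace Fr

/-- the linear map with given rows -/
def mat {I J : Type} (m : I → J →₀ ZMod 2) : (I →₀ ZMod 2) →ₗ[ZMod 2] (J →₀ ZMod 2) :=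
  Finsupp.linearCombination (ZMod 2) m

@[simp] lemma mat_single {I J : Type} (m : I → J →₀ ZMod 2) (i : I) :
    mat m (Finsupp.single i 1) = m i := by
  simp [mat]

lemma ent_mat {I J : Type} (m : I → J →₀ ZMod 2) (i : I) (j : J) : ent (mat m) i j = m i j := by
  rw [ent, mat_single]

lemma ent_comp_fin {I J K : Type} [Fintype J] (f : (I →₀ ZMod 2) →ₗ[ZMod 2] (J →₀ ZMod 2))
    (g : (J →₀ ZMod 2) →ₗ[ZMod 2] (K →₀ ZMod 2)) (i : I) (l : K) :
    ent (g ∘ₗ f) i l = ∑ j, ent f i j * ent g j l := by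
  rw [ent_comp, Finsupp.sum_fintype _ _ (by intro j; rw [zero_mul])]
  rfl

open Classical in
lemma ent_id' {I : Type} (i j : I) :
    ent (LinearMap.id : (I →₀ ZMod 2) →ₗ[ZMod 2] (I →₀ ZMod 2)) i j = if i = j then 1 else 0 := by
  rw [ent, LinearMap.id_apply, Finsupp.single_apply]

open Classical in
lemma ent_iso_hom {X Y : Fr G M} (e : X.I ≃ Y.I) (h : ∀ i, Y.deg (e i) = X.deg i) (i : X.I)
    (j : Y.I) : ent (isoOfEquiv e h).hom.f i j = if e i = j then 1 else 0 := by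
  rw [ent, isoOfEquiv_hom_f]
  simp [Finsupp.single_apply]

open Classical in
lemma ent_iso_inv {X Y : Fr G M} (e : X.I ≃ Y.I) (h : ∀ i, Y.deg (e i) = X.deg i) (i : X.I)
    (j : Y.I) : ent (isoOfEquiv e h).inv.f j i = if e i = j then 1 else 0 := by
  rw [ent, isoOfEquiv_inv_f]
  simp only [LinearEquiv.coe_coe, Finsupp.domLCongr_single, Finsupp.single_apply]
  congr 1
  rw [Equiv.symm_apply_eq, eq_comm (a := j)]

/-- the dual of a finite free module -/
abbrev dual (X : Fr G M) : Fr G M := ⟨X.I, fun i => -X.deg i⟩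

/-- the transpose of a morphism of finite free modules -/
def tr {X Y : Fr G M} [Finite X.I] (φ : X ⟶ Y) : dual Y ⟶ dual X where
  f := mat (fun (j : Y.I) => Finsupp.equivFunOnFinite.symm (fun i => ent φ.f i j))
  gr := by
    intro j i h
    rw [mat_single] at h
    have h1 := φ.gr i j h
    show -Y.deg j - -X.deg i ∈ M
    have : -Y.deg j - -X.deg i = X.deg i - Y.deg j := by abel
    rw [this]
    exact h1

lemma ent_tr {X Y : Fr G M} [Finite X.I] (φ : X ⟶ Y) (j : Y.I) (i : X.I) :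
    ent (tr φ).f j i = ent φ.f i j := by
  show ent (mat _) j i = _
  rw [ent_mat]
  rfl

lemma tr_comp {X Y Z : Fr G M} [Finite X.I] [Finite Y.I] (φ : X ⟶ Y) (ψ : Y ⟶ Z) :
    tr (φ ≫ ψ) = tr ψ ≫ tr φ := by
  have : Fintype Y.I := Fintype.ofFinite _
  apply hom_ext'
  intro l i
  rw [ent_tr, comp_f, comp_f, ent_comp_fin]
  refine Eq.trans ?_ (ent_comp_fin (J := Y.I) (tr ψ).f (tr φ).f l i).symm
  refine Finset.sum_congr rfl fun j _ => ?_
  rw [ent_tr, ent_tr, mul_comm]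

lemma tr_zero {X Y : Fr G M} [Finite X.I] : tr (0 : X ⟶ Y) = 0 := by
  apply hom_ext'
  intro j i
  rw [ent_tr]
  rfl

variable (X : Fr G M) [Fintype X.I]

open Classical in
/-- the coevaluation -/
def coev : 𝟙_ (Fr G M) ⟶ X ⊗ dual X where
  f := (mat (fun _ : Unit => Finsupp.equivFunOnFinite.symm (fun p : X.I × X.I =>
    if p.1 = p.2 then (1 : ZMod 2) else 0)) :
      (Unit →₀ ZMod 2) →ₗ[ZMod 2] (X.I × X.I →₀ ZMod 2))
  gr := by
    rintro ⟨⟩ ⟨i, j⟩ h
    change mat _ (Finsupp.single () 1) (i, j) ≠ 0 at h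
    rw [mat_single] at h
    have hij : i = j := by
      by_contra hne
      exact h (if_neg hne)
    subst hij
    show (0 : G) - (X.deg i + -X.deg i) ∈ M
    simp [M.zero_mem]

open Classical in
lemma ent_coev (u : Unit) (p : X.I × X.I) :
    ent (coev X).f u p = if p.1 = p.2 then 1 else 0 := by
  refine (ent_mat (fun _ : Unit => Finsupp.equivFunOnFinite.symm (fun p : X.I × X.I =>
    if p.1 = p.2 then (1 : ZMod 2) else 0)) u p).trans ?_
  rfl

open Classical in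
/-- the evaluation -/
def eval : dual X ⊗ X ⟶ 𝟙_ (Fr G M) where
  f := (mat (fun p : X.I × X.I => Finsupp.single () (if p.1 = p.2 then (1 : ZMod 2) else 0)) :
      (X.I × X.I →₀ ZMod 2) →ₗ[ZMod 2] (Unit →₀ ZMod 2))
  gr := by
    rintro ⟨i, j⟩ ⟨⟩ h
    change mat _ (Finsupp.single (i, j) 1) () ≠ 0 at h
    rw [mat_single] at h
    have hij : i = j := by
      by_contra hne
      apply h
      simp [hne]
    subst hij
    show (-X.deg i + X.deg i) - 0 ∈ M
    simp [M.zero_mem]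

open Classical in
lemma ent_eval (p : X.I × X.I) (u : Unit) :
    ent (eval X).f p u = if p.1 = p.2 then 1 else 0 := by
  refine (ent_mat (fun p : X.I × X.I => Finsupp.single () (if p.1 = p.2 then (1 : ZMod 2)
    else 0)) p u).trans ?_
  simp

lemma ent_hom_comp {X Y Z : Fr G M} (e : X.I ≃ Y.I) (h : ∀ i, Y.deg (e i) = X.deg i)
    (ψ : Y ⟶ Z) (i : X.I) (l : Z.I) :
    ent ((isoOfEquiv e h).hom ≫ ψ).f i l = ent ψ.f (e i) l := by
  show ψ.f ((isoOfEquiv e h).hom.f (Finsupp.single i 1)) l = _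
  rw [isoOfEquiv_hom_f]
  simp only [LinearEquiv.coe_coe, Finsupp.domLCongr_single]
  rfl

lemma ent_inv_comp {X Y Z : Fr G M} (e : X.I ≃ Y.I) (h : ∀ i, Y.deg (e i) = X.deg i)
    (ψ : X ⟶ Z) (j : Y.I) (l : Z.I) :
    ent ((isoOfEquiv e h).inv ≫ ψ).f j l = ent ψ.f (e.symm j) l := by
  show ψ.f ((isoOfEquiv e h).inv.f (Finsupp.single j 1)) l = _
  rw [isoOfEquiv_inv_f]
  simp only [LinearEquiv.coe_coe, Finsupp.domLCongr_single]
  rfl

open Classical in
lemma ent_whiskerLeft (X : Fr G M) {Y Z : Fr G M} (ψ : Y ⟶ Z) (p : X.I × Y.I)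
    (p' : X.I × Z.I) :
    ent (X ◁ ψ).f p p' = (if p.1 = p'.1 then 1 else 0) * ent ψ.f p.2 p'.2 := by
  refine (ent_tens (𝟙 X) ψ p p').trans ?_
  rw [id_f, ent_id']

open Classical in
lemma ent_whiskerRight {Y Z : Fr G M} (ψ : Y ⟶ Z) (X : Fr G M) (p : Y.I × X.I)
    (p' : Z.I × X.I) :
    ent (ψ ▷ X).f p p' = ent ψ.f p.1 p'.1 * (if p.2 = p'.2 then 1 else 0) := by
  refine (ent_tens ψ (𝟙 X) p p').trans ?_
  rw [id_f, ent_id']

lemma assoc_inv_comp (X Y Z : Fr G M) {W : Fr G M} (ψ : (X ⊗ Y) ⊗ Z ⟶ W)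
    (a : X.I) (b : Y.I) (c : Z.I) (l : W.I) :
    ent ((α_ X Y Z).inv ≫ ψ).f (a, (b, c)) l = ent ψ.f ((a, b), c) l :=
  ent_inv_comp (X := (X ⊗ Y) ⊗ Z) (Y := X ⊗ (Y ⊗ Z)) (Equiv.prodAssoc X.I Y.I Z.I) _ ψ _ l

lemma assoc_hom_comp (X Y Z : Fr G M) {W : Fr G M} (ψ : X ⊗ (Y ⊗ Z) ⟶ W)
    (a : X.I) (b : Y.I) (c : Z.I) (l : W.I) :
    ent ((α_ X Y Z).hom ≫ ψ).f ((a, b), c) l = ent ψ.f (a, (b, c)) l :=
  ent_hom_comp (X := (X ⊗ Y) ⊗ Z) (Y := X ⊗ (Y ⊗ Z)) (Equiv.prodAssoc X.I Y.I Z.I) _ ψ _ l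

lemma leftUnitor_comp (X : Fr G M) {W : Fr G M} (ψ : X ⟶ W) (u : Unit) (a : X.I) (l : W.I) :
    ent ((λ_ X).hom ≫ ψ).f (u, a) l = ent ψ.f a l :=
  ent_hom_comp (X := 𝟙_ (Fr G M) ⊗ X) (Y := X) (Equiv.punitProd X.I) _ ψ _ l

lemma rightUnitor_comp (X : Fr G M) {W : Fr G M} (ψ : X ⟶ W) (u : Unit) (a : X.I) (l : W.I) :
    ent ((ρ_ X).hom ≫ ψ).f (a, u) l = ent ψ.f a l :=
  ent_hom_comp (X := X ⊗ 𝟙_ (Fr G M)) (Y := X) (Equiv.prodPUnit X.I) _ ψ _ l

open Classical in
lemma ent_leftUnitor_inv (X : Fr G M) (u : Unit) (a b : X.I) :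
    ent (λ_ X).inv.f a (u, b) = if a = b then 1 else 0 := by
  refine (ent_iso_inv (X := 𝟙_ (Fr G M) ⊗ X) (Y := X) (Equiv.punitProd X.I) _ (u, b) a).trans ?_
  congr 1
  exact propext eq_comm

open Classical in
lemma ent_rightUnitor_inv (X : Fr G M) (u : Unit) (a b : X.I) :
    ent (ρ_ X).inv.f a (b, u) = if a = b then 1 else 0 := by
  refine (ent_iso_inv (X := X ⊗ 𝟙_ (Fr G M)) (Y := X) (Equiv.prodPUnit X.I) _ (b, u) a).trans ?_
  congr 1
  exact propext eq_comm

lemma coev_comp (W : Fr G M) (ψ : dual X ⊗ (X ⊗ dual X) ⟶ W) (i : X.I) (u : Unit) (l : W.I) :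
    ent (((dual X) ◁ coev X) ≫ ψ).f (i, u) l = ∑ j : X.I, ent ψ.f (i, (j, j)) l := by
  classical
  refine (ent_comp_fin (I := X.I × Unit) (J := X.I × (X.I × X.I)) (K := W.I)
    ((dual X) ◁ coev X).f ψ.f (i, u) l).trans ?_
  rw [Fintype.sum_prod_type, Finset.sum_eq_single i]
  · rw [Fintype.sum_prod_type]
    refine Finset.sum_congr rfl fun j _ => ?_
    rw [Finset.sum_eq_single j]
    · refine (congrArg₂ _ (ent_whiskerLeft (dual X) (coev X) (i, u) (i, (j, j))) rfl).trans ?_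
      rw [ent_coev]
      simp
    · intro b _ hb
      refine (congrArg₂ _ (ent_whiskerLeft (dual X) (coev X) (i, u) (i, (j, b))) rfl).trans ?_
      rw [ent_coev]
      simp [Ne.symm hb]
    · intro h
      exact absurd (Finset.mem_univ _) h
  · intro b _ hb
    refine Finset.sum_eq_zero fun p _ => ?_
    refine (congrArg₂ _ (ent_whiskerLeft (dual X) (coev X) (i, u) (b, p)) rfl).trans ?_
    simp [Ne.symm hb]
  · intro h
    exact absurd (Finset.mem_univ _) h

lemma coev_comp' (W : Fr G M) (ψ : (X ⊗ dual X) ⊗ X ⟶ W) (i : X.I) (u : Unit) (l : W.I) :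
    ent ((coev X ▷ X) ≫ ψ).f (u, i) l = ∑ j : X.I, ent ψ.f ((j, j), i) l := by
  classical
  refine (ent_comp_fin (I := Unit × X.I) (J := (X.I × X.I) × X.I) (K := W.I)
    (coev X ▷ X).f ψ.f (u, i) l).trans ?_
  rw [Fintype.sum_prod_type_right, Finset.sum_eq_single i]
  · rw [Fintype.sum_prod_type]
    refine Finset.sum_congr rfl fun j _ => ?_
    rw [Finset.sum_eq_single j]
    · refine (congrArg₂ _ (ent_whiskerRight (coev X) X (u, i) ((j, j), i)) rfl).trans ?_
      rw [ent_coev]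
      simp
    · intro b _ hb
      refine (congrArg₂ _ (ent_whiskerRight (coev X) X (u, i) ((j, b), i)) rfl).trans ?_
      rw [ent_coev]
      simp [Ne.symm hb]
    · intro h
      exact absurd (Finset.mem_univ _) h
  · intro b _ hb
    refine Finset.sum_eq_zero fun p _ => ?_
    refine (congrArg₂ _ (ent_whiskerRight (coev X) X (u, i) (p, b)) rfl).trans ?_
    simp [Ne.symm hb]
  · intro h
    exact absurd (Finset.mem_univ _) h

lemma tri1 : (dual X) ◁ coev X ≫ (α_ (dual X) X (dual X)).inv ≫ eval X ▷ (dual X) =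
    (ρ_ (dual X)).hom ≫ (λ_ (dual X)).inv := by
  classical
  apply hom_ext'
  rintro ⟨i, u⟩ ⟨u', c⟩
  refine (coev_comp X _ _ i u _).trans ?_
  refine Eq.trans ?_ (rightUnitor_comp (dual X) (λ_ (dual X)).inv u i (u', c)).symm
  rw [ent_leftUnitor_inv]
  have h2 : ∀ j, ent ((α_ (dual X) X (dual X)).inv ≫ eval X ▷ (dual X)).f
      (i, (j, j)) (u', c) = (if i = j then 1 else 0) * (if j = c then 1 else 0) := by
    intro j
    refine (assoc_inv_comp (dual X) X (dual X) (eval X ▷ (dual X)) i j j (u', c)).trans ?_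
    refine (ent_whiskerRight (eval X) (dual X) ((i, j), j) (u', c)).trans ?_
    rw [ent_eval]
  rw [Finset.sum_congr rfl (fun j _ => h2 j)]
  simp

lemma tri2 : coev X ▷ X ≫ (α_ X (dual X) X).hom ≫ X ◁ eval X = (λ_ X).hom ≫ (ρ_ X).inv := by
  classical
  apply hom_ext'
  rintro ⟨u, i⟩ ⟨c, u'⟩
  refine (coev_comp' X _ _ i u _).trans ?_
  refine Eq.trans ?_ (leftUnitor_comp X (ρ_ X).inv u i (c, u')).symm
  rw [ent_rightUnitor_inv]
  have h2 : ∀ j, ent ((α_ X (dual X) X).hom ≫ X ◁ eval X).f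
      ((j, j), i) (c, u') = (if j = c then 1 else 0) * (if j = i then 1 else 0) := by
    intro j
    refine (assoc_hom_comp X (dual X) X (X ◁ eval X) j j i (c, u')).trans ?_
    refine (ent_whiskerLeft X (eval X) (j, (j, i)) (c, u')).trans ?_
    rw [ent_eval]
  rw [Finset.sum_congr rfl (fun j _ => h2 j)]
  simp [eq_comm]

/-- finite free modules are rigid -/
@[instance_reducible] def exactPairing : ExactPairing X (dual X) where
  coevaluation' := coev X
  evaluation' := eval X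
  coevaluation_evaluation' := tri1 X
  evaluation_coevaluation' := tri2 X

end Fr

namespace DObj

/-- the dual of a finite differential object -/
def dual (P : DObj (Fr G M)) [Finite P.X.I] : DObj (Fr G M) where
  X := Fr.dual P.X
  d := Fr.tr P.d
  dd := by
    rw [← Fr.tr_comp, P.dd, Fr.tr_zero]

lemma dual_X (P : DObj (Fr G M)) [Finite P.X.I] : (dual P).X = Fr.dual P.X := rfl

variable (P : DObj (Fr G M)) [Fintype P.X.I]

/-- the coevaluation -/
def coev : 𝟙_ (DObj (Fr G M)) ⟶ P ⊗ dual P where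
  f := Fr.coev P.X
  comm := by
    classical
    show (0 : 𝟙_ (Fr G M) ⟶ 𝟙_ (Fr G M)) ≫ Fr.coev P.X =
      Fr.coev P.X ≫ (P.d ▷ (Fr.dual P.X) + P.X ◁ (Fr.tr P.d))
    rw [zero_comp]
    apply Fr.hom_ext'
    rintro u ⟨a, b⟩
    refine Eq.trans ?_ (Fr.ent_comp_fin (I := Unit) (J := P.X.I × P.X.I) (K := P.X.I × P.X.I)
      (Fr.coev P.X).f (P.d ▷ (Fr.dual P.X) + P.X ◁ (Fr.tr P.d)).f u (a, b)).symm
    have h1 : ∀ p : P.X.I × P.X.I, Fr.ent (Fr.coev P.X).f u p *
        Fr.ent (P.d ▷ (Fr.dual P.X) + P.X ◁ (Fr.tr P.d)).f p (a, b) =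
        if p.1 = p.2 then (Fr.ent P.d.f p.1 a * (if p.2 = b then 1 else 0) +
          (if p.1 = a then 1 else 0) * Fr.ent P.d.f b p.2) else 0 := by
      intro p
      rw [Fr.ent_coev]
      refine (congrArg₂ _ rfl (congrArg₂ (· + ·)
        (Fr.ent_whiskerRight P.d (Fr.dual P.X) p (a, b))
        (Fr.ent_whiskerLeft P.X (Fr.tr P.d) p (a, b)))).trans ?_
      rw [Fr.ent_tr]
      by_cases h : p.1 = p.2
      · rw [if_pos h, if_pos h]
        exact one_mul _
      · rw [if_neg h, if_neg h]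
        exact zero_mul _
    rw [Finset.sum_congr rfl (fun p _ => h1 p), Fintype.sum_prod_type]
    simp only [Finset.sum_ite_eq, Finset.mem_univ, if_true, Finset.sum_add_distrib, mul_ite,
      mul_one, mul_zero, ite_mul, one_mul, zero_mul]
    simp only [Finset.sum_ite_eq', Finset.mem_univ, if_true]
    show (0 : ZMod 2) = Fr.ent P.d.f b a + Fr.ent P.d.f b a
    exact (CharTwo.add_self_eq_zero _).symm

/-- the evaluation -/
def eval : dual P ⊗ P ⟶ 𝟙_ (DObj (Fr G M)) where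
  f := Fr.eval P.X
  comm := by
    classical
    show ((Fr.tr P.d) ▷ P.X + (Fr.dual P.X) ◁ P.d) ≫ Fr.eval P.X =
      Fr.eval P.X ≫ (0 : 𝟙_ (Fr G M) ⟶ 𝟙_ (Fr G M))
    rw [comp_zero]
    apply Fr.hom_ext'
    rintro ⟨a, b⟩ u
    refine (Fr.ent_comp_fin (I := P.X.I × P.X.I) (J := P.X.I × P.X.I) (K := Unit)
      ((Fr.tr P.d) ▷ P.X + (Fr.dual P.X) ◁ P.d).f (Fr.eval P.X).f (a, b) u).trans ?_
    have h1 : ∀ p : P.X.I × P.X.I, Fr.ent ((Fr.tr P.d) ▷ P.X + (Fr.dual P.X) ◁ P.d).f (a, b) p *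
        Fr.ent (Fr.eval P.X).f p u =
        if p.1 = p.2 then (Fr.ent P.d.f p.1 a * (if b = p.2 then 1 else 0) +
          (if a = p.1 then 1 else 0) * Fr.ent P.d.f b p.2) else 0 := by
      intro p
      rw [Fr.ent_eval]
      refine (congrArg₂ _ (congrArg₂ (· + ·)
        (Fr.ent_whiskerRight (Fr.tr P.d) P.X (a, b) p)
        (Fr.ent_whiskerLeft (Fr.dual P.X) P.d (a, b) p)) rfl).trans ?_
      rw [Fr.ent_tr]
      by_cases h : p.1 = p.2
      · rw [if_pos h, if_pos h]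
        exact mul_one _
      · rw [if_neg h, if_neg h]
        exact mul_zero _
    rw [Finset.sum_congr rfl (fun p _ => h1 p), Fintype.sum_prod_type]
    simp only [Finset.sum_ite_eq, Finset.mem_univ, if_true, Finset.sum_add_distrib, mul_ite,
      mul_one, mul_zero, ite_mul, one_mul, zero_mul]
    show Fr.ent P.d.f b a + Fr.ent P.d.f b a = 0
    exact CharTwo.add_self_eq_zero _

/-- finite differential objects are rigid -/
@[instance_reducible] def exactPairing : ExactPairing P (dual P) where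
  coevaluation' := coev P
  evaluation' := eval P
  coevaluation_evaluation' := by
    ext1
    exact Fr.tri1 P.X
  evaluation_coevaluation' := by
    ext1
    exact Fr.tri2 P.X

end DObj

namespace KC

variable (P : DObj (Fr G M)) [Fintype P.X.I]

/-- finite objects of the homotopy category are rigid -/
@[instance_reducible] def exactPairing :
    ExactPairing (⟨P⟩ : KC (Fr G M)) (⟨DObj.dual P⟩ : KC (Fr G M)) where
  coevaluation' := KC.q (X := 𝟙_ (KC (Fr G M))) (Y := (⟨P⟩ : KC (Fr G M)) ⊗ ⟨DObj.dual P⟩)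
    (DObj.coev P)
  evaluation' := KC.q (X := (⟨DObj.dual P⟩ : KC (Fr G M)) ⊗ ⟨P⟩) (Y := 𝟙_ (KC (Fr G M)))
    (DObj.eval P)
  coevaluation_evaluation' := by
    rw [KC.whiskerLeft_q, KC.whiskerRight_q]
    exact congrArg KC.q (DObj.exactPairing P).coevaluation_evaluation'
  evaluation_coevaluation' := by
    rw [KC.whiskerLeft_q, KC.whiskerRight_q]
    exact congrArg KC.q (DObj.exactPairing P).evaluation_coevaluation'

end KC

/-- finite differential objects with a rank function decreased by the differential -/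
def FinRk (P : DObj (Fr G M)) : Prop :=
  Finite P.X.I ∧ ∃ r : P.X.I → ℕ, ∀ i j, Fr.ent P.d.f i j ≠ 0 → r j < r i

lemma finRk_of_zero {P : DObj (Fr G M)} (h : Finite P.X.I) (hd : P.d = 0) : FinRk P := by
  refine ⟨h, fun _ => 0, fun i j hij => ?_⟩
  rw [hd] at hij
  exact absurd (Fr.ent_zero i j) hij

lemma finRk_unit : FinRk (𝟙_ (DObj (Fr G M))) :=
  finRk_of_zero (show Finite Unit from inferInstance) rfl

lemma finRk_tensor {P Q : DObj (Fr G M)} (hP : FinRk P) (hQ : FinRk Q) : FinRk (P ⊗ Q) := by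
  classical
  obtain ⟨h1, r, hr⟩ := hP
  obtain ⟨h2, r', hr'⟩ := hQ
  refine ⟨show Finite (P.X.I × Q.X.I) from inferInstance, fun p : P.X.I × Q.X.I => r p.1 + r' p.2,
    ?_⟩
  rintro ⟨a, b⟩ ⟨c, d⟩ h
  have h3 : Fr.ent (P ⊗ Q).d.f (a, b) (c, d) = Fr.ent P.d.f a c * (if b = d then 1 else 0) +
      (if a = c then 1 else 0) * Fr.ent Q.d.f b d :=
    congrArg₂ (· + ·) (Fr.ent_whiskerRight P.d Q.X (a, b) (c, d))
      (Fr.ent_whiskerLeft P.X Q.d (a, b) (c, d))
  rw [h3] at h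
  show r c + r' d < r a + r' b
  by_cases h4 : Fr.ent P.d.f a c * (if b = d then 1 else 0) = 0
  · rw [h4, zero_add] at h
    have h5 : a = c := by
      by_contra hne
      rw [if_neg hne, zero_mul] at h
      exact h rfl
    have h6 := hr' b d (right_ne_zero_of_mul h)
    subst h5
    omega
  · have h5 : b = d := by
      by_contra hne
      rw [if_neg hne, mul_zero] at h4
      exact h4 rfl
    have h6 := hr a c (left_ne_zero_of_mul h4)
    subst h5
    omega

lemma finRk_dual {P : DObj (Fr G M)} (hP : FinRk P) [Finite P.X.I] : FinRk (DObj.dual P) := by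
  obtain ⟨h1, r, hr⟩ := hP
  obtain ⟨N, hN⟩ : ∃ N, ∀ i, r i ≤ N := by
    obtain ⟨N, hN⟩ := (Set.finite_range r).bddAbove
    exact ⟨N, fun i => hN ⟨i, rfl⟩⟩
  refine ⟨h1, fun i => N - r i, ?_⟩
  intro i j h
  have h2 : Fr.ent (DObj.dual P).d.f i j = Fr.ent P.d.f j i := Fr.ent_tr P.d i j
  rw [h2] at h
  have h3 := hr j i h
  have h4 := hN j
  show N - r j < N - r i
  omega

namespace Fr

/-- the direct sum of two free modules -/
abbrev sum (X Y : Fr G M) : Fr G M := ⟨X.I ⊕ Y.I, Sum.elim X.deg Y.deg⟩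

variable (X Y : Fr G M)

/-- first inclusion -/
def inl : X ⟶ sum X Y where
  f := Finsupp.lmapDomain (ZMod 2) (ZMod 2) Sum.inl
  gr := by
    intro i j h
    rw [Finsupp.lmapDomain_apply, Finsupp.mapDomain_single] at h
    rcases j with j | j
    · by_cases hij : i = j
      · subst hij
        show X.deg i - X.deg i ∈ M
        simp [M.zero_mem]
      · exact absurd (by simp [hij]) h
    · exact absurd (by simp) h

/-- second inclusion -/
def inr : Y ⟶ sum X Y where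
  f := Finsupp.lmapDomain (ZMod 2) (ZMod 2) Sum.inr
  gr := by
    intro i j h
    rw [Finsupp.lmapDomain_apply, Finsupp.mapDomain_single] at h
    rcases j with j | j
    · exact absurd (by simp) h
    · by_cases hij : i = j
      · subst hij
        show Y.deg i - Y.deg i ∈ M
        simp [M.zero_mem]
      · exact absurd (by simp [hij]) h

/-- first projection -/
def fst : sum X Y ⟶ X where
  f := mat (Sum.elim (fun j => Finsupp.single j 1) (fun _ => 0))
  gr := by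
    intro i j h
    rw [mat_single] at h
    rcases i with i | i
    · by_cases hij : i = j
      · subst hij
        show X.deg i - X.deg i ∈ M
        simp [M.zero_mem]
      · exact absurd (by simp [hij]) h
    · exact absurd (by simp) h

/-- second projection -/
def snd : sum X Y ⟶ Y where
  f := mat (Sum.elim (fun _ => 0) (fun j => Finsupp.single j 1))
  gr := by
    intro i j h
    rw [mat_single] at h
    rcases i with i | i
    · exact absurd (by simp) h
    · by_cases hij : i = j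
      · subst hij
        show Y.deg i - Y.deg i ∈ M
        simp [M.zero_mem]
      · exact absurd (by simp [hij]) h

@[reassoc (attr := simp)] lemma inl_fst : inl X Y ≫ fst X Y = 𝟙 X := by
  apply hom_ext
  refine Finsupp.lhom_ext' fun i => LinearMap.ext_ring ?_
  show mat _ (Finsupp.lmapDomain (ZMod 2) (ZMod 2) Sum.inl (Finsupp.single i 1)) =
    Finsupp.single i 1
  simp

@[reassoc (attr := simp)] lemma inl_snd : inl X Y ≫ snd X Y = 0 := by
  apply hom_ext
  refine Finsupp.lhom_ext' fun i => LinearMap.ext_ring ?_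
  show mat _ (Finsupp.lmapDomain (ZMod 2) (ZMod 2) Sum.inl (Finsupp.single i 1)) = 0
  simp

@[reassoc (attr := simp)] lemma inr_fst : inr X Y ≫ fst X Y = 0 := by
  apply hom_ext
  refine Finsupp.lhom_ext' fun i => LinearMap.ext_ring ?_
  show mat _ (Finsupp.lmapDomain (ZMod 2) (ZMod 2) Sum.inr (Finsupp.single i 1)) = 0
  simp

@[reassoc (attr := simp)] lemma inr_snd : inr X Y ≫ snd X Y = 𝟙 Y := by
  apply hom_ext
  refine Finsupp.lhom_ext' fun i => LinearMap.ext_ring ?_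
  show mat _ (Finsupp.lmapDomain (ZMod 2) (ZMod 2) Sum.inr (Finsupp.single i 1)) =
    Finsupp.single i 1
  simp

lemma fst_inl_add : fst X Y ≫ inl X Y + snd X Y ≫ inr X Y = 𝟙 (sum X Y) := by
  apply hom_ext
  refine Finsupp.lhom_ext' fun i => LinearMap.ext_ring ?_
  show Finsupp.lmapDomain (ZMod 2) (ZMod 2) Sum.inl (mat _ (Finsupp.single i 1)) +
    Finsupp.lmapDomain (ZMod 2) (ZMod 2) Sum.inr (mat _ (Finsupp.single i 1)) =
      Finsupp.single i 1
  rcases i with i | i <;> simp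

variable {X Y}

lemma sum_hom_ext {Z : Fr G M} {a b : sum X Y ⟶ Z} (h1 : inl X Y ≫ a = inl X Y ≫ b)
    (h2 : inr X Y ≫ a = inr X Y ≫ b) : a = b := by
  rw [← Category.id_comp a, ← Category.id_comp b, ← fst_inl_add]
  simp only [Preadditive.add_comp, Category.assoc, h1, h2]

lemma ent_fst_comp_inl {Z : Fr G M} (ψ : X ⟶ Z) (i : X.I) (l : Z.I) :
    ent (fst X Y ≫ ψ).f (Sum.inl i) l = ent ψ.f i l := by
  show ψ.f (mat _ (Finsupp.single (Sum.inl i) 1)) l = _
  rw [mat_single]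
  rfl

lemma ent_fst_comp_inr {Z : Fr G M} (ψ : X ⟶ Z) (i : Y.I) (l : Z.I) :
    ent (fst X Y ≫ ψ).f (Sum.inr i) l = 0 := by
  show ψ.f (mat _ (Finsupp.single (Sum.inr i) 1)) l = _
  rw [mat_single]
  simp

lemma ent_snd_comp_inl {Z : Fr G M} (ψ : Y ⟶ Z) (i : X.I) (l : Z.I) :
    ent (snd X Y ≫ ψ).f (Sum.inl i) l = 0 := by
  show ψ.f (mat _ (Finsupp.single (Sum.inl i) 1)) l = _
  rw [mat_single]
  simp

lemma ent_snd_comp_inr {Z : Fr G M} (ψ : Y ⟶ Z) (i : Y.I) (l : Z.I) :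
    ent (snd X Y ≫ ψ).f (Sum.inr i) l = ent ψ.f i l := by
  show ψ.f (mat _ (Finsupp.single (Sum.inr i) 1)) l = _
  rw [mat_single]
  rfl

lemma ent_comp_inl_inl {Z : Fr G M} (ψ : Z ⟶ X) (i : Z.I) (l : X.I) :
    ent (ψ ≫ inl X Y).f i (Sum.inl l) = ent ψ.f i l :=
  Finsupp.mapDomain_apply Sum.inl_injective _ _

lemma ent_comp_inl_inr {Z : Fr G M} (ψ : Z ⟶ X) (i : Z.I) (l : Y.I) :
    ent (ψ ≫ inl X Y).f i (Sum.inr l) = 0 :=
  Finsupp.mapDomain_of_notMem_range _ _ (by simp)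

lemma ent_comp_inr_inr {Z : Fr G M} (ψ : Z ⟶ Y) (i : Z.I) (l : Y.I) :
    ent (ψ ≫ inr X Y).f i (Sum.inr l) = ent ψ.f i l :=
  Finsupp.mapDomain_apply Sum.inr_injective _ _

lemma ent_comp_inr_inl {Z : Fr G M} (ψ : Z ⟶ Y) (i : Z.I) (l : X.I) :
    ent (ψ ≫ inr X Y).f i (Sum.inl l) = 0 :=
  Finsupp.mapDomain_of_notMem_range _ _ (by simp)

/-- the differential of the explicit cone -/
def xd {X Y : Fr G M} (a : X ⟶ X) (b : Y ⟶ X) (c : Y ⟶ Y) : sum X Y ⟶ sum X Y :=
  fst X Y ≫ a ≫ inl X Y + snd X Y ≫ (b ≫ inl X Y + c ≫ inr X Y)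

@[reassoc (attr := simp)] lemma inl_xd (a : X ⟶ X) (b : Y ⟶ X) (c : Y ⟶ Y) :
    inl X Y ≫ xd a b c = a ≫ inl X Y := by
  simp [xd]

@[reassoc (attr := simp)] lemma inr_xd (a : X ⟶ X) (b : Y ⟶ X) (c : Y ⟶ Y) :
    inr X Y ≫ xd a b c = b ≫ inl X Y + c ≫ inr X Y := by
  simp [xd]

@[reassoc (attr := simp)] lemma xd_snd (a : X ⟶ X) (b : Y ⟶ X) (c : Y ⟶ Y) :
    xd a b c ≫ snd X Y = snd X Y ≫ c := by
  simp [xd]

lemma ent_xd_ll (a : X ⟶ X) (b : Y ⟶ X) (c : Y ⟶ Y) (i j : X.I) :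
    ent (xd a b c).f (Sum.inl i) (Sum.inl j) = ent a.f i j := by
  rw [xd, add_f, ent_add, ent_fst_comp_inl, ent_snd_comp_inl, add_zero, ent_comp_inl_inl]

lemma ent_xd_lr (a : X ⟶ X) (b : Y ⟶ X) (c : Y ⟶ Y) (i : X.I) (j : Y.I) :
    ent (xd a b c).f (Sum.inl i) (Sum.inr j) = 0 := by
  rw [xd, add_f, ent_add, ent_fst_comp_inl, ent_snd_comp_inl, add_zero, ent_comp_inl_inr]

lemma ent_xd_rr (a : X ⟶ X) (b : Y ⟶ X) (c : Y ⟶ Y) (i j : Y.I) :
    ent (xd a b c).f (Sum.inr i) (Sum.inr j) = ent c.f i j := by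
  rw [xd, add_f, ent_add, ent_fst_comp_inr, ent_snd_comp_inr, zero_add, add_f, ent_add,
    ent_comp_inl_inr, ent_comp_inr_inr, zero_add]

end Fr

/-- the explicit cone -/
def xcone {P R : DObj (Fr G M)} (φ : P ⟶ R) : DObj (Fr G M) where
  X := Fr.sum R.X P.X
  d := Fr.xd R.d φ.f P.d
  dd := by
    apply Fr.sum_hom_ext
    · simp
    · simp only [Fr.inr_xd_assoc, Preadditive.add_comp, Category.assoc, Fr.inl_xd, Fr.inr_xd,
        Preadditive.comp_add, DObj.dd_assoc, zero_comp, add_zero, comp_zero]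
      rw [φ.comm_assoc, add_self]

/-- it is a cone -/
def xconeData {P R : DObj (Fr G M)} (φ : P ⟶ R) : ConeData φ (xcone φ) where
  inl := { f := Fr.inl R.X P.X, comm := (Fr.inl_xd R.d φ.f P.d).symm }
  pr := { f := Fr.snd R.X P.X, comm := Fr.xd_snd R.d φ.f P.d }
  s := Fr.inr R.X P.X
  r := Fr.fst R.X P.X
  inl_pr := Fr.inl_snd _ _
  s_pr := Fr.inr_snd _ _
  inl_r := Fr.inl_fst _ _
  s_r := Fr.inr_fst _ _
  total := (add_comm _ _).trans (Fr.fst_inl_add R.X P.X)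
  diff := by
    have h : ∀ (a b : P.X ⟶ Fr.sum R.X P.X), a + (b + a) = b := fun a b => by
      rw [add_left_comm, add_self, add_zero]
    exact (congrArg (fun z : P.X ⟶ Fr.sum R.X P.X => P.d ≫ Fr.inr R.X P.X + z)
      (Fr.inr_xd R.d φ.f P.d)).trans (h _ _)

lemma finRk_xcone {P R : DObj (Fr G M)} (φ : P ⟶ R) (hP : FinRk P) (hR : FinRk R) :
    FinRk (xcone φ) := by
  obtain ⟨h1, r, hr⟩ := hP
  obtain ⟨h2, r', hr'⟩ := hR
  obtain ⟨N, hN⟩ : ∃ N, ∀ i, r' i ≤ N := by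
    obtain ⟨N, hN⟩ := (Set.finite_range r').bddAbove
    exact ⟨N, fun i => hN ⟨i, rfl⟩⟩
  refine ⟨show Finite (R.X.I ⊕ P.X.I) from inferInstance,
    Sum.elim r' (fun i => r i + N + 1), ?_⟩
  rintro (i | i) (j | j) h
  · have h3 : Fr.ent (xcone φ).d.f (Sum.inl i) (Sum.inl j) = Fr.ent R.d.f i j :=
      Fr.ent_xd_ll R.d φ.f P.d i j
    rw [h3] at h
    exact hr' i j h
  · exact absurd (Fr.ent_xd_lr R.d φ.f P.d i j) h
  · show r' j < r i + N + 1
    have := hN j
    omega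
  · have h3 : Fr.ent (xcone φ).d.f (Sum.inr i) (Sum.inr j) = Fr.ent P.d.f i j :=
      Fr.ent_xd_rr R.d φ.f P.d i j
    rw [h3] at h
    have := hr i j h
    show r j + N + 1 < r i + N + 1
    omega

end

end MP40506.CX
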