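import Pool.Agent.Work.MP_40506d_al.CX.Dual

/-!
# The class of finite objects of `KC (Fr G M)` is closed under extensions, tensor products, duals
-/

open CategoryTheory CategoryTheory.Limits CategoryTheory.MonoidalCategory
  CategoryTheory.Pretriangulated

set_option linter.unusedSectionVars false

namespace MP40506.CX

noncomputable section

variable {G : Type} [AddCommGroup G] {M : AddSubmonoid G}

/-- isomorphic to a finite object with a rank function -/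
def FinObj (X : KC (Fr G M)) : Prop :=
  ∃ w : DObj (Fr G M), FinRk w ∧ Nonempty (X ≅ (⟨w⟩ : KC (Fr G M)))

lemma FinObj.mk {w : DObj (Fr G M)} (h : FinRk w) : FinObj (⟨w⟩ : KC (Fr G M)) :=
  ⟨w, h, ⟨Iso.refl _⟩⟩

lemma FinObj.of_iso {X Y : KC (Fr G M)} (e : X ≅ Y) (h : FinObj Y) : FinObj X := by
  obtain ⟨w, hw, ⟨e'⟩⟩ := h
  exact ⟨w, hw, ⟨e ≪≫ e'⟩⟩

lemma finObj_unit : FinObj (𝟙_ (KC (Fr G M))) := FinObj.mk finRk_unit

lemma isZero_of_isEmpty (w : DObj (Fr G M)) [IsEmpty w.X.I] : IsZero (⟨w⟩ : KC (Fr G M)) := by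
  refine isZero_KC_of_id 0 ?_
  apply Fr.hom_ext'
  intro i
  exact isEmptyElim i

lemma finObj_zero (X : KC (Fr G M)) (h : IsZero X) : FinObj X := by
  let w : DObj (Fr G M) := { X := ⟨PEmpty, fun i => i.elim⟩, d := 0, dd := comp_zero }
  have : IsEmpty w.X.I := inferInstanceAs (IsEmpty PEmpty)
  have : Finite w.X.I := inferInstance
  exact ⟨w, finRk_of_zero this rfl, ⟨h.iso (isZero_of_isEmpty w)⟩⟩

lemma finObj_shift (X : KC (Fr G M)) (n : ℤ) (h : FinObj X) : FinObj (X⟦n⟧) := h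

lemma finObj_ext₃ (T : Triangle (KC (Fr G M))) (hT : T ∈ distTriang (KC (Fr G M)))
    (h1 : FinObj T.obj₁) (h2 : FinObj T.obj₂) : FinObj T.obj₃ := by
  obtain ⟨w1, hw1, ⟨e1⟩⟩ := h1
  obtain ⟨w2, hw2, ⟨e2⟩⟩ := h2
  obtain ⟨φ, hφ⟩ := KC.m_surj (e1.inv ≫ T.mor₁ ≫ e2.hom)
  have h3 : (xconeData φ).tri ∈ distTriang (KC (Fr G M)) := tri_mem _
  have e := isoTriangleOfIso₁₂ T (xconeData φ).tri hT h3 e1 e2 (by
    show T.mor₁ ≫ e2.hom = e1.hom ≫ KC.m φ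
    rw [hφ, Iso.hom_inv_id_assoc])
  exact ⟨xcone φ, finRk_xcone φ hw1 hw2, ⟨Triangle.π₃.mapIso e⟩⟩

lemma finObj_ext₂ (T : Triangle (KC (Fr G M))) (hT : T ∈ distTriang (KC (Fr G M)))
    (h1 : FinObj T.obj₁) (h3 : FinObj T.obj₃) : FinObj T.obj₂ :=
  finObj_ext₃ _ (rot_of_distTriang _ (rot_of_distTriang _ hT)) h3 h1

lemma finObj_tensor (X Y : KC (Fr G M)) (h1 : FinObj X) (h2 : FinObj Y) : FinObj (X ⊗ Y) := by
  obtain ⟨w1, hw1, ⟨e1⟩⟩ := h1
  obtain ⟨w2, hw2, ⟨e2⟩⟩ := h2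
  exact ⟨w1 ⊗ w2, finRk_tensor hw1 hw2, ⟨e1 ⊗ᵢ e2⟩⟩

lemma finObj_dual (X : KC (Fr G M)) (h : FinObj X) :
    ∃ Y : KC (Fr G M), FinObj Y ∧ Nonempty (ExactPairing X Y) := by
  obtain ⟨w, hw, ⟨e⟩⟩ := h
  have := hw.1
  have : Fintype w.X.I := Fintype.ofFinite _
  refine ⟨⟨DObj.dual w⟩, FinObj.mk (finRk_dual hw), ⟨?_⟩⟩
  letI := KC.exactPairing w
  exact exactPairingCongrLeft e

/-- the small index type of the finite objects -/
def FinIdx (G : Type) [AddCommGroup G] (M : AddSubmonoid G) : Type :=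
  Σ n : ℕ, Σ δ : Fin n → G,
    {f : (Fin n →₀ ZMod 2) →ₗ[ZMod 2] (Fin n →₀ ZMod 2) //
      (∀ i j, f (Finsupp.single i 1) j ≠ 0 → δ i - δ j ∈ M) ∧ f ∘ₗ f = 0}

/-- the finite objects -/
def finIdxObj (x : FinIdx G M) : KC (Fr G M) :=
  ⟨{ X := ⟨Fin x.1, x.2.1⟩
     d := { f := x.2.2.1, gr := x.2.2.2.1 }
     dd := Fr.hom_ext x.2.2.2.2 }⟩

lemma finObj_small (X : KC (Fr G M)) (h : FinObj X) :
    ∃ x : FinIdx G M, Nonempty (X ≅ finIdxObj x) := by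
  obtain ⟨w, hw, ⟨e⟩⟩ := h
  have := hw.1
  let n := Nat.card w.X.I
  let κ : w.X.I ≃ Fin n := Finite.equivFin _
  let X' : Fr G M := ⟨Fin n, fun i => w.X.deg (κ.symm i)⟩
  let i : w.X ≅ X' := Fr.isoOfEquiv κ (fun i => by
    show w.X.deg (κ.symm (κ i)) = w.X.deg i
    rw [Equiv.symm_apply_apply])
  let d' : X' ⟶ X' := i.inv ≫ w.d ≫ i.hom
  have hd : d' ≫ d' = 0 := by
    simp [d']
  let w' : DObj (Fr G M) := { X := X', d := d', dd := hd }
  let E : w ≅ w' :=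
    { hom := { f := i.hom, comm := by simp [w', d'] }
      inv := { f := i.inv, comm := by simp [w', d'] }
      hom_inv_id := by ext1; exact i.hom_inv_id
      inv_hom_id := by ext1; exact i.inv_hom_id }
  refine ⟨⟨n, X'.deg, d'.f, d'.gr, congrArg Fr.Hom.f hd⟩, ⟨e ≪≫ (KC.Q (Fr G M)).mapIso E⟩⟩

section Split

universe v u

variable {A : Type u} [Category.{v} A] [Preadditive A] [Two A]

/-- splitting off a subobject with zero differential -/
lemma exists_splitCone (P : DObj A) {X' R : A} (inl : R ⟶ P.X) (pr : P.X ⟶ X') (s : X' ⟶ P.X)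
    (r : P.X ⟶ R) (h1 : inl ≫ pr = 0) (h2 : s ≫ pr = 𝟙 _) (h3 : inl ≫ r = 𝟙 _)
    (h4 : s ≫ r = 0) (h5 : pr ≫ s + r ≫ inl = 𝟙 _) (h6 : inl ≫ P.d = 0) :
    ∃ (h : (s ≫ P.d ≫ pr) ≫ (s ≫ P.d ≫ pr) = 0)
      (φ : ({ X := X', d := s ≫ P.d ≫ pr, dd := h } : DObj A) ⟶
        ({ X := R, d := 0, dd := comp_zero } : DObj A)), Nonempty (ConeData φ P) := by
  have e1 : ∀ {Y Z : A} (χ : Y ⟶ P.X) (ψ : P.X ⟶ Z),
      χ ≫ pr ≫ s ≫ ψ + χ ≫ r ≫ inl ≫ ψ = χ ≫ ψ := by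
    intro Y Z χ ψ
    have e2 : χ ≫ (pr ≫ s + r ≫ inl) ≫ ψ = χ ≫ ψ := by rw [h5, Category.id_comp]
    rw [← e2]
    simp only [Preadditive.add_comp, Preadditive.comp_add, Category.assoc]
  have e3 : ∀ {Z : A} (ψ : P.X ⟶ Z), inl ≫ P.d ≫ ψ = 0 := by
    intro Z ψ
    rw [reassoc_of% h6, zero_comp]
  have e4 : ∀ {Y Z : A} (χ : Y ⟶ P.X) (ψ : P.X ⟶ Z),
      χ ≫ pr ≫ s ≫ P.d ≫ ψ = χ ≫ P.d ≫ ψ := by
    intro Y Z χ ψ
    have := e1 χ (P.d ≫ ψ)
    rwa [e3, comp_zero, comp_zero, add_zero] at this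
  have hdd : (s ≫ P.d ≫ pr) ≫ (s ≫ P.d ≫ pr) = 0 := by
    have h := e4 (s ≫ P.d) pr
    simp only [Category.assoc] at h ⊢
    rw [h, P.dd_assoc, zero_comp, comp_zero]
  refine ⟨hdd, { f := s ≫ P.d ≫ r, comm := ?_ }, ⟨?_⟩⟩
  · have h := e4 (s ≫ P.d) r
    simp only [Category.assoc] at h ⊢
    rw [h, P.dd_assoc, zero_comp, comp_zero, comp_zero, comp_zero, comp_zero]
  · exact
    { inl := { f := inl, comm := by rw [zero_comp, h6] }
      pr :=
        { f := pr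
          comm := by
            have h := e4 (𝟙 _) pr
            rw [Category.id_comp, Category.id_comp] at h
            exact h.symm }
      s := s
      r := r
      inl_pr := h1
      s_pr := h2
      inl_r := h3
      s_r := h4
      total := h5
      diff := by
        have h := e1 (s ≫ P.d) (𝟙 _)
        simp only [Category.assoc, Category.comp_id] at h ⊢
        rw [← h]
        have e : ∀ a b : X' ⟶ P.X, a + (a + b) = b := fun a b => by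
          rw [← add_assoc, add_self, zero_add]
        exact e _ _ }

end Split

namespace Fr

variable {X Y : Fr G M}

lemma ent_inr_comp {Z : Fr G M} (ψ : sum X Y ⟶ Z) (i : Y.I) (l : Z.I) :
    ent (inr X Y ≫ ψ).f i l = ent ψ.f (Sum.inr i) l := by
  show ψ.f (Finsupp.mapDomain Sum.inr (Finsupp.single i 1)) l = _
  rw [Finsupp.mapDomain_single]
  rfl

lemma ent_inl_comp {Z : Fr G M} (ψ : sum X Y ⟶ Z) (i : X.I) (l : Z.I) :
    ent (inl X Y ≫ ψ).f i l = ent ψ.f (Sum.inl i) l := by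
  show ψ.f (Finsupp.mapDomain Sum.inl (Finsupp.single i 1)) l = _
  rw [Finsupp.mapDomain_single]
  rfl

lemma ent_comp_snd {Z : Fr G M} (ψ : Z ⟶ sum X Y) (i : Z.I) (l : Y.I) :
    ent (ψ ≫ snd X Y).f i l = ent ψ.f i (Sum.inr l) := by
  have h : Finsupp.lapply l ∘ₗ (snd X Y).f =
      (Finsupp.lapply (Sum.inr l) : (X.I ⊕ Y.I →₀ ZMod 2) →ₗ[ZMod 2] ZMod 2) := by
    refine Finsupp.lhom_ext' fun j => LinearMap.ext_ring ?_
    show mat _ (Finsupp.single j 1) l = Finsupp.single j 1 (Sum.inr l)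
    rw [mat_single]
    rcases j with j | j
    · simp
    · show Finsupp.single j (1 : ZMod 2) l = Finsupp.single (Sum.inr j) 1 (Sum.inr l)
      by_cases hjl : j = l
      · subst hjl
        rw [Finsupp.single_eq_same, Finsupp.single_eq_same]
      · rw [Finsupp.single_eq_of_ne (Ne.symm hjl), Finsupp.single_eq_of_ne]
        intro hh
        exact hjl (Sum.inr.inj hh).symm
  exact LinearMap.congr_fun h (ψ.f (Finsupp.single i 1))

lemma ent_comp_hom {Z : Fr G M} (e : X.I ≃ Y.I) (h : ∀ i, Y.deg (e i) = X.deg i)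
    (ψ : Z ⟶ X) (i : Z.I) (l : Y.I) :
    ent (ψ ≫ (isoOfEquiv e h).hom).f i l = ent ψ.f i (e.symm l) :=
  ent_comp_equiv ψ.f e i l

end Fr

/-- the free module of rank one with generator in degree `g`, zero differential -/
abbrev rk1 (g : G) : DObj (Fr G M) := { X := ⟨Unit, fun _ => g⟩, d := 0, dd := comp_zero }

lemma exists_cone_rk1 (P : DObj (Fr G M)) (hP : FinRk P) [Nonempty P.X.I] :
    ∃ (g : G) (P' : DObj (Fr G M)) (φ : P' ⟶ rk1 g), FinRk P' ∧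
      Nat.card P'.X.I < Nat.card P.X.I ∧ Nonempty (ConeData φ P) := by
  obtain ⟨hf, r, hr⟩ := hP
  obtain ⟨i0, hi0⟩ := Finite.exists_min r
  obtain ⟨e, he⟩ : ∃ e : P.X.I ≃ Unit ⊕ {i : P.X.I // ¬ i = i0},
      ∀ x, e.symm x = Sum.elim (fun _ => i0) (fun i => i.1) x := by
    classical
    refine ⟨(Equiv.sumCompl (fun i => i = i0)).symm.trans
      (Equiv.sumCongr (Equiv.equivPUnit _) (Equiv.refl _)), ?_⟩
    rintro (x | x)
    · exact ((Equiv.equivPUnit {i // i = i0}).symm x).2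
    · rfl
  let X0 : Fr G M := ⟨Unit, fun _ => P.X.deg i0⟩
  let X1 : Fr G M := ⟨{i : P.X.I // ¬ i = i0}, fun i => P.X.deg i.1⟩
  have hdeg : ∀ i, (Fr.sum X0 X1).deg (e i) = P.X.deg i := by
    intro i
    obtain ⟨x, rfl⟩ := e.symm.surjective i
    rw [Equiv.apply_symm_apply, he]
    rcases x with x | x <;> rfl
  obtain ⟨κ, hκ⟩ : ∃ κ : P.X ≅ Fr.sum X0 X1, κ = Fr.isoOfEquiv e hdeg := ⟨_, rfl⟩
  have hk1 : ∀ {Z : Fr G M} (ψ : P.X ⟶ Z) (j : (Fr.sum X0 X1).I) (l : Z.I),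
      Fr.ent (κ.inv ≫ ψ).f j l = Fr.ent ψ.f (e.symm j) l := by
    intro Z ψ j l
    rw [hκ]
    exact Fr.ent_inv_comp e hdeg ψ j l
  have hk2 : ∀ {Z : Fr G M} (ψ : Z ⟶ P.X) (i : Z.I) (j : (Fr.sum X0 X1).I),
      Fr.ent (ψ ≫ κ.hom).f i j = Fr.ent ψ.f i (e.symm j) := by
    intro Z ψ i j
    rw [hκ]
    exact Fr.ent_comp_hom e hdeg ψ i j
  have h6 : (Fr.inl X0 X1 ≫ κ.inv) ≫ P.d = 0 := by
    apply Fr.hom_ext'
    intro u l
    rw [Category.assoc]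
    refine (Fr.ent_inl_comp (κ.inv ≫ P.d) u l).trans ?_
    refine (hk1 P.d (Sum.inl u) l).trans ?_
    rw [he]
    show Fr.ent P.d.f i0 l = 0
    by_contra hne
    have := hr i0 l hne
    have := hi0 l
    omega
  obtain ⟨h, φ, hD⟩ := exists_splitCone P (Fr.inl X0 X1 ≫ κ.inv) (κ.hom ≫ Fr.snd X0 X1)
    (Fr.inr X0 X1 ≫ κ.inv) (κ.hom ≫ Fr.fst X0 X1) (by simp) (by simp) (by simp) (by simp)
    (by
      have : (κ.hom ≫ Fr.snd X0 X1) ≫ Fr.inr X0 X1 ≫ κ.inv +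
          (κ.hom ≫ Fr.fst X0 X1) ≫ Fr.inl X0 X1 ≫ κ.inv =
          κ.hom ≫ (Fr.fst X0 X1 ≫ Fr.inl X0 X1 + Fr.snd X0 X1 ≫ Fr.inr X0 X1) ≫ κ.inv := by
        simp only [Preadditive.add_comp, Preadditive.comp_add, Category.assoc]
        exact add_comm _ _
      rw [this, Fr.fst_inl_add, Category.id_comp, Iso.hom_inv_id]) h6
  refine ⟨P.X.deg i0, _, φ, ⟨?_, fun i => r i.1, ?_⟩, ?_, hD⟩
  · show Finite {i : P.X.I // ¬ i = i0}
    infer_instance
  · intro i j hij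
    apply hr
    have h1 : Fr.ent ((Fr.inr X0 X1 ≫ κ.inv) ≫ P.d ≫ κ.hom ≫ Fr.snd X0 X1).f i j =
        Fr.ent P.d.f i.1 j.1 := by
      rw [Category.assoc]
      refine (Fr.ent_inr_comp (κ.inv ≫ P.d ≫ κ.hom ≫ Fr.snd X0 X1) i j).trans ?_
      refine (hk1 (P.d ≫ κ.hom ≫ Fr.snd X0 X1) (Sum.inr i) j).trans ?_
      rw [← Category.assoc]
      refine (Fr.ent_comp_snd (P.d ≫ κ.hom) _ j).trans ?_
      refine (hk2 P.d _ (Sum.inr j)).trans ?_
      rw [he, he]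
      rfl
    rw [← h1]
    exact hij
  · have h2 : Nat.card P.X.I = Nat.card (Unit ⊕ {i : P.X.I // ¬ i = i0}) := Nat.card_congr e
    rw [h2, Nat.card_sum]
    show Nat.card {i : P.X.I // ¬ i = i0} < _
    simp

/-- finite objects belong to every localizing subcategory containing the free modules of rank
one -/
lemma finRk_loc (Q : ObjectProperty (KC (Fr G M))) (hQ : IsLocalizing Q)
    (hk : ∀ g, Q ⟨rk1 g⟩) (P : DObj (Fr G M)) (hP : FinRk P) : Q ⟨P⟩ := by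
  induction hn : Nat.card P.X.I using Nat.strong_induction_on generalizing P with
  | _ n ih =>
    rcases isEmpty_or_nonempty P.X.I with h | h
    · exact hQ.of_isZero (isZero_of_isEmpty P)
    · obtain ⟨g, P', φ, h1, h2, ⟨D⟩⟩ := exists_cone_rk1 P hP
      exact hQ.ext₃ D.tri (tri_mem D) (ih _ (hn ▸ h2) P' h1 rfl) (hk g)

end

end MP40506.CX
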