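import Pool.Agent.Work.MP_40506d_al.Spc

/-!
# Morphisms inverted by a prime
-/

open CategoryTheory CategoryTheory.Limits CategoryTheory.MonoidalCategory
  CategoryTheory.Pretriangulated

universe v u u'

set_option linter.unusedSectionVars false

namespace MP40506

section Inv

variable {T : Type u} [Category.{v} T] [HasZeroObject T] [HasShift T ℤ] [Preadditive T]
  [∀ n : ℤ, (shiftFunctor T n).Additive] [Pretriangulated T] [IsTriangulated T]
  [MonoidalCategory T]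
  [SymmetricCategory T] [MonoidalPreadditive T] [HasCoproducts.{v} T] [RCG T]

/-- a morphism between compact objects whose cone lies in `P` -/
def InvAt (P : Spc T) {c c' : T} (ψ : c ⟶ c') : Prop :=
  IsCpt c ∧ IsCpt c' ∧ ∃ (Z : T) (g : c' ⟶ Z) (h : Z ⟶ c⟦(1 : ℤ)⟧),
    Triangle.mk ψ g h ∈ distTriang T ∧ P.1 Z

variable {P : Spc T}

lemma InvAt.comp {a b c : T} {φ : a ⟶ b} {ψ : b ⟶ c} (h1 : InvAt P φ) (h2 : InvAt P ψ) :
    InvAt P (φ ≫ ψ) := by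
  obtain ⟨ha, hb, Z1, g1, k1, hd1, hZ1⟩ := h1
  obtain ⟨_, hc, Z2, g2, k2, hd2, hZ2⟩ := h2
  obtain ⟨Z, g, k, hd⟩ := exists_tri (φ ≫ ψ)
  have oct := Triangulated.someOctahedron rfl hd1 hd2 hd
  refine ⟨ha, hc, Z, g, k, hd, ?_⟩
  exact P.2.ext₂ _ oct.mem hZ1 hZ2

lemma InvAt.of_isIso {a b : T} (φ : a ⟶ b) [IsIso φ] (ha : IsCpt a) : InvAt P φ := by
  obtain ⟨Z, g, k, hd⟩ := exists_tri φ
  have h1 : IsZero Z := (Triangle.isZero₃_iff_isIso₁ _ hd).2 (by assumption)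
  exact ⟨ha, ha.of_iso (asIso φ).symm, Z, g, k, hd, P.2.zero Z h1⟩

lemma InvAt.id {a : T} (ha : IsCpt a) : InvAt P (𝟙 a) := InvAt.of_isIso _ ha

lemma InvAt.whiskerLeft {a b c : T} {φ : a ⟶ b} (h : InvAt P φ) (hc : IsCpt c) :
    InvAt P (c ◁ φ) := by
  obtain ⟨ha, hb, Z, g, k, hd, hZ⟩ := h
  exact ⟨hc.tensor ha, hc.tensor hb, _, _, _, tri_tensor c hd, P.2.tensor _ _ hc hZ⟩

lemma InvAt.whiskerRight {a b c : T} {φ : a ⟶ b} (h : InvAt P φ) (hc : IsCpt c) :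
    InvAt P (φ ▷ c) := by
  have h1 : φ ▷ c = (β_ a c).hom ≫ c ◁ φ ≫ (β_ b c).inv := by
    rw [← Category.assoc, ← BraidedCategory.braiding_naturality_left, Category.assoc,
      Iso.hom_inv_id, Category.comp_id]
  rw [h1]
  exact (InvAt.of_isIso _ (h.1.tensor hc)).comp ((h.whiskerLeft hc).comp
    (InvAt.of_isIso _ (hc.tensor h.2.1)))

lemma InvAt.tensorHom {a b c d : T} {φ : a ⟶ b} {ψ : c ⟶ d} (h1 : InvAt P φ)
    (h2 : InvAt P ψ) : InvAt P (φ ⊗ₘ ψ) := by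
  rw [MonoidalCategory.tensorHom_def]
  exact (h1.whiskerRight h2.1).comp (h2.whiskerLeft h1.2.1)

/-- an inverted morphism with target outside of `P` is not zero -/
lemma InvAt.ne_zero {a b : T} {φ : a ⟶ b} (h : InvAt P φ) (hb : ¬ P.1 b) : φ ≠ 0 := by
  rintro rfl
  obtain ⟨ha, hb', Z, g, k, hd, hZ⟩ := h
  obtain ⟨l, hl⟩ := tri_desc hd (𝟙 b) (by rw [zero_comp])
  exact hb (P.2.retract b Z g l hl.symm hZ)

end Inv

end MP40506
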