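import Pool.Agent.Work.MP_40506d_al.CX.TK
import Pool.Agent.Work.MP_40506d_al.CX.Inv
import Pool.Agent.Work.MP_40506d_al.CX.Res

/-!
# The face attached to a prime
-/

open CategoryTheory CategoryTheory.Limits CategoryTheory.MonoidalCategory
  CategoryTheory.Pretriangulated

set_option linter.unusedSectionVars false

namespace MP40506.CX

noncomputable section

variable {G : Type} [AddCommGroup G] {M : AddSubmonoid G}

/-- the triangle `k(h) ⟶ k(0) ⟶ K_h ⟶` in `TT G M` -/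
lemma tkz_tri (h : G) (hM : h ∈ M) :
    ∃ k : tkz h hM ⟶ (tk h : TT G M)⟦(1 : ℤ)⟧,
      Triangle.mk (tmul (sub_zero_mem hM) : (tk h : TT G M) ⟶ tk 0)
        (ObjectProperty.homMk (KC.q (kzCone h hM).inl) : (tk 0 : TT G M) ⟶ tkz h hM) k ∈
        distTriang (TT G M) :=
  exists_tri_of_obj _ _ (KC.q (kzCone h hM).pr) (kz_tri h hM)

lemma tmul_self {g : G} (h : g - g ∈ M) : (tmul h : (tk g : TT G M) ⟶ tk g) = 𝟙 _ := rfl

lemma tmul_comp {g g' g'' : G} (h : g - g' ∈ M) (h' : g' - g'' ∈ M) (h'' : g - g'' ∈ M) :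
    (tmul h : (tk g : TT G M) ⟶ tk g') ≫ tmul h' = tmul h'' := rfl

variable (P : Spc (TT G M))

lemma invAt_tmul_of {h : G} (hM : h ∈ M) (hP : P.1 (tkz h hM)) :
    InvAt P (tmul (sub_zero_mem hM) : (tk h : TT G M) ⟶ tk 0) := by
  obtain ⟨k, hd⟩ := tkz_tri h hM
  exact ⟨isCpt_tk h, isCpt_tk 0, _, _, _, hd, hP⟩

lemma of_invAt_tmul {h : G} (hM : h ∈ M)
    (hi : InvAt P (tmul (sub_zero_mem hM) : (tk h : TT G M) ⟶ tk 0)) : P.1 (tkz h hM) := by
  obtain ⟨k, hd⟩ := tkz_tri h hM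
  obtain ⟨-, -, Z, g', k', hd', hZ⟩ := hi
  obtain ⟨e⟩ := nonempty_iso_cone hd hd'
  exact P.2.of_iso e hZ

/-- multiplication by `u` on `k(a)` is inverted if `K_u` lies in `P` -/
lemma invAt_tmul_add {u : G} (hu : u ∈ M) (hP : P.1 (tkz u hu)) (a : G) :
    InvAt P (tmul (sub_mem_of_mem' hu a) : (tk (u + a) : TT G M) ⟶ tk a) := by
  let e : (tk u : TT G M) ⊗ tk a ≅ tk (u + a) :=
    (locSub (FinC G M)).fullyFaithfulι.preimageIso (kkMul u a)
  have h1 : (tmul (sub_mem_of_mem' hu a) : (tk (u + a) : TT G M) ⟶ tk a) =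
      e.inv ≫ (tmul (sub_zero_mem hu) : (tk u : TT G M) ⟶ tk 0) ▷ tk a ≫
        (λ_ (tk a : TT G M)).hom := by
    rw [Iso.eq_inv_comp]
    apply ObjectProperty.hom_ext
    exact (chi_whiskerRight u hu a).symm
  rw [h1]
  have h2 := (invAt_tmul_of P hu hP).whiskerRight (isCpt_tk a)
  exact (InvAt.of_isIso _ (isCpt_tk _)).comp (h2.comp
    (InvAt.of_isIso _ (h2.2.1)))

/-- `K_a ⊗ χ_a = 0` -/
lemma tkz_whiskerLeft (a : G) (ha : a ∈ M) :
    tkz a ha ◁ (tmul (sub_zero_mem ha) : (tk a : TT G M) ⟶ tk 0) = 0 := by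
  have h1 : (tmul (sub_zero_mem ha) : (tk a : TT G M) ⟶ tk 0) ▷ tkz a ha = 0 := by
    apply ObjectProperty.hom_ext
    exact chi_kz a ha
  have h2 := BraidedCategory.braiding_naturality_right (tkz a ha)
    (tmul (sub_zero_mem ha) : (tk a : TT G M) ⟶ tk 0)
  rw [h1, comp_zero] at h2
  rw [← cancel_mono (β_ (tkz a ha) (tk 0)).hom, h2, zero_comp]

lemma tkz_of_add {a b : G} (ha : a ∈ M) (hb : b ∈ M) (hab : a + b ∈ M)
    (hP : P.1 (tkz (a + b) hab)) : P.1 (tkz a ha) := by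
  have h1 := (invAt_tmul_of P hab hP).whiskerLeft (isCpt_tkz a ha)
  have h2 : (tmul (sub_zero_mem hab) : (tk (a + b) : TT G M) ⟶ tk 0) =
      (tmul (show a + b - a ∈ M by simpa using hb) : (tk (a + b) : TT G M) ⟶ tk a) ≫
        tmul (sub_zero_mem ha) := rfl
  have h3 : tkz a ha ◁ (tmul (sub_zero_mem hab) : (tk (a + b) : TT G M) ⟶ tk 0) = 0 := by
    rw [h2, MonoidalCategory.whiskerLeft_comp, tkz_whiskerLeft, comp_zero]
  by_contra hcon
  refine h1.ne_zero (fun h4 => hcon ?_) h3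
  exact P.2.of_iso (ρ_ (tkz a ha)).symm h4

/-- the face attached to a prime: the `h ∈ M` whose Koszul object lies in the prime -/
def face (P : Spc (TT G M)) : AddSubmonoid G where
  carrier := {h | ∃ hM : h ∈ M, P.1 (tkz h hM)}
  add_mem' := by
    rintro a b ⟨ha, hPa⟩ ⟨hb, hPb⟩
    refine ⟨M.add_mem ha hb, ?_⟩
    apply of_invAt_tmul
    exact (invAt_tmul_add P ha hPa b).comp (invAt_tmul_of P hb hPb)
  zero_mem' := by
    refine ⟨M.zero_mem, ?_⟩
    apply of_invAt_tmul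
    have h1 : (tmul (sub_zero_mem M.zero_mem) : (tk 0 : TT G M) ⟶ tk 0) = 𝟙 _ := rfl
    rw [h1]
    exact InvAt.id (isCpt_tk 0)

lemma mem_face (P : Spc (TT G M)) (h : G) : h ∈ face P ↔ ∃ hM : h ∈ M, P.1 (tkz h hM) :=
  Iff.rfl

lemma isFace_face (P : Spc (TT G M)) : IsFace M (face P) where
  le := by
    rintro h ⟨hM, -⟩
    exact hM
  face := by
    rintro a ha b hb ⟨hab, hP⟩
    refine ⟨⟨ha, tkz_of_add P ha hb hab hP⟩, ⟨hb, ?_⟩⟩
    have hba : b + a ∈ M := by rw [add_comm]; exact hab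
    apply tkz_of_add P hb ha hba
    have h1 : ∀ (x y : G) (hx : x ∈ M) (hy : y ∈ M), x = y → P.1 (tkz x hx) →
        P.1 (tkz y hy) := by
      rintro x y hx hy rfl h
      exact h
    exact h1 _ _ hab hba (add_comm a b) hP

end

end MP40506.CX
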