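import Pool.Agent.Work.MP_40506d_al.CX.Nil
import Pool.Agent.Work.MP_40506d_al.CX.Inv

/-!
# A killed morphism does not factor a morphism inverted by a prime
-/

open CategoryTheory CategoryTheory.Limits CategoryTheory.MonoidalCategory
  CategoryTheory.Pretriangulated

set_option linter.unusedSectionVars false

namespace MP40506.CX

noncomputable section

variable {G : Type} [AddCommGroup G] {M : AddSubmonoid G}

/-- `ψ` factors through `f ▷ z` for some `z` -/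
def Fact {x y : KC (Fr G M)} (f : x ⟶ y) {c c' : TT G M} (ψ : c ⟶ c') : Prop :=
  ∃ (z : KC (Fr G M)) (a : c.obj ⟶ x ⊗ z) (b : y ⊗ z ⟶ c'.obj), ψ.hom = a ≫ f ▷ z ≫ b

lemma Fact.tensor {x y x' y' : KC (Fr G M)} {f : x ⟶ y} {f' : x' ⟶ y'} {c c' d d' : TT G M}
    {ψ : c ⟶ c'} {ψ' : d ⟶ d'} (h : Fact f ψ) (h' : Fact f' ψ') :
    Fact (f ⊗ₘ f') (ψ ⊗ₘ ψ') := by
  obtain ⟨z, a, b, hψ⟩ := h
  obtain ⟨z', a', b', hψ'⟩ := h'
  refine ⟨z ⊗ z', (a ⊗ₘ a') ≫ tensorμ x z x' z', tensorδ y z y' z' ≫ (b ⊗ₘ b'), ?_⟩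
  have h1 : (ψ ⊗ₘ ψ').hom = ψ.hom ⊗ₘ ψ'.hom := rfl
  rw [h1, hψ, hψ']
  have h2 : (f ▷ z ⊗ₘ f' ▷ z') = tensorμ x z x' z' ≫ (f ⊗ₘ f') ▷ (z ⊗ z') ≫
      tensorδ y z y' z' := by
    have h3 := tensorμ_natural f (𝟙 z) f' (𝟙 z')
    rw [id_tensorHom_id, tensorHom_id, tensorHom_id, tensorHom_id] at h3
    rw [← Category.assoc, ← h3, Category.assoc, tensorμ_tensorδ, Category.comp_id]
  rw [← tensorHom_comp_tensorHom, ← tensorHom_comp_tensorHom, h2]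
  simp only [Category.assoc]

lemma fact_id (c : TT G M) : Fact (𝟙 c.obj) (𝟙 c) := by
  refine ⟨𝟙_ _, (ρ_ _).inv, (ρ_ _).hom, ?_⟩
  rw [id_whiskerRight, Category.id_comp, Iso.inv_hom_id]
  rfl

lemma fact_self {c c' : TT G M} (ψ : c ⟶ c') : Fact ψ.hom ψ := by
  refine ⟨𝟙_ _, (ρ_ _).inv, (ρ_ _).hom, ?_⟩
  rw [rightUnitor_naturality, Iso.inv_hom_id_assoc]

/-- a killed morphism does not factor a morphism inverted by a prime -/
theorem kill_not_fact (P : Spc (TT G M)) (U : AddSubmonoid G)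
    (hU : ∀ (h : G) (hM : h ∈ M), h ∉ U → ¬ P.1 (tkz h hM))
    (hU' : ∀ (u : G) (hM : u ∈ M), u ∈ U →
      InvAt P (tmul (show u - 0 ∈ M by simpa using hM) : (tk u : TT G M) ⟶ tk 0))
    {x y : KC (Fr G M)} {f : x ⟶ y} (hK : Kill M U x y f) :
    ∀ (c c' : TT G M) (ψ : c ⟶ c'), InvAt P ψ → ¬ P.1 c' → Fact f ψ → False := by
  induction hK with
  | zero X Y =>
    intro c c' ψ hψ hc' hf
    obtain ⟨z, a, b, hψ'⟩ := hf
    apply hψ.ne_zero hc'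
    apply ObjectProperty.hom_ext
    show ψ.hom = 0
    rw [hψ', MonoidalPreadditive.zero_whiskerRight, zero_comp, comp_zero]
  | sq X Y f _ ih =>
    intro c c' ψ hψ hc' hf
    exact ih _ _ _ (hψ.tensorHom hψ) (fun h => (P.2.prime _ _ hψ.2.1 hψ.2.1 h).elim hc' hc')
      (hf.tensor hf)
  | kos X Y f h hM hU1 _ ih =>
    intro c c' ψ hψ hc' hf
    have h1 : Fact (f ▷ ⟨kz h hM⟩) (ψ ⊗ₘ 𝟙 (tkz h hM)) := by
      rw [← tensorHom_id]
      exact hf.tensor (fact_id _)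
    exact ih _ _ _ (hψ.tensorHom (InvAt.id (isCpt_tkz h hM)))
      (fun h2 => (P.2.prime _ _ hψ.2.1 (isCpt_tkz h hM) h2).elim hc' (hU h hM hU1)) h1
  | chi X Y f u hM hU1 _ ih =>
    intro c c' ψ hψ hc' hf
    have h1 : Fact (f ⊗ₘ χ u hM) (ψ ⊗ₘ (tmul (show u - 0 ∈ M by simpa using hM) :
        (tk u : TT G M) ⟶ tk 0)) := hf.tensor (fact_self _)
    refine ih _ _ _ (hψ.tensorHom (hU' u hM hU1)) (fun h2 =>
      (P.2.prime _ _ hψ.2.1 (isCpt_tk 0) h2).elim hc' ?_) h1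
    intro h3
    exact P.2.unit h3

end

end MP40506.CX
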