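import Pool.Agent.Work.MP_40506d_al.CX.Res

/-!
# The residue functors are braided
-/

open CategoryTheory CategoryTheory.Limits CategoryTheory.MonoidalCategory
  CategoryTheory.Pretriangulated

set_option linter.unusedSectionVars false

namespace MP40506.CX

section

universe v u v' u'

open Functor.LaxMonoidal Functor.OplaxMonoidal Functor.Monoidal

variable {A : Type u} [Category.{v} A] [Preadditive A] {B : Type u'} [Category.{v'} B]
  [Preadditive B] (F : A ⥤ B) [F.Additive] [Two A] [Two B]
  [MonoidalCategory A] [MonoidalPreadditive A] [MonoidalCategory B] [MonoidalPreadditive B]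
  [SymmetricCategory A] [SymmetricCategory B]

noncomputable instance [F.Braided] : (KC.mapF F).Braided where
  braided X Y := by
    refine congrArg KC.q ?_
    ext
    exact Functor.LaxBraided.braided (F := F) X.out.X Y.out.X

end

section

universe v u v' u'

open Functor.LaxMonoidal Functor.OplaxMonoidal Functor.Monoidal

variable {E : Type u} [Category.{v} E] [MonoidalCategory E] [BraidedCategory E]
  {D : Type u'} [Category.{v'} D]
  [MonoidalCategory D] [BraidedCategory D] (Q : ObjectProperty D) [Q.IsMonoidal] (F : E ⥤ D)
  [F.Braided] (hF : ∀ X, Q (F.obj X))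

/-- lifts of braided functors to full monoidal subcategories are braided -/
@[instance_reducible] noncomputable def liftBraided : (Q.lift F hF).Braided where
  toMonoidal := (liftCore Q F hF).toMonoidal
  braided X Y := by
    apply ObjectProperty.hom_ext
    exact Functor.LaxBraided.braided (F := F) X Y

end

noncomputable section

open Classical

variable {G : Type} [AddCommGroup G] {M : AddSubmonoid G} {U : AddSubmonoid G} (hU : IsFace M U)

instance : (res hU).Braided where
  braided X Y := by
    apply Fr.hom_ext
    have h3 : resLin U (β_ X Y).hom = (β_ X Y).hom.f := resLin_isoOfEquiv U _ _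
    show resLin U (β_ X Y).hom ∘ₗ LinearMap.id = LinearMap.id ∘ₗ
      (β_ ((res hU).obj X) ((res hU).obj Y)).hom.f
    rw [h3]
    rfl

instance : (tres hU).Braided := liftBraided _ _ (locP_kres hU)

end

end MP40506.CX
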