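import Pool.Agent.Work.MP_40506d_al.CX.WN
import Pool.Agent.Work.MP_40506d_al.CX.Compat2
import Pool.Agent.Work.MP_40506d_al.CX.ResBr

/-!
# From a nonzero object with empty support to the negation of Q1
-/

open CategoryTheory CategoryTheory.Limits CategoryTheory.MonoidalCategory
  CategoryTheory.Pretriangulated

set_option linter.unusedSectionVars false

universe v u u'

namespace MP40506

/-- a nonzero object with empty support does not satisfy the local-to-global principle -/
theorem not_ltgAt_of_supp_empty {T : Type u} [Category.{v} T] [HasZeroObject T] [HasShift T ℤ]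
    [Preadditive T] [∀ n : ℤ, (shiftFunctor T n).Additive] [Pretriangulated T]
    [IsTriangulated T] [MonoidalCategory T] [SymmetricCategory T] [MonoidalPreadditive T]
    [HasCoproducts.{v} T] [RCG T] {t : T} (ht : ¬ IsZero t) (hs : Supp t = ∅) : ¬ LTGAt t := by
  intro h
  have h1 := (ltgAt_iff t).1 h
  apply ht
  refine h1 _ isLocIdeal_isZero ?_
  rintro y ⟨P, g, hg, rfl⟩
  exact isZero_of_not_mem_Supp hg (by rw [hs]; exact fun h => h)

namespace CX

noncomputable section

instance : Subsingleton (Spc (TT PUnit (⊤ : AddSubmonoid PUnit))) :=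
  ⟨fun P Q => face_injective (by ext x; exact ⟨fun _ => (face Q).zero_mem, fun _ => (face P).zero_mem⟩)⟩

theorem weaklyNoetherian_S : WeaklyNoetherian (TT PUnit (⊤ : AddSubmonoid PUnit)) := by
  intro P
  refine ⟨supp (𝟙_ _), ∅, isThomason_supp isCpt_unit, ?_, ?_⟩
  · rw [isThomason_iff]; intro P hP; exact hP.elim
  · ext Q
    simp only [Set.mem_singleton_iff, Set.compl_empty, Set.inter_univ]
    exact ⟨fun _ => mem_supp_unit Q, fun _ => Subsingleton.elim _ _⟩

theorem ltg_S : LTG (TT PUnit (⊤ : AddSubmonoid PUnit)) := by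
  apply ltg_of_dualScattered
  intro C hC
  obtain ⟨p, hp⟩ := hC
  refine ⟨p, hp, supp (𝟙_ _), isThomason_supp isCpt_unit, ?_⟩
  ext Q
  simp only [Set.mem_inter_iff, Set.mem_singleton_iff]
  exact ⟨fun _ => Subsingleton.elim _ _, fun h => ⟨mem_supp_unit Q, h ▸ hp⟩⟩

/-- the statement Q1, for a pair of categories in the universe `Type 1` with morphisms in `Type` -/
def Q1 : Prop :=
  ∀ (T : Type 1) [Category.{0} T] [HasZeroObject T] [HasShift T ℤ] [Preadditive T]
    [∀ n : ℤ, (shiftFunctor T n).Additive] [Pretriangulated T] [IsTriangulated T]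
    [MonoidalCategory T] [SymmetricCategory T] [MonoidalPreadditive T] [HasCoproducts.{0} T]
    [RCG T]
    (S : Type 1) [Category.{0} S] [HasZeroObject S] [HasShift S ℤ] [Preadditive S]
    [∀ n : ℤ, (shiftFunctor S n).Additive] [Pretriangulated S] [IsTriangulated S]
    [MonoidalCategory S] [SymmetricCategory S] [MonoidalPreadditive S] [HasCoproducts.{0} S]
    [RCG S]
    (F : T ⥤ S) [F.Braided] [F.CommShift ℤ] [F.IsTriangulated]
    [∀ J : Type, PreservesColimitsOfShape (Discrete J) F],
    TTCompat T → TTCompat S →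
    (∀ Y : S, (∀ (X : T) (f : F.obj X ⟶ Y), f = 0) → IsZero Y) →
    WeaklyNoetherian T → WeaklyNoetherian S → LTG S →
    ∀ t : T, Supp t ⊆ Set.range (spcMap F) → LTGAt t

theorem not_Q1_of {G : Type} [AddCommGroup G] {M : AddSubmonoid G}
    (hWN : WeaklyNoetherian (TT G M)) (Z : TT G M) (hZ : ¬ IsZero Z) (hs : Supp Z = ∅) :
    ¬ Q1 := by
  intro H
  have h := H (TT G M) (TT PUnit (⊤ : AddSubmonoid PUnit)) (tres (isFace_self M))
    (ttCompat_TT _ _) (ttCompat_TT _ _) (conservative_tres _) hWN weaklyNoetherian_S ltg_S Z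
    (by rw [hs]; exact Set.empty_subset _)
  exact not_ltgAt_of_supp_empty hZ hs h

end

end CX

end MP40506
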