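import Pool.Agent.Work.MP_40506d_al.CX.Shift

/-!
# The symmetric monoidal structure on `DObj A` and `KC A`
-/

open CategoryTheory CategoryTheory.Limits CategoryTheory.MonoidalCategory

universe v u v' u'

set_option linter.unusedSectionVars false

namespace MP40506.CX

variable {A : Type u} [Category.{v} A] [Preadditive A] [Two A] [MonoidalCategory A]
  [MonoidalPreadditive A]

namespace DObj

/-- tensor product of differential objects -/
@[simps] def tensor (P Q : DObj A) : DObj A where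
  X := P.X ⊗ Q.X
  d := P.d ▷ Q.X + P.X ◁ Q.d
  dd := by
    have h1 : P.d ▷ Q.X ≫ P.d ▷ Q.X = 0 := by rw [← comp_whiskerRight, P.dd]; simp
    have h2 : P.X ◁ Q.d ≫ P.X ◁ Q.d = 0 := by rw [← MonoidalCategory.whiskerLeft_comp, Q.dd]; simp
    have h3 : P.X ◁ Q.d ≫ P.d ▷ Q.X = P.d ▷ Q.X ≫ P.X ◁ Q.d := whisker_exchange _ _
    simp only [Preadditive.add_comp, Preadditive.comp_add, h1, h2, h3, zero_add, add_zero]
    exact add_self _

variable (A) in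
/-- the unit -/
@[simps] def unit : DObj A where
  X := 𝟙_ A
  d := 0
  dd := by rw [comp_zero]

/-- isomorphisms of differential objects -/
@[simps] def mkIso {P Q : DObj A} (e : P.X ≅ Q.X) (h : P.d ≫ e.hom = e.hom ≫ Q.d) : P ≅ Q where
  hom := { f := e.hom, comm := h }
  inv := { f := e.inv, comm := by
            rw [← cancel_epi e.hom, ← reassoc_of% h]; simp }
  hom_inv_id := by ext; simp
  inv_hom_id := by ext; simp

lemma aux_left (X : A) (dX : X ⟶ X) {Y Z : A} {dY : Y ⟶ Y} {dZ : Z ⟶ Z} {f : Y ⟶ Z}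
    (h : dY ≫ f = f ≫ dZ) :
    (dX ▷ Y + X ◁ dY) ≫ X ◁ f = X ◁ f ≫ (dX ▷ Z + X ◁ dZ) := by
  simp only [Preadditive.add_comp, Preadditive.comp_add]
  rw [← MonoidalCategory.whiskerLeft_comp, h, MonoidalCategory.whiskerLeft_comp, whisker_exchange]

lemma aux_right (X : A) (dX : X ⟶ X) {Y Z : A} {dY : Y ⟶ Y} {dZ : Z ⟶ Z} {f : Y ⟶ Z}
    (h : dY ≫ f = f ≫ dZ) :
    (dY ▷ X + Y ◁ dX) ≫ f ▷ X = f ▷ X ≫ (dZ ▷ X + Z ◁ dX) := by
  simp only [Preadditive.add_comp, Preadditive.comp_add]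
  rw [← comp_whiskerRight, h, comp_whiskerRight, whisker_exchange]

lemma aux_assoc {X Y Z : A} (dX : X ⟶ X) (dY : Y ⟶ Y) (dZ : Z ⟶ Z) :
    ((dX ▷ Y + X ◁ dY) ▷ Z + (X ⊗ Y) ◁ dZ) ≫ (α_ X Y Z).hom =
      (α_ X Y Z).hom ≫ (dX ▷ (Y ⊗ Z) + X ◁ (dY ▷ Z + Y ◁ dZ)) := by
  simp [add_assoc]

instance : MonoidalCategoryStruct (DObj A) where
  tensorObj := tensor
  whiskerLeft P Q R φ := { f := P.X ◁ φ.f, comm := aux_left P.X P.d φ.comm }
  whiskerRight φ R := { f := φ.f ▷ R.X, comm := aux_right R.X R.d φ.comm }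
  tensorUnit := unit A
  associator P Q R := mkIso (α_ P.X Q.X R.X) (aux_assoc P.d Q.d R.d)
  leftUnitor P := mkIso (λ_ P.X) (by
    show ((0 : 𝟙_ A ⟶ 𝟙_ A) ▷ P.X + (𝟙_ A) ◁ P.d) ≫ (λ_ P.X).hom = (λ_ P.X).hom ≫ P.d
    simp)
  rightUnitor P := mkIso (ρ_ P.X) (by
    show (P.d ▷ (𝟙_ A) + P.X ◁ (0 : 𝟙_ A ⟶ 𝟙_ A)) ≫ (ρ_ P.X).hom = (ρ_ P.X).hom ≫ P.d
    simp)

lemma tensor_def (P Q : DObj A) : P ⊗ Q = tensor P Q := rfl
lemma tensorX (P Q : DObj A) : (P ⊗ Q).X = P.X ⊗ Q.X := rfl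
lemma tensord (P Q : DObj A) : (P ⊗ Q).d = P.d ▷ Q.X + P.X ◁ Q.d := rfl
lemma unitX : (𝟙_ (DObj A)).X = 𝟙_ A := rfl
lemma unitd : (𝟙_ (DObj A)).d = 0 := rfl
@[simp] lemma whiskerLeft_f (P : DObj A) {Q R : DObj A} (φ : Q ⟶ R) :
    (P ◁ φ).f = P.X ◁ φ.f := rfl
@[simp] lemma whiskerRight_f {Q R : DObj A} (φ : Q ⟶ R) (P : DObj A) :
    (φ ▷ P).f = φ.f ▷ P.X := rfl
@[simp] lemma associator_hom_f (P Q R : DObj A) :
    (α_ P Q R).hom.f = (α_ P.X Q.X R.X).hom := rfl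
@[simp] lemma associator_inv_f (P Q R : DObj A) :
    (α_ P Q R).inv.f = (α_ P.X Q.X R.X).inv := rfl
@[simp] lemma leftUnitor_hom_f (P : DObj A) : (λ_ P).hom.f = (λ_ P.X).hom := rfl
@[simp] lemma leftUnitor_inv_f (P : DObj A) : (λ_ P).inv.f = (λ_ P.X).inv := rfl
@[simp] lemma rightUnitor_hom_f (P : DObj A) : (ρ_ P).hom.f = (ρ_ P.X).hom := rfl
@[simp] lemma rightUnitor_inv_f (P : DObj A) : (ρ_ P).inv.f = (ρ_ P.X).inv := rfl
@[simp] lemma tensorHom_f {P P' Q Q' : DObj A} (φ : P ⟶ P') (ψ : Q ⟶ Q') :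
    (φ ⊗ₘ ψ).f = φ.f ▷ Q.X ≫ P'.X ◁ ψ.f := rfl

instance : MonoidalCategory (DObj A) where
  id_tensorHom_id P Q := by
    ext
    show (𝟙 P.X) ▷ Q.X ≫ P.X ◁ (𝟙 Q.X) = 𝟙 (P.X ⊗ Q.X)
    simp
  tensorHom_comp_tensorHom {P₁ Q₁ R₁ P₂ Q₂ R₂} f₁ f₂ g₁ g₂ := by
    ext
    show (f₁.f ▷ P₂.X ≫ Q₁.X ◁ f₂.f) ≫ (g₁.f ▷ Q₂.X ≫ R₁.X ◁ g₂.f) =
      (f₁.f ≫ g₁.f) ▷ P₂.X ≫ R₁.X ◁ (f₂.f ≫ g₂.f)
    simp only [comp_whiskerRight, MonoidalCategory.whiskerLeft_comp, Category.assoc]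
    rw [whisker_exchange_assoc]
  whiskerLeft_id P Q := by
    ext
    exact MonoidalCategory.whiskerLeft_id _ _
  id_whiskerRight P Q := by
    ext
    exact MonoidalCategory.id_whiskerRight _ _
  associator_naturality {P₁ P₂ P₃ Q₁ Q₂ Q₃} f₁ f₂ f₃ := by
    ext
    show ((f₁.f ▷ P₂.X ≫ Q₁.X ◁ f₂.f) ▷ P₃.X ≫ (Q₁.X ⊗ Q₂.X) ◁ f₃.f) ≫ (α_ Q₁.X Q₂.X Q₃.X).hom =
      (α_ P₁.X P₂.X P₃.X).hom ≫ (f₁.f ▷ (P₂.X ⊗ P₃.X) ≫ Q₁.X ◁ (f₂.f ▷ P₃.X ≫ Q₂.X ◁ f₃.f))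
    simp
  leftUnitor_naturality f := by
    ext
    exact MonoidalCategory.leftUnitor_naturality _
  rightUnitor_naturality f := by
    ext
    exact MonoidalCategory.rightUnitor_naturality _
  pentagon P Q R S := by
    ext
    exact MonoidalCategory.pentagon P.X Q.X R.X S.X
  triangle P Q := by
    ext
    exact MonoidalCategory.triangle P.X Q.X

instance : MonoidalPreadditive (DObj A) where
  whiskerLeft_zero {P Q R} := by
    ext
    exact MonoidalPreadditive.whiskerLeft_zero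
  zero_whiskerRight {P Q R} := by
    ext
    exact MonoidalPreadditive.zero_whiskerRight
  whiskerLeft_add {P Q R} f g := by
    ext
    exact MonoidalPreadditive.whiskerLeft_add _ _
  add_whiskerRight {P Q R} f g := by
    ext
    exact MonoidalPreadditive.add_whiskerRight _ _

variable [SymmetricCategory A]

instance : BraidedCategory (DObj A) where
  braiding P Q := mkIso (β_ P.X Q.X) (by
    show (P.d ▷ Q.X + P.X ◁ Q.d) ≫ (β_ P.X Q.X).hom =
      (β_ P.X Q.X).hom ≫ (Q.d ▷ P.X + Q.X ◁ P.d)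
    simp only [Preadditive.add_comp, Preadditive.comp_add, BraidedCategory.braiding_naturality_left,
      BraidedCategory.braiding_naturality_right]
    exact add_comm _ _)
  braiding_naturality_right P Q R f := by
    ext
    exact BraidedCategory.braiding_naturality_right _ _
  braiding_naturality_left f R := by
    ext
    exact BraidedCategory.braiding_naturality_left _ _
  hexagon_forward P Q R := by
    ext
    exact BraidedCategory.hexagon_forward P.X Q.X R.X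
  hexagon_reverse P Q R := by
    ext
    exact BraidedCategory.hexagon_reverse P.X Q.X R.X

@[simp] lemma braiding_hom_f (P Q : DObj A) : (β_ P Q).hom.f = (β_ P.X Q.X).hom := rfl
@[simp] lemma braiding_inv_f (P Q : DObj A) : (β_ P Q).inv.f = (β_ P.X Q.X).inv := rfl

instance : SymmetricCategory (DObj A) where
  symmetry P Q := by
    ext
    exact SymmetricCategory.symmetry P.X Q.X

end DObj

end MP40506.CX
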