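import Pool.Agent.Work.MP_40506d_al.CX.Res

/-!
# The nilpotence statement

Let `U` be a face of `M`. A morphism `f : w ⟶ 1`, `w` finite, which is killed by the residue
functor of `U`, becomes zero after finitely many operations `f ↦ f ⊗ f`, `f ↦ f ⊗ K_h`
(`h ∈ M`, `h ∉ U`), `f ↦ f ⊗ χ u` (`u ∈ U`).
-/

open CategoryTheory CategoryTheory.Limits CategoryTheory.MonoidalCategory
  CategoryTheory.Pretriangulated

set_option linter.unusedSectionVars false

namespace MP40506.CX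

noncomputable section

variable {G : Type} [AddCommGroup G] {M : AddSubmonoid G}

/-- the closure described above -/
inductive Kill (M U : AddSubmonoid G) : ∀ (X Y : KC (Fr G M)), (X ⟶ Y) → Prop
  | zero (X Y : KC (Fr G M)) : Kill M U X Y 0
  | sq (X Y : KC (Fr G M)) (f : X ⟶ Y) : Kill M U (X ⊗ X) (Y ⊗ Y) (f ⊗ₘ f) → Kill M U X Y f
  | kos (X Y : KC (Fr G M)) (f : X ⟶ Y) (h : G) (hM : h ∈ M) (hU : h ∉ U) :
      Kill M U (X ⊗ ⟨kz h hM⟩) (Y ⊗ ⟨kz h hM⟩) (f ▷ ⟨kz h hM⟩) → Kill M U X Y f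
  | chi (X Y : KC (Fr G M)) (f : X ⟶ Y) (u : G) (hM : u ∈ M) (hU : u ∈ U) :
      Kill M U (X ⊗ ⟨k1 u⟩) (Y ⊗ ⟨k1 0⟩) (f ⊗ₘ χ u hM) → Kill M U X Y f

namespace NilAux

/-- linear maps between based spaces -/
abbrev L (I J : Type) : Type := (I →₀ ZMod 2) →ₗ[ZMod 2] (J →₀ ZMod 2)

section lin

variable {I I' I'' J J' J'' : Type}

/-- tensor product of linear maps -/
def lt (φ : L I I') (ψ : L J J') : L (I × J) (I' × J') :=
  (finsuppTensorFinsupp' (ZMod 2) I' J').toLinearMap ∘ₗ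
    TensorProduct.map φ ψ ∘ₗ (finsuppTensorFinsupp' (ZMod 2) I J).symm.toLinearMap

lemma ent_lt (φ : L I I') (ψ : L J J') (p : I × J) (p' : I' × J') :
    Fr.ent (lt φ ψ) p p' = Fr.ent φ p.1 p'.1 * Fr.ent ψ p.2 p'.2 := by
  obtain ⟨i, j⟩ := p
  obtain ⟨i', j'⟩ := p'
  show (finsuppTensorFinsupp' (ZMod 2) I' J') (TensorProduct.map φ ψ
    ((finsuppTensorFinsupp' (ZMod 2) I J).symm (Finsupp.single (i, j) 1))) (i', j') = _
  rw [finsuppTensorFinsupp'_symm_single_eq_single_one_tmul, TensorProduct.map_tmul,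
    finsuppTensorFinsupp'_apply_apply]
  rfl

lemma lt_comp (φ : L I I') (φ' : L I' I'') (ψ : L J J') (ψ' : L J' J'') :
    lt φ' ψ' ∘ₗ lt φ ψ = lt (φ' ∘ₗ φ) (ψ' ∘ₗ ψ) := by
  unfold lt
  rw [TensorProduct.map_comp]
  refine LinearMap.ext fun v => ?_
  simp only [LinearMap.comp_apply, LinearEquiv.coe_coe, LinearEquiv.symm_apply_apply]

lemma lt_add_left (φ φ' : L I I') (ψ : L J J') : lt (φ + φ') ψ = lt φ ψ + lt φ' ψ := by
  unfold lt
  rw [TensorProduct.map_add_left, LinearMap.add_comp, LinearMap.comp_add]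

lemma lt_add_right (φ : L I I') (ψ ψ' : L J J') : lt φ (ψ + ψ') = lt φ ψ + lt φ ψ' := by
  unfold lt
  rw [TensorProduct.map_add_right, LinearMap.add_comp, LinearMap.comp_add]

lemma lt_zero_left (ψ : L J J') : lt (0 : L I I') ψ = 0 := by
  refine Fr.lin_ext fun p p' => ?_
  rw [ent_lt]
  show (0 : ZMod 2) * _ = 0
  rw [zero_mul]

lemma lt_zero_right (φ : L I I') : lt φ (0 : L J J') = 0 := by
  refine Fr.lin_ext fun p p' => ?_
  rw [ent_lt]
  show _ * (0 : ZMod 2) = 0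
  rw [mul_zero]

lemma L_add_self (φ : L I J) : φ + φ = 0 := by
  refine Fr.lin_ext fun i j => ?_
  show Fr.ent φ i j + Fr.ent φ i j = 0
  exact CharTwo.add_self_eq_zero _

/-- the wedge with the odd generator on the Koszul object -/
def th : L Bool Bool := Finsupp.linearCombination (ZMod 2) (fun b : Bool =>
    if b then 0 else Finsupp.single true (1 : ZMod 2))

/-- the differential of the Koszul object -/
def dk : L Bool Bool := Finsupp.linearCombination (ZMod 2) (fun b : Bool =>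
    if b then Finsupp.single false (1 : ZMod 2) else 0)

lemma th_dk : th ∘ₗ dk + dk ∘ₗ th = LinearMap.id := by
  refine Finsupp.lhom_ext' fun b => LinearMap.ext_ring ?_
  cases b <;> simp [th, dk]

lemma ent_th (b b' : Bool) (h : Fr.ent th b b' ≠ 0) : b = false ∧ b' = true := by
  cases b <;> cases b' <;> simp [Fr.ent, th] at h ⊢

/-- the boundary of the homotopy -/
def bdy (F a : L I I') (dx : L I I) (dy : L I' I') : L ((I × I) × Bool) ((I' × I') × Bool) :=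
  lt (lt F a) th ∘ₗ (lt (lt dx LinearMap.id + lt LinearMap.id dx) LinearMap.id +
    lt LinearMap.id dk) +
  (lt (lt dy LinearMap.id + lt LinearMap.id dy) LinearMap.id + lt LinearMap.id dk) ∘ₗ
    lt (lt F a) th

lemma main (F a : L I I') (dx : L I I) (dy : L I' I') (h : F ∘ₗ dx = dy ∘ₗ F) :
    lt (lt F F) (LinearMap.id : L Bool Bool) + bdy F a dx dy =
      lt (lt F (F + a)) LinearMap.id + lt (lt F (a ∘ₗ dx + dy ∘ₗ a)) th := by
  unfold bdy
  simp only [LinearMap.comp_add, LinearMap.add_comp, lt_comp, lt_add_left, lt_add_right,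
    LinearMap.id_comp, LinearMap.comp_id, h]
  have h1 : lt (lt F a) (th ∘ₗ dk) + lt (lt F a) (dk ∘ₗ th) = lt (lt F a) LinearMap.id := by
    rw [← lt_add_right, th_dk]
  have h2 := L_add_self (lt (lt (dy ∘ₗ F) a) th)
  rw [← h1]
  have e : ∀ A0 T1 T2 T3 T4 T5 : L ((I × I) × Bool) ((I' × I') × Bool), T1 + T1 = 0 →
      A0 + (T1 + T2 + T3 + (T1 + T4 + T5)) = A0 + (T3 + T5) + (T2 + T4) := by
    intro A0 T1 T2 T3 T4 T5 hT
    have : A0 + (T1 + T2 + T3 + (T1 + T4 + T5)) = (T1 + T1) + (A0 + (T3 + T5) + (T2 + T4)) := by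
      abel
    rw [this, hT, zero_add]
  exact e _ _ _ _ _ _ h2

end lin

/-- the null-homotopic chain map of a homotopy -/
def nul {A : Type*} [Category A] [Preadditive A] {P R : DObj A} (h : P.X ⟶ R.X) : P ⟶ R :=
  { f := P.d ≫ h + h ≫ R.d
    comm := by
      rw [Preadditive.comp_add, Preadditive.add_comp, ← Category.assoc, P.dd, zero_comp, zero_add,
        Category.assoc h, R.dd, comp_zero, add_zero, Category.assoc] }

lemma q_add_nul {A : Type*} [Category A] [Preadditive A] {P R : DObj A} (φ : P ⟶ R)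
    (h : P.X ⟶ R.X) : (KC.q (φ + nul h) : (⟨P⟩ : KC A) ⟶ ⟨R⟩) = KC.q φ := by
  rw [KC.q_eq_iff]
  refine ⟨h, ?_⟩
  rw [add_sub_cancel_left]
  rfl

section step

variable {U : AddSubmonoid G}

open Classical in
/-- the part of `F` divisible by `h` -/
def part (M : AddSubmonoid G) {X Y : Fr G M} (F : L X.I Y.I) (h : G) : L X.I Y.I :=
  Finsupp.linearCombination (ZMod 2) fun i =>
    (F (Finsupp.single i 1)).filter fun j => X.deg i - Y.deg j - h ∈ M

open Classical in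
lemma ent_part {X Y : Fr G M} (F : L X.I Y.I) (h : G) (i : X.I) (j : Y.I) :
    Fr.ent (part M F h) i j = if X.deg i - Y.deg j - h ∈ M then Fr.ent F i j else 0 := by
  unfold Fr.ent part
  rw [Finsupp.linearCombination_single, one_smul, Finsupp.filter_apply]

lemma part_ne {X Y : Fr G M} {F : L X.I Y.I} {h : G} {i : X.I} {j : Y.I}
    (hij : Fr.ent (part M F h) i j ≠ 0) : X.deg i - Y.deg j - h ∈ M ∧ Fr.ent F i j ≠ 0 := by
  classical
  rw [ent_part] at hij
  by_cases h1 : X.deg i - Y.deg j - h ∈ M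
  · rw [if_pos h1] at hij
    exact ⟨h1, hij⟩
  · rw [if_neg h1] at hij
    exact absurd rfl hij

lemma add_part_ne {X Y : Fr G M} {F : L X.I Y.I} {h : G} {i : X.I} {j : Y.I}
    (hij : Fr.ent (F + part M F h) i j ≠ 0) :
    ¬ (X.deg i - Y.deg j - h ∈ M) ∧ Fr.ent F i j ≠ 0 := by
  classical
  have e : Fr.ent (F + part M F h) i j = Fr.ent F i j + Fr.ent (part M F h) i j := rfl
  rw [e, ent_part] at hij
  by_cases h1 : X.deg i - Y.deg j - h ∈ M
  · rw [if_pos h1, CharTwo.add_self_eq_zero] at hij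
    exact absurd rfl hij
  · rw [if_neg h1, add_zero] at hij
    exact ⟨h1, hij⟩

variable {x y : DObj (Fr G M)} (f : x ⟶ y) (h : G) (hM : h ∈ M)

/-- the homotopy -/
def hty : ((x ⊗ x) ⊗ kz h hM : DObj (Fr G M)).X ⟶ ((y ⊗ y) ⊗ kz h hM : DObj (Fr G M)).X where
  f := lt (lt f.f.f (part M f.f.f h)) th
  gr := by
    rintro ⟨⟨i, j⟩, b⟩ ⟨⟨i', j'⟩, b'⟩ hne
    have h1 : Fr.ent (lt (lt f.f.f (part M f.f.f h)) th) ((i, j), b) ((i', j'), b') ≠ 0 := hne
    rw [ent_lt, ent_lt] at h1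
    have h2 := ent_th b b' (right_ne_zero_of_mul h1)
    have h3 := part_ne (right_ne_zero_of_mul (left_ne_zero_of_mul h1))
    have h4 : x.X.deg i - y.X.deg i' ∈ M := f.f.gr i i' (left_ne_zero_of_mul (left_ne_zero_of_mul h1))
    obtain ⟨rfl, rfl⟩ := h2
    show (x.X.deg i + x.X.deg j) + (if false = true then h else 0) -
      ((y.X.deg i' + y.X.deg j') + (if true = true then h else 0)) ∈ M
    rw [if_neg (by simp), if_pos rfl]
    have e : x.X.deg i + x.X.deg j + 0 - (y.X.deg i' + y.X.deg j' + h) =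
      (x.X.deg i - y.X.deg i') + (x.X.deg j - y.X.deg j' - h) := by abel
    rw [e]
    exact M.add_mem h4 h3.1

lemma hc : f.f.f ∘ₗ x.d.f = y.d.f ∘ₗ f.f.f := congrArg Fr.Hom.f f.comm

lemma main0 : (((f ⊗ₘ f) ▷ kz h hM : (x ⊗ x) ⊗ kz h hM ⟶ (y ⊗ y) ⊗ kz h hM).f).f =
      lt (lt f.f.f f.f.f) LinearMap.id := by
  have e : lt (LinearMap.id : L y.X.I y.X.I) f.f.f ∘ₗ lt f.f.f (LinearMap.id : L x.X.I x.X.I) =
    lt f.f.f f.f.f := by rw [lt_comp, LinearMap.id_comp, LinearMap.comp_id]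
  rw [← e]
  rfl

lemma dsrc (x : DObj (Fr G M)) : (((x ⊗ x) ⊗ kz h hM : DObj (Fr G M)).d).f =
    lt (lt x.d.f LinearMap.id + lt LinearMap.id x.d.f) LinearMap.id + lt LinearMap.id dk := rfl

lemma nul0 : ((nul (hty f h hM)).f).f = bdy f.f.f (part M f.f.f h) x.d.f y.d.f := by
  show (hty f h hM).f ∘ₗ (((x ⊗ x) ⊗ kz h hM : DObj (Fr G M)).d).f +
    (((y ⊗ y) ⊗ kz h hM : DObj (Fr G M)).d).f ∘ₗ (hty f h hM).f = _
  exact congrArg₂ (fun (z : L ((x.X.I × x.X.I) × Bool) ((x.X.I × x.X.I) × Bool))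
    (z' : L ((y.X.I × y.X.I) × Bool) ((y.X.I × y.X.I) × Bool)) =>
    lt (lt f.f.f (part M f.f.f h)) th ∘ₗ z + z' ∘ₗ lt (lt f.f.f (part M f.f.f h)) th)
    (dsrc h hM x) (dsrc h hM y)

lemma main' : (((f ⊗ₘ f) ▷ kz h hM + nul (hty f h hM)).f).f =
    lt (lt f.f.f (f.f.f + part M f.f.f h)) LinearMap.id +
      lt (lt f.f.f (part M f.f.f h ∘ₗ x.d.f + y.d.f ∘ₗ part M f.f.f h)) th := by
  refine Eq.trans ?_ (main f.f.f (part M f.f.f h) x.d.f y.d.f (hc f))
  show (((f ⊗ₘ f) ▷ kz h hM : (x ⊗ x) ⊗ kz h hM ⟶ (y ⊗ y) ⊗ kz h hM).f).f +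
    ((nul (hty f h hM)).f).f = _
  exact congrArg₂ (fun z z' : L ((x.X.I × x.X.I) × Bool) ((y.X.I × y.X.I) × Bool) => z + z')
    (main0 f h hM) (nul0 f h hM)

/-- degrees of the entries of `A dx + dy A` -/
lemma ent_bd (A : L x.X.I y.X.I) (Q : G → Prop) (hQ : ∀ g, Q g → ∀ m ∈ M, Q (g + m))
    (hA : ∀ j j', Fr.ent A j j' ≠ 0 → Q (x.X.deg j - y.X.deg j')) (j : x.X.I) (j' : y.X.I)
    (h1 : Fr.ent (A ∘ₗ x.d.f + y.d.f ∘ₗ A) j j' ≠ 0) : Q (x.X.deg j - y.X.deg j') := by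
  have hs : Fr.ent (A ∘ₗ x.d.f) j j' ≠ 0 ∨ Fr.ent (y.d.f ∘ₗ A) j j' ≠ 0 := by
    by_contra hcon
    rw [not_or, not_not, not_not] at hcon
    refine h1 ?_
    show Fr.ent (A ∘ₗ x.d.f) j j' + Fr.ent (y.d.f ∘ₗ A) j j' = 0
    rw [hcon.1, hcon.2, add_zero]
  rcases hs with h2 | h2
  · obtain ⟨k, h3, h4⟩ := Fr.exists_of_ent_comp h2
    have h5 : x.X.deg j - x.X.deg k ∈ M := x.d.gr j k h3
    have h6 := hQ _ (hA k j' h4) _ h5
    have e : x.X.deg k - y.X.deg j' + (x.X.deg j - x.X.deg k) = x.X.deg j - y.X.deg j' := by abel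
    rwa [e] at h6
  · obtain ⟨k, h3, h4⟩ := Fr.exists_of_ent_comp h2
    have h5 : y.X.deg k - y.X.deg j' ∈ M := y.d.gr k j' h4
    have h6 := hQ _ (hA j k h3) _ h5
    have e : x.X.deg j - y.X.deg k + (y.X.deg k - y.X.deg j') = x.X.deg j - y.X.deg j' := by abel
    rwa [e] at h6

lemma bd_eq (a : L x.X.I y.X.I) : (f.f.f + a) ∘ₗ x.d.f + y.d.f ∘ₗ (f.f.f + a) =
    a ∘ₗ x.d.f + y.d.f ∘ₗ a := by
  rw [LinearMap.add_comp, LinearMap.comp_add, hc f]
  have e : ∀ A B C : L x.X.I y.X.I, A + A = 0 → A + B + (A + C) = B + C := by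
    intro A B C hA
    have : A + B + (A + C) = (A + A) + (B + C) := by abel
    rw [this, hA, zero_add]
  exact e _ _ _ (L_add_self _)

/-- the one step, explicit indices -/
lemma step_ent' {s : Finset G} (hf : ∀ i j, Fr.ent f.f.f i j ≠ 0 →
      ∃ l, (l = h ∨ l ∈ s) ∧ x.X.deg i - y.X.deg j - l ∈ M) (i j : x.X.I) (b : Bool)
    (i' j' : y.X.I) (b' : Bool)
    (hne : Fr.ent (lt (lt f.f.f (f.f.f + part M f.f.f h)) LinearMap.id +
      lt (lt f.f.f (part M f.f.f h ∘ₗ x.d.f + y.d.f ∘ₗ part M f.f.f h)) th)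
      ((i, j), b) ((i', j'), b') ≠ 0) :
    ∃ l ∈ s, (x.X.deg i + x.X.deg j) + (if b = true then h else 0) -
      ((y.X.deg i' + y.X.deg j') + (if b' = true then h else 0)) - l ∈ M := by
  have hβ : ∀ j j', Fr.ent (f.f.f + part M f.f.f h) j j' ≠ 0 →
      ∃ l ∈ s, x.X.deg j - y.X.deg j' - l ∈ M := by
    intro j j' h1
    have h2 := add_part_ne h1
    obtain ⟨l, hl | hl, hl'⟩ := hf j j' h2.2
    · rw [hl] at hl'
      exact absurd hl' h2.1
    · exact ⟨l, hl, hl'⟩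
  have hfd : ∀ i i', Fr.ent f.f.f i i' ≠ 0 → x.X.deg i - y.X.deg i' ∈ M := fun i i' h1 =>
    f.f.gr i i' h1
  have hsplit : Fr.ent (lt (lt f.f.f (f.f.f + part M f.f.f h)) (LinearMap.id : L Bool Bool))
      ((i, j), b) ((i', j'), b') ≠ 0 ∨
      Fr.ent (lt (lt f.f.f (part M f.f.f h ∘ₗ x.d.f + y.d.f ∘ₗ part M f.f.f h)) th)
      ((i, j), b) ((i', j'), b') ≠ 0 := by
    by_contra hcon
    rw [not_or, not_not, not_not] at hcon
    refine hne ?_
    have e : ∀ A B : L ((x.X.I × x.X.I) × Bool) ((y.X.I × y.X.I) × Bool),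
        Fr.ent A ((i, j), b) ((i', j'), b') = 0 → Fr.ent B ((i, j), b) ((i', j'), b') = 0 →
        Fr.ent (A + B) ((i, j), b) ((i', j'), b') = 0 := by
      intro A B hA hB
      show Fr.ent A _ _ + Fr.ent B _ _ = 0
      rw [hA, hB, add_zero]
    exact e _ _ hcon.1 hcon.2
  rcases hsplit with h1 | h1
  · rw [ent_lt, ent_lt] at h1
    have h2 : b = b' := by
      by_contra hb
      refine right_ne_zero_of_mul h1 ?_
      show (Finsupp.single b (1 : ZMod 2)) b' = 0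
      rw [Finsupp.single_apply, if_neg hb]
    subst h2
    obtain ⟨l, hl, hl'⟩ := hβ j j' (right_ne_zero_of_mul (left_ne_zero_of_mul h1))
    have h3 := hfd i i' (left_ne_zero_of_mul (left_ne_zero_of_mul h1))
    refine ⟨l, hl, ?_⟩
    have e : x.X.deg i + x.X.deg j + (if b = true then h else 0) -
        (y.X.deg i' + y.X.deg j' + (if b = true then h else 0)) - l =
      (x.X.deg i - y.X.deg i') + (x.X.deg j - y.X.deg j' - l) := by abel
    rw [e]
    exact M.add_mem h3 hl'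
  · rw [ent_lt, ent_lt] at h1
    have h2 := ent_th b b' (right_ne_zero_of_mul h1)
    have h4 := right_ne_zero_of_mul (left_ne_zero_of_mul h1)
    have h5 := left_ne_zero_of_mul (left_ne_zero_of_mul h1)
    obtain ⟨rfl, rfl⟩ := h2
    rw [if_neg (by simp), if_pos rfl]
    have hp : x.X.deg j - y.X.deg j' - h ∈ M := by
      refine ent_bd (part M f.f.f h) (fun g => g - h ∈ M) ?_ (fun j j' h => (part_ne h).1) j j' h4
      intro g hg m hm
      have e : g + m - h = (g - h) + m := by abel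
      rw [e]
      exact M.add_mem hg hm
    have hq : ∃ l ∈ s, x.X.deg j - y.X.deg j' - l ∈ M := by
      refine ent_bd (f.f.f + part M f.f.f h) (fun g => ∃ l ∈ s, g - l ∈ M) ?_ hβ j j' ?_
      · rintro g ⟨l, hl, hg⟩ m hm
        refine ⟨l, hl, ?_⟩
        have e : g + m - l = (g - l) + m := by abel
        rw [e]
        exact M.add_mem hg hm
      · rw [bd_eq]
        exact h4
    obtain ⟨l, hl | hl, hl'⟩ := hf i i' h5
    · subst hl
      obtain ⟨l', hl1, hl2⟩ := hq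
      refine ⟨l', hl1, ?_⟩
      have e : x.X.deg i + x.X.deg j + 0 - (y.X.deg i' + y.X.deg j' + l) - l' =
        (x.X.deg i - y.X.deg i' - l) + (x.X.deg j - y.X.deg j' - l') := by abel
      rw [e]
      exact M.add_mem hl' hl2
    · refine ⟨l, hl, ?_⟩
      have e : x.X.deg i + x.X.deg j + 0 - (y.X.deg i' + y.X.deg j' + h) - l =
        (x.X.deg i - y.X.deg i' - l) + (x.X.deg j - y.X.deg j' - h) := by abel
      rw [e]
      exact M.add_mem hl' hp

/-- the one step -/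
lemma step_ent {s : Finset G} (hf : ∀ i j, Fr.ent f.f.f i j ≠ 0 →
      ∃ l, (l = h ∨ l ∈ s) ∧ x.X.deg i - y.X.deg j - l ∈ M)
    (p : ((x ⊗ x) ⊗ kz h hM : DObj (Fr G M)).X.I) (p' : ((y ⊗ y) ⊗ kz h hM : DObj (Fr G M)).X.I)
    (hne : Fr.ent (((f ⊗ₘ f) ▷ kz h hM + nul (hty f h hM)).f).f p p' ≠ 0) :
    ∃ l ∈ s, ((x ⊗ x) ⊗ kz h hM : DObj (Fr G M)).X.deg p -
      ((y ⊗ y) ⊗ kz h hM : DObj (Fr G M)).X.deg p' - l ∈ M :=
  step_ent' f h hf p.1.1 p.1.2 p.2 p'.1.1 p'.1.2 p'.2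
    (fun e => hne ((congrArg (fun z : L ((x.X.I × x.X.I) × Bool) ((y.X.I × y.X.I) × Bool) =>
      Fr.ent z p p') (main' f h hM)).trans e))

end step

section resid

variable {U : AddSubmonoid G}

/-- the group generated by `U` -/
def Pg (U : AddSubmonoid G) (g : G) : Prop := ∃ a ∈ U, ∃ b ∈ U, g = a - b

lemma Pg.of_mem {g : G} (h : g ∈ U) : Pg U g := ⟨g, h, 0, U.zero_mem, (sub_zero g).symm⟩

lemma Pg.sub {g g' : G} (h : Pg U g) (h' : Pg U g') : Pg U (g - g') := by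
  obtain ⟨a, ha, b, hb, rfl⟩ := h
  obtain ⟨a', ha', b', hb', rfl⟩ := h'
  exact ⟨a + b', U.add_mem ha hb', b + a', U.add_mem hb ha', by abel⟩

lemma Pg.mem (hU : IsFace M U) {g : G} (h : Pg U g) (hg : g ∈ M) : g ∈ U := by
  obtain ⟨a, ha, b, hb, rfl⟩ := h
  exact (hU.face _ hg b (hU.le hb) (by simpa using ha)).1

lemma exists_u {I : Type} (deg : I → G) (t : Finset I) :
    ∃ u ∈ U, ∀ i ∈ t, Pg U (deg i) → deg i + u ∈ U := by
  classical
  induction t using Finset.induction_on with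
  | empty => exact ⟨0, U.zero_mem, fun i hi => absurd hi (Finset.notMem_empty i)⟩
  | insert j t _ ih =>
    obtain ⟨u, hu, h⟩ := ih
    by_cases hj : Pg U (deg j)
    · obtain ⟨a, ha, b, hb, hab⟩ := hj
      refine ⟨u + b, U.add_mem hu hb, fun i hi hPi => ?_⟩
      rcases Finset.mem_insert.1 hi with rfl | hi
      · rw [hab]
        have e : a - b + (u + b) = a + u := by abel
        rw [e]
        exact U.add_mem ha hu
      · rw [← add_assoc]
        exact U.add_mem (h i hi hPi) hb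
    · refine ⟨u, hu, fun i hi hPi => ?_⟩
      rcases Finset.mem_insert.1 hi with rfl | hi
      · exact absurd hPi hj
      · exact h i hi hPi

open Classical in
/-- projection to the degrees in the group generated by `U` -/
def pr (U : AddSubmonoid G) (X : Fr G M) : L X.I X.I where
  toFun := Finsupp.filter (fun i => Pg U (X.deg i))
  map_add' _ _ := Finsupp.filter_add
  map_smul' _ _ := Finsupp.filter_smul

lemma pr_single (X : Fr G M) {i : X.I} (h : Pg U (X.deg i)) :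
    pr U X (Finsupp.single i 1) = Finsupp.single i 1 := by
  classical
  show Finsupp.filter _ _ = _
  exact Finsupp.filter_single_of_pos _ h

lemma pr_single' (X : Fr G M) {i : X.I} (h : ¬ Pg U (X.deg i)) :
    pr U X (Finsupp.single i 1) = 0 := by
  classical
  show Finsupp.filter _ _ = _
  exact Finsupp.filter_single_of_neg _ h

lemma pr_d (hU : IsFace M U) {X : Fr G M} (d : X ⟶ X) {i : X.I} (h : Pg U (X.deg i)) :
    pr U X (d.f (Finsupp.single i 1)) = resLin U d (Finsupp.single i 1) := by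
  classical
  ext j
  have h1 : resLin U d (Finsupp.single i 1) j = Fr.ent (resLin U d) i j := rfl
  rw [h1, ent_resLin]
  show Finsupp.filter _ _ j = _
  rw [Finsupp.filter_apply]
  by_cases h2 : d.f (Finsupp.single i 1) j = 0
  · have h3 : Fr.ent d.f i j = 0 := h2
    rw [h2, h3, ite_self, ite_self]
  · have h3 := d.gr i j h2
    by_cases h4 : Pg U (X.deg j)
    · rw [if_pos h4, if_pos ((h.sub h4).mem hU h3)]
      rfl
    · rw [if_neg h4, if_neg]
      intro h5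
      refine h4 ?_
      have e : X.deg j = X.deg i - (X.deg i - X.deg j) := by abel
      rw [e]
      exact h.sub (Pg.of_mem h5)

variable {w : DObj (Fr G M)} (φ : w ⟶ 𝟙_ (DObj (Fr G M))) (k : L w.X.I Unit) {u : G}
  (hu : ∀ i : w.X.I, Pg U (w.X.deg i) → w.X.deg i + u ∈ M) (huM : u ∈ M)

/-- the linear map of `φ` -/
def fl : L w.X.I Unit := φ.f.f

/-- the homotopy -/
def hty' : (w ⊗ k1 u : DObj (Fr G M)).X ⟶ (𝟙_ (DObj (Fr G M)) ⊗ k1 0 : DObj (Fr G M)).X where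
  f := lt (k ∘ₗ pr U w.X) (LinearMap.id : L Unit Unit)
  gr := by
    rintro ⟨i, a⟩ ⟨b, c⟩ hne
    have h1 : Fr.ent (lt (k ∘ₗ pr U w.X) (LinearMap.id : L Unit Unit)) (i, a) (b, c) ≠ 0 := hne
    rw [ent_lt] at h1
    have h2 : Pg U (w.X.deg i) := by
      by_contra h3
      refine left_ne_zero_of_mul h1 ?_
      show k (pr U w.X (Finsupp.single i 1)) b = 0
      rw [pr_single' w.X h3, map_zero]
      rfl
    show (w.X.deg i + u) - ((0 : G) + 0) ∈ M
    rw [add_zero, sub_zero]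
    exact hu i h2

lemma main0' : ((φ ⊗ₘ dmul (g := u) (g' := 0) (by simpa using huM) :
    w ⊗ k1 u ⟶ 𝟙_ (DObj (Fr G M)) ⊗ k1 0).f).f = lt (fl φ) (LinearMap.id : L Unit Unit) := by
  have e : ∀ F : L w.X.I Unit, lt (LinearMap.id : L Unit Unit) (LinearMap.id : L Unit Unit) ∘ₗ
      lt F (LinearMap.id : L Unit Unit) = lt F LinearMap.id := by
    intro F
    rw [lt_comp, LinearMap.id_comp, LinearMap.comp_id]
  exact Eq.trans rfl (e (fl φ))

lemma dsrc' : ((w ⊗ k1 u : DObj (Fr G M)).d).f =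
    lt w.d.f (LinearMap.id : L Unit Unit) + lt (LinearMap.id : L w.X.I w.X.I) (0 : L Unit Unit) :=
  rfl

lemma dtgt' : ((𝟙_ (DObj (Fr G M)) ⊗ k1 0 : DObj (Fr G M)).d).f =
    lt (0 : L Unit Unit) (LinearMap.id : L Unit Unit) + lt (LinearMap.id : L Unit Unit)
      (0 : L Unit Unit) := rfl

lemma nul0' : ((nul (hty' k hu)).f).f =
    lt ((k ∘ₗ pr U w.X) ∘ₗ w.d.f) (LinearMap.id : L Unit Unit) := by
  have e : lt (k ∘ₗ pr U w.X) (LinearMap.id : L Unit Unit) ∘ₗ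
      (lt w.d.f (LinearMap.id : L Unit Unit) + lt (LinearMap.id : L w.X.I w.X.I) (0 : L Unit Unit)) +
      (lt (0 : L Unit Unit) (LinearMap.id : L Unit Unit) + lt (LinearMap.id : L Unit Unit)
      (0 : L Unit Unit)) ∘ₗ lt (k ∘ₗ pr U w.X) (LinearMap.id : L Unit Unit) =
      lt ((k ∘ₗ pr U w.X) ∘ₗ w.d.f) (LinearMap.id : L Unit Unit) := by
    rw [lt_zero_left, lt_zero_right, lt_zero_right, add_zero, add_zero, LinearMap.zero_comp, add_zero,
      lt_comp, LinearMap.comp_id]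
  refine Eq.trans ?_ e
  show (hty' k hu).f ∘ₗ ((w ⊗ k1 u : DObj (Fr G M)).d).f +
    ((𝟙_ (DObj (Fr G M)) ⊗ k1 0 : DObj (Fr G M)).d).f ∘ₗ (hty' k hu).f = _
  exact congrArg₂ (fun (z : L (w.X.I × Unit) (w.X.I × Unit)) (z' : L (Unit × Unit) (Unit × Unit)) =>
    lt (k ∘ₗ pr U w.X) (LinearMap.id : L Unit Unit) ∘ₗ z + z' ∘ₗ
      lt (k ∘ₗ pr U w.X) (LinearMap.id : L Unit Unit)) (dsrc' (w := w) (u := u)) (dtgt' (M := M))

lemma main1' : ((φ ⊗ₘ dmul (g := u) (g' := 0) (by simpa using huM) + nul (hty' k hu) :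
    w ⊗ k1 u ⟶ 𝟙_ (DObj (Fr G M)) ⊗ k1 0).f).f =
    lt (fl φ + (k ∘ₗ pr U w.X) ∘ₗ w.d.f) (LinearMap.id : L Unit Unit) := by
  rw [lt_add_left]
  exact congrArg₂ (fun z z' : L (w.X.I × Unit) (Unit × Unit) => z + z') (main0' φ huM)
    (nul0' k hu)

/-- the entries in degrees of the group generated by `U` vanish -/
lemma ent_zero (hU : IsFace M U) (hk : resLin U φ.f = k ∘ₗ resLin U w.d) {i : w.X.I}
    (hi : Pg U (w.X.deg i)) (b : Unit) :
    Fr.ent (fl φ + (k ∘ₗ pr U w.X) ∘ₗ w.d.f) i b = 0 := by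
  classical
  have h1 : Fr.ent ((k ∘ₗ pr U w.X) ∘ₗ w.d.f) i b = Fr.ent (resLin U φ.f) i b := by
    rw [hk]
    show k (pr U w.X (w.d.f (Finsupp.single i 1))) b = k (resLin U w.d (Finsupp.single i 1)) b
    rw [pr_d hU w.d hi]
  have h2 : Fr.ent (resLin U φ.f) i b = Fr.ent (fl φ) i b := by
    show _ = Fr.ent φ.f.f i b
    rw [ent_resLin]
    by_cases h3 : Fr.ent φ.f.f i b = 0
    · rw [h3, ite_self]
    · have h4 : w.X.deg i - (0 : G) ∈ M := φ.f.gr i b h3
      have h5 : w.X.deg i - (0 : G) ∈ U := by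
        rw [sub_zero] at h4 ⊢
        exact hi.mem hU h4
      exact if_pos h5
  show Fr.ent (fl φ) i b + Fr.ent ((k ∘ₗ pr U w.X) ∘ₗ w.d.f) i b = 0
  rw [h1, h2, CharTwo.add_self_eq_zero]

lemma res_aux (z : L Unit Unit) (hz : z = 0)
    (h : (resLin U φ.f : L w.X.I Unit) = LinearMap.comp k (resLin U w.d) + LinearMap.comp z k) :
    resLin U φ.f = k ∘ₗ resLin U w.d := by
  rw [hz, LinearMap.zero_comp, add_zero] at h
  exact h

end resid

end NilAux

open NilAux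

/-- a chain map between finite objects all of whose entries `(i, j)` have degree
`deg i - deg j ∈ h + M` for some `h` in the finite set `s ⊆ M \ U` is killed -/
theorem kill_of_entries {U : AddSubmonoid G} (hU : IsFace M U) (s : Finset G)
    (hs : ∀ h ∈ s, h ∈ M ∧ h ∉ U) {x y : DObj (Fr G M)} (f : x ⟶ y)
    (hf : ∀ i j, Fr.ent f.f.f i j ≠ 0 → ∃ h ∈ s, x.X.deg i - y.X.deg j - h ∈ M) :
    Kill M U ⟨x⟩ ⟨y⟩ (KC.q f) := by
  classical
  induction s using Finset.induction_on generalizing x y with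
  | empty =>
    have h0 : f = 0 := by
      refine DObj.hom_ext (Fr.hom_ext' fun i j => ?_)
      by_contra hne
      obtain ⟨h, hh, _⟩ := hf i j hne
      exact absurd hh (Finset.notMem_empty h)
    rw [h0]
    exact Kill.zero _ _
  | insert h s _ ih =>
    have hh := hs h (Finset.mem_insert_self h s)
    refine Kill.sq _ _ _ ?_
    rw [KC.tensorHom_q]
    refine Kill.kos _ _ _ h hh.1 hh.2 ?_
    rw [KC.whiskerRight_q]
    have e := q_add_nul ((f ⊗ₘ f) ▷ kz h hh.1) (hty f h hh.1)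
    have k := ih (fun l hl => hs l (Finset.mem_insert_of_mem hl))
      ((f ⊗ₘ f) ▷ kz h hh.1 + nul (hty f h hh.1)) (step_ent f h hh.1 fun i j hij => by
        obtain ⟨l, hl, hl'⟩ := hf i j hij
        exact ⟨l, Finset.mem_insert.1 hl, hl'⟩)
    rw [e] at k
    exact k

/-- the nilpotence statement -/
theorem kill_of_res {U : AddSubmonoid G} (hU : IsFace M U) {w : DObj (Fr G M)}
    (hw : Finite w.X.I) (f : (⟨w⟩ : KC (Fr G M)) ⟶ 𝟙_ (KC (Fr G M)))
    (hf : (kres hU).map f = 0) : Kill M U ⟨w⟩ (𝟙_ (KC (Fr G M))) f := by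
  classical
  obtain ⟨φ, rfl⟩ := KC.exists_q f
  obtain ⟨k, hk'⟩ : ∃ k : L w.X.I Unit, resLin U φ.f = k ∘ₗ resLin U w.d := by
    obtain ⟨k, hk⟩ := (KC.q_eq_zero_iff _).1 ((KC.mapF_q (res hU) φ).symm.trans hf)
    exact ⟨k.f, res_aux φ k.f (resLin U (0 : (𝟙_ (DObj (Fr G M))).X ⟶ (𝟙_ (DObj (Fr G M))).X))
      (Fr.lin_ext fun i j => (ent_resLin U _ i j).trans (ite_self _)) (congrArg Fr.Hom.f hk)⟩
  have := Fintype.ofFinite w.X.I
  obtain ⟨u, huU, hu⟩ := exists_u (U := U) w.X.deg Finset.univ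
  have huM : u ∈ M := hU.le huU
  have hu' : ∀ i : w.X.I, Pg U (w.X.deg i) → w.X.deg i + u ∈ M :=
    fun i hi => hU.le (hu i (Finset.mem_univ i) hi)
  refine Kill.chi _ _ _ u huM huU ?_
  unfold χ
  rw [KC.tensorHom_q]
  have e := q_add_nul (φ ⊗ₘ dmul (g := u) (g' := 0) (by simpa using huM)) (hty' k hu')
  have key := kill_of_entries hU ((Finset.univ.image (fun i : w.X.I => w.X.deg i + u)).filter
    (fun g => g ∈ M ∧ g ∉ U)) (fun g hg => (Finset.mem_filter.1 hg).2)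
    (φ ⊗ₘ dmul (g := u) (g' := 0) (by simpa using huM) + nul (hty' k hu')) ?_
  · rw [e] at key
    exact key
  · intro p p' hne
    have h1 : Fr.ent (lt (fl φ + (k ∘ₗ pr U w.X) ∘ₗ w.d.f)
        (LinearMap.id : L Unit Unit)) p p' ≠ 0 :=
      fun e' => hne ((congrArg (fun z : L (w.X.I × Unit) (Unit × Unit) => Fr.ent z p p')
        (main1' φ k hu' huM)).trans e')
    have h2 : w.X.deg p.1 + u - ((0 : G) + 0) ∈ M := (φ ⊗ₘ dmul (g := u) (g' := 0)
      (by simpa using huM) + nul (hty' k hu')).f.gr p p' hne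
    rw [add_zero, sub_zero] at h2
    rw [ent_lt] at h1
    have h3 : ¬ Pg U (w.X.deg p.1) := fun h4 =>
      left_ne_zero_of_mul h1 (ent_zero φ k hU hk' h4 p'.1)
    have h4 : w.X.deg p.1 + u ∉ U := by
      intro h5
      refine h3 ?_
      have e' : w.X.deg p.1 = (w.X.deg p.1 + u) - u := by abel
      rw [e']
      exact (Pg.of_mem h5).sub (Pg.of_mem huU)
    refine ⟨w.X.deg p.1 + u, Finset.mem_filter.2 ⟨Finset.mem_image.2
      ⟨p.1, Finset.mem_univ _, rfl⟩, h2, h4⟩, ?_⟩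
    show (w.X.deg p.1 + u) - ((0 : G) + 0) - (w.X.deg p.1 + u) ∈ M
    have e' : (w.X.deg p.1 + u) - ((0 : G) + 0) - (w.X.deg p.1 + u) = 0 := by abel
    rw [e']
    exact M.zero_mem

end

end MP40506.CX
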