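import Pool.Agent.Work.MP_40506d_al.CX.Coprod
import Pool.Agent.Work.MP_40506d_al.CX.Brown

/-!
# Cohomology of differential objects with values in a contravariant additive functor with
differential
-/

open CategoryTheory CategoryTheory.Limits CategoryTheory.MonoidalCategory
  CategoryTheory.Pretriangulated

universe v u

set_option linter.unusedSectionVars false

namespace MP40506.CX

/-- A contravariant additive functor with values in groups of exponent two with a differential. -/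
structure PF (A : Type u) [Category.{v} A] [Preadditive A] where
  /-- the values -/
  obj : A → Type v
  [grp : ∀ X, AddCommGroup (obj X)]
  /-- the restriction maps -/
  map : ∀ {X Y : A}, (X ⟶ Y) → obj Y →+ obj X
  map_id : ∀ (X : A) (x : obj X), map (𝟙 X) x = x
  map_comp : ∀ {X Y Z : A} (f : X ⟶ Y) (g : Y ⟶ Z) (z : obj Z), map (f ≫ g) z = map f (map g z)
  map_add : ∀ {X Y : A} (f g : X ⟶ Y) (y : obj Y), map (f + g) y = map f y + map g y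
  /-- the differential -/
  nu : ∀ X : A, obj X →+ obj X
  nu_nu : ∀ (X : A) (x : obj X), nu X (nu X x) = 0
  nu_map : ∀ {X Y : A} (f : X ⟶ Y) (y : obj Y), nu X (map f y) = map f (nu Y y)
  two : ∀ (X : A) (x : obj X), x + x = 0

attribute [instance] PF.grp

namespace PF

variable {A : Type u} [Category.{v} A] [Preadditive A] (Φ : PF A)

lemma map_zero_hom {X Y : A} (y : Φ.obj Y) : Φ.map (0 : X ⟶ Y) y = 0 := by
  have h := Φ.map_add (0 : X ⟶ Y) 0 y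
  rw [add_zero] at h
  exact left_eq_add.mp h

/-- the total differential -/
def D (X : DObj A) : Φ.obj X.X →+ Φ.obj X.X := Φ.nu X.X + Φ.map X.d

lemma D_apply (X : DObj A) (x : Φ.obj X.X) : Φ.D X x = Φ.nu X.X x + Φ.map X.d x := rfl

lemma D_D (X : DObj A) (x : Φ.obj X.X) : Φ.D X (Φ.D X x) = 0 := by
  rw [D_apply, D_apply, _root_.map_add, _root_.map_add, Φ.nu_nu, Φ.nu_map, ← Φ.map_comp, X.dd,
    map_zero_hom, zero_add, add_zero, Φ.two]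

lemma D_map {X Y : DObj A} (f : X ⟶ Y) (y : Φ.obj Y.X) :
    Φ.D X (Φ.map f.f y) = Φ.map f.f (Φ.D Y y) := by
  rw [D_apply, D_apply, _root_.map_add, Φ.nu_map, ← Φ.map_comp, f.comm, Φ.map_comp]

/-- the cocycles -/
def Zc (X : DObj A) : AddSubgroup (Φ.obj X.X) := (Φ.D X).ker

/-- the coboundaries -/
def Bc (X : DObj A) : AddSubgroup (Φ.Zc X) := (Φ.D X).range.comap (Φ.Zc X).subtype

lemma mem_Zc {X : DObj A} (x : Φ.obj X.X) : x ∈ Φ.Zc X ↔ Φ.D X x = 0 := Iff.rfl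

lemma mem_Bc {X : DObj A} (x : Φ.Zc X) : x ∈ Φ.Bc X ↔ ∃ w, Φ.D X w = x.1 := Iff.rfl

/-- the cohomology -/
def H (X : DObj A) : Type v := Φ.Zc X ⧸ Φ.Bc X

instance (X : DObj A) : AddCommGroup (Φ.H X) :=
  inferInstanceAs (AddCommGroup (Φ.Zc X ⧸ Φ.Bc X))

/-- the class of a cocycle -/
def cl {X : DObj A} (x : Φ.obj X.X) (hx : Φ.D X x = 0) : Φ.H X :=
  QuotientAddGroup.mk (⟨x, hx⟩ : Φ.Zc X)

lemma exists_cl {X : DObj A} (z : Φ.H X) : ∃ (x : Φ.obj X.X) (hx : Φ.D X x = 0),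
    Φ.cl x hx = z := by
  obtain ⟨⟨x, hx⟩, rfl⟩ := QuotientAddGroup.mk_surjective z
  exact ⟨x, hx, rfl⟩

lemma cl_add {X : DObj A} (x y : Φ.obj X.X) (hx : Φ.D X x = 0) (hy : Φ.D X y = 0)
    (hxy : Φ.D X (x + y) = 0) : Φ.cl (x + y) hxy = Φ.cl x hx + Φ.cl y hy := rfl

lemma cl_eq_zero {X : DObj A} (x : Φ.obj X.X) (hx : Φ.D X x = 0) :
    Φ.cl x hx = 0 ↔ ∃ w, Φ.D X w = x :=
  (QuotientAddGroup.eq_zero_iff (N := Φ.Bc X) _).trans Iff.rfl

lemma cl_eq {X : DObj A} (x y : Φ.obj X.X) (hx : Φ.D X x = 0) (hy : Φ.D X y = 0) :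
    Φ.cl x hx = Φ.cl y hy ↔ ∃ w, Φ.D X w = x + y := by
  have h1 : Φ.D X (x + y) = 0 := by rw [_root_.map_add, hx, hy, add_zero]
  have h2 : Φ.cl y hy + Φ.cl y hy = 0 := by
    rw [← cl_add Φ y y hy hy (by rw [_root_.map_add, hy, add_zero]), cl_eq_zero]
    exact ⟨0, by rw [_root_.map_zero, Φ.two]⟩
  rw [← cl_eq_zero Φ (x + y) h1, cl_add Φ x y hx hy h1, ← sub_eq_zero, sub_eq_add_neg,
    neg_eq_of_add_eq_zero_right h2]

/-- the map on cocycles -/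
def zmap {X Y : DObj A} (f : X ⟶ Y) : Φ.Zc Y →+ Φ.Zc X where
  toFun y := ⟨Φ.map f.f y.1, by
    show Φ.D X _ = 0
    rw [D_map]
    have : Φ.D Y y.1 = 0 := y.2
    rw [this, _root_.map_zero]⟩
  map_zero' := by
    apply Subtype.ext
    exact _root_.map_zero _
  map_add' y y' := by
    apply Subtype.ext
    exact _root_.map_add _ _ _

/-- the map on cohomology -/
def hmap {X Y : DObj A} (f : X ⟶ Y) : Φ.H Y →+ Φ.H X :=
  QuotientAddGroup.map (Φ.Bc Y) (Φ.Bc X) (Φ.zmap f) (by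
    rintro y ⟨w, hw⟩
    refine ⟨Φ.map f.f w, ?_⟩
    rw [D_map, hw]
    rfl)

lemma hmap_cl {X Y : DObj A} (f : X ⟶ Y) (y : Φ.obj Y.X) (hy : Φ.D Y y = 0) :
    Φ.hmap f (Φ.cl y hy) = Φ.cl (Φ.map f.f y) (by rw [D_map, hy, _root_.map_zero]) := rfl

lemma hmap_id (X : DObj A) (z : Φ.H X) : Φ.hmap (𝟙 X) z = z := by
  obtain ⟨x, hx, rfl⟩ := Φ.exists_cl z
  rw [hmap_cl]
  congr 1
  exact Φ.map_id _ _

lemma hmap_comp {X Y Z : DObj A} (f : X ⟶ Y) (g : Y ⟶ Z) (z : Φ.H Z) :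
    Φ.hmap (f ≫ g) z = Φ.hmap f (Φ.hmap g z) := by
  obtain ⟨x, hx, rfl⟩ := Φ.exists_cl z
  rw [hmap_cl, hmap_cl, hmap_cl]
  congr 1
  exact Φ.map_comp _ _ _

lemma hmap_add {X Y : DObj A} (f g : X ⟶ Y) (z : Φ.H Y) :
    Φ.hmap (f + g) z = Φ.hmap f z + Φ.hmap g z := by
  obtain ⟨x, hx, rfl⟩ := Φ.exists_cl z
  rw [hmap_cl, hmap_cl, hmap_cl, ← cl_add Φ _ _ _ _ (by
    rw [_root_.map_add, D_map, D_map, hx, _root_.map_zero, _root_.map_zero, add_zero])]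
  congr 1
  exact Φ.map_add _ _ _

lemma map_neg_hom {X Y : A} (f : X ⟶ Y) (y : Φ.obj Y) : Φ.map (-f) y = -Φ.map f y := by
  have h := Φ.map_add (-f) f y
  rw [neg_add_cancel, map_zero_hom] at h
  exact eq_neg_of_add_eq_zero_left h.symm

/-- homotopy invariance -/
lemma hmap_eq_zero {X Y : DObj A} (f : X ⟶ Y) (h : f ∈ DObj.nullH X Y) (z : Φ.H Y) :
    Φ.hmap f z = 0 := by
  obtain ⟨x, hx, rfl⟩ := Φ.exists_cl z
  obtain ⟨h, hh⟩ := h
  rw [hmap_cl, cl_eq_zero]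
  refine ⟨Φ.map h x, ?_⟩
  have h1 : Φ.nu Y.X x + Φ.map Y.d x = 0 := hx
  have h2 : Φ.map h (Φ.nu Y.X x) + Φ.map h (Φ.map Y.d x) = 0 := by
    rw [← _root_.map_add, h1, _root_.map_zero]
  rw [D_apply, Φ.nu_map, hh, Φ.map_add, Φ.map_comp, Φ.map_comp]
  have h3 : Φ.map h (Φ.nu Y.X x) = Φ.map h (Φ.map Y.d x) := by
    rw [← sub_eq_zero, sub_eq_add_neg, neg_eq_of_add_eq_zero_right (Φ.two _ _), h2]
  rw [h3, add_comm]

lemma hmap_congr {X Y : DObj A} {f g : X ⟶ Y} (h : f - g ∈ DObj.nullH X Y) (z : Φ.H Y) :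
    Φ.hmap f z = Φ.hmap g z := by
  have h1 := Φ.hmap_eq_zero _ h z
  have h2 : f = (f - g) + g := by abel
  rw [h2, hmap_add, h1, zero_add]

/-- the map on cohomology of a morphism of the homotopy category -/
noncomputable def kmap {X Y : KC A} (f : X ⟶ Y) : Φ.H Y.out →+ Φ.H X.out :=
  Φ.hmap (KC.exists_q f).choose

lemma kmap_q {X Y : KC A} (φ : X.out ⟶ Y.out) (z : Φ.H Y.out) :
    Φ.kmap (KC.q φ : X ⟶ Y) z = Φ.hmap φ z := by
  apply Φ.hmap_congr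
  rw [← KC.q_eq_iff (X := X) (Y := Y)]
  exact (KC.exists_q (KC.q φ : X ⟶ Y)).choose_spec

lemma kmap_id (X : KC A) (z : Φ.H X.out) : Φ.kmap (𝟙 X) z = z := by
  rw [← KC.q_id, kmap_q, hmap_id]

lemma kmap_comp {X Y Z : KC A} (f : X ⟶ Y) (g : Y ⟶ Z) (z : Φ.H Z.out) :
    Φ.kmap (f ≫ g) z = Φ.kmap f (Φ.kmap g z) := by
  obtain ⟨φ, rfl⟩ := KC.exists_q f
  obtain ⟨ψ, rfl⟩ := KC.exists_q g
  rw [← KC.q_comp, kmap_q, kmap_q, kmap_q, hmap_comp]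

lemma kmap_add {X Y : KC A} (f g : X ⟶ Y) (z : Φ.H Y.out) :
    Φ.kmap (f + g) z = Φ.kmap f z + Φ.kmap g z := by
  obtain ⟨φ, rfl⟩ := KC.exists_q f
  obtain ⟨ψ, rfl⟩ := KC.exists_q g
  rw [← KC.q_add, kmap_q, kmap_q, kmap_q, hmap_add]

end PF

end MP40506.CX
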