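import Pool.Agent.Work.MP_40506d_al.CX.PhiAbs

/-!
# The cohomology with values in a contravariant additive functor with differential which sends
coproducts to products is a cohomological functor
-/

open CategoryTheory CategoryTheory.Limits CategoryTheory.MonoidalCategory
  CategoryTheory.Pretriangulated

universe v u

set_option linter.unusedSectionVars false

namespace MP40506.CX

namespace PF

variable {A : Type u} [Category.{v} A] [Preadditive A] [HasCoproducts.{v} A] (Φ : PF A)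

/-- coproducts go to products -/
structure IsProd : Prop where
  prod : ∀ {J : Type v} (Y : J → A) (y : ∀ j, Φ.obj (Y j)),
    ∃ z : Φ.obj (∐ Y), ∀ j, Φ.map (Sigma.ι Y j) z = y j
  ext : ∀ {J : Type v} (Y : J → A) (z : Φ.obj (∐ Y)), (∀ j, Φ.map (Sigma.ι Y j) z = 0) → z = 0

variable {Φ}

lemma IsProd.ext' (hΦ : Φ.IsProd) {J : Type v} (Y : J → A) (z z' : Φ.obj (∐ Y))
    (h : ∀ j, Φ.map (Sigma.ι Y j) z = Φ.map (Sigma.ι Y j) z') : z = z' := by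
  rw [← sub_eq_zero]
  apply hΦ.ext
  intro j
  rw [map_sub, h, sub_self]

lemma IsProd.prod_sig (hΦ : Φ.IsProd) {J : Type v} (P : J → DObj A) (y : ∀ j, Φ.H (P j)) :
    ∃ z : Φ.H (DObj.sig P), ∀ j, Φ.hmap (DObj.sigι P j) z = y j := by
  choose x hx hxy using fun j => Φ.exists_cl (y j)
  obtain ⟨z, hz⟩ := hΦ.prod (fun j => (P j).X) x
  have hz' : ∀ j, Φ.map (DObj.sigι P j).f z = x j := hz
  have h0 : Φ.D (DObj.sig P) z = 0 := by
    apply hΦ.ext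
    intro j
    refine (Φ.D_map (DObj.sigι P j) z).symm.trans ?_
    rw [hz', hx]
  refine ⟨Φ.cl z h0, fun j => ?_⟩
  rw [hmap_cl, ← hxy j]
  congr 1
  exact hz' j

lemma IsProd.ext_sig (hΦ : Φ.IsProd) {J : Type v} (P : J → DObj A) (z : Φ.H (DObj.sig P))
    (h : ∀ j, Φ.hmap (DObj.sigι P j) z = 0) : z = 0 := by
  obtain ⟨x, hx, rfl⟩ := Φ.exists_cl z
  have h1 : ∀ j, ∃ w, Φ.D (P j) w = Φ.map (DObj.sigι P j).f x := by
    intro j
    have := h j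
    rw [hmap_cl, cl_eq_zero] at this
    exact this
  choose w hw using h1
  obtain ⟨z, hz⟩ := hΦ.prod (fun j => (P j).X) w
  have hz' : ∀ j, Φ.map (DObj.sigι P j).f z = w j := hz
  rw [cl_eq_zero]
  refine ⟨z, hΦ.ext' _ _ _ fun j => ?_⟩
  refine (Φ.D_map (DObj.sigι P j) z).symm.trans ?_
  rw [hz', hw]
  rfl

variable (Φ) in
lemma exact_cone [Two A] {P R : DObj A} {φ : P ⟶ R} {C : DObj A} (D : ConeData φ C)
    (y : Φ.H R) (h : Φ.hmap φ y = 0) : ∃ z : Φ.H C, Φ.hmap D.inl z = y := by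
  obtain ⟨x, hx, rfl⟩ := Φ.exists_cl y
  rw [hmap_cl, cl_eq_zero] at h
  obtain ⟨w, hw⟩ := h
  have h1 : Φ.nu R.X x + Φ.map R.d x = 0 := hx
  have h2 : Φ.nu P.X w + Φ.map P.d w = Φ.map φ.f x := hw
  have h0 : Φ.D C (Φ.map D.r x + Φ.map D.pr.f w) = 0 := by
    rw [D_apply, _root_.map_add, _root_.map_add, Φ.nu_map, Φ.nu_map, ← Φ.map_comp, ← Φ.map_comp,
      D.d_r, D.d_pr, Φ.map_add, Φ.map_comp, Φ.map_comp, Φ.map_comp, ← h2, _root_.map_add]
    have h3 : Φ.map D.r (Φ.nu R.X x) + Φ.map D.r (Φ.map R.d x) = 0 := by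
      rw [← _root_.map_add, h1, _root_.map_zero]
    have h4 := Φ.two C.X (Φ.map D.pr.f (Φ.nu P.X w))
    have h5 := Φ.two C.X (Φ.map D.pr.f (Φ.map P.d w))
    calc _ = (Φ.map D.r (Φ.nu R.X x) + Φ.map D.r (Φ.map R.d x)) +
          (Φ.map D.pr.f (Φ.nu P.X w) + Φ.map D.pr.f (Φ.nu P.X w)) +
          (Φ.map D.pr.f (Φ.map P.d w) + Φ.map D.pr.f (Φ.map P.d w)) := by abel
      _ = 0 := by rw [h3, h4, h5, add_zero, add_zero]
  refine ⟨Φ.cl _ h0, ?_⟩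
  rw [hmap_cl]
  congr 1
  rw [_root_.map_add, ← Φ.map_comp, ← Φ.map_comp, D.inl_r, D.inl_pr, Φ.map_id, map_zero_hom,
    add_zero]

variable [Two A] [HasZeroObject A] [HasBinaryBiproducts A]

/-- the cohomological functor -/
noncomputable def coh (hΦ : Φ.IsProd) : Coh (KC A) where
  obj X := Φ.H X.out
  grp X := inferInstance
  map f := Φ.kmap f
  map_id X x := Φ.kmap_id X x
  map_comp f g z := Φ.kmap_comp f g z
  map_add f g z := Φ.kmap_add f g z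
  exact := by
    intro T hT y hy
    obtain ⟨P, R, φ, C, D, ⟨e⟩⟩ := (mem_distTriang_iff T).1 hT
    have e1 : T.mor₁ ≫ e.hom.hom₂ = e.hom.hom₁ ≫ (KC.q φ : (⟨P⟩ : KC A) ⟶ ⟨R⟩) := e.hom.comm₁
    have e1' : (KC.q φ : (⟨P⟩ : KC A) ⟶ ⟨R⟩) ≫ e.inv.hom₂ = e.inv.hom₁ ≫ T.mor₁ := e.inv.comm₁
    have e2 : T.mor₂ ≫ e.hom.hom₃ = e.hom.hom₂ ≫ (KC.q D.inl : (⟨R⟩ : KC A) ⟶ ⟨C⟩) :=
      e.hom.comm₂
    have e3 : e.hom.hom₂ ≫ e.inv.hom₂ = 𝟙 _ := by
      rw [← comp_hom₂, e.hom_inv_id, id_hom₂]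
    have h1 : Φ.hmap φ (Φ.kmap e.inv.hom₂ y) = 0 := by
      refine (Φ.kmap_q (X := (⟨P⟩ : KC A)) (Y := ⟨R⟩) φ _).symm.trans ?_
      refine (Φ.kmap_comp _ _ _).symm.trans ?_
      rw [e1']
      refine (Φ.kmap_comp _ _ _).trans ?_
      rw [hy, _root_.map_zero]
    obtain ⟨z, hz⟩ := exact_cone Φ D _ h1
    refine ⟨Φ.kmap e.hom.hom₃ z, ?_⟩
    refine (Φ.kmap_comp _ _ _).symm.trans ?_
    rw [e2]
    refine (Φ.kmap_comp _ _ _).trans ?_
    have h2 : Φ.kmap (KC.q D.inl : (⟨R⟩ : KC A) ⟶ ⟨C⟩) z = Φ.kmap e.inv.hom₂ y :=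
      (Φ.kmap_q (X := (⟨R⟩ : KC A)) (Y := ⟨C⟩) D.inl z).trans hz
    refine (congrArg (Φ.kmap e.hom.hom₂) h2).trans ?_
    refine (Φ.kmap_comp _ _ _).symm.trans ?_
    rw [e3]
    exact Φ.kmap_id _ _
  prod := by
    intro J Y y
    obtain ⟨z, hz⟩ := hΦ.prod_sig (fun j => (Y j).out) y
    let s : (∐ Y) ⟶ (⟨DObj.sig fun j => (Y j).out⟩ : KC A) :=
      Limits.Sigma.desc fun j => (KC.q (DObj.sigι (fun j => (Y j).out) j) :
        Y j ⟶ ⟨DObj.sig fun j => (Y j).out⟩)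
    refine ⟨Φ.kmap s z, fun j => ?_⟩
    refine (Φ.kmap_comp _ _ _).symm.trans ?_
    have h1 : Sigma.ι Y j ≫ s = (KC.q (DObj.sigι (fun j => (Y j).out) j) :
        Y j ⟶ ⟨DObj.sig fun j => (Y j).out⟩) := Limits.Sigma.ι_desc _ _
    rw [h1]
    exact (Φ.kmap_q (X := Y j) (Y := (⟨DObj.sig fun j => (Y j).out⟩ : KC A)) _ z).trans (hz j)
  ext := by
    intro J Y z hz
    let t : (⟨DObj.sig fun j => (Y j).out⟩ : KC A) ⟶ (∐ Y) :=
      Cofan.IsColimit.desc (KC.sigIsColimit fun j => (Y j).out) fun j => Sigma.ι Y j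
    let s : (∐ Y) ⟶ (⟨DObj.sig fun j => (Y j).out⟩ : KC A) :=
      Limits.Sigma.desc fun j => (KC.q (DObj.sigι (fun j => (Y j).out) j) :
        Y j ⟶ ⟨DObj.sig fun j => (Y j).out⟩)
    have ht : ∀ j, (KC.q (DObj.sigι (fun j => (Y j).out) j) :
        Y j ⟶ ⟨DObj.sig fun j => (Y j).out⟩) ≫ t = Sigma.ι Y j := fun j =>
      Cofan.IsColimit.fac (KC.sigIsColimit fun j => (Y j).out) (fun j => Sigma.ι Y j) j
    have hs : ∀ j, Sigma.ι Y j ≫ s = (KC.q (DObj.sigι (fun j => (Y j).out) j) :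
        Y j ⟶ ⟨DObj.sig fun j => (Y j).out⟩) := fun j => Limits.Sigma.ι_desc _ _
    have hst : s ≫ t = 𝟙 _ := by
      refine Limits.Sigma.hom_ext _ _ fun j => ?_
      rw [← Category.assoc, hs, ht, Category.comp_id]
    have h1 : Φ.kmap t z = 0 := by
      apply hΦ.ext_sig
      intro j
      refine (Φ.kmap_q (X := Y j) (Y := (⟨DObj.sig fun j => (Y j).out⟩ : KC A)) _
        (Φ.kmap t z)).symm.trans ?_
      refine (Φ.kmap_comp _ _ _).symm.trans ?_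
      rw [ht]
      exact hz j
    have h2 : Φ.kmap s (Φ.kmap t z) = z := by
      refine (Φ.kmap_comp _ _ _).symm.trans ?_
      rw [hst]
      exact Φ.kmap_id _ _
    rw [← h2, h1]
    exact _root_.map_zero _

end PF

end MP40506.CX
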