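import Pool.Agent.Work.MP_40506d_al.CX.Fr

/-!
# Non-zero maps from the unit of `KC Vec` split
-/

open CategoryTheory CategoryTheory.Limits CategoryTheory.MonoidalCategory

set_option linter.unusedSectionVars false

namespace MP40506.CX

noncomputable section

/-- a non-zero morphism from the unit in the homotopy category of differential vector spaces is
a split monomorphism -/
theorem exists_retraction {X : KC (Fr PUnit (⊤ : AddSubmonoid PUnit))}
    (φ : 𝟙_ (KC (Fr PUnit (⊤ : AddSubmonoid PUnit))) ⟶ X) (hφ : φ ≠ 0) :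
    ∃ ψ : X ⟶ 𝟙_ (KC (Fr PUnit (⊤ : AddSubmonoid PUnit))), φ ≫ ψ = 𝟙 _ := by
  obtain ⟨f, rfl⟩ := KC.exists_q φ
  let V := X.out.X.I →₀ ZMod 2
  let d : V →ₗ[ZMod 2] V := X.out.d.f
  let v : V := f.f.f (Finsupp.single () 1)
  have hdv : d v = 0 := by
    have h := congrArg Fr.Hom.f f.comm
    have h2 : X.out.d.f (f.f.f (Finsupp.single () 1)) = f.f.f ((0 : (Unit →₀ ZMod 2) →ₗ[ZMod 2]
        (Unit →₀ ZMod 2)) (Finsupp.single () 1)) := (LinearMap.congr_fun h _).symm
    exact h2.trans (map_zero f.f.f)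
  have hv : v ∉ LinearMap.range d := by
    rintro ⟨w, hw⟩
    apply hφ
    rw [KC.q_eq_zero_iff]
    let h : (𝟙_ (KC (Fr PUnit (⊤ : AddSubmonoid PUnit)))).out.X ⟶ X.out.X :=
      { f := Finsupp.linearCombination (ZMod 2) (fun _ : Unit => w)
        gr := fun _ _ _ => AddSubmonoid.mem_top _ }
    refine ⟨h, ?_⟩
    have h0 : (𝟙_ (KC (Fr PUnit (⊤ : AddSubmonoid PUnit)))).out.d ≫ h = 0 := zero_comp
    rw [h0, zero_add]
    apply Fr.hom_ext
    refine Finsupp.lhom_ext' fun i => LinearMap.ext_ring ?_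
    show v = d (Finsupp.linearCombination (ZMod 2) (fun _ : Unit => w) (Finsupp.single i 1))
    rw [Finsupp.linearCombination_single, one_smul, hw]
  obtain ⟨l, hl, hl'⟩ := Submodule.exists_dual_map_eq_bot_of_notMem hv inferInstance
  have hl1 : l v = 1 := by
    have : ∀ x : ZMod 2, x ≠ 0 → x = 1 := by decide
    exact this _ hl
  have hld : ∀ x, l (d x) = 0 := by
    intro x
    have h1 : l (d x) ∈ Submodule.map l (LinearMap.range d) := ⟨d x, ⟨x, rfl⟩, rfl⟩
    rw [hl'] at h1
    exact h1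
  let g : X.out ⟶ (𝟙_ (KC (Fr PUnit (⊤ : AddSubmonoid PUnit)))).out :=
    { f := { f := Finsupp.lsingle () ∘ₗ l
             gr := fun _ _ _ => AddSubmonoid.mem_top _ }
      comm := by
        have h0 : ({ f := Finsupp.lsingle () ∘ₗ l
                     gr := fun _ _ _ => AddSubmonoid.mem_top _ } :
            X.out.X ⟶ (𝟙_ (KC (Fr PUnit (⊤ : AddSubmonoid PUnit)))).out.X) ≫
            (𝟙_ (KC (Fr PUnit (⊤ : AddSubmonoid PUnit)))).out.d = 0 := comp_zero
        rw [h0]
        apply Fr.hom_ext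
        refine LinearMap.ext fun x => ?_
        have h1 : Finsupp.single () (l (d x)) = (0 : Unit →₀ ZMod 2) := by
          rw [hld, Finsupp.single_zero]
        exact h1 }
  refine ⟨KC.q g, ?_⟩
  rw [← KC.q_comp, ← KC.q_id]
  congr 1
  apply DObj.hom_ext
  apply Fr.hom_ext
  refine Finsupp.lhom_ext' fun i => LinearMap.ext_ring ?_
  have h1 : Finsupp.single () (l v) = (Finsupp.single () 1 : Unit →₀ ZMod 2) := by
    rw [hl1]
  exact h1

end

end MP40506.CX
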