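import Pool.Agent.Work.MP_40506d_al.CX.Fact
import Pool.Agent.Work.MP_40506d_al.CX.Face
import Pool.Agent.Work.MP_40506d_al.CX.VecField

/-!
# The spectrum of `TT G M` is the set of faces of `M`
-/

open CategoryTheory CategoryTheory.Limits CategoryTheory.MonoidalCategory
  CategoryTheory.Pretriangulated

set_option linter.unusedSectionVars false

namespace MP40506.CX

noncomputable section

variable {G : Type} [AddCommGroup G] {M : AddSubmonoid G}

/-- the triangle identity -/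
lemma zigzag_id {C : Type*} [Category C] [MonoidalCategory C] (c d : C) [ExactPairing c d] :
    𝟙 c = (λ_ c).inv ≫ η_ c d ▷ c ≫ (α_ c d c).hom ≫ c ◁ ε_ c d ≫ (ρ_ c).hom := by
  have h4 := ExactPairing.evaluation_coevaluation c d
  have h5 : (λ_ c).inv ≫ η_ c d ▷ c ≫ (α_ c d c).hom ≫ c ◁ ε_ c d ≫ (ρ_ c).hom =
      (λ_ c).inv ≫ (η_ c d ▷ c ≫ (α_ c d c).hom ≫ c ◁ ε_ c d) ≫ (ρ_ c).hom := by
    simp only [Category.assoc]
  rw [h5, h4]
  simp

/-- a killed morphism does not factor a morphism inverted by `P` -/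
lemma kill_not_fact' (P : Spc (TT G M)) {x y : KC (Fr G M)} {f : x ⟶ y}
    (hK : Kill M (face P) x y f) (c c' : TT G M) (ψ : c ⟶ c') (hψ : InvAt P ψ)
    (hc' : ¬ P.1 c') (hf : Fact f ψ) : False := by
  refine kill_not_fact P (face P) ?_ ?_ hK c c' ψ hψ hc' hf
  · intro h hM hU hP
    exact hU ⟨hM, hP⟩
  · rintro u hM ⟨hM', hP⟩
    exact invAt_tmul_of P hM' hP

/-- the residue functor of a face, on `TT G M` -/
abbrev kap {U : AddSubmonoid G} (hU : IsFace M U) : TT G M ⥤ KC Vec :=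
  (locSub (FinC G M)).ι ⋙ kres hU

lemma mem_prime_of_isZero (P : Spc (TT G M)) {c : TT G M} (hc : IsCpt c)
    (h : IsZero ((kres (isFace_face P)).obj c.obj)) : P.1 c := by
  by_contra hcon
  obtain ⟨d, hd, ⟨hp⟩, -⟩ := hc.exists_dual
  obtain ⟨w, hw, i, r, hir⟩ := exists_finite_retract (d ⊗ c) (hd.tensor hc)
  have h1 : IsZero ((kap (isFace_face P)).obj (d ⊗ c)) := by
    refine IsZero.of_iso ?_ (Functor.Monoidal.μIso (kap (isFace_face P)) d c).symm
    have h2 : IsZero ((kap (isFace_face P)).obj c) := h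
    rw [IsZero.iff_id_eq_zero] at h2 ⊢
    rw [← MonoidalCategory.whiskerLeft_id, h2, MonoidalPreadditive.whiskerLeft_zero]
  let f : (⟨w⟩ : KC (Fr G M)) ⟶ 𝟙_ (KC (Fr G M)) := r ≫ (ε_ c d).hom
  have hf : (kres (isFace_face P)).map f = 0 := by
    have h3 : (kap (isFace_face P)).map (ε_ c d) = 0 := h1.eq_of_src _ _
    rw [Functor.map_comp]
    exact (congrArg (fun b => (kres (isFace_face P)).map r ≫ b) h3).trans comp_zero
  have hK := kill_of_res (isFace_face P) hw f hf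
  refine kill_not_fact' P hK c c (𝟙 c) (InvAt.id hc) hcon ?_
  have hz : 𝟙 c = ((λ_ c).inv ≫ η_ c d ▷ c ≫ (α_ c d c).hom) ≫ c ◁ ε_ c d ≫ (ρ_ c).hom := by
    simp only [Category.assoc]
    exact zigzag_id c d
  have hz' : 𝟙 c.obj = ((λ_ c).inv ≫ η_ c d ▷ c ≫ (α_ c d c).hom).hom ≫
      c.obj ◁ (ε_ c d).hom ≫ (ρ_ c.obj).hom := congrArg (fun x => x.hom) hz
  refine ⟨c.obj, ((λ_ c).inv ≫ η_ c d ▷ c ≫ (α_ c d c).hom).hom ≫ c.obj ◁ i ≫
    (β_ c.obj ⟨w⟩).hom, (β_ c.obj (𝟙_ _)).inv ≫ (ρ_ c.obj).hom, ?_⟩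
  have h6 : c.obj ◁ i ≫ (β_ c.obj (⟨w⟩ : KC (Fr G M))).hom ≫ f ▷ c.obj ≫
      (β_ c.obj (𝟙_ _)).inv = c.obj ◁ (ε_ c d).hom := by
    rw [← BraidedCategory.braiding_naturality_right_assoc, Iso.hom_inv_id, Category.comp_id,
      ← MonoidalCategory.whiskerLeft_comp]
    have h7 : i ≫ f = (ε_ c d).hom := by
      show i ≫ r ≫ (ε_ c d).hom = (ε_ c d).hom
      rw [← Category.assoc, hir, Category.id_comp]
    rw [h7]
  show 𝟙 c.obj = _
  rw [hz', ← h6]
  simp only [Category.assoc]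

lemma isZero_of_mem_prime (P : Spc (TT G M)) {c : TT G M} (hPc : P.1 c) :
    IsZero ((kres (isFace_face P)).obj c.obj) := by
  by_contra hcon
  have hc : IsCpt c := P.2.cpt c hPc
  obtain ⟨d, hd, ⟨hp⟩, -⟩ := hc.exists_dual
  let κ := kap (isFace_face P)
  obtain ⟨w, f, k, hΔ⟩ := distinguished_cocone_triangle₁ (η_ c d)
  have hPcd : P.1 (c ⊗ d) := P.2.tensor' hPc hd
  have hw : IsCpt w := isThickIdeal_cpt.ext₁ _ hΔ isCpt_unit (hc.tensor hd)
  -- `κ η ≠ 0`
  have hη : κ.map (η_ c d) ≠ 0 := by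
    intro h0
    apply hcon
    show IsZero (κ.obj c)
    rw [IsZero.iff_id_eq_zero]
    have hz := zigzag_id c d
    have h6 : κ.map (η_ c d ▷ c) = 0 := by
      rw [Functor.Monoidal.map_whiskerRight, h0, MonoidalPreadditive.zero_whiskerRight, zero_comp,
        comp_zero]
    rw [← CategoryTheory.Functor.map_id κ c]
    conv_lhs => rw [hz]
    rw [Functor.map_comp, Functor.map_comp, h6, zero_comp, comp_zero]
  -- the splitting
  have hη' : (Functor.Monoidal.εIso κ).hom ≫ κ.map (η_ c d) ≠ 0 := by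
    intro h0
    apply hη
    rw [← cancel_epi (Functor.Monoidal.εIso κ).hom, h0, comp_zero]
  obtain ⟨ρ, hρ⟩ := exists_retraction _ hη'
  have hf0 : κ.map f = 0 := by
    have h7 : κ.map f ≫ κ.map (η_ c d) = 0 := by
      rw [← Functor.map_comp, tri_fg hΔ]
      exact Functor.map_zero _ _ _
    have h8 : κ.map (η_ c d) ≫ ρ = (Functor.Monoidal.εIso κ).inv := by
      rw [← cancel_epi (Functor.Monoidal.εIso κ).hom, ← Category.assoc, hρ, Iso.hom_inv_id]
    have h9 : κ.map f ≫ (Functor.Monoidal.εIso κ).inv = 0 := by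
      rw [← h8, ← Category.assoc, h7, zero_comp]
    rw [← cancel_mono (Functor.Monoidal.εIso κ).inv, h9, zero_comp]
  obtain ⟨w', hw', i, r, hir⟩ := exists_finite_retract w hw
  let f' : (⟨w'⟩ : KC (Fr G M)) ⟶ 𝟙_ (KC (Fr G M)) := r ≫ f.hom
  have hf' : (kres (isFace_face P)).map f' = 0 := by
    rw [Functor.map_comp]
    exact (congrArg (fun b => (kres (isFace_face P)).map r ≫ b) hf0).trans comp_zero
  have hK := kill_of_res (isFace_face P) hw' f' hf'
  refine kill_not_fact' P hK w (𝟙_ _) f ⟨hw, isCpt_unit, _, _, _, hΔ, hPcd⟩ P.2.unit ?_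
  refine ⟨𝟙_ _, i ≫ (ρ_ _).inv, (ρ_ _).hom, ?_⟩
  have h10 := rightUnitor_naturality f'
  rw [Category.assoc, h10, Iso.inv_hom_id_assoc]
  show f.hom = i ≫ r ≫ f.hom
  rw [← Category.assoc, hir, Category.id_comp]

/-- a prime is determined by its face -/
theorem prime_iff (P : Spc (TT G M)) (c : TT G M) :
    P.1 c ↔ IsCpt c ∧ IsZero ((kres (isFace_face P)).obj c.obj) :=
  ⟨fun h => ⟨P.2.cpt c h, isZero_of_mem_prime P h⟩, fun h => mem_prime_of_isZero P h.1 h.2⟩

theorem face_injective : Function.Injective (face : Spc (TT G M) → AddSubmonoid G) := by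
  intro P Q hPQ
  have key : ∀ (U V : AddSubmonoid G) (hU : IsFace M U) (hV : IsFace M V), U = V →
      ∀ c : TT G M, IsZero ((kres hU).obj c.obj) → IsZero ((kres hV).obj c.obj) := by
    rintro U V hU hV rfl c h
    exact h
  apply Subtype.ext
  funext c
  apply propext
  rw [prime_iff P, prime_iff Q]
  exact ⟨fun h => ⟨h.1, key _ _ _ _ hPQ c h.2⟩, fun h => ⟨h.1, key _ _ _ _ hPQ.symm c h.2⟩⟩

end

end MP40506.CX
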