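import Pool.Agent.Work.MP_40506d_al.CX.Words

set_option autoImplicit false

/-! The transition maps of the sheaf of differential vector spaces on words. -/

namespace MP40506.CX.Sheaf

open L

/-! ### tokens -/

lemma at_proper {u w : Word} (h : u ∈ At w) :
    ∃ (l : Word) (i : L), i ≠ Y ∧ Y ∉ l ∧ w = l ++ i :: u := by
  induction w with
  | nil => simp at h
  | cons j w ih =>
    have key : ∀ k : L, k ≠ Y → (u ∈ At w ∨ u = w) →
        ∃ (l : Word) (i : L), i ≠ Y ∧ Y ∉ l ∧ k :: w = l ++ i :: u := by
      rintro k hk (h | rfl)
      · obtain ⟨l, i, hi, hl, rfl⟩ := ih h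
        refine ⟨k :: l, i, hi, ?_, rfl⟩
        simp only [List.mem_cons, not_or]
        exact ⟨fun h' => hk h'.symm, hl⟩
      · exact ⟨[], k, hk, by simp, rfl⟩
    cases j with
    | Y => simp at h
    | a =>
      rw [At_a, List.mem_append, List.mem_singleton] at h
      exact key a (by simp) (h.imp List.mem_of_mem_take id)
    | b =>
      rw [At_b, List.mem_append, List.mem_singleton] at h
      exact key b (by simp) (h.imp List.mem_of_mem_drop id)

lemma at_len {u w : Word} (h : u ∈ At w) : u.length < w.length := by
  obtain ⟨l, i, -, -, rfl⟩ := at_proper h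
  simp
  omega

lemma self_notMem (w : Word) : w ∉ At w := fun h => lt_irrefl _ (at_len h)

lemma at_cons {u w : Word} {i : L} (h : u ∈ At (i :: w)) : u ∈ At w ∨ u = w := by
  cases i with
  | Y => simp at h
  | a =>
    rw [At_a, List.mem_append, List.mem_singleton] at h
    exact h.imp List.mem_of_mem_take id
  | b =>
    rw [At_b, List.mem_append, List.mem_singleton] at h
    exact h.imp List.mem_of_mem_drop id

lemma at_nodup (w : Word) : (At w).Nodup := by
  induction w with
  | nil => simp
  | cons i w ih =>
    have hw := self_notMem w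
    cases i with
    | Y => simp
    | a =>
      rw [At_a, List.nodup_append]
      refine ⟨ih.sublist (List.take_sublist _ _), List.nodup_singleton _, ?_⟩
      intro x hx y hy hxy
      rw [List.mem_singleton] at hy
      rw [hxy, hy] at hx
      exact hw (List.mem_of_mem_take hx)
    | b =>
      rw [At_b, List.nodup_append]
      refine ⟨ih.sublist (List.drop_sublist _ _), List.nodup_singleton _, ?_⟩
      intro x hx y hy hxy
      rw [List.mem_singleton] at hy
      rw [hxy, hy] at hx
      exact hw (List.mem_of_mem_drop hx)

lemma at_length (w : Word) : (At w).length ≤ 3 := by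
  induction w with
  | nil => simp
  | cons i w ih =>
    cases i with
    | Y => simp
    | a =>
      rw [At_a]
      simp only [List.length_append, List.length_take, List.length_singleton]
      omega
    | b =>
      rw [At_b]
      simp only [List.length_append, List.length_drop, List.length_singleton]
      omega

lemma drop_length (w : Word) : ((At w).drop 2).length ≤ 1 := by
  have := at_length w
  rw [List.length_drop]
  omega

/-- a token of `l ++ w` which is a proper suffix of `w` is a token of `w` -/
lemma at_of_append {u w l : Word} (h : u ∈ At (l ++ w)) (hu : u.length < w.length) :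
    u ∈ At w := by
  induction l with
  | nil => exact h
  | cons i l ih =>
    rw [List.cons_append] at h
    rcases at_cons h with h' | rfl
    · exact ih h'
    · exfalso
      rw [List.length_append] at hu
      omega

lemma take_drop_disj {w u : Word} (h1 : u ∈ (At w).take 2) (h2 : u ∈ (At w).drop 2) : False := by
  have h := at_nodup w
  rw [← List.take_append_drop 2 (At w), List.nodup_append] at h
  exact h.2.2 u h1 u h2 rfl

/-! ### sums -/

/-- sum of the values of `f` on a list of words -/
def sm (l : List Word) (f : Word → ZMod 2) : ZMod 2 := (l.map f).sum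

@[simp] lemma sm_nil (f : Word → ZMod 2) : sm [] f = 0 := rfl

@[simp] lemma sm_cons (u : Word) (l : List Word) (f : Word → ZMod 2) :
    sm (u :: l) f = f u + sm l f := by simp [sm]

lemma sm_append (l l' : List Word) (f : Word → ZMod 2) : sm (l ++ l') f = sm l f + sm l' f := by
  simp [sm]

lemma sm_add (l : List Word) (f g : Word → ZMod 2) : sm l (f + g) = sm l f + sm l g := by
  induction l with
  | nil => simp
  | cons u l ih =>
    rw [sm_cons, sm_cons, sm_cons, ih, Pi.add_apply]
    ring

@[simp] lemma sm_zero (l : List Word) : sm l (0 : Word → ZMod 2) = 0 := by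
  induction l with
  | nil => rfl
  | cons u l ih => rw [sm_cons, ih, Pi.zero_apply, add_zero]

lemma sm_congr {l : List Word} {f g : Word → ZMod 2} (h : ∀ u ∈ l, f u = g u) :
    sm l f = sm l g := by
  induction l with
  | nil => rfl
  | cons u l ih =>
    rw [sm_cons, sm_cons, h u List.mem_cons_self,
      ih (fun v hv => h v (List.mem_cons_of_mem _ hv))]

lemma sm_eq_zero {l : List Word} {f : Word → ZMod 2} (h : ∀ u ∈ l, f u = 0) : sm l f = 0 := by
  rw [sm_congr (g := 0) h, sm_zero]

lemma sm_split (w : Word) (f : Word → ZMod 2) :
    sm ((At w).take 2) f + sm ((At w).drop 2) f = sm (At w) f := by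
  rw [← sm_append, List.take_append_drop]

lemma z2 (x : ZMod 2) : x + x = 0 := CharTwo.add_self_eq_zero x

/-! ### the maps -/

/-- the ambient space: functions on words, and the coefficient of `s` -/
abbrev Amb : Type := (Word → ZMod 2) × ZMod 2

/-- the space of the word `w` -/
def T (w : Word) : AddSubgroup Amb where
  carrier := {x | ∀ u, u ∉ At w → x.1 u = 0}
  add_mem' := by
    intro x y hx hy u hu
    show x.1 u + y.1 u = 0
    rw [hx u hu, hy u hu, add_zero]
  zero_mem' := fun _ _ => rfl
  neg_mem' := by
    intro x hx u hu
    show -x.1 u = 0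
    rw [hx u hu, neg_zero]

lemma mem_T {w : Word} {x : Amb} : x ∈ T w ↔ ∀ u, u ∉ At w → x.1 u = 0 := Iff.rfl

/-- the differential of `T w` -/
def dW (w : Word) : Amb →+ Amb :=
  AddMonoidHom.mk' (fun x => (0, sm (At w) x.1)) (by
    intro x y
    refine Prod.ext ?_ ?_
    · show (0 : Word → ZMod 2) = 0 + 0
      rw [add_zero]
    · exact sm_add _ _ _)

lemma dW_apply (w : Word) (x : Amb) : dW w x = (0, sm (At w) x.1) := rfl

/-- keep the coefficients in `K`, collect those in `R` in the new token `w` -/
def mrg (K R : List Word) (w : Word) : Amb →+ Amb :=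
  AddMonoidHom.mk' (fun x => (fun u => if u ∈ K then x.1 u else if u = w then sm R x.1 else 0,
      x.2)) (by
    intro x y
    refine Prod.ext ?_ rfl
    funext u
    show (if u ∈ K then x.1 u + y.1 u else if u = w then sm R (x.1 + y.1) else 0) =
      (if u ∈ K then x.1 u else if u = w then sm R x.1 else 0) +
      (if u ∈ K then y.1 u else if u = w then sm R y.1 else 0)
    rw [sm_add]
    split_ifs <;> simp)

lemma mrg_apply (K R : List Word) (w : Word) (x : Amb) (u : Word) :
    (mrg K R w x).1 u = if u ∈ K then x.1 u else if u = w then sm R x.1 else 0 := rfl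

lemma mrg_snd (K R : List Word) (w : Word) (x : Amb) : (mrg K R w x).2 = x.2 := rfl

/-- the map of the edge `w Y` -/
def toY (w : Word) : Amb →+ Amb :=
  AddMonoidHom.mk' (fun x => (0, sm ((At w).drop 2) x.1)) (by
    intro x y
    refine Prod.ext ?_ ?_
    · show (0 : Word → ZMod 2) = 0 + 0
      rw [add_zero]
    · exact sm_add _ _ _)

lemma toY_apply (w : Word) (x : Amb) : toY w x = (0, sm ((At w).drop 2) x.1) := rfl

/-- the map of the edge from `w` to `w i` -/
def step (i : L) (w : Word) : Amb →+ Amb :=
  match i with
  | Y => toY w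
  | a => mrg ((At w).take 2) ((At w).drop 2) w
  | b => mrg ((At w).drop 2) ((At w).take 2) w

/-- the map from `w` to `u Y` for a token `u` of `w` -/
def jump (w u : Word) : Amb →+ Amb :=
  AddMonoidHom.mk' (fun x => (0, if (a :: u) <:+ w then x.1 u else sm (At w) x.1 + x.1 u)) (by
    intro x y
    refine Prod.ext ?_ ?_
    · show (0 : Word → ZMod 2) = 0 + 0
      rw [add_zero]
    · show (if (a :: u) <:+ w then x.1 u + y.1 u else sm (At w) (x.1 + y.1) + (x.1 u + y.1 u)) =
        (if (a :: u) <:+ w then x.1 u else sm (At w) x.1 + x.1 u) +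
        (if (a :: u) <:+ w then y.1 u else sm (At w) y.1 + y.1 u)
      rw [sm_add]
      split_ifs
      · rfl
      · ring)

lemma jump_apply (w u : Word) (x : Amb) :
    jump w u x = (0, if (a :: u) <:+ w then x.1 u else sm (At w) x.1 + x.1 u) := rfl

lemma dW_mem (w v : Word) (x : Amb) : dW w x ∈ T v := fun _ _ => rfl

lemma toY_mem (w v : Word) (x : Amb) : toY w x ∈ T v := fun _ _ => rfl

lemma jump_mem (w u v : Word) (x : Amb) : jump w u x ∈ T v := fun _ _ => rfl

lemma dW_dW (w : Word) (x : Amb) : dW w (dW w x) = 0 := by
  rw [dW_apply, dW_apply, sm_zero]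
  rfl

lemma mrg_mem {K R : List Word} {w v : Word} (h : At v = K ++ [w]) (x : Amb) :
    mrg K R w x ∈ T v := by
  intro u hu
  rw [h, List.mem_append, List.mem_singleton, not_or] at hu
  rw [mrg_apply, if_neg hu.1, if_neg hu.2]

lemma step_mem (i : L) (w : Word) (x : Amb) : step i w x ∈ T (i :: w) := by
  cases i with
  | Y => exact toY_mem _ _ _
  | a => exact mrg_mem (At_a w) x
  | b => exact mrg_mem (At_b w) x

lemma sm_mrg {K R : List Word} {w v : Word} (h : At v = K ++ [w]) (hw : w ∉ K) (x : Amb) :
    sm (At v) (mrg K R w x).1 = sm K x.1 + sm R x.1 := by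
  rw [h, sm_append, sm_cons, sm_nil, add_zero]
  congr 1
  · exact sm_congr (fun u hu => by rw [mrg_apply, if_pos hu])
  · rw [mrg_apply, if_neg hw, if_pos rfl]

lemma mrg_dW (K R : List Word) (w v : Word) (x : Amb) :
    mrg K R w (dW v x) = (0, sm (At v) x.1) := by
  refine Prod.ext ?_ rfl
  funext u
  rw [mrg_apply]
  show (if u ∈ K then (0 : Word → ZMod 2) u else if u = w then sm R 0 else 0) = 0
  rw [sm_zero]
  split_ifs <;> rfl

/-- the sum of the coefficients is preserved by the edges `a`, `b` -/
lemma sm_step {i : L} (hi : i ≠ Y) (w : Word) (x : Amb) :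
    sm (At (i :: w)) (step i w x).1 = sm (At w) x.1 := by
  have hw := self_notMem w
  cases i with
  | Y => exact absurd rfl hi
  | a =>
    have h := sm_mrg (R := (At w).drop 2) (At_a w)
      (fun h => hw (List.mem_of_mem_take h)) x
    rw [sm_split] at h
    exact h
  | b =>
    have h := sm_mrg (R := (At w).take 2) (At_b w)
      (fun h => hw (List.mem_of_mem_drop h)) x
    rw [add_comm, sm_split] at h
    exact h

lemma step_snd {i : L} (hi : i ≠ Y) (w : Word) (x : Amb) : (step i w x).2 = x.2 := by
  cases i with
  | Y => exact absurd rfl hi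
  | a => rfl
  | b => rfl

lemma step_d (i : L) (w : Word) (x : Amb) :
    dW (i :: w) (step i w x) = step i w (dW w x) := by
  cases i with
  | Y =>
    show dW (Y :: w) (toY w x) = toY w (dW w x)
    rw [dW_apply, toY_apply, toY_apply, dW_apply, sm_zero, sm_zero]
  | a =>
    rw [dW_apply, sm_step (by simp)]
    exact (mrg_dW _ _ _ _ _).symm
  | b =>
    rw [dW_apply, sm_step (by simp)]
    exact (mrg_dW _ _ _ _ _).symm

lemma jump_d (w u : Word) (x : Amb) : dW (Y :: u) (jump w u x) = jump w u (dW w x) := by
  rw [dW_apply, jump_apply, jump_apply, dW_apply, sm_zero, sm_zero]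
  simp

/-- the map of a path -/
def path (w : Word) : Word → (Amb →+ Amb)
  | [] => AddMonoidHom.id _
  | i :: l => (step i (l ++ w)).comp (path w l)

@[simp] lemma path_nil (w : Word) (x : Amb) : path w [] x = x := rfl

lemma path_cons (w : Word) (i : L) (l : Word) (x : Amb) :
    path w (i :: l) x = step i (l ++ w) (path w l x) := rfl

lemma path_append (w l l' : Word) (x : Amb) :
    path w (l' ++ l) x = path (l ++ w) l' (path w l x) := by
  induction l' with
  | nil => rfl
  | cons i l' ih =>
    rw [List.cons_append, path_cons, ih, path_cons, List.append_assoc]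

lemma path_mem {w : Word} {x : Amb} (hx : x ∈ T w) (l : Word) : path w l x ∈ T (l ++ w) := by
  cases l with
  | nil => exact hx
  | cons i l => exact step_mem i _ _

lemma sm_path {w l : Word} (hl : Y ∉ l) (x : Amb) :
    sm (At (l ++ w)) (path w l x).1 = sm (At w) x.1 := by
  induction l with
  | nil => rfl
  | cons i l ih =>
    simp only [List.mem_cons, not_or] at hl
    rw [path_cons, List.cons_append, sm_step (fun h => hl.1 h.symm), ih hl.2]

/-- the coefficient of a token which persists is preserved -/
lemma step_persist {i : L} {w u : Word} (hu : u ∈ At w) (hu' : u ∈ At (i :: w)) (x : Amb) :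
    (step i w x).1 u = x.1 u := by
  have hne : u ≠ w := fun h => self_notMem w (h ▸ hu)
  cases i with
  | Y => simp at hu'
  | a =>
    rw [At_a, List.mem_append, List.mem_singleton] at hu'
    rcases hu' with h | h
    · exact if_pos h
    · exact absurd h hne
  | b =>
    rw [At_b, List.mem_append, List.mem_singleton] at hu'
    rcases hu' with h | h
    · exact if_pos h
    · exact absurd h hne

lemma path_persist {w l u : Word} (hu : u ∈ At w) (hu' : u ∈ At (l ++ w)) (x : Amb) :
    (path w l x).1 u = x.1 u := by
  induction l with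
  | nil => rfl
  | cons i l ih =>
    rw [List.cons_append] at hu'
    have h1 : u ∈ At (l ++ w) := by
      rcases at_cons hu' with h | rfl
      · exact h
      · exfalso
        have := at_len hu
        rw [List.length_append] at this
        omega
    rw [path_cons, step_persist h1 hu', ih h1]

lemma noY_of_mem {w l u : Word} (hu : u.length ≤ w.length) (hu' : u ∈ At (l ++ w)) : Y ∉ l := by
  obtain ⟨l', i, hi, hl', he⟩ := at_proper hu'
  intro hY
  have h1 : l.length ≤ (l' ++ [i]).length := by
    have := congrArg List.length he
    simp only [List.length_append, List.length_cons, List.length_nil] at this ⊢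
    omega
  have h2 : l <+: l' ++ [i] := by
    have h3 : l <+: l' ++ i :: u := ⟨w, he⟩
    have h4 : l' ++ [i] <+: l' ++ i :: u := ⟨u, by simp⟩
    exact List.prefix_of_prefix_length_le h3 h4 h1
  have h5 : Y ∈ l' ++ [i] := h2.subset hY
  rw [List.mem_append, List.mem_singleton] at h5
  rcases h5 with h | h
  · exact hl' h
  · exact hi h.symm

/-- whether the letter after the token `u` is `a` does not change along a path -/
lemma a_suffix_iff {w l u : Word} (hu : u.length < w.length) :
    (a :: u) <:+ (l ++ w) ↔ (a :: u) <:+ w := by
  constructor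
  · intro h
    exact List.suffix_of_suffix_length_le h (List.suffix_append l w) (by simp; omega)
  · intro h
    exact h.trans (List.suffix_append l w)

/-- J2: jumping to an old token -/
lemma jump_path {w l u : Word} (hu : u ∈ At w) (hu' : u ∈ At (l ++ w)) (x : Amb) :
    jump (l ++ w) u (path w l x) = jump w u x := by
  rw [jump_apply, jump_apply, path_persist hu hu', sm_path (noY_of_mem (at_len hu).le hu')]
  congr 1
  simp only [a_suffix_iff (at_len hu)]

lemma mem_At_cons_self {i : L} (hi : i ≠ Y) (w : Word) : w ∈ At (i :: w) := by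
  cases i with
  | Y => exact absurd rfl hi
  | a => rw [At_a]; simp
  | b => rw [At_b]; simp

lemma step_new_a (w : Word) (x : Amb) : (step a w x).1 w = sm ((At w).drop 2) x.1 := by
  have hw := self_notMem w
  show (if w ∈ (At w).take 2 then x.1 w else if w = w then _ else _) = _
  rw [if_neg (fun h => hw (List.mem_of_mem_take h)), if_pos rfl]

lemma step_new_b (w : Word) (x : Amb) : (step b w x).1 w = sm ((At w).take 2) x.1 := by
  have hw := self_notMem w
  show (if w ∈ (At w).drop 2 then x.1 w else if w = w then _ else _) = _
  rw [if_neg (fun h => hw (List.mem_of_mem_drop h)), if_pos rfl]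

/-- J1: jumping to a token created on the way is the edge `v Y` -/
lemma jump_new {v l : Word} {i : L} (hi : i ≠ Y) (hv : v ∈ At (l ++ i :: v)) (x : Amb) :
    jump (l ++ i :: v) v (path (i :: v) l (step i v x)) = step Y v x := by
  have h1 := mem_At_cons_self hi v
  rw [jump_path h1 hv, jump_apply]
  show _ = toY v x
  rw [toY_apply]
  congr 1
  rw [sm_step hi]
  cases i with
  | Y => exact absurd rfl hi
  | a =>
    rw [if_pos (List.suffix_refl _), step_new_a]
  | b =>
    have h2 : ¬ (a :: v) <:+ (b :: v) := by
      intro h
      have := h.eq_of_length (by simp)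
      simp at this
    rw [if_neg h2, step_new_b, ← sm_split]
    have : ∀ p q : ZMod 2, p + q + p = q := by decide
    exact this _ _

/-- the restriction map from `w` to `w'` -/
noncomputable def rsW (w : Word) : Word → (Amb →+ Amb)
  | [] => if [] = w then AddMonoidHom.id _ else 0
  | i :: v =>
    if i :: v = w then AddMonoidHom.id _
    else if Word.le v w then (step i v).comp (rsW w v)
    else if i = Y ∧ v ∈ At w then jump w v
    else 0

lemma rsW_self (w : Word) (x : Amb) : rsW w w x = x := by
  cases w with
  | nil => simp [rsW]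
  | cons i v => simp [rsW]

lemma rsW_cons {w v : Word} {i : L} (h1 : i :: v ≠ w) (h2 : Word.le v w) (x : Amb) :
    rsW w (i :: v) x = step i v (rsW w v x) := by
  simp only [rsW, if_neg h1, if_pos h2]
  rfl

lemma rsW_jump {w v : Word} (h1 : Y :: v ≠ w) (h2 : ¬ Word.le v w) (h3 : v ∈ At w) (x : Amb) :
    rsW w (Y :: v) x = jump w v x := by
  simp only [rsW, if_neg h1, if_neg h2]
  rw [if_pos ⟨trivial, h3⟩]

lemma rsW_mem {w : Word} {x : Amb} (hx : x ∈ T w) (w' : Word) : rsW w w' x ∈ T w' := by
  cases w' with
  | nil =>
    simp only [rsW]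
    split_ifs with h
    · subst h; exact hx
    · exact (T []).zero_mem
  | cons i v =>
    simp only [rsW]
    split_ifs with h1 h2 h3
    · subst h1; exact hx
    · exact step_mem i v _
    · exact jump_mem _ _ _ _
    · exact (T (i :: v)).zero_mem

lemma rsW_d (w w' : Word) (x : Amb) : dW w' (rsW w w' x) = rsW w w' (dW w x) := by
  induction w' generalizing x with
  | nil =>
    simp only [rsW]
    split_ifs with h
    · subst h; rfl
    · simp
  | cons i v ih =>
    simp only [rsW]
    split_ifs with h1 h2 h3
    · subst h1; rfl
    · show dW (i :: v) (step i v (rsW w v x)) = step i v (rsW w v (dW w x))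
      rw [step_d, ih]
    · rw [h3.1]
      exact jump_d w v x
    · simp

/-! ### functoriality -/

lemma wle_of_suffix {w w' : Word} (h : w <:+ w') : Word.le w' w := Or.inl h

lemma wle_cases {w v : Word} {i : L} (h : Word.le (i :: v) w) (h1 : i :: v ≠ w)
    (h2 : ¬ Word.le v w) : i = Y ∧ v ∈ At w := by
  rcases h with h | ⟨u, hu, h⟩
  · exfalso
    rcases List.suffix_cons_iff.1 h with h | h
    · exact h1 h.symm
    · exact h2 (Or.inl h)
  · rcases List.suffix_cons_iff.1 h with h | h
    · rw [List.cons.injEq] at h
      exact ⟨h.1.symm, h.2 ▸ hu⟩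
    · exact absurd (Or.inr ⟨u, hu, h⟩) h2

lemma suffix_of_Y {u v l : Word} {i : L} (hi : i ≠ Y) (hl : Y ∉ l)
    (h : (Y :: u) <:+ (l ++ i :: v)) : (Y :: u) <:+ v := by
  induction l with
  | nil =>
    rw [List.nil_append] at h
    rcases List.suffix_cons_iff.1 h with h | h
    · rw [List.cons.injEq] at h
      exact absurd h.1.symm hi
    · exact h
  | cons j l ih =>
    simp only [List.mem_cons, not_or] at hl
    rw [List.cons_append] at h
    rcases List.suffix_cons_iff.1 h with h | h
    · rw [List.cons.injEq] at h
      exact absurd h.1 hl.1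
    · exact ih hl.2 h

section Functor

variable (htr : ∀ {x y z : Word}, Word.le x y → Word.le y z → Word.le x z)
  (han : ∀ {x y : Word}, Word.le x y → Word.le y x → x = y)

include htr han

lemma rsW_append {w v : Word} (h : Word.le v w) (l : Word) (x : Amb) :
    rsW w (l ++ v) x = path v l (rsW w v x) := by
  induction l with
  | nil => rfl
  | cons i l ih =>
    have h1 : Word.le (l ++ v) w := htr (wle_of_suffix (List.suffix_append l v)) h
    have h2 : i :: (l ++ v) ≠ w := by
      intro he
      have h3 : Word.le w v := by
        rw [← he]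
        exact wle_of_suffix ((List.suffix_append l v).trans (List.suffix_cons i _))
      have h4 := han h h3
      have := congrArg List.length he
      rw [← h4] at this
      simp only [List.length_cons, List.length_append] at this
      omega
    rw [List.cons_append, rsW_cons h2 h1, ih, path_cons]

lemma rsW_rsW {w'' w' w : Word} (h1 : Word.le w'' w') (h2 : Word.le w' w) (x : Amb) :
    rsW w' w'' (rsW w w' x) = rsW w w'' x := by
  induction w'' with
  | nil =>
    have : w' = [] := by
      rcases h1 with h | ⟨u, hu, h⟩
      · exact List.suffix_nil.1 h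
      · simp at h
    subst this
    rw [rsW_self]
  | cons i v ih =>
    by_cases e1 : i :: v = w'
    · subst e1
      rw [rsW_self]
    have e2 : i :: v ≠ w := by
      intro h
      rw [h] at h1
      exact e1 (h.trans (han h1 h2))
    by_cases c1 : Word.le v w'
    · rw [rsW_cons e1 c1, rsW_cons e2 (htr c1 h2), ih c1]
    · obtain ⟨hiY, hv⟩ := wle_cases h1 e1 c1
      subst hiY
      rw [rsW_jump e1 c1 hv]
      obtain ⟨l, j, hj, hl, hw'⟩ := at_proper hv
      by_cases c2 : Word.le v w
      · rw [rsW_cons e2 c2]
        have e3 : w' = (l ++ [j]) ++ v := by simp [hw']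
        have e4 : rsW w w' x = path v (l ++ [j]) (rsW w v x) := by
          rw [e3]
          exact rsW_append htr han c2 _ x
        rw [e4, path_append]
        have e5 : path v [j] (rsW w v x) = step j v (rsW w v x) := rfl
        rw [e5, hw']
        exact jump_new hj (hw' ▸ hv) _
      · obtain ⟨-, hvw⟩ := wle_cases (htr h1 h2) e2 c2
        rw [rsW_jump e2 c2 hvw]
        have hsuf : w <:+ w' := by
          rcases h2 with h | ⟨u, hu, h⟩
          · exact h
          · exfalso
            rw [hw'] at h
            exact c2 (Or.inr ⟨u, hu, suffix_of_Y hj hl h⟩)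
        obtain ⟨l', rfl⟩ := hsuf
        rw [rsW_append htr han (wle_of_suffix (List.suffix_refl w)) l' x, rsW_self]
        exact jump_path hvw hv x

end Functor

end MP40506.CX.Sheaf
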