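import Pool.Agent.Work.MP_40506d_al.CX.DObj

/-!
# The trivial shift
-/

open CategoryTheory CategoryTheory.Limits CategoryTheory.MonoidalCategory

universe v u v' u'

namespace MP40506.CX

/-- the identity functors as a shift -/
def trivShift (C : Type u) [Category.{v} C] : ShiftMkCore C ℤ where
  F _ := 𝟭 C
  zero := Iso.refl _
  add _ _ := Iso.refl _
  assoc_hom_app _ _ _ _ := by simp
  zero_add_hom_app _ _ := by simp
  add_zero_hom_app _ _ := by simp

namespace KC

variable {A : Type u} [Category.{v} A] [Preadditive A] {B : Type u'} [Category.{v'} B]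
  [Preadditive B]

instance : HasShift (KC A) ℤ := hasShiftMk _ _ (trivShift (KC A))

@[simp] lemma shift_obj (n : ℤ) (X : KC A) : (shiftFunctor (KC A) n).obj X = X := rfl

@[simp] lemma shift_map (n : ℤ) {X Y : KC A} (f : X ⟶ Y) :
    (shiftFunctor (KC A) n).map f = f := rfl

instance (n : ℤ) : (shiftFunctor (KC A) n).Additive where
  map_add := rfl

/-- the commutation isomorphism -/
def trivIso (F : KC A ⥤ KC B) (n : ℤ) :
    shiftFunctor (KC A) n ⋙ F ≅ F ⋙ shiftFunctor (KC B) n := Iso.refl F

lemma trivIso_hom_app (F : KC A ⥤ KC B) (n : ℤ) (X : KC A) :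
    (trivIso F n).hom.app X = 𝟙 (F.obj X) := rfl

/-- every functor between categories with the trivial shift commutes with it -/
instance commShift (F : KC A ⥤ KC B) : F.CommShift ℤ where
  commShiftIso n := trivIso F n
  commShiftIso_zero := by
    ext X
    refine Eq.trans ?_ (Functor.CommShift.isoZero_hom_app F ℤ X).symm
    show 𝟙 (F.obj X) = F.map (𝟙 X) ≫ 𝟙 (F.obj X)
    rw [Category.comp_id, CategoryTheory.Functor.map_id]
  commShiftIso_add a b := by
    ext X
    refine Eq.trans ?_ (Functor.CommShift.isoAdd_hom_app (trivIso F a) (trivIso F b) X).symm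
    show 𝟙 (F.obj X) = F.map (𝟙 X) ≫ 𝟙 (F.obj X) ≫ 𝟙 (F.obj X) ≫ 𝟙 (F.obj X)
    rw [Category.comp_id, Category.comp_id, Category.comp_id, CategoryTheory.Functor.map_id]

lemma commShiftIso_hom_app (F : KC A ⥤ KC B) (n : ℤ) (X : KC A) :
    (F.commShiftIso n).hom.app X = 𝟙 (F.obj X) := rfl

end KC

end MP40506.CX
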