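import Pool.Agent.Work.MP_40506d_al.CX.Dual2
import Pool.Agent.Work.MP_40506d_al.CX.Sub
import Pool.Agent.Work.MP_40506d_al.CX.Coprod
import Pool.Agent.Work.MP_40506d_al.Geom

/-!
# The category `TT G M`: the localizing subcategory generated by the finite objects with a rank
function, equivalently by the free modules of rank one
-/

open CategoryTheory CategoryTheory.Limits CategoryTheory.MonoidalCategory
  CategoryTheory.Pretriangulated

set_option linter.unusedSectionVars false

namespace MP40506.CX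

noncomputable section

variable {G : Type} [AddCommGroup G] {M : AddSubmonoid G}

/-- the free module of rank one with a generator of degree `g` -/
def fr1 (g : G) : Fr G M := ⟨Unit, fun _ => g⟩

/-- the same with zero differential -/
@[simps] def k1 (g : G) : DObj (Fr G M) where
  X := fr1 g
  d := 0
  dd := comp_zero

/-- the degree-preserving map `k1 (g + u) ⟶ k1 g`, multiplication by the element of degree `u` -/
def mul {g g' : G} (h : g - g' ∈ M) : (fr1 g : Fr G M) ⟶ fr1 g' where
  f := LinearMap.id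
  gr := fun _ _ _ => h

/-- the same in `DObj` -/
def dmul {g g' : G} (h : g - g' ∈ M) : (k1 g : DObj (Fr G M)) ⟶ k1 g' where
  f := mul h
  comm := by
    show (0 : (fr1 g : Fr G M) ⟶ fr1 g) ≫ mul h = mul h ≫ (0 : (fr1 g' : Fr G M) ⟶ fr1 g')
    rw [zero_comp, comp_zero]

/-- `χ u : k(u) ⟶ k(0)` in the homotopy category -/
def χ (u : G) (hu : u ∈ M) : (⟨k1 u⟩ : KC (Fr G M)) ⟶ ⟨k1 0⟩ :=
  KC.q (dmul (by simpa using hu))

/-- the underlying module of the Koszul object -/
def kzX (M : AddSubmonoid G) (h : G) : Fr G M := ⟨Bool, fun b => if b then h else 0⟩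

/-- the differential of the Koszul object: `e_true ↦ e_false` -/
def kzd (h : G) (hh : h ∈ M) : kzX M h ⟶ kzX M h where
  f := Finsupp.linearCombination (ZMod 2) (fun b : Bool =>
    if b then Finsupp.single false (1 : ZMod 2) else 0)
  gr := by
    intro i j hij
    cases i
    · refine absurd ?_ hij
      show (Finsupp.linearCombination (ZMod 2) (fun b : Bool =>
        if b then Finsupp.single false (1 : ZMod 2) else 0)) (Finsupp.single false 1) j = 0
      rw [Finsupp.linearCombination_single]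
      rfl
    · cases j
      · show h - 0 ∈ M
        rw [sub_zero]
        exact hh
      · refine absurd ?_ hij
        show (Finsupp.linearCombination (ZMod 2) (fun b : Bool =>
          if b then Finsupp.single false (1 : ZMod 2) else 0)) (Finsupp.single true 1) true = 0
        rw [Finsupp.linearCombination_single]
        simp

lemma kzd_aux (b : Bool) : (Finsupp.linearCombination (ZMod 2) (fun b : Bool =>
    if b then Finsupp.single false (1 : ZMod 2) else 0)) ((Finsupp.linearCombination (ZMod 2)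
      (fun b : Bool => if b then Finsupp.single false (1 : ZMod 2) else 0))
        (Finsupp.single b 1)) = 0 := by
  rw [Finsupp.linearCombination_single, one_smul]
  cases b
  · exact map_zero _
  · exact (Finsupp.linearCombination_single _ _ _).trans (smul_zero _)

/-- the Koszul object: the cone of `χ h` -/
def kz (h : G) (hh : h ∈ M) : DObj (Fr G M) where
  X := kzX M h
  d := kzd h hh
  dd := by
    apply Fr.hom_ext
    apply Finsupp.lhom_ext'
    intro i
    apply LinearMap.ext_ring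
    exact kzd_aux i

/-! ### The induction on finite objects -/

/-- the induction on the number of generators -/
theorem finRk_induct (Q : ObjectProperty (KC (Fr G M))) (hz : ∀ X, IsZero X → Q X)
    (he : ∀ Δ : Triangle (KC (Fr G M)), Δ ∈ distTriang (KC (Fr G M)) →
      Q Δ.obj₁ → Q Δ.obj₃ → Q Δ.obj₂)
    (hk : ∀ g, Q ⟨k1 g⟩) (w : DObj (Fr G M)) (hw : FinRk w) : Q ⟨w⟩ := by
  induction hn : Nat.card w.X.I using Nat.strong_induction_on generalizing w with
  | _ n ih =>
    rcases isEmpty_or_nonempty w.X.I with h | h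
    · exact hz _ (isZero_of_isEmpty w)
    · obtain ⟨g, P', φ, h1, h2, ⟨D⟩⟩ := exists_cone_rk1 w hw
      exact he _ (rot_of_distTriang _ (tri_mem D)) (hk g) (ih _ (hn ▸ h2) P' h1 rfl)

/-! ### Finite objects are compact -/

namespace Fr

variable {J : Type}

open Classical in
/-- the projections of a coproduct -/
def sigπ (Y : J → Fr G M) (j : J) : sig Y ⟶ Y j :=
  sigDesc Y (fun k => if h : k = j then eqToHom (congrArg Y h) else 0)

lemma sigι_sigπ_self (Y : J → Fr G M) (j : J) : sigι Y j ≫ sigπ Y j = 𝟙 (Y j) := by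
  rw [sigπ, sigι_sigDesc, dif_pos rfl]
  rfl

lemma sigι_sigπ_ne (Y : J → Fr G M) {j k : J} (h : k ≠ j) : sigι Y k ≫ sigπ Y j = 0 := by
  rw [sigπ, sigι_sigDesc, dif_neg h]

lemma sigι_sum (Y : J → Fr G M) (s : Finset J) {k : J} (hk : k ∈ s) :
    sigι Y k ≫ ∑ j ∈ s, sigπ Y j ≫ sigι Y j = sigι Y k := by
  classical
  rw [Preadditive.comp_sum, Finset.sum_eq_single k]
  · rw [← Category.assoc, sigι_sigπ_self, Category.id_comp]
  · intro j _ hj
    rw [← Category.assoc, sigι_sigπ_ne Y (Ne.symm hj), zero_comp]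
  · intro h
    exact absurd hk h

lemma exists_fin_sig {X : Fr G M} [Finite X.I] (Y : J → Fr G M) (f : X ⟶ sig Y) :
    ∃ s : Finset J, f = ∑ j ∈ s, (f ≫ sigπ Y j) ≫ sigι Y j := by
  classical
  have := Fintype.ofFinite X.I
  let s : Finset J := Finset.univ.biUnion fun i : X.I =>
    (f.f (Finsupp.single i 1)).support.image (fun p : (sig Y).I => p.1)
  refine ⟨s, ?_⟩
  have h1 : ∑ j ∈ s, (f ≫ sigπ Y j) ≫ sigι Y j = f ≫ ∑ j ∈ s, sigπ Y j ≫ sigι Y j := by
    rw [Preadditive.comp_sum]
    exact Finset.sum_congr rfl fun j _ => Category.assoc _ _ _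
  rw [h1]
  apply hom_ext
  apply Finsupp.lhom_ext'
  intro i
  apply LinearMap.ext_ring
  show f.f (Finsupp.single i 1) =
    (∑ j ∈ s, sigπ Y j ≫ sigι Y j).f (f.f (Finsupp.single i 1))
  have h2 : ∀ p ∈ (f.f (Finsupp.single i 1)).support,
      (∑ j ∈ s, sigπ Y j ≫ sigι Y j).f (Finsupp.single p 1) = Finsupp.single p 1 := by
    rintro ⟨k, b⟩ hp
    have hk : k ∈ s := Finset.mem_biUnion.2 ⟨i, Finset.mem_univ _,
      Finset.mem_image.2 ⟨⟨k, b⟩, hp, rfl⟩⟩
    have h3 : (sigι Y k ≫ ∑ j ∈ s, sigπ Y j ≫ sigι Y j).f (Finsupp.single b 1) =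
        (sigι Y k).f (Finsupp.single b 1) := by rw [sigι_sum Y s hk]
    have h4 : (sigι Y k).f (Finsupp.single b 1) =
        Finsupp.single (⟨k, b⟩ : Σ j, (Y j).I) 1 := sigι_single Y k b
    have h5 : (∑ j ∈ s, sigπ Y j ≫ sigι Y j).f ((sigι Y k).f (Finsupp.single b 1)) =
        (sigι Y k).f (Finsupp.single b 1) := h3
    rw [h4] at h5
    exact h5
  generalize hv : f.f (Finsupp.single i 1) = v at h2
  generalize (∑ j ∈ s, sigπ Y j ≫ sigι Y j).f = θ at h2
  symm
  have h6 : v = v.sum (fun p c => c • Finsupp.single p (1 : ZMod 2)) := by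
    conv_lhs => rw [← Finsupp.sum_single v]
    exact Finsupp.sum_congr fun p _ => by simp
  rw [h6, map_finsuppSum]
  refine Finsupp.sum_congr fun p hp => ?_
  rw [map_smul, h2 p hp]

/-- finite free modules are compact -/
lemma exists_fin {X : Fr G M} [Finite X.I] (Y : J → Fr G M) (f : X ⟶ ∐ Y) :
    ∃ (s : Finset J) (g : ∀ j, X ⟶ Y j), f = ∑ j ∈ s, g j ≫ Limits.Sigma.ι Y j := by
  let e : ∐ Y ≅ sig Y := (coproductIsCoproduct Y).coconePointUniqueUpToIso (sigIsColimit Y)
  have he : ∀ j, Limits.Sigma.ι Y j ≫ e.hom = sigι Y j := fun j =>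
    IsColimit.comp_coconePointUniqueUpToIso_hom (coproductIsCoproduct Y) (sigIsColimit Y) ⟨j⟩
  obtain ⟨s, hs⟩ := exists_fin_sig Y (f ≫ e.hom)
  refine ⟨s, fun j => (f ≫ e.hom) ≫ sigπ Y j, ?_⟩
  rw [← cancel_mono e.hom]
  refine hs.trans ?_
  rw [Preadditive.sum_comp]
  refine Finset.sum_congr rfl fun j _ => ?_
  rw [Category.assoc _ (Limits.Sigma.ι Y j), he]

end Fr

section Cpt

universe v u

variable {A : Type u} [Category.{v} A] [Preadditive A]

lemma DObj.sum_f {P R : DObj A} {J : Type} (s : Finset J) (φ : J → (P ⟶ R)) :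
    (∑ j ∈ s, φ j).f = ∑ j ∈ s, (φ j).f := by
  classical
  induction s using Finset.induction_on with
  | empty => rfl
  | insert a s ha ih =>
    rw [Finset.sum_insert ha, Finset.sum_insert ha, ← ih]
    rfl

lemma KC.sum_q {X Y : KC A} {J : Type} (s : Finset J) (φ : J → (X.out ⟶ Y.out)) :
    (KC.q (∑ j ∈ s, φ j) : X ⟶ Y) = ∑ j ∈ s, KC.q (φ j) := by
  classical
  induction s using Finset.induction_on with
  | empty => rfl
  | insert a s ha ih =>
    rw [Finset.sum_insert ha, Finset.sum_insert ha, ← ih]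
    rfl

open Classical in
lemma DObj.exists_fin_aux [HasCoproducts.{0} A] {J : Type} (P : J → DObj A) {K : A}
    (f : K ⟶ ∐ fun j => (P j).X) (h0 : f ≫ Limits.Sigma.map (fun j => (P j).d) = 0)
    (s : Finset J) (c : ∀ j, K ⟶ (P j).X)
    (hc : f = ∑ j ∈ s, c j ≫ Limits.Sigma.ι (fun j => (P j).X) j) :
    ∃ c' : ∀ j, K ⟶ (P j).X, (∀ j, c' j ≫ (P j).d = 0) ∧
      f = ∑ j ∈ s, c' j ≫ Limits.Sigma.ι (fun j => (P j).X) j := by
  refine ⟨fun j => f ≫ Limits.Sigma.π (fun j => (P j).X) j, fun j => ?_, ?_⟩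
  · have h2 : Limits.Sigma.π (fun j => (P j).X) j ≫ (P j).d =
        Limits.Sigma.map (fun j => (P j).d) ≫ Limits.Sigma.π (fun j => (P j).X) j := by
      refine Limits.Sigma.hom_ext _ _ fun k => ?_
      rw [Limits.Sigma.ι_map_assoc]
      by_cases h : k = j
      · subst h
        rw [← Category.assoc, Limits.Sigma.ι_π_eq_id (fun j => (P j).X) k, Category.id_comp,
          Category.comp_id]
      · rw [← Category.assoc, Limits.Sigma.ι_π_of_ne (fun j => (P j).X) h, zero_comp, comp_zero]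
    rw [Category.assoc, h2, ← Category.assoc, h0, zero_comp]
  · have h4 : ∀ k ∈ s, f ≫ Limits.Sigma.π (fun j => (P j).X) k = c k := by
      intro k hk
      rw [hc, Preadditive.sum_comp, Finset.sum_eq_single k]
      · rw [Category.assoc, Limits.Sigma.ι_π_eq_id, Category.comp_id]
      · intro j _ hj
        rw [Category.assoc, Limits.Sigma.ι_π_of_ne _ hj, comp_zero]
      · intro h
        exact absurd hk h
    refine hc.trans ?_
    exact Finset.sum_congr rfl fun k hk =>
      congrArg (· ≫ Limits.Sigma.ι (fun j => (P j).X) k) (h4 k hk).symm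

end Cpt

lemma isCpt_k1 (g : G) : IsCpt (⟨k1 g⟩ : KC (Fr G M)) := by
  classical
  intro J Y f
  let P := fun j => (Y j).out
  let e : ∐ Y ≅ (⟨DObj.sig P⟩ : KC (Fr G M)) :=
    (coproductIsCoproduct Y).coconePointUniqueUpToIso (KC.sigIsColimit P)
  have he : ∀ j, Limits.Sigma.ι Y j ≫ e.hom =
      (KC.q (DObj.sigι P j) : Y j ⟶ (⟨DObj.sig P⟩ : KC (Fr G M))) := fun j =>
    IsColimit.comp_coconePointUniqueUpToIso_hom (coproductIsCoproduct Y) (KC.sigIsColimit P) ⟨j⟩
  obtain ⟨φ, hφ⟩ := KC.exists_q (f ≫ e.hom)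
  have : Finite (k1 g : DObj (Fr G M)).X.I := show Finite Unit from inferInstance
  obtain ⟨s, c, hc⟩ := Fr.exists_fin (fun j => (P j).X) φ.f
  obtain ⟨c₁, h1, h2⟩ := DObj.exists_fin_aux P φ.f (by
    refine (φ.comm.symm.trans ?_)
    exact (zero_comp : (0 : (fr1 g : Fr G M) ⟶ fr1 g) ≫ φ.f = 0)) s c hc
  let c' : ∀ j, (k1 g : DObj (Fr G M)) ⟶ P j := fun j =>
    { f := c₁ j
      comm := (zero_comp : (0 : (fr1 g : Fr G M) ⟶ fr1 g) ≫ c₁ j = 0).trans (h1 j).symm }
  have h3 : φ = ∑ j ∈ s, c' j ≫ DObj.sigι P j := by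
    apply DObj.hom_ext
    exact h2.trans (DObj.sum_f s (fun j => c' j ≫ DObj.sigι P j)).symm
  refine ⟨s, fun j => KC.q (c' j), ?_⟩
  rw [← cancel_mono e.hom, ← hφ, h3]
  refine (KC.sum_q s (fun j => c' j ≫ DObj.sigι P j)).trans ?_
  rw [Preadditive.sum_comp]
  refine Finset.sum_congr rfl fun j _ => ?_
  rw [Category.assoc, he]
  rfl

lemma finRk_k1 (g : G) : FinRk (k1 g : DObj (Fr G M)) :=
  finRk_of_zero (show Finite Unit from inferInstance) rfl

lemma finRk_kz (h : G) (hh : h ∈ M) : FinRk (kz h hh) := by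
  refine ⟨show Finite Bool from inferInstance, fun b : Bool => if b then 1 else 0, ?_⟩
  intro i j hij
  cases i
  · refine absurd ?_ hij
    show (Finsupp.linearCombination (ZMod 2) (fun b : Bool =>
      if b then Finsupp.single false (1 : ZMod 2) else 0)) (Finsupp.single false 1) j = 0
    rw [Finsupp.linearCombination_single]
    rfl
  · cases j
    · exact Nat.zero_lt_one
    · refine absurd ?_ hij
      show (Finsupp.linearCombination (ZMod 2) (fun b : Bool =>
        if b then Finsupp.single false (1 : ZMod 2) else 0)) (Finsupp.single true 1) true = 0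
      rw [Finsupp.linearCombination_single]
      simp

/-- finite objects are compact -/
lemma isCpt_of_finRk' (w : DObj (Fr G M)) (hw : FinRk w) : IsCpt (⟨w⟩ : KC (Fr G M)) :=
  finRk_induct IsCpt (fun _ h => isCpt_of_isZero h) (fun Δ h h1 h3 => IsCpt.ext₂ Δ h h1 h3)
    isCpt_k1 w hw

/-! ### The class of finite objects and the category `TT G M` -/

variable (G M) in
/-- the class of objects isomorphic to a finite object with a rank function -/
def FinC : ObjectProperty (KC (Fr G M)) :=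
  fun c => ∃ w : DObj (Fr G M), FinRk w ∧ Nonempty (c ≅ ⟨w⟩)

instance : TTC (KC (Fr G M)) where

instance : RigidGen (FinC G M) where
  small := ⟨FinIdx G M, finIdxObj, fun c hc => finObj_small c hc⟩
  cpt := fun _ ⟨w, hw, ⟨e⟩⟩ => (isCpt_of_finRk' w hw).of_iso e
  unit := finObj_unit
  zero := fun c hc => finObj_zero c hc
  shift := fun c n hc => finObj_shift c n hc
  ext₂ := fun Δ hΔ h1 h3 => finObj_ext₂ Δ hΔ h1 h3
  tensor := fun c d hc hd => finObj_tensor c d hc hd
  dual := fun c hc => finObj_dual c hc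

/-- the tensor triangulated category attached to `(G, M)` -/
abbrev TT (G : Type) [AddCommGroup G] (M : AddSubmonoid G) : Type 1 := LocCat (FinC G M)

example : Category.{0} (TT G M) := inferInstance
example : Preadditive (TT G M) := inferInstance
example : HasShift (TT G M) ℤ := inferInstance
example : ∀ n : ℤ, (shiftFunctor (TT G M) n).Additive := inferInstance
example : Pretriangulated (TT G M) := inferInstance
example : IsTriangulated (TT G M) := inferInstance
example : HasZeroObject (TT G M) := inferInstance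
example : MonoidalCategory (TT G M) := inferInstance
example : SymmetricCategory (TT G M) := inferInstance
example : MonoidalPreadditive (TT G M) := inferInstance
example : HasCoproducts.{0} (TT G M) := inferInstance
example : RCG (TT G M) := inferInstance

/-- every object of `TT G M` lies in every localizing subcategory containing the `k1 g` -/
lemma locP_le (X : TT G M) (P : ObjectProperty (KC (Fr G M))) (hP : IsLocalizing P)
    (h : ∀ g, P ⟨k1 g⟩) : P X.obj :=
  X.2 P hP (fun _ ⟨w, hw, ⟨e⟩⟩ => hP.of_iso e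
    (finRk_induct P (fun _ hX => hP.of_isZero hX) hP.ext₂ h w hw))

lemma locP_of_finRk {w : DObj (Fr G M)} (hw : FinRk w) : locSub (FinC G M) ⟨w⟩ :=
  subset_locSub _ _ ⟨w, hw, ⟨Iso.refl _⟩⟩

/-- the objects of rank one, in `TT G M` -/
def tk (g : G) : TT G M := ⟨⟨k1 g⟩, locP_of_finRk (finRk_k1 g)⟩

/-- multiplication `k(g) ⟶ k(g')`, `g - g' ∈ M` -/
def tmul {g g' : G} (h : g - g' ∈ M) : (tk g : TT G M) ⟶ tk g' :=
  ObjectProperty.homMk (KC.q (dmul h))

/-- the Koszul object, in `TT G M` -/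
def tkz (h : G) (hM : h ∈ M) : TT G M := ⟨⟨kz h hM⟩, locP_of_finRk (finRk_kz h hM)⟩

lemma isCpt_of_finRk {X : TT G M} (hX : FinC G M X.obj) : IsCpt X :=
  isCpt_of_obj (RigidGen.cpt _ hX)

lemma isCpt_tk (g : G) : IsCpt (tk g : TT G M) :=
  isCpt_of_finRk ⟨k1 g, finRk_k1 g, ⟨Iso.refl _⟩⟩

lemma isCpt_tkz (h : G) (hM : h ∈ M) : IsCpt (tkz h hM : TT G M) :=
  isCpt_of_finRk ⟨kz h hM, finRk_kz h hM, ⟨Iso.refl _⟩⟩

/-- compact objects are retracts of finite ones -/
lemma exists_finRk_retract (c : TT G M) (hc : IsCpt c) : ∃ w : DObj (Fr G M),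
    FinRk w ∧ ∃ (i : c.obj ⟶ (⟨w⟩ : KC (Fr G M))) (r : (⟨w⟩ : KC (Fr G M)) ⟶ c.obj),
      i ≫ r = 𝟙 c.obj := by
  obtain ⟨d, ⟨w, hw, ⟨e⟩⟩, i, r, hir⟩ := exists_retract_locCat (FinC G M) hc
  refine ⟨w, hw, i.hom ≫ e.hom, e.inv ≫ r.hom, ?_⟩
  have h1 : i.hom ≫ r.hom = 𝟙 c.obj := congrArg (locSub (FinC G M)).ι.map hir
  rw [Category.assoc, e.hom_inv_id_assoc, h1]

/-- compact objects are retracts of finite ones -/
lemma exists_finite_retract (c : TT G M) (hc : IsCpt c) : ∃ w : DObj (Fr G M),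
    Finite w.X.I ∧ ∃ (i : c.obj ⟶ (⟨w⟩ : KC (Fr G M))) (r : (⟨w⟩ : KC (Fr G M)) ⟶ c.obj),
      i ≫ r = 𝟙 c.obj := by
  obtain ⟨w, hw, h⟩ := exists_finRk_retract c hc
  exact ⟨w, hw.1, h⟩

end

end MP40506.CX
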