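import Pool.Agent.Work.MP_40506d_al.CX.TDef
import Pool.Agent.Work.MP_40506d_al.CX.AbsKill

/-!
# The objects of rank one and the Koszul objects of `TT G M`: basic facts
-/

open CategoryTheory CategoryTheory.Limits CategoryTheory.MonoidalCategory
  CategoryTheory.Pretriangulated

set_option linter.unusedSectionVars false

namespace MP40506.CX

noncomputable section

variable {G : Type} [AddCommGroup G] {M : AddSubmonoid G}

namespace Fr

lemma ent_comp_finX {I J K : Type} [Fintype J] (f : (I →₀ ZMod 2) →ₗ[ZMod 2] (J →₀ ZMod 2))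
    (g : (J →₀ ZMod 2) →ₗ[ZMod 2] (K →₀ ZMod 2)) (i : I) (l : K) :
    ent (g ∘ₗ f) i l = ∑ j, ent f i j * ent g j l := by
  rw [ent_comp]
  exact Finsupp.sum_fintype _ _ (fun j => zero_mul _)

lemma ent_linComb {I J : Type} (v : I → (J →₀ ZMod 2)) (i : I) (j : J) :
    ent (Finsupp.linearCombination (ZMod 2) v) i j = v i j := by
  simp [ent]

lemma ent_idf {I : Type} [DecidableEq I] (i j : I) :
    ent (LinearMap.id : (I →₀ ZMod 2) →ₗ[ZMod 2] (I →₀ ZMod 2)) i j = if i = j then 1 else 0 := by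
  simp [ent, Finsupp.single_apply]

lemma isoOfEquiv_apply {X Y : Fr G M} (e : X.I ≃ Y.I) (h : ∀ i, Y.deg (e i) = X.deg i)
    (i : X.I) : (isoOfEquiv e h).hom.f (Finsupp.single i 1) = Finsupp.single (e i) 1 := by
  rw [isoOfEquiv_hom_f]
  simp

lemma ent_isoOfEquiv_comp {X Y Z : Fr G M} (e : X.I ≃ Y.I) (h : ∀ i, Y.deg (e i) = X.deg i)
    (φ : Y ⟶ Z) (i : X.I) (j : Z.I) :
    ent ((isoOfEquiv e h).hom ≫ φ).f i j = ent φ.f (e i) j := by
  show φ.f ((isoOfEquiv e h).hom.f (Finsupp.single i 1)) j = _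
  rw [isoOfEquiv_apply]
  rfl

lemma ent_comp_isoOfEquiv {X Y Z : Fr G M} (e : X.I ≃ Y.I) (h : ∀ i, Y.deg (e i) = X.deg i)
    (φ : Z ⟶ X) (i : Z.I) (j : Y.I) :
    ent (φ ≫ (isoOfEquiv e h).hom).f i j = ent φ.f i (e.symm j) := by
  show (isoOfEquiv e h).hom.f (φ.f (Finsupp.single i 1)) j = _
  rw [isoOfEquiv_hom_f]
  simp [ent]

lemma ent_smul {I J : Type} (c : ZMod 2) (f : (I →₀ ZMod 2) →ₗ[ZMod 2] (J →₀ ZMod 2)) (i : I)
    (j : J) : ent (c • f) i j = c * ent f i j := by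
  simp [ent]

/-- the morphism with a given matrix, finite target -/
def ofMat {X Y : Fr G M} [Finite Y.I] (m : X.I → Y.I → ZMod 2)
    (gr : ∀ i j, m i j ≠ 0 → X.deg i - Y.deg j ∈ M) : X ⟶ Y where
  f := Finsupp.linearCombination (ZMod 2) fun i => Finsupp.equivFunOnFinite.symm (m i)
  gr := by
    intro i j h
    apply gr i j
    intro h'
    apply h
    show ent (Finsupp.linearCombination (ZMod 2) _) i j = 0
    rw [ent_linComb]
    exact h'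

lemma ent_ofMat {X Y : Fr G M} [Finite Y.I] (m : X.I → Y.I → ZMod 2)
    (gr : ∀ i j, m i j ≠ 0 → X.deg i - Y.deg j ∈ M) (i : X.I) (j : Y.I) :
    ent (ofMat m gr).f i j = m i j := by
  show ent (Finsupp.linearCombination (ZMod 2) _) i j = _
  rw [ent_linComb]
  rfl

lemma ent_comp' {X Y Z : Fr G M} [Fintype Y.I] (φ : X ⟶ Y) (ψ : Y ⟶ Z) (i : X.I) (j : Z.I) :
    ent (φ ≫ ψ).f i j = ∑ k, ent φ.f i k * ent ψ.f k j :=
  ent_comp_finX φ.f ψ.f i j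

lemma ent_comp_mat {X Y Z : Fr G M} [Fintype Y.I] {φ : X ⟶ Y} {ψ : Y ⟶ Z}
    {m : X.I → Y.I → ZMod 2} {n : Y.I → Z.I → ZMod 2} (hφ : ∀ i j, ent φ.f i j = m i j)
    (hψ : ∀ i j, ent ψ.f i j = n i j) (i : X.I) (j : Z.I) :
    ent (φ ≫ ψ).f i j = ∑ k, m i k * n k j := by
  rw [ent_comp']
  exact Finset.sum_congr rfl fun k _ => congrArg₂ (· * ·) (hφ i k) (hψ k j)

lemma ent_add' {X Y : Fr G M} (φ ψ : X ⟶ Y) (i : X.I) (j : Y.I) :
    ent (φ + ψ).f i j = ent φ.f i j + ent ψ.f i j := ent_add _ _ _ _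

lemma ent_zero' {X Y : Fr G M} (i : X.I) (j : Y.I) : ent (0 : X ⟶ Y).f i j = 0 :=
  ent_zero _ _

lemma ent_idX {X : Fr G M} [DecidableEq X.I] (i j : X.I) :
    ent (𝟙 X : X ⟶ X).f i j = if i = j then 1 else 0 := ent_idf i j

end Fr

/-- `k(u) ⊗ k(a) = k(u + a)`, differential objects -/
def dkMul (u a : G) : (k1 u : DObj (Fr G M)) ⊗ k1 a ≅ k1 (u + a) :=
  DObj.mkIso (Fr.isoOfEquiv (Equiv.punitProd Unit) (fun _ => rfl) :
    (fr1 u : Fr G M) ⊗ fr1 a ≅ fr1 (u + a)) (by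
    show ((0 : (fr1 u : Fr G M) ⟶ fr1 u) ▷ (fr1 a : Fr G M) +
      (fr1 u : Fr G M) ◁ (0 : (fr1 a : Fr G M) ⟶ fr1 a)) ≫ _ =
      _ ≫ (0 : (fr1 (u + a) : Fr G M) ⟶ fr1 (u + a))
    rw [MonoidalPreadditive.zero_whiskerRight, MonoidalPreadditive.whiskerLeft_zero, add_zero,
      zero_comp, comp_zero])

lemma sub_mem_of_mem {u : G} (hu : u ∈ M) (a : G) : a + u - a ∈ M := by simpa using hu

lemma sub_mem_of_mem' {u : G} (hu : u ∈ M) (a : G) : u + a - a ∈ M := by simpa using hu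

lemma sub_zero_mem {u : G} (hu : u ∈ M) : u - 0 ∈ M := by simpa using hu

/-- the unit is `k(0)` -/
lemma unit_eq : 𝟙_ (DObj (Fr G M)) = k1 0 := rfl

/-- `χ u ⊗ k(a)` is the multiplication `k(u + a) ⟶ k(a)` -/
lemma dmul_whiskerRight (u : G) (hu : u ∈ M) (a : G) :
    (dmul (sub_zero_mem hu) : (k1 u : DObj (Fr G M)) ⟶ 𝟙_ (DObj (Fr G M))) ▷ k1 a ≫
      (λ_ (k1 a)).hom = (dkMul u a).hom ≫ dmul (sub_mem_of_mem' hu a) := by
  apply DObj.hom_ext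
  apply Fr.hom_ext'
  rintro ⟨i, i'⟩ j
  refine (Fr.ent_comp_isoOfEquiv _ (fun p => (zero_add _).symm)
    (Fr.tens (mul (sub_zero_mem hu)) (𝟙 (fr1 a))) _ _).trans ?_
  refine Eq.trans ?_ (Fr.ent_isoOfEquiv_comp _ (fun _ => rfl)
    (mul (sub_mem_of_mem' hu a)) _ _).symm
  refine (Fr.ent_tens _ _ _ _).trans ?_
  show Fr.ent LinearMap.id _ _ * Fr.ent LinearMap.id _ _ = Fr.ent LinearMap.id _ _
  have h1 : ∀ x y : Unit, Fr.ent (LinearMap.id : (Unit →₀ ZMod 2) →ₗ[ZMod 2] (Unit →₀ ZMod 2))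
      x y = 1 := fun x y => by rw [Fr.ent_idf]; simp
  exact (congrArg₂ (· * ·) (h1 _ _) (h1 _ _)).trans ((mul_one _).trans (h1 _ _).symm)

instance (h : G) : Fintype (kzX M h).I := inferInstanceAs (Fintype Bool)
instance (h : G) : DecidableEq (kzX M h).I := inferInstanceAs (DecidableEq Bool)
instance (h : G) : Fintype (fr1 h : Fr G M).I := inferInstanceAs (Fintype Unit)
instance (h : G) : DecidableEq (fr1 h : Fr G M).I := inferInstanceAs (DecidableEq Unit)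
instance (h : G) : Unique (fr1 h : Fr G M).I := inferInstanceAs (Unique Unit)

lemma ent_mul {g g' : G} (h : g - g' ∈ M) (i j) :
    Fr.ent (mul h : (fr1 g : Fr G M) ⟶ fr1 g').f i j = 1 :=
  (Fr.ent_idf (I := Unit) i j).trans (if_pos (Subsingleton.elim (α := Unit) _ _))

/-- the matrix of the differential -/
def mD (i j : Bool) : ZMod 2 := bif i then (bif j then 0 else 1) else 0

lemma true_ne_false' : true ≠ false := by decide

lemma ent_kzd (h : G) (hh : h ∈ M) (i j : Bool) :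
    Fr.ent (kzd h hh).f i j = mD i j := by
  refine (Fr.ent_linComb _ _ _).trans ?_
  cases i <;> cases j
  · rfl
  · rfl
  · exact Finsupp.single_eq_same
  · exact Finsupp.single_eq_of_ne true_ne_false'

lemma sum_kz {R : Type} [AddCommMonoid R] (h : G) (f : (kzX M h).I → R) :
    ∑ k, f k = f true + f false := Fintype.sum_bool f

lemma sum_fr1 {R : Type} [AddCommMonoid R] (h : G) (f : (fr1 h : Fr G M).I → R) :
    ∑ k, f k = f () := Fintype.sum_unique f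

/-- the matrix of the inclusion -/
def mInl (_ : Unit) (b : Bool) : ZMod 2 := bif b then 0 else 1
/-- the matrix of the section -/
def mS (_ : Unit) (b : Bool) : ZMod 2 := bif b then 1 else 0

/-- inclusion -/
def kzInl (h : G) : (fr1 0 : Fr G M) ⟶ kzX M h :=
  Fr.ofMat (X := fr1 0) (Y := kzX M h) (fun i j => mInl i j) (by
    intro i j hj
    cases j
    · show (0 : G) - 0 ∈ M
      simp [M.zero_mem]
    · exact absurd rfl hj)

/-- projection -/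
def kzPr (h : G) : kzX M h ⟶ (fr1 h : Fr G M) :=
  Fr.ofMat (X := kzX M h) (Y := fr1 h) (fun i j => mS j i) (by
    intro i j hj
    cases i
    · exact absurd rfl hj
    · show h - h ∈ M
      simp [M.zero_mem])

/-- section -/
def kzS (h : G) : (fr1 h : Fr G M) ⟶ kzX M h :=
  Fr.ofMat (X := fr1 h) (Y := kzX M h) (fun i j => mS i j) (by
    intro i j hj
    cases j
    · exact absurd rfl hj
    · show h - h ∈ M
      simp [M.zero_mem])

/-- retraction -/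
def kzR (h : G) : kzX M h ⟶ (fr1 0 : Fr G M) :=
  Fr.ofMat (X := kzX M h) (Y := fr1 0) (fun i j => mInl j i) (by
    intro i j hj
    cases i
    · show (0 : G) - 0 ∈ M
      simp [M.zero_mem]
    · exact absurd rfl hj)

lemma ent_kzInl (h : G) (i : Unit) (j : Bool) :
    Fr.ent (kzInl h : (fr1 0 : Fr G M) ⟶ kzX M h).f i j = mInl i j := Fr.ent_ofMat _ _ _ _

lemma ent_kzPr (h : G) (i : Bool) (j : Unit) :
    Fr.ent (kzPr h : kzX M h ⟶ (fr1 h : Fr G M)).f i j = mS j i := Fr.ent_ofMat _ _ _ _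

lemma ent_kzS (h : G) (i : Unit) (j : Bool) :
    Fr.ent (kzS h : (fr1 h : Fr G M) ⟶ kzX M h).f i j = mS i j := Fr.ent_ofMat _ _ _ _

lemma ent_kzR (h : G) (i : Bool) (j : Unit) :
    Fr.ent (kzR h : kzX M h ⟶ (fr1 0 : Fr G M)).f i j = mInl j i := Fr.ent_ofMat _ _ _ _

lemma kz1 (h : G) (hh : h ∈ M) : (0 : (fr1 0 : Fr G M) ⟶ fr1 0) ≫ kzInl h =
    kzInl h ≫ kzd h hh := by
  rw [zero_comp]
  apply Fr.hom_ext'
  intro i j
  refine (Fr.ent_zero' _ _).trans (Eq.trans ?_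
    (Fr.ent_comp_mat (ent_kzInl h) (ent_kzd h hh) i j).symm)
  exact (by decide : ∀ (i : Unit) (j : Bool), (0 : ZMod 2) = ∑ k : Bool, mInl i k * mD k j) i j

lemma kz2 (h : G) (hh : h ∈ M) : kzd h hh ≫ kzPr h =
    kzPr h ≫ (0 : (fr1 h : Fr G M) ⟶ fr1 h) := by
  rw [comp_zero]
  apply Fr.hom_ext'
  intro i j
  refine (Fr.ent_comp_mat (ent_kzd h hh) (ent_kzPr h) i j).trans (Eq.trans ?_
    (Fr.ent_zero' _ _).symm)
  exact (by decide : ∀ (i : Bool) (j : Unit), ∑ k : Bool, mD i k * mS j k = (0 : ZMod 2)) i j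

lemma kz3 (h : G) : kzInl h ≫ kzPr h = (0 : (fr1 0 : Fr G M) ⟶ fr1 h) := by
  apply Fr.hom_ext'
  intro i j
  refine (Fr.ent_comp_mat (ent_kzInl h) (ent_kzPr h) i j).trans (Eq.trans ?_
    (Fr.ent_zero' _ _).symm)
  exact (by decide : ∀ (i : Unit) (j : Unit), ∑ k : Bool, mInl i k * mS j k = (0 : ZMod 2)) i j

lemma kz4 (h : G) : kzS h ≫ kzPr h = 𝟙 (fr1 h : Fr G M) := by
  apply Fr.hom_ext'
  intro i j
  refine (Fr.ent_comp_mat (ent_kzS h) (ent_kzPr h) i j).trans (Eq.trans ?_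
    (Fr.ent_idX _ _).symm)
  exact (by decide : ∀ (i : Unit) (j : Unit), ∑ k : Bool, mS i k * mS j k =
    (if i = j then 1 else 0 : ZMod 2)) i j

lemma kz5 (h : G) : kzInl h ≫ kzR h = 𝟙 (fr1 0 : Fr G M) := by
  apply Fr.hom_ext'
  intro i j
  refine (Fr.ent_comp_mat (ent_kzInl h) (ent_kzR h) i j).trans (Eq.trans ?_
    (Fr.ent_idX _ _).symm)
  exact (by decide : ∀ (i : Unit) (j : Unit), ∑ k : Bool, mInl i k * mInl j k =
    (if i = j then 1 else 0 : ZMod 2)) i j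

lemma kz6 (h : G) : kzS h ≫ kzR h = (0 : (fr1 h : Fr G M) ⟶ fr1 0) := by
  apply Fr.hom_ext'
  intro i j
  refine (Fr.ent_comp_mat (ent_kzS h) (ent_kzR h) i j).trans (Eq.trans ?_
    (Fr.ent_zero' _ _).symm)
  exact (by decide : ∀ (i : Unit) (j : Unit), ∑ k : Bool, mS i k * mInl j k = (0 : ZMod 2)) i j

lemma kz7 (h : G) : kzPr h ≫ kzS h + kzR h ≫ kzInl h = 𝟙 (kzX M h) := by
  apply Fr.hom_ext'
  intro i j
  refine (Fr.ent_add' _ _ _ _).trans ((congrArg₂ (· + ·)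
    (Fr.ent_comp_mat (X := kzX M h) (Y := fr1 h) (Z := kzX M h) (φ := kzPr h) (ψ := kzS h)
      (m := fun i j => mS j i) (n := fun i j => mS i j) (ent_kzPr h) (ent_kzS h) i j)
    (Fr.ent_comp_mat (X := kzX M h) (Y := fr1 0) (Z := kzX M h) (φ := kzR h) (ψ := kzInl h)
      (m := fun i j => mInl j i) (n := fun i j => mInl i j)
      (ent_kzR h) (ent_kzInl h) i j)).trans (Eq.trans ?_
    (Fr.ent_idX _ _).symm))
  exact (by decide : ∀ (i : Bool) (j : Bool), ∑ k : Unit, mS k i * mS k j +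
    ∑ k : Unit, mInl k i * mInl k j = (if i = j then 1 else 0 : ZMod 2)) i j

lemma kz8 (h : G) (hh : h ∈ M) : (0 : (fr1 h : Fr G M) ⟶ fr1 h) ≫ kzS h + kzS h ≫ kzd h hh =
    mul (sub_zero_mem hh) ≫ kzInl h := by
  rw [zero_comp, zero_add]
  apply Fr.hom_ext'
  intro i j
  refine (Fr.ent_comp_mat (ent_kzS h) (ent_kzd h hh) i j).trans (Eq.trans ?_
    (Fr.ent_comp_mat (X := fr1 h) (Y := fr1 0) (Z := kzX M h) (φ := mul _) (ψ := kzInl h)
      (m := fun _ _ => 1) (n := fun i j => mInl i j) (ent_mul _) (ent_kzInl h) i j).symm)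
  exact (by decide : ∀ (i : Unit) (j : Bool), ∑ k : Bool, mS i k * mD k j =
    ∑ k : Unit, 1 * mInl k j) i j

/-- the Koszul object is the cone of `χ h` -/
def kzCone (h : G) (hh : h ∈ M) :
    ConeData (dmul (sub_zero_mem hh) : (k1 h : DObj (Fr G M)) ⟶ k1 0) (kz h hh) where
  inl := { f := kzInl h, comm := kz1 h hh }
  pr := { f := kzPr h, comm := kz2 h hh }
  s := kzS h
  r := kzR h
  inl_pr := kz3 h
  s_pr := kz4 h
  inl_r := kz5 h
  s_r := kz6 h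
  total := kz7 h
  diff := kz8 h hh

/-- the matrix of the null-homotopy -/
def mT (i j : Bool) : ZMod 2 := bif i then 0 else (bif j then 1 else 0)

instance (X Y : Fr G M) [Fintype X.I] [Fintype Y.I] : Fintype (X ⊗ Y).I :=
  inferInstanceAs (Fintype (X.I × Y.I))

instance (X Y : Fr G M) [DecidableEq X.I] [DecidableEq Y.I] : DecidableEq (X ⊗ Y).I :=
  inferInstanceAs (DecidableEq (X.I × Y.I))

/-- the null-homotopy of `χ h ⊗ K_h` -/
def kzT (h : G) : ((fr1 h : Fr G M) ⊗ kzX M h) ⟶ ((fr1 0 : Fr G M) ⊗ kzX M h) :=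
  Fr.ofMat (X := (fr1 h : Fr G M) ⊗ kzX M h) (Y := (fr1 0 : Fr G M) ⊗ kzX M h)
    (fun i j => mT i.2 j.2) (by
    rintro ⟨i, i'⟩ ⟨j, j'⟩ hj
    cases i' <;> cases j'
    · exact absurd rfl hj
    · show (h + 0) - (0 + h) ∈ M
      simp [M.zero_mem]
    · exact absurd rfl hj
    · exact absurd rfl hj)

lemma ent_kzT (h : G) (i j : Unit × Bool) :
    Fr.ent (kzT (M := M) h).f i j = mT i.2 j.2 := Fr.ent_ofMat _ _ _ _

lemma d_kK (g : G) (P : DObj (Fr G M)) :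
    ((k1 g : DObj (Fr G M)) ⊗ P).d = (fr1 g : Fr G M) ◁ P.d := by
  show (0 : (fr1 g : Fr G M) ⟶ fr1 g) ▷ P.X + (fr1 g : Fr G M) ◁ P.d = _
  rw [MonoidalPreadditive.zero_whiskerRight, zero_add]

/-- the matrix of the differential of `k(h) ⊗ K_h` -/
lemma ent_dKK (g : G) (h : G) (hh : h ∈ M) (i j : Unit × Bool) :
    Fr.ent ((fr1 g : Fr G M) ◁ kzd h hh).f i j = mD i.2 j.2 := by
  refine (Fr.ent_tens (𝟙 (fr1 g : Fr G M)) (kzd h hh) i j).trans ?_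
  have h2 : Fr.ent (𝟙 (fr1 g : Fr G M) : fr1 g ⟶ fr1 g).f i.1 j.1 = 1 :=
    (Fr.ent_idf (I := Unit) _ _).trans (if_pos (Subsingleton.elim (α := Unit) _ _))
  refine (congrArg₂ (· * ·) h2 (ent_kzd h hh i.2 j.2)).trans ?_
  exact one_mul _

lemma chi_kz_htpy (h : G) (hh : h ∈ M) :
    (mul (sub_zero_mem hh) : (fr1 h : Fr G M) ⟶ fr1 0) ▷ kzX M h =
      (fr1 h : Fr G M) ◁ kzd h hh ≫ kzT h + kzT h ≫ (fr1 0 : Fr G M) ◁ kzd h hh := by
  apply Fr.hom_ext'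
  intro i j
  refine Eq.trans ?_ ((Fr.ent_add' _ _ _ _).trans (congrArg₂ (· + ·)
    (Fr.ent_comp_mat (X := (fr1 h : Fr G M) ⊗ kzX M h) (Y := (fr1 h : Fr G M) ⊗ kzX M h)
      (Z := (fr1 0 : Fr G M) ⊗ kzX M h) (m := fun i j => mD i.2 j.2) (n := fun i j => mT i.2 j.2)
      (ent_dKK h h hh) (ent_kzT h) i j)
    (Fr.ent_comp_mat (X := (fr1 h : Fr G M) ⊗ kzX M h) (Y := (fr1 0 : Fr G M) ⊗ kzX M h)
      (Z := (fr1 0 : Fr G M) ⊗ kzX M h) (m := fun i j => mT i.2 j.2) (n := fun i j => mD i.2 j.2)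
      (ent_kzT h) (ent_dKK 0 h hh) i j))).symm
  refine (Fr.ent_tens (mul (sub_zero_mem hh) : (fr1 h : Fr G M) ⟶ fr1 0) (𝟙 (kzX M h)) i j).trans ?_
  refine (congrArg₂ (· * ·) (ent_mul (sub_zero_mem hh) i.1 j.1)
    (Fr.ent_idf (I := Bool) i.2 j.2)).trans ?_
  exact (by decide : ∀ (i j : Unit × Bool), (1 * (if i.2 = j.2 then 1 else 0) : ZMod 2) =
    ∑ k : Unit × Bool, mD i.2 k.2 * mT k.2 j.2 + ∑ k : Unit × Bool, mT i.2 k.2 * mD k.2 j.2) i j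

/-- `χ h ⊗ K_h = 0` -/
lemma chi_kz (h : G) (hh : h ∈ M) : χ h hh ▷ (⟨kz h hh⟩ : KC (Fr G M)) = 0 := by
  refine (KC.whiskerRight_q (⟨kz h hh⟩ : KC (Fr G M)) _).trans ?_
  refine (KC.q_eq_zero_iff _).2 ⟨kzT h, ?_⟩
  refine (chi_kz_htpy h hh).trans ?_
  exact congrArg₂ (· + ·) (congrArg (· ≫ kzT h) (d_kK h (kz h hh)).symm)
    (congrArg (kzT h ≫ ·) (d_kK 0 (kz h hh)).symm)

/-- the triangle `k(h) ⟶ k(0) ⟶ K_h ⟶ k(h)` -/
lemma kz_tri (h : G) (hh : h ∈ M) :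
    Triangle.mk (χ h hh) (KC.q (kzCone h hh).inl : (⟨k1 0⟩ : KC (Fr G M)) ⟶ ⟨kz h hh⟩)
      (KC.q (kzCone h hh).pr : (⟨kz h hh⟩ : KC (Fr G M)) ⟶ ⟨k1 h⟩) ∈
      (distTriang (KC (Fr G M))) :=
  tri_mem (kzCone h hh)

/-- `k(u) ⊗ k(a) = k(u + a)` in the homotopy category -/
def kkMul (u a : G) : (⟨k1 u⟩ : KC (Fr G M)) ⊗ ⟨k1 a⟩ ≅ ⟨k1 (u + a)⟩ :=
  (KC.Q (Fr G M)).mapIso (dkMul u a)

/-- `χ u ⊗ k(a)` is the multiplication `k(u + a) ⟶ k(a)` -/
lemma chi_whiskerRight (u : G) (hu : u ∈ M) (a : G) :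
    χ u hu ▷ (⟨k1 a⟩ : KC (Fr G M)) ≫ (λ_ (⟨k1 a⟩ : KC (Fr G M))).hom = (kkMul u a).hom ≫
      (KC.q (dmul (sub_mem_of_mem' hu a)) : (⟨k1 (u + a)⟩ : KC (Fr G M)) ⟶ ⟨k1 a⟩) := by
  refine (congrArg (· ≫ (λ_ (⟨k1 a⟩ : KC (Fr G M))).hom)
    (KC.whiskerRight_q (⟨k1 a⟩ : KC (Fr G M)) _)).trans ?_
  exact congrArg KC.q (dmul_whiskerRight u hu a)

end

end MP40506.CX
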