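import Pool.Agent.Work.MP_40506d_al.CX.Shift

/-!
# The triangulated structure of `KC A`
-/

open CategoryTheory CategoryTheory.Limits CategoryTheory.MonoidalCategory
  CategoryTheory.Pretriangulated

universe v u v' u'

set_option linter.unusedSectionVars false

namespace MP40506.CX

variable {A : Type u} [Category.{v} A] [Preadditive A]

/-- the data exhibiting `C` as a mapping cone of `φ : P ⟶ R` (characteristic two) -/
structure ConeData {P R : DObj A} (φ : P ⟶ R) (C : DObj A) where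
  inl : R ⟶ C
  pr : C ⟶ P
  s : P.X ⟶ C.X
  r : C.X ⟶ R.X
  inl_pr : inl.f ≫ pr.f = 0
  s_pr : s ≫ pr.f = 𝟙 P.X
  inl_r : inl.f ≫ r = 𝟙 R.X
  s_r : s ≫ r = 0
  total : pr.f ≫ s + r ≫ inl.f = 𝟙 C.X
  diff : P.d ≫ s + s ≫ C.d = φ.f ≫ inl.f

attribute [reassoc (attr := simp)] ConeData.inl_pr ConeData.s_pr ConeData.inl_r ConeData.s_r

section Two

variable [Two A]

lemma eq_iff_add {X Y : A} (f g : X ⟶ Y) : f = g ↔ f + g = 0 := by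
  rw [← sub_eq_zero, sub_eq_add_neg, neg_eq]

namespace ConeData

variable {P R : DObj A} {φ : P ⟶ R} {C : DObj A} (D : ConeData φ C)

include D

@[reassoc (attr := simp)]
lemma inl_d : D.inl.f ≫ C.d = R.d ≫ D.inl.f := D.inl.comm.symm

@[reassoc (attr := simp)]
lemma s_d : D.s ≫ C.d = φ.f ≫ D.inl.f + P.d ≫ D.s := by
  rw [← D.diff]
  rw [eq_iff_add]
  abel_nf
  try simp only [two_zsmul, two_nsmul, add_self, add_zero, zero_add]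

lemma hom_ext {W : A} {a b : C.X ⟶ W} (h₁ : D.inl.f ≫ a = D.inl.f ≫ b)
    (h₂ : D.s ≫ a = D.s ≫ b) : a = b := by
  rw [← Category.id_comp a, ← Category.id_comp b, ← D.total]
  simp only [Preadditive.add_comp, Category.assoc, h₁, h₂]

@[reassoc (attr := simp)]
lemma d_pr : C.d ≫ D.pr.f = D.pr.f ≫ P.d := D.pr.comm

@[reassoc (attr := simp)]
lemma d_r : C.d ≫ D.r = D.r ≫ R.d + D.pr.f ≫ φ.f := by
  apply D.hom_ext <;> simp

end ConeData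

end Two

/-- the triangle of a cone -/
def ConeData.tri {P R : DObj A} {φ : P ⟶ R} {C : DObj A} (D : ConeData φ C) :
    Triangle (KC A) :=
  Triangle.mk (KC.q φ : (⟨P⟩ : KC A) ⟶ ⟨R⟩) (KC.q D.inl : (⟨R⟩ : KC A) ⟶ ⟨C⟩)
    (KC.q D.pr : (⟨C⟩ : KC A) ⟶ ⟨P⟩)

section biprod

variable [Two A] [HasBinaryBiproducts A] {P R : DObj A} (φ : P ⟶ R)

/-- the mapping cone -/
noncomputable def DObj.cone : DObj A where
  X := R.X ⊞ P.X
  d := biprod.desc (R.d ≫ biprod.inl) (φ.f ≫ biprod.inl + P.d ≫ biprod.inr)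
  dd := by
    ext
    · simp
    · simp
    · simp [← φ.comm_assoc, add_self]
    · simp

/-- the mapping cone is a cone -/
noncomputable def DObj.coneData : ConeData φ (DObj.cone φ) where
  inl :=
    { f := biprod.inl (X := R.X) (Y := P.X)
      comm := (biprod.inl_desc _ _).symm }
  pr :=
    { f := biprod.snd (X := R.X) (Y := P.X)
      comm := by
        show biprod.desc (R.d ≫ biprod.inl) (φ.f ≫ biprod.inl + P.d ≫ biprod.inr) ≫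
          (biprod.snd : R.X ⊞ P.X ⟶ P.X) = biprod.snd ≫ P.d
        ext <;> simp }
  s := biprod.inr (X := R.X) (Y := P.X)
  r := biprod.fst (X := R.X) (Y := P.X)
  inl_pr := biprod.inl_snd
  s_pr := biprod.inr_snd
  inl_r := biprod.inl_fst
  s_r := biprod.inr_fst
  total := (add_comm _ _).trans (biprod.total (X := R.X) (Y := P.X))
  diff := by
    show P.d ≫ (biprod.inr : P.X ⟶ R.X ⊞ P.X) + biprod.inr ≫
      biprod.desc (R.d ≫ biprod.inl) (φ.f ≫ biprod.inl + P.d ≫ biprod.inr) = φ.f ≫ biprod.inl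
    rw [biprod.inr_desc]
    rw [eq_iff_add]
    abel_nf
    try simp only [two_zsmul, two_nsmul, add_self, add_zero, zero_add]

end biprod

lemma exists_coneData [Two A] [HasBinaryBiproducts A] {P R : DObj A} (φ : P ⟶ R) :
    ∃ C : DObj A, Nonempty (ConeData φ C) :=
  ⟨DObj.cone φ, ⟨DObj.coneData φ⟩⟩

lemma isZero_KC_of_id {P : DObj A} (h : P.X ⟶ P.X) (hh : 𝟙 P.X = P.d ≫ h + h ≫ P.d) :
    IsZero (⟨P⟩ : KC A) := by
  rw [IsZero.iff_id_eq_zero]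
  exact (KC.q_eq_zero_iff (X := ⟨P⟩) (Y := ⟨P⟩) (𝟙 P)).2 ⟨h, hh⟩

instance [HasZeroObject A] : HasZeroObject (KC A) := by
  obtain ⟨Z, hZ⟩ := HasZeroObject.zero (C := A)
  exact ⟨⟨⟨{ X := Z, d := 0, dd := comp_zero }⟩, isZero_KC_of_id 0 (hZ.eq_of_src _ _)⟩⟩

/-- the class of distinguished triangles -/
def distT (A : Type u) [Category.{v} A] [Preadditive A] : Set (Triangle (KC A)) :=
  {T | ∃ (P R : DObj A) (φ : P ⟶ R) (C : DObj A) (D : ConeData φ C), Nonempty (T ≅ D.tri)}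

namespace KC

lemma q_eq_of_htpy [Two A] {X Y : KC A} {φ ψ : X.out ⟶ Y.out} (h : X.out.X ⟶ Y.out.X)
    (hh : φ.f = ψ.f + (X.out.d ≫ h + h ≫ Y.out.d)) : (q φ : X ⟶ Y) = q ψ := by
  refine (q_eq_iff φ ψ).2 ⟨h, ?_⟩
  show (φ - ψ).f = _
  rw [sub_eq]
  show φ.f + ψ.f = _
  rw [hh]
  rw [eq_iff_add]
  abel_nf
  try simp only [two_zsmul, two_nsmul, add_self, add_zero, zero_add]

lemma exists_htpy [Two A] {X Y : KC A} {φ ψ : X.out ⟶ Y.out} (h : (q φ : X ⟶ Y) = q ψ) :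
    ∃ h : X.out.X ⟶ Y.out.X, φ.f = ψ.f + (X.out.d ≫ h + h ≫ Y.out.d) := by
  obtain ⟨h, hh⟩ := (q_eq_iff φ ψ).1 h
  refine ⟨h, ?_⟩
  rw [← hh, sub_eq]
  show φ.f = ψ.f + (φ.f + ψ.f)
  rw [eq_iff_add]
  abel_nf
  try simp only [two_zsmul, two_nsmul, add_self, add_zero, zero_add]

/-- the third morphism of a triangle, without the shift -/
def m₃ (T : Triangle (KC A)) : T.obj₃ ⟶ T.obj₁ := T.mor₃

/-- an isomorphism of triangles of `KC A` -/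
def isoMk (T T' : Triangle (KC A)) (e₁ : T.obj₁ ≅ T'.obj₁) (e₂ : T.obj₂ ≅ T'.obj₂)
    (e₃ : T.obj₃ ≅ T'.obj₃) (h₁ : T.mor₁ ≫ e₂.hom = e₁.hom ≫ T'.mor₁)
    (h₂ : T.mor₂ ≫ e₃.hom = e₂.hom ≫ T'.mor₂) (h₃ : m₃ T ≫ e₁.hom = e₃.hom ≫ m₃ T') : T ≅ T' :=
  Triangle.isoMk _ _ e₁ e₂ e₃ h₁ h₂ h₃

end KC

open KC

lemma distT_of_iso {T₁ T₂ : Triangle (KC A)} (h : T₁ ∈ distT A) (e : T₂ ≅ T₁) : T₂ ∈ distT A := by
  obtain ⟨P, R, φ, C, D, ⟨e'⟩⟩ := h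
  exact ⟨P, R, φ, C, D, ⟨e ≪≫ e'⟩⟩

lemma tri_mem {P R : DObj A} {φ : P ⟶ R} {C : DObj A} (D : ConeData φ C) : D.tri ∈ distT A :=
  ⟨P, R, φ, C, D, ⟨Iso.refl _⟩⟩

lemma distT.exists_iso {T : Triangle (KC A)} (h : T ∈ distT A) :
    ∃ (P R : DObj A) (φ : P ⟶ R) (C : DObj A) (D : ConeData φ C)
      (e₁ : T.obj₁ ≅ (⟨P⟩ : KC A)) (e₂ : T.obj₂ ≅ (⟨R⟩ : KC A)) (e₃ : T.obj₃ ≅ (⟨C⟩ : KC A)),
      T.mor₁ ≫ e₂.hom = e₁.hom ≫ (q φ : (⟨P⟩ : KC A) ⟶ ⟨R⟩) ∧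
      T.mor₂ ≫ e₃.hom = e₂.hom ≫ (q D.inl : (⟨R⟩ : KC A) ⟶ ⟨C⟩) ∧
      m₃ T ≫ e₁.hom = e₃.hom ≫ (q D.pr : (⟨C⟩ : KC A) ⟶ ⟨P⟩) := by
  obtain ⟨P, R, φ, C, D, ⟨e⟩⟩ := h
  exact ⟨P, R, φ, C, D, Triangle.π₁.mapIso e, Triangle.π₂.mapIso e, Triangle.π₃.mapIso e,
    e.hom.comm₁, e.hom.comm₂, e.hom.comm₃⟩

section Two

variable [Two A]

lemma isZero_cone_id {P : DObj A} {C : DObj A} (D : ConeData (𝟙 P) C) :
    IsZero (⟨C⟩ : KC A) := by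
  apply isZero_KC_of_id (D.r ≫ D.s)
  apply D.hom_ext
  · simp only [DObj.id_f, Category.comp_id, Preadditive.comp_add, D.inl_d_assoc, D.inl_r_assoc,
      Category.assoc, D.s_d, Category.id_comp]
    rw [eq_iff_add]
    abel_nf
    try simp only [two_zsmul, two_nsmul, add_self, add_zero, zero_add]
  · simp

variable [HasBinaryBiproducts A]

open ZeroObject in
lemma dist_contractible [HasZeroObject A] (X : KC A) : contractibleTriangle X ∈ distT A := by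
  refine ⟨X.out, X.out, 𝟙 _, _, DObj.coneData (𝟙 X.out), ⟨?_⟩⟩
  refine KC.isoMk _ _ (Iso.refl X) (Iso.refl X)
    ((isZero_zero _).iso (isZero_cone_id (DObj.coneData (𝟙 X.out)))) ?_ ?_ ?_
  · show 𝟙 X ≫ 𝟙 X = 𝟙 X ≫ 𝟙 X
    rfl
  · apply (isZero_cone_id (DObj.coneData (𝟙 X.out))).eq_of_tgt
  · apply (isZero_zero (KC A)).eq_of_src

lemma exists_dist {X Y : KC A} (f : X ⟶ Y) :
    ∃ (Z : KC A) (g : Y ⟶ Z) (h : Z ⟶ X⟦(1 : ℤ)⟧), Triangle.mk f g h ∈ distT A := by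
  obtain ⟨φ, rfl⟩ := exists_q f
  exact ⟨⟨DObj.cone φ⟩, q (DObj.coneData φ).inl, q (DObj.coneData φ).pr,
    tri_mem (DObj.coneData φ)⟩

omit [HasBinaryBiproducts A]

/-- the third vertex of the rotated triangle -/
def rotIso {P R : DObj A} {φ : P ⟶ R} {C : DObj A} (D : ConeData φ C) {C' : DObj A}
    (D' : ConeData D.inl C') : (⟨C'⟩ : KC A) ≅ ⟨P⟩ where
  hom := q (X := ⟨C'⟩) (Y := ⟨P⟩) { f := D'.r ≫ D.pr.f, comm := by simp }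
  inv := q (X := ⟨P⟩) (Y := ⟨C'⟩)
    { f := D.s ≫ D'.inl.f + φ.f ≫ D'.s
      comm := by
        simp only [Preadditive.comp_add, Preadditive.add_comp, Category.assoc, D'.inl_d, D'.s_d,
          D.s_d_assoc]
        rw [φ.comm_assoc]
        rw [eq_iff_add]
        abel_nf
        try simp only [two_zsmul, two_nsmul, add_self, add_zero, zero_add] }
  hom_inv_id := by
    refine (q_comp _ _).symm.trans ?_
    refine q_eq_of_htpy (X := ⟨C'⟩) (Y := ⟨C'⟩) (ψ := 𝟙 C') (D'.r ≫ D.r ≫ D'.s) ?_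
    apply D'.hom_ext
    · apply D.hom_ext
      · simp only [DObj.comp_f, Preadditive.comp_add, Category.assoc, D'.s_d,
          D.inl_d_assoc, D'.inl_d_assoc, D'.inl_r_assoc, D.inl_r_assoc, D.inl_pr_assoc,
          DObj.id_f, zero_comp, comp_zero, Category.comp_id]
        rw [eq_iff_add]
        abel_nf
        try simp only [two_zsmul, two_nsmul, add_self, add_zero, zero_add]
      · simp
    · simp [add_self]
  inv_hom_id := by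
    refine (q_comp _ _).symm.trans ?_
    refine congrArg q ?_
    ext
    simp

lemma rotIso_hom {P R : DObj A} {φ : P ⟶ R} {C : DObj A} (D : ConeData φ C) {C' : DObj A}
    (D' : ConeData D.inl C') : (rotIso D D').hom =
      q (X := ⟨C'⟩) (Y := ⟨P⟩) { f := D'.r ≫ D.pr.f, comm := by simp } := rfl

/-- the rotated standard triangle is standard -/
def rotStd {P R : DObj A} {φ : P ⟶ R} {C : DObj A} (D : ConeData φ C) {C' : DObj A}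
    (D' : ConeData D.inl C') : D'.tri ≅ D.tri.rotate :=
  KC.isoMk _ _ (Iso.refl (⟨R⟩ : KC A)) (Iso.refl (⟨C⟩ : KC A)) (rotIso D D')
    (by
      show (q D.inl : (⟨R⟩ : KC A) ⟶ ⟨C⟩) ≫ 𝟙 _ = 𝟙 _ ≫ (q D.inl : (⟨R⟩ : KC A) ⟶ ⟨C⟩)
      rw [Category.id_comp, Category.comp_id])
    (by
      show (q D'.inl : (⟨C⟩ : KC A) ⟶ ⟨C'⟩) ≫ (rotIso D D').hom =
        𝟙 _ ≫ (q D.pr : (⟨C⟩ : KC A) ⟶ ⟨P⟩)
      rw [Category.id_comp, rotIso_hom, ← q_comp]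
      refine congrArg q ?_
      ext
      simp)
    (by
      show (q D'.pr : (⟨C'⟩ : KC A) ⟶ ⟨R⟩) ≫ 𝟙 _ =
        (rotIso D D').hom ≫ (-(q φ : (⟨P⟩ : KC A) ⟶ ⟨R⟩))
      rw [Category.comp_id, rotIso_hom, Preadditive.comp_neg, neg_eq, ← q_comp]
      refine q_eq_of_htpy (X := ⟨C'⟩) (Y := ⟨R⟩) (D'.r ≫ D.r) ?_
      apply D'.hom_ext
      · apply D.hom_ext
        · simp [add_self]
        · simp [add_self]
      · simp)

lemma distT_rotate [HasBinaryBiproducts A] {T : Triangle (KC A)} (h : T ∈ distT A) :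
    T.rotate ∈ distT A := by
  obtain ⟨P, R, φ, C, D, ⟨e⟩⟩ := h
  exact ⟨R, C, D.inl, _, DObj.coneData D.inl,
    ⟨(Pretriangulated.rotate (KC A)).mapIso e ≪≫ (rotStd D (DObj.coneData D.inl)).symm⟩⟩

/-- rotating three times is the identity -/
def rot3 (T : Triangle (KC A)) : T ≅ T.rotate.rotate.rotate :=
  KC.isoMk _ _ (Iso.refl T.obj₁) (Iso.refl T.obj₂) (Iso.refl T.obj₃)
    (by
      show T.mor₁ ≫ 𝟙 _ = 𝟙 _ ≫ (-T.mor₁)
      rw [Category.id_comp, Category.comp_id, neg_eq])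
    (by
      show T.mor₂ ≫ 𝟙 _ = 𝟙 _ ≫ (-T.mor₂)
      rw [Category.id_comp, Category.comp_id, neg_eq])
    (by
      show m₃ T ≫ 𝟙 _ = 𝟙 _ ≫ (-m₃ T)
      rw [Category.id_comp, Category.comp_id, neg_eq])

lemma complete_std {P R P' R' : DObj A} {φ : P ⟶ R} {C : DObj A} (D : ConeData φ C)
    {φ' : P' ⟶ R'} {C' : DObj A} (D' : ConeData φ' C')
    (a : (⟨P⟩ : KC A) ⟶ ⟨P'⟩) (b : (⟨R⟩ : KC A) ⟶ ⟨R'⟩)
    (h : (q φ : (⟨P⟩ : KC A) ⟶ ⟨R⟩) ≫ b = a ≫ (q φ' : (⟨P'⟩ : KC A) ⟶ ⟨R'⟩)) :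
    ∃ c : (⟨C⟩ : KC A) ⟶ ⟨C'⟩,
      (q D.inl : (⟨R⟩ : KC A) ⟶ ⟨C⟩) ≫ c = b ≫ (q D'.inl : (⟨R'⟩ : KC A) ⟶ ⟨C'⟩) ∧
      (q D.pr : (⟨C⟩ : KC A) ⟶ ⟨P⟩) ≫ a = c ≫ (q D'.pr : (⟨C'⟩ : KC A) ⟶ ⟨P'⟩) := by
  obtain ⟨a, rfl⟩ := exists_q a
  obtain ⟨b, rfl⟩ := exists_q b
  rw [← q_comp, ← q_comp] at h
  obtain ⟨h, hh⟩ := exists_htpy h
  change P.X ⟶ R'.X at h
  have hh' : φ.f ≫ b.f = a.f ≫ φ'.f + (P.d ≫ h + h ≫ R'.d) := hh
  let c : C ⟶ C' :=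
    { f := D.r ≫ b.f ≫ D'.inl.f + D.pr.f ≫ (h ≫ D'.inl.f + a.f ≫ D'.s)
      comm := by
        apply D.hom_ext
        · simp [b.comm_assoc]
        · simp only [Preadditive.comp_add, Preadditive.add_comp, Category.assoc, D.s_d_assoc,
            D.inl_r_assoc, D.inl_pr_assoc, D.s_r_assoc, D.s_pr_assoc, zero_comp, zero_add,
            add_zero, comp_zero, D'.inl_d, D'.s_d, a.comm_assoc]
          rw [reassoc_of% hh']
          simp only [Preadditive.add_comp, Category.assoc]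
          rw [eq_iff_add]
          abel_nf
          try simp only [two_zsmul, two_nsmul, add_self, add_zero, zero_add] }
  refine ⟨q (X := ⟨C⟩) (Y := ⟨C'⟩) c, ?_, ?_⟩
  · rw [← q_comp, ← q_comp]
    refine congrArg q ?_
    ext
    simp [c]
  · rw [← q_comp, ← q_comp]
    refine congrArg q ?_
    ext
    simp [c]

lemma complete_dist (T₁ T₂ : Triangle (KC A)) (h₁ : T₁ ∈ distT A) (h₂ : T₂ ∈ distT A)
    (a : T₁.obj₁ ⟶ T₂.obj₁) (b : T₁.obj₂ ⟶ T₂.obj₂) (comm : T₁.mor₁ ≫ b = a ≫ T₂.mor₁) :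
    ∃ c : T₁.obj₃ ⟶ T₂.obj₃, T₁.mor₂ ≫ c = b ≫ T₂.mor₂ ∧ T₁.mor₃ ≫ a⟦(1 : ℤ)⟧' = c ≫ T₂.mor₃ := by
  obtain ⟨P, R, φ, C, D, e₁, e₂, e₃, h1, h2, h3⟩ := distT.exists_iso h₁
  obtain ⟨P', R', φ', C', D', e₁', e₂', e₃', h1', h2', h3'⟩ := distT.exists_iso h₂
  have k1 : e₁.inv ≫ T₁.mor₁ = (q φ : (⟨P⟩ : KC A) ⟶ ⟨R⟩) ≫ e₂.inv := by
    rw [Iso.inv_comp_eq, ← Category.assoc, Iso.eq_comp_inv, h1]
  obtain ⟨c, hc1, hc2⟩ := complete_std D D' (e₁.inv ≫ a ≫ e₁'.hom)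
    (e₂.inv ≫ b ≫ e₂'.hom) (by
      rw [← reassoc_of% k1, reassoc_of% comm, h1']
      simp)
  have k2 : (q D'.inl : (⟨R'⟩ : KC A) ⟶ ⟨C'⟩) ≫ e₃'.inv = e₂'.inv ≫ T₂.mor₂ := by
    rw [Iso.eq_inv_comp, ← Category.assoc, Iso.comp_inv_eq, h2']
  have k3 : (q D'.pr : (⟨C'⟩ : KC A) ⟶ ⟨P'⟩) ≫ e₁'.inv = e₃'.inv ≫ m₃ T₂ := by
    rw [Iso.eq_inv_comp, ← Category.assoc, Iso.comp_inv_eq, h3']
  refine ⟨e₃.hom ≫ c ≫ e₃'.inv, ?_, ?_⟩
  · rw [reassoc_of% h2, reassoc_of% hc1, k2]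
    simp
  · show m₃ T₁ ≫ a = (e₃.hom ≫ c ≫ e₃'.inv) ≫ m₃ T₂
    rw [Category.assoc, Category.assoc, ← k3, ← reassoc_of% hc2, ← reassoc_of% h3]
    simp

end Two

variable [Two A] [HasZeroObject A] [HasBinaryBiproducts A]

noncomputable instance : Pretriangulated (KC A) where
  distinguishedTriangles := distT A
  isomorphic_distinguished := fun _ h _ e => distT_of_iso h e
  contractible_distinguished := dist_contractible
  distinguished_cocone_triangle := exists_dist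
  rotate_distinguished_triangle := fun T =>
    ⟨fun h => distT_rotate h, fun h => distT_of_iso (distT_rotate (distT_rotate h)) (rot3 T)⟩
  complete_distinguished_triangle_morphism := complete_dist

lemma mem_distTriang_iff (T : Triangle (KC A)) :
    T ∈ distTriang (KC A) ↔
      ∃ (P R : DObj A) (φ : P ⟶ R) (C : DObj A) (D : ConeData φ C), Nonempty (T ≅ D.tri) :=
  Iff.rfl

omit [HasZeroObject A] [HasBinaryBiproducts A]

section oct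

variable {P R S : DObj A} {φ : P ⟶ R} {ψ : R ⟶ S} {C₁ C₂ C₃ : DObj A}
  (D₁ : ConeData φ C₁) (D₂ : ConeData ψ C₂) (D₃ : ConeData (φ ≫ ψ) C₃)

/-- the map of cones `cone φ ⟶ cone (φ ≫ ψ)` -/
def octM : C₁ ⟶ C₃ where
  f := D₁.r ≫ ψ.f ≫ D₃.inl.f + D₁.pr.f ≫ D₃.s
  comm := by
    apply D₁.hom_ext
    · simp [ψ.comm_assoc]
    · simp

/-- the map of cones `cone (φ ≫ ψ) ⟶ cone ψ` -/
def octN : C₃ ⟶ C₂ where
  f := D₃.r ≫ D₂.inl.f + D₃.pr.f ≫ φ.f ≫ D₂.s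
  comm := by
    apply D₃.hom_ext
    · simp
    · simp [φ.comm_assoc]

lemma octM_f : (octM D₁ D₃).f = D₁.r ≫ ψ.f ≫ D₃.inl.f + D₁.pr.f ≫ D₃.s := rfl

lemma octN_f : (octN D₂ D₃).f = D₃.r ≫ D₂.inl.f + D₃.pr.f ≫ φ.f ≫ D₂.s := rfl

variable {C : DObj A} (D : ConeData (octM D₁ D₃) C)

/-- the comparison map -/
def octV : C ⟶ C₂ where
  f := D.r ≫ (octN D₂ D₃).f + D.pr.f ≫ D₁.r ≫ D₂.s
  comm := by
    apply D.hom_ext
    · simp [(octN D₂ D₃).comm]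
    · apply D₁.hom_ext
      · simp [octM_f, octN_f]
      · simp only [octM_f, octN_f, Preadditive.comp_add, Preadditive.add_comp, Category.assoc,
          D.s_d_assoc, D₁.s_r_assoc, D₁.s_pr_assoc, D₃.s_r_assoc, D₃.s_pr_assoc,
          D₃.inl_r_assoc, D₃.inl_pr_assoc, D₁.s_d_assoc, D₁.inl_r_assoc, D₁.inl_pr_assoc,
          D.s_r_assoc, D.s_pr_assoc, D.inl_r_assoc, D.inl_pr_assoc,
          zero_comp, zero_add, add_zero, comp_zero, D₂.inl_d, D₂.s_d, φ.comm_assoc, add_self]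

/-- the comparison map -/
def octU : C₂ ⟶ C where
  f := D₂.r ≫ D₃.inl.f ≫ D.inl.f + D₂.pr.f ≫ D₁.inl.f ≫ D.s
  comm := by
    apply D₂.hom_ext
    · simp
    · simp [octM_f]

lemma octV_f : (octV D₁ D₂ D₃ D).f =
  D.r ≫ (octN D₂ D₃).f + D.pr.f ≫ D₁.r ≫ D₂.s := rfl

lemma octU_f : (octU D₁ D₂ D₃ D).f =
  D₂.r ≫ D₃.inl.f ≫ D.inl.f + D₂.pr.f ≫ D₁.inl.f ≫ D.s := rfl

/-- the comparison `cone (octM) ≅ cone ψ` -/
def octIso : (⟨C⟩ : KC A) ≅ ⟨C₂⟩ where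
  hom := q (X := ⟨C⟩) (Y := ⟨C₂⟩) (octV D₁ D₂ D₃ D)
  inv := q (X := ⟨C₂⟩) (Y := ⟨C⟩) (octU D₁ D₂ D₃ D)
  hom_inv_id := by
    refine (q_comp _ _).symm.trans ?_
    refine q_eq_of_htpy (X := ⟨C⟩) (Y := ⟨C⟩) (ψ := 𝟙 C) (D.r ≫ D₃.pr.f ≫ D₁.s ≫ D.s) ?_
    apply D.hom_ext
    · apply D₃.hom_ext
      · simp [octN_f, octV_f, octU_f]
      · simp only [octM_f, octN_f, octV_f, octU_f, Preadditive.comp_add, Preadditive.add_comp,
          Category.assoc, D₁.s_d_assoc, D₁.s_r_assoc, D₁.s_pr_assoc, D₁.inl_r_assoc,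
          D₁.inl_pr_assoc, D₂.s_r_assoc, D₂.s_pr_assoc, D₂.inl_r_assoc, D₂.inl_pr_assoc,
          D₃.s_r_assoc, D₃.s_pr_assoc, D₃.inl_r_assoc, D₃.inl_pr_assoc, D₃.s_d_assoc,
          D.s_r_assoc, D.s_pr_assoc, D.inl_r_assoc, D.inl_pr_assoc, D.inl_d_assoc, D.s_d,
          zero_comp, zero_add, add_zero, comp_zero, DObj.comp_f, DObj.id_f, Category.comp_id,
          D₁.inl_d_assoc, D₃.inl_d_assoc]
        rw [eq_iff_add]
        abel_nf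
        try simp only [two_zsmul, two_nsmul, add_self, add_zero, zero_add]
    · apply D₁.hom_ext
      · simp [octM_f, octN_f, octV_f, octU_f]
      · simp only [octM_f, octN_f, octV_f, octU_f, Preadditive.comp_add, Preadditive.add_comp,
          Category.assoc, D₁.s_d_assoc, D₁.s_r_assoc, D₁.s_pr_assoc, D₁.inl_r_assoc,
          D₁.inl_pr_assoc, D₂.s_r_assoc, D₂.s_pr_assoc, D₂.inl_r_assoc, D₂.inl_pr_assoc,
          D₃.s_r_assoc, D₃.s_pr_assoc, D₃.inl_r_assoc, D₃.inl_pr_assoc, D₃.s_d_assoc,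
          D.s_r_assoc, D.s_pr_assoc, D.inl_r_assoc, D.inl_pr_assoc, D.inl_d_assoc, D.s_d,
          D.s_d_assoc,
          zero_comp, zero_add, add_zero, comp_zero, DObj.comp_f, DObj.id_f, Category.comp_id,
          D₁.inl_d_assoc, D₃.inl_d_assoc]
        rw [eq_iff_add]
        abel_nf
        try simp only [two_zsmul, two_nsmul, add_self, add_zero, zero_add]
  inv_hom_id := by
    refine (q_comp _ _).symm.trans ?_
    refine congrArg q ?_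
    ext
    apply D₂.hom_ext <;> simp [octN_f, octV_f, octU_f]

/-- the triangle of the octahedron is isomorphic to a standard triangle -/
def octTri : D.tri ≅
    Triangle.mk (q (octM D₁ D₃) : (⟨C₁⟩ : KC A) ⟶ ⟨C₃⟩) (q (octN D₂ D₃) : (⟨C₃⟩ : KC A) ⟶ ⟨C₂⟩)
      ((q D₂.pr : (⟨C₂⟩ : KC A) ⟶ ⟨R⟩) ≫ (q D₁.inl : (⟨R⟩ : KC A) ⟶ ⟨C₁⟩)) :=
  KC.isoMk _ _ (Iso.refl (⟨C₁⟩ : KC A)) (Iso.refl (⟨C₃⟩ : KC A)) (octIso D₁ D₂ D₃ D)
    (by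
      show (q (octM D₁ D₃) : (⟨C₁⟩ : KC A) ⟶ ⟨C₃⟩) ≫ 𝟙 _ =
        𝟙 _ ≫ (q (octM D₁ D₃) : (⟨C₁⟩ : KC A) ⟶ ⟨C₃⟩)
      rw [Category.id_comp, Category.comp_id])
    (by
      show (q D.inl : (⟨C₃⟩ : KC A) ⟶ ⟨C⟩) ≫ (q (octV D₁ D₂ D₃ D) : (⟨C⟩ : KC A) ⟶ ⟨C₂⟩) =
        𝟙 _ ≫ (q (octN D₂ D₃) : (⟨C₃⟩ : KC A) ⟶ ⟨C₂⟩)
      rw [Category.id_comp, ← q_comp]
      refine congrArg q ?_
      ext
      simp [octV_f])
    (by
      show (q D.pr : (⟨C⟩ : KC A) ⟶ ⟨C₁⟩) ≫ 𝟙 _ =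
        (q (octV D₁ D₂ D₃ D) : (⟨C⟩ : KC A) ⟶ ⟨C₂⟩) ≫
          ((q D₂.pr : (⟨C₂⟩ : KC A) ⟶ ⟨R⟩) ≫ (q D₁.inl : (⟨R⟩ : KC A) ⟶ ⟨C₁⟩))
      rw [Category.comp_id, ← q_comp, ← q_comp]
      refine q_eq_of_htpy (X := ⟨C⟩) (Y := ⟨C₁⟩) (D.r ≫ D₃.pr.f ≫ D₁.s) ?_
      apply D.hom_ext
      · apply D₃.hom_ext
        · simp [octN_f, octV_f]
        · simp only [octM_f, octN_f, octV_f, octU_f, Preadditive.comp_add, Preadditive.add_comp,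
            Category.assoc, D₁.s_d_assoc, D₁.s_r_assoc, D₁.s_pr_assoc, D₁.inl_r_assoc,
            D₁.inl_pr_assoc, D₂.s_r_assoc, D₂.s_pr_assoc, D₂.inl_r_assoc, D₂.inl_pr_assoc,
            D₃.s_r_assoc, D₃.s_pr_assoc, D₃.inl_r_assoc, D₃.inl_pr_assoc, D₃.s_d_assoc,
            D.s_r_assoc, D.s_pr_assoc, D.inl_r_assoc, D.inl_pr_assoc, D.inl_d_assoc, D.s_d,
            D.s_d_assoc, D.inl_pr, D₁.s_d,
            zero_comp, zero_add, add_zero, comp_zero, DObj.comp_f, DObj.id_f, Category.comp_id,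
            D₁.inl_d_assoc, D₃.inl_d_assoc]
          rw [eq_iff_add]
          abel_nf
          try simp only [two_zsmul, two_nsmul, add_self, add_zero, zero_add]
      · apply D₁.hom_ext
        · simp [octM_f, octN_f, octV_f]
        · simp [octM_f, octN_f, octV_f])

end oct

variable [HasZeroObject A] [HasBinaryBiproducts A]

instance : IsTriangulated (KC A) := IsTriangulated.mk' (by
  intro X₁ X₂ X₃ u₁₂ u₂₃
  obtain ⟨φ, rfl⟩ := exists_q u₁₂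
  obtain ⟨ψ, rfl⟩ := exists_q u₂₃
  let D₁ := DObj.coneData φ
  let D₂ := DObj.coneData ψ
  let D₃ := DObj.coneData (φ ≫ ψ)
  let D := DObj.coneData (octM D₁ D₃)
  refine ⟨X₁, X₂, X₃, ⟨DObj.cone φ⟩, ⟨DObj.cone ψ⟩, ⟨DObj.cone (φ ≫ ψ)⟩, q φ, q ψ, Iso.refl _,
    Iso.refl _, Iso.refl _, ?_, ?_, q D₁.inl, q D₁.pr, tri_mem D₁,
    q D₂.inl, q D₂.pr, tri_mem D₂, q D₃.inl, q D₃.pr, tri_mem D₃, ⟨?_⟩⟩
  · show q φ ≫ 𝟙 _ = 𝟙 _ ≫ q φ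
    rw [Category.id_comp, Category.comp_id]
  · show q ψ ≫ 𝟙 _ = 𝟙 _ ≫ q ψ
    rw [Category.id_comp, Category.comp_id]
  · refine ⟨q (X := ⟨DObj.cone φ⟩) (Y := ⟨DObj.cone (φ ≫ ψ)⟩) (octM D₁ D₃),
      q (X := ⟨DObj.cone (φ ≫ ψ)⟩) (Y := ⟨DObj.cone ψ⟩) (octN D₂ D₃), ?_, ?_, ?_, ?_, ?_⟩
    · rw [← q_comp, ← q_comp]
      refine congrArg q ?_
      ext
      simp [octM_f]
    · show (q (octM D₁ D₃) : (⟨DObj.cone φ⟩ : KC A) ⟶ ⟨DObj.cone (φ ≫ ψ)⟩) ≫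
        (q D₃.pr : (⟨DObj.cone (φ ≫ ψ)⟩ : KC A) ⟶ X₁) = q D₁.pr
      rw [← q_comp]
      refine congrArg q ?_
      ext
      simp [octM_f]
    · rw [← q_comp]
      refine congrArg q ?_
      ext
      simp [octN_f]
    · show (q D₃.pr : (⟨DObj.cone (φ ≫ ψ)⟩ : KC A) ⟶ X₁) ≫ q φ =
        (q (octN D₂ D₃) : (⟨DObj.cone (φ ≫ ψ)⟩ : KC A) ⟶ ⟨DObj.cone ψ⟩) ≫
          (q D₂.pr : (⟨DObj.cone ψ⟩ : KC A) ⟶ X₂)
      rw [← q_comp, ← q_comp]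
      refine congrArg q ?_
      ext
      simp [octN_f]
    · exact distT_of_iso (tri_mem D) (octTri D₁ D₂ D₃ D).symm)

section mclass

/-- the class of a map between differential objects -/
def KC.m {P R : DObj A} (φ : P ⟶ R) : (⟨P⟩ : KC A) ⟶ ⟨R⟩ :=
  KC.q (X := (⟨P⟩ : KC A)) (Y := ⟨R⟩) φ

lemma KC.m_comp {P R S : DObj A} (φ : P ⟶ R) (ψ : R ⟶ S) :
    KC.m (φ ≫ ψ) = KC.m φ ≫ KC.m ψ := rfl

lemma KC.m_id (P : DObj A) : KC.m (𝟙 P) = 𝟙 (⟨P⟩ : KC A) := rfl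

lemma KC.m_surj {P R : DObj A} (f : (⟨P⟩ : KC A) ⟶ ⟨R⟩) : ∃ φ : P ⟶ R, KC.m φ = f :=
  KC.exists_q f

lemma KC.m_eq_iff [Two A] {P R : DObj A} (φ ψ : P ⟶ R) :
    KC.m φ = KC.m ψ ↔ ∃ h : P.X ⟶ R.X, φ.f = ψ.f + (P.d ≫ h + h ≫ R.d) :=
  ⟨fun h => KC.exists_htpy h, fun ⟨h, hh⟩ => KC.q_eq_of_htpy h hh⟩

lemma KC.m_eq_zero_iff {P R : DObj A} (φ : P ⟶ R) :
    KC.m φ = 0 ↔ ∃ h : P.X ⟶ R.X, φ.f = P.d ≫ h + h ≫ R.d :=
  KC.q_eq_zero_iff (X := (⟨P⟩ : KC A)) (Y := ⟨R⟩) φ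

end mclass

end MP40506.CX
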