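import Pool.Agent.Work.MP_40506d_al.CX.Prime
import Pool.Agent.Work.MP_40506d_al.CX.TK
import Pool.Agent.Work.MP_40506d_al.Detect
import Pool.Agent.Work.MP_40506d_al.CX.Sub

/-!
# `TT G M` is weakly noetherian if all faces are weakly visible; a vanishing criterion for
`g_P ⊗ Z`
-/

open CategoryTheory CategoryTheory.Limits CategoryTheory.MonoidalCategory
  CategoryTheory.Pretriangulated

set_option linter.unusedSectionVars false

universe v u in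
lemma MP40506.act_tensor {T : Type u} [Category.{v} T] [MonoidalCategory T] {b : T}
    (s : b ⟶ 𝟙_ T) (c d : T) : act s (c ⊗ d) = (α_ b c d).inv ≫ act s c ▷ d := by
  simp [act]

namespace MP40506.CX

noncomputable section

variable {G : Type} [AddCommGroup G] {M : AddSubmonoid G}

lemma mem_supp_tkz (Q : Spc (TT G M)) (u : G) (hM : u ∈ M) :
    Q ∈ supp (tkz u hM) ↔ u ∉ face Q := by
  rw [mem_supp, mem_face]
  constructor
  · rintro h ⟨_, h'⟩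
    exact h h'
  · intro h h'
    exact h ⟨hM, h'⟩

theorem weaklyNoetherian_TT
    (h : ∀ U, IsFace M U → ∃ s : Finset G, (∀ x ∈ s, x ∈ M ∧ x ∉ U) ∧
      ∀ U', IsFace M U' → U ≤ U' → (∀ x ∈ s, x ∉ U') → U' = U) :
    WeaklyNoetherian (TT G M) := by
  classical
  intro P
  obtain ⟨s, hs, hmax⟩ := h (face P) (isFace_face P)
  let φ : {x : G // x ∈ s} → {a : TT G M // IsCpt a} := fun x =>
    ⟨tkz x.1 (hs x.1 x.2).1, isCpt_tkz x.1 (hs x.1 x.2).1⟩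
  obtain ⟨a, ha, hsupp⟩ := exists_supp_inter (T := TT G M) (Set.range φ) (Set.finite_range φ)
  have hmem : ∀ Q : Spc (TT G M), Q ∈ supp a ↔ ∀ x ∈ s, x ∉ face Q := by
    intro Q
    rw [hsupp]
    simp only [Set.mem_iInter]
    constructor
    · intro hQ x hx
      have h1 := hQ (φ ⟨x, hx⟩) ⟨⟨x, hx⟩, rfl⟩
      exact (mem_supp_tkz Q x (hs x hx).1).1 h1
    · rintro hQ _ ⟨⟨x, hx⟩, rfl⟩
      exact (mem_supp_tkz Q x (hs x hx).1).2 (hQ x hx)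
  let Y₂ : Set (Spc (TT G M)) := {Q | ∃ u ∈ face P, u ∉ face Q}
  refine ⟨supp a, Y₂, isThomason_supp ha, ?_, ?_⟩
  · rw [isThomason_iff]
    rintro Q ⟨u, hu, huQ⟩
    have hM : u ∈ M := ((mem_face P u).1 hu).1
    refine ⟨tkz u hM, ⟨isCpt_tkz u hM, fun R hR => ?_⟩, (mem_supp_tkz Q u hM).2 huQ⟩
    exact ⟨u, hu, (mem_supp_tkz R u hM).1 hR⟩
  · ext Q
    constructor
    · rintro rfl
      refine ⟨(hmem _).2 (fun x hx => (hs x hx).2), ?_⟩
      rintro ⟨u, hu, huQ⟩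
      exact huQ hu
    · rintro ⟨h1, h2⟩
      apply face_injective
      apply hmax _ (isFace_face Q) ?_ ((hmem Q).1 h1)
      intro u hu
      by_contra h3
      exact h2 ⟨u, hu, h3⟩

section DenTT

/-- `χ u` in `TT G M` -/
def tχ (u : G) (hu : u ∈ M) : (tk u : TT G M) ⟶ 𝟙_ (TT G M) := ObjectProperty.homMk (χ u hu)

/-- `k(u) ⊗ k(a) = k(u + a)` in `TT G M` -/
def tkMul (u a : G) : (tk u : TT G M) ⊗ tk a ≅ tk (u + a) :=
  ObjectProperty.isoMk _ (kkMul u a)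

lemma act_tχ (u : G) (hu : u ∈ M) (a : G) :
    act (tχ u hu) (tk a : TT G M) = (tkMul u a).hom ≫ tmul (sub_mem_of_mem' hu a) := by
  apply ObjectProperty.hom_ext
  exact chi_whiskerRight u hu a

lemma tmul_tχ {g g' : G} (h : g - g' ∈ M) (hg : g ∈ M) (hg' : g' ∈ M) :
    (tmul h : (tk g : TT G M) ⟶ tk g') ≫ tχ g' hg' = tχ g hg := by
  apply ObjectProperty.hom_ext
  refine congrArg KC.q (?_ : dmul h ≫ dmul (sub_zero_mem hg') = dmul (sub_zero_mem hg))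
  apply DObj.hom_ext
  apply Fr.hom_ext
  exact LinearMap.id_comp _

/-- periodicity -/
lemma per_TT (y : TT G M) (n : ℤ) : Nonempty (y⟦n⟧ ≅ y) := by
  let e : (locSub (FinC G M)).ι.obj (y⟦n⟧) ≅ (locSub (FinC G M)).ι.obj y :=
    ((locSub (FinC G M)).ι.commShiftIso n).app y
  exact ⟨(locSub (FinC G M)).fullyFaithfulι.preimageIso e⟩

lemma exists_tri_tkz (h : G) (hh : h ∈ M) : ∃ (g : 𝟙_ (TT G M) ⟶ tkz h hh)
    (k : tkz h hh ⟶ (tk h : TT G M)⟦(1 : ℤ)⟧),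
    Triangle.mk (tχ h hh) g k ∈ distTriang (TT G M) := by
  let g : 𝟙_ (TT G M) ⟶ tkz h hh := ObjectProperty.homMk
    (KC.q (kzCone h hh).inl : (⟨k1 0⟩ : KC (Fr G M)) ⟶ ⟨kz h hh⟩)
  obtain ⟨k, hk⟩ := exists_tri_of_obj (tχ h hh) g
    (KC.q (kzCone h hh).pr : (⟨kz h hh⟩ : KC (Fr G M)) ⟶ ⟨k1 h⟩) (kz_tri h hh)
  exact ⟨g, k, hk⟩

lemma exists_tri_den {b : TT G M} {u : G} (i : b ≅ tk u) (hM : u ∈ M) :
    ∃ (g : 𝟙_ (TT G M) ⟶ tkz u hM) (k : tkz u hM ⟶ b⟦(1 : ℤ)⟧),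
      Triangle.mk (i.hom ≫ tχ u hM) g k ∈ distTriang (TT G M) := by
  obtain ⟨g, k, hd⟩ := exists_tri_tkz u hM
  refine ⟨g, k ≫ i.inv⟦(1 : ℤ)⟧', ?_⟩
  refine isomorphic_distinguished _ hd _ (Triangle.isoMk _ _ i (Iso.refl _)
    (Iso.refl _) ?_ ?_ ?_)
  · exact Category.comp_id _
  · exact (Category.comp_id _).trans (Category.id_comp _).symm
  · show (k ≫ i.inv⟦(1 : ℤ)⟧') ≫ i.hom⟦(1 : ℤ)⟧' = 𝟙 _ ≫ k
    rw [Category.assoc, ← Functor.map_comp, i.inv_hom_id, CategoryTheory.Functor.map_id,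
      Category.comp_id, Category.id_comp]

lemma tχ_tkz (h : G) (hh : h ∈ M) : tχ h hh ▷ tkz h hh = 0 := by
  apply ObjectProperty.hom_ext
  exact chi_kz h hh

/-- the generators -/
def GenTT (G : Type) [AddCommGroup G] (M : AddSubmonoid G) : ObjectProperty (TT G M) :=
  fun c => ∃ a, Nonempty (c ≅ tk a)

/-- the denominators -/
def DenTT (U : AddSubmonoid G) (b : TT G M) (s : b ⟶ 𝟙_ (TT G M)) : Prop :=
  ∃ (u : G) (hM : u ∈ M), u ∈ U ∧ ∃ i : b ≅ tk u, s = i.hom ≫ tχ u hM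

lemma isZero_of_tk (X : TT G M) (h : ∀ (a : G) (f : tk a ⟶ X), f = 0) : IsZero X := by
  have h1 := locP_le X _ (isLocalizing_noMaps (T := KC (Fr G M)) X.obj) (fun g n f => by
    have h2 := h g (ObjectProperty.homMk (f : (⟨k1 g⟩ : KC (Fr G M)) ⟶ X.obj))
    exact congrArg (fun k => (locSub (FinC G M)).ι.map k) h2)
  have h3 : 𝟙 X.obj = 0 := h1 0 (𝟙 X.obj)
  rw [IsZero.iff_id_eq_zero]
  apply ObjectProperty.hom_ext
  exact h3

lemma denData_TT {U : AddSubmonoid G} : DenData (GenTT G M) (DenTT U) where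
  per := per_TT
  gen_cpt := by
    rintro c ⟨a, ⟨i⟩⟩
    exact (isCpt_tk a).of_iso i
  gen_zero := fun X h => isZero_of_tk X (fun a f => h _ ⟨a, ⟨Iso.refl _⟩⟩ f)
  den_gen := by
    rintro b s ⟨u, hM, hU, i, rfl⟩ c ⟨a, ⟨j⟩⟩
    exact ⟨u + a, ⟨(i ⊗ᵢ j) ≪≫ tkMul u a⟩⟩
  den_mul := by
    rintro b b' s s' ⟨u, hM, hU, i, rfl⟩ ⟨u', hM', hU', i', rfl⟩
    refine ⟨u' + u, M.add_mem hM' hM, U.add_mem hU' hU, (i' ⊗ᵢ i) ≪≫ tkMul u' u, ?_⟩
    have h1 : mulTo (i'.hom ≫ tχ u' hM') (i.hom ≫ tχ u hM) =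
        b' ◁ i.hom ≫ i'.hom ▷ (tk u : TT G M) ≫ act (tχ u' hM') (tk u) ≫ tχ u hM := by
      simp only [mulTo, ← Category.assoc]
      rw [act_nat]
      simp only [act, comp_whiskerRight, Category.assoc]
    rw [h1, act_tχ, Category.assoc, tmul_tχ _ (M.add_mem hM' hM) hM]
    simp only [Iso.trans_hom, tensorIso_hom, tensorHom_def', Category.assoc]
  den_ne := by
    refine ⟨tk 0, tχ 0 M.zero_mem, 0, M.zero_mem, U.zero_mem, Iso.refl _, ?_⟩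
    exact (Category.id_comp _).symm
  den_inv := by
    rintro b s ⟨u, hM, hU, i, rfl⟩
    refine ⟨tk (-u), ⟨(Iso.refl _ ⊗ᵢ i) ≪≫ tkMul (-u) u ≪≫ eqToIso ?_⟩⟩
    rw [neg_add_cancel]
    rfl
  den_cone := by
    rintro b s ⟨u, hM, hU, i, rfl⟩
    obtain ⟨g, k, hd⟩ := exists_tri_den i hM
    exact ⟨tkz u hM, g, k, hd, isCpt_tkz u hM, tk u, tχ u hM,
      ⟨u, hM, hU, Iso.refl _, (Category.id_comp _).symm⟩, tχ_tkz u hM⟩

/-- the vanishing criterion -/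
theorem isZero_of_kill (P : Spc (TT G M)) (g : TT G M) (hg : IsPointIdem P g) (Z : TT G M)
    (K : TT G M) (hK : IsCpt K) (hPK : P ∈ supp K)
    (h : ∀ (a : G) (x : tk a ⊗ K ⟶ Z), ∃ (u : G) (hM : u ∈ M), u ∈ face P ∧
      (tmul (show a + u - a ∈ M by simpa using hM) ▷ K) ≫ x = 0) :
    IsZero (g ⊗ Z) := by
  refine (denData_TT (G := G) (M := M) (U := face P)).isZero_point hg hK hPK ?_ ?_
  · rintro ⟨b, s, Z', g', h', ⟨u, hM, hU, i, rfl⟩, hd, hPZ⟩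
    obtain ⟨g2, k2, hd2⟩ := exists_tri_den i hM
    obtain ⟨e⟩ := nonempty_iso_cone hd hd2
    rw [supp_iso e] at hPZ
    exact (mem_supp_tkz P u hM).1 hPZ hU
  · rintro c ⟨a, ⟨j⟩⟩ x
    obtain ⟨u, hM, hU, h0⟩ := h a (j.inv ▷ K ≫ x)
    refine ⟨tk u, tχ u hM, ⟨u, hM, hU, Iso.refl _, (Category.id_comp _).symm⟩, ?_⟩
    have h1 : ∀ (w : G) (hw : w - a ∈ M), w = a + u →
        (tmul hw : (tk w : TT G M) ⟶ tk a) ▷ K ≫ j.inv ▷ K ≫ x = 0 := by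
      rintro w hw rfl
      exact h0
    have h2 := h1 (u + a) (sub_mem_of_mem' hM a) (add_comm _ _)
    have h3 : act (tχ u hM) c = (tk u : TT G M) ◁ j.hom ≫ (tkMul u a).hom ≫
        tmul (sub_mem_of_mem' hM a) ≫ j.inv := by
      have h4 := act_nat (tχ u hM) j.hom
      rw [act_tχ] at h4
      rw [← cancel_mono j.hom, h4]
      simp
    rw [act_tensor, h3]
    simp only [comp_whiskerRight, Category.assoc, h2, comp_zero]

end DenTT

end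

end MP40506.CX
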