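import Mathlib

set_option autoImplicit false

/-! Weights on a countable meet-semilattice `Γ` (cell TT, section 3): flags, the numbers `K n`,
the functionals `nu`, the lower sets `W g` and the monoid `M = {g | W g = univ}` in `Γ →₀ ℤ`. -/

namespace MP40506.CX.Wt

/-- an exhausting increasing sequence of finite sub-semilattices -/
structure Levels (Γ : Type) [SemilatticeInf Γ] [OrderTop Γ] where
  L : ℕ → Finset Γ
  mono : Monotone L
  inf_mem : ∀ n u v, u ∈ L n → v ∈ L n → u ⊓ v ∈ L n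
  top_mem : ∀ n, ⊤ ∈ L n
  exh : ∀ v, ∃ n, v ∈ L n

/-- flags `(w₀; m₀, w₁; m₁, ...; w_k)` -/
inductive Flag (Γ : Type) : Type
  | base : Γ → Flag Γ
  | cons : Γ → ℕ → Flag Γ → Flag Γ

section flags

variable {Γ : Type}

def Flag.head : Flag Γ → Γ
  | .base w => w
  | .cons w _ _ => w

def Flag.lev : Flag Γ → ℕ
  | .base _ => 0
  | .cons _ m _ => m + 1

/-- admissible flags -/
def Flag.Ok [LE Γ] [Bot Γ] (L : ℕ → Finset Γ) : Flag Γ → Prop
  | .base w => w ≠ ⊥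
  | .cons w m φ => w ≠ ⊥ ∧ φ.Ok L ∧ φ.lev ≤ m ∧ ∀ u ∈ L m, w ≤ u → φ.head ≤ u

lemma Flag.Ok.head_ne [LE Γ] [Bot Γ] {L : ℕ → Finset Γ} {φ : Flag Γ} (h : φ.Ok L) :
    φ.head ≠ ⊥ := by
  cases φ with
  | base w => exact h
  | cons w m φ => exact h.1

open Classical in
/-- the coefficient of `e_v` divided by its weight -/
noncomputable def Flag.c [LE Γ] (K : ℕ → ℕ) : Flag Γ → Γ → ℕ
  | .base w, v => if w ≤ v then 0 else 1
  | .cons w m φ, v => if w ≤ v then 0 else 1 + K m * φ.c K v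

lemma Flag.c_of_le [LE Γ] (K : ℕ → ℕ) {φ : Flag Γ} {v : Γ} (h : φ.head ≤ v) : φ.c K v = 0 := by
  cases φ with
  | base w => exact if_pos h
  | cons w m φ => exact if_pos h

lemma Flag.one_le_c [LE Γ] (K : ℕ → ℕ) {φ : Flag Γ} {v : Γ} (h : ¬ φ.head ≤ v) :
    1 ≤ φ.c K v := by
  cases φ with
  | base w => exact (if_neg h).ge
  | cons w m φ =>
    have : (Flag.cons w m φ).c K v = 1 + K m * φ.c K v := if_neg h
    omega

lemma Flag.c_base_le_one [LE Γ] (K : ℕ → ℕ) (w v : Γ) : (Flag.base w).c K v ≤ 1 := by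
  unfold Flag.c
  split_ifs <;> omega

/-- a bound for the coefficients of the flags of level `≤ n` -/
def bd (K : ℕ → ℕ) : ℕ → ℕ
  | 0 => 1
  | n + 1 => bd K n + 1 + K n * bd K n

lemma bd_mono (K : ℕ → ℕ) : Monotone (bd K) := by
  refine monotone_nat_of_le_succ fun n => ?_
  show bd K n ≤ bd K n + 1 + K n * bd K n
  omega

lemma one_le_bd (K : ℕ → ℕ) (n : ℕ) : 1 ≤ bd K n := bd_mono K (Nat.zero_le n)

open Classical in
lemma Flag.c_le_bd [LE Γ] [Bot Γ] {L : ℕ → Finset Γ} (K : ℕ → ℕ) :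
    ∀ {φ : Flag Γ}, φ.Ok L → ∀ {n : ℕ}, φ.lev ≤ n → ∀ v, φ.c K v ≤ bd K n := by
  intro φ
  induction φ with
  | base w =>
    intro _ n _ v
    exact (Flag.c_base_le_one K w v).trans (one_le_bd K n)
  | cons w m φ ih =>
    intro h n hn v
    refine le_trans ?_ (bd_mono K hn)
    show (if w ≤ v then 0 else 1 + K m * φ.c K v) ≤ bd K m + 1 + K m * bd K m
    have h1 := Nat.mul_le_mul_left (K m) (ih h.2.1 h.2.2.1 v)
    split_ifs
    · exact Nat.zero_le _
    · omega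

open Classical in
lemma Flag.c_congr [LE Γ] [Bot Γ] {L : ℕ → Finset Γ} {K K' : ℕ → ℕ} :
    ∀ {φ : Flag Γ}, φ.Ok L → ∀ {n : ℕ}, φ.lev ≤ n → (∀ j < n, K j = K' j) →
      ∀ v, φ.c K v = φ.c K' v := by
  intro φ
  induction φ with
  | base w => intro _ n _ _ v; rfl
  | cons w m φ ih =>
    intro h n hn hK v
    have hm : m < n := hn
    show (if w ≤ v then 0 else 1 + K m * φ.c K v) = (if w ≤ v then 0 else 1 + K' m * φ.c K' v)
    rw [hK m hm, ih h.2.1 h.2.2.1 (fun j hj => hK j (hj.trans hm)) v]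

/-- the functional of a flag -/
noncomputable def nu [LE Γ] (ω : Γ → ℝ) (K : ℕ → ℕ) (φ : Flag Γ) : (Γ →₀ ℤ) →+ ℝ :=
  Finsupp.liftAddHom fun v => zmultiplesHom ℝ (ω v * φ.c K v)

/-- the `ℓ¹` norm -/
def nrm (g : Γ →₀ ℤ) : ℕ := g.sum fun _ n => n.natAbs

lemma nu_apply [LE Γ] (ω : Γ → ℝ) (K : ℕ → ℕ) (φ : Flag Γ) (g : Γ →₀ ℤ) :
    nu ω K φ g = ∑ v ∈ g.support, (g v : ℝ) * (ω v * φ.c K v) := by
  unfold nu
  rw [Finsupp.liftAddHom_apply, Finsupp.sum]
  refine Finset.sum_congr rfl fun v _ => ?_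
  rw [zmultiplesHom_apply, zsmul_eq_mul]

lemma nu_single [LE Γ] (ω : Γ → ℝ) (K : ℕ → ℕ) (φ : Flag Γ) (v : Γ) (n : ℤ) :
    nu ω K φ (Finsupp.single v n) = (n : ℝ) * (ω v * φ.c K v) := by
  unfold nu
  rw [Finsupp.liftAddHom_apply_single, zmultiplesHom_apply, zsmul_eq_mul]

lemma nu_congr [LE Γ] [Bot Γ] {L : ℕ → Finset Γ} (ω : Γ → ℝ) {K K' : ℕ → ℕ} {φ : Flag Γ}
    (h : φ.Ok L) {n : ℕ} (hn : φ.lev ≤ n) (hK : ∀ j < n, K j = K' j) (g : Γ →₀ ℤ) :
    nu ω K φ g = nu ω K' φ g := by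
  rw [nu_apply, nu_apply]
  refine Finset.sum_congr rfl fun v _ => ?_
  rw [Flag.c_congr h hn hK v]

lemma abs_nu_le [LE Γ] {ω : Γ → ℝ} (h1 : ∀ v, 1 ≤ ω v) (h2 : ∀ v, ω v ≤ 2) (K : ℕ → ℕ)
    (φ : Flag Γ) (C : ℕ) (hC : ∀ v, φ.c K v ≤ C) (g : Γ →₀ ℤ) :
    |nu ω K φ g| ≤ 2 * C * nrm g := by
  rw [nu_apply]
  refine (Finset.abs_sum_le_sum_abs _ _).trans ?_
  have e : (nrm g : ℝ) = ∑ v ∈ g.support, |(g v : ℝ)| := by
    unfold nrm Finsupp.sum
    push_cast
    refine Finset.sum_congr rfl fun v _ => ?_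
    rw [Nat.cast_natAbs]
    push_cast
    rfl
  rw [e, Finset.mul_sum]
  refine Finset.sum_le_sum fun v _ => ?_
  rw [abs_mul]
  have hc : (0 : ℝ) ≤ φ.c K v := Nat.cast_nonneg _
  have hcC : (φ.c K v : ℝ) ≤ C := Nat.cast_le.mpr (hC v)
  have hw : |ω v * φ.c K v| ≤ 2 * C := by
    rw [abs_of_nonneg (mul_nonneg (zero_le_one.trans (h1 v)) hc)]
    exact mul_le_mul (h2 v) hcC hc (by norm_num)
  rw [mul_comm]
  exact mul_le_mul_of_nonneg_right hw (abs_nonneg _)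

end flags

section existence

variable {Γ : Type}

/-- finitely many values -/
lemma finite_values [LE Γ] [Bot Γ] (L : ℕ → Finset Γ) (ω : Γ → ℝ) (K : ℕ → ℕ) (n : ℕ) :
    {x : ℝ | ∃ (φ : Flag Γ) (g : Γ →₀ ℤ), φ.Ok L ∧ φ.lev ≤ n ∧ g.support ⊆ L n ∧ nrm g ≤ n ∧
      x = nu ω K φ g}.Finite := by
  classical
  set B : ℤ := (n : ℤ) * bd K n with hB
  have hfin : (Set.Icc (fun _ : ↥(L n) => -B) (fun _ => B)).Finite := Set.finite_Icc _ _
  refine (hfin.image fun a : ↥(L n) → ℤ => ∑ v : ↥(L n), (a v : ℝ) * ω v).subset ?_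
  rintro x ⟨φ, g, hφ, hn, hg, hng, rfl⟩
  refine ⟨fun v => g v * (φ.c K v : ℤ), ?_, ?_⟩
  · have key : ∀ v : ↥(L n), |g v * (φ.c K v : ℤ)| ≤ B := by
      intro v
      rw [abs_mul]
      have e1 : |g v| ≤ (n : ℤ) := by
        by_cases hv : (v : Γ) ∈ g.support
        · have : (g v).natAbs ≤ nrm g := by
            unfold nrm Finsupp.sum
            exact Finset.single_le_sum (f := fun v => (g v).natAbs) (fun _ _ => Nat.zero_le _) hv
          rw [Int.abs_eq_natAbs]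
          exact_mod_cast this.trans hng
        · rw [Finsupp.notMem_support_iff] at hv
          rw [hv]
          simp
      have e2 : |(φ.c K v : ℤ)| ≤ (bd K n : ℤ) := by
        rw [abs_of_nonneg (by positivity)]
        exact_mod_cast Flag.c_le_bd K hφ hn v
      exact mul_le_mul e1 e2 (abs_nonneg _) (by positivity)
    exact ⟨fun v => (abs_le.mp (key v)).1, fun v => (abs_le.mp (key v)).2⟩
  · show ∑ v : ↥(L n), ((g v * (φ.c K v : ℤ) : ℤ) : ℝ) * ω v = _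
    rw [nu_apply, Finset.sum_coe_sort (L n) (fun v => ((g v * (φ.c K v : ℤ) : ℤ) : ℝ) * ω v)]
    symm
    refine Finset.sum_subset_zero_on_sdiff hg ?_ ?_
    · intro v hv
      have : g v = 0 := Finsupp.notMem_support_iff.mp (Finset.mem_sdiff.mp hv).2
      simp [this]
    · intro v _
      push_cast
      ring

lemma exists_k [LE Γ] [Bot Γ] (L : ℕ → Finset Γ) (ω : Γ → ℝ) (K : ℕ → ℕ) (n : ℕ) :
    ∃ k : ℕ, ∀ (φ : Flag Γ) (g : Γ →₀ ℤ), φ.Ok L → φ.lev ≤ n → g.support ⊆ L n → nrm g ≤ n →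
      nu ω K φ g ≠ 0 → (2 * n : ℝ) < k * |nu ω K φ g| := by
  obtain ⟨b, hb⟩ := ((finite_values L ω K n).image fun x => (2 * n : ℝ) / |x|).bddAbove
  obtain ⟨k, hk⟩ := exists_nat_gt b
  refine ⟨k, fun φ g hφ hn hg hng h0 => ?_⟩
  have h1 : (2 * n : ℝ) / |nu ω K φ g| ≤ b :=
    hb ⟨nu ω K φ g, ⟨φ, g, hφ, hn, hg, hng, rfl⟩, rfl⟩
  exact (div_lt_iff₀ (abs_pos.mpr h0)).mp (h1.trans_lt hk)

/-- the numbers `K n` -/
lemma exists_K [LE Γ] [Bot Γ] (L : ℕ → Finset Γ) (ω : Γ → ℝ) :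
    ∃ K : ℕ → ℕ, ∀ (n : ℕ) (φ : Flag Γ) (g : Γ →₀ ℤ), φ.Ok L → φ.lev ≤ n → g.support ⊆ L n →
      nrm g ≤ n → nu ω K φ g ≠ 0 → (2 * n : ℝ) < K n * |nu ω K φ g| := by
  classical
  choose k hk using fun K : ℕ → ℕ => exists_k L ω K
  let F : ℕ → ℕ → ℕ := fun n => Nat.rec (fun _ => 0) (fun n f => Function.update f n (k f n)) n
  have hF : ∀ n, F (n + 1) = Function.update (F n) n (k (F n) n) := fun n => rfl
  have hK : ∀ n j, j < n → F n j = F (j + 1) j := by
    intro n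
    induction n with
    | zero => intro j hj; omega
    | succ n ih =>
      intro j hj
      rcases Nat.lt_succ_iff_lt_or_eq.mp hj with h | rfl
      · rw [hF n, Function.update_of_ne (ne_of_lt h)]
        exact ih j h
      · rfl
  refine ⟨fun n => F (n + 1) n, fun n φ g hφ hn hg hng h0 => ?_⟩
  have e : nu ω (fun n => F (n + 1) n) φ g = nu ω (F n) φ g :=
    nu_congr ω hφ hn (fun j hj => (hK n j hj).symm) g
  rw [e] at h0 ⊢
  have e2 : F (n + 1) n = k (F n) n := by rw [hF n, Function.update_self]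
  simp only [e2]
  exact hk (F n) n φ g hφ hn hg hng h0

/-- independent weights -/
lemma exists_omega [Countable Γ] :
    ∃ ω : Γ → ℝ, (∀ v, 1 ≤ ω v) ∧ (∀ v, ω v ≤ 2) ∧
      ∀ f : Γ →₀ ℤ, (∑ v ∈ f.support, (f v : ℝ) * ω v) = 0 → f = 0 := by
  classical
  let b := Module.Basis.ofVectorSpace ℚ ℝ
  have hcard : Cardinal.mk Γ ≤ Cardinal.mk (Module.Basis.ofVectorSpaceIndex ℚ ℝ) := by
    have h1 : Cardinal.mk (Module.Basis.ofVectorSpaceIndex ℚ ℝ) = Cardinal.continuum := by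
      rw [b.mk_eq_rank'', Real.rank_rat_real]
    rw [h1]
    exact (Cardinal.mk_le_aleph0 (α := Γ)).trans Cardinal.aleph0_le_continuum
  obtain ⟨e⟩ := hcard
  have hb : LinearIndependent ℚ fun v : Γ => b (e v) := b.linearIndependent.comp e e.injective
  have hq : ∀ v : Γ, ∃ q : ℚ, q ≠ 0 ∧ 1 ≤ (q : ℝ) * b (e v) ∧ (q : ℝ) * b (e v) ≤ 2 := by
    intro v
    have hne : b (e v) ≠ 0 := b.ne_zero _
    rcases lt_or_gt_of_ne hne with hneg | hpos
    · obtain ⟨q, hq1, hq2⟩ := exists_rat_btwn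
        (show (2 : ℝ) / b (e v) < 1 / b (e v) from
          (div_lt_div_right_of_neg hneg).mpr (by norm_num))
      have h1 : (1 : ℝ) ≤ q * b (e v) := ((lt_div_iff_of_neg hneg).mp hq2).le
      refine ⟨q, ?_, h1, ((div_lt_iff_of_neg hneg).mp hq1).le⟩
      rintro rfl
      norm_num at h1
    · obtain ⟨q, hq1, hq2⟩ := exists_rat_btwn
        (show (1 : ℝ) / b (e v) < 2 / b (e v) by
          exact div_lt_div_of_pos_right (by norm_num) hpos)
      have h1 : (1 : ℝ) ≤ q * b (e v) := ((div_lt_iff₀ hpos).mp hq1).le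
      refine ⟨q, ?_, h1, ((lt_div_iff₀ hpos).mp hq2).le⟩
      rintro rfl
      norm_num at h1
  choose q hq0 hq1 hq2 using hq
  refine ⟨fun v => (q v : ℝ) * b (e v), hq1, hq2, fun f hf => ?_⟩
  have h3 : ∑ v ∈ f.support, ((f v : ℚ) * q v) • b (e v) = 0 := by
    rw [← hf]
    refine Finset.sum_congr rfl fun v _ => ?_
    rw [Rat.smul_def]
    push_cast
    ring
  have h4 := linearIndependent_iff'.mp hb f.support (fun v => (f v : ℚ) * q v) h3
  ext v
  by_cases hv : v ∈ f.support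
  · have h5 := h4 v hv
    rcases mul_eq_zero.mp h5 with h | h
    · exact_mod_cast h
    · exact absurd h (hq0 v)
  · exact Finsupp.notMem_support_iff.mp hv

end existence

/-- the data of section 3 -/
structure Weights (Γ : Type) [SemilatticeInf Γ] [OrderTop Γ] [OrderBot Γ] extends Levels Γ where
  ω : Γ → ℝ
  one_le : ∀ v, 1 ≤ ω v
  le_two : ∀ v, ω v ≤ 2
  indep : ∀ f : Γ →₀ ℤ, (∑ v ∈ f.support, (f v : ℝ) * ω v) = 0 → f = 0
  K : ℕ → ℕ
  hK : ∀ (n : ℕ) (φ : Flag Γ) (g : Γ →₀ ℤ), φ.Ok L → φ.lev ≤ n → g.support ⊆ L n → nrm g ≤ n →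
    Wt.nu ω K φ g ≠ 0 → (2 * n : ℝ) < K n * |Wt.nu ω K φ g|

section main

variable {Γ : Type} [SemilatticeInf Γ] [OrderTop Γ]

lemma Levels.countable (Λ : Levels Γ) : Countable Γ := by
  have : (Set.univ : Set Γ) = ⋃ n, (Λ.L n : Set Γ) := by
    ext v
    simpa using Λ.exh v
  rw [← Set.countable_univ_iff, this]
  exact Set.countable_iUnion fun n => (Λ.L n).countable_toSet

theorem exists_weights [OrderBot Γ] (Λ : Levels Γ) :
    ∃ D : Weights Γ, D.toLevels = Λ := by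
  have := Λ.countable
  obtain ⟨ω, h1, h2, h3⟩ := exists_omega (Γ := Γ)
  obtain ⟨K, hK⟩ := exists_K Λ.L ω
  exact ⟨{ toLevels := Λ, ω := ω, one_le := h1, le_two := h2, indep := h3, K := K, hK := hK }, rfl⟩

lemma Levels.exists_level (Λ : Levels Γ) (s : Finset Γ) (N : ℕ) :
    ∃ n, N ≤ n ∧ s ⊆ Λ.L n := by
  classical
  induction s using Finset.induction_on with
  | empty => exact ⟨N, le_rfl, Finset.empty_subset _⟩
  | insert a s _ ih =>
    obtain ⟨n, hn, hs⟩ := ih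
    obtain ⟨m, hm⟩ := Λ.exh a
    refine ⟨max n m, hn.trans (le_max_left _ _), ?_⟩
    intro x hx
    rcases Finset.mem_insert.mp hx with rfl | hx
    · exact Λ.mono (le_max_right _ _) hm
    · exact Λ.mono (le_max_left _ _) (hs hx)

lemma Levels.inf_mem' (Λ : Levels Γ) {n : ℕ} {s : Finset Γ} (hs : s ⊆ Λ.L n) :
    s.inf id ∈ Λ.L n := by
  classical
  induction s using Finset.induction_on with
  | empty => rw [Finset.inf_empty]; exact Λ.top_mem n
  | insert a s _ ih =>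
    rw [Finset.inf_insert]
    exact Λ.inf_mem n _ _ (hs (Finset.mem_insert_self _ _))
      (ih ((Finset.subset_insert _ _).trans hs))

variable [OrderBot Γ] (D : Weights Γ)

namespace Weights

/-- the functional of a flag -/
noncomputable def nu (φ : Flag Γ) : (Γ →₀ ℤ) →+ ℝ := Wt.nu D.ω D.K φ

/-- the lower set of an element -/
def W (g : Γ →₀ ℤ) : Set Γ := {w | ∀ φ : Flag Γ, φ.Ok D.L → φ.head = w → 0 ≤ D.nu φ g}

/-- the infimum of the support -/
def ifs (g : Γ →₀ ℤ) : Γ := g.support.inf id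

omit [OrderBot Γ] in
lemma le_ifs {g : Γ →₀ ℤ} {u : Γ} : u ≤ ifs g ↔ ∀ v ∈ g.support, u ≤ v := by
  unfold ifs
  rw [Finset.le_inf_iff]
  rfl

lemma nu_single (φ : Flag Γ) (v : Γ) (n : ℤ) :
    D.nu φ (Finsupp.single v n) = (n : ℝ) * (D.ω v * φ.c D.K v) := Wt.nu_single _ _ _ _ _

lemma nu_single_of_le {φ : Flag Γ} {v : Γ} (h : φ.head ≤ v) (n : ℤ) :
    D.nu φ (Finsupp.single v n) = 0 := by
  rw [nu_single, Flag.c_of_le _ h]
  simp

lemma one_le_nu_single {φ : Flag Γ} {v : Γ} (h : ¬ φ.head ≤ v) :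
    1 ≤ D.nu φ (Finsupp.single v 1) := by
  rw [nu_single]
  have h1 : (1 : ℝ) ≤ φ.c D.K v := by exact_mod_cast Flag.one_le_c D.K h
  have h2 := D.one_le v
  push_cast
  nlinarith

lemma nu_single_nonneg (φ : Flag Γ) (v : Γ) : 0 ≤ D.nu φ (Finsupp.single v 1) := by
  by_cases h : φ.head ≤ v
  · rw [D.nu_single_of_le h]
  · exact zero_le_one.trans (D.one_le_nu_single h)

lemma abs_nu_le {φ : Flag Γ} (hφ : φ.Ok D.L) {n : ℕ} (hn : φ.lev ≤ n) (g : Γ →₀ ℤ) :
    |D.nu φ g| ≤ 2 * bd D.K n * nrm g :=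
  Wt.abs_nu_le D.one_le D.le_two _ _ _ (Flag.c_le_bd D.K hφ hn) g

lemma abs_nu_base_le (w : Γ) (g : Γ →₀ ℤ) : |D.nu (.base w) g| ≤ 2 * nrm g := by
  have := Wt.abs_nu_le D.one_le D.le_two D.K (.base w) 1 (Flag.c_base_le_one D.K w) g
  rw [Nat.cast_one, mul_one] at this
  exact this

/-- splitting off the head of a flag -/
lemma nu_cons {w : Γ} {m : ℕ} {φ : Flag Γ} {g : Γ →₀ ℤ}
    (h : ∀ u ∈ g.support, w ≤ u → φ.head ≤ u) :
    D.nu (.cons w m φ) g = D.nu (.base w) g + D.K m * D.nu φ g := by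
  classical
  unfold nu
  rw [nu_apply, nu_apply, nu_apply, Finset.mul_sum, ← Finset.sum_add_distrib]
  refine Finset.sum_congr rfl fun v hv => ?_
  by_cases hwv : w ≤ v
  · rw [Flag.c_of_le D.K (φ := .cons w m φ) hwv, Flag.c_of_le D.K (φ := .base w) hwv,
      Flag.c_of_le D.K (h v hv hwv)]
    simp
  · have e1 : (Flag.cons w m φ).c D.K v = 1 + D.K m * φ.c D.K v := if_neg hwv
    have e2 : (Flag.base w).c D.K v = 1 := if_neg hwv
    rw [e1, e2]
    push_cast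
    ring

/-- (A) -/
theorem nu_nonneg_of {n : ℕ} {g : Γ →₀ ℤ} (hg : g.support ⊆ D.L n) {w : Γ}
    (h : ∀ φ : Flag Γ, φ.Ok D.L → φ.lev ≤ n → (∀ u ∈ D.L n, w ≤ u → φ.head ≤ u) →
      0 ≤ D.nu φ g) :
    ∀ φ : Flag Γ, φ.Ok D.L → (∀ u ∈ D.L n, w ≤ u → φ.head ≤ u) → 0 ≤ D.nu φ g := by
  intro φ
  induction φ with
  | base w' =>
    intro h1 h2
    exact h _ h1 (Nat.zero_le _) h2
  | cons w' m φ ih =>
    intro h1 h2
    rcases lt_or_ge m n with hm | hm
    · exact h _ h1 hm h2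
    · rw [D.nu_cons (fun u hu => h1.2.2.2 u (D.mono hm (hg hu)))]
      refine add_nonneg (h (.base w') h1.1 (Nat.zero_le _) h2)
        (mul_nonneg (Nat.cast_nonneg _) (ih h1.2.1 fun u hu hwu => ?_))
      exact h1.2.2.2 u (D.mono hm hu) (h2 u hu hwu)

theorem mem_W_of {n : ℕ} {g : Γ →₀ ℤ} (hg : g.support ⊆ D.L n) {w : Γ}
    (h : ∀ φ : Flag Γ, φ.Ok D.L → φ.lev ≤ n → (∀ u ∈ D.L n, w ≤ u → φ.head ≤ u) →
      0 ≤ D.nu φ g) : w ∈ D.W g := by
  intro φ hφ hw
  exact D.nu_nonneg_of hg h φ hφ (fun u _ hu => hw ▸ hu)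

/-- (B) -/
theorem nu_nonneg_of_mem {n : ℕ} {g : Γ →₀ ℤ} (hg : g.support ⊆ D.L n) (hn : nrm g ≤ n) {w : Γ}
    (hw : w ≠ ⊥) (h : w ∈ D.W g) {φ : Flag Γ} (hφ : φ.Ok D.L) (hl : φ.lev ≤ n)
    (hc : ∀ u ∈ D.L n, w ≤ u → φ.head ≤ u) : 0 ≤ D.nu φ g := by
  by_contra hneg
  push Not at hneg
  have h1 : 0 ≤ D.nu (.cons w n φ) g := h (.cons w n φ) ⟨hw, hφ, hl, hc⟩ rfl
  rw [D.nu_cons (fun u hu => hc u (hg hu))] at h1
  have h2 := D.hK n φ g hφ hl hg hn hneg.ne
  have h3 : |Wt.nu D.ω D.K φ g| = - D.nu φ g := abs_of_neg hneg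
  rw [h3] at h2
  have h4 := (abs_le.mp (D.abs_nu_base_le w g)).2
  have h5 : (nrm g : ℝ) ≤ n := Nat.cast_le.mpr hn
  linarith

theorem mem_W_iff {n : ℕ} {g : Γ →₀ ℤ} (hg : g.support ⊆ D.L n) (hn : nrm g ≤ n) {w : Γ}
    (hw : w ≠ ⊥) : w ∈ D.W g ↔ ∀ φ : Flag Γ, φ.Ok D.L → φ.lev ≤ n →
      (∀ u ∈ D.L n, w ≤ u → φ.head ≤ u) → 0 ≤ D.nu φ g :=
  ⟨fun h _ hφ hl hc => D.nu_nonneg_of_mem hg hn hw h hφ hl hc, fun h => D.mem_W_of hg h⟩

lemma bot_mem_W (g : Γ →₀ ℤ) : ⊥ ∈ D.W g := fun _ hφ hw => absurd hw hφ.head_ne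

lemma exists_level' (g : Γ →₀ ℤ) (s : Finset Γ) :
    ∃ n, 1 ≤ n ∧ nrm g ≤ n ∧ g.support ⊆ D.L n ∧ s ⊆ D.L n := by
  classical
  obtain ⟨n, hn, hs⟩ := D.toLevels.exists_level (g.support ∪ s) (max 1 (nrm g))
  exact ⟨n, (le_max_left _ _).trans hn, (le_max_right _ _).trans hn,
    Finset.subset_union_left.trans hs, Finset.subset_union_right.trans hs⟩

/-- membership depends on the elements of `L n` above `w` only -/
lemma mem_W_of_le {n : ℕ} {g : Γ →₀ ℤ} (hg : g.support ⊆ D.L n) (hn : nrm g ≤ n) {w w' : Γ}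
    (hw : w ≠ ⊥) (h : w ∈ D.W g) (hc : ∀ u ∈ D.L n, w ≤ u → w' ≤ u) : w' ∈ D.W g :=
  D.mem_W_of hg fun _ hφ hl hc' =>
    D.nu_nonneg_of_mem hg hn hw h hφ hl fun u hu hwu => hc' u hu (hc u hu hwu)

theorem isLowerSet_W (g : Γ →₀ ℤ) : IsLowerSet (D.W g) := by
  intro w w' hw h
  obtain ⟨n, _, hn, hg, _⟩ := D.exists_level' g ∅
  rcases eq_or_ne w ⊥ with rfl | h0
  · rw [le_bot_iff.mp hw]; exact h
  · exact D.mem_W_of_le hg hn h0 h fun u _ hu => hw.trans hu

/-- `W g` is generated by finitely many elements -/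
theorem W_fg (g : Γ →₀ ℤ) : ∃ S : Finset Γ, (∀ r ∈ S, r ∈ D.W g) ∧
    ∀ w ∈ D.W g, ∃ r ∈ S, w ≤ r := by
  classical
  obtain ⟨n, _, hn, hg, _⟩ := D.exists_level' g ∅
  refine ⟨insert ⊥ ((D.L n).filter fun r => r ∈ D.W g), ?_, ?_⟩
  · intro r hr
    rcases Finset.mem_insert.mp hr with rfl | hr
    · exact D.bot_mem_W g
    · exact (Finset.mem_filter.mp hr).2
  · intro w hw
    rcases eq_or_ne w ⊥ with rfl | h0
    · exact ⟨⊥, Finset.mem_insert_self _ _, le_rfl⟩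
    · set r : Γ := ((D.L n).filter fun u => w ≤ u).inf id with hr
      have hwr : w ≤ r := by
        rw [hr, Finset.le_inf_iff]
        exact fun u hu => (Finset.mem_filter.mp hu).2
      have hrL : r ∈ D.L n := D.toLevels.inf_mem' (Finset.filter_subset _ _)
      refine ⟨r, Finset.mem_insert_of_mem (Finset.mem_filter.mpr ⟨hrL, ?_⟩), hwr⟩
      refine D.mem_W_of_le hg hn h0 hw fun u hu hwu => ?_
      have : r ≤ id u := Finset.inf_le (Finset.mem_filter.mpr ⟨hu, hwu⟩)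
      exact this

/-- (W1) -/
lemma W_zero : D.W 0 = Set.univ := by
  ext w
  refine ⟨fun _ => trivial, fun _ φ _ _ => ?_⟩
  rw [map_zero]

lemma W_inter_subset (g h : Γ →₀ ℤ) : D.W g ∩ D.W h ⊆ D.W (g + h) := by
  rintro w ⟨h1, h2⟩ φ hφ hw
  rw [map_add]
  exact add_nonneg (h1 φ hφ hw) (h2 φ hφ hw)

/-- the monoid -/
def M : AddSubmonoid (Γ →₀ ℤ) where
  carrier := {g | D.W g = Set.univ}
  zero_mem' := D.W_zero
  add_mem' := by
    intro g h hg hh
    refine Set.eq_univ_of_univ_subset fun w _ => D.W_inter_subset g h ⟨?_, ?_⟩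
    · rw [show D.W g = Set.univ from hg]; trivial
    · rw [show D.W h = Set.univ from hh]; trivial

lemma mem_M {g : Γ →₀ ℤ} : g ∈ D.M ↔ D.W g = Set.univ := Iff.rfl

lemma mem_M_iff {g : Γ →₀ ℤ} : g ∈ D.M ↔ ∀ φ : Flag Γ, φ.Ok D.L → 0 ≤ D.nu φ g := by
  rw [mem_M, Set.eq_univ_iff_forall]
  exact ⟨fun h φ hφ => h φ.head φ hφ rfl, fun h w φ hφ _ => h φ hφ⟩

/-- membership in `M` can be tested on the flags of bounded level -/
lemma mem_M_of {n : ℕ} {g : Γ →₀ ℤ} (hg : g.support ⊆ D.L n)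
    (h : ∀ φ : Flag Γ, φ.Ok D.L → φ.lev ≤ n → 0 ≤ D.nu φ g) : g ∈ D.M := by
  rw [mem_M, Set.eq_univ_iff_forall]
  exact fun w => D.mem_W_of hg fun φ hφ hl _ => h φ hφ hl

/-- restriction maps: `W (-h) ⊆ W (-g)` for `h - g ∈ M` -/
lemma W_mono {g h : Γ →₀ ℤ} (hgh : h - g ∈ D.M) : D.W g ⊆ D.W h := by
  intro w hw
  have := D.W_inter_subset g (h - g) ⟨hw, by rw [show D.W (h - g) = Set.univ from hgh]; trivial⟩
  rwa [add_sub_cancel] at this

/-- (W2) -/
lemma mem_W_add_single {w v : Γ} (h : w ≤ v) (g : Γ →₀ ℤ) (k : ℤ) :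
    w ∈ D.W (g + Finsupp.single v k) ↔ w ∈ D.W g := by
  refine forall_congr' fun φ => imp_congr_right fun _ => imp_congr_right fun hw => ?_
  rw [map_add, D.nu_single_of_le (hw ▸ h), add_zero]

lemma W_add_single_inter (v : Γ) (g : Γ →₀ ℤ) (k : ℤ) :
    D.W (g + Finsupp.single v k) ∩ Set.Iic v = D.W g ∩ Set.Iic v := by
  ext w
  constructor
  · rintro ⟨h1, h2⟩
    exact ⟨(D.mem_W_add_single h2 g k).mp h1, h2⟩
  · rintro ⟨h1, h2⟩
    exact ⟨(D.mem_W_add_single h2 g k).mpr h1, h2⟩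

lemma single_mem_M (v : Γ) : Finsupp.single v 1 ∈ D.M :=
  D.mem_M_iff.mpr fun φ _ => D.nu_single_nonneg φ v

lemma W_neg_single (v : Γ) : D.W (-Finsupp.single v 1) = Set.Iic v := by
  ext w
  constructor
  · intro h
    by_contra hwv
    have h0 : w ≠ ⊥ := by rintro rfl; exact hwv bot_le
    have h1 := h (.base w) h0 rfl
    rw [map_neg] at h1
    have h2 := D.one_le_nu_single (φ := .base w) (v := v) hwv
    linarith
  · intro h
    have := (D.mem_W_add_single h 0 (-1)).mpr (by rw [D.W_zero]; trivial)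
    rwa [zero_add, Finsupp.single_neg] at this

/-- (W3) -/
lemma W_sub_single {v : Γ} {g : Γ →₀ ℤ} {N : ℕ} (hN : 2 * nrm g < N) :
    D.W (g - Finsupp.single v (N : ℤ)) = D.W g ∩ Set.Iic v := by
  have key : D.W (g - Finsupp.single v (N : ℤ)) ⊆ Set.Iic v := by
    intro w h
    by_contra hwv
    have h0 : w ≠ ⊥ := by rintro rfl; exact hwv bot_le
    have h1 := h (.base w) h0 rfl
    have e : Finsupp.single v (N : ℤ) = N • Finsupp.single v (1 : ℤ) := by
      rw [Finsupp.smul_single]; simp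
    rw [map_sub, e, map_nsmul, nsmul_eq_mul] at h1
    have h2 := D.one_le_nu_single (φ := .base w) (v := v) hwv
    have h3 := (abs_le.mp (D.abs_nu_base_le w g)).2
    have h4 : (2 * nrm g : ℝ) < N := by exact_mod_cast hN
    have h5 : (N : ℝ) ≤ N * D.nu (.base w) (Finsupp.single v 1) :=
      le_mul_of_one_le_right (Nat.cast_nonneg _) h2
    linarith
  have e : g - Finsupp.single v (N : ℤ) = g + Finsupp.single v (-(N : ℤ)) := by
    rw [Finsupp.single_neg, sub_eq_add_neg]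
  rw [← D.W_add_single_inter v g (-(N : ℤ)), ← e]
  exact (Set.inter_eq_left.mpr key).symm

/-- (W4) -/
lemma exists_add_mem_M {w : Γ} {g : Γ →₀ ℤ} (h : w ∈ D.W g) :
    ∃ N : ℕ, g + Finsupp.single w (N : ℤ) ∈ D.M := by
  obtain ⟨n, h1, hn, hg, hw⟩ := D.exists_level' g {w}
  refine ⟨2 * bd D.K n * nrm g, D.mem_M_of (n := n) ?_ ?_⟩
  · classical
    refine Finsupp.support_add.trans (Finset.union_subset hg ?_)
    exact Finsupp.support_single_subset.trans hw
  · intro φ hφ hl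
    rw [map_add]
    by_cases hc : φ.head ≤ w
    · rw [D.nu_single_of_le hc, add_zero]
      exact D.isLowerSet_W g hc h φ hφ rfl
    · have e : Finsupp.single w ((2 * bd D.K n * nrm g : ℕ) : ℤ) =
          (2 * bd D.K n * nrm g) • Finsupp.single w (1 : ℤ) := by
        rw [Finsupp.smul_single]; simp
      rw [e, map_nsmul, nsmul_eq_mul]
      have h2 := D.one_le_nu_single hc
      have h3 := (abs_le.mp (D.abs_nu_le hφ hl g)).1
      have h4 : ((2 * bd D.K n * nrm g : ℕ) : ℝ) ≤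
          (2 * bd D.K n * nrm g : ℕ) * D.nu φ (Finsupp.single w 1) :=
        le_mul_of_one_le_right (Nat.cast_nonneg _) h2
      push_cast at h4 ⊢
      linarith

lemma nu_eq_zero_of_le {g : Γ →₀ ℤ} {φ : Flag Γ} (h : φ.head ≤ ifs g) : D.nu φ g = 0 := by
  unfold nu
  rw [nu_apply]
  refine Finset.sum_eq_zero fun v hv => ?_
  rw [Flag.c_of_le D.K (le_ifs.mp h v hv)]
  simp

lemma nu_ne_zero {g : Γ →₀ ℤ} {φ : Flag Γ} (h : ¬ φ.head ≤ ifs g) : D.nu φ g ≠ 0 := by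
  classical
  intro h0
  rw [le_ifs] at h
  push Not at h
  obtain ⟨v, hv, hhv⟩ := h
  let f : Γ →₀ ℤ := Finsupp.onFinset g.support (fun v => g v * (φ.c D.K v : ℤ)) (by
    intro v hv
    exact Finsupp.mem_support_iff.mpr (left_ne_zero_of_mul hv))
  have hf : f = 0 := by
    refine D.indep f ?_
    unfold nu at h0
    rw [nu_apply] at h0
    rw [← h0]
    refine Finset.sum_subset_zero_on_sdiff Finsupp.support_onFinset_subset ?_ ?_
    · intro u hu
      have hu' : g u * (φ.c D.K u : ℤ) = 0 :=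
        Finsupp.notMem_support_iff.mp (Finset.mem_sdiff.mp hu).2
      have hu'' : (g u : ℝ) * (φ.c D.K u : ℝ) = 0 := by exact_mod_cast hu'
      rw [mul_left_comm, hu'', mul_zero]
    · intro u _
      show ((g u * (φ.c D.K u : ℤ) : ℤ) : ℝ) * D.ω u = _
      push_cast
      ring
  have h1 : g v * (φ.c D.K v : ℤ) = 0 := DFunLike.congr_fun hf v
  rcases mul_eq_zero.mp h1 with h2 | h2
  · exact Finsupp.mem_support_iff.mp hv h2
  · have := Flag.one_le_c D.K hhv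
    have h3 : φ.c D.K v = 0 := by exact_mod_cast h2
    omega

/-- (W5), first half -/
lemma exists_nsmul_sub_single_mem_M {g : Γ →₀ ℤ} (hg : g ∈ D.M) :
    ∃ N : ℕ, N • g - Finsupp.single (ifs g) 1 ∈ D.M := by
  obtain ⟨n, h1, hn, hs, _⟩ := D.exists_level' g ∅
  have hv : ifs g ∈ D.L n := D.toLevels.inf_mem' hs
  refine ⟨bd D.K n * D.K n, D.mem_M_of (n := n) ?_ ?_⟩
  · classical
    refine Finsupp.support_sub.trans (Finset.union_subset ?_ ?_)
    · exact Finsupp.support_smul.trans hs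
    · exact Finsupp.support_single_subset.trans (Finset.singleton_subset_iff.mpr hv)
  · intro φ hφ hl
    rw [map_sub, map_nsmul, nsmul_eq_mul]
    by_cases hc : φ.head ≤ ifs g
    · rw [D.nu_single_of_le hc, D.nu_eq_zero_of_le hc]
      simp
    · have h0 := D.nu_ne_zero hc
      have hnn : 0 ≤ D.nu φ g := D.mem_M_iff.mp hg φ hφ
      have h2 := D.hK n φ g hφ hl hs hn h0
      have h3 : |Wt.nu D.ω D.K φ g| = D.nu φ g := abs_of_nonneg hnn
      rw [h3] at h2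
      have h4 := (abs_le.mp (D.abs_nu_le hφ hl (Finsupp.single (ifs g) 1))).2
      have h5 : nrm (Finsupp.single (ifs g) (1 : ℤ)) = 1 := by
        unfold nrm
        rw [Finsupp.sum_single_index] <;> simp
      rw [h5] at h4
      have h6 : (2 : ℝ) ≤ D.K n * D.nu φ g := by
        have : (1 : ℝ) ≤ n := by exact_mod_cast h1
        linarith
      have h7 : (0 : ℝ) ≤ bd D.K n := Nat.cast_nonneg _
      push_cast at h4 ⊢
      nlinarith [mul_le_mul_of_nonneg_left h6 h7]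

/-- (W5), second half and its converse: for `g ∈ M` some multiple of `e_u` dominates `g` if and
only if `u ≤ inf supp g` -/
theorem exists_single_sub_mem_M_iff {g : Γ →₀ ℤ} (hg : g ∈ D.M) (u : Γ) :
    (∃ N : ℕ, Finsupp.single u (N : ℤ) - g ∈ D.M) ↔ u ≤ ifs g := by
  constructor
  · rintro ⟨N, hN⟩
    by_contra hu
    have h0 : u ≠ ⊥ := by rintro rfl; exact hu bot_le
    have hne := D.nu_ne_zero (φ := .base u) hu
    have h1 := D.mem_M_iff.mp hN (.base u) h0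
    have h2 := D.mem_M_iff.mp hg (.base u) h0
    have e0 : D.nu (.base u) (Finsupp.single u (N : ℤ)) = 0 :=
      D.nu_single_of_le (φ := .base u) (v := u) le_rfl N
    rw [map_sub, e0] at h1
    exact hne (le_antisymm (by linarith) h2)
  · intro hu
    obtain ⟨n, h1, hn, hs, hu'⟩ := D.exists_level' g {u}
    refine ⟨2 * bd D.K n * nrm g, D.mem_M_of (n := n) ?_ ?_⟩
    · classical
      refine Finsupp.support_sub.trans (Finset.union_subset ?_ hs)
      exact Finsupp.support_single_subset.trans hu'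
    · intro φ hφ hl
      rw [map_sub]
      by_cases hc : φ.head ≤ u
      · rw [D.nu_single_of_le hc, D.nu_eq_zero_of_le (hc.trans hu), sub_zero]
      · have e : Finsupp.single u ((2 * bd D.K n * nrm g : ℕ) : ℤ) =
            (2 * bd D.K n * nrm g) • Finsupp.single u (1 : ℤ) := by
          rw [Finsupp.smul_single]; simp
        rw [e, map_nsmul, nsmul_eq_mul]
        have h2 := D.one_le_nu_single hc
        have h3 := (abs_le.mp (D.abs_nu_le hφ hl g)).2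
        have h4 : ((2 * bd D.K n * nrm g : ℕ) : ℝ) ≤
            (2 * bd D.K n * nrm g : ℕ) * D.nu φ (Finsupp.single u 1) :=
          le_mul_of_one_le_right (Nat.cast_nonneg _) h2
        push_cast at h4 ⊢
        linarith

omit [OrderBot Γ] in
lemma ifs_single (u : Γ) : ifs (Finsupp.single u (1 : ℤ)) = u := by
  classical
  unfold ifs
  rw [Finsupp.support_single u one_ne_zero, Finset.inf_singleton]
  rfl

/-- relations of `M`: a multiple of `e_v` dominates `e_u` for `v ≤ u` -/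
lemma exists_single_sub_single {u v : Γ} (h : v ≤ u) :
    ∃ N : ℕ, Finsupp.single v (N : ℤ) - Finsupp.single u 1 ∈ D.M :=
  (D.exists_single_sub_mem_M_iff (D.single_mem_M u) v).mpr (by rwa [ifs_single])

/-- relations of `M`: a multiple of `e_u + e_v` dominates `e_{u ⊓ v}` -/
lemma exists_nsmul_add_sub (u v : Γ) :
    ∃ N : ℕ, N • (Finsupp.single u 1 + Finsupp.single v 1) - Finsupp.single (u ⊓ v) (1 : ℤ) ∈
      D.M := by
  classical
  have e : ifs (Finsupp.single u (1 : ℤ) + Finsupp.single v 1) = u ⊓ v := by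
    have hs : (Finsupp.single u (1 : ℤ) + Finsupp.single v 1).support = {u, v} := by
      ext x
      rw [Finsupp.mem_support_iff, Finsupp.add_apply, Finsupp.single_apply, Finsupp.single_apply,
        Finset.mem_insert, Finset.mem_singleton]
      constructor
      · intro h
        by_contra h'
        push Not at h'
        rw [if_neg (Ne.symm h'.1), if_neg (Ne.symm h'.2)] at h
        exact h rfl
      · rintro (rfl | rfl)
        · rw [if_pos rfl]; split_ifs <;> norm_num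
        · rw [if_pos rfl]; split_ifs <;> norm_num
    unfold ifs
    rw [hs, Finset.inf_insert, Finset.inf_singleton]
    rfl
  obtain ⟨N, hN⟩ := D.exists_nsmul_sub_single_mem_M
    (D.M.add_mem (D.single_mem_M u) (D.single_mem_M v))
  rw [e] at hN
  exact ⟨N, hN⟩

end Weights

end main

end MP40506.CX.Wt
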