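import Mathlib

/-!
# The words and their order

Words over the letters `Y, a, b` (`a = 1`, `b = 2` of the paper proof), stored REVERSED:
the head of the list is the last letter, so that `prefix` is `<:+`.
-/

set_option linter.unusedSectionVars false

namespace MP40506.CX

/-- the three letters -/
inductive L | Y | a | b
  deriving DecidableEq, Repr, Inhabited

/-- words, stored reversed (last letter first) -/
abbrev Word := List L

open L

instance : Fintype L := ⟨{Y, a, b}, fun x => by cases x <;> decide⟩

/-- the tokens of a word (a list of at most three proper prefixes) -/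
def At : Word → List Word
  | [] => []
  | Y :: _ => []
  | a :: w => (At w).take 2 ++ [w]
  | b :: w => (At w).drop 2 ++ [w]

@[simp] lemma At_nil : At [] = [] := rfl
@[simp] lemma At_Y (w : Word) : At (Y :: w) = [] := rfl
lemma At_a (w : Word) : At (a :: w) = (At w).take 2 ++ [w] := rfl
lemma At_b (w : Word) : At (b :: w) = (At w).drop 2 ++ [w] := rfl

/-- the order on words: `Word.le w' w` iff `w` is a prefix of `w'` or `uY` is a prefix of `w'`
for a token `u` of `w` -/
def Word.le (w' w : Word) : Prop := w <:+ w' ∨ ∃ u ∈ At w, (Y :: u) <:+ w'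

instance (w' w : Word) : Decidable (Word.le w' w) :=
  inferInstanceAs (Decidable (w <:+ w' ∨ ∃ u ∈ At w, (Y :: u) <:+ w'))

/-! ### tokens -/

lemma At_length_le (w : Word) : (At w).length ≤ 3 := by
  match w with
  | [] => simp
  | Y :: _ => simp
  | a :: w => rw [At_a]; simp
  | b :: w =>
    have := At_length_le w
    rw [At_b]; simp; omega

lemma mem_At_cons {i : L} {w u : Word} (h : u ∈ At (i :: w)) : u ∈ At w ∨ u = w := by
  cases i with
  | Y => simp at h
  | a =>
    rw [At_a, List.mem_append] at h
    rcases h with h | h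
    · exact Or.inl (List.mem_of_mem_take h)
    · exact Or.inr (by simpa using h)
  | b =>
    rw [At_b, List.mem_append] at h
    rcases h with h | h
    · exact Or.inl (List.mem_of_mem_drop h)
    · exact Or.inr (by simpa using h)

lemma ne_Y_of_mem_At {i : L} {w u : Word} (h : u ∈ At (i :: w)) : i ≠ Y := by
  rintro rfl; simp at h

/-- a token of `w` is a proper prefix after which no letter `Y` occurs in `w` -/
lemma mem_At_suffix {w u : Word} (h : u ∈ At w) : ∃ t : Word, t ≠ [] ∧ Y ∉ t ∧ w = t ++ u := by
  induction w with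
  | nil => simp at h
  | cons i w ih =>
    have hi := ne_Y_of_mem_At h
    rcases mem_At_cons h with h | rfl
    · obtain ⟨t, ht, hY, rfl⟩ := ih h
      exact ⟨i :: t, by simp, by simp [hY, hi.symm], rfl⟩
    · exact ⟨[i], by simp, by simp [hi.symm], rfl⟩

lemma suffix_of_mem_At {w u : Word} (h : u ∈ At w) : u <:+ w := by
  obtain ⟨t, -, -, rfl⟩ := mem_At_suffix h
  exact List.suffix_append _ _

lemma length_lt_of_mem_At {w u : Word} (h : u ∈ At w) : u.length < w.length := by
  obtain ⟨t, ht, -, rfl⟩ := mem_At_suffix h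
  have : 0 < t.length := List.length_pos_iff.2 ht
  simp; omega

lemma mem_At_ne {w u : Word} (h : u ∈ At w) : u ≠ w := by
  rintro rfl
  exact lt_irrefl _ (length_lt_of_mem_At h)

lemma self_notMem_At (w : Word) : w ∉ At w := fun h => mem_At_ne h rfl

/-- the letter after the token `u` of `w` is `a` or `b` -/
lemma mem_At_next {w u : Word} (h : u ∈ At w) : a :: u <:+ w ∨ b :: u <:+ w := by
  obtain ⟨t, ht, hY, rfl⟩ := mem_At_suffix h
  obtain ⟨s, i, rfl⟩ : ∃ s i, t = s ++ [i] := ⟨_, _, (List.dropLast_append_getLast ht).symm⟩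
  have hi : i ≠ Y := by rintro rfl; simp at hY
  cases i with
  | Y => exact absurd rfl hi
  | a => left; exact ⟨s, by simp⟩
  | b => right; exact ⟨s, by simp⟩

lemma not_Y_suffix_of_mem_At {w u v : Word} (h : u ∈ At w) (h1 : u <:+ v) : ¬ (Y :: v) <:+ w := by
  rintro ⟨s, hs⟩
  obtain ⟨r, rfl⟩ := h1
  obtain ⟨t, ht, hY, rfl⟩ := mem_At_suffix h
  apply hY
  have : s ++ Y :: (r ++ u) = (s ++ Y :: r) ++ u := by simp
  rw [this] at hs
  rw [← List.append_cancel_right hs]
  simp

lemma At_nodup (w : Word) : (At w).Nodup := by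
  induction w with
  | nil => simp
  | cons i w ih =>
    cases i with
    | Y => simp
    | a =>
      rw [At_a, List.nodup_append]
      refine ⟨ih.sublist (List.take_sublist _ _), by simp, ?_⟩
      rintro x hx y hy rfl
      simp only [List.mem_singleton] at hy
      subst hy
      exact self_notMem_At _ (List.mem_of_mem_take hx)
    | b =>
      rw [At_b, List.nodup_append]
      refine ⟨ih.sublist (List.drop_sublist _ _), by simp, ?_⟩
      rintro x hx y hy rfl
      simp only [List.mem_singleton] at hy
      subst hy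
      exact self_notMem_At _ (List.mem_of_mem_drop hx)

/-- each token of `w` is inherited by `w1` or `w2` ... -/
lemma mem_At_a_or_b {w u : Word} (h : u ∈ At w) : u ∈ At (a :: w) ∨ u ∈ At (b :: w) := by
  rw [At_a, At_b, List.mem_append, List.mem_append]
  rw [← List.take_append_drop 2 (At w), List.mem_append] at h
  tauto

/-- ... but not by both -/
lemma not_mem_At_a_b {w u : Word} (h : u ∈ At w) (ha : u ∈ At (a :: w)) : u ∉ At (b :: w) := by
  intro hb
  rw [At_a, List.mem_append, List.mem_singleton] at ha
  rw [At_b, List.mem_append, List.mem_singleton] at hb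
  have hne := mem_At_ne h
  have ha' : u ∈ (At w).take 2 := ha.resolve_right hne
  have hb' : u ∈ (At w).drop 2 := hb.resolve_right hne
  have := At_nodup w
  rw [← List.take_append_drop 2 (At w), List.nodup_append] at this
  exact this.2.2 u ha' u hb' rfl

lemma self_mem_At_a (w : Word) : w ∈ At (a :: w) := by rw [At_a]; simp
lemma self_mem_At_b (w : Word) : w ∈ At (b :: w) := by rw [At_b]; simp

/-- tokens persist downwards: a token of a longer word is a token of the prefixes containing it -/
lemma mem_At_of_suffix {u w w' : Word} (h : u ∈ At w') (h1 : u <:+ w) (h2 : w <:+ w')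
    (h3 : u ≠ w) : u ∈ At w := by
  induction w' with
  | nil => simp at h
  | cons i w' ih =>
    rcases List.suffix_cons_iff.1 h2 with rfl | h2
    · exact h
    · rcases mem_At_cons h with h | rfl
      · exact ih h h2
      · exact absurd (List.Sublist.antisymm h1.sublist h2.sublist) h3

lemma suffix_antisymm {u v : Word} (h : u <:+ v) (h' : v <:+ u) : u = v :=
  List.Sublist.antisymm h.sublist h'.sublist

lemma suffix_of_ne {i : L} {u v : Word} (h : v <:+ i :: u) (h' : v ≠ i :: u) : v <:+ u :=
  (List.suffix_cons_iff.1 h).resolve_left h'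

lemma suffix_total {u v w : Word} (h : u <:+ w) (h' : v <:+ w) : u <:+ v ∨ v <:+ u :=
  List.suffix_or_suffix_of_suffix h h'

lemma suffix_of_cons {i : L} {u v : Word} (h : i :: u <:+ v) : u <:+ v :=
  (List.suffix_cons i u).trans h

/-! ### the order -/

lemma Word.le_refl (w : Word) : Word.le w w := Or.inl (List.suffix_refl w)

lemma Word.le_trans {x y z : Word} (h : Word.le x y) (h' : Word.le y z) : Word.le x z := by
  rcases h with h | ⟨u, hu, h⟩
  · rcases h' with h' | ⟨u', hu', h'⟩
    · exact Or.inl (h'.trans h)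
    · exact Or.inr ⟨u', hu', h'.trans h⟩
  · rcases h' with h' | ⟨u', hu', h'⟩
    · rcases suffix_total (suffix_of_mem_At hu) h' with h2 | h2
      · by_cases he : u = z
        · subst he
          exact Or.inl (suffix_of_cons h)
        · exact Or.inr ⟨u, mem_At_of_suffix hu h2 h' he, h⟩
      · exact Or.inl (h2.trans (suffix_of_cons h))
    · rcases suffix_total (suffix_of_mem_At hu) h' with h2 | h2
      · by_cases he : u = Y :: u'
        · subst he
          exact Or.inr ⟨u', hu', suffix_of_cons h⟩
        · exact absurd h' (not_Y_suffix_of_mem_At hu (suffix_of_ne h2 he))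
      · exact Or.inr ⟨u', hu', h2.trans (suffix_of_cons h)⟩

lemma Word.le_antisymm {x y : Word} (h : Word.le x y) (h' : Word.le y x) : x = y := by
  rcases h with h | ⟨u, hu, h⟩
  · rcases h' with h' | ⟨u', hu', h'⟩
    · exact suffix_antisymm h' h
    · exact absurd (h'.trans h) (not_Y_suffix_of_mem_At hu' (List.suffix_refl _))
  · rcases h' with h' | ⟨u', hu', h'⟩
    · exact absurd (h.trans h') (not_Y_suffix_of_mem_At hu (List.suffix_refl _))
    · exfalso
      -- `u ∈ At y`, `Y::u <:+ x`, `u' ∈ At x`, `Y::u' <:+ y`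
      have h1 : Y :: u' <:+ u := by
        rcases suffix_total (suffix_of_mem_At hu) h' with h2 | h2
        · by_cases he : u = Y :: u'
          · exact he ▸ List.suffix_refl _
          · exact absurd h' (not_Y_suffix_of_mem_At hu (suffix_of_ne h2 he))
        · exact h2
      have h2 : Y :: u <:+ u' := by
        rcases suffix_total (suffix_of_mem_At hu') h with h2 | h2
        · by_cases he : u' = Y :: u
          · exact he ▸ List.suffix_refl _
          · exact absurd h (not_Y_suffix_of_mem_At hu' (suffix_of_ne h2 he))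
        · exact h2
      have l1 := h1.length_le
      have l2 := h2.length_le
      simp only [List.length_cons] at l1 l2
      omega

instance : PartialOrder Word where
  le := Word.le
  le_refl := Word.le_refl
  le_trans _ _ _ := Word.le_trans
  le_antisymm _ _ := Word.le_antisymm

lemma word_le_iff {x y : Word} : x ≤ y ↔ y <:+ x ∨ ∃ u ∈ At y, (Y :: u) <:+ x := Iff.rfl

instance (x y : Word) : Decidable (x ≤ y) := inferInstanceAs (Decidable (Word.le x y))

lemma le_of_suffix {x y : Word} (h : y <:+ x) : x ≤ y := Or.inl h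

lemma le_of_mem_At {x y u : Word} (h : u ∈ At y) (h' : Y :: u <:+ x) : x ≤ y := Or.inr ⟨u, h, h'⟩

lemma Y_cons_le_of_mem_At {y u : Word} (h : u ∈ At y) : Y :: u ≤ y :=
  le_of_mem_At h (List.suffix_refl _)

lemma le_nil (x : Word) : x ≤ [] := Or.inl (List.nil_suffix)

lemma cons_le (i : L) (w : Word) : i :: w ≤ w := Or.inl (List.suffix_cons i w)

lemma cons_lt (i : L) (w : Word) : i :: w < w :=
  lt_of_le_of_ne (cons_le i w) (by simp)

lemma le_Y_iff {x w : Word} : x ≤ Y :: w ↔ Y :: w <:+ x := by
  rw [word_le_iff]; simp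

lemma Y_le_a (w : Word) : Y :: w ≤ a :: w := Y_cons_le_of_mem_At (self_mem_At_a w)

lemma Y_le_b (w : Word) : Y :: w ≤ b :: w := Y_cons_le_of_mem_At (self_mem_At_b w)

/-- a word strictly below `w` is below `w1` or `w2` -/
lemma le_a_or_b {x w : Word} (h : x < w) : x ≤ a :: w ∨ x ≤ b :: w := by
  rcases h.le with h1 | ⟨u, hu, h1⟩
  · obtain ⟨t, rfl⟩ := h1
    have ht : t ≠ [] := by rintro rfl; exact lt_irrefl _ h
    obtain ⟨s, i, rfl⟩ : ∃ s i, t = s ++ [i] := ⟨_, _, (List.dropLast_append_getLast ht).symm⟩
    have h2 : s ++ [i] ++ w ≤ i :: w := le_of_suffix ⟨s, by simp⟩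
    cases i with
    | Y => exact Or.inl (h2.trans (Y_le_a w))
    | a => exact Or.inl h2
    | b => exact Or.inr h2
  · rcases mem_At_a_or_b hu with h2 | h2
    · exact Or.inl (le_of_mem_At h2 h1)
    · exact Or.inr (le_of_mem_At h2 h1)

lemma le_iff_a_b {x w : Word} : x ≤ w ↔ x = w ∨ x ≤ a :: w ∨ x ≤ b :: w := by
  constructor
  · intro h
    rcases h.eq_or_lt with h | h
    · exact Or.inl h
    · exact Or.inr (le_a_or_b h)
  · rintro (rfl | h | h)
    · exact _root_.le_refl _
    · exact h.trans (cons_le _ _)
    · exact h.trans (cons_le _ _)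

/-- `w'` extends exactly one of `w`'s one-letter extensions -/
lemma suffix_cons_inj {i j : L} {w x : Word} (h : i :: w <:+ x) (h' : j :: w <:+ x) : i = j := by
  rcases suffix_total h h' with h1 | h1
  · have := h1.eq_of_length (by simp)
    simpa using this
  · have := h1.eq_of_length (by simp)
    simpa using this.symm

/-- two incomparable prefixes split at their longest common prefix -/
lemma exists_split (x y : Word) (h : ¬ x <:+ y) (h' : ¬ y <:+ x) :
    ∃ (c : Word) (i j : L), i ≠ j ∧ i :: c <:+ x ∧ j :: c <:+ y := by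
  induction x with
  | nil => exact absurd List.nil_suffix h
  | cons i x ih =>
    by_cases hx : x <:+ y
    · obtain ⟨t, rfl⟩ := hx
      have ht : t ≠ [] := by
        rintro rfl
        exact h' (List.suffix_cons i x)
      obtain ⟨s, j, rfl⟩ : ∃ s j, t = s ++ [j] := ⟨_, _, (List.dropLast_append_getLast ht).symm⟩
      refine ⟨x, i, j, ?_, List.suffix_refl _, ⟨s, by simp⟩⟩
      rintro rfl
      exact h ⟨s, by simp⟩
    · obtain ⟨c, i', j, hij, h1, h2⟩ := ih hx (fun h2 => h' (h2.trans (List.suffix_cons i x)))
      exact ⟨c, i', j, hij, h1.trans (List.suffix_cons i x), h2⟩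

/-- a common token of two words which split after `c` is `c` -/
lemma common_token {x y c u : Word} {i j : L} (hij : i ≠ j) (hx : i :: c <:+ x)
    (hy : j :: c <:+ y) (hux : u ∈ At x) (huy : u ∈ At y) : u = c := by
  rcases suffix_total (suffix_of_mem_At hux) (suffix_of_cons hx) with h1 | h1
  · by_contra hne
    have e1 : u ∈ At (i :: c) := by
      refine mem_At_of_suffix hux (h1.trans (List.suffix_cons _ _)) hx ?_
      rintro rfl
      have := h1.length_le
      simp at this
    have e2 : u ∈ At (j :: c) := by
      refine mem_At_of_suffix huy (h1.trans (List.suffix_cons _ _)) hy ?_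
      rintro rfl
      have := h1.length_le
      simp at this
    have hi := ne_Y_of_mem_At e1
    have hj := ne_Y_of_mem_At e2
    have hc : u ∈ At c := (mem_At_cons e1).resolve_right hne
    cases i with
    | Y => exact hi rfl
    | a => cases j with
      | Y => exact hj rfl
      | a => exact hij rfl
      | b => exact not_mem_At_a_b hc e1 e2
    | b => cases j with
      | Y => exact hj rfl
      | a => exact not_mem_At_a_b hc e2 e1
      | b => exact hij rfl
  · -- `c <:+ u`, and `u` is a prefix of both words
    by_contra hne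
    have hcu : ∃ k : L, k :: c <:+ u := by
      obtain ⟨t, rfl⟩ := h1
      have ht : t ≠ [] := by rintro rfl; exact hne rfl
      obtain ⟨s, k, rfl⟩ : ∃ s k, t = s ++ [k] := ⟨_, _, (List.dropLast_append_getLast ht).symm⟩
      exact ⟨k, s, by simp⟩
    obtain ⟨k, hk⟩ := hcu
    exact hij ((suffix_cons_inj hx (hk.trans (suffix_of_mem_At hux))).trans
      (suffix_cons_inj hy (hk.trans (suffix_of_mem_At huy))).symm)

/-- common lower bounds of incomparable words -/
lemma common_lower {x y v : Word} (h : ¬ x ≤ y) (h' : ¬ y ≤ x) (hx : v ≤ x) (hy : v ≤ y) :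
    ∃ u, u ∈ At x ∧ u ∈ At y ∧ Y :: u <:+ v := by
  rcases hx with hx | ⟨u, hu, hx⟩
  · rcases hy with hy | ⟨u', hu', hy⟩
    · rcases suffix_total hx hy with h1 | h1
      · exact absurd (le_of_suffix h1) h'
      · exact absurd (le_of_suffix h1) h
    · exfalso
      rcases suffix_total hx hy with h1 | h1
      · by_cases he : x = Y :: u'
        · subst he
          exact h (Y_cons_le_of_mem_At hu')
        · exact h' (le_of_suffix ((suffix_of_ne h1 he).trans (suffix_of_mem_At hu')))
      · exact h (le_of_mem_At hu' h1)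
  · rcases hy with hy | ⟨u', hu', hy⟩
    · exfalso
      rcases suffix_total hx hy with h1 | h1
      · exact h' (le_of_mem_At hu h1)
      · by_cases he : y = Y :: u
        · subst he
          exact h' (Y_cons_le_of_mem_At hu)
        · exact h (le_of_suffix ((suffix_of_ne h1 he).trans (suffix_of_mem_At hu)))
    · rcases suffix_total hx hy with h1 | h1
      · by_cases he : (Y :: u : Word) = Y :: u'
        · have : u = u' := by simpa using he
          subst this
          exact ⟨u, hu, hu', hx⟩
        · exact absurd (le_of_mem_At hu ((suffix_of_ne h1 he).trans (suffix_of_mem_At hu'))) h'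
      · by_cases he : (Y :: u' : Word) = Y :: u
        · have : u = u' := by simpa using he.symm
          subst this
          exact ⟨u, hu, hu', hx⟩
        · exact absurd (le_of_mem_At hu' ((suffix_of_ne h1 he).trans (suffix_of_mem_At hu))) h

/-- the words below `w1` and `w2` are the words below `wY` -/
lemma le_Y_of_le_a_b {v w : Word} (ha : v ≤ a :: w) (hb : v ≤ b :: w) : v ≤ Y :: w := by
  have hab : ¬ (a :: w : Word) ≤ b :: w := by
    rintro (h1 | ⟨u, hu, h1⟩)
    · have := suffix_cons_inj (List.suffix_refl (a :: w)) h1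
      simp at this
    · refine not_Y_suffix_of_mem_At ?_ (List.suffix_refl _) h1 (u := u)
      have : u <:+ w := by
        rcases mem_At_cons hu with h2 | rfl
        · exact suffix_of_mem_At h2
        · exact List.suffix_refl _
      have h3 : Y :: u <:+ w := suffix_of_ne h1 (by simp)
      rcases mem_At_cons hu with h2 | rfl
      · exact absurd h3 (not_Y_suffix_of_mem_At h2 (List.suffix_refl _))
      · have := h3.length_le
        simp at this
  have hba : ¬ (b :: w : Word) ≤ a :: w := by
    rintro (h1 | ⟨u, hu, h1⟩)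
    · have := suffix_cons_inj (List.suffix_refl (b :: w)) h1
      simp at this
    · have h3 : Y :: u <:+ w := suffix_of_ne h1 (by simp)
      rcases mem_At_cons hu with h2 | rfl
      · exact absurd h3 (not_Y_suffix_of_mem_At h2 (List.suffix_refl _))
      · have := h3.length_le
        simp at this
  obtain ⟨u, hu, hu', h3⟩ := common_lower hab hba ha hb
  have : u = w := common_token (i := a) (j := b) (by simp) (List.suffix_refl _)
    (List.suffix_refl _) hu hu'
  subst this
  exact le_of_suffix h3

lemma le_a_b_iff {v w : Word} : v ≤ a :: w ∧ v ≤ b :: w ↔ v ≤ Y :: w :=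
  ⟨fun h => le_Y_of_le_a_b h.1 h.2, fun h => ⟨h.trans (Y_le_a w), h.trans (Y_le_b w)⟩⟩

lemma a_b_incomp (w : Word) : ¬ (a :: w : Word) ≤ b :: w ∧ ¬ (b :: w : Word) ≤ a :: w := by
  constructor
  · intro h
    have h1 : (a :: w : Word) ≤ Y :: w := le_Y_of_le_a_b (_root_.le_refl _) h
    have h2 : (Y :: w : Word) = a :: w := _root_.le_antisymm (Y_le_a w) h1
    simp at h2
  · intro h
    have h1 : (b :: w : Word) ≤ Y :: w := le_Y_of_le_a_b h (_root_.le_refl _)
    have h2 : (Y :: w : Word) = b :: w := _root_.le_antisymm (Y_le_b w) h1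
    simp at h2

/-- two words have a greatest common lower bound or no common lower bound at all -/
lemma exists_glb (x y : Word) :
    (∃ m : Word, m.length ≤ max x.length y.length ∧ m ≤ x ∧ m ≤ y ∧
      ∀ v, v ≤ x → v ≤ y → v ≤ m) ∨ ∀ v, v ≤ x → ¬ v ≤ y := by
  by_cases h : x ≤ y
  · exact Or.inl ⟨x, le_max_left _ _, _root_.le_refl _, h, fun v hv _ => hv⟩
  by_cases h' : y ≤ x
  · exact Or.inl ⟨y, le_max_right _ _, h', _root_.le_refl _, fun v _ hv => hv⟩
  by_cases hc : ∃ u, u ∈ At x ∧ u ∈ At y
  · obtain ⟨u, hux, huy⟩ := hc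
    left
    refine ⟨Y :: u, ?_, Y_cons_le_of_mem_At hux, Y_cons_le_of_mem_At huy, ?_⟩
    · have := length_lt_of_mem_At hux
      simp only [List.length_cons]
      omega
    · intro v hvx hvy
      obtain ⟨u', h1, h2, h3⟩ := common_lower h h' hvx hvy
      obtain ⟨c, i, j, hij, e1, e2⟩ := exists_split x y (fun e => h' (le_of_suffix e))
        (fun e => h (le_of_suffix e))
      have e3 := common_token hij e1 e2 hux huy
      have e4 := common_token hij e1 e2 h1 h2
      rw [e3, ← e4]
      exact le_of_suffix h3
  · right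
    intro v hvx hvy
    obtain ⟨u', h1, h2, -⟩ := common_lower h h' hvx hvy
    exact hc ⟨u', h1, h2⟩

/-! ### the semilattice -/

/-- the semilattice: words with a bottom element; the top is the empty word -/
abbrev Gam := WithBot Word

instance : OrderTop Word where
  top := []
  le_top := le_nil

lemma top_eq : (⊤ : Word) = [] := rfl

/-- the length of a word, `0` for the bottom element -/
def lev : Gam → ℕ := WithBot.recBotCoe 0 List.length

@[simp] lemma lev_bot : lev ⊥ = 0 := rfl
@[simp] lemma lev_coe (w : Word) : lev (w : Gam) = w.length := rfl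

lemma exists_inf (x y : Gam) : ∃ z : Gam, lev z ≤ max (lev x) (lev y) ∧ z ≤ x ∧ z ≤ y ∧
    ∀ v, v ≤ x → v ≤ y → v ≤ z := by
  induction x using WithBot.recBotCoe with
  | bot => exact ⟨⊥, by simp, _root_.le_refl _, bot_le, fun v hv _ => hv⟩
  | coe x =>
    induction y using WithBot.recBotCoe with
    | bot => exact ⟨⊥, by simp, bot_le, _root_.le_refl _, fun v _ hv => hv⟩
    | coe y =>
      rcases exists_glb x y with ⟨m, h1, h2, h3, h4⟩ | h
      · refine ⟨m, h1, WithBot.coe_le_coe.2 h2, WithBot.coe_le_coe.2 h3, fun v => ?_⟩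
        induction v using WithBot.recBotCoe with
        | bot => exact fun _ _ => bot_le
        | coe v =>
          intro hx hy
          exact WithBot.coe_le_coe.2 (h4 v (WithBot.coe_le_coe.1 hx) (WithBot.coe_le_coe.1 hy))
      · refine ⟨⊥, by simp, bot_le, bot_le, fun v => ?_⟩
        induction v using WithBot.recBotCoe with
        | bot => exact fun _ _ => bot_le
        | coe v =>
          intro hx hy
          exact absurd (WithBot.coe_le_coe.1 hy) (h v (WithBot.coe_le_coe.1 hx))

noncomputable instance : SemilatticeInf Gam :=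
  { (inferInstance : PartialOrder Gam) with
    inf := fun x y => (exists_inf x y).choose
    inf_le_left := fun x y => (exists_inf x y).choose_spec.2.1
    inf_le_right := fun x y => (exists_inf x y).choose_spec.2.2.1
    le_inf := fun x y z h h' => (exists_inf y z).choose_spec.2.2.2 x h h' }

lemma lev_inf_le (x y : Gam) : lev (x ⊓ y) ≤ max (lev x) (lev y) :=
  (exists_inf x y).choose_spec.1

lemma a_inf_b (w : Word) : ((a :: w : Word) : Gam) ⊓ ((b :: w : Word) : Gam) =
    ((Y :: w : Word) : Gam) := by
  refine _root_.le_antisymm ?_ (le_inf (WithBot.coe_le_coe.2 (Y_le_a w))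
    (WithBot.coe_le_coe.2 (Y_le_b w)))
  generalize hz : ((a :: w : Word) : Gam) ⊓ ((b :: w : Word) : Gam) = z
  have h1 : z ≤ ((a :: w : Word) : Gam) := hz ▸ inf_le_left
  have h2 : z ≤ ((b :: w : Word) : Gam) := hz ▸ inf_le_right
  clear hz
  induction z using WithBot.recBotCoe with
  | bot => exact bot_le
  | coe z =>
    exact WithBot.coe_le_coe.2 (le_Y_of_le_a_b (WithBot.coe_le_coe.1 h1) (WithBot.coe_le_coe.1 h2))

/-- the meet of two incomparable words with a common token -/
lemma inf_eq_of_token {x y u : Word} (h : ¬ x ≤ y) (h' : ¬ y ≤ x) (hx : u ∈ At x)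
    (hy : u ∈ At y) : (x : Gam) ⊓ (y : Gam) = ((Y :: u : Word) : Gam) := by
  refine _root_.le_antisymm ?_ (le_inf (WithBot.coe_le_coe.2 (Y_cons_le_of_mem_At hx))
    (WithBot.coe_le_coe.2 (Y_cons_le_of_mem_At hy)))
  generalize hz : (x : Gam) ⊓ (y : Gam) = z
  have h1 : z ≤ (x : Gam) := hz ▸ inf_le_left
  have h2 : z ≤ (y : Gam) := hz ▸ inf_le_right
  clear hz
  induction z using WithBot.recBotCoe with
  | bot => exact bot_le
  | coe z =>
    obtain ⟨u', e1, e2, e3⟩ := common_lower h h' (WithBot.coe_le_coe.1 h1) (WithBot.coe_le_coe.1 h2)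
    obtain ⟨c, i, j, hij, s1, s2⟩ := exists_split x y (fun e => h' (le_of_suffix e))
      (fun e => h (le_of_suffix e))
    have e4 := common_token hij s1 s2 hx hy
    have e5 := common_token hij s1 s2 e1 e2
    rw [e4, ← e5]
    exact WithBot.coe_le_coe.2 (le_of_suffix e3)

/-- the meet of two incomparable words without a common token -/
lemma inf_eq_bot_of_no_token {x y : Word} (h : ¬ x ≤ y) (h' : ¬ y ≤ x)
    (hn : ∀ u, u ∈ At x → u ∉ At y) : (x : Gam) ⊓ (y : Gam) = ⊥ := by
  rw [eq_bot_iff]
  generalize hz : (x : Gam) ⊓ (y : Gam) = z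
  have h1 : z ≤ (x : Gam) := hz ▸ inf_le_left
  have h2 : z ≤ (y : Gam) := hz ▸ inf_le_right
  clear hz
  induction z using WithBot.recBotCoe with
  | bot => exact bot_le
  | coe z =>
    obtain ⟨u', e1, e2, -⟩ := common_lower h h' (WithBot.coe_le_coe.1 h1) (WithBot.coe_le_coe.1 h2)
    exact absurd e2 (hn u' e1)

/-- the words of length at most `n`, and the bottom element -/
noncomputable def levels (n : ℕ) : Finset Gam :=
  insert ⊥ ((List.finite_length_le L n).toFinset.image (WithBot.some : Word → Gam))

lemma mem_levels {n : ℕ} {x : Gam} : x ∈ levels n ↔ lev x ≤ n := by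
  rw [levels, Finset.mem_insert, Finset.mem_image]
  induction x using WithBot.recBotCoe with
  | bot => simp
  | coe x =>
    constructor
    · rintro (h | ⟨w, hw, h⟩)
      · exact absurd h WithBot.coe_ne_bot
      · have : w = x := WithBot.coe_injective h
        subst this
        simpa using hw
    · intro h
      exact Or.inr ⟨x, by simpa using h, rfl⟩

lemma levels_mono : Monotone levels := fun _ _ h _ hx =>
  mem_levels.2 ((mem_levels.1 hx).trans h)

lemma inf_mem_levels {n : ℕ} {x y : Gam} (hx : x ∈ levels n) (hy : y ∈ levels n) :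
    x ⊓ y ∈ levels n :=
  mem_levels.2 ((lev_inf_le x y).trans (max_le (mem_levels.1 hx) (mem_levels.1 hy)))

lemma bot_mem_levels (n : ℕ) : (⊥ : Gam) ∈ levels n := mem_levels.2 (by simp)

lemma top_mem_levels (n : ℕ) : (⊤ : Gam) ∈ levels n := mem_levels.2 (Nat.zero_le _)

lemma exists_mem_levels (x : Gam) : ∃ n, x ∈ levels n := ⟨lev x, mem_levels.2 le_rfl⟩

instance : Countable Gam := inferInstanceAs (Countable (Option Word))

lemma gam_top_eq : (⊤ : Gam) = (([] : Word) : Gam) := rfl

lemma gam_coe_le {x y : Word} : (x : Gam) ≤ (y : Gam) ↔ x ≤ y := WithBot.coe_le_coe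

end MP40506.CX
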